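import Pool.Agent.T1.Defs

/-!
# T1 / AWB: basic properties of `pb`, `aw`, `pm`, `dW`, `gw`, `sw`, `sD`

All statements are direct computations.
-/

namespace Pool.Agent.T1

open MvPolynomial Matrix

section

variable {R S : Type*} [CommRing R] [CommRing S]

private theorem awb_bh_term (c : R) (i j : Fin 2) :
    IsWeightedHomogeneous bw (C c * X (Sum.inl i) * X (Sum.inr j) : P4 R) ((1, 1) : ℕ × ℕ) := by
  have h1 : IsWeightedHomogeneous bw (C c : P4 R) (0 : ℕ × ℕ) := isWeightedHomogeneous_C _ _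
  have h2 : IsWeightedHomogeneous bw (X (Sum.inl i) : P4 R) (bw (Sum.inl i)) :=
    isWeightedHomogeneous_X _ _ _
  have h3 : IsWeightedHomogeneous bw (X (Sum.inr j) : P4 R) (bw (Sum.inr j)) :=
    isWeightedHomogeneous_X _ _ _
  have h := (h1.mul h2).mul h3
  have e : (0 : ℕ × ℕ) + bw (Sum.inl i) + bw (Sum.inr j) = (1, 1) := by simp [bw]
  rwa [e] at h

theorem BH_pb (x : Matrix (Fin 2) (Fin 2) R) : BH (pb x) 1 1 := by
  unfold BH pb
  exact IsWeightedHomogeneous.sum _ _ _ fun i _ => IsWeightedHomogeneous.sum _ _ _ fun j _ => awb_bh_term _ _ _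

theorem eval_pb (x : Matrix (Fin 2) (Fin 2) R) (s t : Fin 2 → R) :
    eval (pt s t) (pb x) = ∑ i, ∑ j, x i j * s i * t j := by
  simp [pb, pt]

theorem map_pb (f : R →+* S) (x : Matrix (Fin 2) (Fin 2) R) : map f (pb x) = pb (x.map f) := by
  simp [pb]

theorem pb_add (x y : Matrix (Fin 2) (Fin 2) R) : pb (x + y) = pb x + pb y := by
  simp [pb, add_mul, Finset.sum_add_distrib]

theorem pb_smul (c : R) (x : Matrix (Fin 2) (Fin 2) R) : pb (c • x) = C c * pb x := by
  simp [pb, Finset.mul_sum, mul_assoc]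
  ring

theorem pb_coeff (x : Matrix (Fin 2) (Fin 2) R) (i j : Fin 2) :
    coeff (Finsupp.single (Sum.inl i) 1 + Finsupp.single (Sum.inr j) 1) (pb x) = x i j := by
  have key : ∀ (k l : Fin 2) (c : R),
      coeff (Finsupp.single (Sum.inl i) 1 + Finsupp.single (Sum.inr j) 1)
        (C c * X (Sum.inl k) * X (Sum.inr l) : P4 R) = if k = i ∧ l = j then c else 0 := by
    intro k l c
    have e : (C c * X (Sum.inl k) * X (Sum.inr l) : P4 R) =
        monomial (Finsupp.single (Sum.inl k) 1 + Finsupp.single (Sum.inr l) 1) c := by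
      rw [mul_assoc]
      simp only [X, monomial_mul, C_mul_monomial, mul_one]
    rw [e, coeff_monomial]
    congr 1
    apply propext
    constructor
    · intro h
      have h1 := DFunLike.congr_fun h (Sum.inl i)
      have h2 := DFunLike.congr_fun h (Sum.inr j)
      simp [Finsupp.single_apply] at h1 h2
      exact ⟨h1, h2⟩
    · rintro ⟨rfl, rfl⟩; rfl
  unfold pb
  simp only [coeff_sum, key]
  fin_cases i <;> fin_cases j <;> simp [Fin.sum_univ_two]

theorem pb_inj {x y : Matrix (Fin 2) (Fin 2) R} (h : pb x = pb y) : x = y := by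
  ext i j
  rw [← pb_coeff x i j, ← pb_coeff y i j, h]

/-- divisibility of `pb x` by a constant is divisibility of all entries -/
theorem pb_dvd {c : R} {x : Matrix (Fin 2) (Fin 2) R} : C c ∣ pb x ↔ ∀ i j, c ∣ x i j := by
  constructor
  · rintro ⟨g, hg⟩ i j
    rw [← pb_coeff x i j, hg, coeff_C_mul]
    exact dvd_mul_right _ _
  · intro h
    choose y hy using h
    refine ⟨pb (Matrix.of y), ?_⟩
    rw [← pb_smul]
    congr 1
    ext i j
    simp [hy i j]

/-- every form of bidegree `(1, 1)` is of the form `pb x` -/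
theorem BH_one_one {f : P4 R} (hf : BH f 1 1) : ∃ x, f = pb x := by
  refine ⟨Matrix.of fun i j => coeff (Finsupp.single (Sum.inl i) 1 + Finsupp.single (Sum.inr j) 1) f, ?_⟩
  ext m
  by_cases hm : ∃ i j, m = Finsupp.single (Sum.inl i) 1 + Finsupp.single (Sum.inr j) 1
  · obtain ⟨i, j, rfl⟩ := hm
    rw [pb_coeff]
    rfl
  · have hz : ∀ g : P4 R, BH g 1 1 → coeff m g = 0 := by
      intro g hg
      by_contra hne
      have hw := hg hne
      apply hm
      have hsum : Finsupp.weight bw m = ∑ i, m i • bw i := by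
        rw [Finsupp.weight_apply, Finsupp.sum_fintype]
        intro i; simp
      rw [hsum] at hw
      simp only [Fintype.sum_sum_type, Fin.sum_univ_two, bw, Sum.elim_inl, Sum.elim_inr, Prod.ext_iff,
        Prod.fst_add, Prod.snd_add, Prod.smul_fst, Prod.smul_snd, smul_eq_mul, mul_one, mul_zero,
        add_zero, zero_add] at hw
      obtain ⟨h1, h2⟩ := hw
      have hl : ∃ i : Fin 2, m (Sum.inl i) = 1 ∧ ∀ k, k ≠ i → m (Sum.inl k) = 0 := by
        rcases Nat.eq_zero_or_pos (m (Sum.inl 0)) with h0 | h0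
        · refine ⟨1, by omega, ?_⟩
          intro k hk
          fin_cases k
          · exact h0
          · exact absurd rfl hk
        · refine ⟨0, by omega, ?_⟩
          intro k hk
          fin_cases k
          · exact absurd rfl hk
          · show m (Sum.inl 1) = 0
            omega
      have hr : ∃ i : Fin 2, m (Sum.inr i) = 1 ∧ ∀ k, k ≠ i → m (Sum.inr k) = 0 := by
        rcases Nat.eq_zero_or_pos (m (Sum.inr 0)) with h0 | h0
        · refine ⟨1, by omega, ?_⟩
          intro k hk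
          fin_cases k
          · exact h0
          · exact absurd rfl hk
        · refine ⟨0, by omega, ?_⟩
          intro k hk
          fin_cases k
          · exact absurd rfl hk
          · show m (Sum.inr 1) = 0
            omega
      obtain ⟨i, hi, hi'⟩ := hl
      obtain ⟨j, hj, hj'⟩ := hr
      refine ⟨i, j, ?_⟩
      ext a
      rcases a with k | k
      · by_cases hk : k = i
        · subst hk; simp [hi]
        · rw [hi' k hk]
          simp [Finsupp.single_apply, Ne.symm hk]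
      · by_cases hk : k = j
        · subst hk; simp [hj]
        · rw [hj' k hk]
          simp [Finsupp.single_apply, Ne.symm hk]
    rw [hz f hf, hz _ (BH_pb _)]

theorem pm_apply (M : Web R) (a b : Fin 3) : pm M a b = pb (Matrix.of fun i j => M i j a b) := rfl

theorem pm_inj {M N : Web R} (h : pm M = pm N) : M = N := by
  funext i j
  ext a b
  have h1 := congrFun (congrFun h a) b
  rw [pm_apply, pm_apply] at h1
  exact congrFun (congrFun (pb_inj h1) i) j

theorem pm_symm {M : Web R} (hM : Sy M) : (pm M)ᵀ = pm M := by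
  ext1 a b
  rw [Matrix.transpose_apply, pm_apply, pm_apply]
  congr 1
  ext i j
  have := congrFun (congrFun (hM i j) a) b
  simpa using this

theorem map_pm (f : R →+* S) (M : Web R) : (pm M).map (map f) = pm (mapW f M) := by
  ext1 a b
  rw [Matrix.map_apply, pm_apply, pm_apply, map_pb]
  rfl

theorem map_dW (f : R →+* S) (M : Web R) : map f (dW M) = dW (mapW f M) := by
  unfold dW
  rw [RingHom.map_det, ← map_pm]
  rfl

theorem eval_pm (M : Web R) (s t : Fin 2 → R) : (pm M).map (eval (pt s t)) = aw M s t := by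
  ext1 a b
  rw [Matrix.map_apply, pm_apply, eval_pb]
  simp only [aw, Matrix.sum_apply, Matrix.smul_apply, Matrix.of_apply, smul_eq_mul]
  refine Finset.sum_congr rfl fun i _ => Finset.sum_congr rfl fun j _ => ?_
  ring

theorem eval_dW (M : Web R) (s t : Fin 2 → R) : eval (pt s t) (dW M) = (aw M s t).det := by
  unfold dW
  rw [RingHom.map_det, ← eval_pm]
  rfl

private theorem awb_mul {f g : P4 R} {m n m' n' : ℕ} (hf : BH f m n) (hg : BH g m' n') :
    BH (f * g) (m + m') (n + n') := IsWeightedHomogeneous.mul hf hg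

private theorem awb_sub {f g : P4 R} {m n : ℕ} (hf : BH f m n) (hg : BH g m n) : BH (f - g) m n := by
  unfold BH at *
  have := (weightedHomogeneousSubmodule R bw ((m, n) : ℕ × ℕ)).sub_mem hf hg
  exact this

private theorem awb_add {f g : P4 R} {m n : ℕ} (hf : BH f m n) (hg : BH g m n) : BH (f + g) m n :=
  IsWeightedHomogeneous.add hf hg

private theorem awb_neg {f : P4 R} {m n : ℕ} (hf : BH f m n) : BH (-f) m n := by
  unfold BH at *
  exact (weightedHomogeneousSubmodule R bw ((m, n) : ℕ × ℕ)).neg_mem hf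

private theorem awb_pm (M : Web R) (a b : Fin 3) : BH (pm M a b) 1 1 := by
  rw [pm_apply]; exact BH_pb _

private theorem awb_p2 (M : Web R) (a b c d : Fin 3) : BH (pm M a b * pm M c d) 2 2 :=
  awb_mul (awb_pm M a b) (awb_pm M c d)

private theorem awb_p3 (M : Web R) (a b c d e f : Fin 3) :
    BH (pm M a b * pm M c d * pm M e f) 3 3 :=
  awb_mul (awb_p2 M a b c d) (awb_pm M e f)

theorem BH_dW (M : Web R) : BH (dW M) 3 3 := by
  unfold dW
  rw [Matrix.det_fin_three]
  exact awb_sub (awb_add (awb_add (awb_sub (awb_sub (awb_p3 M _ _ _ _ _ _) (awb_p3 M _ _ _ _ _ _))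
    (awb_p3 M _ _ _ _ _ _)) (awb_p3 M _ _ _ _ _ _)) (awb_p3 M _ _ _ _ _ _)) (awb_p3 M _ _ _ _ _ _)

private theorem awb_adj {T : Type*} [CommRing T] (A : Matrix (Fin 3) (Fin 3) T) (a b : Fin 3) :
    ∃ c d e f g h i j : Fin 3, A.adjugate a b = A c d * A e f - A g h * A i j := by
  rw [Matrix.adjugate_fin_three]
  fin_cases a <;> fin_cases b
  · exact ⟨1, 1, 2, 2, 1, 2, 2, 1, by simp⟩
  · exact ⟨0, 2, 2, 1, 0, 1, 2, 2, by simp; ring⟩
  · exact ⟨0, 1, 1, 2, 0, 2, 1, 1, by simp⟩
  · exact ⟨1, 2, 2, 0, 1, 0, 2, 2, by simp; ring⟩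
  · exact ⟨0, 0, 2, 2, 0, 2, 2, 0, by simp⟩
  · exact ⟨0, 2, 1, 0, 0, 0, 1, 2, by simp; ring⟩
  · exact ⟨1, 0, 2, 1, 1, 1, 2, 0, by simp⟩
  · exact ⟨0, 1, 2, 0, 0, 0, 2, 1, by simp; ring⟩
  · exact ⟨0, 0, 1, 1, 0, 1, 1, 0, by simp⟩

theorem BH_adj (M : Web R) (a b : Fin 3) : BH ((pm M).adjugate a b) 2 2 := by
  obtain ⟨c, d, e, f, g, h, i, j, hh⟩ := awb_adj (pm M) a b
  rw [hh]
  exact awb_sub (awb_p2 M _ _ _ _) (awb_p2 M _ _ _ _)

private theorem awb_alg (A N : Matrix (Fin 3) (Fin 3) R) :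
    (A.adjugate * N).trace =
      A 0 0 * A 1 1 * N 2 2 + A 2 2 * (A 0 0 * N 1 1 + A 1 1 * N 0 0)
        - (A 0 0 * A 1 2 * N 2 1 + A 2 1 * (A 0 0 * N 1 2 + A 1 2 * N 0 0))
        - (A 0 1 * A 1 0 * N 2 2 + A 2 2 * (A 0 1 * N 1 0 + A 1 0 * N 0 1))
        + (A 0 1 * A 1 2 * N 2 0 + A 2 0 * (A 0 1 * N 1 2 + A 1 2 * N 0 1))
        + (A 0 2 * A 1 0 * N 2 1 + A 2 1 * (A 0 2 * N 1 0 + A 1 0 * N 0 2))
        - (A 0 2 * A 1 1 * N 2 0 + A 2 0 * (A 0 2 * N 1 1 + A 1 1 * N 0 2)) := by
  rw [Matrix.trace_fin_three]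
  simp only [Matrix.mul_apply, Fin.sum_univ_three]
  rw [Matrix.adjugate_fin_three]
  simp
  ring

private theorem awb_pd (M : Web R) (v : Fin 2 ⊕ Fin 2) (s t : Fin 2 → R)
    (N : Matrix (Fin 3) (Fin 3) R) (hN : ∀ a b, eval (pt s t) (pderiv v (pm M a b)) = N a b) :
    eval (pt s t) (pderiv v (dW M)) = ((aw M s t).adjugate * N).trace := by
  have hA : ∀ a b, eval (pt s t) (pm M a b) = aw M s t a b := by
    intro a b
    rw [← eval_pm]; rfl
  rw [awb_alg]
  unfold dW
  rw [Matrix.det_fin_three]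
  simp only [map_sub, map_add, Derivation.leibniz, smul_eq_mul, map_mul, hN, hA]

theorem pd_l (M : Web R) (s t : Fin 2 → R) (i : Fin 2) :
    eval (pt s t) (pderiv (Sum.inl i) (dW M)) =
      ((aw M s t).adjugate * aw M (Pi.single i 1) t).trace := by
  apply awb_pd
  intro a b
  rw [pm_apply, pb]
  fin_cases i <;>
    simp [Fin.sum_univ_two, pderiv_X, Derivation.leibniz, pt, aw, Matrix.add_apply] <;> ring

theorem pd_r (M : Web R) (s t : Fin 2 → R) (j : Fin 2) :
    eval (pt s t) (pderiv (Sum.inr j) (dW M)) =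
      ((aw M s t).adjugate * aw M s (Pi.single j 1)).trace := by
  apply awb_pd
  intro a b
  rw [pm_apply, pb]
  fin_cases j <;>
    simp [Fin.sum_univ_two, pderiv_X, Derivation.leibniz, pt, aw, Matrix.add_apply] <;> ring

theorem aw_add_l (M : Web R) (s s' t : Fin 2 → R) : aw M (s + s') t = aw M s t + aw M s' t := by
  simp [aw, add_mul, add_smul, Finset.sum_add_distrib]

theorem aw_add_r (M : Web R) (s t t' : Fin 2 → R) : aw M s (t + t') = aw M s t + aw M s t' := by
  simp [aw, mul_add, add_smul, Finset.sum_add_distrib]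

theorem aw_smul_l (M : Web R) (c : R) (s t : Fin 2 → R) : aw M (c • s) t = c • aw M s t := by
  simp [aw, Finset.smul_sum, mul_assoc, mul_smul]

theorem aw_smul_r (M : Web R) (c : R) (s t : Fin 2 → R) : aw M s (c • t) = c • aw M s t := by
  simp only [aw, Finset.smul_sum, Pi.smul_apply, smul_eq_mul, smul_smul]
  refine Finset.sum_congr rfl fun i _ => Finset.sum_congr rfl fun j _ => ?_
  congr 1; ring

theorem aw_add (M N : Web R) (s t : Fin 2 → R) : aw (M + N) s t = aw M s t + aw N s t := by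
  simp [aw, Finset.sum_add_distrib]

theorem aw_smul (c : R) (M : Web R) (s t : Fin 2 → R) : aw (c • M) s t = c • aw M s t := by
  simp only [aw, Finset.smul_sum, Pi.smul_apply, smul_smul]
  refine Finset.sum_congr rfl fun i _ => Finset.sum_congr rfl fun j _ => ?_
  congr 1; ring

theorem aw_symm {M : Web R} (hM : Sy M) (s t : Fin 2 → R) : (aw M s t)ᵀ = aw M s t := by
  simp only [aw, Matrix.transpose_sum, Matrix.transpose_smul, hM _ _]

theorem aw_map (f : R →+* S) (M : Web R) (s t : Fin 2 → R) :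
    (aw M s t).map f = aw (mapW f M) (fun i => f (s i)) (fun j => f (t j)) := by
  ext1 a b
  simp [aw, mapW, Matrix.sum_apply]

theorem aw_ap (M : Web R) (s t : Fin 2 → R) : aw M s t = ap (fun j => aw M s (Pi.single j 1)) t := by
  simp [aw, ap, Fin.sum_univ_two, smul_smul, mul_comm]
  abel

theorem aw_single (M : Web R) (i j : Fin 2) : aw M (Pi.single i 1) (Pi.single j 1) = M i j := by
  unfold aw
  fin_cases i <;> fin_cases j <;> simp [Fin.sum_univ_two]

theorem aw_gw (h : Matrix (Fin 3) (Fin 3) R) (M : Web R) (s t : Fin 2 → R) :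
    aw (gw h M) s t = hᵀ * aw M s t * h := by
  simp only [aw, gw, Matrix.mul_sum, Matrix.sum_mul, Matrix.mul_smul, Matrix.smul_mul]

theorem aw_sw (p q : Matrix (Fin 2) (Fin 2) R) (M : Web R) (s t : Fin 2 → R) :
    aw (sw p q M) s t = aw M (p *ᵥ s) (q *ᵥ t) := by
  ext1 a b
  simp only [aw, sw, Fin.sum_univ_two, Matrix.add_apply, Matrix.smul_apply, smul_eq_mul,
    Matrix.mulVec, dotProduct]
  ring

theorem pm_smul (c : R) (M : Web R) : pm (c • M) = (C c : P4 R) • pm M := by
  ext1 a b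
  rw [Matrix.smul_apply, pm_apply, pm_apply, smul_eq_mul, ← pb_smul]
  rfl

theorem pm_gw (h : Matrix (Fin 3) (Fin 3) R) (M : Web R) : pm (gw h M) = (h.map C)ᵀ * pm M * h.map C := by
  ext1 a b
  simp only [Matrix.mul_apply, Matrix.transpose_apply, Matrix.map_apply, pm_apply, pb, gw,
    Matrix.of_apply, Fin.sum_univ_two, Fin.sum_univ_three, map_add, map_mul]
  ring

theorem pm_sw (p q : Matrix (Fin 2) (Fin 2) R) (M : Web R) : pm (sw p q M) = (pm M).map (sD p q) := by
  ext1 a b
  simp only [Matrix.map_apply, pm_apply, pb, sw, sD,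
    Matrix.of_apply, Fin.sum_univ_two, map_add, map_mul, aeval_X, Sum.elim_inl, Sum.elim_inr,
    Matrix.add_apply, Matrix.smul_apply, smul_eq_mul, aeval_C, MvPolynomial.algebraMap_eq]
  ring

theorem dW_smul (c : R) (M : Web R) : dW (c • M) = C (c ^ 3) * dW M := by
  unfold dW
  rw [pm_smul, Matrix.det_smul]
  simp

theorem dW_gw (h : Matrix (Fin 3) (Fin 3) R) (M : Web R) : dW (gw h M) = C (h.det ^ 2) * dW M := by
  unfold dW
  have e : (h.map C).det = (C h.det : P4 R) := by
    rw [RingHom.map_det]; rfl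
  rw [pm_gw, Matrix.det_mul, Matrix.det_mul, Matrix.det_transpose, e]
  rw [map_pow]
  ring

theorem dW_sw (p q : Matrix (Fin 2) (Fin 2) R) (M : Web R) : dW (sw p q M) = sD p q (dW M) := by
  unfold dW
  rw [pm_sw, AlgHom.map_det]
  rfl

theorem Sy.smul {M : Web R} (hM : Sy M) (c : R) : Sy (c • M) := by
  intro i j
  simp only [Pi.smul_apply, Matrix.transpose_smul, hM i j]

theorem Sy.gw {M : Web R} (hM : Sy M) (h : Matrix (Fin 3) (Fin 3) R) : Sy (gw h M) := by
  intro i j
  simp only [T1.gw, Matrix.transpose_mul, Matrix.transpose_transpose, hM i j, Matrix.mul_assoc]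

theorem Sy.sw {M : Web R} (hM : Sy M) (p q : Matrix (Fin 2) (Fin 2) R) : Sy (sw p q M) := by
  intro i j
  simp only [T1.sw, Matrix.transpose_sum, Matrix.transpose_smul, hM _ _]

theorem Sy.mapW {M : Web R} (hM : Sy M) (f : R → S) : Sy (mapW f M) := by
  intro i j
  show ((M i j).map f)ᵀ = (M i j).map f
  rw [← Matrix.transpose_map, hM i j]

theorem gw_gw (h h' : Matrix (Fin 3) (Fin 3) R) (M : Web R) : gw h' (gw h M) = gw (h * h') M := by
  funext i j
  simp only [gw, Matrix.transpose_mul, Matrix.mul_assoc]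

theorem sw_gw (p q : Matrix (Fin 2) (Fin 2) R) (h : Matrix (Fin 3) (Fin 3) R) (M : Web R) :
    sw p q (gw h M) = gw h (sw p q M) := by
  funext i j
  simp only [sw, gw, Matrix.mul_sum, Matrix.sum_mul, Matrix.mul_smul, Matrix.smul_mul]

theorem mapW_gw (f : R →+* S) (h : Matrix (Fin 3) (Fin 3) R) (M : Web R) :
    mapW f (gw h M) = gw (h.map f) (mapW f M) := by
  funext i j
  simp only [mapW, gw, Matrix.map_mul, Matrix.transpose_map]

theorem mapW_sw (f : R →+* S) (p q : Matrix (Fin 2) (Fin 2) R) (M : Web R) :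
    mapW f (sw p q M) = sw (p.map f) (q.map f) (mapW f M) := by
  funext i j
  ext1 a b
  simp [mapW, sw, Matrix.sum_apply]

end

end Pool.Agent.T1
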