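import Pool.Agent.T1.Defs

/-!
# T1 / AWD: basic properties of `sD`, `dh`, `BH`

`eval_sD`: `eval (pt s t) ∘ aeval f` is the evaluation at `pt (p s) (q t)` (`MvPolynomial.ringHom_ext` or `aeval`/`eval₂` lemmas).
`BH_sD`: induction on monomials: the image of a monomial of weight `(m, n)` is a product of `m` linear forms in `X (inl _)` and `n`
linear forms in `X (inr _)` (`IsWeightedHomogeneous.mul`, `.prod`, `.sum`).  `smo_sD`: chain rule: if `(s, t)` is a singular point of
`sD p q D` then `(p s, q t)` is one of `D`: the derivatives of `sD p q D` at `(s, t)` are `∑ k, p k i * (pderiv (inl k) D)(p s, q t)`, and `p`, `q`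
are invertible; also `p s ≠ 0`.  `dh`: coefficients: for `f` of bidegree `(m, n)` the monomial
`X₀^a X₁^b` of `dh f` has the coefficient of `s₀^(m-a) s₁^a t₀^(n-b) t₁^b` in `f`, so `dh` is injective on forms of a fixed bidegree, and
`dh_surj`: the preimage is the obvious sum (`Finset.range (m+1) ×ˢ Finset.range (n+1)` or a sum over the support of `f`).
-/

namespace Pool.Agent.T1

open MvPolynomial Matrix

section

variable {R S : Type*} [CommRing R] [CommRing S]

private theorem AWD_wt (d : Fin 2 ⊕ Fin 2 →₀ ℕ) :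
    Finsupp.weight bw d = (d (Sum.inl 0) + d (Sum.inl 1), d (Sum.inr 0) + d (Sum.inr 1)) := by
  rw [Finsupp.weight_apply, Finsupp.sum_fintype _ _ (fun i => by simp)]
  rw [Fintype.sum_sum_type, Fin.sum_univ_two, Fin.sum_univ_two]
  refine Prod.ext ?_ ?_
  · simp only [bw, Sum.elim_inl, Sum.elim_inr, Prod.fst_add, Prod.smul_fst, smul_eq_mul]
    ring
  · simp only [bw, Sum.elim_inl, Sum.elim_inr, Prod.snd_add, Prod.smul_snd, smul_eq_mul]
    ring

private theorem AWD_iff {f : P4 R} {m n : ℕ} : BH f m n ↔ ∀ d, coeff d f ≠ 0 →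
    d (Sum.inl 0) + d (Sum.inl 1) = m ∧ d (Sum.inr 0) + d (Sum.inr 1) = n := by
  constructor
  · intro h d hd
    have h1 := h hd
    rw [AWD_wt] at h1
    exact ⟨congrArg Prod.fst h1, congrArg Prod.snd h1⟩
  · intro h d hd
    rw [AWD_wt, (h d hd).1, (h d hd).2]

theorem BH.mul {f g : P4 R} {m n m' n' : ℕ} (hf : BH f m n) (hg : BH g m' n') :
    BH (f * g) (m + m') (n + n') := IsWeightedHomogeneous.mul hf hg

theorem BH.add {f g : P4 R} {m n : ℕ} (hf : BH f m n) (hg : BH g m n) : BH (f + g) m n :=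
  IsWeightedHomogeneous.add hf hg

theorem BH.sub {f g : P4 R} {m n : ℕ} (hf : BH f m n) (hg : BH g m n) : BH (f - g) m n :=
  (weightedHomogeneousSubmodule R bw (m, n)).sub_mem hf hg

theorem BH.C_mul {f : P4 R} {m n : ℕ} (hf : BH f m n) (c : R) : BH (C c * f) m n := by
  rw [AWD_iff] at hf ⊢
  intro d hd
  rw [coeff_C_mul] at hd
  exact hf d fun h => hd (by rw [h, mul_zero])

theorem BH.map (φ : R →+* S) {f : P4 R} {m n : ℕ} (hf : BH f m n) : BH (map φ f) m n := by
  rw [AWD_iff] at hf ⊢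
  intro d hd
  rw [coeff_map] at hd
  exact hf d fun h => hd (by rw [h, map_zero])

/-- values of forms -/
theorem BH.eval_smul {f : P4 R} {m n : ℕ} (hf : BH f m n) (a b : R) (s t : Fin 2 → R) :
    eval (pt (a • s) (b • t)) f = a ^ m * b ^ n * eval (pt s t) f := by
  rw [AWD_iff] at hf
  rw [eval_eq', eval_eq', Finset.mul_sum]
  refine Finset.sum_congr rfl fun d hd => ?_
  obtain ⟨h1, h2⟩ := hf d (mem_support_iff.1 hd)
  rw [Fintype.prod_sum_type, Fintype.prod_sum_type]
  simp only [Fin.prod_univ_two, pt, Sum.elim_inl, Sum.elim_inr, Pi.smul_apply, smul_eq_mul]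
  rw [← h1, ← h2]
  ring

/-- forms of bidegree `(0, 0)` are constants -/
theorem BH.zero {f : P4 R} (hf : BH f 0 0) : ∃ c, f = C c := by
  rw [AWD_iff] at hf
  refine ⟨coeff 0 f, ?_⟩
  ext d
  rw [coeff_C]
  split_ifs with h
  · rw [h]
  · by_contra hd
    obtain ⟨h1, h2⟩ := hf d hd
    apply h
    symm
    ext i
    rcases i with i | i <;> fin_cases i <;> simp <;> omega

/-- two polynomials with the same values over an infinite domain are equal -/
theorem p4_ext [IsDomain R] [Infinite R] {f g : P4 R}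
    (h : ∀ s t : Fin 2 → R, eval (pt s t) f = eval (pt s t) g) : f = g := by
  refine MvPolynomial.funext fun x => ?_
  have hx : x = pt (fun i => x (Sum.inl i)) (fun i => x (Sum.inr i)) := by
    funext i
    rcases i with i | i <;> rfl
  rw [hx]
  exact h _ _

/-- two forms with the same values at all `s ≠ 0`, `t ≠ 0` over an infinite domain are equal -/
theorem p4_ext' [IsDomain R] [Infinite R] {f g : P4 R}
    (h : ∀ s t : Fin 2 → R, s ≠ 0 → t ≠ 0 → eval (pt s t) f = eval (pt s t) g) : f = g := by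
  have h1 : f * X (Sum.inl 0) * X (Sum.inr 0) = g * X (Sum.inl 0) * X (Sum.inr 0) := by
    refine p4_ext fun s t => ?_
    simp only [map_mul, eval_X, pt, Sum.elim_inl, Sum.elim_inr]
    by_cases hs : s = 0
    · rw [hs]; simp
    by_cases ht : t = 0
    · rw [ht]; simp
    have := h s t hs ht
    unfold pt at this
    rw [this]
  have h2 := mul_right_cancel₀ (X_ne_zero _) h1
  exact mul_right_cancel₀ (X_ne_zero _) h2

theorem eval_sD (p q : Matrix (Fin 2) (Fin 2) R) (f : P4 R) (s t : Fin 2 → R) :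
    eval (pt s t) (sD p q f) = eval (pt (p *ᵥ s) (q *ᵥ t)) f := by
  induction f using MvPolynomial.induction_on with
  | C a => simp [sD]
  | add f g hf hg => rw [map_add, map_add, map_add, hf, hg]
  | mul_X f i hf =>
    rw [map_mul, map_mul, map_mul, hf]
    congr 1
    rcases i with i | i
    · fin_cases i <;> simp [sD, pt, Matrix.mulVec, dotProduct, Fin.sum_univ_two]
    · fin_cases i <;> simp [sD, pt, Matrix.mulVec, dotProduct, Fin.sum_univ_two]

private theorem AWD_X1 (i : Fin 2) : BH (X (Sum.inl i) : P4 R) 1 0 := isWeightedHomogeneous_X R bw (Sum.inl i)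

private theorem AWD_X2 (i : Fin 2) : BH (X (Sum.inr i) : P4 R) 0 1 := isWeightedHomogeneous_X R bw (Sum.inr i)

private theorem AWD_pow {f : P4 R} {m n : ℕ} (hf : BH f m n) (k : ℕ) : BH (f ^ k) (k * m) (k * n) := by
  induction k with
  | zero =>
    rw [pow_zero, zero_mul, zero_mul]
    exact isWeightedHomogeneous_one R bw
  | succ k ih =>
    rw [pow_succ, add_mul, add_mul, one_mul, one_mul]
    exact ih.mul hf

private theorem AWD_sum {ι : Type*} (s : Finset ι) (f : ι → P4 R) {m n : ℕ}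
    (h : ∀ i ∈ s, BH (f i) m n) : BH (∑ i ∈ s, f i) m n :=
  (weightedHomogeneousSubmodule R bw (m, n)).sum_mem h

theorem BH_sD (p q : Matrix (Fin 2) (Fin 2) R) {f : P4 R} {m n : ℕ} (hf : BH f m n) :
    BH (sD p q f) m n := by
  rw [AWD_iff] at hf
  have h0 : sD p q f = ∑ d ∈ f.support, sD p q (monomial d (coeff d f)) := by
    conv_lhs => rw [f.as_sum]
    rw [map_sum]
  rw [h0]
  refine AWD_sum _ _ fun d hd => ?_
  obtain ⟨h1, h2⟩ := hf d (mem_support_iff.1 hd)
  have hA : ∀ k, BH (∑ i, C (p k i) * X (Sum.inl i) : P4 R) 1 0 := fun k =>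
    AWD_sum _ _ fun i _ => (AWD_X1 i).C_mul _
  have hB : ∀ k, BH (∑ i, C (q k i) * X (Sum.inr i) : P4 R) 0 1 := fun k =>
    AWD_sum _ _ fun i _ => (AWD_X2 i).C_mul _
  have h3 : sD p q (monomial d (coeff d f)) = C (coeff d f) *
      (((∑ i, C (p 0 i) * X (Sum.inl i)) ^ d (Sum.inl 0) *
        (∑ i, C (p 1 i) * X (Sum.inl i)) ^ d (Sum.inl 1)) *
       ((∑ i, C (q 0 i) * X (Sum.inr i)) ^ d (Sum.inr 0) *
        (∑ i, C (q 1 i) * X (Sum.inr i)) ^ d (Sum.inr 1))) := by
    unfold sD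
    rw [aeval_monomial, Finsupp.prod_fintype _ _ (fun i => by simp), Fintype.prod_sum_type]
    simp only [Fin.prod_univ_two, Sum.elim_inl, Sum.elim_inr]
    rfl
  rw [h3]
  have h4 := ((AWD_pow (hA 0) (d (Sum.inl 0))).mul (AWD_pow (hA 1) (d (Sum.inl 1)))).mul
    ((AWD_pow (hB 0) (d (Sum.inr 0))).mul (AWD_pow (hB 1) (d (Sum.inr 1))))
  have h5 := h4.C_mul (coeff d f)
  simp only [mul_one, mul_zero, add_zero, zero_add, h1, h2] at h5
  exact h5

theorem map_sD (φ : R →+* S) (p q : Matrix (Fin 2) (Fin 2) R) (f : P4 R) :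
    map φ (sD p q f) = sD (p.map φ) (q.map φ) (map φ f) := by
  induction f using MvPolynomial.induction_on with
  | C a => simp [sD]
  | add f g hf hg => simp only [map_add, hf, hg]
  | mul_X f i hf =>
    rw [map_mul, map_mul, map_mul, map_mul, hf]
    congr 1
    rcases i with i | i
    · simp [sD, Fin.sum_univ_two]
    · simp [sD, Fin.sum_univ_two]

theorem sD_C (p q : Matrix (Fin 2) (Fin 2) R) (c : R) : sD p q (C c) = C c := by
  unfold sD
  rw [aeval_C]
  rfl

theorem sD_sD (p q p' q' : Matrix (Fin 2) (Fin 2) R) (f : P4 R) :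
    sD p' q' (sD p q f) = sD (p * p') (q * q') f := by
  induction f using MvPolynomial.induction_on with
  | C a => rw [sD_C, sD_C, sD_C]
  | add f g hf hg => simp only [map_add, hf, hg]
  | mul_X f i hf =>
    rw [map_mul, map_mul, map_mul, hf]
    congr 1
    rcases i with i | i
    · simp [sD, Fin.sum_univ_two, Matrix.mul_apply]
      ring
    · simp [sD, Fin.sum_univ_two, Matrix.mul_apply]
      ring

theorem sD_one (f : P4 R) : sD 1 1 f = f := by
  induction f using MvPolynomial.induction_on with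
  | C a => rw [sD_C]
  | add f g hf hg => simp only [map_add, hf, hg]
  | mul_X f i hf =>
    rw [map_mul, hf]
    congr 1
    rcases i with i | i <;> fin_cases i <;> simp [sD, Fin.sum_univ_two]

private theorem AWD_chain (p q : Matrix (Fin 2) (Fin 2) R) (f : P4 R) (i : Fin 2 ⊕ Fin 2) :
    pderiv i (sD p q f) = ∑ k, sD p q (pderiv k f) * pderiv i (sD p q (X k)) := by
  induction f using MvPolynomial.induction_on with
  | C a => simp [sD_C]
  | add f g hf hg =>
    simp only [map_add, hf, hg, add_mul, Finset.sum_add_distrib]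
  | mul_X f j hf =>
    rw [map_mul, pderiv_mul, hf]
    have h1 : ∀ k, sD p q (pderiv k (f * X j)) * pderiv i (sD p q (X k)) =
        sD p q (pderiv k f) * pderiv i (sD p q (X k)) * sD p q (X j) +
          (if k = j then sD p q f * pderiv i (sD p q (X k)) else 0) := by
      intro k
      rw [pderiv_mul, pderiv_X, map_add, map_mul]
      by_cases hk : k = j
      · subst hk
        simp
        ring
      · rw [Pi.single_eq_of_ne (Ne.symm hk), if_neg hk]
        simp
        ring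
    rw [Finset.sum_congr rfl fun k _ => h1 k, Finset.sum_add_distrib, ← Finset.sum_mul,
      Finset.sum_ite_eq' Finset.univ j]
    simp

private theorem AWD_p1 (p q : Matrix (Fin 2) (Fin 2) R) (f : P4 R) (i : Fin 2) (s t : Fin 2 → R) :
    eval (pt s t) (pderiv (Sum.inl i) (sD p q f)) =
      ∑ k, p k i * eval (pt (p *ᵥ s) (q *ᵥ t)) (pderiv (Sum.inl k) f) := by
  rw [AWD_chain, map_sum, Fintype.sum_sum_type]
  simp only [map_mul, eval_sD]
  have h1 : ∀ k : Fin 2, eval (pt s t) (pderiv (Sum.inl i) (sD p q (X (Sum.inl k)))) = p k i := by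
    intro k
    simp only [sD, aeval_X, Sum.elim_inl, map_sum, pderiv_C_mul, pderiv_X]
    fin_cases i <;> simp [Fin.sum_univ_two, Pi.single_apply]
  have h2 : ∀ k : Fin 2, eval (pt s t) (pderiv (Sum.inl i) (sD p q (X (Sum.inr k)))) = 0 := by
    intro k
    simp only [sD, aeval_X, Sum.elim_inr, map_sum, pderiv_C_mul, pderiv_X]
    fin_cases i <;> simp [Fin.sum_univ_two, Pi.single_apply]
  simp only [h1, h2, mul_zero, Finset.sum_const_zero, add_zero]
  exact Finset.sum_congr rfl fun k _ => mul_comm _ _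

private theorem AWD_p2 (p q : Matrix (Fin 2) (Fin 2) R) (f : P4 R) (i : Fin 2) (s t : Fin 2 → R) :
    eval (pt s t) (pderiv (Sum.inr i) (sD p q f)) =
      ∑ k, q k i * eval (pt (p *ᵥ s) (q *ᵥ t)) (pderiv (Sum.inr k) f) := by
  rw [AWD_chain, map_sum, Fintype.sum_sum_type]
  simp only [map_mul, eval_sD]
  have h1 : ∀ k : Fin 2, eval (pt s t) (pderiv (Sum.inr i) (sD p q (X (Sum.inr k)))) = q k i := by
    intro k
    simp only [sD, aeval_X, Sum.elim_inr, map_sum, pderiv_C_mul, pderiv_X]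
    fin_cases i <;> simp [Fin.sum_univ_two, Pi.single_apply]
  have h2 : ∀ k : Fin 2, eval (pt s t) (pderiv (Sum.inr i) (sD p q (X (Sum.inl k)))) = 0 := by
    intro k
    simp only [sD, aeval_X, Sum.elim_inl, map_sum, pderiv_C_mul, pderiv_X]
    fin_cases i <;> simp [Fin.sum_univ_two, Pi.single_apply]
  simp only [h1, h2, mul_zero, Finset.sum_const_zero, zero_add]
  exact Finset.sum_congr rfl fun k _ => mul_comm _ _

private theorem AWD_mv {k : Type*} [Field k] {p : Matrix (Fin 2) (Fin 2) k} (hp : p.det ≠ 0)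
    {s : Fin 2 → k} (hs : s ≠ 0) : p *ᵥ s ≠ 0 := by
  intro h
  exact hs (Matrix.eq_zero_of_mulVec_eq_zero hp h)

private theorem AWD_vm {k : Type*} [Field k] {p : Matrix (Fin 2) (Fin 2) k} (hp : p.det ≠ 0)
    {v : Fin 2 → k} (h : ∀ i, ∑ j, p j i * v j = 0) : v = 0 := by
  have h1 : pᵀ *ᵥ v = 0 := by
    funext i
    simp only [Matrix.mulVec, dotProduct, Matrix.transpose_apply, Pi.zero_apply]
    exact h i
  exact Matrix.eq_zero_of_mulVec_eq_zero (by rwa [Matrix.det_transpose]) h1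

theorem smo_sD {k : Type*} [Field k] {p q : Matrix (Fin 2) (Fin 2) k} (hp : p.det ≠ 0)
    (hq : q.det ≠ 0) {D : P4 k} (hD : Smo D) : Smo (sD p q D) := by
  intro s t hs ht h0
  rw [eval_sD] at h0
  obtain ⟨i, hi⟩ := hD _ _ (AWD_mv hp hs) (AWD_mv hq ht) h0
  by_contra hc
  push Not at hc
  rcases i with i | i
  · have h1 := AWD_vm hp (v := fun j => eval (pt (p *ᵥ s) (q *ᵥ t)) (pderiv (Sum.inl j) D))
      (fun j => by rw [← AWD_p1]; exact hc _)
    exact hi (congrFun h1 i)
  · have h1 := AWD_vm hq (v := fun j => eval (pt (p *ᵥ s) (q *ᵥ t)) (pderiv (Sum.inr j) D))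
      (fun j => by rw [← AWD_p2]; exact hc _)
    exact hi (congrFun h1 i)

theorem smo_C {k : Type*} [Field k] {c : k} (hc : c ≠ 0) {D : P4 k} (hD : Smo D) : Smo (C c * D) := by
  intro s t hs ht h0
  rw [map_mul, eval_C] at h0
  obtain ⟨i, hi⟩ := hD s t hs ht ((mul_eq_zero.1 h0).resolve_left hc)
  refine ⟨i, ?_⟩
  rw [pderiv_C_mul, map_mul, eval_C]
  exact mul_ne_zero hc hi

theorem Smo.ne_zero {k : Type*} [Field k] {D : P4 k} (hD : Smo D) : D ≠ 0 := by
  intro h
  have h1 : (fun _ => 1 : Fin 2 → k) ≠ 0 := fun h2 => one_ne_zero (congrFun h2 0)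
  obtain ⟨i, hi⟩ := hD _ _ h1 h1 (by rw [h, map_zero])
  apply hi
  rw [h, map_zero, map_zero]

private noncomputable def AWD_E (d : Fin 2 ⊕ Fin 2 →₀ ℕ) : Fin 2 →₀ ℕ :=
  Finsupp.single 0 (d (Sum.inl 1)) + Finsupp.single 1 (d (Sum.inr 1))

private theorem AWD_E0 (d : Fin 2 ⊕ Fin 2 →₀ ℕ) : AWD_E d 0 = d (Sum.inl 1) := by
  simp [AWD_E]

private theorem AWD_E1 (d : Fin 2 ⊕ Fin 2 →₀ ℕ) : AWD_E d 1 = d (Sum.inr 1) := by
  simp [AWD_E]

private theorem AWD_mon (d : Fin 2 ⊕ Fin 2 →₀ ℕ) (c : R) :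
    dh (monomial d c) = monomial (AWD_E d) c := by
  unfold dh
  rw [aeval_monomial, Finsupp.prod_fintype _ _ (fun i => by simp), Fintype.prod_sum_type]
  simp only [Fin.prod_univ_two, Sum.elim_inl, Sum.elim_inr, Matrix.cons_val_zero,
    Matrix.cons_val_one, one_pow, one_mul]
  rw [AWD_E, algebraMap_eq, X_pow_eq_monomial, X_pow_eq_monomial, monomial_mul, C_mul_monomial,
    mul_one, mul_one]

private theorem AWD_dh (f : P4 R) : dh f = ∑ d ∈ f.support, monomial (AWD_E d) (coeff d f) := by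
  conv_lhs => rw [f.as_sum]
  rw [map_sum]
  exact Finset.sum_congr rfl fun d _ => AWD_mon d _

private theorem AWD_coeff {f : P4 R} {m n : ℕ} (hf : BH f m n) {d : Fin 2 ⊕ Fin 2 →₀ ℕ}
    (hd : d (Sum.inl 0) + d (Sum.inl 1) = m ∧ d (Sum.inr 0) + d (Sum.inr 1) = n) :
    coeff (AWD_E d) (dh f) = coeff d f := by
  classical
  rw [AWD_dh, coeff_sum]
  rw [AWD_iff] at hf
  rw [Finset.sum_eq_single d]
  · rw [coeff_monomial, if_pos rfl]
  · intro d' hd' hne
    rw [coeff_monomial, if_neg]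
    intro h
    apply hne
    obtain ⟨h1, h2⟩ := hf d' (mem_support_iff.1 hd')
    have h3 : d' (Sum.inl 1) = d (Sum.inl 1) := by rw [← AWD_E0, ← AWD_E0, h]
    have h4 : d' (Sum.inr 1) = d (Sum.inr 1) := by rw [← AWD_E1, ← AWD_E1, h]
    ext i
    rcases i with i | i <;> fin_cases i <;> simp <;> omega
  · intro h
    rw [coeff_monomial, if_pos rfl]
    exact notMem_support_iff.1 h

theorem dh_inj {f : P4 R} {m n : ℕ} (hf : BH f m n) (h : dh f = 0) : f = 0 := by
  ext d
  rw [coeff_zero]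
  by_contra hd
  have h1 := AWD_iff.1 hf d hd
  rw [← AWD_coeff hf h1, h, coeff_zero] at hd
  exact hd rfl

theorem dh_deg {f : P4 R} {m n : ℕ} (hf : BH f m n) : degreeOf 0 (dh f) ≤ m ∧ degreeOf 1 (dh f) ≤ n := by
  classical
  have key : ∀ e ∈ (dh f).support, e 0 ≤ m ∧ e 1 ≤ n := by
    intro e he
    rw [mem_support_iff, AWD_dh, coeff_sum] at he
    obtain ⟨d, hd, hne⟩ := Finset.exists_ne_zero_of_sum_ne_zero he
    rw [coeff_monomial] at hne
    have hE : AWD_E d = e := by
      by_contra hc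
      rw [if_neg hc] at hne
      exact hne rfl
    obtain ⟨h1, h2⟩ := AWD_iff.1 hf d (mem_support_iff.1 hd)
    rw [← hE, AWD_E0, AWD_E1]
    omega
  exact ⟨degreeOf_le_iff.2 fun e he => (key e he).1, degreeOf_le_iff.2 fun e he => (key e he).2⟩

theorem dh_surj (g : MvPolynomial (Fin 2) R) (m n : ℕ) (h0 : degreeOf 0 g ≤ m) (h1 : degreeOf 1 g ≤ n) :
    ∃ f : P4 R, BH f m n ∧ dh f = g := by
  classical
  obtain ⟨F, hF⟩ : ∃ F : (Fin 2 →₀ ℕ) → (Fin 2 ⊕ Fin 2 →₀ ℕ), F = fun e =>
      Finsupp.equivFunOnFinite.symm (Sum.elim ![m - e 0, e 0] ![n - e 1, e 1]) := ⟨_, rfl⟩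
  have F0 : ∀ e, F e (Sum.inl 0) = m - e 0 := fun e => by rw [hF]; rfl
  have F1 : ∀ e, F e (Sum.inl 1) = e 0 := fun e => by rw [hF]; rfl
  have F2 : ∀ e, F e (Sum.inr 0) = n - e 1 := fun e => by rw [hF]; rfl
  have F3 : ∀ e, F e (Sum.inr 1) = e 1 := fun e => by rw [hF]; rfl
  refine ⟨∑ e ∈ g.support, monomial (F e) (coeff e g), AWD_sum _ _ fun e he => ?_, ?_⟩
  · rw [AWD_iff]
    intro d hd
    rw [coeff_monomial] at hd
    have hE : F e = d := by
      by_contra hc
      rw [if_neg hc] at hd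
      exact hd rfl
    have e0 := degreeOf_le_iff.1 h0 e he
    have e1 := degreeOf_le_iff.1 h1 e he
    rw [← hE, F0, F1, F2, F3]
    omega
  · rw [map_sum]
    conv_rhs => rw [g.as_sum]
    refine Finset.sum_congr rfl fun e _ => ?_
    have hE : AWD_E (F e) = e := by
      ext i
      fin_cases i
      · change AWD_E (F e) 0 = e 0
        rw [AWD_E0, F1]
      · change AWD_E (F e) 1 = e 1
        rw [AWD_E1, F3]
    rw [AWD_mon, hE]

theorem dh_pb (x : Matrix (Fin 2) (Fin 2) R) :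
    dh (pb x) = C (x 0 0) + C (x 1 0) * X 0 + C (x 0 1) * X 1 + C (x 1 1) * (X 0 * X 1) := by
  simp only [dh, pb, Fin.sum_univ_two, map_add, map_mul, aeval_X, Sum.elim_inl, Sum.elim_inr,
    Matrix.cons_val_zero, Matrix.cons_val_one, aeval_C, algebraMap_eq]
  ring

end

end Pool.Agent.T1
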