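import Pool.Agent.T1.DefsB

/-!
# T1 / BDA: calculus of `PB` and `PX`

`PB θ N x`: witness polynomial `p` with `totalDegree ≤ N`, `l1 p ≤ 2 ^ N`, `aeval θ p = x`.  Use `PQ.l1_add`, `l1_neg`, `l1_mul`, `l1_C`, `l1_X`
(`PQ/ELN.lean`), `MvPolynomial.totalDegree_add/_neg/_mul/_C/_X`.  `2 ^ N + 2 ^ N' ≤ 2 ^ (max N N' + 1)`.  `sum`, `prod`: induction on the
finset (`2 ^ N * card ≤ 2 ^ (N + card)`).  `det`: `Matrix.det_apply`, `n!` terms, each `±` a product of `n` factors
(`n! ≤ 2 ^ n!`).  `adj`: `adjugate_apply` is the determinant of a matrix with entries `PB θ N` or `0`, `1`.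
`trans`: substitution of a `PB` in a `PB`: `aeval (fun i => p i) q` where `p i` are the witnesses; the total degree is at most `N * M`, and the size of
a monomial `c ∏ p i ^ e i` is at most `|c| (2 ^ M) ^ N` (`e` of degree `≤ N`).
`PX`: witness `p : Polynomial (MvPolynomial σ ℤ)`; `L1 p := ∑ j ∈ p.support, l1 (p.coeff j)` is `PQ.L1`, see `PQ.L1_add`, `PQ.L1_mul`, ... in `PQ/ELN.lean`
(subadditive, submultiplicative).  Total degrees of the coefficients: of a product `≤ N + N'`.
-/

namespace Pool.Agent.T1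

open MvPolynomial Matrix
open Pool.Agent.PQ (l1)

section

variable {C : Type*} [Field C] {σ : Type} {θ : σ → C} {N N' : ℕ} {x y : C}

private theorem BDA_ext (p : MvPolynomial σ ℤ) {s : Finset (σ →₀ ℕ)}
    (h : p.support ⊆ s) : l1 p = ∑ m ∈ s, (p.coeff m).natAbs := by
  refine Finset.sum_subset h fun m _ hm => ?_
  rw [MvPolynomial.notMem_support_iff.1 hm, Int.natAbs_zero]

private theorem BDA_zero : l1 (0 : MvPolynomial σ ℤ) = 0 := by
  rw [l1, MvPolynomial.support_zero, Finset.sum_empty]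

private theorem BDA_one : l1 (1 : MvPolynomial σ ℤ) = 1 := by
  rw [← MvPolynomial.C_1, Pool.Agent.PQ.l1_C]
  rfl

private theorem BDA_sum {ι : Type*} (s : Finset ι) (f : ι → MvPolynomial σ ℤ) :
    l1 (∑ i ∈ s, f i) ≤ ∑ i ∈ s, l1 (f i) := by
  classical
  induction s using Finset.induction_on with
  | empty => rw [Finset.sum_empty, Finset.sum_empty, BDA_zero]
  | insert a s ha ih =>
    rw [Finset.sum_insert ha, Finset.sum_insert ha]
    exact (Pool.Agent.PQ.l1_add _ _).trans (Nat.add_le_add_left ih _)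

private theorem BDA_prod {ι : Type*} (s : Finset ι) (f : ι → MvPolynomial σ ℤ) :
    l1 (∏ i ∈ s, f i) ≤ ∏ i ∈ s, l1 (f i) := by
  classical
  induction s using Finset.induction_on with
  | empty => rw [Finset.prod_empty, Finset.prod_empty, BDA_one]
  | insert a s ha ih =>
    rw [Finset.prod_insert ha, Finset.prod_insert ha]
    exact (Pool.Agent.PQ.l1_mul _ _).trans (Nat.mul_le_mul_left _ ih)

private theorem BDA_pow (p : MvPolynomial σ ℤ) (n : ℕ) : l1 (p ^ n) ≤ l1 p ^ n := by
  induction n with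
  | zero => rw [pow_zero, pow_zero, BDA_one]
  | succ n ih =>
    rw [pow_succ, pow_succ]
    exact (Pool.Agent.PQ.l1_mul _ _).trans (Nat.mul_le_mul_right _ ih)

private theorem BDA_mon (m : σ →₀ ℕ) (c : ℤ) :
    l1 (MvPolynomial.monomial m c) = c.natAbs := by
  classical
  rw [BDA_ext _ (MvPolynomial.support_monomial_subset), Finset.sum_singleton,
    MvPolynomial.coeff_monomial, if_pos rfl]

private theorem BDA_two (n : ℕ) : n ≤ 2 ^ n := Nat.lt_two_pow_self.le

theorem PB.mono (h : PB θ N x) (hN : N ≤ N') : PB θ N' x := by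
  obtain ⟨p, h1, h2, h3⟩ := h
  exact ⟨p, h1.trans hN, h2.trans (Nat.pow_le_pow_right (by norm_num) hN), h3⟩

theorem PB.var (i : σ) : PB θ 1 (θ i) := by
  refine ⟨X i, (MvPolynomial.totalDegree_X i).le, ?_, aeval_X _ _⟩
  rw [Pool.Agent.PQ.l1_X]
  norm_num

theorem PB.int (n : ℤ) (h : n.natAbs ≤ 2 ^ N) : PB θ N (n : C) := by
  refine ⟨MvPolynomial.C n, ?_, ?_, ?_⟩
  · rw [MvPolynomial.totalDegree_C]
    exact Nat.zero_le _
  · rw [Pool.Agent.PQ.l1_C]
    exact h
  · simp

theorem PB.zero : PB θ 0 (0 : C) := by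
  refine ⟨0, ?_, ?_, map_zero _⟩
  · simp
  · rw [BDA_zero]
    exact Nat.zero_le _

theorem PB.one : PB θ 0 (1 : C) := by
  refine ⟨1, ?_, ?_, map_one _⟩
  · simp
  · rw [BDA_one]
    norm_num

theorem PB.add (hx : PB θ N x) (hy : PB θ N' y) : PB θ (max N N' + 1) (x + y) := by
  obtain ⟨p, h1, h2, h3⟩ := hx
  obtain ⟨q, k1, k2, k3⟩ := hy
  refine ⟨p + q, ?_, ?_, by rw [map_add, h3, k3]⟩
  · refine (MvPolynomial.totalDegree_add _ _).trans ?_
    exact (max_le_max h1 k1).trans (Nat.le_succ _)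
  · refine (Pool.Agent.PQ.l1_add _ _).trans ?_
    have e1 : (2 : ℕ) ^ N ≤ 2 ^ max N N' := Nat.pow_le_pow_right (by norm_num) (le_max_left _ _)
    have e2 : (2 : ℕ) ^ N' ≤ 2 ^ max N N' := Nat.pow_le_pow_right (by norm_num) (le_max_right _ _)
    rw [pow_succ]
    omega

theorem PB.neg (hx : PB θ N x) : PB θ N (-x) := by
  obtain ⟨p, h1, h2, h3⟩ := hx
  refine ⟨-p, ?_, ?_, by rw [map_neg, h3]⟩
  · rw [MvPolynomial.totalDegree_neg]
    exact h1
  · rw [Pool.Agent.PQ.l1_neg]
    exact h2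

theorem PB.sub (hx : PB θ N x) (hy : PB θ N' y) : PB θ (max N N' + 1) (x - y) := by
  rw [sub_eq_add_neg]
  exact hx.add hy.neg

theorem PB.mul (hx : PB θ N x) (hy : PB θ N' y) : PB θ (N + N') (x * y) := by
  obtain ⟨p, h1, h2, h3⟩ := hx
  obtain ⟨q, k1, k2, k3⟩ := hy
  refine ⟨p * q, ?_, ?_, by rw [map_mul, h3, k3]⟩
  · exact (MvPolynomial.totalDegree_mul _ _).trans (Nat.add_le_add h1 k1)
  · refine (Pool.Agent.PQ.l1_mul _ _).trans ?_
    rw [pow_add]
    exact Nat.mul_le_mul h2 k2

theorem PB.pow (hx : PB θ N x) (n : ℕ) : PB θ (n * N) (x ^ n) := by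
  induction n with
  | zero =>
    rw [pow_zero, Nat.zero_mul]
    exact PB.one
  | succ n ih =>
    rw [pow_succ, Nat.succ_mul]
    exact ih.mul hx

theorem PB.sum {ι : Type*} (s : Finset ι) (f : ι → C) (h : ∀ i ∈ s, PB θ N (f i)) :
    PB θ (N + s.card) (∑ i ∈ s, f i) := by
  classical
  choose! g h1 h2 h3 using h
  refine ⟨∑ i ∈ s, g i, ?_, ?_, ?_⟩
  · refine (MvPolynomial.totalDegree_finsetSum _ _).trans ?_
    refine Finset.sup_le fun i hi => ?_
    exact (h1 i hi).trans (Nat.le_add_right _ _)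
  · refine (BDA_sum _ _).trans ?_
    refine (Finset.sum_le_sum h2).trans ?_
    rw [Finset.sum_const, smul_eq_mul, pow_add, Nat.mul_comm]
    exact Nat.mul_le_mul_left _ (BDA_two _)
  · rw [map_sum]
    exact Finset.sum_congr rfl h3

theorem PB.prod {ι : Type*} (s : Finset ι) (f : ι → C) (h : ∀ i ∈ s, PB θ N (f i)) :
    PB θ (s.card * N) (∏ i ∈ s, f i) := by
  classical
  induction s using Finset.induction_on with
  | empty =>
    rw [Finset.prod_empty, Finset.card_empty, Nat.zero_mul]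
    exact PB.one
  | insert a s ha ih =>
    rw [Finset.prod_insert ha, Finset.card_insert_of_notMem ha, Nat.succ_mul, Nat.add_comm]
    exact (h a (Finset.mem_insert_self a s)).mul
      (ih fun i hi => h i (Finset.mem_insert_of_mem hi))

theorem PB.det {n : ℕ} (A : Matrix (Fin n) (Fin n) C) (h : ∀ i j, PB θ N (A i j)) :
    PB θ (n * N + n.factorial) A.det := by
  classical
  rw [Matrix.det_apply]
  have hk : (Finset.univ : Finset (Equiv.Perm (Fin n))).card = n.factorial := by
    rw [Finset.card_univ, Fintype.card_perm, Fintype.card_fin]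
  rw [← hk]
  refine PB.sum _ _ fun τ _ => ?_
  have hp : PB θ (n * N) (∏ i, A (τ i) i) := by
    have h1 := PB.prod (θ := θ) (N := N) Finset.univ (fun i : Fin n => A (τ i) i) fun i _ => h _ _
    rwa [Finset.card_univ, Fintype.card_fin] at h1
  rcases Int.units_eq_one_or (Equiv.Perm.sign τ) with e | e
  · rw [e, one_smul]
    exact hp
  · rw [e, Units.neg_smul, one_smul]
    exact hp.neg

theorem PB.adj {n : ℕ} (A : Matrix (Fin n) (Fin n) C) (h : ∀ i j, PB θ N (A i j)) (i j : Fin n) :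
    PB θ (n * N + n.factorial) (A.adjugate i j) := by
  classical
  rw [Matrix.adjugate_apply]
  refine PB.det _ fun k l => ?_
  by_cases hk : k = j
  · subst hk
    rw [Matrix.updateRow_self]
    by_cases hl : l = i
    · subst hl
      rw [Pi.single_eq_same]
      exact PB.one.mono (Nat.zero_le _)
    · rw [Pi.single_eq_of_ne hl]
      exact PB.zero.mono (Nat.zero_le _)
  · rw [Matrix.updateRow_ne hk]
    exact h _ _

/-- change of variables -/
theorem PB.reindex {σ' : Type} {θ' : σ' → C} (e : σ → σ') (h : ∀ i, θ' (e i) = θ i) (hx : PB θ N x) :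
    PB θ' N x := by
  classical
  obtain ⟨p, h1, h2, h3⟩ := hx
  refine ⟨rename e p, (MvPolynomial.totalDegree_rename_le _ _).trans h1, ?_, ?_⟩
  · have e1 : rename e p = ∑ m ∈ p.support, MvPolynomial.monomial (m.mapDomain e) (p.coeff m) := by
      conv_lhs => rw [p.as_sum]
      rw [map_sum]
      exact Finset.sum_congr rfl fun m _ => MvPolynomial.rename_monomial _ _ _
    rw [e1]
    refine (BDA_sum _ _).trans (le_trans (le_of_eq ?_) h2)
    exact Finset.sum_congr rfl fun m _ => BDA_mon _ _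
  · rw [MvPolynomial.aeval_rename, ← h3]
    congr 1
    congr 1
    exact funext h

/-- substitution -/
theorem PB.trans {σ' : Type} {θ' : σ' → C} {M : ℕ} (h : ∀ i, PB θ' M (θ i)) (hx : PB θ N x) :
    PB θ' (N * M + N) x := by
  classical
  choose g g1 g2 g3 using h
  obtain ⟨q, h1, h2, h3⟩ := hx
  have hm : ∀ m ∈ q.support, (m.sum fun _ e => e) ≤ N := fun m hm =>
    (MvPolynomial.le_totalDegree hm).trans h1
  have e1 : aeval g q = ∑ m ∈ q.support, MvPolynomial.C (q.coeff m) * ∏ i ∈ m.support, g i ^ m i := by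
    conv_lhs => rw [q.as_sum]
    rw [map_sum]
    refine Finset.sum_congr rfl fun m _ => ?_
    rw [MvPolynomial.aeval_monomial]
    rfl
  refine ⟨aeval g q, ?_, ?_, ?_⟩
  · rw [e1]
    refine (MvPolynomial.totalDegree_finsetSum _ _).trans (Finset.sup_le fun m hms => ?_)
    refine (MvPolynomial.totalDegree_mul _ _).trans ?_
    rw [MvPolynomial.totalDegree_C, Nat.zero_add]
    refine (MvPolynomial.totalDegree_finsetProd _ _).trans ?_
    have e2 : ∑ i ∈ m.support, (g i ^ m i).totalDegree ≤ ∑ i ∈ m.support, m i * M := by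
      refine Finset.sum_le_sum fun i _ => ?_
      exact (MvPolynomial.totalDegree_pow _ _).trans (Nat.mul_le_mul_left _ (g1 i))
    refine e2.trans ?_
    rw [← Finset.sum_mul]
    exact (Nat.mul_le_mul_right M (hm m hms)).trans (Nat.le_add_right _ _)
  · rw [e1]
    refine (BDA_sum _ _).trans ?_
    have e2 : ∀ m ∈ q.support, l1 (MvPolynomial.C (q.coeff m) * ∏ i ∈ m.support, g i ^ m i) ≤
        (q.coeff m).natAbs * 2 ^ (N * M) := by
      intro m hms
      refine (Pool.Agent.PQ.l1_mul _ _).trans ?_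
      rw [Pool.Agent.PQ.l1_C]
      refine Nat.mul_le_mul_left _ ?_
      refine (BDA_prod _ _).trans ?_
      have e3 : ∏ i ∈ m.support, l1 (g i ^ m i) ≤ ∏ i ∈ m.support, (2 ^ M) ^ m i := by
        refine Finset.prod_le_prod' fun i _ => ?_
        exact (BDA_pow _ _).trans (Nat.pow_le_pow_left (g2 i) _)
      refine e3.trans ?_
      rw [Finset.prod_pow_eq_pow_sum, ← pow_mul, Nat.mul_comm N M]
      exact Nat.pow_le_pow_right (by norm_num) (Nat.mul_le_mul_left _ (hm m hms))
    refine (Finset.sum_le_sum e2).trans ?_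
    rw [← Finset.sum_mul, pow_add, Nat.mul_comm]
    exact Nat.mul_le_mul_left _ h2
  · rw [← h3, e1, map_sum]
    conv_rhs => rw [q.as_sum]
    rw [map_sum]
    refine Finset.sum_congr rfl fun m _ => ?_
    rw [MvPolynomial.aeval_monomial, map_mul, map_prod]
    congr 1
    · simp
    · refine Finset.prod_congr rfl fun i _ => ?_
      rw [map_pow, g3]

theorem PX.mono {f : Polynomial C} (h : PX θ N f) (hN : N ≤ N') : PX θ N' f := by
  obtain ⟨p, h1, h2, h3, h4⟩ := h
  exact ⟨p, h1.trans hN, fun j => (h2 j).trans hN,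
    h3.trans (Nat.pow_le_pow_right (by norm_num) hN), h4⟩

private theorem BDA_Ext (p : Polynomial (MvPolynomial σ ℤ)) {s : Finset ℕ}
    (h : p.support ⊆ s) : Pool.Agent.PQ.L1 p = ∑ m ∈ s, l1 (p.coeff m) := by
  refine Finset.sum_subset h fun m _ hm => ?_
  rw [Polynomial.notMem_support_iff.1 hm, BDA_zero]

private theorem BDA_C (p : MvPolynomial σ ℤ) : Pool.Agent.PQ.L1 (Polynomial.C p) = l1 p := by
  rw [BDA_Ext _ (Polynomial.support_C_subset p), Finset.sum_singleton, Polynomial.coeff_C_zero]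

private theorem BDA_one' : PX θ 0 (1 : Polynomial C) := by
  refine ⟨1, ?_, fun j => ?_, ?_, Polynomial.map_one _⟩
  · simp
  · rw [Polynomial.coeff_one]
    split_ifs <;> simp
  · have h := BDA_C (σ := σ) 1
    rw [map_one, BDA_one] at h
    exact h.le

private theorem BDA_zero' : PX θ 0 (0 : Polynomial C) := by
  refine ⟨0, ?_, fun j => ?_, ?_, Polynomial.map_zero _⟩
  · simp
  · simp
  · simp

private theorem BDA_Sum {ι : Type*} (s : Finset ι) (f : ι → Polynomial (MvPolynomial σ ℤ)) :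
    Pool.Agent.PQ.L1 (∑ i ∈ s, f i) ≤ ∑ i ∈ s, Pool.Agent.PQ.L1 (f i) := by
  classical
  induction s using Finset.induction_on with
  | empty =>
    rw [Finset.sum_empty, Finset.sum_empty, Pool.Agent.PQ.L1]
    simp
  | insert a s ha ih =>
    rw [Finset.sum_insert ha, Finset.sum_insert ha]
    exact (Pool.Agent.PQ.L1_add _ _).trans (Nat.add_le_add_left ih _)

theorem PX.con (h : PB θ N x) : PX θ N (Polynomial.C x) := by
  obtain ⟨p, h1, h2, h3⟩ := h
  refine ⟨Polynomial.C p, ?_, fun j => ?_, ?_, ?_⟩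
  · rw [Polynomial.natDegree_C]
    exact Nat.zero_le _
  · rw [Polynomial.coeff_C]
    split_ifs
    · exact h1
    · simp
  · exact (BDA_C p).le.trans h2
  · rw [Polynomial.map_C]
    exact congrArg Polynomial.C h3

theorem PX.var : PX θ 1 (Polynomial.X : Polynomial C) := by
  refine ⟨Polynomial.X, Polynomial.natDegree_X_le, fun j => ?_, ?_, Polynomial.map_X _⟩
  · rw [Polynomial.coeff_X]
    split_ifs <;> simp
  · have h : Pool.Agent.PQ.L1 (Polynomial.X : Polynomial (MvPolynomial σ ℤ)) ≤ 2 ^ 1 := by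
      rw [BDA_Ext (s := {1}) _ Polynomial.support_X.subset, Finset.sum_singleton, Polynomial.coeff_X_one,
        BDA_one]
      norm_num
    exact h

theorem PX.add {f g : Polynomial C} (hf : PX θ N f) (hg : PX θ N' g) : PX θ (max N N' + 1) (f + g) := by
  obtain ⟨p, h1, h2, h3, h4⟩ := hf
  obtain ⟨q, k1, k2, k3, k4⟩ := hg
  refine ⟨p + q, ?_, fun j => ?_, ?_, ?_⟩
  · refine (Polynomial.natDegree_add_le _ _).trans ?_
    exact (max_le_max h1 k1).trans (Nat.le_succ _)
  · rw [Polynomial.coeff_add]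
    refine (MvPolynomial.totalDegree_add _ _).trans ?_
    exact (max_le_max (h2 j) (k2 j)).trans (Nat.le_succ _)
  · refine (Pool.Agent.PQ.L1_add p q).trans ?_
    have e1 : (2 : ℕ) ^ N ≤ 2 ^ max N N' := Nat.pow_le_pow_right (by norm_num) (le_max_left _ _)
    have e2 : (2 : ℕ) ^ N' ≤ 2 ^ max N N' := Nat.pow_le_pow_right (by norm_num) (le_max_right _ _)
    have e3 : Pool.Agent.PQ.L1 p ≤ 2 ^ N := h3
    have e4 : Pool.Agent.PQ.L1 q ≤ 2 ^ N' := k3
    rw [pow_succ]
    omega
  · rw [Polynomial.map_add, h4, k4]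

theorem PX.neg {f : Polynomial C} (hf : PX θ N f) : PX θ N (-f) := by
  obtain ⟨p, h1, h2, h3, h4⟩ := hf
  refine ⟨-p, ?_, fun j => ?_, ?_, ?_⟩
  · rw [Polynomial.natDegree_neg]
    exact h1
  · rw [Polynomial.coeff_neg, MvPolynomial.totalDegree_neg]
    exact h2 j
  · exact (Pool.Agent.PQ.L1_neg p).le.trans h3
  · rw [Polynomial.map_neg, h4]

theorem PX.sub {f g : Polynomial C} (hf : PX θ N f) (hg : PX θ N' g) : PX θ (max N N' + 1) (f - g) := by
  rw [sub_eq_add_neg]
  exact hf.add hg.neg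

theorem PX.mul {f g : Polynomial C} (hf : PX θ N f) (hg : PX θ N' g) : PX θ (N + N') (f * g) := by
  obtain ⟨p, h1, h2, h3, h4⟩ := hf
  obtain ⟨q, k1, k2, k3, k4⟩ := hg
  refine ⟨p * q, ?_, fun j => ?_, ?_, ?_⟩
  · exact Polynomial.natDegree_mul_le.trans (Nat.add_le_add h1 k1)
  · rw [Polynomial.coeff_mul]
    refine (MvPolynomial.totalDegree_finsetSum _ _).trans (Finset.sup_le fun i _ => ?_)
    exact (MvPolynomial.totalDegree_mul _ _).trans (Nat.add_le_add (h2 _) (k2 _))
  · refine (Pool.Agent.PQ.L1_mul p q).trans ?_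
    rw [pow_add]
    exact Nat.mul_le_mul h3 k3
  · rw [Polynomial.map_mul, h4, k4]

theorem PX.pow {f : Polynomial C} (hf : PX θ N f) (n : ℕ) : PX θ (n * N) (f ^ n) := by
  induction n with
  | zero =>
    rw [pow_zero, Nat.zero_mul]
    exact BDA_one'
  | succ n ih =>
    rw [pow_succ, Nat.succ_mul]
    exact ih.mul hf

theorem PX.sum {ι : Type*} (s : Finset ι) (f : ι → Polynomial C) (h : ∀ i ∈ s, PX θ N (f i)) :
    PX θ (N + s.card) (∑ i ∈ s, f i) := by
  classical
  choose! g h1 h2 h3 h4 using h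
  refine ⟨∑ i ∈ s, g i, ?_, fun j => ?_, ?_, ?_⟩
  · refine (Polynomial.natDegree_sum_le_of_forall_le s g h1).trans (Nat.le_add_right _ _)
  · rw [Polynomial.finsetSum_coeff]
    refine (MvPolynomial.totalDegree_finsetSum _ _).trans ?_
    refine Finset.sup_le fun i hi => ?_
    exact (h2 i hi j).trans (Nat.le_add_right _ _)
  · refine (BDA_Sum _ _).trans ?_
    refine (Finset.sum_le_sum h3).trans ?_
    rw [Finset.sum_const, smul_eq_mul, pow_add, Nat.mul_comm]
    exact Nat.mul_le_mul_left _ (BDA_two _)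
  · rw [Polynomial.map_sum]
    exact Finset.sum_congr rfl h4

private theorem BDA_prod' {ι : Type*} (s : Finset ι) (f : ι → Polynomial C)
    (h : ∀ i ∈ s, PX θ N (f i)) : PX θ (s.card * N) (∏ i ∈ s, f i) := by
  classical
  induction s using Finset.induction_on with
  | empty =>
    rw [Finset.prod_empty, Finset.card_empty, Nat.zero_mul]
    exact BDA_one'
  | insert a s ha ih =>
    rw [Finset.prod_insert ha, Finset.card_insert_of_notMem ha, Nat.succ_mul, Nat.add_comm]
    exact (h a (Finset.mem_insert_self a s)).mul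
      (ih fun i hi => h i (Finset.mem_insert_of_mem hi))

theorem PX.det {n : ℕ} (A : Matrix (Fin n) (Fin n) (Polynomial C)) (h : ∀ i j, PX θ N (A i j)) :
    PX θ (n * N + n.factorial) A.det := by
  classical
  rw [Matrix.det_apply]
  have hk : (Finset.univ : Finset (Equiv.Perm (Fin n))).card = n.factorial := by
    rw [Finset.card_univ, Fintype.card_perm, Fintype.card_fin]
  rw [← hk]
  refine PX.sum _ _ fun τ _ => ?_
  have hp : PX θ (n * N) (∏ i, A (τ i) i) := by
    have h1 := BDA_prod' (θ := θ) (N := N) Finset.univ (fun i : Fin n => A (τ i) i) fun i _ => h _ _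
    rwa [Finset.card_univ, Fintype.card_fin] at h1
  rcases Int.units_eq_one_or (Equiv.Perm.sign τ) with e | e
  · rw [e, one_smul]
    exact hp
  · rw [e, Units.neg_smul, one_smul]
    exact hp.neg

theorem PX.adj {n : ℕ} (A : Matrix (Fin n) (Fin n) (Polynomial C)) (h : ∀ i j, PX θ N (A i j)) (i j : Fin n) :
    PX θ (n * N + n.factorial) (A.adjugate i j) := by
  classical
  rw [Matrix.adjugate_apply]
  refine PX.det _ fun k l => ?_
  by_cases hk : k = j
  · subst hk
    rw [Matrix.updateRow_self]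
    by_cases hl : l = i
    · subst hl
      rw [Pi.single_eq_same]
      exact BDA_one'.mono (Nat.zero_le _)
    · rw [Pi.single_eq_of_ne hl]
      exact BDA_zero'.mono (Nat.zero_le _)
  · rw [Matrix.updateRow_ne hk]
    exact h _ _

end

end Pool.Agent.T1
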