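import Pool.Agent.T1.BDA
import Pool.Agent.PQ.ELM
import Pool.Agent.ESH.TWA

/-!
# T1 / BDB: roots of polynomials with bounded coefficients are bounded

`root_all`: `PQ.elm` with `c`, `s`, `d = A = tw c s`, `n = e = N`, `B = 2 ^ N`; the `P i` from `Bd`; `2 ^ N ≤ tw c s`: `tw 1 s = 2 ^ s ≥ 65536` and
`tw 2 s = 2 ^ tw 1 s` (`ESH.tw_mono`).  The size bounds: `l1 (p.coeff j) ≤ ∑`.  `root`: special case.  `PB.bd`: the polynomial `X - C x`, which is
`PX θ (N + 2)`.  `quot`: `C q * X - C p`.  `rt`: `C q * X ^ n - C p`.  `Bd.int`: `X - n`.  `Bd.rat`: `q X - p`.  In the applications to `PX`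
use `PX.con`, `PX.var`, `PX.mul`, `PX.sub`, `PX.mono`.
-/

namespace Pool.Agent.T1

open MvPolynomial Matrix

section

variable {C : Type*} [Field C] [CharZero C]

theorem two_pow_le_tw {N c s : ℕ} (hs : 16 ≤ s) (hc : 2 ≤ c) (hN : N ≤ 60000) : 2 ^ N ≤ ESH.tw c s := by
  have h1 : ESH.tw 2 16 ≤ ESH.tw c s := ESH.tw_mono hc hs
  have h2 : N ≤ 2 ^ 16 := hN.trans (by norm_num)
  have h3 : ESH.tw 2 16 = 2 ^ (2 ^ 16) := by
    rw [ESH.tw_succ, ESH.tw_succ, ESH.tw_zero]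
  rw [h3] at h1
  exact (Nat.pow_le_pow_right (by norm_num) h2).trans h1

private theorem BDB_le {N c s : ℕ} (hs : 16 ≤ s) (hc : 2 ≤ c) (hN : N ≤ 60000) : N ≤ ESH.tw c s :=
  (Nat.lt_two_pow_self).le.trans (two_pow_le_tw hs hc hN)

theorem Bd.mono {c c' s : ℕ} {x : C} (h : Bd c s x) (hc : c ≤ c') : Bd c' s x := by
  obtain ⟨P, h0, h1, h2, h3⟩ := h
  have h4 : ESH.tw c s ≤ ESH.tw c' s := ESH.tw_mono hc le_rfl
  exact ⟨P, h0, h1.trans h4, fun j => (h2 j).trans (by exact_mod_cast h4), h3⟩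

theorem Bd.int {c s : ℕ} (hs : 16 ≤ s) (hc : 2 ≤ c) (n : ℤ) (hn : n.natAbs ≤ 2 ^ 1000) : Bd c s (n : C) := by
  have h0 : 2 ^ 1000 ≤ ESH.tw c s := two_pow_le_tw (N := 1000) hs hc (by norm_num)
  have h1 : n.natAbs ≤ ESH.tw c s := le_trans hn h0
  have h2 : |n| ≤ (ESH.tw c s : ℤ) := by
    rw [Int.abs_eq_natAbs]
    exact_mod_cast h1
  have h3 : (1 : ℤ) ≤ (ESH.tw c s : ℤ) := by
    exact_mod_cast BDB_le hs hc (by norm_num)
  refine ⟨Polynomial.X - Polynomial.C n, Polynomial.X_sub_C_ne_zero n, ?_, ?_, ?_⟩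
  · rw [Polynomial.natDegree_X_sub_C]
    exact BDB_le hs hc (by norm_num)
  · intro j
    rw [Polynomial.coeff_sub, Polynomial.coeff_X, Polynomial.coeff_C]
    rcases j with _ | _ | j
    · simpa using h2
    · simpa using h3
    · simp
  · simp

theorem Bd.zero {c s : ℕ} (hs : 16 ≤ s) (hc : 2 ≤ c) : Bd c s (0 : C) := by
  have := Bd.int (C := C) hs hc 0 (Nat.zero_le _)
  simpa using this

theorem Bd.one {c s : ℕ} (hs : 16 ≤ s) (hc : 2 ≤ c) : Bd c s (1 : C) := by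
  have := Bd.int (C := C) hs hc 1 Nat.one_le_two_pow
  simpa using this

/-- square roots of `-1` -/
theorem Bd.sqrt_neg_one {c s : ℕ} (hs : 16 ≤ s) (hc : 2 ≤ c) {x : C} (hx : x ^ 2 = -1) : Bd c s x := by
  have h3 : (1 : ℤ) ≤ (ESH.tw c s : ℤ) := by
    exact_mod_cast BDB_le hs hc (by norm_num)
  have h4 : (Polynomial.X ^ 2 + Polynomial.C (1 : ℤ)).Monic := Polynomial.monic_X_pow_add_C 1 (by norm_num)
  refine ⟨Polynomial.X ^ 2 + Polynomial.C 1, h4.ne_zero, ?_, ?_, ?_⟩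
  · rw [Polynomial.natDegree_X_pow_add_C]
    exact BDB_le hs hc (by norm_num)
  · intro j
    rw [Polynomial.coeff_add, Polynomial.coeff_X_pow, Polynomial.coeff_C]
    rcases j with _ | _ | _ | j
    · simpa using h3
    · simp
    · simpa using h3
    · simp
  · simp [hx]

section

variable [IsAlgClosed C] {σ : Type} [Fintype σ] {θ : σ → C} {c s N : ℕ}

theorem PX.root_all (hs : 16 ≤ s) (hc : 2 ≤ c) (hN : N ≤ 50000) (hσ : Fintype.card σ ≤ 50000)
    (hθ : ∀ i, Bd c s (θ i)) {f : Polynomial C} (hf : PX θ N f) (h0 : f ≠ 0) :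
    ∃ P : Polynomial ℤ, P ≠ 0 ∧ P.natDegree ≤ ESH.tw (c + 10) s ∧
      (∀ j, |P.coeff j| ≤ (ESH.tw (c + 10) s : ℤ)) ∧ ∀ x : C, f.eval x = 0 → Polynomial.aeval x P = 0 := by
  choose P hP hPd hPA hr using hθ
  obtain ⟨D, hDn, hDe, hDB, rfl⟩ := hf
  exact PQ.elm θ P s c (ESH.tw c s) (ESH.tw c s) N N (2 ^ N) hs le_rfl le_rfl
    (BDB_le hs hc (by omega)) (BDB_le hs hc (by omega)) (two_pow_le_tw hs hc (by omega))
    (BDB_le hs hc (by omega)) hP hPd hPA hr D hDn hDe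
    (fun j => (PQ.l1_le_L1 D j).trans hDB) h0

theorem PX.root (hs : 16 ≤ s) (hc : 2 ≤ c) (hN : N ≤ 50000) (hσ : Fintype.card σ ≤ 50000)
    (hθ : ∀ i, Bd c s (θ i)) {f : Polynomial C} (hf : PX θ N f) (h0 : f ≠ 0) {x : C} (hx : f.eval x = 0) :
    Bd (c + 10) s x := by
  obtain ⟨P, h1, h2, h3, h4⟩ := PX.root_all hs hc hN hσ hθ hf h0
  exact ⟨P, h1, h2, h3, h4 x hx⟩

theorem PB.bd (hs : 16 ≤ s) (hc : 2 ≤ c) (hN : N ≤ 40000) (hσ : Fintype.card σ ≤ 50000)
    (hθ : ∀ i, Bd c s (θ i)) {x : C} (hx : PB θ N x) : Bd (c + 10) s x := by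
  have hf : PX θ (N + 2) (Polynomial.X - Polynomial.C x) :=
    (PX.var.sub (PX.con hx)).mono (by omega)
  refine PX.root hs hc (by omega) hσ hθ hf (Polynomial.X_sub_C_ne_zero x) ?_
  simp

theorem PB.quot (hs : 16 ≤ s) (hc : 2 ≤ c) (hN : N ≤ 40000) (hσ : Fintype.card σ ≤ 50000)
    (hθ : ∀ i, Bd c s (θ i)) {p q : C} (hp : PB θ N p) (hq : PB θ N q) (h0 : q ≠ 0) :
    Bd (c + 10) s (p / q) := by
  have hf : PX θ (N + 2) (Polynomial.C q * Polynomial.X - Polynomial.C p) :=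
    (((PX.con hq).mul PX.var).sub (PX.con hp)).mono (by omega)
  refine PX.root hs hc (by omega) hσ hθ hf ?_ ?_
  · intro h
    have := congrArg (fun g => Polynomial.coeff g 1) h
    simp [Polynomial.coeff_C] at this
    exact h0 this
  · simp only [Polynomial.eval_sub, Polynomial.eval_mul, Polynomial.eval_C, Polynomial.eval_X]
    field_simp
    ring

/-- roots of order `n` -/
theorem PB.rt (hs : 16 ≤ s) (hc : 2 ≤ c) (hN : N ≤ 40000) (hσ : Fintype.card σ ≤ 50000)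
    (hθ : ∀ i, Bd c s (θ i)) {p q x : C} (n : ℕ) (hn : n ≠ 0) (hn' : n ≤ 1000) (hp : PB θ N p)
    (hq : PB θ N q) (h0 : q ≠ 0) (hx : q * x ^ n = p) : Bd (c + 10) s x := by
  have hf : PX θ (N + n + 1) (Polynomial.C q * Polynomial.X ^ n - Polynomial.C p) :=
    (((PX.con hq).mul (PX.var.pow n)).sub (PX.con hp)).mono (by omega)
  refine PX.root hs hc (by omega) hσ hθ hf ?_ ?_
  · intro h
    have := congrArg (fun g => Polynomial.coeff g n) h
    simp [Polynomial.coeff_C, hn] at this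
    exact h0 this
  · simp only [Polynomial.eval_sub, Polynomial.eval_mul, Polynomial.eval_C, Polynomial.eval_X,
      Polynomial.eval_pow]
    rw [hx, sub_self]

/-- roots of a quadratic polynomial -/
theorem PB.quad (hs : 16 ≤ s) (hc : 2 ≤ c) (hN : N ≤ 40000) (hσ : Fintype.card σ ≤ 50000)
    (hθ : ∀ i, Bd c s (θ i)) {p q r x : C} (hp : PB θ N p) (hq : PB θ N q) (hr : PB θ N r)
    (h0 : ¬ (p = 0 ∧ q = 0 ∧ r = 0)) (hx : p * x ^ 2 + q * x + r = 0) : Bd (c + 10) s x := by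
  have hf : PX θ (N + 5) (Polynomial.C p * Polynomial.X ^ 2 + Polynomial.C q * Polynomial.X +
      Polynomial.C r) :=
    ((((PX.con hp).mul (PX.var.pow 2)).add ((PX.con hq).mul PX.var)).add (PX.con hr)).mono (by omega)
  refine PX.root hs hc (by omega) hσ hθ hf ?_ ?_
  · intro h
    apply h0
    have h2 := congrArg (fun g => Polynomial.coeff g 2) h
    have h1 := congrArg (fun g => Polynomial.coeff g 1) h
    have h3 := congrArg (fun g => Polynomial.coeff g 0) h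
    simp [Polynomial.coeff_X, Polynomial.coeff_C] at h1 h2 h3
    exact ⟨h2, h1, h3⟩
  · simp only [Polynomial.eval_add, Polynomial.eval_mul, Polynomial.eval_C, Polynomial.eval_X,
      Polynomial.eval_pow]
    exact hx

end

end

end Pool.Agent.T1
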