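import Pool.Agent.T1.LBR
import Pool.Agent.T1.AWD

/-!
# T1 / BRT: branch points of the first projection

`P` a place with `P.ord (x - c) ≥ 2` (`ESH.BrF`).  If `P.ord y ≥ 0` (or `y = 0`) let `η` be the value of `y` (`Place.exists_residue`), `f := aeval (pt ![1, X 0] ![1, X 1]) D`; `lbr`: `f_y(c, η) = 0`, i.e. (chain rule) the derivative of `D` with respect
to `t₁` vanishes at `s = (1, c)`, `t = (1, η)`.  `f(c, η) = 0` as the value of `f(x, y) = 0`.  Euler: `∑ t j * ∂_{t j} D = 3 D` on forms of bidegree `(3, 3)` (`BH`; prove it for monomials or derive it from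
`D(s; x t) = x³ D(s; t)`), so `∂_{t 0} D = 3 D - η ∂_{t 1} D = 0` there.
If `P.ord y < 0` put `y' = 1/y`, `η = 0`, `f := aeval (pt ![1, X 0] ![X 1, 1]) D`; `f(x, y') = y'^3 * D((1, x), (1, y)) = 0` (`BH`; homogeneity in `t`), `t = (0, 1)`; `C(x, y') = C(x, y)`.
-/

namespace Pool.Agent.T1

open MvPolynomial

private theorem BRT_wt (d : Fin 2 ⊕ Fin 2 →₀ ℕ) (w : Fin 2 ⊕ Fin 2 → ℕ) :
    Finsupp.weight w d = d (Sum.inl 0) * w (Sum.inl 0) + d (Sum.inl 1) * w (Sum.inl 1) +
      (d (Sum.inr 0) * w (Sum.inr 0) + d (Sum.inr 1) * w (Sum.inr 1)) := by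
  rw [Finsupp.weight_apply, Finsupp.sum_fintype _ _ (fun i => by simp)]
  rw [Fintype.sum_sum_type, Fin.sum_univ_two, Fin.sum_univ_two]
  simp only [smul_eq_mul]

private theorem BRT_wt2 (d : Fin 2 ⊕ Fin 2 →₀ ℕ) :
    Finsupp.weight bw d = (d (Sum.inl 0) + d (Sum.inl 1), d (Sum.inr 0) + d (Sum.inr 1)) := by
  rw [Finsupp.weight_apply, Finsupp.sum_fintype _ _ (fun i => by simp)]
  rw [Fintype.sum_sum_type, Fin.sum_univ_two, Fin.sum_univ_two]
  refine Prod.ext ?_ ?_
  · simp only [bw, Sum.elim_inl, Sum.elim_inr, Prod.fst_add, Prod.smul_fst, smul_eq_mul]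
    ring
  · simp only [bw, Sum.elim_inl, Sum.elim_inr, Prod.snd_add, Prod.smul_snd, smul_eq_mul]
    ring

/-- Euler's relation in the variables `t` -/
theorem euler_r {R : Type*} [CommRing R] {D : P4 R} {m n : ℕ} (hD : BH D m n) :
    ∑ j, X (Sum.inr j) * pderiv (Sum.inr j) D = (n : P4 R) * D := by
  have h1 : D.IsWeightedHomogeneous (Sum.elim (fun _ => 0) (fun _ => 1) : Fin 2 ⊕ Fin 2 → ℕ) n := by
    intro d hd
    have h2 := congrArg Prod.snd (hD hd)
    rw [BRT_wt2] at h2
    rw [BRT_wt]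
    simpa using h2
  have h3 := h1.sum_weight_X_mul_pderiv
  rw [Fintype.sum_sum_type] at h3
  simpa [nsmul_eq_mul] using h3

/-- Euler's relation in the variables `s` -/
theorem euler_l {R : Type*} [CommRing R] {D : P4 R} {m n : ℕ} (hD : BH D m n) :
    ∑ j, X (Sum.inl j) * pderiv (Sum.inl j) D = (m : P4 R) * D := by
  have h1 : D.IsWeightedHomogeneous (Sum.elim (fun _ => 1) (fun _ => 0) : Fin 2 ⊕ Fin 2 → ℕ) m := by
    intro d hd
    have h2 := congrArg Prod.fst (hD hd)
    rw [BRT_wt2] at h2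
    rw [BRT_wt]
    simpa using h2
  have h3 := h1.sum_weight_X_mul_pderiv
  rw [Fintype.sum_sum_type] at h3
  simpa [nsmul_eq_mul] using h3

/-- chain rule -/
private theorem BRT_chain {C : Type*} [CommRing C] (w : Fin 2 ⊕ Fin 2 → MvPolynomial (Fin 2) C)
    (v : Fin 2 → C) (D : P4 C) :
    eval v (pderiv 1 (aeval w D)) =
      ∑ k, eval (fun i => eval v (w i)) (pderiv k D) * eval v (pderiv 1 (w k)) := by
  have hev : ∀ f : P4 C, eval v (aeval w f) = eval (fun i => eval v (w i)) f := by
    intro f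
    induction f using MvPolynomial.induction_on with
    | C a => simp
    | add f g hf hg => simp only [map_add, hf, hg]
    | mul_X f i hf => rw [map_mul, map_mul, map_mul, hf, aeval_X, eval_X]
  induction D using MvPolynomial.induction_on with
  | C a => simp
  | add f g hf hg => simp only [map_add, hf, hg, add_mul, Finset.sum_add_distrib]
  | mul_X f j hf =>
    have h1 : ∀ k, eval (fun i => eval v (w i)) (pderiv k (f * X j)) * eval v (pderiv 1 (w k)) =
        eval (fun i => eval v (w i)) (pderiv k f) * eval v (pderiv 1 (w k)) * eval v (w j) +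
          (if k = j then eval (fun i => eval v (w i)) f * eval v (pderiv 1 (w k)) else 0) := by
      intro k
      rw [pderiv_mul, pderiv_X, map_add, map_mul, map_mul, eval_X]
      by_cases hk : k = j
      · subst hk
        simp
        ring
      · rw [Pi.single_eq_of_ne (Ne.symm hk), if_neg hk]
        simp
        ring
    rw [Finset.sum_congr rfl fun k _ => h1 k, Finset.sum_add_distrib, ← Finset.sum_mul,
      Finset.sum_ite_eq' Finset.univ j, if_pos (Finset.mem_univ _), map_mul, aeval_X, pderiv_mul,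
      map_add, map_mul, map_mul, hf, hev]

private theorem BRT_val {C Φ : Type*} [Field C] [Field Φ] [Algebra C Φ]
    (P : Helper11.Place C Φ) (x y : Φ) (c η : C) (hx : x - algebraMap C Φ c ∈ P.ge 1)
    (hy : y - algebraMap C Φ η ∈ P.ge 1) (f : MvPolynomial (Fin 2) C) :
    eval₂ (algebraMap C Φ) ![x, y] f - algebraMap C Φ (eval ![c, η] f) ∈ P.ge 1 := by
  have hcc : ∀ a : C, algebraMap C Φ a ∈ P.ge 0 := fun a => P.algebraMap_mem_ge a
  induction f using MvPolynomial.induction_on with
  | C a =>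
    rw [eval₂_C, eval_C, sub_self]
    exact zero_mem _
  | add f g hf hg =>
    have h1 : eval₂ (algebraMap C Φ) ![x, y] (f + g) - algebraMap C Φ (eval ![c, η] (f + g)) =
      (eval₂ (algebraMap C Φ) ![x, y] f - algebraMap C Φ (eval ![c, η] f)) +
      (eval₂ (algebraMap C Φ) ![x, y] g - algebraMap C Φ (eval ![c, η] g)) := by
      rw [eval₂_add, map_add, map_add]
      ring
    rw [h1]
    exact add_mem hf hg
  | mul_X f i hf =>
    have key : ∀ (z : Φ) (e : C), z - algebraMap C Φ e ∈ P.ge 1 →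
        eval₂ (algebraMap C Φ) ![x, y] f * z - algebraMap C Φ (eval ![c, η] f * e) ∈ P.ge 1 := by
      intro z e hz
      have h2 : z ∈ P.ge 0 := by
        have h := add_mem (P.ge_anti zero_le_one hz) (hcc e)
        rwa [sub_add_cancel] at h
      have h1 : eval₂ (algebraMap C Φ) ![x, y] f * z - algebraMap C Φ (eval ![c, η] f * e) =
          (eval₂ (algebraMap C Φ) ![x, y] f - algebraMap C Φ (eval ![c, η] f)) * z +
            algebraMap C Φ (eval ![c, η] f) * (z - algebraMap C Φ e) := by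
        rw [map_mul]
        ring
      rw [h1]
      refine add_mem ?_ ?_
      · simpa using P.mul_mem_ge hf h2
      · simpa using P.mul_mem_ge (hcc (eval ![c, η] f)) hz
    rw [eval₂_mul, eval₂_X, map_mul, eval_X]
    fin_cases i
    · exact key x c hx
    · exact key y η hy

/-- the main step -/
private theorem BRT_step {C Φ : Type*} [Field C] [Field Φ] [Algebra C Φ] [Helper11.FunField C Φ]
    [IsAlgClosed C] (P : Helper11.Place C Φ) (D : P4 C)
    (w : Fin 2 ⊕ Fin 2 → MvPolynomial (Fin 2) C) (x y : Φ)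
    (hf : eval₂ (algebraMap C Φ) (fun i => eval₂ (algebraMap C Φ) ![x, y] (w i)) D = 0)
    (hgen : IntermediateField.adjoin C {x, y} = ⊤) (c η : C)
    (hx : x - algebraMap C Φ c ∈ P.ge 1) (hy : y - algebraMap C Φ η ∈ P.ge 1)
    (h2 : 2 ≤ P.ord (x - algebraMap C Φ c)) :
    eval (fun i => eval ![c, η] (w i)) D = 0 ∧
      ∑ k, eval (fun i => eval ![c, η] (w i)) (pderiv k D) * eval ![c, η] (pderiv 1 (w k)) = 0 := by
  have hev : ∀ f : P4 C, eval ![c, η] (aeval w f) = eval (fun i => eval ![c, η] (w i)) f := by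
    intro f
    induction f using MvPolynomial.induction_on with
    | C a => simp
    | add f g hf hg => simp only [map_add, hf, hg]
    | mul_X f i hf => rw [map_mul, map_mul, map_mul, hf, aeval_X, eval_X]
  have hev2 : ∀ f : P4 C, eval₂ (algebraMap C Φ) ![x, y] (aeval w f) =
      eval₂ (algebraMap C Φ) (fun i => eval₂ (algebraMap C Φ) ![x, y] (w i)) f := by
    intro f
    induction f using MvPolynomial.induction_on with
    | C a => simp
    | add f g hf hg => simp only [map_add, eval₂_add, hf, hg]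
    | mul_X f i hf => rw [map_mul, eval₂_mul, eval₂_mul, hf, aeval_X, eval₂_X]
  have h3 : eval₂ (algebraMap C Φ) ![x, y] (aeval w D) = 0 := by
    rw [hev2]
    exact hf
  refine ⟨?_, ?_⟩
  · have h4 := BRT_val P x y c η hx hy (aeval w D)
    rw [h3, hev, zero_sub] at h4
    by_contra hk0
    have h5 : algebraMap C Φ (eval (fun i => eval ![c, η] (w i)) D) ∈ P.ge 1 := by
      have := neg_mem h4
      rwa [neg_neg] at this
    have h := P.le_ord_of_mem h5 (by simpa using hk0)
    rw [P.ord_algebraMap] at h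
    omega
  · rw [← BRT_chain]
    by_contra hne
    have := lbr P (aeval w D) x y h3 hgen c η hx hy hne
    omega

theorem brt {C Φ : Type*} [Field C] [Field Φ] [Algebra C Φ] [Helper11.FunField C Φ] [IsAlgClosed C]
    (D : P4 C) (hD : BH D 3 3) (x y : Φ) (h0 : eval₂ (algebraMap C Φ) (pt ![1, x] ![1, y]) D = 0)
    (hgen : IntermediateField.adjoin C {x, y} = ⊤) (c : C) (hbr : ESH.BrF x c) :
    ∃ t : Fin 2 → C, t ≠ 0 ∧ eval (pt ![1, c] t) D = 0 ∧
      ∀ j, eval (pt ![1, c] t) (pderiv (Sum.inr j) D) = 0 := by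
  obtain ⟨P, hP⟩ := hbr
  have hx : x - algebraMap C Φ c ∈ P.ge 1 := P.mem_ge_of_le (by omega)
  have hEu : ∀ t : Fin 2 → C, eval (pt ![1, c] t) D = 0 →
      t 0 * eval (pt ![1, c] t) (pderiv (Sum.inr 0) D) +
        t 1 * eval (pt ![1, c] t) (pderiv (Sum.inr 1) D) = 0 := by
    intro t ht
    have h1 := congrArg (eval (pt ![1, c] t)) (euler_r hD)
    rw [map_mul, ht, mul_zero, map_sum, Fin.sum_univ_two, map_mul, map_mul, eval_X, eval_X] at h1
    exact h1
  by_cases hy : y ∈ P.ge 0
  · obtain ⟨η, hη⟩ := P.exists_residue hy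
    have hst := BRT_step P D (pt ![1, X 0] ![1, X 1]) x y (by
      have e : (fun i => eval₂ (algebraMap C Φ) ![x, y]
          ((pt ![1, X 0] ![1, X 1] : Fin 2 ⊕ Fin 2 → MvPolynomial (Fin 2) C) i)) =
          pt ![1, x] ![1, y] := by
        funext i
        rcases i with i | i <;> fin_cases i <;> simp [pt]
      rw [e]
      exact h0) hgen c η hx hη hP
    have e : (fun i => eval ![c, η]
        ((pt ![1, X 0] ![1, X 1] : Fin 2 ⊕ Fin 2 → MvPolynomial (Fin 2) C) i)) =
        pt ![1, c] ![1, η] := by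
      funext i
      rcases i with i | i <;> fin_cases i <;> simp [pt]
    rw [e] at hst
    obtain ⟨h1, h2⟩ := hst
    have h3 : eval (pt ![1, c] ![1, η]) (pderiv (Sum.inr 1) D) = 0 := by
      rw [Fintype.sum_sum_type, Fin.sum_univ_two, Fin.sum_univ_two] at h2
      simpa [pt, pderiv_X, Pi.single_apply] using h2
    refine ⟨![1, η], fun h => one_ne_zero (congrFun h 0), h1, ?_⟩
    have h4 := hEu _ h1
    rw [h3, mul_zero, add_zero, Matrix.cons_val_zero, one_mul] at h4
    intro j
    fin_cases j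
    · exact h4
    · exact h3
  · have hy0 : y ≠ 0 := by
      rintro rfl
      exact hy (zero_mem _)
    have hord : P.ord y < 0 := by
      by_contra hc
      push Not at hc
      exact hy (P.mem_ge_of_le hc)
    have hy' : y⁻¹ - algebraMap C Φ 0 ∈ P.ge 1 := by
      rw [map_zero, sub_zero]
      refine P.mem_ge_of_le ?_
      rw [P.ord_inv]
      omega
    have hgen' : IntermediateField.adjoin C {x, y⁻¹} = ⊤ := by
      rw [eq_top_iff, ← hgen, IntermediateField.adjoin_le_iff]
      intro z hz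
      rcases hz with rfl | hz
      · exact IntermediateField.subset_adjoin _ _ (by simp)
      · rw [Set.mem_singleton_iff.1 hz]
        have h1 : y⁻¹ ∈ IntermediateField.adjoin C {x, y⁻¹} :=
          IntermediateField.subset_adjoin _ _ (by simp)
        have h2 := inv_mem h1
        rwa [inv_inv] at h2
    have h00 : eval₂ (algebraMap C Φ) (pt ![1, x] ![y⁻¹, 1]) D = 0 := by
      have h1 := (hD.map (algebraMap C Φ)).eval_smul (1 : Φ) y⁻¹ ![1, x] ![1, y]
      have h2 : pt ((1 : Φ) • ![1, x]) (y⁻¹ • ![1, y]) = pt ![1, x] ![y⁻¹, 1] := by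
        funext i
        rcases i with i | i <;> fin_cases i <;> simp [pt, hy0]
      rw [h2, eval_map, eval_map, h0, mul_zero] at h1
      exact h1
    have hst := BRT_step P D (pt ![1, X 0] ![X 1, 1]) x y⁻¹ (by
      have e : (fun i => eval₂ (algebraMap C Φ) ![x, y⁻¹]
          ((pt ![1, X 0] ![X 1, 1] : Fin 2 ⊕ Fin 2 → MvPolynomial (Fin 2) C) i)) =
          pt ![1, x] ![y⁻¹, 1] := by
        funext i
        rcases i with i | i <;> fin_cases i <;> simp [pt]
      rw [e]
      exact h00) hgen' c 0 hx hy' hP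
    have e : (fun i => eval ![c, 0]
        ((pt ![1, X 0] ![X 1, 1] : Fin 2 ⊕ Fin 2 → MvPolynomial (Fin 2) C) i)) =
        pt ![1, c] ![0, 1] := by
      funext i
      rcases i with i | i <;> fin_cases i <;> simp [pt]
    rw [e] at hst
    obtain ⟨h1, h2⟩ := hst
    have h3 : eval (pt ![1, c] ![0, 1]) (pderiv (Sum.inr 0) D) = 0 := by
      rw [Fintype.sum_sum_type, Fin.sum_univ_two, Fin.sum_univ_two] at h2
      simpa [pt, pderiv_X, Pi.single_apply] using h2
    refine ⟨![0, 1], fun h => one_ne_zero (congrFun h 1), h1, ?_⟩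
    have h4 := hEu _ h1
    rw [h3, mul_zero, zero_add, Matrix.cons_val_one, Matrix.cons_val_zero, one_mul] at h4
    intro j
    fin_cases j
    · exact h3
    · exact h4

end Pool.Agent.T1
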