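import Pool.Agent.T1.DSX
import Pool.Agent.T1.BRT
import Pool.Agent.PQ.ELN

/-!
# T1 / DS3: the discriminant

`dco D i j` = coefficient of `s₀^(3-i) s₁^i t₀^(3-j) t₁^j`.  `a j = ∑ i, (variable (i, j)) * X^i`.  The discriminant of the binary cubic `∑ j, a j t₀^(3-j) t₁^j` is
`a₁²a₂² - 4 a₀a₂³ - 4 a₁³a₃ - 27 a₀²a₃² + 18 a₀a₁a₂a₃`.
`ds3_root`: if `t ≠ 0` is a common zero of the cubic `∑ a j t₀^(3-j) t₁^j` and its two derivatives (`D(1, c; t)` and `∂_{t j} D(1, c; t)`), then the discriminant is zero: by symmetry `t₀ ↔ t₁` and scaling: if `t₀ ≠ 0`, `t₀ = 1`,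
`t₁ = y`: `a₀ + a₁y + a₂y² + a₃y³ = 0`, `a₁ + 2a₂y + 3a₃y² = 0`, so `a₁ = -2a₂y - 3a₃y²`, `a₀ = a₂y² + 2a₃y³`, substitute, `ring`.  If `t₀ = 0`: `a₃ = 0`, `a₂ = 0`.
`ds3_ne`: `dsx`: `D(1, x₀; t) = c ∏ (t₁ - α i t₀)`: the discriminant at `x₀` is `c⁴ ∏_{i<j} (α i - α j)² ≠ 0` (`ring` after inserting the elementary symmetric functions).
Degrees and `l1`: `PQ.l1_mul`, `L1_mul`, `l1_add` etc. (PQ/ELN), see PQ/RSB or PQ/PRX for `dsu_natDegree` etc. as a model.
-/

namespace Pool.Agent.T1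

open MvPolynomial

/-- coefficient of `s₀^(3-i) s₁^i t₀^(3-j) t₁^j` -/
noncomputable def dco {R : Type*} [CommRing R] (D : P4 R) (i j : Fin 4) : R :=
  coeff (Finsupp.single (Sum.inl 0) (3 - (i : ℕ)) + Finsupp.single (Sum.inl 1) (i : ℕ) +
    Finsupp.single (Sum.inr 0) (3 - (j : ℕ)) + Finsupp.single (Sum.inr 1) (j : ℕ)) D

/-- coefficients of the cubic in `t` -/
noncomputable def da (j : Fin 4) : Polynomial (MvPolynomial (Fin 4 × Fin 4) ℤ) :=
  ∑ i : Fin 4, Polynomial.C (X (i, j)) * Polynomial.X ^ (i : ℕ)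

/-- the discriminant -/
noncomputable def ds3 : Polynomial (MvPolynomial (Fin 4 × Fin 4) ℤ) :=
  da 1 ^ 2 * da 2 ^ 2 - 4 * da 0 * da 2 ^ 3 - 4 * da 1 ^ 3 * da 3 - 27 * da 0 ^ 2 * da 3 ^ 2 +
    18 * da 0 * da 1 * da 2 * da 3

private def DS3_B (p : Polynomial (MvPolynomial (Fin 4 × Fin 4) ℤ)) (n d L : ℕ) : Prop :=
  p.natDegree ≤ n ∧ (∀ j, (p.coeff j).totalDegree ≤ d) ∧ PQ.L1 p ≤ L

private theorem DS3_add {p q : Polynomial (MvPolynomial (Fin 4 × Fin 4) ℤ)} {n d L L' : ℕ}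
    (hp : DS3_B p n d L) (hq : DS3_B q n d L') : DS3_B (p + q) n d (L + L') := by
  refine ⟨(Polynomial.natDegree_add_le p q).trans (max_le hp.1 hq.1), fun j => ?_,
    (PQ.L1_add p q).trans (Nat.add_le_add hp.2.2 hq.2.2)⟩
  rw [Polynomial.coeff_add]
  exact (MvPolynomial.totalDegree_add _ _).trans (max_le (hp.2.1 j) (hq.2.1 j))

private theorem DS3_neg {p : Polynomial (MvPolynomial (Fin 4 × Fin 4) ℤ)} {n d L : ℕ}
    (hp : DS3_B p n d L) : DS3_B (-p) n d L := by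
  refine ⟨(Polynomial.natDegree_neg p).trans_le hp.1, fun j => ?_,
    (PQ.L1_neg p).trans_le hp.2.2⟩
  rw [Polynomial.coeff_neg, MvPolynomial.totalDegree_neg]
  exact hp.2.1 j

private theorem DS3_sub {p q : Polynomial (MvPolynomial (Fin 4 × Fin 4) ℤ)} {n d L L' : ℕ}
    (hp : DS3_B p n d L) (hq : DS3_B q n d L') : DS3_B (p - q) n d (L + L') := by
  rw [sub_eq_add_neg]
  exact DS3_add hp (DS3_neg hq)

private theorem DS3_mul {p q : Polynomial (MvPolynomial (Fin 4 × Fin 4) ℤ)}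
    {n d L n' d' L' : ℕ} (hp : DS3_B p n d L) (hq : DS3_B q n' d' L') :
    DS3_B (p * q) (n + n') (d + d') (L * L') := by
  refine ⟨Polynomial.natDegree_mul_le_of_le hp.1 hq.1, fun j => ?_,
    (PQ.L1_mul p q).trans (Nat.mul_le_mul hp.2.2 hq.2.2)⟩
  rw [Polynomial.coeff_mul]
  refine MvPolynomial.totalDegree_finsetSum_le fun x _ => ?_
  exact (MvPolynomial.totalDegree_mul _ _).trans (Nat.add_le_add (hp.2.1 _) (hq.2.1 _))

private theorem DS3_mon (n : ℕ) {p : MvPolynomial (Fin 4 × Fin 4) ℤ} {d L : ℕ}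
    (h1 : p.totalDegree ≤ d) (h2 : PQ.l1 p ≤ L) : DS3_B (Polynomial.monomial n p) n d L := by
  classical
  refine ⟨Polynomial.natDegree_monomial_le p, fun j => ?_, ?_⟩
  · rw [Polynomial.coeff_monomial]
    split_ifs
    · exact h1
    · rw [MvPolynomial.totalDegree_zero]
      exact Nat.zero_le _
  · refine le_trans ?_ h2
    unfold PQ.L1
    refine (Finset.sum_le_sum_of_subset (Polynomial.support_monomial_subset n p)).trans ?_
    rw [Finset.sum_singleton, Polynomial.coeff_monomial, if_pos rfl]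

private theorem DS3_mono {p : Polynomial (MvPolynomial (Fin 4 × Fin 4) ℤ)}
    {n d L n' d' L' : ℕ} (hp : DS3_B p n d L) (h1 : n ≤ n') (h2 : d ≤ d') (h3 : L ≤ L') :
    DS3_B p n' d' L' :=
  ⟨hp.1.trans h1, fun j => (hp.2.1 j).trans h2, hp.2.2.trans h3⟩

private theorem DS3_nat (k : ℕ) :
    DS3_B (k : Polynomial (MvPolynomial (Fin 4 × Fin 4) ℤ)) 0 0 k := by
  have h : (k : Polynomial (MvPolynomial (Fin 4 × Fin 4) ℤ)) =
      Polynomial.monomial 0 (C (k : ℤ)) := by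
    rw [Polynomial.monomial_zero_left]
    simp
  rw [h]
  refine DS3_mon 0 (by rw [MvPolynomial.totalDegree_C]) ?_
  rw [PQ.l1_C, Int.natAbs_natCast]

private theorem DS3_da (j : Fin 4) : DS3_B (da j) 3 1 4 := by
  have h : ∀ i : Fin 4, DS3_B (Polynomial.C (X (i, j)) * Polynomial.X ^ (i : ℕ)) 3 1 1 := by
    intro i
    rw [Polynomial.C_mul_X_pow_eq_monomial]
    refine DS3_mono (DS3_mon (i : ℕ) (d := 1) (L := 1) ?_ ?_) ?_ le_rfl le_rfl
    · exact (MvPolynomial.totalDegree_X _).le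
    · exact (PQ.l1_X _).le
    · omega
  unfold da
  rw [Fin.sum_univ_four]
  exact DS3_add (DS3_add (DS3_add (h 0) (h 1)) (h 2)) (h 3)

private theorem DS3_main : DS3_B ds3 12 4 13824 := by
  have h0 := DS3_da 0
  have h1 := DS3_da 1
  have h2 := DS3_da 2
  have h3 := DS3_da 3
  have e : ds3 = da 1 * da 1 * (da 2 * da 2) -
      ((4 : ℕ) : Polynomial (MvPolynomial (Fin 4 × Fin 4) ℤ)) * (da 0 * da 2 * (da 2 * da 2)) -
      ((4 : ℕ) : Polynomial (MvPolynomial (Fin 4 × Fin 4) ℤ)) * (da 1 * da 1 * (da 1 * da 3)) -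
      ((27 : ℕ) : Polynomial (MvPolynomial (Fin 4 × Fin 4) ℤ)) * (da 0 * da 0 * (da 3 * da 3)) +
      ((18 : ℕ) : Polynomial (MvPolynomial (Fin 4 × Fin 4) ℤ)) * (da 0 * da 1 * (da 2 * da 3)) := by
    unfold ds3
    push_cast
    ring
  rw [e]
  have t1 := DS3_mul (DS3_mul h1 h1) (DS3_mul h2 h2)
  have t2 := DS3_mul (DS3_nat 4) (DS3_mul (DS3_mul h0 h2) (DS3_mul h2 h2))
  have t3 := DS3_mul (DS3_nat 4) (DS3_mul (DS3_mul h1 h1) (DS3_mul h1 h3))
  have t4 := DS3_mul (DS3_nat 27) (DS3_mul (DS3_mul h0 h0) (DS3_mul h3 h3))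
  have t5 := DS3_mul (DS3_nat 18) (DS3_mul (DS3_mul h0 h1) (DS3_mul h2 h3))
  have m1 := DS3_mono t1 (n' := 12) (d' := 4) (L' := 256) (by norm_num) (by norm_num)
    (by norm_num)
  have m2 := DS3_mono t2 (n' := 12) (d' := 4) (L' := 1024) (by norm_num) (by norm_num)
    (by norm_num)
  have m3 := DS3_mono t3 (n' := 12) (d' := 4) (L' := 1024) (by norm_num) (by norm_num)
    (by norm_num)
  have m4 := DS3_mono t4 (n' := 12) (d' := 4) (L' := 6912) (by norm_num) (by norm_num)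
    (by norm_num)
  have m5 := DS3_mono t5 (n' := 12) (d' := 4) (L' := 4608) (by norm_num) (by norm_num)
    (by norm_num)
  exact DS3_add (DS3_sub (DS3_sub (DS3_sub m1 m2) m3) m4) m5

theorem ds3_natDegree : ds3.natDegree ≤ 12 := DS3_main.1

theorem ds3_totalDegree (j : ℕ) : (ds3.coeff j).totalDegree ≤ 4 := DS3_main.2.1 j

theorem ds3_l1 (j : ℕ) : PQ.l1 (ds3.coeff j) ≤ 2 ^ 400 :=
  (PQ.l1_le_L1 ds3 j).trans (DS3_main.2.2.trans ((show (13824 : ℕ) ≤ 2 ^ 14 by norm_num).trans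
    (Nat.pow_le_pow_right (by norm_num) (by norm_num))))

private noncomputable def DS3_e (i j : Fin 4) : Fin 2 ⊕ Fin 2 →₀ ℕ :=
  Finsupp.single (Sum.inl 0) (3 - (i : ℕ)) + Finsupp.single (Sum.inl 1) (i : ℕ) +
    Finsupp.single (Sum.inr 0) (3 - (j : ℕ)) + Finsupp.single (Sum.inr 1) (j : ℕ)

private theorem DS3_e1 (i j : Fin 4) : DS3_e i j (Sum.inl 1) = i := by
  simp [DS3_e]

private theorem DS3_e2 (i j : Fin 4) : DS3_e i j (Sum.inr 1) = j := by
  simp [DS3_e]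

private theorem DS3_ex {R : Type*} [CommRing R] {D : P4 R} (hD : BH D 3 3)
    {d : Fin 2 ⊕ Fin 2 →₀ ℕ} (h : coeff d D ≠ 0) : ∃ i j, d = DS3_e i j := by
  have h1 := hD h
  rw [Finsupp.weight_apply, Finsupp.sum_fintype _ _ (fun i => by simp), Fintype.sum_sum_type,
    Fin.sum_univ_two, Fin.sum_univ_two] at h1
  have h2 := congrArg Prod.fst h1
  have h3 := congrArg Prod.snd h1
  simp [bw] at h2 h3
  refine ⟨⟨d (Sum.inl 1), by omega⟩, ⟨d (Sum.inr 1), by omega⟩, ?_⟩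
  ext x
  rcases x with x | x
  · fin_cases x
    · simp [DS3_e]
      omega
    · simp [DS3_e]
  · fin_cases x
    · simp [DS3_e]
      omega
    · simp [DS3_e]

private theorem DS3_rep {R : Type*} [CommRing R] {D : P4 R} (hD : BH D 3 3) :
    D = ∑ i : Fin 4, ∑ j : Fin 4, C (dco D i j) * X (Sum.inl 0) ^ (3 - (i : ℕ)) *
      X (Sum.inl 1) ^ (i : ℕ) * X (Sum.inr 0) ^ (3 - (j : ℕ)) * X (Sum.inr 1) ^ (j : ℕ) := by
  classical
  have h1 : ∀ i j : Fin 4, C (dco D i j) * X (Sum.inl 0) ^ (3 - (i : ℕ)) *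
      X (Sum.inl 1) ^ (i : ℕ) * X (Sum.inr 0) ^ (3 - (j : ℕ)) * X (Sum.inr 1) ^ (j : ℕ) =
      monomial (DS3_e i j) (coeff (DS3_e i j) D) := by
    intro i j
    conv_rhs => unfold DS3_e
    rw [monomial_add_single, monomial_add_single, monomial_add_single,
      ← C_mul_X_pow_eq_monomial]
    rfl
  simp only [h1]
  ext d
  rw [coeff_sum]
  simp only [coeff_sum, coeff_monomial]
  by_cases hd : coeff d D = 0
  · rw [hd]
    symm
    refine Finset.sum_eq_zero fun i _ => Finset.sum_eq_zero fun j _ => ?_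
    split_ifs with h
    · rw [h, hd]
    · rfl
  · obtain ⟨i0, j0, rfl⟩ := DS3_ex hD hd
    rw [Finset.sum_eq_single i0, Finset.sum_eq_single j0, if_pos rfl]
    · intro j _ hj
      rw [if_neg]
      intro h
      have h2 := congrArg (fun f => f (Sum.inr 1)) h
      simp only [DS3_e2] at h2
      exact hj (Fin.ext h2)
    · intro h
      exact absurd (Finset.mem_univ _) h
    · intro i _ hi
      refine Finset.sum_eq_zero fun j _ => ?_
      rw [if_neg]
      intro h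
      have h2 := congrArg (fun f => f (Sum.inl 1)) h
      simp only [DS3_e1] at h2
      exact hi (Fin.ext h2)
    · intro h
      exact absurd (Finset.mem_univ _) h

/-- values of `D` in terms of the coefficients -/
theorem eval_dco {R : Type*} [CommRing R] {D : P4 R} (hD : BH D 3 3) (s t : Fin 2 → R) :
    eval (pt s t) D = ∑ i : Fin 4, ∑ j : Fin 4,
      dco D i j * s 0 ^ (3 - (i : ℕ)) * s 1 ^ (i : ℕ) * t 0 ^ (3 - (j : ℕ)) * t 1 ^ (j : ℕ) := by
  conv_lhs => rw [DS3_rep hD]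
  simp only [map_sum, map_mul, map_pow, eval_C, eval_X]
  rfl

private theorem DS3_pd {R : Type*} [CommRing R] (r : R) (a b u v : ℕ) (s t : Fin 2 → R) :
    eval (pt s t) (pderiv (Sum.inr 0) (C r * X (Sum.inl 0) ^ a * X (Sum.inl 1) ^ b *
      X (Sum.inr 0) ^ u * X (Sum.inr 1) ^ v : P4 R)) =
      r * s 0 ^ a * s 1 ^ b * ((u : R) * t 0 ^ (u - 1)) * t 1 ^ v ∧
    eval (pt s t) (pderiv (Sum.inr 1) (C r * X (Sum.inl 0) ^ a * X (Sum.inl 1) ^ b *
      X (Sum.inr 0) ^ u * X (Sum.inr 1) ^ v : P4 R)) =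
      r * s 0 ^ a * s 1 ^ b * t 0 ^ u * ((v : R) * t 1 ^ (v - 1)) := by
  constructor
  · simp only [pderiv_mul, pderiv_pow, pderiv_C, pderiv_X_self,
      pderiv_X_of_ne (show (Sum.inl 0 : Fin 2 ⊕ Fin 2) ≠ Sum.inr 0 by simp),
      pderiv_X_of_ne (show (Sum.inl 1 : Fin 2 ⊕ Fin 2) ≠ Sum.inr 0 by simp),
      pderiv_X_of_ne (show (Sum.inr 1 : Fin 2 ⊕ Fin 2) ≠ Sum.inr 0 by simp)]
    simp [pt]
  · simp only [pderiv_mul, pderiv_pow, pderiv_C, pderiv_X_self,
      pderiv_X_of_ne (show (Sum.inl 0 : Fin 2 ⊕ Fin 2) ≠ Sum.inr 1 by simp),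
      pderiv_X_of_ne (show (Sum.inl 1 : Fin 2 ⊕ Fin 2) ≠ Sum.inr 1 by simp),
      pderiv_X_of_ne (show (Sum.inr 0 : Fin 2 ⊕ Fin 2) ≠ Sum.inr 1 by simp)]
    simp [pt]

/-- the coefficients of the cubic at the point `(1, c)` -/
private noncomputable def DS3_A {R : Type*} [CommRing R] (D : P4 R) (c : R) (j : Fin 4) : R :=
  ∑ i : Fin 4, dco D i j * c ^ (i : ℕ)

private theorem DS3_F {R : Type*} [CommRing R] {D : P4 R} (hD : BH D 3 3) (c : R)
    (t : Fin 2 → R) : eval (pt ![1, c] t) D = DS3_A D c 0 * t 0 ^ 3 +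
      DS3_A D c 1 * t 0 ^ 2 * t 1 + DS3_A D c 2 * t 0 * t 1 ^ 2 + DS3_A D c 3 * t 1 ^ 3 := by
  rw [eval_dco hD]
  unfold DS3_A
  simp only [Fin.sum_univ_four, Matrix.cons_val_zero, Matrix.cons_val_one, one_pow, mul_one]
  simp
  ring

private theorem DS3_F0 {R : Type*} [CommRing R] {D : P4 R} (hD : BH D 3 3) (c : R)
    (t : Fin 2 → R) : eval (pt ![1, c] t) (pderiv (Sum.inr 0) D) =
      3 * DS3_A D c 0 * t 0 ^ 2 + 2 * DS3_A D c 1 * t 0 * t 1 + DS3_A D c 2 * t 1 ^ 2 := by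
  conv_lhs => rw [DS3_rep hD]
  simp only [map_sum, (DS3_pd _ _ _ _ _ _ _).1]
  unfold DS3_A
  simp only [Fin.sum_univ_four, Matrix.cons_val_zero, Matrix.cons_val_one, one_pow, mul_one]
  simp
  ring

private theorem DS3_F1 {R : Type*} [CommRing R] {D : P4 R} (hD : BH D 3 3) (c : R)
    (t : Fin 2 → R) : eval (pt ![1, c] t) (pderiv (Sum.inr 1) D) =
      DS3_A D c 1 * t 0 ^ 2 + 2 * DS3_A D c 2 * t 0 * t 1 + 3 * DS3_A D c 3 * t 1 ^ 2 := by
  conv_lhs => rw [DS3_rep hD]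
  simp only [map_sum, (DS3_pd _ _ _ _ _ _ _).2]
  unfold DS3_A
  simp only [Fin.sum_univ_four, Matrix.cons_val_zero, Matrix.cons_val_one, one_pow, mul_one]
  simp
  ring

private theorem DS3_ev {K : Type*} [CommRing K] (D : P4 K) (c : K) :
    (ds3.map (aeval (fun ij : Fin 4 × Fin 4 => dco D ij.1 ij.2) :
      MvPolynomial (Fin 4 × Fin 4) ℤ →ₐ[ℤ] K).toRingHom).eval c =
    DS3_A D c 1 ^ 2 * DS3_A D c 2 ^ 2 - 4 * DS3_A D c 0 * DS3_A D c 2 ^ 3 -
      4 * DS3_A D c 1 ^ 3 * DS3_A D c 3 - 27 * DS3_A D c 0 ^ 2 * DS3_A D c 3 ^ 2 +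
      18 * DS3_A D c 0 * DS3_A D c 1 * DS3_A D c 2 * DS3_A D c 3 := by
  have h : ∀ j, ((da j).map (aeval (fun ij : Fin 4 × Fin 4 => dco D ij.1 ij.2) :
      MvPolynomial (Fin 4 × Fin 4) ℤ →ₐ[ℤ] K).toRingHom).eval c = DS3_A D c j := by
    intro j
    unfold da DS3_A
    rw [Polynomial.map_sum, Polynomial.eval_finsetSum]
    refine Finset.sum_congr rfl fun i _ => ?_
    rw [Polynomial.map_mul, Polynomial.map_pow, Polynomial.map_X, Polynomial.map_C,
      Polynomial.eval_mul, Polynomial.eval_pow, Polynomial.eval_X, Polynomial.eval_C]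
    congr 1
    exact MvPolynomial.aeval_X _ _
  unfold ds3
  simp only [Polynomial.map_add, Polynomial.map_sub, Polynomial.map_mul, Polynomial.map_pow,
    Polynomial.map_ofNat, Polynomial.eval_add, Polynomial.eval_sub, Polynomial.eval_mul,
    Polynomial.eval_pow, Polynomial.eval_ofNat, h]

theorem ds3_root {C : Type*} [Field C] [CharZero C] (D : P4 C) (hD : BH D 3 3) (c : C) (t : Fin 2 → C)
    (ht : t ≠ 0) (h0 : eval (pt ![1, c] t) D = 0)
    (h1 : ∀ j, eval (pt ![1, c] t) (pderiv (Sum.inr j) D) = 0) :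
    (ds3.map (aeval (fun ij : Fin 4 × Fin 4 => dco D ij.1 ij.2) :
      MvPolynomial (Fin 4 × Fin 4) ℤ →ₐ[ℤ] C).toRingHom).eval c = 0 := by
  have e1 := h0
  have e2 := h1 0
  have e3 := h1 1
  rw [DS3_F hD] at e1
  rw [DS3_F0 hD] at e2
  rw [DS3_F1 hD] at e3
  rw [DS3_ev]
  generalize DS3_A D c 0 = a0 at *
  generalize DS3_A D c 1 = a1 at *
  generalize DS3_A D c 2 = a2 at *
  generalize DS3_A D c 3 = a3 at *
  by_cases h : t 0 = 0
  · have h2 : t 1 ≠ 0 := by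
      intro h3
      apply ht
      funext i
      fin_cases i
      · exact h
      · exact h3
    rw [h] at e1 e2
    have h4 : a3 = 0 := by
      have : a3 * t 1 ^ 3 = 0 := by linear_combination e1
      exact (mul_eq_zero.1 this).resolve_right (pow_ne_zero 3 h2)
    have h5 : a2 = 0 := by
      have : a2 * t 1 ^ 2 = 0 := by linear_combination e2
      exact (mul_eq_zero.1 this).resolve_right (pow_ne_zero 2 h2)
    rw [h4, h5]
    ring
  · obtain ⟨y, hy⟩ : ∃ y, t 1 = y * t 0 := ⟨t 1 / t 0, by field_simp⟩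
    rw [hy] at e1 e3
    have h4 : a1 = -2 * a2 * y - 3 * a3 * y ^ 2 := by
      have : (a1 + 2 * a2 * y + 3 * a3 * y ^ 2) * t 0 ^ 2 = 0 := by linear_combination e3
      have h5 := (mul_eq_zero.1 this).resolve_right (pow_ne_zero 2 h)
      linear_combination h5
    have h6 : a0 = a2 * y ^ 2 + 2 * a3 * y ^ 3 := by
      have : (a0 + a1 * y + a2 * y ^ 2 + a3 * y ^ 3) * t 0 ^ 3 = 0 := by linear_combination e1
      have h5 := (mul_eq_zero.1 this).resolve_right (pow_ne_zero 3 h)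
      rw [h4] at h5
      linear_combination h5
    rw [h4, h6]
    ring

private theorem DS3_sub1 {K : Type*} [CommRing K] (x : K) (t : Fin 2 → K) (D : P4 K) :
    eval (pt ![1, 0] t) (sD !![1, 0; x, 1] 1 D) = eval (pt ![1, x] t) D := by
  induction D using MvPolynomial.induction_on with
  | C a => simp [sD]
  | add p q hp hq => rw [map_add, map_add, map_add, hp, hq]
  | mul_X p n ih =>
    rw [map_mul, map_mul, map_mul, ih]
    congr 1
    rcases n with n | n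
    · fin_cases n
      · simp [sD, pt]
      · simp [sD, pt]
    · fin_cases n
      · simp [sD, pt]
      · simp [sD, pt]

private theorem DS3_sub2 {K : Type*} [CommRing K] (t : Fin 2 → K) (D : P4 K) :
    eval t (eval₂ C (Sum.elim ![1, 0] X) D : MvPolynomial (Fin 2) K) =
      eval (pt ![1, 0] t) D := by
  induction D using MvPolynomial.induction_on with
  | C a => simp
  | add p q hp hq => rw [eval₂_add, map_add, map_add, hp, hq]
  | mul_X p n ih =>
    rw [eval₂_mul, map_mul, map_mul, ih]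
    congr 1
    rcases n with n | n
    · fin_cases n
      · simp [pt]
      · simp [pt]
    · fin_cases n
      · simp [pt]
      · simp [pt]

theorem ds3_ne {C : Type*} [Field C] [CharZero C] [IsAlgClosed C] (D : P4 C) (hD : BH D 3 3)
    (hS : Smo D) :
    ds3.map (aeval (fun ij : Fin 4 × Fin 4 => dco D ij.1 ij.2) :
      MvPolynomial (Fin 4 × Fin 4) ℤ →ₐ[ℤ] C).toRingHom ≠ 0 := by
  obtain ⟨x, c, a, D', hc, ha, h1, h2⟩ := dsx (by norm_num) D hD hS
  have key : ∀ t : Fin 2 → C, eval (pt ![1, x] t) D = c * ∏ i, (t 1 - a i * t 0) := by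
    intro t
    rw [← DS3_sub1, h1, map_mul, eval_C, ← DS3_sub2, h2]
    congr 1
    rw [map_prod]
    refine Finset.prod_congr rfl fun i _ => ?_
    simp
  intro hz
  have h3 := congrArg (Polynomial.eval x) hz
  rw [DS3_ev, Polynomial.eval_zero] at h3
  have k1 := key ![1, 0]
  have k2 := key ![0, 1]
  have k3 := key ![1, 1]
  have k4 := key ![1, -1]
  rw [DS3_F hD] at k1 k2 k3 k4
  rw [Fin.prod_univ_three] at k1 k2 k3 k4
  simp only [Matrix.cons_val_zero, Matrix.cons_val_one] at k1 k2 k3 k4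
  generalize DS3_A D x 0 = A0 at *
  generalize DS3_A D x 1 = A1 at *
  generalize DS3_A D x 2 = A2 at *
  generalize DS3_A D x 3 = A3 at *
  have n01 : a 0 - a 1 ≠ 0 := sub_ne_zero.2 fun h => by
    have := ha h
    simp at this
  have n02 : a 0 - a 2 ≠ 0 := sub_ne_zero.2 fun h => by
    have := ha h
    simp at this
  have n12 : a 1 - a 2 ≠ 0 := sub_ne_zero.2 fun h => by
    have := ha h
    simp at this
  generalize a 0 = u at *
  generalize a 1 = v at *
  generalize a 2 = w at *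
  have q0 : A0 = -c * (u * v * w) := by linear_combination k1
  have q3 : A3 = c := by linear_combination k2
  have q2 : A2 = -c * (u + v + w) := by
    have : (2 : C) * A2 = 2 * (-c * (u + v + w)) := by
      rw [q0, q3] at k3 k4
      linear_combination k3 + k4
    exact mul_left_cancel₀ two_ne_zero this
  have q1 : A1 = c * (u * v + u * w + v * w) := by
    rw [q0, q3, q2] at k3
    linear_combination k3
  have h4 : c ^ 4 * ((u - v) * (u - w) * (v - w)) ^ 2 = 0 := by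
    rw [q0, q1, q2, q3] at h3
    linear_combination h3
  exact (mul_ne_zero (pow_ne_zero 4 hc) (pow_ne_zero 2 (mul_ne_zero (mul_ne_zero n01 n02) n12))) h4

end Pool.Agent.T1
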