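import Pool.Agent.T1.ENA
import Pool.Agent.T1.BDB
import Pool.Agent.T1.DS3

/-!
# T1 / DCB: the coefficients of the determinant of a bounded web are bounded

`θ` = the 36 entries of `M`.  For integers `x, y ∈ {0, 1, 2, 3}` the value `D(1, x; 1, y) = eval (pt ![1, x] ![1, y]) (dW M) = (aw M ![1, x] ![1, y]).det` (`eval_dW`) is a `3 × 3` determinant with entries `∑ s i * t j * M i j a b`: `PB θ 100` (`PB.det`, `PB.int`).
`eval_dco` (`DS3`): `D(1, x; 1, y) = ∑ i j, dco D i j * x ^ i * y ^ j`.  Lagrange interpolation at `0, 1, 2, 3` in both variables: `36 * dco D i j` is an integral combination of the 16 values `D(1, x; 1, y)` (the matrix `![![6, -11, 6, -1], ![0, 18, -15, 3], ![0, -9, 12, -3], ![0, 2, -3, 1]]`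
(row `x`, column `i`) is `6` times the matrix of the coefficients of the Lagrange polynomials: `6 * dco i = ∑ x, L x i * value x` in one variable).  So `36 * dco` is `PB θ 200`, and `dco` is `Bd (c + 10)` by `PB.quot` with `q = 36`.
-/

namespace Pool.Agent.T1

open MvPolynomial Matrix

private def DCB_L : Fin 4 → Fin 4 → ℤ :=
  ![![6, -11, 6, -1], ![0, 18, -15, 3], ![0, -9, 12, -3], ![0, 2, -3, 1]]

private theorem DCB_one {C : Type*} [Field C] (u : Fin 4 → C) (i : Fin 4) :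
    ∑ x : Fin 4, (DCB_L x i : C) * (∑ i' : Fin 4, u i' * ((x : ℕ) : C) ^ (i' : ℕ)) = 6 * u i := by
  fin_cases i <;> simp [DCB_L, Fin.sum_univ_four] <;> ring

private theorem DCB_L_le (x i : Fin 4) : (DCB_L x i).natAbs ≤ 2 ^ 5 := by
  fin_cases x <;> fin_cases i <;> simp [DCB_L]

theorem dco_dW {C : Type*} [Field C] [CharZero C] [IsAlgClosed C] {c s : ℕ} (hs : 16 ≤ s) (hc : 2 ≤ c)
    (M : Web C) (hb : ∀ a b i j, Bd c s (en M a b i j)) (i j : Fin 4) : Bd (c + 10) s (dco (dW M) i j) := by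
  classical
  set θ : (Fin 3 × Fin 3) × (Fin 2 × Fin 2) → C := fun p => en M p.1.1 p.1.2 p.2.1 p.2.2 with hθ
  have hθb : ∀ p, Bd c s (θ p) := fun p => hb _ _ _ _
  have hvar : ∀ (k l : Fin 2) (a b : Fin 3), PB θ 1 (M k l a b) := fun k l a b =>
    PB.var (θ := θ) ((a, b), (k, l))
  -- values
  have hV : ∀ x y : Fin 4, PB θ 36 (aw M ![1, ((x : ℕ) : C)] ![1, ((y : ℕ) : C)]).det := by
    intro x y
    have hs1 : ∀ (z : Fin 4) (k : Fin 2), PB θ 2 ((![1, ((z : ℕ) : C)] : Fin 2 → C) k) := by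
      intro z k
      fin_cases k
      · exact PB.one.mono (Nat.zero_le _)
      · have h1 := PB.int (θ := θ) (N := 2) ((z : ℕ) : ℤ) (by
          rw [Int.natAbs_natCast]
          have := z.2
          omega)
        simpa using h1
    have hent : ∀ a b, PB θ 9 (aw M ![1, ((x : ℕ) : C)] ![1, ((y : ℕ) : C)] a b) := by
      intro a b
      have e1 : aw M ![1, ((x : ℕ) : C)] ![1, ((y : ℕ) : C)] a b =
          ∑ k : Fin 2, ∑ l : Fin 2, ((![1, ((x : ℕ) : C)] : Fin 2 → C) k *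
            (![1, ((y : ℕ) : C)] : Fin 2 → C) l) * M k l a b := by
        simp only [aw, Matrix.sum_apply, Matrix.smul_apply, smul_eq_mul]
      rw [e1]
      have e2 : ∀ k : Fin 2, PB θ 7 (∑ l : Fin 2, ((![1, ((x : ℕ) : C)] : Fin 2 → C) k *
            (![1, ((y : ℕ) : C)] : Fin 2 → C) l) * M k l a b) := fun k =>
        (PB.sum (θ := θ) (N := 5) (Finset.univ : Finset (Fin 2)) _
          fun l _ => ((hs1 x k).mul (hs1 y l)).mul (hvar k l a b)).mono (by simp)
      exact (PB.sum (θ := θ) (N := 7) (Finset.univ : Finset (Fin 2)) _ fun k _ => e2 k).mono (by simp)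
    exact (PB.det _ hent).mono (by norm_num [Nat.factorial])
  have hid : (36 : C) * dco (dW M) i j = ∑ y : Fin 4, (DCB_L y j : C) *
      (∑ x : Fin 4, (DCB_L x i : C) * (aw M ![1, ((x : ℕ) : C)] ![1, ((y : ℕ) : C)]).det) := by
    have h1 : ∀ x y : Fin 4, (aw M ![1, ((x : ℕ) : C)] ![1, ((y : ℕ) : C)]).det =
        ∑ i' : Fin 4, (∑ j' : Fin 4, dco (dW M) i' j' * ((y : ℕ) : C) ^ (j' : ℕ)) *
          ((x : ℕ) : C) ^ (i' : ℕ) := by
      intro x y
      rw [← eval_dW, eval_dco (BH_dW M)]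
      refine Finset.sum_congr rfl fun i' _ => ?_
      rw [Finset.sum_mul]
      refine Finset.sum_congr rfl fun j' _ => ?_
      simp only [Matrix.cons_val_zero, Matrix.cons_val_one, one_pow, mul_one]
      ring
    have h2 : ∀ y : Fin 4, (∑ x : Fin 4, (DCB_L x i : C) *
        (aw M ![1, ((x : ℕ) : C)] ![1, ((y : ℕ) : C)]).det) =
        6 * ∑ j' : Fin 4, dco (dW M) i j' * ((y : ℕ) : C) ^ (j' : ℕ) := by
      intro y
      simp only [h1]
      exact DCB_one (fun i' => ∑ j' : Fin 4, dco (dW M) i' j' * ((y : ℕ) : C) ^ (j' : ℕ)) i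
    simp only [h2]
    have h3 := DCB_one (fun j' => dco (dW M) i j') j
    have h4 : ∀ y : Fin 4, (DCB_L y j : C) * (6 * ∑ j' : Fin 4, dco (dW M) i j' * ((y : ℕ) : C) ^ (j' : ℕ)) =
        6 * ((DCB_L y j : C) * ∑ j' : Fin 4, dco (dW M) i j' * ((y : ℕ) : C) ^ (j' : ℕ)) := by
      intro y
      ring
    simp only [h4]
    rw [← Finset.mul_sum, h3]
    ring
  have hp : PB θ 54 ((36 : C) * dco (dW M) i j) := by
    rw [hid]
    have e3 : ∀ y : Fin 4, PB θ 50 ((DCB_L y j : C) *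
      (∑ x : Fin 4, (DCB_L x i : C) * (aw M ![1, ((x : ℕ) : C)] ![1, ((y : ℕ) : C)]).det)) := by
     intro y
     have hL : ∀ z k : Fin 4, PB θ 5 (DCB_L z k : C) := fun z k => PB.int _ (DCB_L_le z k)
     have h5 : PB θ (41 + (Finset.univ : Finset (Fin 4)).card) (∑ x : Fin 4, (DCB_L x i : C) *
        (aw M ![1, ((x : ℕ) : C)] ![1, ((y : ℕ) : C)]).det) :=
      PB.sum (N := 41) _ _ fun x _ => (hL x i).mul (hV x y)
     exact ((hL y j).mul h5).mono (by simp)
    exact (PB.sum (θ := θ) (N := 50) (Finset.univ : Finset (Fin 4)) _ fun y _ => e3 y).mono (by simp)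
  have hq : PB θ 54 (36 : C) := by
    have := PB.int (θ := θ) (N := 54) 36 (by norm_num)
    simpa using this
  have h36 : (36 : C) ≠ 0 := by norm_num
  have h6 := PB.quot hs hc (by norm_num) (by simp) hθb hp hq h36
  rwa [mul_div_cancel_left₀ _ h36] at h6


end Pool.Agent.T1
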