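import Pool.Agent.T1.AWB

/-!
# T1 / POL: webs with a linear kernel vector

`Y a` is a linear form on `V₄` (the `2 × 2` matrices `x`): `⟨Y a, x⟩ = ∑ i j, Y a i j * x i j`; `Y(x) ∈ k³` the vector of the `⟨Y a, x⟩`, `M(x) = ∑ x i j • M i j`.
Proof.  (1) Comparing coefficients in the hypothesis (coefficients of `s_i s_k t_j t_l`): for every `x ∈ V₄`, `M(x) Y(x) = det x • w` with
`w := M 0 0 Y(e₁₁) + M 1 1 Y(e₀₀) = - (M 0 1 Y(e₁₀) + M 1 0 Y(e₀₁))` (`e_ij` the matrix units).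
Polarisation: `M(x) Y(x') + M(x') Y(x) = bf x x' • w`.
(2) `Y : V₄ → k³` is surjective (`hY`: no `z ≠ 0` is orthogonal to the image), so it has a kernel vector `x₀ ≠ 0`, unique up to scalars.
(3) `w ≠ 0`: otherwise, `x' = x₀`: `M(x₀) Y(x) = 0` for all `x`, so `M(x₀) = 0`; so there is a linear map `N` from `k³` to symmetric matrices with `M(x) = N(Y(x))`,
`N(a) a = 0`, so `N(a) b + N(b) a = 0`; the trilinear form `τ(a, b, c) = b ⬝ᵥ N(a) c` satisfies `τ(a,b,c) = τ(a,c,b)` and `τ(a,b,c) = - τ(c,b,a)`; so `τ = 0` (`2 ≠ 0`):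
`τ(a,b,c) = -τ(c,b,a) = -τ(c,a,b) = τ(b,a,c) = τ(b,c,a) = -τ(a,c,b) = -τ(a,b,c)`.  So `M = 0`, contradiction.
(4) `x' = x₀`: `M(x₀) Y(x) = bf x x₀ • w` for all `x`.  The image of `M(x₀)` is in the line of `w` and `M(x₀)` is symmetric, so `M(x₀) = ρ • w wᵀ`, with
`ρ * (w ⬝ᵥ Y(x)) = bf x x₀`.  `bf` is non-degenerate, `x₀ ≠ 0`, so `ρ ≠ 0`.  `x = x₀`: `2 det x₀ = bf x₀ x₀ = 0`.  So `x₀ = s₀ t₀ᵀ` has rank one (after scaling `x₀`).
(5) Choose `p` with first column `s₀` and `q` with first column `t₀`, invertible, and scale so that `det p * det q = 1`... (the transformed objects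
`M' = sw p q M`, `Y' i j = ∑ p k i q l j Y(e_kl)`, `M'(x) = M(p x qᵀ)`, `Y'(x) = Y(p x qᵀ)`, `bf (p x qᵀ) (p y qᵀ) = det p det q bf x y`, have the same properties with
`x₀ = e₀₀`, so `Y' 0 0 = 0`, `M' 0 0 = ρ w wᵀ`, `ρ w ⬝ᵥ Y'(x) = (det p det q) x 1 1`.)  So `w ⬝ᵥ Y'(e₁₀) = w ⬝ᵥ Y'(e₀₁) = 0`, `w ⬝ᵥ Y'(e₁₁) =: r ≠ 0`.
`h` := the matrix with columns `Y'(e₁₀)`, `Y'(e₀₁)`, `r⁻¹ Y'(e₁₁)`, invertible (they generate `k³`).  `hᵀ w = (0, 0, 1)`.  So `hᵀ (M' 0 0) h = ρ E₃₃`.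
-/

namespace Pool.Agent.T1

open MvPolynomial Matrix

section

variable {k : Type*} [Field k]

/-- coefficients of a product of two forms of bidegree `(1, 1)` -/
private theorem POL_coeff (A B : Fin 3 → Matrix (Fin 2) (Fin 2) k)
    (h : ∑ b, pb (A b) * pb (B b) = 0) :
    (∑ b, A b 0 0 * B b 0 0 = 0) ∧ (∑ b, (A b 0 0 * B b 0 1 + A b 0 1 * B b 0 0) = 0) ∧
    (∑ b, A b 0 1 * B b 0 1 = 0) ∧ (∑ b, (A b 0 0 * B b 1 0 + A b 1 0 * B b 0 0) = 0) ∧
    (∑ b, (A b 0 0 * B b 1 1 + A b 0 1 * B b 1 0 + A b 1 0 * B b 0 1 + A b 1 1 * B b 0 0) = 0) ∧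
    (∑ b, (A b 0 1 * B b 1 1 + A b 1 1 * B b 0 1) = 0) ∧ (∑ b, A b 1 0 * B b 1 0 = 0) ∧
    (∑ b, (A b 1 0 * B b 1 1 + A b 1 1 * B b 1 0) = 0) ∧ (∑ b, A b 1 1 * B b 1 1 = 0) := by
  have hx : ∀ x : Matrix (Fin 2) (Fin 2) k,
      aeval (Sum.elim ![(1 : Polynomial k), Polynomial.X ^ 3] ![1, Polynomial.X]) (pb x) =
        Polynomial.C (x 0 0) + Polynomial.C (x 0 1) * Polynomial.X + Polynomial.C (x 1 0) * Polynomial.X ^ 3 +
          Polynomial.C (x 1 1) * Polynomial.X ^ 4 := by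
    intro x
    simp only [pb, Fin.sum_univ_two, map_add, map_mul, aeval_X, Sum.elim_inl, Sum.elim_inr, Matrix.cons_val_zero,
      Matrix.cons_val_one, mul_one]
    simp only [MvPolynomial.algHom_C, Polynomial.algebraMap_eq]
    ring
  have h1 := congrArg (aeval (Sum.elim ![(1 : Polynomial k), Polynomial.X ^ 3] ![1, Polynomial.X])) h
  simp only [map_sum, map_mul, map_zero, hx] at h1
  have h2 : ∑ b, (Polynomial.C (A b 0 0 * B b 0 0) + Polynomial.C (A b 0 0 * B b 0 1 + A b 0 1 * B b 0 0) * Polynomial.X +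
      Polynomial.C (A b 0 1 * B b 0 1) * Polynomial.X ^ 2 +
      Polynomial.C (A b 0 0 * B b 1 0 + A b 1 0 * B b 0 0) * Polynomial.X ^ 3 +
      Polynomial.C (A b 0 0 * B b 1 1 + A b 0 1 * B b 1 0 + A b 1 0 * B b 0 1 + A b 1 1 * B b 0 0) * Polynomial.X ^ 4 +
      Polynomial.C (A b 0 1 * B b 1 1 + A b 1 1 * B b 0 1) * Polynomial.X ^ 5 +
      Polynomial.C (A b 1 0 * B b 1 0) * Polynomial.X ^ 6 +
      Polynomial.C (A b 1 0 * B b 1 1 + A b 1 1 * B b 1 0) * Polynomial.X ^ 7 +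
      Polynomial.C (A b 1 1 * B b 1 1) * Polynomial.X ^ 8) = 0 := by
    rw [← h1]
    refine Finset.sum_congr rfl fun b _ => ?_
    simp only [map_add, map_mul]
    ring
  have hc : ∀ n, Polynomial.coeff (∑ b, (Polynomial.C (A b 0 0 * B b 0 0) + Polynomial.C (A b 0 0 * B b 0 1 + A b 0 1 * B b 0 0) * Polynomial.X +
      Polynomial.C (A b 0 1 * B b 0 1) * Polynomial.X ^ 2 +
      Polynomial.C (A b 0 0 * B b 1 0 + A b 1 0 * B b 0 0) * Polynomial.X ^ 3 +
      Polynomial.C (A b 0 0 * B b 1 1 + A b 0 1 * B b 1 0 + A b 1 0 * B b 0 1 + A b 1 1 * B b 0 0) * Polynomial.X ^ 4 +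
      Polynomial.C (A b 0 1 * B b 1 1 + A b 1 1 * B b 0 1) * Polynomial.X ^ 5 +
      Polynomial.C (A b 1 0 * B b 1 0) * Polynomial.X ^ 6 +
      Polynomial.C (A b 1 0 * B b 1 1 + A b 1 1 * B b 1 0) * Polynomial.X ^ 7 +
      Polynomial.C (A b 1 1 * B b 1 1) * Polynomial.X ^ 8)) n = 0 := by
    intro n
    rw [h2, Polynomial.coeff_zero]
  simp only [Polynomial.finsetSum_coeff, Polynomial.coeff_add, Polynomial.coeff_C_mul, Polynomial.coeff_C,
    Polynomial.coeff_X_pow, Polynomial.coeff_X] at hc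
  refine ⟨?_, ?_, ?_, ?_, ?_, ?_, ?_, ?_, ?_⟩
  · simpa using hc 0
  · simpa using hc 1
  · simpa using hc 2
  · simpa using hc 3
  · simpa using hc 4
  · simpa using hc 5
  · simpa using hc 6
  · simpa using hc 7
  · simpa using hc 8

/-- `M(x)` -/
private def POL_M (M : Web k) (x : Matrix (Fin 2) (Fin 2) k) : Matrix (Fin 3) (Fin 3) k :=
  ∑ i, ∑ j, x i j • M i j

/-- `Y(x)` -/
private def POL_Y (Y : Fin 3 → Matrix (Fin 2) (Fin 2) k) : Matrix (Fin 2) (Fin 2) k →ₗ[k] (Fin 3 → k) where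
  toFun x a := ∑ i, ∑ j, x i j * Y a i j
  map_add' x y := by
    funext a
    simp only [Fin.sum_univ_two, Matrix.add_apply, Pi.add_apply]
    ring
  map_smul' c x := by
    funext a
    simp only [Fin.sum_univ_two, Matrix.smul_apply, Pi.smul_apply, smul_eq_mul, RingHom.id_apply]
    ring

private theorem POL_Y_apply (Y : Fin 3 → Matrix (Fin 2) (Fin 2) k) (x : Matrix (Fin 2) (Fin 2) k) (a : Fin 3) :
    POL_Y Y x a = ∑ i, ∑ j, x i j * Y a i j := rfl

/-- the vector `w` -/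
private def POL_w (M : Web k) (Y : Fin 3 → Matrix (Fin 2) (Fin 2) k) : Fin 3 → k :=
  fun a => ∑ b, (M 0 0 a b * Y b 1 1 + M 1 1 a b * Y b 0 0)

/-- the polarised identity -/
private theorem POL_pol (M : Web k) (Y : Fin 3 → Matrix (Fin 2) (Fin 2) k)
    (h : ∀ a, ∑ b, pm M a b * pb (Y b) = 0) (x y : Matrix (Fin 2) (Fin 2) k) :
    POL_M M x *ᵥ POL_Y Y y + POL_M M y *ᵥ POL_Y Y x = bf x y • POL_w M Y := by
  funext a
  have h1 := h a
  simp only [pm_apply] at h1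
  obtain ⟨e1, e2, e3, e4, e5, e6, e7, e8, e9⟩ := POL_coeff _ _ h1
  simp only [Fin.sum_univ_three, Matrix.of_apply] at e1 e2 e3 e4 e5 e6 e7 e8 e9
  simp only [Pi.add_apply, Pi.smul_apply, smul_eq_mul, Matrix.mulVec, dotProduct, POL_Y_apply, POL_M, POL_w, bf,
    Fin.sum_univ_three, Fin.sum_univ_two, Matrix.add_apply, Matrix.smul_apply]
  linear_combination (2 * x 0 0 * y 0 0) * e1 + (x 0 0 * y 0 1 + x 0 1 * y 0 0) * e2 + (2 * x 0 1 * y 0 1) * e3 +
    (x 0 0 * y 1 0 + x 1 0 * y 0 0) * e4 + (x 0 1 * y 1 0 + x 1 0 * y 0 1) * e5 +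
    (x 0 1 * y 1 1 + x 1 1 * y 0 1) * e6 + (2 * x 1 0 * y 1 0) * e7 + (x 1 0 * y 1 1 + x 1 1 * y 1 0) * e8 +
    (2 * x 1 1 * y 1 1) * e9

private theorem POL_M_symm (M : Web k) (hs : Sy M) (x : Matrix (Fin 2) (Fin 2) k) (a b : Fin 3) :
    POL_M M x a b = POL_M M x b a := by
  have h : ∀ i j, M i j a b = M i j b a := fun i j => by
    have := congrFun (congrFun (hs i j) b) a
    simpa [Matrix.transpose_apply] using this
  simp only [POL_M, Fin.sum_univ_two, Matrix.add_apply, Matrix.smul_apply, smul_eq_mul, h]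

private theorem POL_surj (Y : Fin 3 → Matrix (Fin 2) (Fin 2) k)
    (hY : ∀ z : Fin 3 → k, (∀ i j, ∑ a, z a * Y a i j = 0) → z = 0) : Function.Surjective (POL_Y Y) := by
  rw [← LinearMap.range_eq_top]
  by_contra hne
  obtain ⟨f, hf, hle⟩ := Submodule.exists_le_ker_of_lt_top _ (lt_top_iff_ne_top.2 hne)
  have hfe : ∀ v : Fin 3 → k, f v = ∑ a, v a * f (Pi.single a 1) := by
    intro v
    have : v = ∑ a, v a • (Pi.single a (1 : k) : Fin 3 → k) := by
      funext c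
      simp [Pi.single_apply]
    conv_lhs => rw [this]
    simp only [map_sum, map_smul, smul_eq_mul]
  have hz : (fun a => f (Pi.single a 1)) = (0 : Fin 3 → k) := by
    apply hY
    intro i j
    have hm : POL_Y Y (Matrix.single i j 1) ∈ LinearMap.ker f := hle ⟨_, rfl⟩
    rw [LinearMap.mem_ker, hfe] at hm
    rw [← hm]
    refine Finset.sum_congr rfl fun a _ => ?_
    have : POL_Y Y (Matrix.single i j 1) a = Y a i j := by
      rw [POL_Y_apply, Finset.sum_eq_single i, Finset.sum_eq_single j]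
      · simp
      · intro j' _ hj
        simp [Matrix.single_apply_of_ne, Ne.symm hj]
      · simp
      · intro i' _ hi
        refine Finset.sum_eq_zero fun j' _ => ?_
        simp [Matrix.single_apply_of_ne, Ne.symm hi]
      · simp
    rw [this, mul_comm]
  refine hf (LinearMap.ext fun v => ?_)
  rw [hfe]
  simp only [fun a => congrFun hz a]
  simp

/-- rank one `2 × 2` matrices -/
private theorem POL_rk {x : Matrix (Fin 2) (Fin 2) k} (hx : x ≠ 0) (hd : x.det = 0) :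
    ∃ s t : Fin 2 → k, s ≠ 0 ∧ t ≠ 0 ∧ ∀ i j, x i j = s i * t j := by
  rw [Matrix.det_fin_two] at hd
  have hex : ∃ i j, x i j ≠ 0 := by
    by_contra hno
    push Not at hno
    exact hx (Matrix.ext fun i j => by simpa using hno i j)
  obtain ⟨i₀, j₀, h0⟩ := hex
  refine ⟨fun i => x i j₀, fun j => x i₀ j / x i₀ j₀, fun hs => h0 (congrFun hs i₀), fun ht => ?_, fun i j => ?_⟩
  · have := congrFun ht j₀
    simp [div_self h0] at this
  · show x i j = x i j₀ * (x i₀ j / x i₀ j₀)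
    rw [mul_div_assoc', eq_div_iff h0]
    fin_cases i₀ <;> fin_cases j₀ <;> fin_cases i <;> fin_cases j <;> simp only [Fin.zero_eta, Fin.mk_one, Fin.isValue] <;>
      first
        | ring1
        | linear_combination hd
        | linear_combination -hd

/-- a matrix with given first column -/
private theorem POL_col {s : Fin 2 → k} (hs : s ≠ 0) : ∃ p : Matrix (Fin 2) (Fin 2) k, p.det ≠ 0 ∧ ∀ i, p i 0 = s i := by
  by_cases h0 : s 0 = 0
  · have h1 : s 1 ≠ 0 := fun h1 => hs (funext fun i => by fin_cases i <;> simpa using ‹_›)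
    refine ⟨!![s 0, 1; s 1, 0], ?_, fun i => ?_⟩
    · simp [Matrix.det_fin_two, h1]
    · fin_cases i <;> simp
  · refine ⟨!![s 0, 0; s 1, 1], ?_, fun i => ?_⟩
    · simp [Matrix.det_fin_two, h0]
    · fin_cases i <;> simp

/-- steps (1) to (4): the kernel vector `x₀ = s₀ t₀ᵀ` and `M(x₀) = ρ w wᵀ` -/
private theorem POL_main (h2 : (2 : k) ≠ 0) (M : Web k) (hs : Sy M) (hM : M ≠ 0)
    (Y : Fin 3 → Matrix (Fin 2) (Fin 2) k) (hY : ∀ z : Fin 3 → k, (∀ i j, ∑ a, z a * Y a i j = 0) → z = 0)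
    (h : ∀ a, ∑ b, pm M a b * pb (Y b) = 0) :
    ∃ (x₀ : Matrix (Fin 2) (Fin 2) k) (w : Fin 3 → k) (ρ : k), x₀ ≠ 0 ∧ x₀.det = 0 ∧ ρ ≠ 0 ∧ POL_Y Y x₀ = 0 ∧
      (∀ a b, POL_M M x₀ a b = ρ * (w a * w b)) ∧ ∀ x, ρ * (w ⬝ᵥ POL_Y Y x) = bf x x₀ := by
  have hsurj := POL_surj Y hY
  have hpol := POL_pol M Y h
  obtain ⟨x₀, hx₀, hne⟩ : ∃ x₀ : Matrix (Fin 2) (Fin 2) k, POL_Y Y x₀ = 0 ∧ x₀ ≠ 0 := by
    have hlt : Module.finrank k (Fin 3 → k) < Module.finrank k (Matrix (Fin 2) (Fin 2) k) := by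
      simp [Module.finrank_matrix]
    have hb := LinearMap.ker_ne_bot_of_finrank_lt (f := POL_Y Y) hlt
    obtain ⟨x₀, hx₀, hne⟩ := (Submodule.ne_bot_iff _).1 hb
    exact ⟨x₀, LinearMap.mem_ker.1 hx₀, hne⟩
  -- matrices vanish if they kill everything
  have hzero : ∀ x, (∀ y, POL_M M x *ᵥ POL_Y Y y = 0) → POL_M M x = 0 := by
    intro x hx
    ext a b
    obtain ⟨y, hy⟩ := hsurj (Pi.single b 1)
    have := congrFun (hx y) a
    rw [hy] at this
    simpa using this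
  have hM0 : ∀ x, POL_M M x *ᵥ POL_Y Y x₀ = 0 := fun x => by rw [hx₀, Matrix.mulVec_zero]
  have h4 : ∀ x, POL_M M x₀ *ᵥ POL_Y Y x = bf x x₀ • POL_w M Y := fun x => by
    rw [← hpol x x₀, hM0, zero_add]
  have hw : POL_w M Y ≠ 0 := by
    intro hw
    have hanti : ∀ x y, POL_M M x *ᵥ POL_Y Y y = - (POL_M M y *ᵥ POL_Y Y x) := fun x y => by
      have := hpol x y
      rw [hw, smul_zero] at this
      exact eq_neg_of_add_eq_zero_left this
    have hsym : ∀ x y z, POL_Y Y y ⬝ᵥ (POL_M M x *ᵥ POL_Y Y z) = POL_Y Y z ⬝ᵥ (POL_M M x *ᵥ POL_Y Y y) := by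
      intro x y z
      rw [Matrix.dotProduct_mulVec, dotProduct_comm, ← Matrix.mulVec_transpose]
      congr 2
      ext a b
      exact POL_M_symm M hs x b a
    have hz : ∀ x y z, POL_Y Y y ⬝ᵥ (POL_M M x *ᵥ POL_Y Y z) = 0 := by
      intro x y z
      have hneg : ∀ x y z, POL_Y Y y ⬝ᵥ (POL_M M x *ᵥ POL_Y Y z) = - (POL_Y Y y ⬝ᵥ (POL_M M z *ᵥ POL_Y Y x)) := by
        intro x y z
        rw [hanti x z, dotProduct_neg]
      have e1 := hneg x y z
      have e2 := hsym z y x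
      have e3 := hneg z x y
      have e4 := hsym y x z
      have e5 := hneg y z x
      have e6 := hsym x z y
      have : 2 * (POL_Y Y y ⬝ᵥ (POL_M M x *ᵥ POL_Y Y z)) = 0 := by
        linear_combination e1 - e2 - e3 + e4 + e5 - e6
      exact (mul_eq_zero.1 this).resolve_left h2
    apply hM
    have hall : ∀ x, POL_M M x = 0 := fun x => hzero x fun z => by
      ext a
      obtain ⟨y, hy⟩ := hsurj (Pi.single a 1)
      have := hz x y z
      rw [hy] at this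
      simpa using this
    funext i j
    have := hall (Matrix.single i j 1)
    rw [POL_M, Finset.sum_eq_single i, Finset.sum_eq_single j] at this
    · simpa using this
    · intro j' _ hj
      simp [Matrix.single_apply_of_ne, Ne.symm hj]
    · simp
    · intro i' _ hi
      refine Finset.sum_eq_zero fun j' _ => ?_
      simp [Matrix.single_apply_of_ne, Ne.symm hi]
    · simp
  set w := POL_w M Y with hwdef
  -- the matrix `M(x₀)` has rank at most one
  choose y hy using fun c : Fin 3 => hsurj (Pi.single c 1)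
  have hcol : ∀ a c, POL_M M x₀ a c = bf (y c) x₀ * w a := by
    intro a c
    have := congrFun (h4 (y c)) a
    rw [hy] at this
    simpa using this
  obtain ⟨d, hd⟩ : ∃ d, w d ≠ 0 := by
    by_contra hno
    push Not at hno
    exact hw (funext hno)
  have hρ : ∀ c, bf (y c) x₀ = bf (y d) x₀ / w d * w c := by
    intro c
    have := POL_M_symm M hs x₀ d c
    rw [hcol, hcol] at this
    rw [div_mul_eq_mul_div, eq_div_iff hd]
    linear_combination this
  have h5 : ∀ x, bf (y d) x₀ / w d * (w ⬝ᵥ POL_Y Y x) = bf x x₀ := by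
    intro x
    have h6 := congrFun (h4 x) d
    have h7 : (POL_M M x₀ *ᵥ POL_Y Y x) d = bf (y d) x₀ / w d * (w ⬝ᵥ POL_Y Y x) * w d := by
      simp only [Matrix.mulVec, dotProduct, hcol, Finset.mul_sum, Finset.sum_mul]
      refine Finset.sum_congr rfl fun c _ => ?_
      rw [hρ c]
      ring
    rw [h7] at h6
    simp only [Pi.smul_apply, smul_eq_mul] at h6
    exact mul_right_cancel₀ hd h6
  have hρ0 : bf (y d) x₀ / w d ≠ 0 := by
    intro h0
    apply hne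
    have hb : ∀ x, bf x x₀ = 0 := fun x => by rw [← h5, h0, zero_mul]
    have b1 := hb !![1, 0; 0, 0]
    have b2 := hb !![0, 1; 0, 0]
    have b3 := hb !![0, 0; 1, 0]
    have b4 := hb !![0, 0; 0, 1]
    simp [bf] at b1 b2 b3 b4
    ext i j
    fin_cases i <;> fin_cases j <;> simp [b1, b2, b3, b4]
  refine ⟨x₀, w, bf (y d) x₀ / w d, hne, ?_, hρ0, hx₀, fun a b => ?_, h5⟩
  · have := h5 x₀
    rw [hx₀, dotProduct_zero, mul_zero] at this
    rw [Matrix.det_fin_two]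
    have h8 : 2 * (x₀ 0 0 * x₀ 1 1 - x₀ 0 1 * x₀ 1 0) = 0 := by
      simp only [bf] at this
      linear_combination -this
    exact (mul_eq_zero.1 h8).resolve_left h2
  · rw [hcol, hρ b]
    ring

end

theorem pol {k : Type*} [Field k] (h2 : (2 : k) ≠ 0) (M : Web k) (hs : Sy M) (hM : M ≠ 0)
    (Y : Fin 3 → Matrix (Fin 2) (Fin 2) k) (hY : ∀ z : Fin 3 → k, (∀ i j, ∑ a, z a * Y a i j = 0) → z = 0)
    (h : ∀ a, ∑ b, pm M a b * pb (Y b) = 0) :
    ∃ (p q : Matrix (Fin 2) (Fin 2) k) (g : Matrix (Fin 3) (Fin 3) k) (ρ r : k),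
      p.det ≠ 0 ∧ q.det ≠ 0 ∧ g.det ≠ 0 ∧ ρ ≠ 0 ∧ r ≠ 0 ∧
      (∀ a b, gw g (sw p q M) 0 0 a b = if a = 2 ∧ b = 2 then ρ else 0) ∧
      (∀ a, ∑ k, ∑ l, p k 0 * q l 0 * Y a k l = 0) ∧
      (∀ a, ∑ k, ∑ l, p k 1 * q l 0 * Y a k l = g a 0) ∧
      (∀ a, ∑ k, ∑ l, p k 0 * q l 1 * Y a k l = g a 1) ∧
      (∀ a, ∑ k, ∑ l, p k 1 * q l 1 * Y a k l = r * g a 2) := by
  obtain ⟨x₀, w, ρ, hne, hdet, hρ, hYx, hMx, hbf⟩ := POL_main h2 M hs hM Y hY h
  obtain ⟨s₀, t₀, hs0, ht0, hst⟩ := POL_rk hne hdet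
  obtain ⟨p, hp, hp0⟩ := POL_col hs0
  obtain ⟨q, hq, hq0⟩ := POL_col ht0
  -- `e i j` is the matrix `p e_ij qᵀ`
  set e : Fin 2 → Fin 2 → Matrix (Fin 2) (Fin 2) k := fun i j => Matrix.of fun a b => p a i * q b j with he
  have he00 : e 0 0 = x₀ := by
    ext a b
    simp only [he, Matrix.of_apply, hp0, hq0, hst]
  have hYe : ∀ i j a, POL_Y Y (e i j) a = ∑ k, ∑ l, p k i * q l j * Y a k l := fun i j a => rfl
  have hb10 : bf (e 1 0) x₀ = 0 := by
    rw [← he00]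
    simp only [bf, he, Matrix.of_apply]
    ring
  have hb01 : bf (e 0 1) x₀ = 0 := by
    rw [← he00]
    simp only [bf, he, Matrix.of_apply]
    ring
  have hb11 : bf (e 1 1) x₀ = p.det * q.det := by
    rw [← he00]
    simp only [bf, he, Matrix.of_apply, Matrix.det_fin_two]
    ring
  set r : k := ρ⁻¹ * (p.det * q.det) with hr
  have hr0 : r ≠ 0 := mul_ne_zero (inv_ne_zero hρ) (mul_ne_zero hp hq)
  have hw : ∀ x, w ⬝ᵥ POL_Y Y x = ρ⁻¹ * bf x x₀ := fun x => by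
    rw [← hbf x, ← mul_assoc, inv_mul_cancel₀ hρ, one_mul]
  set g : Matrix (Fin 3) (Fin 3) k := Matrix.of fun a c =>
    ![POL_Y Y (e 1 0) a, POL_Y Y (e 0 1) a, r⁻¹ * POL_Y Y (e 1 1) a] c with hg
  have hg0 : ∀ a, g a 0 = POL_Y Y (e 1 0) a := fun a => rfl
  have hg1 : ∀ a, g a 1 = POL_Y Y (e 0 1) a := fun a => rfl
  have hg2 : ∀ a, g a 2 = r⁻¹ * POL_Y Y (e 1 1) a := fun a => rfl
  have hwg : ∀ c, ∑ a, w a * g a c = if c = 2 then 1 else 0 := by
    intro c
    fin_cases c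
    · have := hw (e 1 0)
      rw [hb10, mul_zero] at this
      simpa [dotProduct, hg0] using this
    · have := hw (e 0 1)
      rw [hb01, mul_zero] at this
      simpa [dotProduct, hg1] using this
    · have := hw (e 1 1)
      rw [hb11, ← hr] at this
      have h3 : ∑ a, w a * g a 2 = r⁻¹ * (w ⬝ᵥ POL_Y Y (e 1 1)) := by
        simp only [dotProduct, Finset.mul_sum, hg2]
        refine Finset.sum_congr rfl fun a _ => by ring
      simpa [this, inv_mul_cancel₀ hr0] using h3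
  refine ⟨p, q, g, ρ, r, hp, hq, ?_, hρ, hr0, ?_, ?_, fun a => ?_, fun a => ?_, fun a => ?_⟩
  · intro hdet
    obtain ⟨z, hz, hzg⟩ := Matrix.exists_vecMul_eq_zero_iff.2 hdet
    apply hz
    apply hY
    have hzc : ∀ c, ∑ a, z a * g a c = 0 := fun c => by
      have := congrFun hzg c
      simpa [Matrix.vecMul, dotProduct] using this
    set Z : Matrix (Fin 2) (Fin 2) k := Matrix.of fun i j => ∑ a, z a * Y a i j with hZ
    have hZe : ∀ i j, (pᵀ * Z * q) i j = ∑ a, z a * POL_Y Y (e i j) a := by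
      intro i j
      simp only [hYe, Matrix.mul_apply, Fin.sum_univ_two, Fin.sum_univ_three, Matrix.transpose_apply, hZ, Matrix.of_apply]
      ring
    have hZ0 : pᵀ * Z * q = 0 := by
      ext i j
      rw [hZe]
      fin_cases i <;> fin_cases j
      · have : POL_Y Y (e 0 0) = 0 := by rw [he00, hYx]
        simp [this]
      · simpa [hg1] using hzc 1
      · simpa [hg0] using hzc 0
      · have h3 := hzc 2
        simp only [hg2] at h3
        have h4 : r⁻¹ * ∑ a, z a * POL_Y Y (e 1 1) a = 0 := by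
          rw [Finset.mul_sum, ← h3]
          refine Finset.sum_congr rfl fun a _ => by ring
        simpa using (mul_eq_zero.1 h4).resolve_left (inv_ne_zero hr0)
    have hpu : IsUnit pᵀ.det := by rw [Matrix.det_transpose]; exact isUnit_iff_ne_zero.2 hp
    have hqu : IsUnit q.det := isUnit_iff_ne_zero.2 hq
    have hZz : Z = 0 := by
      have h5 : pᵀ⁻¹ * (pᵀ * Z * q) * q⁻¹ = Z := by
        rw [Matrix.mul_assoc pᵀ, ← Matrix.mul_assoc pᵀ⁻¹, Matrix.nonsing_inv_mul _ hpu, Matrix.one_mul, Matrix.mul_assoc,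
          Matrix.mul_nonsing_inv _ hqu, Matrix.mul_one]
      rw [← h5, hZ0, Matrix.mul_zero, Matrix.zero_mul]
    intro i j
    have := congrFun (congrFun hZz i) j
    simpa [hZ] using this
  · intro a b
    have h6 : ∀ c d, sw p q M 0 0 c d = ρ * (w c * w d) := by
      intro c d
      rw [← hMx c d, ← he00]
      simp only [sw, POL_M, he, Matrix.of_apply]
    have h7 : gw g (sw p q M) 0 0 a b = ρ * ((∑ c, w c * g c a) * (∑ d, w d * g d b)) := by
      simp only [gw, Matrix.mul_apply, Matrix.transpose_apply, h6, Fin.sum_univ_three]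
      ring
    rw [h7, hwg, hwg]
    by_cases ha : a = 2 <;> by_cases hb : b = 2 <;> simp [ha, hb]
  · intro a
    rw [← hYe, he00, hYx]
    rfl
  · rw [← hYe, hg0]
  · rw [← hYe, hg1]
  · rw [← hYe, hg2, ← mul_assoc, mul_inv_cancel₀ hr0, one_mul]

end Pool.Agent.T1
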