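import Mathlib

/-!
# T1 / PSL: determinants of deformations of `w wᵀ`

`S = R[X₀, X₁]`, `π` a generator of the maximal ideal, so `C π` is prime in `S` and `S / π = k[X₀, X₁]`.  Proof.  Claim by induction on `j ≥ 1`, `j ≤ r`: there are
`w₀ w₁ ∈ S` with `w₀ ≡ X₁`, `w₁ ≡ - X₀` mod `π` and `B₁₁ = κ w₀² + π^j c₁₁`, `B₁₂ = κ w₀ w₁ + π^j c₁₂`, `B₂₂ = κ w₁² + π^j c₂₂`.  `j = 1` is the hypothesis.
Then `B₁₁ B₂₂ - B₁₂² = κ π^j (c₁₁ w₁² - 2 c₁₂ w₀ w₁ + c₂₂ w₀²) + π^(2j) (c₁₁ c₂₂ - c₁₂²)`.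
If `j < r`: dividing by `π^j`: `π` divides `c₁₁ w₁² - 2 c₁₂ w₀ w₁ + c₂₂ w₀²`, so modulo `π`: `c₁₁ X₀² + 2 c₁₂ X₀ X₁ + c₂₂ X₁² = 0` in `k[X₀, X₁]`.  So `X₁ ∣ c₁₁` (as `X₁ ∣ c₁₁ X₀²`), `X₀ ∣ c₂₂`;
`c₁₁ = X₁ a`, `c₂₂ = - X₀ b`: `X₀ X₁ (a X₀ + 2 c₁₂ - b X₁) = 0`, `2 c₁₂ = b X₁ - a X₀`.  So (lifting `a`, `b` to `S`) modulo `π`: `c₁₁ = w₀ a`, `c₂₂ = w₁ b`,
`c₁₂ = (a w₁ + b w₀) / 2`.  With `w₀' = w₀ + π^j a / (2 κ)`, `w₁' = w₁ + π^j b / (2 κ)`: `κ w₀'² = κ w₀² + π^j w₀ a + π^(2j)(..)`, etc.: the claim for `j + 1`.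
For `j = r`: `π^r G = κ π^r (c₁₁ w₁² - 2 c₁₂ w₀ w₁ + c₂₂ w₀²) + π^(2r) (..)`, so `G ≡ κ (c₁₁ X₀² + 2 c₁₂ X₀ X₁ + c₂₂ X₁²)` mod `π`.
-/

namespace Pool.Agent.T1

open MvPolynomial

private theorem psl_key {R : Type*} [CommRing R] (π : R) (hπ : Prime π)
    (c11 c12 c22 : MvPolynomial (Fin 2) R)
    (h : C π ∣ c11 * X 0 ^ 2 + 2 * c12 * (X 0 * X 1) + c22 * X 1 ^ 2) :
    ∃ a b : MvPolynomial (Fin 2) R, C π ∣ c11 - X 1 * a ∧ C π ∣ c22 + X 0 * b ∧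
      C π ∣ 2 * c12 - (b * X 1 - a * X 0) := by
  have hI : (Ideal.span {π}).IsPrime := (Ideal.span_singleton_prime hπ.ne_zero).2 hπ
  obtain ⟨q, hq⟩ : ∃ q : R →+* R ⧸ Ideal.span {π}, q = Ideal.Quotient.mk _ := ⟨_, rfl⟩
  have hker : ∀ r', q r' = 0 ↔ π ∣ r' := by
    intro r'
    rw [hq, Ideal.Quotient.eq_zero_iff_mem, Ideal.mem_span_singleton]
  have hqs : Function.Surjective q := by
    rw [hq]
    exact Ideal.Quotient.mk_surjective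
  have hm : ∀ φ : MvPolynomial (Fin 2) R, C π ∣ φ ↔ map q φ = 0 := fun φ =>
    C_dvd_iff_map_hom_eq_zero q π hker φ
  rw [hm] at h
  simp only [map_add, map_mul, map_pow, map_X, map_ofNat] at h
  have hX0 : Prime (X 0 : MvPolynomial (Fin 2) (R ⧸ Ideal.span {π})) := X_prime
  have hX1 : Prime (X 1 : MvPolynomial (Fin 2) (R ⧸ Ideal.span {π})) := X_prime
  have h10 : ¬ (X 1 : MvPolynomial (Fin 2) (R ⧸ Ideal.span {π})) ∣ X 0 := by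
    rw [X_dvd_X]
    simp
  have h01 : ¬ (X 0 : MvPolynomial (Fin 2) (R ⧸ Ideal.span {π})) ∣ X 1 := by
    rw [X_dvd_X]
    simp
  obtain ⟨a', ha'⟩ : (X 1 : MvPolynomial (Fin 2) (R ⧸ Ideal.span {π})) ∣ map q c11 := by
    have h1 : (X 1 : MvPolynomial (Fin 2) (R ⧸ Ideal.span {π})) ∣ map q c11 * X 0 ^ 2 :=
      ⟨-(2 * map q c12 * X 0 + map q c22 * X 1), by linear_combination h⟩
    rcases hX1.dvd_or_dvd h1 with h2 | h2
    · exact h2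
    · exact absurd (hX1.dvd_of_dvd_pow h2) h10
  obtain ⟨b', hb'⟩ : (X 0 : MvPolynomial (Fin 2) (R ⧸ Ideal.span {π})) ∣ map q c22 := by
    have h1 : (X 0 : MvPolynomial (Fin 2) (R ⧸ Ideal.span {π})) ∣ map q c22 * X 1 ^ 2 :=
      ⟨-(2 * map q c12 * X 1 + map q c11 * X 0), by linear_combination h⟩
    rcases hX0.dvd_or_dvd h1 with h2 | h2
    · exact h2
    · exact absurd (hX0.dvd_of_dvd_pow h2) h01
  obtain ⟨a, ha⟩ := map_surjective q hqs a'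
  obtain ⟨b, hb⟩ := map_surjective q hqs (-b')
  have h3 : (X 0 * X 1 : MvPolynomial (Fin 2) (R ⧸ Ideal.span {π})) *
      (2 * map q c12 - (-b' * X 1 - a' * X 0)) = 0 := by
    rw [ha', hb'] at h
    linear_combination h
  have h4 := (mul_eq_zero.1 h3).resolve_left (mul_ne_zero hX0.ne_zero hX1.ne_zero)
  refine ⟨a, b, ?_, ?_, ?_⟩
  · rw [hm]
    simp only [map_sub, map_mul, map_X]
    rw [ha, ha', sub_self]
  · rw [hm]
    simp only [map_add, map_mul, map_X]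
    rw [hb, hb']
    ring
  · rw [hm]
    simp only [map_sub, map_mul, map_X, map_ofNat]
    rw [ha, hb]
    exact h4

private theorem psl_step {S : Type*} [CommRing S] [IsDomain S] (p κ u x0 x1 : S) (hp : Prime p)
    (hκ : IsUnit κ) (hu : 2 * κ * u = 1)
    (key : ∀ c11 c12 c22 : S, p ∣ c11 * x0 ^ 2 + 2 * c12 * (x0 * x1) + c22 * x1 ^ 2 →
      ∃ a b, p ∣ c11 - x1 * a ∧ p ∣ c22 + x0 * b ∧ p ∣ 2 * c12 - (b * x1 - a * x0))
    (B11 B12 B22 G : S) (r : ℕ) (h11 : p ∣ B11 - κ * x1 ^ 2) (h12 : p ∣ B12 + κ * (x0 * x1))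
    (h22 : p ∣ B22 - κ * x0 ^ 2) (hG : B11 * B22 - B12 ^ 2 = p ^ r * G) (j : ℕ) (hj : j + 1 ≤ r) :
    ∃ w0 w1 c11 c12 c22 : S, p ∣ w0 - x1 ∧ p ∣ w1 + x0 ∧ B11 = κ * w0 ^ 2 + p ^ (j + 1) * c11 ∧
      B12 = κ * (w0 * w1) + p ^ (j + 1) * c12 ∧ B22 = κ * w1 ^ 2 + p ^ (j + 1) * c22 := by
  induction j with
  | zero =>
    obtain ⟨c11, h11⟩ := h11
    obtain ⟨c12, h12⟩ := h12
    obtain ⟨c22, h22⟩ := h22
    refine ⟨x1, -x0, c11, c12, c22, ?_, ?_, ?_, ?_, ?_⟩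
    · simp
    · simp
    · linear_combination h11
    · linear_combination h12
    · linear_combination h22
  | succ j ih =>
    obtain ⟨w0, w1, c11, c12, c22, ⟨e0, he0⟩, ⟨e1, he1⟩, hB11, hB12, hB22⟩ := ih (by omega)
    obtain ⟨i, rfl⟩ : ∃ i, r = (j + 1) + (i + 1) := ⟨r - (j + 1) - 1, by omega⟩
    have h1 : p ^ (j + 1) * (p * (p ^ i * G - p ^ j * (c11 * c22 - c12 ^ 2))) =
        p ^ (j + 1) * (κ * (c11 * w1 ^ 2 - 2 * c12 * (w0 * w1) + c22 * w0 ^ 2)) := by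
      rw [hB11, hB12, hB22] at hG
      linear_combination -hG
    have h2 := mul_left_cancel₀ (pow_ne_zero (j + 1) hp.ne_zero) h1
    have h3 : p ∣ c11 * w1 ^ 2 - 2 * c12 * (w0 * w1) + c22 * w0 ^ 2 := by
      have h4 : p ∣ κ * (c11 * w1 ^ 2 - 2 * c12 * (w0 * w1) + c22 * w0 ^ 2) := ⟨_, h2.symm⟩
      exact (hκ.dvd_mul_left).1 h4
    obtain ⟨d, hd⟩ := h3
    have hw0 : w0 = x1 + p * e0 := by linear_combination he0
    have hw1 : w1 = p * e1 - x0 := by linear_combination he1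
    obtain ⟨a, b, ⟨f1, hf1⟩, ⟨f2, hf2⟩, ⟨f3, hf3⟩⟩ := key c11 c12 c22
      ⟨d - (c11 * (p * e1 ^ 2 - 2 * e1 * x0) - 2 * c12 * (e1 * x1 - e0 * x0 + p * e0 * e1) +
        c22 * (p * e0 ^ 2 + 2 * e0 * x1)), by
        rw [hw0, hw1] at hd
        linear_combination hd⟩
    have g1 : c11 = w0 * a + p * (f1 - e0 * a) := by
      rw [hw0]
      linear_combination hf1
    have g2 : c22 = w1 * b + p * (f2 - e1 * b) := by
      rw [hw1]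
      linear_combination hf2
    have g3 : 2 * c12 = b * w0 + a * w1 + p * (f3 - b * e0 - a * e1) := by
      rw [hw0, hw1]
      linear_combination hf3
    refine ⟨w0 + p ^ (j + 1) * (u * a), w1 + p ^ (j + 1) * (u * b),
      (f1 - e0 * a) - p ^ j * (κ * u ^ 2 * a ^ 2),
      κ * u * (f3 - b * e0 - a * e1) - p ^ j * (κ * u ^ 2 * (a * b)),
      (f2 - e1 * b) - p ^ j * (κ * u ^ 2 * b ^ 2), ?_, ?_, ?_, ?_, ?_⟩
    · rw [hw0]
      exact ⟨e0 + p ^ j * (u * a), by ring⟩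
    · rw [hw1]
      exact ⟨e1 + p ^ j * (u * b), by ring⟩
    · rw [hB11, g1]
      linear_combination (-(p ^ (j + 1) * w0 * a)) * hu
    · have g4 : c12 = κ * u * (2 * c12) := by linear_combination (-c12) * hu
      rw [hB12, g4, g3]
      ring
    · rw [hB22, g2]
      linear_combination (-(p ^ (j + 1) * w1 * b)) * hu

theorem psl {R : Type*} [CommRing R] [IsDomain R] [IsDiscreteValuationRing R] (π : R) (hπ : Irreducible π)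
    (h2 : IsUnit (2 : R)) (κ : R) (hκ : IsUnit κ) (B11 B12 B22 G : MvPolynomial (Fin 2) R) (r : ℕ)
    (hr : 1 ≤ r) (h11 : C π ∣ B11 - C κ * X 1 ^ 2) (h12 : C π ∣ B12 + C κ * (X 0 * X 1))
    (h22 : C π ∣ B22 - C κ * X 0 ^ 2) (hG : B11 * B22 - B12 ^ 2 = C (π ^ r) * G) :
    ∃ a b c, C π ∣ G - (a * X 0 ^ 2 + b * (X 0 * X 1) + c * X 1 ^ 2) := by
  have hπ' : Prime π := hπ.prime
  have hp : Prime (C π : MvPolynomial (Fin 2) R) := (prime_C_iff _).2 hπ'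
  obtain ⟨v, hv⟩ := (h2.mul hκ).exists_right_inv
  obtain ⟨w0, w1, c11, c12, c22, ⟨e0, he0⟩, ⟨e1, he1⟩, hB11, hB12, hB22⟩ :=
    psl_step (C π) (C κ) (C v) (X 0) (X 1) hp (hκ.map C) (by
      rw [← map_ofNat (C : R →+* MvPolynomial (Fin 2) R) 2, ← C_mul, ← C_mul, hv, C_1])
      (psl_key π hπ') B11 B12 B22 G r h11 h12 h22 (by rw [hG, C_pow]) (r - 1) (by omega)
  obtain ⟨i, rfl⟩ : ∃ i, r = i + 1 := ⟨r - 1, by omega⟩
  rw [Nat.add_sub_cancel] at hB11 hB12 hB22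
  rw [C_pow, hB11, hB12, hB22] at hG
  have h1 : (C π : MvPolynomial (Fin 2) R) ^ (i + 1) * G = C π ^ (i + 1) *
      (C κ * (c11 * w1 ^ 2 - 2 * c12 * (w0 * w1) + c22 * w0 ^ 2) +
        C π * (C π ^ i * (c11 * c22 - c12 ^ 2))) := by
    linear_combination -hG
  have h3 := mul_left_cancel₀ (pow_ne_zero (i + 1) hp.ne_zero) h1
  have hw0 : w0 = X 1 + C π * e0 := by linear_combination he0
  have hw1 : w1 = C π * e1 - X 0 := by linear_combination he1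
  rw [hw0, hw1] at h3
  refine ⟨C κ * c11, 2 * (C κ * c12), C κ * c22,
    C κ * (c11 * (C π * e1 ^ 2 - 2 * e1 * X 0) -
      2 * c12 * (e1 * X 1 - e0 * X 0 + C π * e0 * e1) +
      c22 * (C π * e0 ^ 2 + 2 * e0 * X 1)) + C π ^ i * (c11 * c22 - c12 ^ 2), ?_⟩
  linear_combination h3

end Pool.Agent.T1
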