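import Pool.Agent.T1.CAA
import Pool.Agent.T1.POL
import Pool.Agent.T1.PSL

/-!
# T1 / CAB: second case of the reduction lemma

`k` = residue field of `R`, `red = IsLocalRing.residue R`.  Let `M̄ = mapW red M`.  `Ā := (pm M̄).adjugate`, `det (pm M̄) = 0` (`π ∣ u π ^ r`).  `Ā` is symmetric, entries of bidegree `(2, 2)`
(`BH_adj`), `2 × 2` minors zero (`adjugate (adjugate B) = det B • B` for `3 × 3`, so the adjugate of `Ā` vanishes), and by `hz` `∑ z a z b Ā a b ≠ 0` for `z ≠ 0` in `k³` (lift `z`).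
`fac`: `Ā a b = C c * pb (Y a) * pb (Y b)`, `c ≠ 0`; the `Y a` are linearly independent; `pm M̄ * Ā = 0` gives `∑ b, pm M̄ a b * pb (Y b) = 0`
(`P4 k` is a domain, some `pb (Y c) ≠ 0`).  `M̄ ≠ 0` since `Ā ≠ 0`.  `pol`: `p, q, g` over `k`; lift to `R` (the determinants are units).
`M' := gw g (sw p q M)`, `D' := sD p q D`: `dW M' = C (det g ^ 2 * u * π ^ r) * D'`, `D'` smooth mod `κ` (`smo_sD`), of bidegree `(3, 3)`.
`adjugate (pm M̄')` has the entries `c' * pb (Y' a) * pb (Y' b)` with `Y' = ` the coefficients of `adj(g) ∘ Y ∘ (p, q)`, i.e. (`adj_gw`, `pm_gw`, `pm_sw`) `pb (Y' 0) = s₁ t₀`, `pb (Y' 1) = s₀ t₁`, `pb (Y' 2) = r' s₁ t₁`, `c' ≠ 0`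
(the five identities of `pol` say that `Y(p x qᵀ) = g (x₁₀, x₀₁, r' x₁₁)ᵀ`, and `adj(g) g = det g`).
Dehomogenise (`dh`): `s = (1, X 0)`, `t = (1, X 1)`.  `B11 := m00 m22 - m02²`, `B12 := m01 m22 - m02 m12`, `B22 := m11 m22 - m12²` where `m = (pm M').map dh`.  `adjugate`: `B11 = adj 1 1`, `B12 = - adj 0 1`, `B22 = adj 0 0`, so modulo `π`:
`B11 = c' X₁²`, `B12 = - c' X₀ X₁`, `B22 = c' X₀²`.  `B11 B22 - B12² = m22 * det m = π ^ r * G`, `G = m22 * (unit * dh D')`.  `psl`: `G ≡ a X₀² + b X₀ X₁ + c X₁²` mod `π`.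
So the coefficients of `1`, `X₀`, `X₁` in `G mod π` vanish.  `m22 mod π` has constant coefficient `ρ ≠ 0` (`pol`, `M̄' 0 0 2 2 = ρ`).  So the coefficients of `1`, `X₀`, `X₁` in `dh D' mod π` vanish (compare successively).
These are the coefficients of `s₀³t₀³`, `s₀²s₁t₀³`, `s₀³t₀²t₁` of `D' mod π`, i.e. the value and the derivatives with respect to `s₁`, `t₁` at the point `s = (1, 0)`, `t = (1, 0)`; the derivatives with respect to
`s₀`, `t₀` are `3 *` the value.  So `D' mod π` is not smooth.  Contradiction.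
-/

namespace Pool.Agent.T1

open MvPolynomial Matrix

section tools

/-- all `2 × 2` minors of a `3 × 3` matrix with vanishing adjugate vanish -/
private theorem cab_min {S : Type*} [CommRing S] (A : Matrix (Fin 3) (Fin 3) S) (h : A.adjugate = 0) :
    ∀ i j k l, A i j * A k l = A i l * A k j := by
  have e : ∀ i j, A.adjugate i j = 0 := fun i j => by rw [h]; rfl
  have e00 := e 0 0
  have e01 := e 0 1
  have e02 := e 0 2
  have e10 := e 1 0
  have e11 := e 1 1
  have e12 := e 1 2
  have e20 := e 2 0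
  have e21 := e 2 1
  have e22 := e 2 2
  rw [Matrix.adjugate_fin_three] at e00 e01 e02 e10 e11 e12 e20 e21 e22
  simp at e00 e01 e02 e10 e11 e12 e20 e21 e22
  intro i j k l
  fin_cases i <;> fin_cases j <;> fin_cases k <;> fin_cases l <;>
    simp only [Fin.zero_eta, Fin.mk_one, Fin.reduceFinMk, Fin.isValue] <;>
    first
    | ring
    | linear_combination e00
    | linear_combination e01
    | linear_combination e02
    | linear_combination e10
    | linear_combination e11
    | linear_combination e12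
    | linear_combination e20
    | linear_combination e21
    | linear_combination e22
    | linear_combination -e00
    | linear_combination -e01
    | linear_combination -e02
    | linear_combination -e10
    | linear_combination -e11
    | linear_combination -e12
    | linear_combination -e20
    | linear_combination -e21
    | linear_combination -e22

/-- value of the dehomogenisation -/
private theorem cab_ev {S : Type*} [CommRing S] (g : P4 S) :
    eval (fun _ => (0 : S)) (dh g) = eval (pt ![1, 0] ![1, 0]) g := by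
  induction g using MvPolynomial.induction_on with
  | C a => simp [dh]
  | add p q hp hq => simp only [map_add, hp, hq]
  | mul_X p i hp =>
    rw [map_mul, map_mul, map_mul, hp]
    congr 1
    rcases i with i | i <;> fin_cases i <;> simp [dh, pt]

private theorem cab_p0 {S : Type*} [CommRing S] (g : P4 S) :
    pderiv 0 (dh g) = dh (pderiv (Sum.inl 1) g) := by
  induction g using MvPolynomial.induction_on with
  | C a => simp [dh]
  | add p q hp hq => simp only [map_add, hp, hq]
  | mul_X p i hp =>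
    rw [map_mul, Derivation.leibniz, Derivation.leibniz, map_add, hp, smul_eq_mul, smul_eq_mul, smul_eq_mul,
      smul_eq_mul, map_mul, map_mul]
    congr 2
    rcases i with i | i <;> fin_cases i <;> simp [dh, pderiv_X]

private theorem cab_p1 {S : Type*} [CommRing S] (g : P4 S) :
    pderiv 1 (dh g) = dh (pderiv (Sum.inr 1) g) := by
  induction g using MvPolynomial.induction_on with
  | C a => simp [dh]
  | add p q hp hq => simp only [map_add, hp, hq]
  | mul_X p i hp =>
    rw [map_mul, Derivation.leibniz, Derivation.leibniz, map_add, hp, smul_eq_mul, smul_eq_mul, smul_eq_mul,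
      smul_eq_mul, map_mul, map_mul]
    congr 2
    rcases i with i | i <;> fin_cases i <;> simp [dh, pderiv_X]

private theorem cab_map_dh {S T : Type*} [CommRing S] [CommRing T] (f : S →+* T) (g : P4 S) :
    map f (dh g) = dh (map f g) := by
  induction g using MvPolynomial.induction_on with
  | C a => simp [dh]
  | add p q hp hq => simp only [map_add, hp, hq]
  | mul_X p i hp =>
    rw [map_mul, map_mul, map_mul, map_mul, hp]
    congr 1
    rcases i with i | i <;> fin_cases i <;> simp [dh]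

/-- Euler -/
private theorem cab_euler {S : Type*} [CommRing S] {g : P4 S} {m n : ℕ} (hg : BH g m n) :
    X (Sum.inl 0) * pderiv (Sum.inl 0) g + X (Sum.inl 1) * pderiv (Sum.inl 1) g = (m : P4 S) * g ∧
    X (Sum.inr 0) * pderiv (Sum.inr 0) g + X (Sum.inr 1) * pderiv (Sum.inr 1) g = (n : P4 S) * g := by
  have h1 : g.IsWeightedHomogeneous (fun i => (bw i).1) m := by
    intro d hd
    refine Eq.trans ?_ (congrArg Prod.fst (hg hd))
    rw [Finsupp.weight_apply, Finsupp.weight_apply, Finsupp.sum, Finsupp.sum, Prod.fst_sum]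
    rfl
  have h2 : g.IsWeightedHomogeneous (fun i => (bw i).2) n := by
    intro d hd
    refine Eq.trans ?_ (congrArg Prod.snd (hg hd))
    rw [Finsupp.weight_apply, Finsupp.weight_apply, Finsupp.sum, Finsupp.sum, Prod.snd_sum]
    rfl
  have e1 := h1.sum_weight_X_mul_pderiv
  have e2 := h2.sum_weight_X_mul_pderiv
  simp [bw, Fintype.sum_sum_type, Fin.sum_univ_two] at e1 e2
  exact ⟨e1, e2⟩

/-- singular point -/
private theorem cab_sing {S : Type*} [Field S] {g : P4 S} (hg : BH g 3 3)
    (h0 : eval (fun _ => (0 : S)) (dh g) = 0) (h1 : eval (fun _ => (0 : S)) (pderiv 0 (dh g)) = 0)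
    (h2 : eval (fun _ => (0 : S)) (pderiv 1 (dh g)) = 0) : ¬ Smo g := by
  intro h
  obtain ⟨e1, e2⟩ := cab_euler hg
  rw [cab_ev] at h0
  rw [cab_p0, cab_ev] at h1
  rw [cab_p1, cab_ev] at h2
  have e1' := congrArg (eval (pt ![1, 0] ![1, 0])) e1
  have e2' := congrArg (eval (pt ![1, 0] ![1, 0])) e2
  simp only [map_add, map_mul, h0, h1, h2, mul_zero, add_zero, eval_X] at e1' e2'
  have hne : (![1, 0] : Fin 2 → S) ≠ 0 := fun h => one_ne_zero (congrFun h 0)
  obtain ⟨i, hi⟩ := h ![1, 0] ![1, 0] hne hne h0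
  apply hi
  rcases i with i | i <;> fin_cases i
  · simpa [pt] using e1'
  · exact h1
  · simpa [pt] using e2'
  · exact h2

private theorem cab_adj {S A B : Type*} [CommRing S] [CommRing A] [CommRing B] [Algebra S A] [Algebra S B]
    (f : A →ₐ[S] B) (N : Matrix (Fin 3) (Fin 3) A) : (N.map f).adjugate = N.adjugate.map f :=
  (AlgHom.map_adjugate f N).symm

private theorem cab_det {S A B : Type*} [CommRing S] [CommRing A] [CommRing B] [Algebra S A] [Algebra S B]
    (f : A →ₐ[S] B) (N : Matrix (Fin 3) (Fin 3) A) : (N.map f).det = f N.det :=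
  (AlgHom.map_det f N).symm

end tools

section step

variable {k : Type*} [Field k]

/-- the field part -/
private theorem cab_field (h2 : (2 : k) ≠ 0) (M : Web k) (hs : Sy M) (hd : dW M = 0)
    (hz : ∀ z : Fin 3 → k, z ≠ 0 → ∑ a, ∑ b, C (z a * z b) * (pm M).adjugate a b ≠ 0) :
    ∃ (p q : Matrix (Fin 2) (Fin 2) k) (g : Matrix (Fin 3) (Fin 3) k) (ρ κ₁ κ₂ κ₃ : k),
      p.det ≠ 0 ∧ q.det ≠ 0 ∧ g.det ≠ 0 ∧ ρ ≠ 0 ∧ κ₁ ≠ 0 ∧ κ₂ = κ₁ ∧ κ₃ = κ₁ ∧
      gw g (sw p q M) 0 0 2 2 = ρ ∧
      (pm (gw g (sw p q M))).adjugate 0 0 = C κ₁ * (X (Sum.inl 1) * X (Sum.inr 0)) ^ 2 ∧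
      (pm (gw g (sw p q M))).adjugate 0 1 = C κ₂ * (X (Sum.inl 1) * X (Sum.inr 0) * (X (Sum.inl 0) * X (Sum.inr 1))) ∧
      (pm (gw g (sw p q M))).adjugate 1 1 = C κ₃ * (X (Sum.inl 0) * X (Sum.inr 1)) ^ 2 := by
  set A := (pm M).adjugate with hA
  have hsA : Aᵀ = A := by
    rw [hA, Matrix.adjugate_transpose, pm_symm hs]
  have hadj : A.adjugate = 0 := by
    rw [hA, Matrix.adjugate_adjugate _ (by simp)]
    have : (pm M).det = 0 := hd
    rw [this]
    simp
  obtain ⟨c, Y, hc, hY⟩ := fac A hsA (BH_adj M) (cab_min A hadj) hz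
  -- linear independence
  have hY1 : ∀ z : Fin 3 → k, (∀ i j, ∑ a, z a * Y a i j = 0) → z = 0 := by
    intro z hzz
    by_contra hne
    apply hz z hne
    have e0 : ∑ a, C (z a) * pb (Y a) = 0 := by
      have : ∑ a, C (z a) * pb (Y a) = pb (∑ a, z a • Y a) := by
        simp only [Fin.sum_univ_three, pb_add, pb_smul]
      rw [this]
      have h0 : ∑ a, z a • Y a = 0 := by
        ext i j
        rw [Matrix.sum_apply]
        simpa using hzz i j
      rw [h0]
      simp [pb]
    calc ∑ a, ∑ b, C (z a * z b) * A a b = C c * (∑ a, C (z a) * pb (Y a)) * (∑ b, C (z b) * pb (Y b)) := by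
          simp only [Fin.sum_univ_three, hY, map_mul]
          ring
      _ = 0 := by rw [e0]; simp
  have hYne : ∃ b, pb (Y b) ≠ 0 := by
    by_contra hcon
    push Not at hcon
    have : (fun _ => (1 : k)) = (0 : Fin 3 → k) := by
      apply hY1
      intro i j
      apply Finset.sum_eq_zero
      intro a _
      have : Y a = 0 := pb_inj (by rw [hcon a]; simp [pb])
      rw [this]
      simp
    exact one_ne_zero (congrFun this 0)
  obtain ⟨b₀, hb₀⟩ := hYne
  have hker : ∀ a, ∑ b, pm M a b * pb (Y b) = 0 := by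
    intro a
    have h1 : (pm M * A) a b₀ = 0 := by
      rw [hA, Matrix.mul_adjugate]
      have : (pm M).det = 0 := hd
      rw [this]
      simp
    rw [Matrix.mul_apply] at h1
    have h3 : (C c * pb (Y b₀)) * ∑ b, pm M a b * pb (Y b) = 0 := by
      rw [← h1]
      simp only [Fin.sum_univ_three, hY]
      ring
    rcases mul_eq_zero.1 h3 with h | h
    · rcases mul_eq_zero.1 h with h | h
      · exact absurd (C_injective _ _ (h.trans C_0.symm)) hc
      · exact absurd h hb₀
    · exact h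
  have hM : M ≠ 0 := by
    intro h0
    have : pm M = 0 := by
      ext1 a b
      rw [pm_apply, h0]
      simp [pb]
    apply hz (fun _ => 1) (fun h => one_ne_zero (congrFun h 0))
    rw [hA, this, Matrix.adjugate_zero]
    simp
  obtain ⟨p, q, g, ρ, r, hp, hq, hg, hρ, hr, hg0, hy00, hy10, hy01, hy11⟩ := pol h2 M hs hM Y hY1 hker
  have hsDY : ∀ a, sD p q (pb (Y a)) = pb (Matrix.of fun i j => ∑ k, ∑ l, p k i * q l j * Y a k l) := by
    intro a
    simp [pb, sD, Fin.sum_univ_two]
    ring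
  have hZ : ∀ a, ∑ b, C (g.adjugate a b) * sD p q (pb (Y b)) =
      C (if a = 0 then g.det else 0) * (X (Sum.inl 1) * X (Sum.inr 0)) +
      C (if a = 1 then g.det else 0) * (X (Sum.inl 0) * X (Sum.inr 1)) +
      C (if a = 2 then r * g.det else 0) * (X (Sum.inl 1) * X (Sum.inr 1)) := by
    intro a
    have hadjg : ∀ b, ∑ j, g.adjugate a j * g j b = if a = b then g.det else 0 := by
      intro b
      rw [← Matrix.mul_apply, Matrix.adjugate_mul]
      simp [Matrix.one_apply]
    have e1 : ∑ b, C (g.adjugate a b) * sD p q (pb (Y b)) =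
        pb (Matrix.of fun i j => ∑ b, g.adjugate a b * ∑ k, ∑ l, p k i * q l j * Y b k l) := by
      simp only [hsDY]
      rw [Fin.sum_univ_three, ← pb_smul, ← pb_smul, ← pb_smul, ← pb_add, ← pb_add]
      congr 1
      ext i j
      simp [Fin.sum_univ_three]
    rw [e1, pb]
    simp only [Fin.sum_univ_two, Fin.isValue, Matrix.of_apply]
    have f00 : ∑ b, g.adjugate a b * (p 0 0 * q 0 0 * Y b 0 0 + p 0 0 * q 1 0 * Y b 0 1 + (p 1 0 * q 0 0 * Y b 1 0 + p 1 0 * q 1 0 * Y b 1 1)) = 0 := by
      apply Finset.sum_eq_zero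
      intro b _
      have := hy00 b
      simp only [Fin.sum_univ_two, Fin.isValue] at this
      rw [this, mul_zero]
    have f10 : ∑ b, g.adjugate a b * (p 0 1 * q 0 0 * Y b 0 0 + p 0 1 * q 1 0 * Y b 0 1 + (p 1 1 * q 0 0 * Y b 1 0 + p 1 1 * q 1 0 * Y b 1 1)) = if a = 0 then g.det else 0 := by
      rw [← hadjg]
      apply Finset.sum_congr rfl
      intro b _
      have := hy10 b
      simp only [Fin.sum_univ_two, Fin.isValue] at this
      rw [this]
    have f01 : ∑ b, g.adjugate a b * (p 0 0 * q 0 1 * Y b 0 0 + p 0 0 * q 1 1 * Y b 0 1 + (p 1 0 * q 0 1 * Y b 1 0 + p 1 0 * q 1 1 * Y b 1 1)) = if a = 1 then g.det else 0 := by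
      rw [← hadjg]
      apply Finset.sum_congr rfl
      intro b _
      have := hy01 b
      simp only [Fin.sum_univ_two, Fin.isValue] at this
      rw [this]
    have f11 : ∑ b, g.adjugate a b * (p 0 1 * q 0 1 * Y b 0 0 + p 0 1 * q 1 1 * Y b 0 1 + (p 1 1 * q 0 1 * Y b 1 0 + p 1 1 * q 1 1 * Y b 1 1)) = if a = 2 then r * g.det else 0 := by
      have : (if a = 2 then r * g.det else 0) = r * (if a = 2 then g.det else 0) := by split_ifs <;> simp
      rw [this, ← hadjg, Finset.mul_sum]
      apply Finset.sum_congr rfl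
      intro b _
      have := hy11 b
      simp only [Fin.sum_univ_two, Fin.isValue] at this
      rw [this]
      ring
    rw [f00, f10, f01, f11]
    simp
    ring
  have hadj2 : ∀ a b, (pm (gw g (sw p q M))).adjugate a b =
      C c * (∑ d, C (g.adjugate a d) * sD p q (pb (Y d))) * (∑ d, C (g.adjugate b d) * sD p q (pb (Y d))) := by
    intro a b
    have e1 : (pm (gw g (sw p q M))).adjugate = (g.adjugate.map C) * A.map (sD p q) * (g.adjugate.map C)ᵀ := by
      rw [pm_gw, adj_gw, pm_sw]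
      have e2 : (g.map C : Matrix (Fin 3) (Fin 3) (P4 k)).adjugate = g.adjugate.map C :=
        (RingHom.map_adjugate (C : k →+* P4 k) g).symm
      have e3 : ((pm M).map (sD p q)).adjugate = A.map (sD p q) :=
        (RingHom.map_adjugate ((sD p q : P4 k →ₐ[k] P4 k) : P4 k →+* P4 k) (pm M)).symm
      rw [e2, e3]
    rw [e1, Matrix.mul_apply]
    simp only [Matrix.mul_apply, Matrix.map_apply, Matrix.transpose_apply, hY, map_mul, Fin.sum_univ_three]
    have : ∀ x, sD p q (C x) = C x := fun x => sD_C p q x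
    simp only [this]
    ring
  refine ⟨p, q, g, ρ, c * g.det ^ 2, _, _, hp, hq, hg, hρ, by positivity, rfl, rfl, ?_, ?_, ?_, ?_⟩
  · have := hg0 2 2
    simpa using this
  · rw [hadj2, hZ]
    simp
    ring
  · rw [hadj2, hZ, hZ]
    simp
    ring
  · rw [hadj2, hZ]
    simp
    ring

end step


private theorem cab_gen {R κ k : Type*} [CommRing R] [IsDomain R] [IsDiscreteValuationRing R] [Field κ] [IsAlgClosed κ]
    [Field k] (res : R →+* k) (hsur : ∀ y, ∃ x, res x = y) (hru : ∀ x, res x ≠ 0 ↔ IsUnit x)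
    (φ : R →+* κ) (hφ : ∀ x, φ x = 0 ↔ ¬ IsUnit x) (π : R) (hπ : Irreducible π) (h2 : IsUnit (2 : R))
    (D : P4 R) (hD : BH D 3 3) (hS : Smo (map φ D)) (M : Web R) (hs : Sy M) (u : R) (hu : IsUnit u) (r : ℕ)
    (hr : 1 ≤ r) (hdet : dW M = C (u * π ^ r) * D)
    (hz : ∀ z : Fin 3 → R, (∃ a, IsUnit (z a)) →
      ¬ C π ∣ ∑ a, ∑ b, C (z a * z b) * (pm M).adjugate a b) : False := by
  have hdvd : ∀ x, φ x = 0 ↔ π ∣ x := by
    intro x
    rw [hφ, ← Ideal.mem_span_singleton, ← (IsDiscreteValuationRing.irreducible_iff_uniformizer π).1 hπ,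
      IsLocalRing.mem_maximalIdeal, mem_nonunits_iff]
  have hφu : ∀ x, IsUnit x → φ x ≠ 0 := fun x hx h => (hφ x).1 h hx
  have hrd : ∀ x, res x = 0 ↔ π ∣ x := by
    intro x
    rw [← hdvd, hφ, ← hru]
    simp
  have h2k : (2 : k) ≠ 0 := by
    have h := (hru 2).2 h2
    rwa [map_ofNat] at h
  -- the web over the residue field
  have hMd : dW (mapW res M) = 0 := by
    rw [← map_dW, hdet, map_mul, map_C, map_mul, map_pow, (hrd π).2 dvd_rfl, zero_pow (by omega)]
    simp
  have hMs : Sy (mapW res M) := hs.mapW res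
  have hadjm : ∀ N : Web R, (pm (mapW res N)).adjugate = (pm N).adjugate.map (map res) := by
    intro N
    rw [← map_pm]
    exact (RingHom.map_adjugate (map res) (pm N)).symm
  obtain ⟨p, q, g, ρ, κ₁, κ₂, κ₃, hp, hq, hg, hρ, hκ, hκ2, hκ3, hent, a00, a01, a11⟩ :=
    cab_field h2k (mapW res M) hMs hMd (by
      intro z hzne
      obtain ⟨z', hz'⟩ : ∃ z' : Fin 3 → R, ∀ a, res (z' a) = z a := ⟨fun a => (hsur (z a)).choose, fun a => (hsur (z a)).choose_spec⟩
      obtain ⟨a₀, ha₀⟩ := Function.ne_iff.1 hzne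
      have := hz z' ⟨a₀, (hru _).1 (by rw [hz']; exact ha₀)⟩
      rw [C_dvd_iff_map_hom_eq_zero res π hrd] at this
      intro h0
      apply this
      rw [← h0, hadjm]
      simp [hz'])
  rw [hκ2] at a01
  rw [hκ3] at a11
  obtain ⟨p', hp'⟩ : ∃ p' : Matrix (Fin 2) (Fin 2) R, p'.map res = p :=
    ⟨Matrix.of fun i j => (hsur (p i j)).choose, by ext i j; exact (hsur (p i j)).choose_spec⟩
  obtain ⟨q', hq'⟩ : ∃ q' : Matrix (Fin 2) (Fin 2) R, q'.map res = q :=
    ⟨Matrix.of fun i j => (hsur (q i j)).choose, by ext i j; exact (hsur (q i j)).choose_spec⟩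
  obtain ⟨g', hg'⟩ : ∃ g' : Matrix (Fin 3) (Fin 3) R, g'.map res = g :=
    ⟨Matrix.of fun i j => (hsur (g i j)).choose, by ext i j; exact (hsur (g i j)).choose_spec⟩
  obtain ⟨κ', hκ'⟩ := hsur κ₁
  have hκu : IsUnit κ' := (hru _).1 (by rw [hκ']; exact hκ)
  have hpu : IsUnit p'.det := (hru _).1 (by
    have : res p'.det = p.det := by rw [← hp']; exact RingHom.map_det res p'
    rw [this]; exact hp)
  have hqu : IsUnit q'.det := (hru _).1 (by
    have : res q'.det = q.det := by rw [← hq']; exact RingHom.map_det res q'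
    rw [this]; exact hq)
  have hgu : IsUnit g'.det := (hru _).1 (by
    have : res g'.det = g.det := by rw [← hg']; exact RingHom.map_det res g'
    rw [this]; exact hg)
  set M' : Web R := gw g' (sw p' q' M) with hM'
  have hs' : Sy M' := (hs.sw p' q').gw g'
  have hM'm : mapW res M' = gw g (sw p q (mapW res M)) := by
    rw [hM', mapW_gw, mapW_sw, hp', hq', hg']
  set D' : P4 R := sD p' q' D with hD'
  have hdM' : dW M' = C (g'.det ^ 2 * u * π ^ r) * D' := by
    rw [hM', dW_gw, dW_sw, hdet, map_mul, hD']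
    rw [sD_C]
    simp only [map_mul]
    ring
  have hBD : BH (map φ D') 3 3 := (BH_sD p' q' hD).map φ
  have hSD : Smo (map φ D') := by
    rw [hD', map_sD]
    apply smo_sD _ _ hS
    · have : (p'.map φ).det = φ p'.det := (RingHom.map_det φ p').symm
      rw [this]
      exact hφu _ hpu
    · have : (q'.map φ).det = φ q'.det := (RingHom.map_det φ q').symm
      rw [this]
      exact hφu _ hqu
  -- dehomogenised matrix
  set m : Matrix (Fin 3) (Fin 3) (MvPolynomial (Fin 2) R) := (pm M').map dh with hm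
  have hms : ∀ i j, m i j = m j i := by
    intro i j
    have := congrFun (congrFun (pm_symm hs') i) j
    rw [hm, Matrix.map_apply, Matrix.map_apply, ← this]
    rfl
  have hmadj : m.adjugate = (pm M').adjugate.map dh := cab_adj _ _
  have hmdet : m.det = C (g'.det ^ 2 * u * π ^ r) * dh D' := by
    have e1 : m.det = dh (dW M') := cab_det _ _
    rw [e1, hdM', map_mul]
    congr 1
    simp [dh]
  have hred : ∀ i j, map res (m.adjugate i j) = dh ((pm (gw g (sw p q (mapW res M)))).adjugate i j) := by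
    intro i j
    rw [hmadj, Matrix.map_apply, cab_map_dh, ← hM'm, hadjm]
    rfl
  have m11 : C π ∣ m.adjugate 1 1 - C κ' * X 1 ^ 2 := by
    rw [C_dvd_iff_map_hom_eq_zero res π hrd, map_sub, hred, a11]
    simp [hκ', dh]
  have m00 : C π ∣ m.adjugate 0 0 - C κ' * X 0 ^ 2 := by
    rw [C_dvd_iff_map_hom_eq_zero res π hrd, map_sub, hred, a00]
    simp [hκ', dh]
  have m01 : C π ∣ - m.adjugate 0 1 + C κ' * (X 0 * X 1) := by
    rw [C_dvd_iff_map_hom_eq_zero res π hrd, map_add, map_neg, hred, a01]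
    simp [hκ', dh]
  have hG : m.adjugate 1 1 * m.adjugate 0 0 - (- m.adjugate 0 1) ^ 2 =
      C (π ^ r) * (m 2 2 * C (g'.det ^ 2 * u) * dh D') := by
    have e1 : m.adjugate 1 1 * m.adjugate 0 0 - (- m.adjugate 0 1) ^ 2 = m 2 2 * m.det := by
      rw [Matrix.adjugate_fin_three, Matrix.det_fin_three]
      simp [hms 1 0, hms 2 0, hms 2 1]
      ring
    rw [e1, hmdet]
    simp only [map_mul]
    ring
  obtain ⟨a, b, c, habc⟩ := psl π hπ h2 κ' hκu _ _ _ _ r hr m11 m01 m00 hG
  rw [C_dvd_iff_map_hom_eq_zero φ π hdvd, map_sub, sub_eq_zero, map_mul, map_mul, cab_map_dh, map_C] at habc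
  simp only [map_add, map_mul, map_pow, map_X] at habc
  -- the constant coefficient
  have hw : φ (g'.det ^ 2 * u) ≠ 0 := hφu _ ((hgu.pow 2).mul hu)
  have hm22 : eval (fun _ => (0 : κ)) (map φ (m 2 2)) ≠ 0 := by
    have e1 : eval (fun _ => (0 : κ)) (map φ (m 2 2)) = φ (M' 0 0 2 2) := by
      rw [hm, Matrix.map_apply, pm_apply, dh_pb]
      simp
    rw [e1]
    apply hφu
    apply (hru _).1
    have : res (M' 0 0 2 2) = mapW res M' 0 0 2 2 := rfl
    rw [this, hM'm, hent]
    exact hρ
  have z0 : eval (fun _ => (0 : κ)) (dh (map φ D')) = 0 := by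
    have := congrArg (eval (fun _ => (0 : κ))) habc
    simp only [map_mul, map_add, map_pow, eval_X, eval_C, mul_zero, zero_pow two_ne_zero, add_zero] at this
    rcases mul_eq_zero.1 this with h | h
    · rcases mul_eq_zero.1 h with h | h
      · exact absurd h hm22
      · exact absurd (by simpa using h) hw
    · exact h
  have zi : ∀ i, eval (fun _ => (0 : κ)) (pderiv i (dh (map φ D'))) = 0 := by
    intro i
    have := congrArg (fun f => eval (fun _ => (0 : κ)) (pderiv i f)) habc
    simp only [Derivation.leibniz, map_add, smul_eq_mul, map_mul, z0, pderiv_C, map_pow, eval_X, eval_C, mul_zero,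
      zero_pow two_ne_zero, add_zero, zero_mul, Derivation.leibniz_pow, zero_add] at this
    have h3 : eval (fun _ => (0 : κ)) (map φ (m 2 2)) * φ (g'.det ^ 2 * u) *
        eval (fun _ => (0 : κ)) (pderiv i (dh (map φ D'))) = 0 := by
      have h4 : φ (g'.det ^ 2 * u) = φ g'.det ^ 2 * φ u := by simp
      rw [h4]
      refine Eq.trans ?_ (this.trans ?_)
      · ring
      · simp
    rcases mul_eq_zero.1 h3 with h | h
    · rcases mul_eq_zero.1 h with h | h
      · exact absurd h hm22
      · exact absurd h hw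
    · exact h
  exact cab_sing hBD z0 (zi 0) (zi 1) hSD

theorem cab {R κ : Type*} [CommRing R] [IsDomain R] [IsDiscreteValuationRing R] [Field κ] [IsAlgClosed κ]
    (φ : R →+* κ) (hφ : ∀ x, φ x = 0 ↔ ¬ IsUnit x) (π : R) (hπ : Irreducible π) (h2 : IsUnit (2 : R))
    (D : P4 R) (hD : BH D 3 3) (hS : Smo (map φ D)) (M : Web R) (hs : Sy M) (u : R) (hu : IsUnit u) (r : ℕ)
    (hr : 1 ≤ r) (hdet : dW M = C (u * π ^ r) * D)
    (hz : ∀ z : Fin 3 → R, (∃ a, IsUnit (z a)) →
      ¬ C π ∣ ∑ a, ∑ b, C (z a * z b) * (pm M).adjugate a b) : False :=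
  cab_gen (IsLocalRing.residue R) IsLocalRing.residue_surjective
    (fun x => IsLocalRing.residue_ne_zero_iff_isUnit x) φ hφ π hπ h2 D hD hS M hs u hu r hr hdet hz

end Pool.Agent.T1
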