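import Pool.Agent.T1.LAT
import Pool.Agent.T1.CAB

/-!
# T1 / RLT: the reduction lemma

Proof.  `lat`: `Λ`, `e`.  Claim: `e` is a unit (then `u = e ^ 2`).  `Λ ≠ 0`; write `Λ = π ^ r • Λ₁` with not all entries of `Λ₁` divisible by `π`.  `adjugate (pm Λ) = π ^ (2 r) adjugate (pm Λ₁)`.
`π ^ (2 r) ∣ e`: otherwise `e = unit * π ^ m`, `m < 2 r`, and `e * π ∣ π ^ (2 r)` divides all entries of the adjugate, contradiction to the last property (`z = e₀`).  `e = π ^ (2 r) * E`.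
So `C E ∣ (pm Λ₁).adjugate a b` and `¬ C (E * π) ∣ ∑ ..` for primitive `z`, and `dW Λ₁ * π ^ (3 r) = e² D`, so `dW Λ₁ = C (E² π ^ r) * D`.
If `E` is not a unit: `caa`.  If `E` is a unit and `r ≥ 1`: `cab` with `u = E ^ 2` (`C (E * π)` and `C π` divide the same polynomials).  So `r = 0` and `E` is a unit.
-/

namespace Pool.Agent.T1

open MvPolynomial Matrix

private lemma RLT_smo_ne {R κ : Type*} [CommRing R] [Field κ] (φ : R →+* κ) (D : P4 R)
    (hS : Smo (map φ D)) : D ≠ 0 := by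
  rintro rfl
  have h1 : (![1, 0] : Fin 2 → κ) ≠ 0 := fun h => one_ne_zero (congrFun h 0)
  obtain ⟨i, hi⟩ := hS ![1, 0] ![1, 0] h1 h1 (by simp)
  exact hi (by simp)

/-- extraction of the largest power of `π` dividing all entries -/
private lemma RLT_pow {R : Type*} [CommRing R] [IsDomain R] [IsDiscreteValuationRing R] (π : R)
    (hπ : Irreducible π) (Λ : Web R) (h0 : Λ ≠ 0) :
    ∃ (r : ℕ) (Λ₁ : Web R), Λ = (π ^ r) • Λ₁ ∧ ∃ i j a b, ¬ π ∣ Λ₁ i j a b := by
  classical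
  have hπ0 : π ≠ 0 := hπ.ne_zero
  have hex : ∃ n : ℕ, ¬ ∀ i j a b, π ^ n ∣ Λ i j a b := by
    have h1 : ∃ i j a b, Λ i j a b ≠ 0 := by
      by_contra hcon
      push Not at hcon
      apply h0
      funext i j
      ext a b
      exact hcon i j a b
    obtain ⟨i, j, a, b, hx⟩ := h1
    obtain ⟨n, u, hu⟩ := IsDiscreteValuationRing.eq_unit_mul_pow_irreducible hx hπ
    refine ⟨n + 1, fun hall => ?_⟩
    have h2 := hall i j a b
    rw [hu, Units.dvd_mul_left] at h2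
    have h3 := (pow_dvd_pow_iff hπ0 hπ.not_isUnit).1 h2
    omega
  have hspec := Nat.find_spec hex
  have hmin := fun m => Nat.find_min hex (m := m)
  generalize Nat.find hex = n at hspec hmin
  rcases n with _ | r
  · exact absurd (fun i j a b => by simp) hspec
  · have hr : ∀ i j a b, π ^ r ∣ Λ i j a b := by
      have := hmin r (Nat.lt_succ_self r)
      push Not at this
      exact this
    choose g hg using hr
    refine ⟨r, fun i j => Matrix.of fun a b => g i j a b, ?_, ?_⟩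
    · funext i j
      ext a b
      simp [hg i j a b]
    · push Not at hspec
      obtain ⟨i, j, a, b, h⟩ := hspec
      refine ⟨i, j, a, b, fun hd => h ?_⟩
      rw [hg i j a b, pow_succ]
      exact mul_dvd_mul_left _ hd

theorem rlt {R L κ : Type*} [CommRing R] [IsDomain R] [IsDiscreteValuationRing R] [Field L] [Algebra R L]
    [IsFractionRing R L] [Field κ] [IsAlgClosed κ] (φ : R →+* κ) (hφ : ∀ x, φ x = 0 ↔ ¬ IsUnit x)
    (h2 : IsUnit (2 : R)) (D : P4 R) (hD : BH D 3 3) (hS : Smo (map φ D)) (M : Web L) (hs : Sy M) (c : L)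
    (hc : c ≠ 0) (hM : dW M = C c * map (algebraMap R L) D) :
    ∃ (h : Matrix (Fin 3) (Fin 3) L) (c' : L) (Λ : Web R) (u : R), h.det ≠ 0 ∧ c' ≠ 0 ∧ IsUnit u ∧ Sy Λ ∧
      mapW (algebraMap R L) Λ = c' • gw h M ∧ dW Λ = C u * D := by
  obtain ⟨π, hπ⟩ := IsDiscreteValuationRing.exists_irreducible R
  have hπ0 : π ≠ 0 := hπ.ne_zero
  have hD0 : D ≠ 0 := RLT_smo_ne φ D hS
  obtain ⟨h, c', Λ, e, hdet, hc', he0, hsΛ, hΛ, hdW, hadj, hz⟩ :=
    lat φ hφ π hπ h2 D hD hS M hs c hc hM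
  have hCne : ∀ x : R, x ≠ 0 → (C x : P4 R) ≠ 0 := fun x hx => by
    rw [Ne, MvPolynomial.C_eq_zero]; exact hx
  have hΛ0 : Λ ≠ 0 := by
    rintro rfl
    have h1 : dW (0 : Web R) = 0 := by
      have := dW_smul (0 : R) (0 : Web R)
      rw [zero_smul] at this
      rw [this]
      simp
    rw [h1] at hdW
    exact mul_ne_zero (hCne _ (pow_ne_zero 2 he0)) hD0 hdW.symm
  obtain ⟨r, Λ₁, hΛ₁, h0⟩ := RLT_pow π hπ Λ hΛ0
  have hπr : π ^ r ≠ 0 := pow_ne_zero r hπ0
  have hs₁ : Sy Λ₁ := by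
    intro i j
    have h1 := hsΛ i j
    rw [hΛ₁] at h1
    ext a b
    have h2 := congrFun (congrFun h1 a) b
    simp only [Pi.smul_apply, Matrix.transpose_apply, Matrix.smul_apply, smul_eq_mul] at h2
    rw [Matrix.transpose_apply]
    exact mul_left_cancel₀ hπr h2
  have hadj₁ : ∀ a b, (pm Λ).adjugate a b = C (π ^ (2 * r)) * (pm Λ₁).adjugate a b := by
    intro a b
    rw [hΛ₁, pm_smul, Matrix.adjugate_smul, Matrix.smul_apply, smul_eq_mul]
    simp only [Fintype.card_fin, ← C_pow]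
    congr 2
    ring
  have hdW₁ : C (π ^ (3 * r)) * dW Λ₁ = C (e ^ 2) * D := by
    rw [← hdW, hΛ₁, dW_smul]
    congr 2
    ring
  have hdvd : π ^ (2 * r) ∣ e := by
    obtain ⟨m, v, hv⟩ := IsDiscreteValuationRing.eq_unit_mul_pow_irreducible he0 hπ
    by_cases hm : 2 * r ≤ m
    · rw [hv]
      exact (pow_dvd_pow π hm).mul_left _
    · exfalso
      refine hz ![1, 0, 0] ⟨0, by simp⟩ ?_
      refine Finset.dvd_sum fun a _ => Finset.dvd_sum fun b _ => Dvd.dvd.mul_left ?_ _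
      rw [hadj₁ a b]
      refine Dvd.dvd.mul_right ?_ _
      refine _root_.map_dvd C ?_
      rw [hv, mul_assoc, ← pow_succ, Units.mul_left_dvd]
      exact pow_dvd_pow π (by omega)
  obtain ⟨E, hE⟩ := hdvd
  have hE0 : E ≠ 0 := by
    rintro rfl
    rw [mul_zero] at hE
    exact he0 hE
  have hCπ : (C (π ^ (2 * r)) : P4 R) ≠ 0 := hCne _ (pow_ne_zero _ hπ0)
  have hadjE : ∀ a b, C E ∣ (pm Λ₁).adjugate a b := by
    intro a b
    have h1 := hadj a b
    rw [hadj₁ a b, hE, C_mul] at h1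
    exact (mul_dvd_mul_iff_left hCπ).1 h1
  have hsum : ∀ z : Fin 3 → R, ∑ a, ∑ b, C (z a * z b) * (pm Λ).adjugate a b =
      C (π ^ (2 * r)) * ∑ a, ∑ b, C (z a * z b) * (pm Λ₁).adjugate a b := by
    intro z
    rw [Finset.mul_sum]
    refine Finset.sum_congr rfl fun a _ => ?_
    rw [Finset.mul_sum]
    refine Finset.sum_congr rfl fun b _ => ?_
    rw [hadj₁ a b]
    ring
  have hzE : ∀ z : Fin 3 → R, (∃ a, IsUnit (z a)) →
      ¬ C (E * π) ∣ ∑ a, ∑ b, C (z a * z b) * (pm Λ₁).adjugate a b := by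
    intro z hza hdv
    apply hz z hza
    rw [hsum z, hE, mul_assoc, C_mul]
    exact mul_dvd_mul_left _ hdv
  have hEu : IsUnit E := by
    by_contra hEn
    exact caa π hπ h2 Λ₁ hs₁ E hE0 hEn h0 hadjE hzE
  have hr0 : r = 0 := by
    by_contra hr
    refine cab φ hφ π hπ h2 D hD hS Λ₁ hs₁ (E ^ 2) (hEu.pow 2) r (Nat.one_le_iff_ne_zero.2 hr)
      ?_ ?_
    · apply mul_left_cancel₀ (hCne _ (pow_ne_zero (3 * r) hπ0))
      rw [hdW₁, ← mul_assoc, ← C_mul]
      congr 2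
      rw [hE]
      ring
    · intro z hza hdv
      apply hzE z hza
      rw [C_mul]
      exact ((hEu.map C).mul_left_dvd).2 hdv
  subst hr0
  have heu : IsUnit e := by
    rw [hE]
    simpa using hEu
  exact ⟨h, c', Λ, e ^ 2, hdet, hc', heu.pow 2, hsΛ, hΛ, hdW⟩

end Pool.Agent.T1
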