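import Pool.Agent.T1.NLS
import Pool.Agent.T1.RLT

/-!
# T1 / EXW: every smooth form of bidegree `(3, 3)` is the determinant of a web

`M₀` from `mst` with `sur`.  `G := D - dW M₀`.  `nls`: `L`, `M` over `L` with `dW M = D_u := dW M₀ + u G`, `u` transcendental.  Choose a discrete valuation ring `R ⊂ L` with fraction field `L`, containing `k` and `u`, `u - 1` in the maximal
ideal, with a homomorphism `φ : R → k` over `k` with kernel the maximal ideal (`φ u = 1`).  E.g. (a) `FunField k L` and `ESH.plv_exists` (subring `A` = image of `k[u]`, `b = u - 1`) gives a place `v` with `v.ord (u - 1) > 0`, `R` = its valuation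
ring, residue field `k` (`Helper11.Place.exists_residue`); or (b) the integral closure `B` of `k[u]` in `L` is a Dedekind domain; localise at a prime above `(u - 1)`; the residue field is finite over `k`, so equal to `k`.
`D_u` has coefficients in `R` and reduction `dW M₀ + G = D`, smooth.  `rlt` (`κ = k`): `Λ` over `R` with `dW Λ = C w * D_u`, `w` a unit.  `mapW φ Λ`: `dW = C (φ w) * D`, `φ w ≠ 0`.
Multiply with a cube root: `(x • mapW φ Λ)`, `x³ φ w = 1`.
-/

namespace Pool.Agent.T1

open MvPolynomial Matrix

private theorem EXW_dvr {k : Type*} [Field k] [IsAlgClosed k] [CharZero k] {L : Type*} [Field L]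
    [Algebra (Polynomial k) L] (hinj : Function.Injective (algebraMap (Polynomial k) L))
    (hess : Algebra.EssFiniteType (Polynomial k) L) (halg : Algebra.IsAlgebraic (Polynomial k) L) :
    ∃ (R : Subring L) (_ : IsDiscreteValuationRing R) (_ : IsFractionRing R L)
      (ι : Polynomial k →+* R) (φ : R →+* k),
      (∀ x, algebraMap R L (ι x) = algebraMap (Polynomial k) L x) ∧
      (∀ x, φ x = 0 ↔ ¬ IsUnit x) ∧ ∀ x, φ (ι x) = x.eval 1 := by
  have : FaithfulSMul (Polynomial k) L := (faithfulSMul_iff_algebraMap_injective _ _).mpr hinj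
  let : Algebra (FractionRing (Polynomial k)) L := FractionRing.liftAlgebra (Polynomial k) L
  have : IsScalarTower (Polynomial k) (FractionRing (Polynomial k)) L :=
    FractionRing.isScalarTower_liftAlgebra (Polynomial k) L
  have : Algebra.EssFiniteType (FractionRing (Polynomial k)) L :=
    Algebra.EssFiniteType.of_comp (Polynomial k) (FractionRing (Polynomial k)) L
  have : Algebra.IsAlgebraic (FractionRing (Polynomial k)) L :=
    IsFractionRing.comap_isAlgebraic_iff.mp halg
  have : Module.Finite (FractionRing (Polynomial k)) L :=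
    Algebra.finite_of_essFiniteType_of_isAlgebraic
  have : CharZero (FractionRing (Polynomial k)) :=
    charZero_of_injective_algebraMap
      (IsFractionRing.injective (Polynomial k) (FractionRing (Polynomial k)))
  have : IsDedekindDomain (integralClosure (Polynomial k) L) :=
    integralClosure.isDedekindDomain (Polynomial k) (FractionRing (Polynomial k)) L
  have : IsFractionRing (integralClosure (Polynomial k) L) L :=
    integralClosure.isFractionRing_of_finite_extension (FractionRing (Polynomial k)) L
  set B := integralClosure (Polynomial k) L with hB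
  have : Algebra.IsIntegral (Polynomial k) B := inferInstance
  have hinjB : Function.Injective (algebraMap (Polynomial k) B) := by
    intro x y hxy
    apply hinj
    rw [IsScalarTower.algebraMap_apply (Polynomial k) B L, hxy,
      ← IsScalarTower.algebraMap_apply (Polynomial k) B L]
  have hmax : (Ideal.span {(Polynomial.X - Polynomial.C 1 : Polynomial k)}).IsMaximal := by
    apply PrincipalIdealRing.isMaximal_of_irreducible
    exact Polynomial.irreducible_X_sub_C 1
  obtain ⟨P, hP, hPc⟩ := Ideal.exists_ideal_over_maximal_of_isIntegral (S := B)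
    (Ideal.span {(Polynomial.X - Polynomial.C 1 : Polynomial k)})
    (by rw [(RingHom.injective_iff_ker_eq_bot _).mp hinjB]; exact bot_le)
  have : P.IsPrime := hP.isPrime
  have hX : algebraMap (Polynomial k) B (Polynomial.X - Polynomial.C 1) ∈ P := by
    have h1 : (Polynomial.X - Polynomial.C 1 : Polynomial k) ∈ P.comap (algebraMap (Polynomial k) B) := by
      rw [hPc]
      exact Ideal.mem_span_singleton_self _
    exact h1
  have hP0 : P ≠ ⊥ := by
    rintro rfl
    rw [Ideal.mem_bot, map_eq_zero_iff _ hinjB] at hX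
    exact Polynomial.X_sub_C_ne_zero 1 hX
  -- residue field
  set g : Polynomial k →+* B ⧸ P := (Ideal.Quotient.mk P).comp (algebraMap (Polynomial k) B) with hg
  set f : k →+* B ⧸ P := g.comp Polynomial.C with hf
  have hgf : ∀ x : Polynomial k, g x = f (x.eval 1) := by
    intro x
    have h1 : x - Polynomial.C (x.eval 1) ∈ Ideal.span {(Polynomial.X - Polynomial.C 1 : Polynomial k)} := by
      rw [Ideal.mem_span_singleton]
      exact Polynomial.X_sub_C_dvd_sub_C_eval
    have h2 : algebraMap (Polynomial k) B (x - Polynomial.C (x.eval 1)) ∈ P := by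
      rw [← hPc] at h1
      exact h1
    have h3 : g (x - Polynomial.C (x.eval 1)) = 0 := Ideal.Quotient.eq_zero_iff_mem.mpr h2
    rw [map_sub, sub_eq_zero] at h3
    exact h3
  have : IsDomain (B ⧸ P) := Ideal.Quotient.isDomain P
  have hfb : Function.Bijective f := by
    apply IsAlgClosed.ringHom_bijective_of_isIntegral
    intro y
    obtain ⟨b, rfl⟩ := Ideal.Quotient.mk_surjective y
    obtain ⟨p, hp, hp0⟩ := Algebra.IsIntegral.isIntegral (R := Polynomial k) b
    refine ⟨p.map (Polynomial.evalRingHom 1), hp.map _, ?_⟩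
    rw [Polynomial.eval₂_map]
    have e : f.comp (Polynomial.evalRingHom 1) = g := by
      refine RingHom.ext fun x => ?_
      rw [hgf]
      rfl
    rw [e, hg, ← Polynomial.hom_eval₂, hp0, map_zero]
  let fe : k ≃+* B ⧸ P := RingEquiv.ofBijective f hfb
  let φB : B →+* k := (fe.symm : B ⧸ P →+* k).comp (Ideal.Quotient.mk P)
  have hφB0 : ∀ b, φB b = 0 ↔ b ∈ P := by
    intro b
    have h1 : φB b = fe.symm (Ideal.Quotient.mk P b) := rfl
    rw [h1, map_eq_zero_iff _ fe.symm.injective, Ideal.Quotient.eq_zero_iff_mem]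
  have hφB1 : ∀ x, φB (algebraMap (Polynomial k) B x) = x.eval 1 := by
    intro x
    have h1 : φB (algebraMap (Polynomial k) B x) = fe.symm (g x) := rfl
    rw [h1, hgf, RingEquiv.symm_apply_eq]
    rfl
  -- the localization
  let RA : Subalgebra B L := Localization.subalgebra.ofField L P.primeCompl P.primeCompl_le_nonZeroDivisors
  have hloc : IsLocalization.AtPrime RA P := Localization.subalgebra.isLocalization_ofField _ _ _
  have hfr : IsFractionRing RA L := Localization.subalgebra.isFractionRing_ofField _ _ _
  have hdvr : IsDiscreteValuationRing RA :=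
    IsLocalization.AtPrime.isDiscreteValuationRing_of_dedekind_domain B hP0 RA
  have hun : ∀ s : P.primeCompl, IsUnit (φB s) := by
    intro s
    rw [isUnit_iff_ne_zero]
    intro h1
    exact s.2 ((hφB0 _).mp h1)
  let φ : RA →+* k := IsLocalization.lift (M := P.primeCompl) (S := RA) hun
  have hφ : ∀ b, φ (algebraMap B RA b) = φB b := fun b => IsLocalization.lift_eq hun b
  refine ⟨RA.toSubring, hdvr, hfr, (algebraMap B RA).comp (algebraMap (Polynomial k) B), φ, ?_, ?_, ?_⟩
  · intro x
    rfl
  · intro x
    constructor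
    · intro h1 h2
      have h3 := h2.map φ
      rw [h1] at h3
      exact not_isUnit_zero h3
    · intro h1
      by_contra h2
      apply h1
      obtain ⟨b, s, hbs⟩ := IsLocalization.exists_mk'_eq P.primeCompl (S := RA) x
      have h3 : x * algebraMap B RA s = algebraMap B RA b := by
        rw [← hbs]
        exact IsLocalization.mk'_spec RA b s
      have h4 : b ∉ P := by
        intro h5
        rw [← hφB0, ← hφ, ← h3, map_mul] at h5
        rcases mul_eq_zero.mp h5 with h6 | h6
        · exact h2 h6
        · rw [hφ, hφB0] at h6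
          exact s.2 h6
      have h5 : IsUnit (algebraMap B RA b) := IsLocalization.map_units RA (⟨b, h4⟩ : P.primeCompl)
      rw [← h3] at h5
      exact isUnit_of_mul_isUnit_left h5
  · intro x
    exact (hφ _).trans (hφB1 x)

theorem exw {k : Type*} [Field k] [IsAlgClosed k] [CharZero k] (D : P4 k) (hD : BH D 3 3) (hS : Smo D) :
    ∃ M : Web k, Sy M ∧ dW M = D := by
  obtain ⟨M₀, hM₀, h1, h2⟩ := mst k two_ne_zero three_ne_zero
  have hG : BH (D - dW M₀) 3 3 := hD.sub (BH_dW M₀)
  obtain ⟨L, hLf, hLa, M, hinj, hess, halg, hMs, hMd⟩ :=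
    nls M₀ hM₀ (fun G hG => sur two_ne_zero M₀ hM₀ h1 h2 G hG) (D - dW M₀) hG
  obtain ⟨R, hR1, hR2, ι, φ, hι, hφ, hφι⟩ := EXW_dvr (k := k) (L := L) hinj hess halg
  have hφc : φ.comp (ι.comp Polynomial.C) = RingHom.id k := by
    ext x
    simp [hφι]
  have hιc : (algebraMap R L).comp (ι.comp Polynomial.C) =
      (algebraMap (Polynomial k) L).comp Polynomial.C :=
    RingHom.ext fun x => hι (Polynomial.C x)
  set D' : P4 R := map (ι.comp Polynomial.C) (dW M₀) + C (ι Polynomial.X) *
    map (ι.comp Polynomial.C) (D - dW M₀) with hD'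
  have hD1 : BH D' 3 3 := ((BH_dW M₀).map _).add ((hG.map _).C_mul _)
  have hD2 : map φ D' = D := by
    rw [hD', map_add, map_mul, map_C, MvPolynomial.map_map, MvPolynomial.map_map, hφc, hφι]
    simp [MvPolynomial.map_id]
  have hD3 : dW M = C 1 * map (algebraMap R L) D' := by
    rw [hMd, hD', map_add, map_mul, map_add, map_mul, map_C, map_C, MvPolynomial.map_map,
      MvPolynomial.map_map, MvPolynomial.map_map, MvPolynomial.map_map, hιc, hι, C_1, one_mul]
  have hR2' : IsUnit (2 : R) := by
    have e2 : (2 : R) = ι (Polynomial.C 2) := by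
      rw [map_ofNat, map_ofNat]
    by_contra hcon
    rw [← hφ, e2, hφι] at hcon
    simp at hcon
  obtain ⟨h, c', Λ, u, -, -, hu, hΛs, -, hΛd⟩ := rlt φ hφ hR2' D' hD1 (by rw [hD2]; exact hS) M hMs 1
    one_ne_zero hD3
  have hu0 : φ u ≠ 0 := by
    intro h0
    exact (hφ u).mp h0 hu
  obtain ⟨x, hx⟩ := IsAlgClosed.exists_pow_nat_eq (φ u)⁻¹ (n := 3) (by norm_num)
  refine ⟨x • mapW φ Λ, (hΛs.mapW φ).smul x, ?_⟩
  rw [dW_smul, ← map_dW, hΛd, map_mul, map_C, hD2, ← mul_assoc, ← C_mul, hx,
    inv_mul_cancel₀ hu0, C_1, one_mul]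

end Pool.Agent.T1
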