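import Pool.Agent.T1.DS3
import Pool.Agent.T1.EXW
import Pool.Agent.PQ.ELM
import Pool.Agent.ESH.BLP

/-!
# T1 / FGM: Belyi functions of curves `D = 0` with bounded coefficients

Model: PQ/FIN.lean.  `gnx`: `ξ` is a null vector over `Φ`.  `D₁ = dF F₁` is smooth, so (`exw`, `hhs`) `D₁(s, ·)` is not identically zero for `s ∈ C² \ 0`, and similarly `D₁(·, t)` (apply the same to the web with `i, j`
exchanged, or directly).  Claim `ξ 0 0 ≠ 0`: otherwise `ξ 0 1 * ξ 1 0 = 0`; if `ξ 0 1 = 0` then `ξ = (0, 0; ξ₁₀, ξ₁₁)` is `s tᵀ` with `s = (0, 1)`, `t = (ξ₁₀, ξ₁₁)`, `F₁(ξ) = D₁((0, 1), t) = 0`, where `t₁/t₀` (or `t₀/t₁`) is transcendental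
(it generates `Φ`): so the binary form `D₁((0, 1), ·)` over `C` is zero, contradiction; the other case is symmetric.  So `x = ξ 1 0 / ξ 0 0`, `y = ξ 0 1 / ξ 0 0`, `ξ = ξ₀₀ • (1, x)(1, y)ᵀ`, `F₁(ξ) = ξ₀₀³ D₁((1, x), (1, y))`.
All quotients of the `ξ i j` are in `C(x, y)`.  `x` is transcendental: otherwise `x ∈ C` (`C` algebraically closed), `y` is transcendental, and `D₁((1, x), ·) = 0`, contradiction.
`fgm`: `elm` with `σ = Fin 4 × Fin 4`, `θ = dco D`, `D = ds3`: `N ∈ ℤ[X]`, degree and coefficients `≤ tw (c + 10) s`, all roots of the discriminant are roots of `N`; `brt`, `ds3_root`: all branch points of `x` are roots of `N`; `blp`: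
`β` with `[Φ : C(β)] ≤ [Φ : C(x)] * tw 20 (..)`, `[Φ : C(x)] ≤ 3` (`y` is a root of a non-zero polynomial of degree `≤ 3` over `C(x)`: not all `a j(x) = 0` because `ds3_ne`, `x` transcendental).
-/

namespace Pool.Agent.T1

open MvPolynomial

section aux

variable {R S : Type*} [CommRing R] [CommRing S]

private theorem fgm_wt (d : Fin 2 ⊕ Fin 2 →₀ ℕ) :
    Finsupp.weight bw d = (d (Sum.inl 0) + d (Sum.inl 1), d (Sum.inr 0) + d (Sum.inr 1)) := by
  rw [Finsupp.weight_apply, Finsupp.sum_fintype _ _ (fun i => by simp)]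
  rw [Fintype.sum_sum_type, Fin.sum_univ_two, Fin.sum_univ_two]
  refine Prod.ext ?_ ?_
  · simp only [bw, Sum.elim_inl, Sum.elim_inr, Prod.fst_add, Prod.smul_fst, smul_eq_mul]
    ring
  · simp only [bw, Sum.elim_inl, Sum.elim_inr, Prod.snd_add, Prod.smul_snd, smul_eq_mul]
    ring

private theorem fgm_pt (s t : Fin 2 → R) : pt s t ∘ Sum.swap = pt t s := by
  funext i
  rcases i with i | i <;> rfl

private theorem fgm_sw_eval₂ (f : R →+* S) (D : P4 R) (s t : Fin 2 → S) :
    eval₂ f (pt s t) (rename Sum.swap D) = eval₂ f (pt t s) D := by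
  rw [eval₂_rename, fgm_pt]

private theorem fgm_sw_eval (D : P4 R) (s t : Fin 2 → R) :
    eval (pt s t) (rename Sum.swap D) = eval (pt t s) D := by
  rw [eval_rename, fgm_pt]

private theorem fgm_swi : Function.Injective (Sum.swap : Fin 2 ⊕ Fin 2 → Fin 2 ⊕ Fin 2) :=
  fun a b h => by simpa using congrArg Sum.swap h

private theorem fgm_sw_BH {D : P4 R} {m n : ℕ} (hD : BH D m n) : BH (rename Sum.swap D) n m := by
  intro d hd
  obtain ⟨u, rfl, hu⟩ := coeff_rename_ne_zero _ _ _ hd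
  have h1 := hD hu
  have e1 : ∀ i, (u.mapDomain Sum.swap) (Sum.inl i) = u (Sum.inr i) := fun i =>
    Finsupp.mapDomain_apply fgm_swi u (Sum.inr i)
  have e2 : ∀ i, (u.mapDomain Sum.swap) (Sum.inr i) = u (Sum.inl i) := fun i =>
    Finsupp.mapDomain_apply fgm_swi u (Sum.inl i)
  rw [fgm_wt] at h1 ⊢
  rw [e1, e1, e2, e2]
  exact Prod.ext (congrArg Prod.snd h1) (congrArg Prod.fst h1)

private theorem fgm_sw_Smo {k : Type*} [Field k] {D : P4 k} (hD : Smo D) :
    Smo (rename Sum.swap D) := by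
  intro s t hs ht h0
  rw [fgm_sw_eval] at h0
  obtain ⟨i, hi⟩ := hD t s ht hs h0
  refine ⟨Sum.swap i, ?_⟩
  rw [pderiv_rename fgm_swi, fgm_sw_eval]
  exact hi

private theorem fgm_pd (s : Fin 2 → R) (f : P4 R) (j : Fin 2) :
    pderiv j (eval₂ C (Sum.elim (fun i => C (s i)) X) f : MvPolynomial (Fin 2) R) =
      eval₂ C (Sum.elim (fun i => C (s i)) X) (pderiv (Sum.inr j) f) := by
  induction f using MvPolynomial.induction_on with
  | C a => simp
  | add f g hf hg => simp only [map_add, eval₂_add, hf, hg]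
  | mul_X f i hf =>
    rw [eval₂_mul, eval₂_X, pderiv_mul, hf, pderiv_mul, eval₂_add, eval₂_mul, eval₂_mul, eval₂_X]
    congr 2
    rcases i with i | i
    · simp [pderiv_X]
    · by_cases h : j = i
      · subst h
        simp
      · simp only [Sum.elim_inr]
        rw [pderiv_X_of_ne (Ne.symm h), pderiv_X_of_ne (fun h2 => h (Sum.inr_injective h2).symm), eval₂_zero]

private theorem fgm_ev (s t : Fin 2 → R) (f : P4 R) :
    eval t (eval₂ C (Sum.elim (fun i => C (s i)) X) f : MvPolynomial (Fin 2) R) = eval (pt s t) f := by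
  induction f using MvPolynomial.induction_on with
  | C a => simp
  | add f g hf hg => simp only [map_add, eval₂_add, hf, hg]
  | mul_X f i hf =>
    rw [eval₂_mul, map_mul, map_mul, hf, eval₂_X, eval_X]
    rcases i with i | i <;> simp [pt]

private theorem fgm_cubic {k : Type*} [Field k] [IsAlgClosed k] (b : Fin 4 → k) :
    ∃ t : Fin 2 → k, t ≠ 0 ∧ ∑ j : Fin 4, b j * t 0 ^ (3 - (j : ℕ)) * t 1 ^ (j : ℕ) = 0 := by
  by_cases h3 : b 3 = 0
  · refine ⟨![0, 1], fun h => one_ne_zero (congrFun h 1), ?_⟩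
    rw [Fin.sum_univ_four]
    simp [h3]
  · obtain ⟨x, hx⟩ := IsAlgClosed.exists_root
      (Polynomial.C (b 3) * Polynomial.X ^ 3 + Polynomial.C (b 2) * Polynomial.X ^ 2 +
        Polynomial.C (b 1) * Polynomial.X + Polynomial.C (b 0)) (by
          rw [Polynomial.degree_cubic h3]
          norm_num)
    refine ⟨![1, x], fun h => one_ne_zero (congrFun h 0), ?_⟩
    rw [Polynomial.IsRoot.def] at hx
    simp only [Polynomial.eval_add, Polynomial.eval_mul, Polynomial.eval_C, Polynomial.eval_pow,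
      Polynomial.eval_X] at hx
    rw [Fin.sum_univ_four]
    simp only [Matrix.cons_val_zero, Matrix.cons_val_one, one_pow, mul_one]
    simp
    linear_combination hx

/-- a smooth form of bidegree `(3, 3)` does not vanish on a line `s = const` -/
private theorem fgm_l {k : Type*} [Field k] [IsAlgClosed k] [CharZero k] {D : P4 k} (hD : BH D 3 3)
    (hS : Smo D) (s : Fin 2 → k) (hs : s ≠ 0) : ∃ t, eval (pt s t) D ≠ 0 := by
  haveI : Infinite k := IsAlgClosed.instInfinite
  by_contra hc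
  push Not at hc
  have hr : ∀ t j, eval (pt s t) (pderiv (Sum.inr j) D) = 0 := by
    intro t j
    have h1 : (eval₂ C (Sum.elim (fun i => C (s i)) X) D : MvPolynomial (Fin 2) k) = 0 := by
      refine MvPolynomial.funext fun t => ?_
      rw [fgm_ev, hc, map_zero]
    rw [← fgm_ev, ← fgm_pd, h1, map_zero, map_zero]
  have heul : ∀ t, s 0 * eval (pt s t) (pderiv (Sum.inl 0) D) +
      s 1 * eval (pt s t) (pderiv (Sum.inl 1) D) = 0 := by
    intro t
    have h1 := congrArg (eval (pt s t)) (euler_l hD)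
    rw [Fin.sum_univ_two, map_add, map_mul, map_mul, map_mul, hc, mul_zero, eval_X, eval_X] at h1
    exact h1
  have hroot : ∀ i i' : Fin 2, s i ≠ 0 → ∃ t : Fin 2 → k, t ≠ 0 ∧
      eval (pt s t) (pderiv (Sum.inl i') D) = 0 := by
    intro i i' hi
    have hB : BH (X (Sum.inl i) * pderiv (Sum.inl i') D) 3 3 := by
      have h1 : BH (pderiv (Sum.inl i') D) 2 3 := IsWeightedHomogeneous.pderiv (n' := ((2, 3) : ℕ × ℕ)) hD rfl
      have h2 : BH (X (Sum.inl i) : P4 k) 1 0 := isWeightedHomogeneous_X k bw (Sum.inl i)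
      exact h2.mul h1
    obtain ⟨t, ht, h1⟩ := fgm_cubic fun j => ∑ i₁ : Fin 4,
      dco (X (Sum.inl i) * pderiv (Sum.inl i') D) i₁ j * s 0 ^ (3 - (i₁ : ℕ)) * s 1 ^ (i₁ : ℕ)
    refine ⟨t, ht, ?_⟩
    have h2 := eval_dco hB s t
    rw [Finset.sum_comm] at h2
    simp only [Finset.sum_mul] at h1
    rw [h1, map_mul, eval_X] at h2
    exact (mul_eq_zero.1 h2).resolve_left hi
  obtain ⟨t, ht, h0, h1⟩ : ∃ t : Fin 2 → k, t ≠ 0 ∧
      eval (pt s t) (pderiv (Sum.inl 0) D) = 0 ∧ eval (pt s t) (pderiv (Sum.inl 1) D) = 0 := by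
    by_cases hs0 : s 0 = 0
    · have hs1 : s 1 ≠ 0 := by
        intro h
        apply hs
        funext i
        fin_cases i
        · exact hs0
        · exact h
      obtain ⟨t, ht, h1⟩ := hroot 1 0 hs1
      refine ⟨t, ht, h1, ?_⟩
      have h2 := heul t
      rw [h1, mul_zero, zero_add] at h2
      exact (mul_eq_zero.1 h2).resolve_left hs1
    · obtain ⟨t, ht, h1⟩ := hroot 0 1 hs0
      refine ⟨t, ht, ?_, h1⟩
      have h2 := heul t
      rw [h1, mul_zero, add_zero] at h2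
      exact (mul_eq_zero.1 h2).resolve_left hs0
  obtain ⟨i, hi⟩ := hS s t hs ht (hc t)
  apply hi
  rcases i with i | j
  · fin_cases i
    · exact h0
    · exact h1
  · exact hr t j

private theorem fgm_dco (f : R →+* S) (D : P4 R) (i j : Fin 4) : dco (map f D) i j = f (dco D i j) := by
  unfold dco
  rw [coeff_map]

private theorem fgm_eval₂ (f : R →+* S) {D : P4 R} (hD : BH D 3 3) (s t : Fin 2 → S) :
    eval₂ f (pt s t) D = ∑ i : Fin 4, ∑ j : Fin 4,
      f (dco D i j) * s 0 ^ (3 - (i : ℕ)) * s 1 ^ (i : ℕ) * t 0 ^ (3 - (j : ℕ)) * t 1 ^ (j : ℕ) := by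
  rw [← eval_map, eval_dco (hD.map f)]
  simp only [fgm_dco]

/-- points over constants are constant -/
private theorem fgm_A {k Φ : Type*} [Field k] [IsAlgClosed k] [CharZero k] [Field Φ] [Algebra k Φ]
    {D : P4 k} (hD : BH D 3 3) (hS : Smo D) (s : Fin 2 → k) (hs : s ≠ 0) (τ : Fin 2 → Φ)
    (h : eval₂ (algebraMap k Φ) (pt (fun i => algebraMap k Φ (s i)) τ) D = 0) :
    ∃ (t : Fin 2 → k) (d : Φ), τ = fun j => algebraMap k Φ (t j) * d := by
  by_cases h0 : τ 0 = 0
  · refine ⟨![0, 1], τ 1, ?_⟩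
    funext j
    fin_cases j
    · simp [h0]
    · simp
  · obtain ⟨b, hb⟩ : ∃ b : Fin 4 → k, b = fun j => ∑ i : Fin 4,
        dco D i j * s 0 ^ (3 - (i : ℕ)) * s 1 ^ (i : ℕ) := ⟨_, rfl⟩
    have hbe : ∀ t : Fin 2 → k, eval (pt s t) D = ∑ j : Fin 4, b j * t 0 ^ (3 - (j : ℕ)) * t 1 ^ (j : ℕ) := by
      intro t
      rw [eval_dco hD, Finset.sum_comm, hb]
      simp only [Finset.sum_mul]
    have hbΦ : ∑ j : Fin 4, algebraMap k Φ (b j) * τ 0 ^ (3 - (j : ℕ)) * τ 1 ^ (j : ℕ) = 0 := by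
      rw [← h, fgm_eval₂ _ hD, Finset.sum_comm, hb]
      simp only [Finset.sum_mul, map_sum, map_mul, map_pow]
    obtain ⟨P, hP⟩ : ∃ P : Polynomial k, P = ∑ j : Fin 4, Polynomial.C (b j) * Polynomial.X ^ (j : ℕ) := ⟨_, rfl⟩
    have hP0 : P ≠ 0 := by
      intro hP0
      have hbz : ∀ j, b j = 0 := by
        intro j
        have h1 : P.coeff (j : ℕ) = b j := by
          rw [hP, Fin.sum_univ_four]
          fin_cases j <;> simp [Polynomial.coeff_X, Polynomial.coeff_C, Polynomial.coeff_X_pow]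
        rw [← h1, hP0, Polynomial.coeff_zero]
      obtain ⟨t, ht⟩ := fgm_l hD hS s hs
      apply ht
      rw [hbe]
      simp [hbz]
    have hz : Polynomial.aeval (τ 1 / τ 0) P = 0 := by
      rw [hP, map_sum]
      simp only [map_mul, map_pow, Polynomial.aeval_C, Polynomial.aeval_X]
      have h1 : τ 0 ^ 3 * ∑ j : Fin 4, algebraMap k Φ (b j) * (τ 1 / τ 0) ^ (j : ℕ) = 0 := by
        rw [← hbΦ, Finset.mul_sum]
        refine Finset.sum_congr rfl fun j _ => ?_
        have h2 : τ 0 ^ 3 = τ 0 ^ (3 - (j : ℕ)) * τ 0 ^ (j : ℕ) := by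
          rw [← pow_add]
          congr 1
          omega
        rw [h2, div_pow]
        field_simp
      exact (mul_eq_zero.1 h1).resolve_left (pow_ne_zero _ h0)
    obtain ⟨c, hc⟩ := Helper11.mem_range_of_isAlgebraic ⟨P, hP0, hz⟩
    refine ⟨![1, c], τ 0, ?_⟩
    funext j
    fin_cases j
    · simp
    · simp [hc, div_mul_cancel₀ _ h0]

private theorem fgm_not {C Φ : Type*} [Field C] [Field Φ] [Algebra C Φ] [Helper11.FunField C Φ] (S : Set Φ)
    (hS : IntermediateField.adjoin C S = ⊤) (h : ∀ z ∈ S, ∃ c : C, algebraMap C Φ c = z) :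
    False := by
  obtain ⟨t, ht⟩ := Helper11.FunField.exists_transcendental (k := C) (L := Φ)
  have hle : IntermediateField.adjoin C S ≤ ⊥ := by
    refine IntermediateField.adjoin_le_iff.2 fun z hz => ?_
    obtain ⟨c, rfl⟩ := h z hz
    exact IntermediateField.algebraMap_mem ⊥ c
  have ht2 : t ∈ (⊥ : IntermediateField C Φ) := hle (by rw [hS]; exact IntermediateField.mem_top)
  obtain ⟨c, hc⟩ := IntermediateField.mem_bot.1 ht2
  apply ht
  rw [← hc]
  exact isAlgebraic_algebraMap c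

private theorem fgm_BH {F : MvPolynomial (Fin 2 × Fin 2) R} (hF : F.IsHomogeneous 3) : BH (dF F) 3 3 := by
  have h0 : dF F = ∑ d ∈ F.support, dF (monomial d (coeff d F)) := by
    conv_lhs => rw [F.as_sum]
    rw [map_sum]
  rw [h0]
  refine (weightedHomogeneousSubmodule R bw (3, 3)).sum_mem fun d hd => ?_
  have hd2 : ∑ ij, d ij = 3 := by
    have h1 := hF (mem_support_iff.1 hd)
    rw [Finsupp.weight_apply, Finsupp.sum_fintype _ _ (fun i => by simp)] at h1
    simpa using h1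
  have h3 : dF (monomial d (coeff d F)) = C (coeff d F) *
      ∏ ij : Fin 2 × Fin 2, (X (Sum.inl ij.1) * X (Sum.inr ij.2)) ^ d ij := by
    unfold dF
    rw [aeval_monomial, Finsupp.prod_fintype _ _ (fun i => by simp)]
    rfl
  rw [h3]
  have h4 : IsWeightedHomogeneous bw (∏ ij : Fin 2 × Fin 2, (X (Sum.inl ij.1) * X (Sum.inr ij.2) : P4 R) ^ d ij)
      (∑ ij : Fin 2 × Fin 2, d ij • ((1, 1) : ℕ × ℕ)) := by
    refine IsWeightedHomogeneous.prod _ _ _ fun ij _ => ?_
    refine IsWeightedHomogeneous.pow ?_ _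
    exact (isWeightedHomogeneous_X R bw (Sum.inl ij.1)).mul (isWeightedHomogeneous_X R bw (Sum.inr ij.2))
  rw [← Finset.sum_smul, hd2] at h4
  exact BH.C_mul (m := 3) (n := 3) h4 _

private theorem fgm_null {k : Type*} [Field k] (x : Matrix (Fin 2) (Fin 2) k) (hx : x.det = 0) (h0 : x ≠ 0) :
    ∃ s t : Fin 2 → k, s ≠ 0 ∧ t ≠ 0 ∧ ∀ i j, x i j = s i * t j := by
  rw [Matrix.det_fin_two] at hx
  by_cases h1 : x 0 = 0
  · have h00 : ∀ j, x 0 j = 0 := fun j => congrFun h1 j
    refine ⟨![0, 1], x 1, fun h => one_ne_zero (congrFun h 1), ?_, ?_⟩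
    · intro h
      apply h0
      ext i j
      fin_cases i
      · exact h00 j
      · exact congrFun h j
    · intro i j
      fin_cases i
      · simp [h00]
      · simp
  · by_cases h00 : x 0 0 = 0
    · have h01 : x 0 1 ≠ 0 := by
        intro h
        apply h1
        funext j
        fin_cases j
        · exact h00
        · exact h
      have h10 : x 1 0 = 0 := by
        rw [h00, zero_mul, zero_sub, neg_eq_zero] at hx
        exact (mul_eq_zero.1 hx).resolve_left h01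
      refine ⟨![1, x 1 1 / x 0 1], x 0, fun h => one_ne_zero (congrFun h 0), h1, ?_⟩
      intro i j
      fin_cases i <;> fin_cases j
      · simp
      · simp
      · simp [h00, h10]
      · simp [div_mul_cancel₀ _ h01]
    · refine ⟨![1, x 1 0 / x 0 0], x 0, fun h => one_ne_zero (congrFun h 0), h1, ?_⟩
      intro i j
      fin_cases i <;> fin_cases j
      · simp
      · simp
      · simp [div_mul_cancel₀ _ h00]
      · simp
        field_simp
        linear_combination hx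

private theorem fgm_dF (f : R →+* S) (F : MvPolynomial (Fin 2 × Fin 2) R) (s t : Fin 2 → S) :
    eval₂ f (pt s t) (dF F) = eval₂ f (fun ij => s ij.1 * t ij.2) F := by
  induction F using MvPolynomial.induction_on with
  | C a => simp [dF]
  | add p q hp hq => rw [map_add, eval₂_add, eval₂_add, hp, hq]
  | mul_X p i hp =>
    rw [map_mul, eval₂_mul, eval₂_mul, hp]
    congr 1
    simp [dF, pt]

end aux

theorem gnx {C Φ : Type*} [Field C] [Field Φ] [Algebra C Φ] [Helper11.FunField C Φ] [IsAlgClosed C]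
    [CharZero C] (F₁ : MvPolynomial (Fin 2 × Fin 2) C) (hF : F₁.IsHomogeneous 3) (hS : Smo (dF F₁))
    (ξ : Matrix (Fin 2) (Fin 2) Φ) (hξ : ξ ≠ 0) (hdet : ξ.det = 0)
    (h0 : eval₂ (algebraMap C Φ) (fun ij => ξ ij.1 ij.2) F₁ = 0)
    (hgen : IntermediateField.adjoin C {z : Φ | ∃ i j k l, z = ξ i j / ξ k l} = ⊤) :
    ∃ x y : Φ, eval₂ (algebraMap C Φ) (pt ![1, x] ![1, y]) (dF F₁) = 0 ∧
      IntermediateField.adjoin C {x, y} = ⊤ ∧ Transcendental C x := by
  have hB : BH (dF F₁) 3 3 := fgm_BH hF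
  obtain ⟨σ, τ, hσ, hτ, hx⟩ := fgm_null ξ hdet hξ
  have hD : eval₂ (algebraMap C Φ) (pt σ τ) (dF F₁) = 0 := by
    rw [fgm_dF, ← h0]
    congr 1
    funext ij
    exact (hx _ _).symm
  -- homogeneity
  have hsc : ∀ (a b : Φ) (s t : Fin 2 → Φ), eval₂ (algebraMap C Φ) (pt (a • s) (b • t)) (dF F₁) =
      a ^ 3 * b ^ 3 * eval₂ (algebraMap C Φ) (pt s t) (dF F₁) := by
    intro a b s t
    rw [← eval_map, ← eval_map]
    exact (hB.map _).eval_smul a b s t
  -- both constant is impossible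
  have hcc : ∀ (s t : Fin 2 → C) (d e : Φ), (σ = fun i => algebraMap C Φ (s i) * d) →
      (τ = fun j => algebraMap C Φ (t j) * e) → False := by
    intro s t d e h1 h2
    refine fgm_not _ hgen ?_
    rintro z ⟨i, j, k, l, rfl⟩
    have hd : d ≠ 0 := by
      intro hd
      apply hσ
      rw [h1, hd]
      funext i
      simp
    have he : e ≠ 0 := by
      intro he
      apply hτ
      rw [h2, he]
      funext i
      simp
    refine ⟨(s i * t j) / (s k * t l), ?_⟩
    rw [hx, hx, h1, h2]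
    simp only [map_div₀, map_mul]
    rw [mul_mul_mul_comm, mul_mul_mul_comm _ d, mul_div_mul_right _ _ (mul_ne_zero hd he)]
  have hσc : ∀ (s : Fin 2 → C) (d : Φ), (σ = fun i => algebraMap C Φ (s i) * d) → False := by
    intro s d h1
    have hd : d ≠ 0 := by
      intro hd
      apply hσ
      rw [h1, hd]
      funext i
      simp
    have hs : s ≠ 0 := by
      intro hs
      apply hσ
      rw [h1, hs]
      funext i
      simp
    have h2 := hD
    have h3 : σ = d • fun i => algebraMap C Φ (s i) := by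
      rw [h1]
      funext i
      simp [mul_comm]
    rw [h3, ← one_smul Φ τ, hsc] at h2
    have h4 := (mul_eq_zero.1 h2).resolve_left (mul_ne_zero (pow_ne_zero _ hd) (by simp))
    obtain ⟨t, e, h5⟩ := fgm_A hB hS s hs τ h4
    exact hcc s t d e h1 h5
  have hτc : ∀ (t : Fin 2 → C) (d : Φ), (τ = fun i => algebraMap C Φ (t i) * d) → False := by
    intro t d h1
    have hd : d ≠ 0 := by
      intro hd
      apply hτ
      rw [h1, hd]
      funext i
      simp
    have ht : t ≠ 0 := by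
      intro hs
      apply hτ
      rw [h1, hs]
      funext i
      simp
    have h2 := hD
    have h3 : τ = d • fun i => algebraMap C Φ (t i) := by
      rw [h1]
      funext i
      simp [mul_comm]
    rw [h3, ← one_smul Φ σ, hsc] at h2
    have h4 := (mul_eq_zero.1 h2).resolve_left (mul_ne_zero (by simp) (pow_ne_zero _ hd))
    rw [← fgm_sw_eval₂] at h4
    obtain ⟨s, e, h5⟩ := fgm_A (fgm_sw_BH hB) (fgm_sw_Smo hS) t ht σ h4
    exact hcc s t e d h5 h1
  have hσ0 : σ 0 ≠ 0 := by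
    intro h
    refine hσc ![0, 1] (σ 1) ?_
    funext i
    fin_cases i
    · simp [h]
    · simp
  have hτ0 : τ 0 ≠ 0 := by
    intro h
    refine hτc ![0, 1] (τ 1) ?_
    funext i
    fin_cases i
    · simp [h]
    · simp
  have eσ : σ = σ 0 • ![1, σ 1 / σ 0] := by
    funext i
    fin_cases i
    · simp
    · simp [mul_div_cancel₀ _ hσ0]
  have eτ : τ = τ 0 • ![1, τ 1 / τ 0] := by
    funext i
    fin_cases i
    · simp
    · simp [mul_div_cancel₀ _ hτ0]
  refine ⟨σ 1 / σ 0, τ 1 / τ 0, ?_, ?_, ?_⟩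
  · rw [eσ, eτ, hsc] at hD
    exact (mul_eq_zero.1 hD).resolve_left (mul_ne_zero (pow_ne_zero _ hσ0) (pow_ne_zero _ hτ0))
  · rw [eq_top_iff, ← hgen]
    refine IntermediateField.adjoin_le_iff.2 ?_
    rintro z ⟨i, j, k, l, rfl⟩
    have m1 : ∀ i, σ i / σ 0 ∈ IntermediateField.adjoin C {σ 1 / σ 0, τ 1 / τ 0} := by
      intro i
      fin_cases i
      · change σ 0 / σ 0 ∈ _
        rw [div_self hσ0]
        exact IntermediateField.one_mem _
      · exact IntermediateField.subset_adjoin C _ (Or.inl rfl)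
    have m2 : ∀ i, τ i / τ 0 ∈ IntermediateField.adjoin C {σ 1 / σ 0, τ 1 / τ 0} := by
      intro i
      fin_cases i
      · change τ 0 / τ 0 ∈ _
        rw [div_self hτ0]
        exact IntermediateField.one_mem _
      · exact IntermediateField.subset_adjoin C _ (Or.inr rfl)
    have e1 : ξ i j / ξ k l = ((σ i / σ 0) * (τ j / τ 0)) / ((σ k / σ 0) * (τ l / τ 0)) := by
      rw [hx, hx, div_mul_div_comm, div_mul_div_comm, div_div_div_cancel_right₀ (mul_ne_zero hσ0 hτ0)]
    rw [e1]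
    exact IntermediateField.div_mem _ (mul_mem (m1 i) (m2 j)) (mul_mem (m1 k) (m2 l))
  · intro halg
    obtain ⟨a, ha⟩ := Helper11.mem_range_of_isAlgebraic halg
    refine hσc ![1, a] (σ 0) ?_
    funext i
    fin_cases i
    · simp
    · simp [ha, div_mul_cancel₀ _ hσ0]

private theorem fgm_deg {C Φ : Type*} [Field C] [Field Φ] [Algebra C Φ] [Helper11.FunField C Φ] [IsAlgClosed C]
    [CharZero C] (D : P4 C) (hD : BH D 3 3) (hS : Smo D) (x y : Φ)
    (h0 : eval₂ (algebraMap C Φ) (pt ![1, x] ![1, y]) D = 0)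
    (hgen : IntermediateField.adjoin C {x, y} = ⊤) (hx : Transcendental C x) :
    Module.finrank (IntermediateField.adjoin C {x}) Φ ≤ 3 := by
  obtain ⟨i₀, j₀, hij⟩ : ∃ i j, dco D i j ≠ 0 := by
    by_contra hc
    push Not at hc
    obtain ⟨t, ht⟩ := fgm_l hD hS ![1, 0] (fun h => one_ne_zero (congrFun h 0))
    apply ht
    rw [eval_dco hD]
    simp [hc]
  set E := IntermediateField.adjoin C {x} with hE
  set g : E := ⟨x, IntermediateField.subset_adjoin C _ rfl⟩ with hg
  obtain ⟨q, hq⟩ : ∃ q : Fin 4 → Polynomial C, q = fun j => ∑ i : Fin 4,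
      Polynomial.C (dco D i j) * Polynomial.X ^ (i : ℕ) := ⟨_, rfl⟩
  have hq0 : q j₀ ≠ 0 := by
    intro h
    have h1 : (q j₀).coeff (i₀ : ℕ) = dco D i₀ j₀ := by
      rw [hq]
      simp only [Fin.sum_univ_four]
      fin_cases i₀ <;> simp [Polynomial.coeff_X, Polynomial.coeff_C, Polynomial.coeff_X_pow]
    rw [h, Polynomial.coeff_zero] at h1
    exact hij h1.symm
  set P : Polynomial E := ∑ j : Fin 4, Polynomial.C (Polynomial.aeval g (q j)) * Polynomial.X ^ (j : ℕ) with hP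
  have hPc : ∀ j : Fin 4, P.coeff (j : ℕ) = Polynomial.aeval g (q j) := by
    intro j
    rw [hP, Fin.sum_univ_four]
    fin_cases j <;> simp [Polynomial.coeff_X, Polynomial.coeff_C, Polynomial.coeff_X_pow]
  have hcoe : ∀ r : Polynomial C, ((Polynomial.aeval g r : E) : Φ) = Polynomial.aeval x r := by
    intro r
    have h1 := Polynomial.aeval_algebraMap_apply Φ g r
    exact h1.symm
  have hP0 : P ≠ 0 := by
    intro h
    have h1 := hPc j₀
    rw [h, Polynomial.coeff_zero] at h1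
    have h2 := hcoe (q j₀)
    rw [← h1] at h2
    exact hx ⟨q j₀, hq0, h2.symm⟩
  have hdeg : P.natDegree ≤ 3 := by
    rw [hP]
    refine Polynomial.natDegree_sum_le_of_forall_le _ _ fun j _ => ?_
    refine (Polynomial.natDegree_C_mul_X_pow_le _ _).trans ?_
    omega
  have hyP : Polynomial.aeval y P = 0 := by
    rw [hP, map_sum, ← h0, fgm_eval₂ _ hD, Finset.sum_comm]
    refine Finset.sum_congr rfl fun j _ => ?_
    rw [map_mul, map_pow, Polynomial.aeval_C, Polynomial.aeval_X]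
    change ((Polynomial.aeval g (q j) : E) : Φ) * _ = _
    rw [hcoe, hq, map_sum, Finset.sum_mul]
    refine Finset.sum_congr rfl fun i _ => ?_
    simp
  have hal : IsAlgebraic E y := ⟨P, hP0, hyP⟩
  have hint : IsIntegral E y := hal.isIntegral
  have htop : IntermediateField.adjoin E {y} = ⊤ := by
    have e1 := IntermediateField.adjoin_simple_adjoin_simple C x y
    rw [hgen] at e1
    rw [eq_top_iff]
    intro z _
    have e2 : z ∈ (IntermediateField.adjoin (IntermediateField.adjoin C {x}) {y}).restrictScalars C := by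
      rw [e1]
      exact IntermediateField.mem_top
    exact e2
  have e1 := IntermediateField.adjoin.finrank hint
  rw [htop, IntermediateField.finrank_top'] at e1
  rw [e1]
  exact (Polynomial.natDegree_le_natDegree (minpoly.degree_le_of_ne_zero E y hP0 hyP)).trans hdeg

private theorem fgm_one {s : ℕ} (hs : 16 ≤ s) : 65536 ≤ ESH.tw 1 s := by
  have h3 : ESH.tw 1 16 ≤ ESH.tw 1 s := ESH.tw_mono le_rfl hs
  refine le_trans ?_ h3
  rw [show (1 : ℕ) = 0 + 1 from rfl, ESH.tw_succ, ESH.tw_zero]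
  norm_num

private theorem fgm_big {s c : ℕ} (hs : 16 ≤ s) (hc : 2 ≤ c) : 2 ^ 400 ≤ ESH.tw c s := by
  have h1 : ESH.tw 2 s ≤ ESH.tw c s := ESH.tw_mono hc le_rfl
  refine le_trans ?_ h1
  rw [show (2 : ℕ) = 1 + 1 from rfl, ESH.tw_succ]
  have h2 := fgm_one hs
  generalize ESH.tw 1 s = m at h2
  exact Nat.pow_le_pow_right (by decide) (by omega)

private theorem fgm_small {n X : ℕ} (h : 2 ^ 400 ≤ X) (hn : n ≤ 1000) : n ≤ X := by
  refine hn.trans (le_trans ?_ h)
  exact le_trans (by norm_num : 1000 ≤ 2 ^ 10) (Nat.pow_le_pow_right (by norm_num) (by norm_num))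

theorem fgm {C Φ : Type*} [Field C] [Field Φ] [Algebra C Φ] [Helper11.FunField C Φ] [IsAlgClosed C]
    [CharZero C] (D : P4 C) (hD : BH D 3 3) (hS : Smo D) (c s : ℕ) (hs : 16 ≤ s) (hc : 2 ≤ c)
    (hb : ∀ i j, Bd c s (dco D i j)) (x y : Φ)
    (h0 : eval₂ (algebraMap C Φ) (pt ![1, x] ![1, y]) D = 0)
    (hgen : IntermediateField.adjoin C {x, y} = ⊤) (hx : Transcendental C x) :
    ∃ β : Φ, ESH.IsBelyi C β ∧
      Module.finrank (IntermediateField.adjoin C {β}) Φ ≤ ESH.tw (c + 40) s := by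
  have hb' : ∀ ij : Fin 4 × Fin 4, ∃ P : Polynomial ℤ, P ≠ 0 ∧ P.natDegree ≤ ESH.tw c s ∧
      (∀ j, |P.coeff j| ≤ (ESH.tw c s : ℤ)) ∧ Polynomial.aeval (dco D ij.1 ij.2) P = 0 := fun ij => hb _ _
  choose P hP1 hP2 hP3 hP4 using hb'
  have h2400 := fgm_big hs hc
  obtain ⟨N, hN0, hNd, hNc, hNr⟩ := PQ.elm (fun ij : Fin 4 × Fin 4 => dco D ij.1 ij.2) P s c
    (ESH.tw c s) (ESH.tw c s) 12 4 (2 ^ 400) hs le_rfl le_rfl
    (fgm_small h2400 (by norm_num)) (fgm_small h2400 (by norm_num)) h2400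
    (fgm_small h2400 (by simp)) hP1 hP2 hP3 hP4 ds3 ds3_natDegree ds3_totalDegree ds3_l1
    (ds3_ne D hD hS)
  obtain ⟨β, hβ, hβd⟩ := ESH.blp x hx N hN0 (ESH.tw (c + 10) s) (ESH.tw (c + 10) s) hNd hNc (fun c' hc' => by
    obtain ⟨t, ht, h1, h2⟩ := brt D hD x y h0 hgen c' hc'
    exact hNr c' (ds3_root D hD c' t ht h1 h2))
  refine ⟨β, hβ, hβd.trans ?_⟩
  have hxf := fgm_deg D hD hS x y h0 hgen hx
  have h4 : ESH.tw (c + 10) s + ESH.tw (c + 10) s + 16 ≤ ESH.tw (c + 12) s := by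
    have h5 := ESH.tw_add hs (le_refl (ESH.tw (c + 10) s)) (le_refl (ESH.tw (c + 10) s))
    have h6 : 16 ≤ ESH.tw (c + 11) s := hs.trans (ESH.le_tw (c + 11) s)
    exact ESH.tw_add hs h5 h6
  have h7 : ESH.tw 20 (ESH.tw (c + 10) s + ESH.tw (c + 10) s + 16) ≤ ESH.tw (c + 32) s := by
    have h8 : ESH.tw 20 (ESH.tw (c + 12) s) = ESH.tw (20 + (c + 12)) s := ESH.tw_comp _ _ _
    have h9 : 20 + (c + 12) = c + 32 := by omega
    rw [h9] at h8
    rw [← h8]
    exact ESH.tw_mono le_rfl h4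
  have h8 : (3 : ℕ) ≤ ESH.tw (c + 32) s := le_trans (by omega) (ESH.le_tw (c + 32) s)
  have h9 := ESH.tw_mul hs (hxf.trans h8) h7
  exact h9.trans (ESH.tw_mono (by omega) le_rfl)

end Pool.Agent.T1
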