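import Pool.Agent.T1.AWB
import Pool.Agent.T1.AWD

/-!
# T1 / HHS: smooth webs satisfy (H1) and (H2)

Proof.  (H2): if `adjugate (aw M s t) = 0` with `s, t ≠ 0` then the determinant vanishes (`A * adjugate A = det A • 1`, so
`det A • 1 = 0`) and all derivatives vanish by `pd_l`, `pd_r`.
(H1): suppose `(aw M s t).det = 0` for all `t`, `s ≠ 0`.  Let `L i t := eval (pt s t) (pderiv (inl i) (dW M))`.  All derivatives with
respect to `t_j` vanish at all `(s, t)`: `(aw M s (t + x e_j)).det` is a polynomial in `x` with value `0` for all `x`, its coefficient of `x` is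
`pd_r` (or: the polynomial `eval₂ ... (dW M)` in the variables `t` is zero as all its values are zero, `k` infinite, so its
`pderiv` is zero; alternatively use `pd_r` and the expansion of `det (A + x B)` for `3 × 3` matrices, which has no terms beyond `x³`, at the values
`x = 1, -1, ..`; any method).  Euler: `s 0 * L 0 t + s 1 * L 1 t = 3 * det = 0` (`pd_l`, linearity, `adjugate A * A = det A • 1`, trace).  So if `s 0 ≠ 0` then
`L 0 t = - (s 1 / s 0) * L 1 t`, and it suffices to find `t ≠ 0` with `L 1 t = 0`; similarly if `s 1 ≠ 0`.  `L i t` is a homogeneous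
polynomial in `t` of degree 3 (`(aw M s t).adjugate` quadratic, `aw M e_i t` linear in `t`): `L i (1, x)` is a polynomial in `x` of degree `≤ 3` with
coefficient of `x³` equal to `L i (0, 1)`.  If `L i (0, 1) = 0` take `t = (0, 1)`; otherwise the polynomial has degree 3 and a root
(`IsAlgClosed.exists_root`).
-/

namespace Pool.Agent.T1

open MvPolynomial Matrix

private theorem hhs_det {k : Type*} [CommRing k] (A B : Matrix (Fin 3) (Fin 3) k) (x : k) :
    (A + x • B).det = A.det + x * (A.adjugate * B).trace + x ^ 2 * (B.adjugate * A).trace +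
      x ^ 3 * B.det := by
  rw [det_fin_three, det_fin_three, det_fin_three, trace_fin_three, trace_fin_three,
    adjugate_fin_three, adjugate_fin_three]
  simp [Matrix.mul_apply, Fin.sum_univ_three]
  ring

private theorem hhs_adj {k : Type*} [CommRing k] (A B : Matrix (Fin 3) (Fin 3) k) (x : k) :
    (A + x • B).adjugate = A.adjugate + x • ((A + B).adjugate - A.adjugate - B.adjugate) +
      x ^ 2 • B.adjugate := by
  rw [adjugate_fin_three, adjugate_fin_three, adjugate_fin_three, adjugate_fin_three]
  ext i j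
  fin_cases i <;> fin_cases j <;> simp <;> ring

private theorem hhs_root {k : Type*} [Field k] [IsAlgClosed k] (A0 A1 B0 B1 : Matrix (Fin 3) (Fin 3) k) :
    ∃ t : Fin 2 → k, t ≠ 0 ∧
      ((t 0 • A0 + t 1 • A1).adjugate * (t 0 • B0 + t 1 • B1)).trace = 0 := by
  by_cases h3 : (A1.adjugate * B1).trace = 0
  · refine ⟨![0, 1], ?_, ?_⟩
    · intro h
      exact one_ne_zero (congrFun h 1)
    · simpa using h3
  · obtain ⟨m, hm⟩ : ∃ m, m = (A0 + A1).adjugate - A0.adjugate - A1.adjugate := ⟨_, rfl⟩
    obtain ⟨x, hx⟩ := IsAlgClosed.exists_root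
      (Polynomial.C (A1.adjugate * B1).trace * Polynomial.X ^ 3 +
        Polynomial.C ((m * B1).trace + (A1.adjugate * B0).trace) * Polynomial.X ^ 2 +
        Polynomial.C ((A0.adjugate * B1).trace + (m * B0).trace) * Polynomial.X +
        Polynomial.C (A0.adjugate * B0).trace) (by
          rw [Polynomial.degree_cubic h3]
          norm_num)
    refine ⟨![1, x], ?_, ?_⟩
    · intro h
      exact one_ne_zero (congrFun h 0)
    · have h4 : (![1, x] : Fin 2 → k) 0 = 1 := rfl
      have h5 : (![1, x] : Fin 2 → k) 1 = x := rfl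
      rw [h4, h5, one_smul, one_smul, hhs_adj, ← hm]
      rw [Polynomial.IsRoot.def] at hx
      simp only [Polynomial.eval_add, Polynomial.eval_mul, Polynomial.eval_C, Polynomial.eval_pow,
        Polynomial.eval_X] at hx
      simp only [Matrix.add_mul, Matrix.mul_add, Matrix.smul_mul, Matrix.mul_smul, trace_add,
        trace_smul, smul_eq_mul]
      linear_combination hx

private theorem hhs_coef {k : Type*} [Field k] [IsAlgClosed k] (A B : Matrix (Fin 3) (Fin 3) k)
    (h : ∀ x : k, (A + x • B).det = 0) : (A.adjugate * B).trace = 0 := by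
  have h1 : (Polynomial.C B.det * Polynomial.X ^ 3 +
      Polynomial.C (B.adjugate * A).trace * Polynomial.X ^ 2 +
      Polynomial.C (A.adjugate * B).trace * Polynomial.X + Polynomial.C A.det : Polynomial k) = 0 := by
    refine Polynomial.funext fun x => ?_
    have h2 := h x
    rw [hhs_det] at h2
    simp only [Polynomial.eval_add, Polynomial.eval_mul, Polynomial.eval_C, Polynomial.eval_pow,
      Polynomial.eval_X, Polynomial.eval_zero]
    linear_combination h2
  have h3 := congrArg (fun p => Polynomial.coeff p 1) h1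
  simpa [Polynomial.coeff_X, Polynomial.coeff_C] using h3

private theorem hhs_sum {k : Type*} [Field k] (M : Web k) (s t : Fin 2 → k) :
    aw M s t = t 0 • aw M s (Pi.single 0 1) + t 1 • aw M s (Pi.single 1 1) := by
  rw [← aw_smul_r, ← aw_smul_r, ← aw_add_r]
  congr 1
  funext i
  fin_cases i <;> simp

private theorem hhs_sum' {k : Type*} [Field k] (M : Web k) (s t : Fin 2 → k) :
    aw M s t = s 0 • aw M (Pi.single 0 1) t + s 1 • aw M (Pi.single 1 1) t := by
  rw [← aw_smul_l, ← aw_smul_l, ← aw_add_l]
  congr 1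
  funext i
  fin_cases i <;> simp

private theorem hhs_H2 {k : Type*} [Field k] (M : Web k) (hM : Smo (dW M)) : H2 M := by
  intro s t hs ht h0
  have h1 : (aw M s t).det = 0 := by
    have h2 := mul_adjugate (aw M s t)
    rw [h0, Matrix.mul_zero] at h2
    have h3 := congrFun (congrFun h2 0) 0
    simpa using h3.symm
  obtain ⟨i, hi⟩ := hM s t hs ht (by rw [eval_dW, h1])
  apply hi
  rcases i with i | j
  · rw [pd_l, h0, Matrix.zero_mul, trace_zero]
  · rw [pd_r, h0, Matrix.zero_mul, trace_zero]

theorem hhs {k : Type*} [Field k] [IsAlgClosed k] (M : Web k) (hM : Smo (dW M)) : H1 M ∧ H2 M := by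
  refine ⟨?_, hhs_H2 M hM⟩
  intro s hs
  by_contra hcon
  push Not at hcon
  have hr : ∀ (t : Fin 2 → k) (j : Fin 2), eval (pt s t) (pderiv (Sum.inr j) (dW M)) = 0 := by
    intro t j
    rw [pd_r]
    refine hhs_coef _ _ fun x => ?_
    rw [← aw_smul_r, ← aw_add_r]
    exact hcon _
  have heul : ∀ t : Fin 2 → k, s 0 * ((aw M s t).adjugate * aw M (Pi.single 0 1) t).trace +
      s 1 * ((aw M s t).adjugate * aw M (Pi.single 1 1) t).trace = 0 := by
    intro t
    have h1 : ((aw M s t).adjugate * aw M s t).trace = 0 := by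
      rw [adjugate_mul, hcon t, zero_smul, trace_zero]
    nth_rewrite 2 [hhs_sum' M s t] at h1
    rw [Matrix.mul_add, Matrix.mul_smul, Matrix.mul_smul, trace_add, trace_smul, trace_smul,
      smul_eq_mul, smul_eq_mul] at h1
    exact h1
  have hroot : ∀ i : Fin 2, ∃ t : Fin 2 → k, t ≠ 0 ∧
      ((aw M s t).adjugate * aw M (Pi.single i 1) t).trace = 0 := by
    intro i
    obtain ⟨t, ht, h1⟩ := hhs_root (aw M s (Pi.single 0 1)) (aw M s (Pi.single 1 1))
      (aw M (Pi.single i 1) (Pi.single 0 1)) (aw M (Pi.single i 1) (Pi.single 1 1))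
    rw [← hhs_sum, ← hhs_sum] at h1
    exact ⟨t, ht, h1⟩
  obtain ⟨t, ht, h0, h1⟩ : ∃ t : Fin 2 → k, t ≠ 0 ∧
      ((aw M s t).adjugate * aw M (Pi.single 0 1) t).trace = 0 ∧
      ((aw M s t).adjugate * aw M (Pi.single 1 1) t).trace = 0 := by
    by_cases hs0 : s 0 = 0
    · have hs1 : s 1 ≠ 0 := by
        intro h
        apply hs
        funext i
        fin_cases i
        · exact hs0
        · exact h
      obtain ⟨t, ht, h1⟩ := hroot 0
      refine ⟨t, ht, h1, ?_⟩
      have h2 := heul t
      rw [h1, mul_zero, zero_add] at h2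
      exact (mul_eq_zero.1 h2).resolve_left hs1
    · obtain ⟨t, ht, h1⟩ := hroot 1
      refine ⟨t, ht, ?_, h1⟩
      have h2 := heul t
      rw [h1, mul_zero, add_zero] at h2
      exact (mul_eq_zero.1 h2).resolve_left hs0
  obtain ⟨i, hi⟩ := hM s t hs ht (by rw [eval_dW]; exact hcon t)
  apply hi
  rcases i with i | j
  · rw [pd_l]
    fin_cases i
    · exact h0
    · exact h1
  · exact hr t j

end Pool.Agent.T1
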