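import Pool.Agent.T1.Defs
import Pool.Agent.ESH.Defs2
import Pool.Agent.ESH.TWA

/-!
# T1: definitions, part 2
-/

namespace Pool.Agent.T1

open MvPolynomial Matrix
open Pool.Agent.PQ (P3 NS SF sb ND RB)

section

variable {R : Type*} [CommRing R]

/-- rigid webs: `M(1, 0; t) = diag (t₁ - a i t₀)` -/
structure Rig (a : Fin 3 → R) (M : Web R) : Prop where
  sy : Sy M
  one : M 0 1 = 1
  dia : M 0 0 = - diagonal a

/-- the form `D` restricted to `s = (1, 0)` is `∏ (t₁ - a i t₀)` -/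
def At (D : P4 R) (a : Fin 3 → R) : Prop :=
  eval₂ C (Sum.elim ![1, 0] X) D = ∏ i, (X 1 - C (a i) * X 0 : MvPolynomial (Fin 2) R)

/-- action of a `4 × 4` matrix on webs: `M ↦ M ∘ O`, `M` viewed as a linear map on `V₄` -/
def ow (O : Matrix (Fin 2 × Fin 2) (Fin 2 × Fin 2) R) (M : Web R) : Web R :=
  fun i j => ∑ kl : Fin 2 × Fin 2, O kl (i, j) • M kl.1 kl.2

/-- action of a `4 × 4` matrix on `V₄` -/
def ov (O : Matrix (Fin 2 × Fin 2) (Fin 2 × Fin 2) R) (x : Matrix (Fin 2) (Fin 2) R) :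
    Matrix (Fin 2) (Fin 2) R :=
  Matrix.of fun k l => ∑ ij : Fin 2 × Fin 2, O (k, l) ij * x ij.1 ij.2

/-- similitudes of the quadratic form `det` on `V₄` with factor `c` -/
def Sim (O : Matrix (Fin 2 × Fin 2) (Fin 2 × Fin 2) R) (c : R) : Prop :=
  ∀ x, (ov O x).det = c * x.det

/-- cubic forms on `V₄` as forms of bidegree `(3, 3)` -/
noncomputable def dF : MvPolynomial (Fin 2 × Fin 2) R →ₐ[R] P4 R :=
  aeval fun ij => X (Sum.inl ij.1) * X (Sum.inr ij.2)

/-- substitution of a `4 × 4` matrix in polynomials on `V₄`: `F ↦ F ∘ O` -/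
noncomputable def oF (O : Matrix (Fin 2 × Fin 2) (Fin 2 × Fin 2) R) :
    MvPolynomial (Fin 2 × Fin 2) R →ₐ[R] MvPolynomial (Fin 2 × Fin 2) R :=
  aeval fun kl => ∑ ij : Fin 2 × Fin 2, C (O kl ij) * X ij

end

/-- bounded algebraic numbers: roots of integral polynomials of degree and coefficients at most `tw c s` -/
def Bd {C : Type*} [Field C] (c s : ℕ) (z : C) : Prop :=
  ∃ P : Polynomial ℤ, P ≠ 0 ∧ P.natDegree ≤ ESH.tw c s ∧ (∀ j, |P.coeff j| ≤ (ESH.tw c s : ℤ)) ∧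
    Polynomial.aeval z P = 0

/-- webs whose plane quartics have bounded Riemann parameters -/
def GB {C : Type*} [Field C] (c s : ℕ) (M : Web C) : Prop :=
  ∀ (h : Matrix (Fin 3) (Fin 3) C) (c0 : C) (b : Fin 4 → Fin 3 → C), h.det ≠ 0 → c0 ≠ 0 → ND b →
    sb h (qt M) = MvPolynomial.C c0 * RB b → ∀ i r, Bd c s (b i r)

end Pool.Agent.T1
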