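import Pool.Agent.T1.ENA
import Pool.Agent.T1.Defs2

/-!
# T1 / ORT: orthonormal bases of `V₄`

`B4`: the form `bf` as a bilinear form.  `ort5`: orthonormal vectors are linearly independent, the dimension is 4.  `ort_ext`: a family of `n ≤ 4` orthonormal vectors can be extended to 4 orthonormal vectors: if `n < 4` the vectors orthogonal to all `f i` form a space of dimension
`≥ 1` (in fact `4 - n`), the form is non-degenerate on it (`x` orthogonal to it and in it: `V₄ = span f ⊕ fᗮ`, `bf_nondeg`), so there is a vector `x` in it with `bf x x ≠ 0` (otherwise polarisation gives `bf = 0` on it); divide by a square root.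
`ort_iso`: standard orthonormal basis (`I² = -1`): `n₀ = !![1,0;0,1/2]`, `n₁ = !![I,0;0,-I/2]`, `n₂ = !![0,1;-1/2,0]`, `n₃ = !![0,I;I/2,0]` (`bf n n = 2 det n = 1`).  The linear map `x ↦ ∑ i, bf x (f i) • n i` is an isometry (`x = ∑ i, bf x (f i) • f i`);
its matrix is `O (k, l) (i, j) = ∑ r, bf (single i j 1) (f r) * n r k l` (`ov`), `Sim O 1` (`bf_self`).
-/

namespace Pool.Agent.T1

open MvPolynomial Matrix

section

variable {k : Type*} [Field k]

/-- the form `bf` as a bilinear form -/
def B4 : LinearMap.BilinForm k (Matrix (Fin 2) (Fin 2) k) :=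
  LinearMap.mk₂ k bf (fun x y z => by simp only [bf, Matrix.add_apply]; ring)
    (fun c x y => by simp only [bf, Matrix.smul_apply, smul_eq_mul]; ring)
    (fun x y z => by simp only [bf, Matrix.add_apply]; ring)
    (fun c x y => by simp only [bf, Matrix.smul_apply, smul_eq_mul]; ring)

theorem B4_apply (x y : Matrix (Fin 2) (Fin 2) k) : B4 x y = bf x y := rfl

private theorem ORT_add_right (x y y' : Matrix (Fin 2) (Fin 2) k) :
    bf x (y + y') = bf x y + bf x y' := by
  simp only [bf, Matrix.add_apply]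
  ring

private theorem ORT_smul_right (c : k) (x y : Matrix (Fin 2) (Fin 2) k) :
    bf x (c • y) = c * bf x y := by
  simp only [bf, Matrix.smul_apply, smul_eq_mul]
  ring

private theorem ORT_sum_right {ι : Type*} (s : Finset ι) (x : Matrix (Fin 2) (Fin 2) k)
    (y : ι → Matrix (Fin 2) (Fin 2) k) : bf x (∑ i ∈ s, y i) = ∑ i ∈ s, bf x (y i) := by
  rw [bf_symm, bf_sum_left]
  exact Finset.sum_congr rfl fun i _ => bf_symm _ _

private theorem ORT_li {n : ℕ} (f : Fin n → Matrix (Fin 2) (Fin 2) k)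
    (hf : ∀ i j, bf (f i) (f j) = if i = j then 1 else 0) : LinearIndependent k f := by
  rw [Fintype.linearIndependent_iff]
  intro g hg j
  have h : bf (∑ i, g i • f i) (f j) = 0 := by
    rw [hg]
    simp [bf]
  rw [bf_sum_left] at h
  simpa [bf_smul_left, hf] using h

private theorem ORT_fr : Module.finrank k (Matrix (Fin 2) (Fin 2) k) = 4 := by
  rw [Module.finrank_matrix]
  simp

private theorem ORT_proj {n : ℕ} (f : Fin n → Matrix (Fin 2) (Fin 2) k)
    (hf : ∀ i j, bf (f i) (f j) = if i = j then 1 else 0) (z : Matrix (Fin 2) (Fin 2) k)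
    (j : Fin n) : bf (z - ∑ i, bf z (f i) • f i) (f j) = 0 := by
  have e : z - ∑ i, bf z (f i) • f i = z + (-1 : k) • ∑ i, bf z (f i) • f i := by
    rw [neg_one_smul, sub_eq_add_neg]
  rw [e, bf_add_left, bf_smul_left, bf_sum_left]
  simp [bf_smul_left, hf]

private theorem ORT_step [CharZero k] [IsAlgClosed k] {n : ℕ} (hn : n < 4)
    (f : Fin n → Matrix (Fin 2) (Fin 2) k)
    (hf : ∀ i j, bf (f i) (f j) = if i = j then 1 else 0) :
    ∃ x, (∀ i, bf x (f i) = 0) ∧ bf x x = 1 := by
  let φ : Matrix (Fin 2) (Fin 2) k →ₗ[k] (Fin n → k) :=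
    LinearMap.pi fun i => (B4 (k := k)).flip (f i)
  have hφ : ∀ x i, φ x i = bf x (f i) := fun x i => rfl
  have hker : LinearMap.ker φ ≠ ⊥ := by
    apply LinearMap.ker_ne_bot_of_finrank_lt
    rw [ORT_fr, Module.finrank_fin_fun]
    exact hn
  obtain ⟨x, hx, hx0⟩ := (Submodule.ne_bot_iff _).mp hker
  have hW : ∀ z, z ∈ LinearMap.ker φ ↔ ∀ i, bf z (f i) = 0 := by
    intro z
    rw [LinearMap.mem_ker]
    constructor
    · intro h i
      rw [← hφ, h]
      rfl
    · intro h
      funext i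
      exact h i
  have hne : ∃ x ∈ LinearMap.ker φ, bf x x ≠ 0 := by
    by_contra hcon
    push Not at hcon
    apply hx0
    apply bf_nondeg
    intro z
    have hz : z - ∑ i, bf z (f i) • f i ∈ LinearMap.ker φ := (hW _).mpr (ORT_proj f hf z)
    have h1 := hcon x hx
    have h2 := hcon _ hz
    have h3 := hcon _ (Submodule.add_mem _ hx hz)
    rw [bf_add_left, ORT_add_right, ORT_add_right, h1, h2,
      bf_symm (z - ∑ i, bf z (f i) • f i) x] at h3
    have h4 : bf x (z - ∑ i, bf z (f i) • f i) = 0 := by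
      have : (2 : k) * bf x (z - ∑ i, bf z (f i) • f i) = 0 := by linear_combination h3
      exact (mul_eq_zero.mp this).resolve_left two_ne_zero
    have h5 : bf x z = bf x (z - ∑ i, bf z (f i) • f i) + bf x (∑ i, bf z (f i) • f i) := by
      rw [← ORT_add_right, sub_add_cancel]
    rw [h5, h4, zero_add, ORT_sum_right]
    refine Finset.sum_eq_zero fun i _ => ?_
    rw [ORT_smul_right, (hW x).mp hx i, mul_zero]
  obtain ⟨y, hy, hy0⟩ := hne
  obtain ⟨c, hc⟩ := IsAlgClosed.exists_pow_nat_eq (bf y y)⁻¹ (n := 2) (by norm_num)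
  refine ⟨c • y, fun i => ?_, ?_⟩
  · rw [bf_smul_left, (hW y).mp hy i, mul_zero]
  · rw [bf_smul_left, ORT_smul_right, ← mul_assoc, ← pow_two, hc, inv_mul_cancel₀ hy0]

private theorem ORT_ext [CharZero k] [IsAlgClosed k] : ∀ (m n : ℕ) (hnm : n + m = 4)
    (f : Fin n → Matrix (Fin 2) (Fin 2) k)
    (_ : ∀ i j, bf (f i) (f j) = if i = j then 1 else 0),
    ∃ g : Fin 4 → Matrix (Fin 2) (Fin 2) k, (∀ i j, bf (g i) (g j) = if i = j then 1 else 0) ∧
      ∀ i : Fin n, g (Fin.castLE (by omega) i) = f i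
  | 0, n, hnm, f, hf => by
    have hn : n = 4 := by omega
    subst hn
    exact ⟨f, hf, fun i => rfl⟩
  | m + 1, n, hnm, f, hf => by
    obtain ⟨x, hx, hxx⟩ := ORT_step (by omega) f hf
    obtain ⟨g, hg, hgf⟩ := ORT_ext m (n + 1) (by omega) (Fin.snoc f x : Fin (n + 1) → _) (by
      intro i j
      refine Fin.lastCases ?_ (fun i => ?_) i
      · refine Fin.lastCases ?_ (fun j => ?_) j
        · simp [hxx]
        · simp only [Fin.snoc_last, Fin.snoc_castSucc, hx j]
          rw [if_neg]
          exact (Fin.castSucc_lt_last j).ne'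
      · refine Fin.lastCases ?_ (fun j => ?_) j
        · simp only [Fin.snoc_last, Fin.snoc_castSucc]
          rw [bf_symm, hx i, if_neg]
          exact (Fin.castSucc_lt_last i).ne
        · simp only [Fin.snoc_castSucc, hf i j, Fin.castSucc_inj])
    refine ⟨g, hg, fun i => ?_⟩
    have h := hgf (Fin.castSucc i)
    rw [Fin.snoc_castSucc] at h
    exact h

theorem ort5 (f : Fin 5 → Matrix (Fin 2) (Fin 2) k) :
    ¬ ∀ i j, B4 (f i) (f j) = if i = j then 1 else 0 := by
  intro h
  have hli := ORT_li f h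
  have hc := hli.fintype_card_le_finrank
  rw [ORT_fr, Fintype.card_fin] at hc
  omega

theorem ort_ext [CharZero k] [IsAlgClosed k] {n : ℕ} (hn : n ≤ 4) (f : Fin n → Matrix (Fin 2) (Fin 2) k)
    (hf : ∀ i j, bf (f i) (f j) = if i = j then 1 else 0) :
    ∃ g : Fin 4 → Matrix (Fin 2) (Fin 2) k, (∀ i j, bf (g i) (g j) = if i = j then 1 else 0) ∧
      ∀ i : Fin n, g (Fin.castLE hn i) = f i :=
  ORT_ext (4 - n) n (by omega) f hf

/-- the standard orthonormal basis -/
def nb (I : k) : Fin 4 → Matrix (Fin 2) (Fin 2) k :=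
  ![!![1, 0; 0, 1 / 2], !![I, 0; 0, -I / 2], !![0, 1; -1 / 2, 0], !![0, I; I / 2, 0]]

theorem ort_iso [CharZero k] (I : k) (hI : I ^ 2 = -1) (f : Fin 4 → Matrix (Fin 2) (Fin 2) k)
    (hf : ∀ i j, bf (f i) (f j) = if i = j then 1 else 0) :
    ∃ O : Matrix (Fin 2 × Fin 2) (Fin 2 × Fin 2) k, Sim O 1 ∧ ∀ x, ov O x = ∑ i, bf x (f i) • nb I i := by
  have hI' : I * I = -1 := by rw [← pow_two, hI]
  have hnb : ∀ i j, bf (nb I i) (nb I j) = if i = j then 1 else 0 := by
    intro i j
    fin_cases i <;> fin_cases j <;> simp [nb, bf] <;> first | ring1 | linear_combination -hI'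
  set O : Matrix (Fin 2 × Fin 2) (Fin 2 × Fin 2) k :=
    Matrix.of fun kl ij => ∑ r, bf (Matrix.single ij.1 ij.2 (1 : k)) (f r) * nb I r kl.1 kl.2 with hO
  have hov : ∀ x, ov O x = ∑ i, bf x (f i) • nb I i := by
    intro x
    ext a b
    simp only [ov, hO, Matrix.of_apply, Matrix.sum_apply, Matrix.smul_apply, smul_eq_mul]
    have e : ∀ r, bf x (f r) = ∑ ij : Fin 2 × Fin 2,
        bf (Matrix.single ij.1 ij.2 (1 : k)) (f r) * x ij.1 ij.2 := by
      intro r
      simp [bf, Fintype.sum_prod_type, Fin.sum_univ_two, Matrix.single]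
      ring
    simp only [e, Finset.sum_mul]
    rw [Finset.sum_comm]
    refine Finset.sum_congr rfl fun r _ => Finset.sum_congr rfl fun ij _ => ?_
    ring
  refine ⟨O, ?_, hov⟩
  intro x
  have hli := ORT_li f hf
  have hspan : Submodule.span k (Set.range f) = ⊤ :=
    hli.span_eq_top_of_card_eq_finrank' (by rw [ORT_fr, Fintype.card_fin])
  have hx : x = ∑ i, bf x (f i) • f i := by
    rw [← sub_eq_zero]
    apply bf_nondeg
    intro y
    have hy : y ∈ Submodule.span k (Set.range f) := by rw [hspan]; trivial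
    induction hy using Submodule.span_induction with
    | mem z hz =>
      obtain ⟨j, rfl⟩ := hz
      exact ORT_proj f hf x j
    | zero => simp [bf]
    | add u v _ _ hu hv => rw [ORT_add_right, hu, hv, add_zero]
    | smul c u _ hu => rw [ORT_smul_right, hu, mul_zero]
  have h1 : bf x x = ∑ i, bf x (f i) * bf x (f i) := by
    conv_lhs => rw [hx, bf_sum_left]
    refine Finset.sum_congr rfl fun i _ => ?_
    rw [bf_smul_left, ← hx, bf_symm (f i) x]
  have h2 : bf (ov O x) (ov O x) = ∑ i, bf x (f i) * bf x (f i) := by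
    rw [hov, bf_sum_left]
    refine Finset.sum_congr rfl fun i _ => ?_
    rw [bf_smul_left, ORT_sum_right]
    congr 1
    simp [ORT_smul_right, hnb]
  have h3 : (2 : k) * (ov O x).det = 2 * x.det := by
    rw [← bf_self, ← bf_self, h1, h2]
  rw [one_mul]
  exact mul_left_cancel₀ two_ne_zero h3

end

end Pool.Agent.T1
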