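import Pool.Agent.T1.HHS

/-!
# T1 / SMQ: the plane quartic of a smooth web is smooth

`eval y (qt M) = det (mv M y y) = N 0 0 * N 1 1 - N 0 1 * N 1 0`, `N i j = y ⬝ᵥ (M i j *ᵥ y)`.
The derivative in the direction `z` (sum over `i` of `z i * eval y (pderiv i (qt M))`) is
`2 * bf (mv M y y) (mv M y z)` (`M i j` symmetric).
Suppose `y ≠ 0` is a singular point; put `N = mv M y y`; `det N = 0`, `bf N (mv M y z) = 0` for all `z` (`2 ≠ 0`).
Case `N ≠ 0` (rank 1): put `W = !![N 1 1, -N 1 0; -N 0 1, N 0 0]`, `W i₀ j₀ ≠ 0`, `s i = W i j₀`, `t j = W i₀ j`.  Then `s`, `t` are in the left and right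
kernels of `N` and `W i₀ j₀ * bf N Z = ∑ i, ∑ j, s i * t j * Z i j`.  So for all `z`
`0 = ∑ s i * t j * (y ⬝ᵥ M i j *ᵥ z) = (aw M s t *ᵥ y) ⬝ᵥ z`, so `aw M s t *ᵥ y = 0`.  Then `A := (aw M s t).adjugate` satisfies
`A = r • vecMulVec y y` (A is symmetric and its columns are multiples of `y`).
By `pd_l` the derivative is `trace (A * aw M e_i t) = r * (y ⬝ᵥ aw M e_i t *ᵥ y) = r * ∑ j, t j * N i j = 0`, and `pd_r`
similarly gives `r * ∑ i, s i * N i j = 0`: `(s, t)` is a singular point of `dW M`.  Contradiction.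
Case `N = 0`: `y ⬝ᵥ M i j *ᵥ y = 0` for all `i, j`.  Let `y c ≠ 0`.  The two forms `(aw M s t *ᵥ y) (c + 1)`, `(aw M s t *ᵥ y) (c + 2)` of bidegree `(1, 1)`
have a common zero `s, t ≠ 0`: the determinant of the matrix
of the coefficients of `t` is a quadratic form in `s`, which has a zero `s ≠ 0`, and then there is `t ≠ 0` in the kernel.
At this point `aw M s t *ᵥ y` is orthogonal to `y`, so it is `0`, and the end of the first case applies.
-/

namespace Pool.Agent.T1

open MvPolynomial Matrix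
open Pool.Agent.PQ (P3 NS)

private theorem SMQ_eval_qf {R : Type*} [CommRing R] (A : Matrix (Fin 3) (Fin 3) R) (y : Fin 3 → R) :
    eval y (qf A) = y ⬝ᵥ (A *ᵥ y) := by
  unfold qf
  simp only [map_sum, map_mul, eval_C, eval_X, dotProduct, mulVec, Finset.mul_sum]
  refine Finset.sum_congr rfl fun a _ => Finset.sum_congr rfl fun b _ => ?_
  ring

private theorem SMQ_hom_qf {R : Type*} [CommRing R] (A : Matrix (Fin 3) (Fin 3) R) :
    (qf A).IsHomogeneous 2 := by
  unfold qf
  refine IsHomogeneous.sum _ _ _ fun a _ => IsHomogeneous.sum _ _ _ fun b _ => ?_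
  have h := ((isHomogeneous_C (Fin 3) (A a b)).mul (isHomogeneous_X R a)).mul (isHomogeneous_X R b)
  simpa using h

private theorem SMQ_pd_qf {R : Type*} [CommRing R] (A : Matrix (Fin 3) (Fin 3) R) (hA : Aᵀ = A)
    (y z : Fin 3 → R) :
    ∑ i, z i * eval y (pderiv i (qf A)) = 2 * (y ⬝ᵥ (A *ᵥ z)) := by
  have h : ∀ a b, A a b = A b a := fun a b => congrFun (congrFun hA b) a
  have e : ∀ i, eval y (pderiv i (qf A)) = ∑ a, ∑ b, A a b * ((if a = i then y b else 0) +
      (if b = i then y a else 0)) := by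
    intro i
    unfold qf
    simp only [map_sum]
    refine Finset.sum_congr rfl fun a _ => Finset.sum_congr rfl fun b _ => ?_
    rw [mul_assoc, pderiv_C_mul, pderiv_mul, pderiv_X, pderiv_X]
    simp only [map_mul, map_add, eval_X, Pi.single_apply]
    by_cases h1 : a = i <;> by_cases h2 : b = i <;> simp [h1, h2]
  simp only [e]
  simp only [Fin.sum_univ_three, dotProduct, mulVec]
  simp
  rw [h 1 0, h 2 0, h 2 1]
  ring

/-- value of the quartic -/
theorem eval_qt {R : Type*} [CommRing R] (M : Web R) (y : Fin 3 → R) :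
    eval y (qt M) = (mv M y y).det := by
  unfold qt mv
  rw [det_fin_two]
  simp [SMQ_eval_qf]

/-- the quartic is a form of degree 4 -/
theorem qt_hom {R : Type*} [CommRing R] (M : Web R) : (qt M).IsHomogeneous 4 := by
  unfold qt
  exact ((SMQ_hom_qf _).mul (SMQ_hom_qf _)).sub ((SMQ_hom_qf _).mul (SMQ_hom_qf _))

/-- derivative of the quartic -/
theorem pd_qt {R : Type*} [CommRing R] (M : Web R) (hs : Sy M) (y z : Fin 3 → R) :
    ∑ i, z i * eval y (pderiv i (qt M)) = 2 * bf (mv M y y) (mv M y z) := by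
  have e : ∀ i, z i * eval y (pderiv i (qt M)) =
      (z i * eval y (pderiv i (qf (M 0 0)))) * eval y (qf (M 1 1)) +
      (z i * eval y (pderiv i (qf (M 1 1)))) * eval y (qf (M 0 0)) -
      (z i * eval y (pderiv i (qf (M 0 1)))) * eval y (qf (M 1 0)) -
      (z i * eval y (pderiv i (qf (M 1 0)))) * eval y (qf (M 0 1)) := by
    intro i
    unfold qt
    rw [map_sub, pderiv_mul, pderiv_mul]
    simp only [map_mul, map_add, map_sub]
    ring
  simp only [e]
  rw [Finset.sum_sub_distrib, Finset.sum_sub_distrib, Finset.sum_add_distrib, ← Finset.sum_mul,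
    ← Finset.sum_mul, ← Finset.sum_mul, ← Finset.sum_mul, SMQ_pd_qf _ (hs 0 0), SMQ_pd_qf _ (hs 1 1),
    SMQ_pd_qf _ (hs 0 1), SMQ_pd_qf _ (hs 1 0)]
  simp only [SMQ_eval_qf, bf, mv, Matrix.of_apply]
  ring

private theorem SMQ_key {R : Type*} [CommRing R] (B : Matrix (Fin 3) (Fin 3) R) (y : Fin 3 → R)
    (a b : Fin 3) :
    B.adjugate a b * y (a + 1) - B.adjugate (a + 1) b * y a =
      B (b + 2) (a + 2) * (B *ᵥ y) (b + 1) - B (b + 1) (a + 2) * (B *ᵥ y) (b + 2) := by
  fin_cases a <;> fin_cases b <;>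
    simp [Matrix.adjugate_fin_three, Matrix.mulVec, dotProduct, Fin.sum_univ_three] <;> ring

private theorem SMQ_adj {k : Type*} [Field k] (B : Matrix (Fin 3) (Fin 3) k) (hB : Bᵀ = B)
    (y : Fin 3 → k) (hy : y ≠ 0) (h : B *ᵥ y = 0) :
    ∃ r : k, B.adjugate = r • vecMulVec y y := by
  have h1 : ∀ a b : Fin 3, B.adjugate a b * y (a + 1) = B.adjugate (a + 1) b * y a := by
    intro a b
    have := SMQ_key B y a b
    rw [h] at this
    simpa [sub_eq_zero] using this
  have h2 : ∀ a b c : Fin 3, B.adjugate a b * y c = B.adjugate c b * y a := by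
    intro a b c
    have e0 := h1 0 b
    have e1 := h1 1 b
    have e2 := h1 2 b
    fin_cases a <;> fin_cases c <;> simp at e0 e1 e2 ⊢ <;> (first | exact e0 | exact e1 | exact e2 | exact e0.symm | exact e1.symm | exact e2.symm)
  have h3 : ∀ a b, B.adjugate a b = B.adjugate b a := by
    intro a b
    have : B.adjugateᵀ = B.adjugate := by rw [Matrix.adjugate_transpose, hB]
    exact congrFun (congrFun this b) a
  obtain ⟨c, hc⟩ := Function.ne_iff.mp hy
  rw [Pi.zero_apply] at hc
  refine ⟨B.adjugate c c / (y c) ^ 2, ?_⟩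
  ext a b
  rw [Matrix.smul_apply, vecMulVec_apply, smul_eq_mul, div_mul_eq_mul_div, eq_div_iff (pow_ne_zero 2 hc)]
  calc B.adjugate a b * y c ^ 2 = (B.adjugate a b * y c) * y c := by ring
    _ = (B.adjugate b c * y c) * y a := by rw [h2 a b c, h3 c b]; ring
    _ = _ := by rw [h2 b c c]; ring

private theorem SMQ_aw {R : Type*} [CommRing R] (M : Web R) (s t : Fin 2 → R) (y : Fin 3 → R) :
    aw M s t *ᵥ y = ∑ i, ∑ j, (s i * t j) • (M i j *ᵥ y) := by
  unfold aw
  simp only [Matrix.sum_mulVec, Matrix.smul_mulVec]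

private theorem SMQ_trace {R : Type*} [CommRing R] (X : Matrix (Fin 3) (Fin 3) R) (r : R)
    (y : Fin 3 → R) : ((r • vecMulVec y y) * X).trace = r * (y ⬝ᵥ (X *ᵥ y)) := by
  rw [Matrix.smul_mul, Matrix.trace_smul, smul_eq_mul, Matrix.vecMulVec_mul, Matrix.trace_vecMulVec,
    Matrix.dotProduct_mulVec, dotProduct_comm]

private theorem SMQ_end {k : Type*} [Field k] (M : Web k) (hs : Sy M) (hM : Smo (dW M))
    (s t : Fin 2 → k) (hs0 : s ≠ 0) (ht0 : t ≠ 0) (y : Fin 3 → k) (hy : y ≠ 0)
    (h : aw M s t *ᵥ y = 0) (h1 : ∀ i, ∑ j, t j * mv M y y i j = 0)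
    (h2 : ∀ j, ∑ i, s i * mv M y y i j = 0) : False := by
  have hdet : (aw M s t).det = 0 := Matrix.exists_mulVec_eq_zero_iff.mp ⟨y, hy, h⟩
  obtain ⟨r, hr⟩ := SMQ_adj _ (aw_symm hs s t) y hy h
  obtain ⟨i, hi⟩ := hM s t hs0 ht0 (by rw [eval_dW, hdet])
  rcases i with i | j
  · apply hi
    rw [pd_l, hr, SMQ_trace, SMQ_aw]
    have e : (y ⬝ᵥ ∑ i', ∑ j, ((Pi.single i 1 : Fin 2 → k) i' * t j) • M i' j *ᵥ y) =
        ∑ j, t j * mv M y y i j := by
      fin_cases i <;> simp [mv, dotProduct_add, dotProduct_smul, Fin.sum_univ_two]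
    rw [e, h1, mul_zero]
  · apply hi
    rw [pd_r, hr, SMQ_trace, SMQ_aw]
    have e : (y ⬝ᵥ ∑ i, ∑ j', (s i * (Pi.single j 1 : Fin 2 → k) j') • M i j' *ᵥ y) =
        ∑ i, s i * mv M y y i j := by
      fin_cases j <;> simp [mv, dotProduct_add, dotProduct_smul, Fin.sum_univ_two]
    rw [e, h2, mul_zero]

private theorem SMQ_det2 {k : Type*} [Field k] [IsAlgClosed k] (P Q : Matrix (Fin 2) (Fin 2) k) :
    ∃ s : Fin 2 → k, s ≠ 0 ∧ (s 0 • P + s 1 • Q).det = 0 := by
  by_cases hQ : Q.det = 0
  · exact ⟨![0, 1], fun h => one_ne_zero (congrFun h 1), by simpa using hQ⟩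
  · have hd : (Polynomial.C Q.det * Polynomial.X ^ 2 + Polynomial.C (bf P Q) * Polynomial.X +
        Polynomial.C P.det).degree ≠ 0 := by
      rw [Polynomial.degree_quadratic hQ]
      norm_num
    obtain ⟨x, hx⟩ := IsAlgClosed.exists_root _ hd
    refine ⟨![1, x], fun h => one_ne_zero (congrFun h 0), ?_⟩
    rw [← hx]
    simp only [bf, det_fin_two, Matrix.add_apply, Matrix.smul_apply, smul_eq_mul]
    simp
    ring

theorem smq {k : Type*} [Field k] [IsAlgClosed k] (h2 : (2 : k) ≠ 0) (M : Web k) (hs : Sy M)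
    (hM : Smo (dW M)) : NS (qt M) := by
  intro y hy hq
  by_contra hcon
  push Not at hcon
  have hdet : (mv M y y).det = 0 := by rw [← eval_qt, hq]
  have hbf : ∀ z, bf (mv M y y) (mv M y z) = 0 := by
    intro z
    have h := pd_qt M hs y z
    simp only [hcon, mul_zero, Finset.sum_const_zero] at h
    rcases mul_eq_zero.mp h.symm with h' | h'
    · exact absurd h' h2
    · exact h'
  have hsym : ∀ i j z, (M i j *ᵥ y) ⬝ᵥ z = mv M y z i j := by
    intro i j z
    rw [mv, Matrix.of_apply, Matrix.dotProduct_mulVec, ← Matrix.mulVec_transpose, hs i j]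
  by_cases hN : mv M y y = 0
  · obtain ⟨c, hc⟩ := Function.ne_iff.mp hy
    rw [Pi.zero_apply] at hc
    obtain ⟨s, hs0, hsd⟩ := SMQ_det2 (Matrix.of fun (a j : Fin 2) => (M 0 j *ᵥ y) (c + ![1, 2] a))
      (Matrix.of fun (a j : Fin 2) => (M 1 j *ᵥ y) (c + ![1, 2] a))
    obtain ⟨t, ht0, ht⟩ := Matrix.exists_mulVec_eq_zero_iff.mpr hsd
    have hw1 : (aw M s t *ᵥ y) (c + 1) = 0 := by
      have := congrFun ht 0
      rw [SMQ_aw]
      simp [mulVec, dotProduct, Fin.sum_univ_two] at this ⊢
      linear_combination this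
    have hw2 : (aw M s t *ᵥ y) (c + 2) = 0 := by
      have := congrFun ht 1
      rw [SMQ_aw]
      simp [mulVec, dotProduct, Fin.sum_univ_two] at this ⊢
      linear_combination this
    have hw3 : (aw M s t *ᵥ y) ⬝ᵥ y = 0 := by
      rw [SMQ_aw]
      simp only [sum_dotProduct, smul_dotProduct, hsym, hN]
      simp
    have hw : aw M s t *ᵥ y = 0 := by
      set w := aw M s t *ᵥ y with hwdef
      have e : w ⬝ᵥ y = w c * y c + w (c + 1) * y (c + 1) + w (c + 2) * y (c + 2) := by
        rw [dotProduct, Fin.sum_univ_three]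
        fin_cases c <;> simp <;> ring
      rw [e, hw1, hw2] at hw3
      have hw0 : w c = 0 := by
        simp at hw3
        tauto
      funext a
      have : a = c ∨ a = c + 1 ∨ a = c + 2 := by
        clear * -
        revert a c
        decide
      rcases this with rfl | rfl | rfl
      · exact hw0
      · exact hw1
      · exact hw2
    exact SMQ_end M hs hM s t hs0 ht0 y hy hw (by simp [hN]) (by simp [hN])
  · set N := mv M y y with hNdef
    set W : Matrix (Fin 2) (Fin 2) k := N.adjugateᵀ with hW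
    have hW0 : W ≠ 0 := by
      intro h0
      apply hN
      have e : N.adjugate = 0 := by rw [← Matrix.transpose_transpose N.adjugate, ← hW, h0]; simp
      rw [Matrix.adjugate_fin_two] at e
      ext i j
      have e00 := congrFun (congrFun e 0) 0
      have e01 := congrFun (congrFun e 0) 1
      have e10 := congrFun (congrFun e 1) 0
      have e11 := congrFun (congrFun e 1) 1
      simp at e00 e01 e10 e11
      fin_cases i <;> fin_cases j
      exacts [e11, e01, e10, e00]
    have hbfW : ∀ Z, bf N Z = ∑ i, ∑ j, W i j * Z i j := by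
      intro Z
      simp only [hW, Matrix.transpose_apply, Matrix.adjugate_fin_two, bf, Fin.sum_univ_two]
      simp
      ring
    have hex : ∃ i j, W i j ≠ 0 := by
      by_contra hall
      push Not at hall
      exact hW0 (by ext i j; exact hall i j)
    obtain ⟨i0, j0, hij⟩ := hex
    have hWd : ∀ i j, W i j0 * W i0 j = W i0 j0 * W i j := by
      have hWdet : W.det = 0 := by
        rw [hW, Matrix.det_transpose, Matrix.det_adjugate, hdet]
        simp
      rw [det_fin_two] at hWdet
      intro i j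
      fin_cases i <;> fin_cases j <;> fin_cases i0 <;> fin_cases j0 <;> simp <;>
        first | ring1 | linear_combination hWdet | linear_combination -hWdet
    have hsN : ∀ j, ∑ i, W i j0 * N i j = 0 := by
      intro j
      have h := congrFun (congrFun (Matrix.adjugate_mul N) j0) j
      rw [hdet, zero_smul, Matrix.mul_apply] at h
      simpa [hW] using h
    have htN : ∀ i, ∑ j, W i0 j * N i j = 0 := by
      intro i
      have h := congrFun (congrFun (Matrix.mul_adjugate N) i) i0
      rw [hdet, zero_smul, Matrix.mul_apply] at h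
      simp only [hW, Matrix.transpose_apply]
      rw [← Matrix.zero_apply (α := k) i i0, ← h]
      exact Finset.sum_congr rfl fun j _ => mul_comm _ _
    have hw : aw M (fun i => W i j0) (fun j => W i0 j) *ᵥ y = 0 := by
      have hz : ∀ z, (aw M (fun i => W i j0) (fun j => W i0 j) *ᵥ y) ⬝ᵥ z = 0 := by
        intro z
        rw [SMQ_aw]
        simp only [sum_dotProduct, smul_dotProduct, hsym, hWd, smul_eq_mul]
        have := hbfW (mv M y z)
        rw [hbf] at this
        simp only [mul_assoc, ← Finset.mul_sum]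
        rw [← this, mul_zero]
      exact dotProduct_eq_zero _ hz
    exact SMQ_end M hs hM _ _ (fun h0 => hij (congrFun h0 i0)) (fun h0 => hij (congrFun h0 j0)) y hy
      hw htN hsN

end Pool.Agent.T1
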