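import Pool.Agent.T1.AWB
import Pool.Agent.T1.AWD
import Pool.Agent.T1.SMQ
import Pool.Agent.T1.Defs2

/-!
# T1 / QTW: the plane quartic of a web and transformations

`qt M` is `(qf (M 0 0)) (qf (M 1 1)) - (qf (M 0 1)) (qf (M 1 0))`, `qf (hᵀ A h) = sb h (qf A)`, `qf` is additive and homogeneous in `A`.
`qt_sw`: the `2 × 2` matrix of the `qf`s is transformed into `pᵀ (..) q`.
`qt_ow`: the vector `N = (qf (M k l))` of `V₄` is transformed into `N' (i, j) = ∑ O kl (i, j) N kl`, i.e. `N' = Oᵀ N`.  The polar form `bf` has a symmetric Gram matrix `J` (`4 × 4`, entries `0, ± 1`, `J⁻¹ = J`); `Sim O c` gives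
`Oᵀ J O = c J` (polarisation: `bf (O x) (O y) = c * bf x y`; evaluate at matrix units), so `O J Oᵀ = c J` if `c` is a unit
(`Oᵀ (J O) = c J`, so `(J O)` is a left inverse up to `c J`; `O J Oᵀ = c J` by uniqueness of inverses).  So `bf (Oᵀ N) (Oᵀ N) = Nᵀ O J Oᵀ N = c * bf N N`.
`dW_ow`: `M(x) = ∑ x i j • M i j`; `dW M' = C u * dW M` means `det M'(s tᵀ) = u * det M(s tᵀ)` for all `s, t`, i.e. `det M'(x) = u * det M(x)` for all null vectors `x` (`det x = 0`, `x = s tᵀ`); `(ow O M)(x) = M(O x)` and `O x` is a null vector.  (`p4_ext`.)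
`cW M` is the cubic form `x ↦ det M(x)` on `V₄`.
-/

namespace Pool.Agent.T1

open MvPolynomial Matrix
open Pool.Agent.PQ (P3 NS SF sb)

section

variable {R S : Type*} [CommRing R] [CommRing S]

private theorem QTW_sb_X (g : Matrix (Fin 3) (Fin 3) R) (i : Fin 3) :
    sb g (X i) = ∑ j, C (g i j) * X j := by
  unfold sb
  rw [aeval_X]
  rfl

private theorem QTW_sb_C (g : Matrix (Fin 3) (Fin 3) R) (c : R) : sb g (C c) = C c := by
  unfold sb
  rw [aeval_C]
  rfl

private theorem QTW_qf_sb (h A : Matrix (Fin 3) (Fin 3) R) : qf (hᵀ * A * h) = sb h (qf A) := by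
  unfold qf
  simp only [map_sum, map_mul, QTW_sb_C, QTW_sb_X]
  simp only [Matrix.mul_apply, Fin.sum_univ_three, Matrix.transpose_apply, map_add, map_mul]
  ring

private theorem QTW_qf_add (A B : Matrix (Fin 3) (Fin 3) R) : qf (A + B) = qf A + qf B := by
  unfold qf
  simp only [Matrix.add_apply, map_add, add_mul, Finset.sum_add_distrib]

private theorem QTW_qf_smul (c : R) (A : Matrix (Fin 3) (Fin 3) R) : qf (c • A) = C c * qf A := by
  unfold qf
  simp only [Matrix.smul_apply, smul_eq_mul, map_mul, Finset.mul_sum, mul_assoc]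

private theorem QTW_qf_sum {ι : Type*} (s : Finset ι) (f : ι → Matrix (Fin 3) (Fin 3) R) :
    qf (∑ i ∈ s, f i) = ∑ i ∈ s, qf (f i) := by
  classical
  induction s using Finset.induction_on with
  | empty => simp [qf]
  | insert a s ha ih => rw [Finset.sum_insert ha, Finset.sum_insert ha, QTW_qf_add, ih]

theorem qt_gw (h : Matrix (Fin 3) (Fin 3) R) (M : Web R) : qt (gw h M) = sb h (qt M) := by
  unfold qt
  simp only [gw, QTW_qf_sb, map_sub, map_mul]

theorem qt_smul (c : R) (M : Web R) : qt (c • M) = C (c ^ 2) * qt M := by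
  unfold qt
  simp only [Pi.smul_apply, QTW_qf_smul, map_pow]
  ring

theorem qt_map (f : R →+* S) (M : Web R) : qt (mapW f M) = MvPolynomial.map f (qt M) := by
  have h : ∀ A : Matrix (Fin 3) (Fin 3) R, qf (A.map f) = MvPolynomial.map f (qf A) := by
    intro A
    unfold qf
    simp only [map_sum, map_mul, map_C, map_X, Matrix.map_apply]
  unfold qt
  simp only [mapW, h, map_sub, map_mul]

theorem qt_sw (p q : Matrix (Fin 2) (Fin 2) R) (M : Web R) :
    qt (sw p q M) = C (p.det * q.det) * qt M := by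
  unfold qt sw
  simp only [Fin.sum_univ_two, QTW_qf_add, QTW_qf_smul, Matrix.det_fin_two, map_mul, map_sub]
  ring

/-- Gram matrix of the polar form -/
private def QTW_J (R : Type*) [CommRing R] : Matrix (Fin 2 × Fin 2) (Fin 2 × Fin 2) R :=
  Matrix.of fun a b => if a.1 = b.1 then 0 else if a.2 = b.2 then 0 else if a.1 = a.2 then 1 else -1

private theorem QTW_JJ : QTW_J R * QTW_J R = 1 := by
  ext a b
  obtain ⟨a1, a2⟩ := a
  obtain ⟨b1, b2⟩ := b
  rw [Matrix.mul_apply, Fintype.sum_prod_type]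
  fin_cases a1 <;> fin_cases a2 <;> fin_cases b1 <;> fin_cases b2 <;>
    simp [QTW_J, Fin.sum_univ_two]

private theorem QTW_J_dot (v w : Fin 2 × Fin 2 → R) : v ⬝ᵥ (QTW_J R *ᵥ w) =
    v (0, 0) * w (1, 1) + v (1, 1) * w (0, 0) - v (0, 1) * w (1, 0) - v (1, 0) * w (0, 1) := by
  simp only [dotProduct, mulVec, Fintype.sum_prod_type, Fin.sum_univ_two]
  simp [QTW_J]
  ring

private theorem QTW_ov_det (O : Matrix (Fin 2 × Fin 2) (Fin 2 × Fin 2) R) (v : Fin 2 × Fin 2 → R) :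
    (ov O (Matrix.of fun i j => v (i, j))).det =
      (O *ᵥ v) (0, 0) * (O *ᵥ v) (1, 1) - (O *ᵥ v) (0, 1) * (O *ᵥ v) (1, 0) := by
  rw [det_fin_two]
  rfl

private theorem QTW_polar {O : Matrix (Fin 2 × Fin 2) (Fin 2 × Fin 2) R} {c : R} (h : Sim O c)
    (v w : Fin 2 × Fin 2 → R) :
    (O *ᵥ v) ⬝ᵥ (QTW_J R *ᵥ (O *ᵥ w)) = c * (v ⬝ᵥ (QTW_J R *ᵥ w)) := by
  have h1 := h (Matrix.of fun i j => (v + w) (i, j))
  have h2 := h (Matrix.of fun i j => v (i, j))
  have h3 := h (Matrix.of fun i j => w (i, j))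
  rw [QTW_ov_det, det_fin_two] at h1 h2 h3
  rw [mulVec_add] at h1
  rw [QTW_J_dot, QTW_J_dot]
  simp only [Matrix.of_apply, Pi.add_apply] at h1 h2 h3
  linear_combination h1 - h2 - h3

private theorem QTW_gram {O : Matrix (Fin 2 × Fin 2) (Fin 2 × Fin 2) R} {c : R} (h : Sim O c) :
    Oᵀ * QTW_J R * O = c • QTW_J R := by
  ext a b
  have h1 := QTW_polar h (Pi.single a 1) (Pi.single b 1)
  have h2 : (O *ᵥ Pi.single a 1) ⬝ᵥ (QTW_J R *ᵥ (O *ᵥ Pi.single b 1)) =
      (Oᵀ * QTW_J R * O) a b := by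
    rw [Matrix.mulVec_mulVec, Matrix.dotProduct_mulVec, ← Matrix.vecMul_transpose,
      Matrix.vecMul_vecMul, ← Matrix.dotProduct_mulVec, single_dotProduct, one_mul,
      Matrix.mulVec_single_one, Matrix.col_apply, Matrix.mul_assoc]
  rw [h2] at h1
  rw [h1, single_dotProduct, one_mul, Matrix.mulVec_single_one, Matrix.col_apply, Matrix.smul_apply,
    smul_eq_mul]

private theorem QTW_inv {k : Type*} [Field k] {O : Matrix (Fin 2 × Fin 2) (Fin 2 × Fin 2) k} {c : k}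
    (hc : c ≠ 0) (h : Sim O c) :
    O * (c⁻¹ • (QTW_J k * Oᵀ * QTW_J k)) = 1 := by
  rw [mul_eq_one_comm, Matrix.smul_mul, Matrix.mul_assoc, Matrix.mul_assoc,
    ← Matrix.mul_assoc Oᵀ, QTW_gram h, Matrix.mul_smul, QTW_JJ, smul_smul, inv_mul_cancel₀ hc,
    one_smul]

private theorem QTW_gram' {k : Type*} [Field k] {O : Matrix (Fin 2 × Fin 2) (Fin 2 × Fin 2) k} {c : k}
    (hc : c ≠ 0) (h : Sim O c) : O * QTW_J k * Oᵀ = c • QTW_J k := by
  have h1 := QTW_inv hc h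
  have h2 : c • ((O * (c⁻¹ • (QTW_J k * Oᵀ * QTW_J k))) * QTW_J k) = c • QTW_J k := by
    rw [h1, one_mul]
  rw [← h2, Matrix.mul_smul, Matrix.smul_mul, smul_smul, mul_inv_cancel₀ hc, one_smul,
    Matrix.mul_assoc O, Matrix.mul_assoc O, Matrix.mul_assoc (QTW_J k * Oᵀ), QTW_JJ, Matrix.mul_one]

private theorem QTW_two (O : Matrix (Fin 2 × Fin 2) (Fin 2 × Fin 2) R) (c : R)
    (h : O * QTW_J R * Oᵀ = c • QTW_J R) (N : Fin 2 × Fin 2 → R) :
    2 * ((Oᵀ *ᵥ N) (0, 0) * (Oᵀ *ᵥ N) (1, 1) - (Oᵀ *ᵥ N) (0, 1) * (Oᵀ *ᵥ N) (1, 0)) =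
      2 * (c * (N (0, 0) * N (1, 1) - N (0, 1) * N (1, 0))) := by
  have h1 : (Oᵀ *ᵥ N) ⬝ᵥ (QTW_J R *ᵥ (Oᵀ *ᵥ N)) = c * (N ⬝ᵥ (QTW_J R *ᵥ N)) := by
    rw [Matrix.mulVec_mulVec, Matrix.dotProduct_mulVec, Matrix.mulVec_transpose,
      Matrix.vecMul_vecMul, ← Matrix.mul_assoc, h, ← Matrix.dotProduct_mulVec, Matrix.smul_mulVec,
      dotProduct_smul, smul_eq_mul]
  rw [QTW_J_dot, QTW_J_dot] at h1
  linear_combination h1

private theorem QTW_map_J : (QTW_J R).map (C : R →+* P3 R) = QTW_J (P3 R) := by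
  ext1 a b
  obtain ⟨a1, a2⟩ := a
  obtain ⟨b1, b2⟩ := b
  fin_cases a1 <;> fin_cases a2 <;> fin_cases b1 <;> fin_cases b2 <;> simp [QTW_J]

theorem qt_ow {k : Type*} [Field k] (h2 : (2 : k) ≠ 0) (O : Matrix (Fin 2 × Fin 2) (Fin 2 × Fin 2) k) (c : k)
    (hc : c ≠ 0) (hO : Sim O c) (M : Web k) : qt (ow O M) = C c * qt M := by
  have h1 := congrArg (fun A : Matrix (Fin 2 × Fin 2) (Fin 2 × Fin 2) k => A.map (C : k →+* P3 k))
    (QTW_gram' hc hO)
  simp only [Matrix.map_mul] at h1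
  have h3 : (c • QTW_J k).map (C : k →+* P3 k) = (C c : P3 k) • QTW_J (P3 k) := by
    rw [← QTW_map_J]
    ext1 a b
    simp only [Matrix.map_apply, Matrix.smul_apply, smul_eq_mul, map_mul]
  rw [h3, QTW_map_J, Matrix.transpose_map] at h1
  have h4 := QTW_two (O.map (C : k →+* P3 k)) (C c) h1 (fun p => qf (M p.1 p.2))
  have h5 : ∀ i j, qf (ow O M i j) = ((O.map (C : k →+* P3 k))ᵀ *ᵥ (fun p => qf (M p.1 p.2))) (i, j) := by
    intro i j
    unfold ow
    rw [QTW_qf_sum]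
    simp only [QTW_qf_smul, mulVec, dotProduct, Matrix.transpose_apply, Matrix.map_apply]
  have h6 : (2 : P3 k) ≠ 0 := by
    have : (2 : P3 k) = C (2 : k) := (map_ofNat (C : k →+* P3 k) 2).symm
    rw [this]
    intro h
    exact h2 (C_eq_zero.1 h)
  refine mul_left_cancel₀ h6 ?_
  unfold qt
  rw [h5, h5, h5, h5]
  exact h4

theorem Sy.ow {M : Web R} (hM : Sy M) (O : Matrix (Fin 2 × Fin 2) (Fin 2 × Fin 2) R) : Sy (ow O M) := by
  intro i j
  unfold T1.ow
  rw [Matrix.transpose_sum]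
  refine Finset.sum_congr rfl fun kl _ => ?_
  rw [Matrix.transpose_smul, hM]

theorem ow_gw (O : Matrix (Fin 2 × Fin 2) (Fin 2 × Fin 2) R) (h : Matrix (Fin 3) (Fin 3) R) (M : Web R) :
    ow O (gw h M) = gw h (ow O M) := by
  funext i j
  unfold ow gw
  rw [Finset.mul_sum, Finset.sum_mul]
  refine Finset.sum_congr rfl fun kl _ => ?_
  rw [Matrix.mul_smul, Matrix.smul_mul]

theorem ow_ow (O O' : Matrix (Fin 2 × Fin 2) (Fin 2 × Fin 2) R) (M : Web R) :
    ow O' (ow O M) = ow (O * O') M := by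
  funext i j
  unfold ow
  simp only [Finset.smul_sum, Matrix.mul_apply, Finset.sum_smul, smul_smul]
  rw [Finset.sum_comm]
  refine Finset.sum_congr rfl fun kl _ => Finset.sum_congr rfl fun mn _ => ?_
  rw [mul_comm]

theorem ow_one (M : Web R) : ow 1 M = M := by
  funext i j
  unfold ow
  rw [Finset.sum_eq_single (i, j)]
  · simp
  · intro b _ hb
    rw [Matrix.one_apply_ne hb, zero_smul]
  · intro h
    exact absurd (Finset.mem_univ _) h

theorem ow_smul (O : Matrix (Fin 2 × Fin 2) (Fin 2 × Fin 2) R) (c : R) (M : Web R) :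
    ow O (c • M) = c • ow O M := by
  funext i j
  simp only [ow, Pi.smul_apply, Finset.smul_sum]
  refine Finset.sum_congr rfl fun kl _ => ?_
  rw [smul_comm]

theorem ov_ov (O O' : Matrix (Fin 2 × Fin 2) (Fin 2 × Fin 2) R) (x : Matrix (Fin 2) (Fin 2) R) :
    ov O (ov O' x) = ov (O * O') x := by
  ext i j
  simp only [ov, Matrix.of_apply, Finset.mul_sum, Matrix.mul_apply, Finset.sum_mul]
  rw [Finset.sum_comm]
  refine Finset.sum_congr rfl fun kl _ => Finset.sum_congr rfl fun mn _ => ?_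
  rw [mul_assoc]

theorem Sim.mul {O O' : Matrix (Fin 2 × Fin 2) (Fin 2 × Fin 2) R} {c c' : R} (h : Sim O c)
    (h' : Sim O' c') : Sim (O * O') (c * c') := by
  intro x
  rw [← ov_ov, h, h', mul_assoc]

private theorem QTW_ov_one (x : Matrix (Fin 2) (Fin 2) R) : ov 1 x = x := by
  ext i j
  simp only [ov, Matrix.of_apply]
  rw [Finset.sum_eq_single (i, j)]
  · simp
  · intro b _ hb
    rw [Matrix.one_apply_ne (Ne.symm hb), zero_mul]
  · intro h
    exact absurd (Finset.mem_univ _) h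

/-- similitudes are invertible -/
theorem Sim.inv {k : Type*} [Field k] (h2 : (2 : k) ≠ 0) {O : Matrix (Fin 2 × Fin 2) (Fin 2 × Fin 2) k}
    {c : k} (hc : c ≠ 0) (h : Sim O c) : O * O⁻¹ = 1 ∧ O⁻¹ * O = 1 ∧ Sim O⁻¹ c⁻¹ := by
  have h0 := QTW_inv hc h
  have hd : IsUnit O.det := by
    have := congrArg Matrix.det h0
    rw [Matrix.det_mul, Matrix.det_one] at this
    exact IsUnit.of_mul_eq_one _ this
  refine ⟨Matrix.mul_nonsing_inv _ hd, Matrix.nonsing_inv_mul _ hd, ?_⟩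
  intro x
  have h1 := h (ov O⁻¹ x)
  rw [ov_ov, Matrix.mul_nonsing_inv _ hd, QTW_ov_one] at h1
  rw [h1, inv_mul_cancel_left₀ hc]

/-- null vectors -/
theorem null_vec {k : Type*} [Field k] (x : Matrix (Fin 2) (Fin 2) k) (hx : x.det = 0) (h0 : x ≠ 0) :
    ∃ s t : Fin 2 → k, s ≠ 0 ∧ t ≠ 0 ∧ x = Matrix.of fun i j => s i * t j := by
  have h1 : ∃ i j, x i j ≠ 0 := by
    by_contra hcon
    push Not at hcon
    exact h0 (Matrix.ext hcon)
  obtain ⟨i0, j0, h⟩ := h1
  rw [det_fin_two] at hx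
  refine ⟨fun i => x i j0, fun j => x i0 j / x i0 j0, fun hs => h (congrFun hs i0), fun ht => ?_, ?_⟩
  · have := congrFun ht j0
    simp only [div_self h, Pi.zero_apply] at this
    exact one_ne_zero this
  · ext i j
    rw [Matrix.of_apply]
    field_simp
    fin_cases i <;> fin_cases j <;> fin_cases i0 <;> fin_cases j0 <;> simp at h ⊢ <;>
      first | ring1 | linear_combination hx | linear_combination -hx

private theorem QTW_aw_ow (O : Matrix (Fin 2 × Fin 2) (Fin 2 × Fin 2) R) (M : Web R) (s t : Fin 2 → R) :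
    aw (ow O M) s t = ∑ kl : Fin 2 × Fin 2,
      (ov O (Matrix.of fun i j => s i * t j)) kl.1 kl.2 • M kl.1 kl.2 := by
  have h1 : aw (ow O M) s t = ∑ ij : Fin 2 × Fin 2, (s ij.1 * t ij.2) • ow O M ij.1 ij.2 := by
    rw [Fintype.sum_prod_type]
    rfl
  rw [h1]
  simp only [ow, ov, Matrix.of_apply, Finset.smul_sum, Finset.sum_smul, smul_smul]
  rw [Finset.sum_comm]
  refine Finset.sum_congr rfl fun kl _ => Finset.sum_congr rfl fun mn _ => ?_
  rw [mul_comm]

private theorem QTW_aw (M : Web R) (s t : Fin 2 → R) :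
    aw M s t = ∑ kl : Fin 2 × Fin 2, (Matrix.of fun i j => s i * t j) kl.1 kl.2 • M kl.1 kl.2 := by
  rw [Fintype.sum_prod_type]
  rfl

theorem dW_ow {k : Type*} [Field k] [Infinite k] (O : Matrix (Fin 2 × Fin 2) (Fin 2 × Fin 2) k) (c : k)
    (hO : Sim O c) (M M' : Web k) (u : k) (h : dW M' = C u * dW M) :
    dW (ow O M') = C u * dW (ow O M) := by
  refine p4_ext fun s t => ?_
  rw [eval_dW, map_mul, eval_C, eval_dW, QTW_aw_ow, QTW_aw_ow]
  have h1 := hO (Matrix.of fun i j => s i * t j)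
  obtain ⟨x, hx⟩ : ∃ x, x = ov O (Matrix.of fun i j => s i * t j) := ⟨_, rfl⟩
  rw [← hx] at h1 ⊢
  have h2 : (Matrix.of fun i j => s i * t j).det = 0 := by
    rw [det_fin_two]
    simp only [Matrix.of_apply]
    ring
  rw [h2, mul_zero] at h1
  by_cases h0 : x = 0
  · rw [h0]
    simp
  · obtain ⟨s', t', -, -, h3⟩ := null_vec x h1 h0
    rw [h3, ← QTW_aw, ← QTW_aw, ← eval_dW, h, map_mul, eval_C, eval_dW]

/-- the cubic form of a web -/
noncomputable def cW (M : Web R) : MvPolynomial (Fin 2 × Fin 2) R :=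
  Matrix.det (Matrix.of fun a b => ∑ ij : Fin 2 × Fin 2, C (M ij.1 ij.2 a b) * X ij)

theorem cW_hom (M : Web R) : (cW M).IsHomogeneous 3 := by
  have h1 : ∀ a b, (∑ ij : Fin 2 × Fin 2, (C (M ij.1 ij.2 a b) * X ij :
      MvPolynomial (Fin 2 × Fin 2) R)).IsHomogeneous 1 := by
    intro a b
    refine IsHomogeneous.sum _ _ _ fun ij _ => ?_
    exact (isHomogeneous_X R ij).C_mul _
  unfold cW
  rw [det_fin_three]
  simp only [Matrix.of_apply]
  have h3 : ∀ a b a' b' a'' b'', ((∑ ij : Fin 2 × Fin 2, (C (M ij.1 ij.2 a b) * X ij :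
      MvPolynomial (Fin 2 × Fin 2) R)) * (∑ ij : Fin 2 × Fin 2, C (M ij.1 ij.2 a' b') * X ij) *
      (∑ ij : Fin 2 × Fin 2, C (M ij.1 ij.2 a'' b'') * X ij)).IsHomogeneous 3 := fun a b a' b' a'' b'' =>
    ((h1 a b).mul (h1 a' b')).mul (h1 a'' b'')
  exact (((((h3 _ _ _ _ _ _).sub (h3 _ _ _ _ _ _)).sub (h3 _ _ _ _ _ _)).add (h3 _ _ _ _ _ _)).add
    (h3 _ _ _ _ _ _)).sub (h3 _ _ _ _ _ _)

theorem dF_cW (M : Web R) : dF (cW M) = dW M := by
  unfold cW dW
  rw [AlgHom.map_det]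
  congr 1
  ext1 a b
  simp only [AlgHom.mapMatrix_apply, Matrix.map_apply, Matrix.of_apply, map_sum, map_mul]
  rw [Fintype.sum_prod_type]
  simp only [dF, aeval_X, aeval_C, pm, pb, Matrix.of_apply, ← mul_assoc]
  rfl

theorem cW_ow (O : Matrix (Fin 2 × Fin 2) (Fin 2 × Fin 2) R) (M : Web R) : cW (ow O M) = oF O (cW M) := by
  unfold cW
  rw [AlgHom.map_det]
  congr 1
  ext1 a b
  simp only [AlgHom.mapMatrix_apply, Matrix.map_apply, Matrix.of_apply, map_sum, map_mul]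
  have h1 : ∀ c : R, oF O (C c) = C c := by
    intro c
    unfold oF
    rw [aeval_C]
    rfl
  have h2 : ∀ kl, oF O (X kl) = ∑ ij : Fin 2 × Fin 2, C (O kl ij) * X ij := by
    intro kl
    unfold oF
    rw [aeval_X]
  simp only [h1, h2, ow, Matrix.sum_apply, Matrix.smul_apply, smul_eq_mul, map_sum, map_mul,
    Finset.sum_mul, Finset.mul_sum]
  rw [Finset.sum_comm]
  refine Finset.sum_congr rfl fun kl _ => Finset.sum_congr rfl fun mn _ => ?_
  ring

theorem eval_dF (F : MvPolynomial (Fin 2 × Fin 2) R) (s t : Fin 2 → R) :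
    eval (pt s t) (dF F) = eval (fun ij => s ij.1 * t ij.2) F := by
  induction F using MvPolynomial.induction_on with
  | C a => simp [dF]
  | add f g hf hg => rw [map_add, map_add, map_add, hf, hg]
  | mul_X f i hf =>
    rw [map_mul, map_mul, map_mul, hf]
    congr 1
    simp [dF, pt]

theorem eval_oF (O : Matrix (Fin 2 × Fin 2) (Fin 2 × Fin 2) R) (F : MvPolynomial (Fin 2 × Fin 2) R)
    (x : Matrix (Fin 2) (Fin 2) R) :
    eval (fun ij => x ij.1 ij.2) (oF O F) = eval (fun ij => ov O x ij.1 ij.2) F := by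
  induction F using MvPolynomial.induction_on with
  | C a => simp [oF]
  | add f g hf hg => rw [map_add, map_add, map_add, hf, hg]
  | mul_X f i hf =>
    rw [map_mul, map_mul, map_mul, hf]
    congr 1
    simp [oF, ov]

theorem BH_dF {F : MvPolynomial (Fin 2 × Fin 2) R} (hF : F.IsHomogeneous 3) : BH (dF F) 3 3 := by
  have h0 : dF F = ∑ d ∈ F.support, dF (monomial d (coeff d F)) := by
    conv_lhs => rw [F.as_sum]
    rw [map_sum]
  rw [h0]
  refine (weightedHomogeneousSubmodule R bw (3, 3)).sum_mem fun d hd => ?_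
  have h1 := hF (mem_support_iff.1 hd)
  have h2 : ∀ ij : Fin 2 × Fin 2, BH (X (Sum.inl ij.1) * X (Sum.inr ij.2) : P4 R) 1 1 := by
    intro ij
    exact IsWeightedHomogeneous.mul (isWeightedHomogeneous_X R bw (Sum.inl ij.1))
      (isWeightedHomogeneous_X R bw (Sum.inr ij.2))
  have h3 : ∀ (ij : Fin 2 × Fin 2) (n : ℕ), BH ((X (Sum.inl ij.1) * X (Sum.inr ij.2) : P4 R) ^ n) n n := by
    intro ij n
    induction n with
    | zero =>
      rw [pow_zero]
      exact isWeightedHomogeneous_one R bw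
    | succ n ih =>
      rw [pow_succ]
      exact ih.mul (h2 ij)
  have h4 : dF (monomial d (coeff d F)) = C (coeff d F) *
      ∏ ij : Fin 2 × Fin 2, (X (Sum.inl ij.1) * X (Sum.inr ij.2) : P4 R) ^ d ij := by
    unfold dF
    rw [aeval_monomial, Finsupp.prod_fintype _ _ (fun i => by simp)]
    rfl
  rw [h4]
  have h5 : d (0, 0) + d (0, 1) + (d (1, 0) + d (1, 1)) = 3 := by
    rw [← h1, Finsupp.weight_apply, Finsupp.sum_fintype _ _ (fun i => by simp), Fintype.sum_prod_type]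
    simp [Fin.sum_univ_two]
  have h6 : BH (∏ ij : Fin 2 × Fin 2, (X (Sum.inl ij.1) * X (Sum.inr ij.2) : P4 R) ^ d ij) 3 3 := by
    rw [Fintype.prod_prod_type]
    simp only [Fin.prod_univ_two]
    have := ((h3 (0, 0) (d (0, 0))).mul (h3 (0, 1) (d (0, 1)))).mul
      ((h3 (1, 0) (d (1, 0))).mul (h3 (1, 1) (d (1, 1))))
    rw [h5] at this
    exact this
  exact h6.C_mul _

end

end Pool.Agent.T1
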