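import Pool.Agent.T1.GSA
import Pool.Agent.T1.ORT
import Pool.Agent.T1.HHS
import Pool.Agent.T1.QTW

/-!
# T1 / GSB: webs with bounded scalar products become bounded after an isometry of `V₄`

`sim_tr`: see `QTW_gram'` in `QTW` (private there, copy): `Sim O c` gives `Oᵀ J O = c J`, so `O J Oᵀ = c J` (`J` the Gram matrix of `bf`, `J² = 1`), which is the same for `Oᵀ`.
`en_ow`: `en (ow O M) a b = ov Oᵀ (en M a b)` by definition (`ow O M i j = ∑ kl, O kl (i, j) • M kl`).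
`gsb`: `E : Fin 3 × Fin 3 → V₄`, `E (a, b) = en M a b`, `gs_all` with `B = B4` (`B4_apply`, `bf_symm`), `h5 = ort5`: `n ≤ 4`, `f`, `OS` (level `c + 80`).  Claim: all residual vectors `r = rv B4 f (E α)` vanish: they are orthogonal to each other and to the `f i` (`rv_orth`), so `bf (E β) r = 0` for all `β`
(`E β = rv .. (E β) + ∑ i, B (E β) (f i) • f i`).  `bf r r = 0`, so if `r ≠ 0`: `r = s tᵀ` with `s, t ≠ 0` (`null_vec`, `bf_self`), and `bf x (s tᵀ)` is the value of the bilinear form `x` at `s' = ![s 1, -s 0]`, `t' = ![t 1, -t 0]`, so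
`(aw M s' t') a b = bf (en M a b) r = 0`: `aw M s' t' = 0`, its adjugate is `0`, a contradiction to `H2 M` (`hhs`).
So `E α = ∑ i, bf (E α) (f i) • f i`.  `ort_ext`: `g : Fin 4 → V₄` extends `f`; `I` with `I² = -1` (`IsAlgClosed.exists_pow_nat_eq`); `ort_iso`: `O₀` with `ov O₀ x = ∑ i, bf x (g i) • nb I i`, `Sim O₀ 1`.  `O := O₀ᵀ`.  Then
`en (ow O M) a b = ∑ i, bf (E (a,b)) (g i) • nb I i`; `bf (E α) (g i) = bf (E α) (f i)` for `i < n`, and `0` for `i ≥ n` (`E α` is in the span of the `f j`, `bf (g j) (g i) = 0`).  `bf (E α) (f i) = ∑ β, Q i β * bf (E α) (E β)`.  `θ` = all `bf (E α) (E β)`, `Q i β`, `I`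
(`81 + 36 + 1` variables), level `c + 80` (`Bd.mono`, `Bd.sqrt_neg_one`): `2 *` the entries are `PB θ 100`, so (`PB.quot` with `q = 2`) the entries are `Bd (c + 90)`.
-/

namespace Pool.Agent.T1

open MvPolynomial Matrix
open Pool.Agent.PQ (P3 NS SF sb RB ND l1 lin Bit)

private def GSB_J (R : Type*) [CommRing R] : Matrix (Fin 2 × Fin 2) (Fin 2 × Fin 2) R :=
  Matrix.of fun a b => if a.1 = b.1 then 0 else if a.2 = b.2 then 0 else if a.1 = a.2 then 1 else -1

private theorem GSB_JJ {R : Type*} [CommRing R] : GSB_J R * GSB_J R = 1 := by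
  ext a b
  obtain ⟨a1, a2⟩ := a
  obtain ⟨b1, b2⟩ := b
  rw [Matrix.mul_apply, Fintype.sum_prod_type]
  fin_cases a1 <;> fin_cases a2 <;> fin_cases b1 <;> fin_cases b2 <;>
    simp [GSB_J, Fin.sum_univ_two]

private theorem GSB_J_dot {R : Type*} [CommRing R] (v w : Fin 2 × Fin 2 → R) : v ⬝ᵥ (GSB_J R *ᵥ w) =
    v (0, 0) * w (1, 1) + v (1, 1) * w (0, 0) - v (0, 1) * w (1, 0) - v (1, 0) * w (0, 1) := by
  simp only [dotProduct, mulVec, Fintype.sum_prod_type, Fin.sum_univ_two]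
  simp [GSB_J]
  ring

private theorem GSB_ov_det {R : Type*} [CommRing R] (O : Matrix (Fin 2 × Fin 2) (Fin 2 × Fin 2) R)
    (v : Fin 2 × Fin 2 → R) :
    (ov O (Matrix.of fun i j => v (i, j))).det =
      (O *ᵥ v) (0, 0) * (O *ᵥ v) (1, 1) - (O *ᵥ v) (0, 1) * (O *ᵥ v) (1, 0) := by
  rw [det_fin_two]
  rfl

private theorem GSB_polar {R : Type*} [CommRing R] {O : Matrix (Fin 2 × Fin 2) (Fin 2 × Fin 2) R} {c : R}
    (h : Sim O c) (v w : Fin 2 × Fin 2 → R) :
    (O *ᵥ v) ⬝ᵥ (GSB_J R *ᵥ (O *ᵥ w)) = c * (v ⬝ᵥ (GSB_J R *ᵥ w)) := by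
  have h1 := h (Matrix.of fun i j => (v + w) (i, j))
  have h2 := h (Matrix.of fun i j => v (i, j))
  have h3 := h (Matrix.of fun i j => w (i, j))
  rw [GSB_ov_det, det_fin_two] at h1 h2 h3
  rw [mulVec_add] at h1
  rw [GSB_J_dot, GSB_J_dot]
  simp only [Matrix.of_apply, Pi.add_apply] at h1 h2 h3
  linear_combination h1 - h2 - h3

private theorem GSB_gram {R : Type*} [CommRing R] {O : Matrix (Fin 2 × Fin 2) (Fin 2 × Fin 2) R} {c : R}
    (h : Sim O c) : Oᵀ * GSB_J R * O = c • GSB_J R := by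
  ext a b
  have h1 := GSB_polar h (Pi.single a 1) (Pi.single b 1)
  have h2 : (O *ᵥ Pi.single a 1) ⬝ᵥ (GSB_J R *ᵥ (O *ᵥ Pi.single b 1)) =
      (Oᵀ * GSB_J R * O) a b := by
    rw [Matrix.mulVec_mulVec, Matrix.dotProduct_mulVec, ← Matrix.vecMul_transpose,
      Matrix.vecMul_vecMul, ← Matrix.dotProduct_mulVec, single_dotProduct, one_mul,
      Matrix.mulVec_single_one, Matrix.col_apply, Matrix.mul_assoc]
  rw [h2] at h1
  rw [h1, single_dotProduct, one_mul, Matrix.mulVec_single_one, Matrix.col_apply, Matrix.smul_apply,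
    smul_eq_mul]

private theorem GSB_inv {k : Type*} [Field k] {O : Matrix (Fin 2 × Fin 2) (Fin 2 × Fin 2) k} {c : k}
    (hc : c ≠ 0) (h : Sim O c) :
    O * (c⁻¹ • (GSB_J k * Oᵀ * GSB_J k)) = 1 := by
  rw [mul_eq_one_comm, Matrix.smul_mul, Matrix.mul_assoc, Matrix.mul_assoc,
    ← Matrix.mul_assoc Oᵀ, GSB_gram h, Matrix.mul_smul, GSB_JJ, smul_smul, inv_mul_cancel₀ hc,
    one_smul]

private theorem GSB_gram' {k : Type*} [Field k] {O : Matrix (Fin 2 × Fin 2) (Fin 2 × Fin 2) k} {c : k}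
    (hc : c ≠ 0) (h : Sim O c) : O * GSB_J k * Oᵀ = c • GSB_J k := by
  have h1 := GSB_inv hc h
  have h2 : c • ((O * (c⁻¹ • (GSB_J k * Oᵀ * GSB_J k))) * GSB_J k) = c • GSB_J k := by
    rw [h1, one_mul]
  rw [← h2, Matrix.mul_smul, Matrix.smul_mul, smul_smul, mul_inv_cancel₀ hc, one_smul,
    Matrix.mul_assoc O, Matrix.mul_assoc O, Matrix.mul_assoc (GSB_J k * Oᵀ), GSB_JJ, Matrix.mul_one]

private theorem GSB_two {R : Type*} [CommRing R] (O : Matrix (Fin 2 × Fin 2) (Fin 2 × Fin 2) R) (c : R)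
    (h : O * GSB_J R * Oᵀ = c • GSB_J R) (N : Fin 2 × Fin 2 → R) :
    2 * ((Oᵀ *ᵥ N) (0, 0) * (Oᵀ *ᵥ N) (1, 1) - (Oᵀ *ᵥ N) (0, 1) * (Oᵀ *ᵥ N) (1, 0)) =
      2 * (c * (N (0, 0) * N (1, 1) - N (0, 1) * N (1, 0))) := by
  have h1 : (Oᵀ *ᵥ N) ⬝ᵥ (GSB_J R *ᵥ (Oᵀ *ᵥ N)) = c * (N ⬝ᵥ (GSB_J R *ᵥ N)) := by
    rw [Matrix.mulVec_mulVec, Matrix.dotProduct_mulVec, Matrix.mulVec_transpose,
      Matrix.vecMul_vecMul, ← Matrix.mul_assoc, h, ← Matrix.dotProduct_mulVec, Matrix.smul_mulVec,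
      dotProduct_smul, smul_eq_mul]
  rw [GSB_J_dot, GSB_J_dot] at h1
  linear_combination h1

private def GSB_m : Fin 4 → Fin 2 → Fin 2 → ℤ :=
  ![![![2, 0], ![0, 1]], ![![0, 0], ![0, 0]], ![![0, 2], ![-1, 0]], ![![0, 0], ![0, 0]]]

private def GSB_i : Fin 4 → Fin 2 → Fin 2 → ℤ :=
  ![![![0, 0], ![0, 0]], ![![2, 0], ![0, -1]], ![![0, 0], ![0, 0]], ![![0, 2], ![1, 0]]]

private theorem GSB_nb {C : Type*} [Field C] [CharZero C] {σ : Type} {θ : σ → C} {I : C} (hI : PB θ 1 I)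
    (i : Fin 4) (k l : Fin 2) : PB θ 3 (2 * nb I i k l) := by
  have h1 : 2 * nb I i k l = (GSB_m i k l : C) + (GSB_i i k l : C) * I := by
    fin_cases i <;> fin_cases k <;> fin_cases l <;> simp [nb, GSB_m, GSB_i] <;> ring
  have h2 : (GSB_m i k l).natAbs ≤ 2 ^ 1 := by
    fin_cases i <;> fin_cases k <;> fin_cases l <;> simp [GSB_m]
  have h3 : (GSB_i i k l).natAbs ≤ 2 ^ 1 := by
    fin_cases i <;> fin_cases k <;> fin_cases l <;> simp [GSB_i]
  rw [h1]
  exact ((PB.int _ h2).add ((PB.int _ h3).mul hI)).mono (by norm_num)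

private theorem GSB_bf {R : Type*} [CommRing R] (x : Matrix (Fin 2) (Fin 2) R) (s t : Fin 2 → R) :
    bf x (Matrix.of fun i j => s i * t j) =
      ∑ i, ∑ j, ((![s 1, -s 0] : Fin 2 → R) i * (![t 1, -t 0] : Fin 2 → R) j) * x i j := by
  simp [bf, Fin.sum_univ_two]
  ring

theorem sim_tr {k : Type*} [Field k] (h2 : (2 : k) ≠ 0) {O : Matrix (Fin 2 × Fin 2) (Fin 2 × Fin 2) k} {c : k}
    (hc : c ≠ 0) (h : Sim O c) : Sim Oᵀ c := by
  intro x
  have h1 := GSB_two O c (GSB_gram' hc h) (fun p => x p.1 p.2)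
  have h3 := GSB_ov_det Oᵀ (fun p => x p.1 p.2)
  have h4 : (Matrix.of fun i j => (fun p : Fin 2 × Fin 2 => x p.1 p.2) (i, j)) = x := rfl
  rw [h4] at h3
  rw [h3]
  refine mul_left_cancel₀ h2 ?_
  rw [h1, det_fin_two]
theorem en_ow {R : Type*} [CommRing R] (O : Matrix (Fin 2 × Fin 2) (Fin 2 × Fin 2) R) (M : Web R) (a b : Fin 3) :
    en (ow O M) a b = ov Oᵀ (en M a b) := by
  ext i j
  simp only [en, ow, ov, Matrix.of_apply, Matrix.sum_apply, Matrix.smul_apply, smul_eq_mul,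
    Matrix.transpose_apply]
theorem gsb {C : Type*} [Field C] [CharZero C] [IsAlgClosed C] {c s : ℕ} (hs : 16 ≤ s) (hc : 2 ≤ c)
    (M : Web C) (hM : Sy M) (hS : Smo (dW M)) (hG : ∀ i j k l, Bd c s (bf (en M i j) (en M k l))) :
    ∃ O : Matrix (Fin 2 × Fin 2) (Fin 2 × Fin 2) C, Sim O 1 ∧
      ∀ a b i j, Bd (c + 90) s (en (ow O M) a b i j) := by
  classical
  obtain ⟨E, hE⟩ : ∃ E : Fin 3 × Fin 3 → Matrix (Fin 2) (Fin 2) C, E = fun α => en M α.1 α.2 := ⟨_, rfl⟩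
  have hB : ∀ x y : Matrix (Fin 2) (Fin 2) C, (B4 : LinearMap.BilinForm C _) x y = B4 y x := by
    intro x y
    rw [B4_apply, B4_apply, bf_symm]
  have hG' : ∀ α β, Bd c s ((B4 : LinearMap.BilinForm C _) (E α) (E β)) := by
    intro α β
    rw [B4_apply, hE]
    exact hG _ _ _ _
  obtain ⟨n, f, hn, hOS, hr⟩ := gs_all (B4 : LinearMap.BilinForm C (Matrix (Fin 2) (Fin 2) C)) hB
    (ι := Fin 3 × Fin 3) (by simp) E hs hc hG' ort5
  have horth := hOS.orth
  -- the residual vectors vanish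
  have hrv : ∀ α, rv B4 f (E α) = 0 := by
    intro α
    obtain ⟨r, hr0⟩ : ∃ r, r = rv (B4 : LinearMap.BilinForm C _) f (E α) := ⟨_, rfl⟩
    rw [← hr0]
    have hfr : ∀ i, (B4 : LinearMap.BilinForm C _) (f i) r = 0 := by
      intro i
      rw [hB, hr0]
      exact rv_orth B4 hB f horth (E α) i
    have hEr : ∀ β, bf (E β) r = 0 := by
      intro β
      have h1 : E β = rv (B4 : LinearMap.BilinForm C _) f (E β) + ∑ i, (B4 : LinearMap.BilinForm C _) (E β) (f i) • f i := by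
        rw [rv, sub_add_cancel]
      rw [h1, bf_add_left, bf_sum_left]
      have h2 : bf (rv (B4 : LinearMap.BilinForm C _) f (E β)) r = 0 := by
        rw [hr0]
        exact hr β α
      rw [h2, zero_add]
      refine Finset.sum_eq_zero fun i _ => ?_
      rw [bf_smul_left]
      have h3 : bf (f i) r = 0 := hfr i
      rw [h3, mul_zero]
    by_contra hne
    have hrr : bf r r = 0 := by
      have := hr α α
      rw [← hr0] at this
      exact this
    rw [bf_self] at hrr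
    have hdet : r.det = 0 := (mul_eq_zero.1 hrr).resolve_left two_ne_zero
    obtain ⟨u, v, hu, hv, hruv⟩ := null_vec r hdet hne
    have hu' : (![u 1, -u 0] : Fin 2 → C) ≠ 0 := by
      intro h
      apply hu
      have h1 := congrFun h 0
      have h2 := congrFun h 1
      simp at h1 h2
      funext i
      fin_cases i
      · exact h2
      · exact h1
    have hv' : (![v 1, -v 0] : Fin 2 → C) ≠ 0 := by
      intro h
      apply hv
      have h1 := congrFun h 0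
      have h2 := congrFun h 1
      simp at h1 h2
      funext i
      fin_cases i
      · exact h2
      · exact h1
    apply (hhs M hS).2 _ _ hu' hv'
    have h0 : aw M ![u 1, -u 0] ![v 1, -v 0] = 0 := by
      ext a b
      have h1 := hEr (a, b)
      rw [hruv, GSB_bf, hE] at h1
      simp only [aw, Matrix.sum_apply, Matrix.smul_apply, smul_eq_mul, Matrix.zero_apply]
      exact h1
    rw [h0]
    exact Matrix.adjugate_zero
  have hEsum : ∀ α, E α = ∑ i, (B4 : LinearMap.BilinForm C _) (E α) (f i) • f i := by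
    intro α
    have h1 := hrv α
    rw [rv, sub_eq_zero] at h1
    exact h1
  obtain ⟨g, hg, hgf⟩ := ort_ext hn f (fun i j => horth i j)
  obtain ⟨I, hI⟩ := IsAlgClosed.exists_pow_nat_eq (-1 : C) (n := 2) (by norm_num)
  obtain ⟨O₀, hO₀, hov⟩ := ort_iso I hI g hg
  obtain ⟨Q, hQ, hQb⟩ := hOS.co
  refine ⟨O₀ᵀ, sim_tr two_ne_zero one_ne_zero hO₀, ?_⟩
  intro a b i j
  rw [en_ow, Matrix.transpose_transpose, hov]
  -- variables
  obtain ⟨θ, hθ⟩ : ∃ θ : (((Fin 3 × Fin 3) × (Fin 3 × Fin 3)) ⊕ (Fin n × (Fin 3 × Fin 3))) ⊕ Unit → C,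
    θ = Sum.elim (Sum.elim (fun p => bf (E p.1) (E p.2)) (fun p => Q p.1 p.2)) (fun _ => I) := ⟨_, rfl⟩
  have hc80 : 2 ≤ c + 80 := by omega
  have hθb : ∀ p, Bd (c + 80) s (θ p) := by
    rintro ((p | p) | p)
    · rw [hθ]
      exact (hG' p.1 p.2).mono (by omega)
    · rw [hθ]
      exact hQb _ _
    · rw [hθ]
      exact Bd.sqrt_neg_one hs hc80 hI
  have hv1 : ∀ α β, PB θ 1 (bf (E α) (E β)) := by
    intro α β
    have := PB.var (θ := θ) (Sum.inl (Sum.inl (α, β)))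
    rw [hθ] at this ⊢
    exact this
  have hv2 : ∀ k β, PB θ 1 (Q k β) := by
    intro α β
    have := PB.var (θ := θ) (Sum.inl (Sum.inr (α, β)))
    rw [hθ] at this ⊢
    exact this
  have hv3 : PB θ 1 I := by
    have := PB.var (θ := θ) (Sum.inr ())
    rw [hθ] at this ⊢
    exact this
  have hsc : ∀ α (k : Fin 4), PB θ 11 (bf (E α) (g k)) := by
    intro α k
    by_cases hk : (k : ℕ) < n
    · obtain ⟨k', hk'⟩ : ∃ k' : Fin n, g k = f k' := by
        refine ⟨⟨k, hk⟩, ?_⟩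
        rw [← hgf]
        rfl
      rw [hk', hQ, bf_symm, bf_sum_left]
      have h1 : ∀ β, bf (Q k' β • E β) (E α) = Q k' β * bf (E β) (E α) := fun β => bf_smul_left _ _ _
      simp only [h1]
      have h2 := PB.sum (θ := θ) (N := 2) (Finset.univ : Finset (Fin 3 × Fin 3))
        (fun β => Q k' β * bf (E β) (E α)) (fun β _ => (hv2 k' β).mul (hv1 β α))
      exact h2.mono (by simp)
    · have h0 : bf (E α) (g k) = 0 := by
        rw [hEsum α, bf_sum_left]
        refine Finset.sum_eq_zero fun m _ => ?_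
        rw [bf_smul_left, ← hgf m, hg, if_neg, mul_zero]
        intro h
        apply hk
        rw [← h]
        exact m.2
      rw [h0]
      exact PB.zero.mono (by norm_num)
  have hent : (∑ k, bf (en M a b) (g k) • nb I k) i j = ∑ k, bf (E (a, b)) (g k) * nb I k i j := by
    rw [Matrix.sum_apply, hE]
    rfl
  rw [hent]
  have hp : PB θ 18 (2 * ∑ k, bf (E (a, b)) (g k) * nb I k i j) := by
    rw [Finset.mul_sum]
    have h1 : ∀ k, 2 * (bf (E (a, b)) (g k) * nb I k i j) = bf (E (a, b)) (g k) * (2 * nb I k i j) := by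
      intro k
      ring
    simp only [h1]
    have h2 := PB.sum (θ := θ) (N := 14) (Finset.univ : Finset (Fin 4))
      (fun k => bf (E (a, b)) (g k) * (2 * nb I k i j)) (fun k _ => (hsc (a, b) k).mul (GSB_nb hv3 k i j))
    exact h2.mono (by simp)
  have hq : PB θ 18 (2 : C) := by
    have := PB.int (θ := θ) (N := 18) 2 (by norm_num)
    simpa using this
  have hcard : Fintype.card ((((Fin 3 × Fin 3) × (Fin 3 × Fin 3)) ⊕ (Fin n × (Fin 3 × Fin 3))) ⊕ Unit) ≤ 50000 := by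
    simp
    omega
  have h6 := PB.quot hs hc80 (by norm_num) hcard hθb hp hq two_ne_zero
  rw [mul_div_cancel_left₀ _ two_ne_zero] at h6
  exact h6
end Pool.Agent.T1
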