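import Pool.Agent.T1.ENA

/-!
# T1 / SMG: smoothness and similitudes

`smo_iff`: `D = dF F`, `D(s, t) = F(s tᵀ)` (`eval_dF`), `∂D/∂s_i (s, t) = ∑ j, t j * (∂F/∂x_ij)(s tᵀ)`, `∂D/∂t_j = ∑ i, s i * (∂F/∂x_ij)(s tᵀ)` (chain rule; induction on `F`, or `PQ`-style `pderiv` of `aeval`).  With `L(v) = ∑ ij, (∂F/∂x_ij)(x) * v i j`, `x = s tᵀ`: all derivatives of `D` at `(s, t)`
vanish iff `L` vanishes on all `u tᵀ` and all `s wᵀ`, iff `L` vanishes on `{v | bf x v = 0}` (for `s, t ≠ 0` this space is spanned by the `u tᵀ`, `s wᵀ`: `bf x v` is the value of the bilinear form `v` at `(s', t') = (![s 1, -s 0], ![t 1, -t 0])`, if it vanishes then `v *ᵥ t'` is a multiple of `s`, ...).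
Null vectors `x ≠ 0` are `s tᵀ`: `null_vec`.
`smo_oF`: for `x` with `det x = 0`, `x ≠ 0`, `(F ∘ O)(x) = F(O x)` (`eval_oF`), `∑ ij, ∂(F ∘ O)/∂x_ij (x) * v ij = ∑ kl, (∂F/∂x_kl)(O x) * (O v) kl` (chain rule), `bf (O x) (O v) = c * bf x v` (polarisation of `Sim`; `c ≠ 0`), `O x ≠ 0` and `v` with `O v` prescribed: `Sim.inv` (`O` is invertible).
`dF_oF`: if `dF F = dF G` (`F`, `G` agree on null vectors) then `dF (oF O F) = dF (oF O G)` (`p4_ext`, `eval_dF`, `eval_oF`; `O (s tᵀ)` is a null vector: `0` or of the form `s' t'ᵀ`; for `0` use `s' = 0`).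
-/

namespace Pool.Agent.T1

open MvPolynomial Matrix

section

variable {k : Type*} [Field k]

private theorem SMG_chain {σ τ : Type*} [Fintype σ] (g : σ → MvPolynomial τ k) (t : τ)
    (F : MvPolynomial σ k) :
    pderiv t (aeval g F) = ∑ s, pderiv t (g s) * aeval g (pderiv s F) := by
  classical
  induction F using MvPolynomial.induction_on with
  | C a => simp [← MvPolynomial.algebraMap_eq]
  | add p q hp hq => simp only [map_add, hp, hq, mul_add, Finset.sum_add_distrib]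
  | mul_X p s hp =>
    rw [map_mul, aeval_X, pderiv_mul, hp]
    have e : ∀ i, pderiv t (g i) * aeval g (pderiv i (p * X s)) =
        (pderiv t (g i) * aeval g (pderiv i p)) * g s +
          (if i = s then aeval g p * pderiv t (g s) else 0) := by
      intro i
      rw [pderiv_mul, map_add, map_mul, map_mul, aeval_X, pderiv_X]
      by_cases h : i = s
      · subst h; simp; ring
      · rw [Pi.single_eq_of_ne (fun h2 => h h2.symm), if_neg h, map_zero]; ring
    rw [Finset.sum_congr rfl fun i _ => e i, Finset.sum_add_distrib, Finset.sum_mul,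
      Finset.sum_ite_eq' Finset.univ s, if_pos (Finset.mem_univ s)]

private theorem SMG_l (F : MvPolynomial (Fin 2 × Fin 2) k) (s t : Fin 2 → k) (i : Fin 2) :
    eval (pt s t) (pderiv (Sum.inl i) (dF F)) =
      ∑ ij : Fin 2 × Fin 2, eval (fun ij => s ij.1 * t ij.2) (pderiv ij F) *
        (if ij.1 = i then t ij.2 else 0) := by
  unfold dF
  rw [SMG_chain, map_sum]
  refine Finset.sum_congr rfl fun kl _ => ?_
  have h1 := eval_dF (pderiv kl F) s t
  unfold dF at h1
  rw [map_mul, h1, pderiv_mul, pderiv_X, pderiv_X]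
  by_cases h : kl.1 = i
  · subst h; simp [pt, mul_comm]
  · simp [h, pt]

private theorem SMG_r (F : MvPolynomial (Fin 2 × Fin 2) k) (s t : Fin 2 → k) (j : Fin 2) :
    eval (pt s t) (pderiv (Sum.inr j) (dF F)) =
      ∑ ij : Fin 2 × Fin 2, eval (fun ij => s ij.1 * t ij.2) (pderiv ij F) *
        (if ij.2 = j then s ij.1 else 0) := by
  unfold dF
  rw [SMG_chain, map_sum]
  refine Finset.sum_congr rfl fun kl _ => ?_
  have h1 := eval_dF (pderiv kl F) s t
  unfold dF at h1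
  rw [map_mul, h1, pderiv_mul, pderiv_X, pderiv_X]
  by_cases h : kl.2 = j
  · subst h; simp [pt, mul_comm]
  · simp [h, pt]

private theorem SMG_ne {v : Fin 2 → k} (hv : v ≠ 0) : v 0 ≠ 0 ∨ v 1 ≠ 0 := by
  by_contra h
  push Not at h
  apply hv
  ext i
  fin_cases i
  · exact h.1
  · exact h.2

private theorem SMG_one (x : Matrix (Fin 2) (Fin 2) k) :
    ov (1 : Matrix (Fin 2 × Fin 2) (Fin 2 × Fin 2) k) x = x := by
  ext i j
  simp [ov, Matrix.one_apply]

private theorem SMG_add (O : Matrix (Fin 2 × Fin 2) (Fin 2 × Fin 2) k)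
    (x y : Matrix (Fin 2) (Fin 2) k) : ov O (x + y) = ov O x + ov O y := by
  ext i j
  simp [ov, mul_add, Finset.sum_add_distrib]

private theorem SMG_zero (O : Matrix (Fin 2 × Fin 2) (Fin 2 × Fin 2) k) :
    ov O (0 : Matrix (Fin 2) (Fin 2) k) = 0 := by
  ext i j
  simp [ov]

private theorem SMG_pol (x y : Matrix (Fin 2) (Fin 2) k) : bf x y = (x + y).det - x.det - y.det := by
  simp only [bf, Matrix.det_fin_two, Matrix.add_apply]
  ring

private theorem SMG_oF (O : Matrix (Fin 2 × Fin 2) (Fin 2 × Fin 2) k)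
    (F : MvPolynomial (Fin 2 × Fin 2) k) (x : Matrix (Fin 2) (Fin 2) k) (ij : Fin 2 × Fin 2) :
    eval (fun ij => x ij.1 ij.2) (pderiv ij (oF O F)) =
      ∑ kl, O kl ij * eval (fun ij => ov O x ij.1 ij.2) (pderiv kl F) := by
  have h0 : oF O F = aeval (fun kl => ∑ ij : Fin 2 × Fin 2, C (O kl ij) * X ij) F := rfl
  rw [h0, SMG_chain, map_sum]
  refine Finset.sum_congr rfl fun kl _ => ?_
  have h1 : eval (fun ij => x ij.1 ij.2)
      (aeval (fun kl => ∑ ij : Fin 2 × Fin 2, C (O kl ij) * X ij) (pderiv kl F)) =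
      eval (fun ij => ov O x ij.1 ij.2) (pderiv kl F) := eval_oF O (pderiv kl F) x
  rw [map_mul, h1]
  congr 1
  rw [map_sum, map_sum]
  simp only [pderiv_C_mul, map_mul, eval_C, pderiv_X]
  rw [Finset.sum_eq_single ij]
  · simp
  · intro b _ hb
    rw [Pi.single_eq_of_ne hb]
    simp
  · intro h; exact absurd (Finset.mem_univ _) h

theorem smo_iff (F : MvPolynomial (Fin 2 × Fin 2) k) : Smo (dF F) ↔
    ∀ x : Matrix (Fin 2) (Fin 2) k, x ≠ 0 → x.det = 0 → eval (fun ij => x ij.1 ij.2) F = 0 →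
      ∃ v : Matrix (Fin 2) (Fin 2) k, bf x v = 0 ∧
        ∑ ij : Fin 2 × Fin 2, eval (fun ij => x ij.1 ij.2) (pderiv ij F) * v ij.1 ij.2 ≠ 0 := by
  constructor
  · intro h x hx hd h0
    obtain ⟨s, t, hs, ht, rfl⟩ := null_vec x hd hx
    have h1 : eval (pt s t) (dF F) = 0 := by
      rw [eval_dF]; exact h0
    obtain ⟨i, hi⟩ := h s t hs ht h1
    rcases i with i | j
    · refine ⟨Matrix.of fun a b => if a = i then t b else 0, ?_, ?_⟩
      · fin_cases i <;> simp [bf] <;> ring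
      · rw [SMG_l] at hi
        exact hi
    · refine ⟨Matrix.of fun a b => if b = j then s a else 0, ?_, ?_⟩
      · fin_cases j <;> simp [bf] <;> ring
      · rw [SMG_r] at hi
        exact hi
  · intro h s t hs ht h0
    have hx : (Matrix.of fun i j => s i * t j : Matrix (Fin 2) (Fin 2) k) ≠ 0 := by
      intro h1
      rcases SMG_ne hs with h2 | h2 <;> rcases SMG_ne ht with h3 | h3
      · exact mul_ne_zero h2 h3 (congrFun (congrFun h1 0) 0)
      · exact mul_ne_zero h2 h3 (congrFun (congrFun h1 0) 1)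
      · exact mul_ne_zero h2 h3 (congrFun (congrFun h1 1) 0)
      · exact mul_ne_zero h2 h3 (congrFun (congrFun h1 1) 1)
    have hd : (Matrix.of fun i j => s i * t j : Matrix (Fin 2) (Fin 2) k).det = 0 := by
      rw [Matrix.det_fin_two]
      simp only [Matrix.of_apply]
      ring
    obtain ⟨v, hv, hL⟩ := h _ hx hd (by rw [eval_dF] at h0; exact h0)
    by_contra hcon
    push Not at hcon
    apply hL
    have e1 := hcon (Sum.inl 0)
    have e2 := hcon (Sum.inl 1)
    have e3 := hcon (Sum.inr 0)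
    have e4 := hcon (Sum.inr 1)
    rw [SMG_l] at e1 e2
    rw [SMG_r] at e3 e4
    simp only [Matrix.of_apply]
    generalize (fun ij : Fin 2 × Fin 2 => eval (fun ij : Fin 2 × Fin 2 => s ij.1 * t ij.2)
      (pderiv ij F)) = G at *
    simp only [bf, Matrix.of_apply] at hv
    simp only [Fintype.sum_prod_type, Fin.sum_univ_two] at e1 e2 e3 e4 ⊢
    simp at e1 e2 e3 e4
    generalize eval (fun ij : Fin 2 × Fin 2 => s ij.1 * t ij.2) (pderiv (0, 0) F) = F00 at *
    generalize eval (fun ij : Fin 2 × Fin 2 => s ij.1 * t ij.2) (pderiv (0, 1) F) = F01 at *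
    generalize eval (fun ij : Fin 2 × Fin 2 => s ij.1 * t ij.2) (pderiv (1, 0) F) = F10 at *
    generalize eval (fun ij : Fin 2 × Fin 2 => s ij.1 * t ij.2) (pderiv (1, 1) F) = F11 at *
    rcases SMG_ne hs with h2 | h2 <;> rcases SMG_ne ht with h3 | h3
    · refine (mul_eq_zero.1 (?_ : s 0 * t 0 * _ = 0)).resolve_left (mul_ne_zero h2 h3)
      linear_combination F11 * hv + v 0 1 * t 0 * e4 + v 1 0 * s 0 * e2 +
        v 0 0 * (s 0 * e1 - t 1 * e4)
    · refine (mul_eq_zero.1 (?_ : s 0 * t 1 * _ = 0)).resolve_left (mul_ne_zero h2 h3)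
      linear_combination -F10 * hv + v 0 0 * t 1 * e3 + v 1 1 * s 0 * e2 +
        v 0 1 * (s 0 * e1 - t 0 * e3)
    · refine (mul_eq_zero.1 (?_ : s 1 * t 0 * _ = 0)).resolve_left (mul_ne_zero h2 h3)
      linear_combination -F01 * hv + v 0 0 * s 1 * e1 + v 1 1 * t 0 * e4 +
        v 1 0 * (s 1 * e2 - t 1 * e4)
    · refine (mul_eq_zero.1 (?_ : s 1 * t 1 * _ = 0)).resolve_left (mul_ne_zero h2 h3)
      linear_combination F00 * hv + s 1 * v 0 1 * e1 + t 1 * v 1 0 * e3 +
        v 1 1 * (s 1 * e2 - t 0 * e3)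

theorem bf_ov (h2 : (2 : k) ≠ 0) {O : Matrix (Fin 2 × Fin 2) (Fin 2 × Fin 2) k} {c : k} (hO : Sim O c)
    (x y : Matrix (Fin 2) (Fin 2) k) : bf (ov O x) (ov O y) = c * bf x y := by
  rw [SMG_pol, SMG_pol, ← SMG_add, hO, hO, hO]
  ring

theorem smo_oF (h2 : (2 : k) ≠ 0) (O : Matrix (Fin 2 × Fin 2) (Fin 2 × Fin 2) k) (c : k) (hc : c ≠ 0)
    (hO : Sim O c) (F : MvPolynomial (Fin 2 × Fin 2) k) (h : Smo (dF F)) : Smo (dF (oF O F)) := by
  obtain ⟨i1, i2, _⟩ := Sim.inv h2 hc hO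
  rw [smo_iff] at h ⊢
  intro x hx hd h0
  rw [eval_oF] at h0
  have hx' : ov O x ≠ 0 := by
    intro h1
    apply hx
    have h3 : ov O⁻¹ (ov O x) = x := by rw [ov_ov, i2, SMG_one]
    rw [← h3, h1, SMG_zero]
  obtain ⟨v, hv, hL⟩ := h (ov O x) hx' (by rw [hO, hd, mul_zero]) h0
  have hv' : ov O (ov O⁻¹ v) = v := by rw [ov_ov, i1, SMG_one]
  refine ⟨ov O⁻¹ v, ?_, ?_⟩
  · have h3 := bf_ov h2 hO x (ov O⁻¹ v)
    rw [hv', hv] at h3
    exact (mul_eq_zero.1 h3.symm).resolve_left hc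
  · intro h3
    apply hL
    rw [← h3]
    have e : ∀ ij : Fin 2 × Fin 2, eval (fun ij => x ij.1 ij.2) (pderiv ij (oF O F)) *
        ov O⁻¹ v ij.1 ij.2 = ∑ kl : Fin 2 × Fin 2,
          eval (fun ij => ov O x ij.1 ij.2) (pderiv kl F) * (O kl ij * ov O⁻¹ v ij.1 ij.2) := by
      intro ij
      rw [SMG_oF, Finset.sum_mul]
      refine Finset.sum_congr rfl fun kl _ => ?_
      ring
    rw [Finset.sum_congr rfl fun ij _ => e ij, Finset.sum_comm]
    refine Finset.sum_congr rfl fun kl _ => ?_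
    rw [← Finset.mul_sum]
    congr 1
    conv_lhs => rw [← hv']
    rfl

theorem dF_oF [Infinite k] (O : Matrix (Fin 2 × Fin 2) (Fin 2 × Fin 2) k) (c : k) (hO : Sim O c)
    (F G : MvPolynomial (Fin 2 × Fin 2) k) (h : dF F = dF G) : dF (oF O F) = dF (oF O G) := by
  refine p4_ext fun s t => ?_
  rw [eval_dF, eval_dF]
  have e1 := eval_oF O F (Matrix.of fun i j => s i * t j)
  have e2 := eval_oF O G (Matrix.of fun i j => s i * t j)
  simp only [Matrix.of_apply] at e1 e2
  rw [e1, e2]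
  have hd : (ov O (Matrix.of fun i j => s i * t j)).det = 0 := by
    rw [hO, Matrix.det_fin_two]
    simp only [Matrix.of_apply]
    ring
  have key : ∀ s' t' : Fin 2 → k, eval (fun ij : Fin 2 × Fin 2 => s' ij.1 * t' ij.2) F =
      eval (fun ij : Fin 2 × Fin 2 => s' ij.1 * t' ij.2) G := by
    intro s' t'
    rw [← eval_dF, ← eval_dF, h]
  by_cases hy : ov O (Matrix.of fun i j => s i * t j) = 0
  · rw [hy]
    have := key 0 0
    simpa using this
  · obtain ⟨s', t', -, -, he⟩ := null_vec _ hd hy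
    rw [he]
    exact key s' t'

theorem oF_hom (O : Matrix (Fin 2 × Fin 2) (Fin 2 × Fin 2) k) (F : MvPolynomial (Fin 2 × Fin 2) k) (n : ℕ)
    (h : F.IsHomogeneous n) : (oF O F).IsHomogeneous n := by
  unfold oF
  have h1 := h.aeval (fun kl : Fin 2 × Fin 2 => ∑ ij : Fin 2 × Fin 2, C (O kl ij) * X ij) (n := 1)
    (fun kl => IsHomogeneous.sum _ _ _ fun ij _ => by
      have h2 := (isHomogeneous_C (Fin 2 × Fin 2) (O kl ij)).mul (isHomogeneous_X k ij)
      simpa using h2)
  simpa using h1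

end

end Pool.Agent.T1
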