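import Pool.Agent.T1.GRB
import Pool.Agent.T1.GSB
import Pool.Agent.T1.DCB
import Pool.Agent.T1.SMG
import Pool.Agent.T1.FGM

/-!
# T1 / BDF: forms with bounded webs are bounded after a similitude

`exw` (with `BH_dF`): a web `M`, `Sy M`, `dW M = dF F0`.  `smq`: `NS (qt M)`; `nsf`, `PQ.exi` (`qt_hom`): `h`, `c0`, `b`, `det h ≠ 0`, `c0 ≠ 0`, `ND b`, `sb h (qt M) = C c0 * RB b`.  `UNH` for `M` (`u = 1`): `GB c s M`, so all `b i r` are `Bd c`.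
`r` with `r² = c0⁻¹`, `M1 := r • gw h M`: `qt M1 = C (r²) * sb h (qt M) = RB b` (`qt_smul`, `qt_gw`), `Sy M1`, `dW M1 = C (r ^ 3 * h.det ^ 2) * dF F0` (`dW_smul`, `dW_gw`), `u := r ^ 3 * h.det ^ 2 ≠ 0`.  `grb` for `M1`, `b`: scalar products `Bd (c + 100)`.  `gsb` (level `c + 100`; `smo_C`): `O`, `Sim O 1`,
entries of `N = ow O M1` are `Bd (c + 190)`.  `dco_dW`: `dco (dW N)` are `Bd (c + 200)`.  `dW N = dF (cW (ow O M1)) = dF (oF O (cW M1))` (`dF_cW`, `cW_ow`), `dF (cW M1) = dW M1 = C u * dF F0 = dF (C u * F0)`, so by `dF_oF`: `dW N = dF (oF O (C u * F0)) = C u * dF (oF O F0)`.  `e = u`.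
-/

namespace Pool.Agent.T1

open MvPolynomial Matrix
open Pool.Agent.PQ (P3 NS SF sb RB ND l1 lin Bit)

private theorem BDF_dF_C {R : Type*} [CommRing R] (a : R) : dF (MvPolynomial.C a) = MvPolynomial.C a := by
  unfold dF
  rw [aeval_C, MvPolynomial.algebraMap_eq]

private theorem BDF_oF_C {R : Type*} [CommRing R] (O : Matrix (Fin 2 × Fin 2) (Fin 2 × Fin 2) R) (a : R) :
    oF O (MvPolynomial.C a) = MvPolynomial.C a := by
  unfold oF
  rw [aeval_C, MvPolynomial.algebraMap_eq]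

theorem bdd {C : Type*} [Field C] [CharZero C] [IsAlgClosed C] {c s : ℕ} (hs : 16 ≤ s) (hc : 2 ≤ c)
    (F0 : MvPolynomial (Fin 2 × Fin 2) C) (hF : F0.IsHomogeneous 3) (hS : Smo (dF F0))
    (hU : UNH c s (dF F0)) : ∃ (O : Matrix (Fin 2 × Fin 2) (Fin 2 × Fin 2) C) (e : C), e ≠ 0 ∧ Sim O 1 ∧
      ∀ i j, Bd (c + 200) s (dco (MvPolynomial.C e * dF (oF O F0)) i j) := by
  obtain ⟨M, hM, hd⟩ := exw (dF F0) (BH_dF hF) hS
  have hG : GB c s M := hU M hM ⟨1, one_ne_zero, by rw [hd, map_one, one_mul]⟩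
  have hNS : NS (qt M) := smq two_ne_zero M hM (by rw [hd]; exact hS)
  obtain ⟨h, c0, b, hh, hc0, hb, he⟩ := PQ.exi (qt M) (qt_hom M) (nsf _ hNS)
  have hbd := hG h c0 b hh hc0 hb he
  obtain ⟨r, hr⟩ := IsAlgClosed.exists_pow_nat_eq (c0⁻¹) (n := 2) (by norm_num)
  have hr0 : r ≠ 0 := by
    rintro rfl
    rw [zero_pow two_ne_zero] at hr
    exact inv_ne_zero hc0 hr.symm
  have hM1 : Sy (r • gw h M) := (hM.gw h).smul r
  have hq : qt (r • gw h M) = RB b := by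
    rw [qt_smul, qt_gw, he, hr, ← mul_assoc, ← map_mul, inv_mul_cancel₀ hc0, map_one, one_mul]
  have hu : r ^ 3 * h.det ^ 2 ≠ 0 := mul_ne_zero (pow_ne_zero _ hr0) (pow_ne_zero _ hh)
  have hd1 : dW (r • gw h M) = MvPolynomial.C (r ^ 3 * h.det ^ 2) * dF F0 := by
    rw [dW_smul, dW_gw, hd, ← mul_assoc, ← map_mul]
  have hgr := grb hs hc (dF F0) hS hU (r • gw h M) hM1 _ hu hd1 b hb hbd hq
  have hS1 : Smo (dW (r • gw h M)) := by
    rw [hd1]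
    exact smo_C hu hS
  obtain ⟨O, hO, hen⟩ := gsb hs (by omega) (r • gw h M) hM1 hS1 hgr
  refine ⟨O, r ^ 3 * h.det ^ 2, hu, hO, fun i j => ?_⟩
  have h1 := dco_dW hs (by omega) (ow O (r • gw h M)) hen i j
  have h2 : dW (ow O (r • gw h M)) = MvPolynomial.C (r ^ 3 * h.det ^ 2) * dF (oF O F0) := by
    rw [← dF_cW, cW_ow]
    have h3 : dF (cW (r • gw h M)) = dF (MvPolynomial.C (r ^ 3 * h.det ^ 2) * F0) := by
      rw [dF_cW, hd1, map_mul dF, BDF_dF_C]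
    rw [dF_oF O 1 hO _ _ h3, map_mul (oF O), map_mul dF, BDF_oF_C, BDF_dF_C]
  rw [h2] at h1
  exact h1

end Pool.Agent.T1
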