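import Mathlib

/-!
# T1 / BEZ: the number of simple zeros of a system of polynomials

`n` variables, `n` polynomials `f i` of degree `≤ d`; then there are at most `(d n + 1)^n` common zeros with injective (so invertible) Jacobian matrix.
Proof.  Let `N = S.card`.  Choose polynomials `e p` (`p ∈ S`) with `eval q (e p) = if q = p then 1 else 0` for `q ∈ S` (interpolation: products of linear forms), and `L ≥ 1`
with `totalDegree (e p) ≤ L`.  Claim: the polynomials `e p * ∏ f i ^ α i`, `p ∈ S`, `α : ι → Fin (L + 1)`, are linearly independent.  Their degrees in each variable are `≤ L + d n L`; the space of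
polynomials with all `degreeOf j ≤ X` has dimension `(X + 1)^n`; so `N (L + 1)^n ≤ (L + d n L + 1)^n ≤ ((d n + 1)(L + 1))^n` and `N ≤ (d n + 1)^n`.
Proof of the claim: suppose `∑ c p α • e p * f^α = 0` with some `c ≠ 0`; let `m` be the minimal `|α| = ∑ α i` of a pair `(p, α)` with `c p α ≠ 0`, and fix such a `p` (with `|α| = m` for some `α`).
Substitute `x = p + ε y` (`ε`, `y j` new variables; e.g. work in `(MvPolynomial σ k)[ε]`): `f i (p + ε y) = ε * g i`, `g i` at `ε = 0` is the linear form `l i (y) = ∑ j y j * ∂_j f i (p)`.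
`∑ c q α ε^|α| e q (p + ε y) g^α = 0`; divide by `ε^m` and put `ε = 0`: `e q (p) = δ`, so `∑_{|α| = m} c p α ∏ (l i)^(α i) = 0`.  The linear forms `l i` are linearly independent
(`n × n` matrix, injective by hypothesis, so invertible): the substitution `Y i ↦ l i` is an automorphism of the polynomial ring, so the `∏ (l i)^(α i)` are linearly independent.  So `c p α = 0` for
all `|α| = m`, contradiction.
-/

namespace Pool.Agent.T1

open MvPolynomial

section

variable {k σ ι : Type*} [Field k]

private noncomputable def bezPhi (p : σ → k) :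
    MvPolynomial σ k →ₐ[k] Polynomial (MvPolynomial σ k) :=
  aeval (fun j => Polynomial.C (C (p j)) + Polynomial.X * Polynomial.C (X j))

private theorem bezPhi_X (p : σ → k) (j : σ) :
    bezPhi p (X j) = Polynomial.C (C (p j)) + Polynomial.X * Polynomial.C (X j) := by
  simp [bezPhi]

private theorem bezPhi_C (p : σ → k) (a : k) :
    bezPhi p (C a : MvPolynomial σ k) = Polynomial.C (C a) := by
  simp only [bezPhi, algHom_C]
  rfl

private theorem bezPhi_coeff_zero (p : σ → k) (q : MvPolynomial σ k) :
    (bezPhi p q).coeff 0 = C (eval p q) := by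
  induction q using MvPolynomial.induction_on with
  | C a => rw [bezPhi_C]; simp
  | add q r hq hr => rw [map_add, Polynomial.coeff_add, hq, hr, map_add, map_add]
  | mul_X q i hq =>
    rw [map_mul, Polynomial.mul_coeff_zero, hq, bezPhi_X]
    simp

private theorem bezPhi_coeff_one [Fintype σ] [DecidableEq σ] (p : σ → k) (q : MvPolynomial σ k) :
    (bezPhi p q).coeff 1 = ∑ j, C (eval p (pderiv j q)) * X j := by
  induction q using MvPolynomial.induction_on with
  | C a => rw [bezPhi_C]; simp
  | add q r hq hr =>
    rw [map_add, Polynomial.coeff_add, hq, hr, ← Finset.sum_add_distrib]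
    refine Finset.sum_congr rfl fun j _ => ?_
    rw [map_add, map_add, map_add, add_mul]
  | mul_X q i hq =>
    rw [map_mul, bezPhi_X, mul_add, Polynomial.coeff_add, Polynomial.coeff_mul_C, hq,
      ← mul_assoc, Polynomial.coeff_mul_C, Polynomial.coeff_mul_X, bezPhi_coeff_zero,
      Finset.sum_mul]
    have h1 : ∀ j, C (eval p (pderiv j (q * X i))) * (X j : MvPolynomial σ k)
        = C (eval p (pderiv j q)) * X j * C (p i)
          + (if j = i then C (eval p q) * X i else 0) := by
      intro j
      rw [Derivation.leibniz]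
      by_cases hj : j = i
      · subst hj
        rw [pderiv_X_self]
        simp only [smul_eq_mul, mul_one, map_add, map_mul, eval_X, if_true]
        ring
      · rw [if_neg hj, pderiv_X_of_ne (Ne.symm hj)]
        simp only [smul_eq_mul, mul_zero, zero_add, map_mul, eval_X, add_zero]
        ring
    rw [Finset.sum_congr rfl fun j _ => h1 j, Finset.sum_add_distrib, Finset.sum_ite_eq']
    simp

/-- interpolation -/
private theorem bez_interp [Fintype σ] (S : Finset (σ → k)) (q : σ → k) :
    ∃ e : MvPolynomial σ k, eval q e = 1 ∧ ∀ p ∈ S, p ≠ q → eval p e = 0 := by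
  classical
  have h : ∀ p : σ → k, p ≠ q → ∃ j, p j ≠ q j := fun p hp => by
    by_contra hcon
    push Not at hcon
    exact hp (funext hcon)
  rcases isEmpty_or_nonempty σ with hσ | hσ
  · exact ⟨1, map_one _, fun p _ hpq => absurd (Subsingleton.elim p q) hpq⟩
  choose! jj hjj using h
  refine ⟨∏ p ∈ S.filter (fun p => p ≠ q), C ((q (jj p) - p (jj p))⁻¹) * (X (jj p) - C (p (jj p))),
    ?_, ?_⟩
  · rw [eval_prod]
    refine Finset.prod_eq_one fun p hp => ?_
    have hp' := (Finset.mem_filter.mp hp).2
    have h0 : q (jj p) - p (jj p) ≠ 0 := sub_ne_zero.mpr (Ne.symm (hjj p hp'))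
    simp [h0]
  · intro p hp hpq
    rw [eval_prod]
    refine Finset.prod_eq_zero (Finset.mem_filter.mpr ⟨hp, hpq⟩) ?_
    simp

private theorem bez_indep [Fintype σ] [DecidableEq σ] [Fintype ι] [DecidableEq ι]
    (hc : Fintype.card ι = Fintype.card σ) (f : ι → MvPolynomial σ k)
    (S : Finset (σ → k)) (hS : ∀ p ∈ S, ∀ i, eval p (f i) = 0)
    (hJ : ∀ p ∈ S, ∀ v : σ → k, (∀ i, ∑ j, v j * eval p (pderiv j (f i)) = 0) → v = 0)
    (e : (σ → k) → MvPolynomial σ k) (he1 : ∀ q, eval q (e q) = 1)
    (he0 : ∀ q, ∀ p ∈ S, p ≠ q → eval p (e q) = 0) (L : ℕ)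
    (c : S × (ι → Fin (L + 1)) → k)
    (h : ∑ x, C (c x) * (e x.1 * ∏ i, f i ^ (x.2 i : ℕ)) = 0) : c = 0 := by
  classical
  have key : ∀ m : ℕ, ∀ (p : S) (α : ι → Fin (L + 1)), ∑ i, (α i : ℕ) = m → c (p, α) = 0 := by
    intro m
    induction m using Nat.strong_induction_on with
    | _ m ih =>
      intro p α₀ hα₀
      -- the inverse of the Jacobian
      let A : (σ → k) →ₗ[k] (ι → k) :=
        { toFun := fun v i => ∑ j, v j * eval (p : σ → k) (pderiv j (f i))
          map_add' := fun v w => by
            funext i
            simp [add_mul, Finset.sum_add_distrib]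
          map_smul' := fun a v => by
            funext i
            simp [Finset.mul_sum, mul_assoc] }
      have hA : Function.Injective A := by
        rw [← LinearMap.ker_eq_bot, LinearMap.ker_eq_bot']
        intro v hv
        exact hJ p p.2 v fun i => congrFun hv i
      have hAs : Function.Surjective A := by
        have hfr : Module.finrank k (σ → k) = Module.finrank k (ι → k) := by
          simp [hc]
        exact (LinearMap.injective_iff_surjective_of_finrank_eq_finrank hfr).mp hA
      choose b hb using fun i : ι => hAs (Pi.single i 1)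
      let ψ : MvPolynomial σ k →ₐ[k] MvPolynomial ι k := aeval (fun j => ∑ i, C (b i j) * X i)
      have hψ : ∀ i, ψ ((bezPhi (p : σ → k) (f i)).coeff 1) = X i := by
        intro i
        rw [bezPhi_coeff_one, map_sum]
        have h1 : ∀ j, ψ (C (eval (p : σ → k) (pderiv j (f i))) * X j)
            = ∑ i', C (b i' j * eval (p : σ → k) (pderiv j (f i))) * X i' := by
          intro j
          rw [map_mul]
          have h2 : ψ (X j) = ∑ i, C (b i j) * X i := aeval_X _ _
          have h3 : ψ (C (eval (p : σ → k) (pderiv j (f i))))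
              = C (eval (p : σ → k) (pderiv j (f i))) := algHom_C _ _
          rw [h2, h3, Finset.mul_sum]
          refine Finset.sum_congr rfl fun i' _ => ?_
          rw [map_mul]
          ring
        rw [Finset.sum_congr rfl fun j _ => h1 j, Finset.sum_comm]
        have h4 : ∀ i', ∑ j, C (b i' j * eval (p : σ → k) (pderiv j (f i))) * (X i' : MvPolynomial ι k)
            = if i = i' then X i' else 0 := by
          intro i'
          rw [← Finset.sum_mul, ← map_sum]
          have h5 : ∑ j, b i' j * eval (p : σ → k) (pderiv j (f i)) = (A (b i')) i := rfl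
          rw [h5, hb, Pi.single_apply]
          by_cases hii : i = i'
          · simp [hii]
          · simp [hii]
        rw [Finset.sum_congr rfl fun i' _ => h4 i']
        simp
      -- expand at p
      have hx := congrArg (fun q => (bezPhi (p : σ → k) q).coeff m) h
      simp only [map_zero, Polynomial.coeff_zero, map_sum, Polynomial.finsetSum_coeff] at hx
      have hfX : ∀ i, bezPhi (p : σ → k) (f i)
          = (bezPhi (p : σ → k) (f i)).divX * Polynomial.X := by
        intro i
        have h1 := Polynomial.divX_mul_X_add (bezPhi (p : σ → k) (f i))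
        rw [bezPhi_coeff_zero, hS p p.2 i, map_zero, map_zero, add_zero] at h1
        exact h1.symm
      have hterm : ∀ x : S × (ι → Fin (L + 1)),
          (bezPhi (p : σ → k) (C (c x) * (e x.1 * ∏ i, f i ^ (x.2 i : ℕ)))).coeff m
          = if x.1 = p ∧ ∑ i, (x.2 i : ℕ) = m then
              C (c x) * ∏ i, ((bezPhi (p : σ → k) (f i)).coeff 1) ^ (x.2 i : ℕ) else 0 := by
        intro x
        obtain ⟨q, α⟩ := x
        simp only
        have h1 : bezPhi (p : σ → k) (C (c (q, α)) * (e q * ∏ i, f i ^ (α i : ℕ)))
            = Polynomial.C (C (c (q, α))) * (bezPhi (p : σ → k) (e q)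
              * ∏ i, ((bezPhi (p : σ → k) (f i)).divX) ^ (α i : ℕ))
              * Polynomial.X ^ (∑ i, (α i : ℕ)) := by
          rw [map_mul, map_mul, map_prod, bezPhi_C]
          have h2 : ∏ i, bezPhi (p : σ → k) (f i ^ (α i : ℕ))
              = (∏ i, ((bezPhi (p : σ → k) (f i)).divX) ^ (α i : ℕ))
                * Polynomial.X ^ (∑ i, (α i : ℕ)) := by
            rw [← Finset.prod_pow_eq_pow_sum, ← Finset.prod_mul_distrib]
            refine Finset.prod_congr rfl fun i _ => ?_
            rw [map_pow, hfX i, mul_pow]
            congr 1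
            rw [← hfX i]
          rw [h2]
          ring
        rw [h1, Polynomial.coeff_mul_X_pow']
        by_cases hlt : ∑ i, (α i : ℕ) < m
        · rw [ih _ hlt q α rfl]
          have : ¬ (q = p ∧ ∑ i, (α i : ℕ) = m) := fun h => by omega
          simp [this]
        · by_cases hgt : m < ∑ i, (α i : ℕ)
          · have : ¬ (q = p ∧ ∑ i, (α i : ℕ) = m) := fun h => by omega
            rw [if_neg (by omega), if_neg this]
          · have heq : ∑ i, (α i : ℕ) = m := by omega
            rw [if_pos (le_of_eq heq), heq, Nat.sub_self, Polynomial.mul_coeff_zero,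
              Polynomial.mul_coeff_zero, Polynomial.coeff_C_zero, bezPhi_coeff_zero,
              Polynomial.coeff_zero_prod]
            by_cases hqp : q = p
            · subst hqp
              rw [he1, if_pos ⟨rfl, rfl⟩, map_one, one_mul]
              congr 1
              refine Finset.prod_congr rfl fun i _ => ?_
              rw [Polynomial.coeff_zero_eq_eval_zero, Polynomial.eval_pow,
                ← Polynomial.coeff_zero_eq_eval_zero, Polynomial.coeff_divX]
            · have : ((p : σ → k)) ≠ (q : σ → k) := fun h => hqp (Subtype.ext h.symm)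
              rw [he0 q p p.2 this]
              have h' : ¬ (q = p ∧ m = m) := fun h => hqp h.1
              rw [if_neg h']
              simp
      rw [Finset.sum_congr rfl fun x _ => hterm x] at hx
      have hy := congrArg ψ hx
      rw [map_zero, map_sum] at hy
      have hterm2 : ∀ x : S × (ι → Fin (L + 1)),
          ψ (if x.1 = p ∧ ∑ i, (x.2 i : ℕ) = m then
              C (c x) * ∏ i, ((bezPhi (p : σ → k) (f i)).coeff 1) ^ (x.2 i : ℕ) else 0)
          = if x.1 = p ∧ ∑ i, (x.2 i : ℕ) = m then
              monomial (Finsupp.equivFunOnFinite.symm fun i => (x.2 i : ℕ)) (c x) else 0 := by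
        intro x
        split_ifs with hxx
        · rw [map_mul, map_prod]
          have h3 : ψ (C (c x)) = C (c x) := algHom_C _ _
          rw [h3, monomial_eq]
          congr 1
          rw [Finsupp.prod_fintype _ _ (fun i => pow_zero _)]
          refine Finset.prod_congr rfl fun i _ => ?_
          rw [map_pow, hψ]
          rfl
        · exact map_zero _
      rw [Finset.sum_congr rfl fun x _ => hterm2 x] at hy
      have hz := congrArg (coeff (Finsupp.equivFunOnFinite.symm fun i => (α₀ i : ℕ))) hy
      rw [coeff_sum, coeff_zero, Finset.sum_eq_single (p, α₀)] at hz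
      · rw [if_pos ⟨rfl, hα₀⟩, coeff_monomial, if_pos rfl] at hz
        exact hz
      · intro x _ hx'
        split_ifs with hxx
        · rw [coeff_monomial, if_neg]
          intro h'
          apply hx'
          have h'' := Finsupp.equivFunOnFinite.symm.injective h'
          refine Prod.ext hxx.1 (funext fun i => Fin.ext (congrFun h'' i))
        · exact coeff_zero _
      · intro h'
        exact absurd (Finset.mem_univ _) h'
  funext x
  exact key _ x.1 x.2 rfl

end

theorem bez {k σ ι : Type*} [Field k] [Infinite k] [Fintype σ] [Fintype ι] [DecidableEq σ]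
    (hc : Fintype.card ι = Fintype.card σ) (d : ℕ) (f : ι → MvPolynomial σ k)
    (hf : ∀ i, (f i).totalDegree ≤ d) (S : Finset (σ → k)) (hS : ∀ p ∈ S, ∀ i, eval p (f i) = 0)
    (hJ : ∀ p ∈ S, ∀ v : σ → k, (∀ i, ∑ j, v j * eval p (pderiv j (f i)) = 0) → v = 0) :
    S.card ≤ (d * Fintype.card σ + 1) ^ Fintype.card σ := by
  classical
  choose e he1 he0 using bez_interp (k := k) (σ := σ) S
  obtain ⟨L, hL⟩ : ∃ L : ℕ, ∀ q ∈ S, (e q).totalDegree ≤ L :=
    ⟨S.sup fun q => (e q).totalDegree, fun q hq => Finset.le_sup (f := fun q => (e q).totalDegree) hq⟩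
  set n := Fintype.card σ with hn
  set N := L + n * (d * L) with hN
  let T : (S × (ι → Fin (L + 1)) → k) →ₗ[k] MvPolynomial σ k :=
    { toFun := fun c => ∑ x, C (c x) * (e x.1 * ∏ i, f i ^ (x.2 i : ℕ))
      map_add' := fun c c' => by
        simp [add_mul, Finset.sum_add_distrib]
      map_smul' := fun a c => by
        simp [Finset.smul_sum, smul_eq_C_mul, mul_assoc] }
  have hT : ∀ c, T c = ∑ x, C (c x) * (e x.1 * ∏ i, f i ^ (x.2 i : ℕ)) := fun c => rfl
  have hdeg : ∀ c, (T c).totalDegree ≤ N := by
    intro c
    rw [hT]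
    refine (totalDegree_finsetSum _ _).trans (Finset.sup_le fun x _ => ?_)
    refine (totalDegree_mul _ _).trans ?_
    rw [totalDegree_C, zero_add]
    refine (totalDegree_mul _ _).trans ?_
    refine add_le_add (hL _ x.1.2) ?_
    refine (totalDegree_finsetProd _ _).trans ?_
    have h1 : ∀ i ∈ (Finset.univ : Finset ι), (f i ^ (x.2 i : ℕ)).totalDegree ≤ d * L := by
      intro i _
      refine (totalDegree_pow _ _).trans ?_
      have h2 : (x.2 i : ℕ) ≤ L := Nat.lt_succ_iff.mp (x.2 i).2
      calc (x.2 i : ℕ) * (f i).totalDegree ≤ L * d := Nat.mul_le_mul h2 (hf i)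
        _ = d * L := Nat.mul_comm _ _
    refine (Finset.sum_le_card_nsmul _ _ _ h1).trans ?_
    rw [Finset.card_univ, hc, smul_eq_mul]
  let R : (S × (ι → Fin (L + 1)) → k) →ₗ[k] ((σ → Fin (N + 1)) → k) :=
    { toFun := fun c β => coeff (Finsupp.equivFunOnFinite.symm fun j => (β j : ℕ)) (T c)
      map_add' := fun c c' => by
        funext β
        simp
      map_smul' := fun a c => by
        funext β
        simp }
  have hR : Function.Injective R := by
    rw [← LinearMap.ker_eq_bot, LinearMap.ker_eq_bot']
    intro c hc0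
    refine bez_indep hc f S hS hJ e he1 he0 L c ?_
    rw [← hT]
    ext β
    rw [coeff_zero]
    by_cases hβ : ∀ j, β j ≤ N
    · have h1 := congrFun hc0 (fun j => ⟨β j, Nat.lt_succ_of_le (hβ j)⟩)
      have h2 : (Finsupp.equivFunOnFinite.symm fun j =>
          (((⟨β j, Nat.lt_succ_of_le (hβ j)⟩ : Fin (N + 1))) : ℕ)) = β := by
        ext j
        rfl
      have h3 : coeff (Finsupp.equivFunOnFinite.symm fun j =>
          (((⟨β j, Nat.lt_succ_of_le (hβ j)⟩ : Fin (N + 1))) : ℕ)) (T c) = 0 := h1
      rwa [h2] at h3
    · push Not at hβ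
      obtain ⟨j, hj⟩ := hβ
      by_contra hcon
      have h1 : β ∈ (T c).support := mem_support_iff.mpr hcon
      have h2 := le_totalDegree h1
      have h3 : β j ≤ β.sum fun _ e => e := by
        rw [Finsupp.sum_fintype _ _ (fun _ => rfl)]
        exact Finset.single_le_sum (f := fun j => β j) (fun _ _ => Nat.zero_le _)
          (Finset.mem_univ j)
      have := hdeg c
      omega
  have hcard := card_le_of_injective k R hR
  rw [Fintype.card_prod, Fintype.card_fun, Fintype.card_fun, Fintype.card_fin, Fintype.card_fin,
    Fintype.card_coe, hc] at hcard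
  have h1 : N + 1 ≤ (d * n + 1) * (L + 1) := by
    rw [hN]
    nlinarith [Nat.zero_le (d * n)]
  have h2 : S.card * (L + 1) ^ n ≤ (d * n + 1) ^ n * (L + 1) ^ n := by
    calc S.card * (L + 1) ^ n ≤ (N + 1) ^ n := hcard
      _ ≤ ((d * n + 1) * (L + 1)) ^ n := Nat.pow_le_pow_left h1 n
      _ = _ := mul_pow _ _ _
  exact Nat.le_of_mul_le_mul_right h2 (by positivity)

end Pool.Agent.T1
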