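import Pool.Agent.T1.BDA

/-!
# T1 / PBR: sizes of the Riemann model

`aa`: 2; `m3` (a sign times a `3 × 3` determinant, `PB.det`): `mu` `≤ 9`, `la` `≤ 12`; the product over `Finset.univ.erase _` (`PB.prod`, card `3`): `≤ 36`;
`adjugate` (`PB.adj`): `≤ 12`; `yy`: `≤ 12 + 9 + 36 + 1 + 3`; everything far below `200`.
`pb_A`: value of `Ay (yy b) r` at `x` : `x r * ∑ j, yy b r j * x j`.  `pb_RB`: `eval x (RB b) = A₀² + A₁² + A₂² - 2 (A₀A₁ + A₁A₂ + A₂A₀)`.
`pb_dRB`: the derivative of `Ay y r` in direction `j` at `x` is `(if r = j then y r ⬝ᵥ x else 0) + x r * y r j`, product rule.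
-/

namespace Pool.Agent.T1

open MvPolynomial Matrix
open Pool.Agent.PQ (P3 NS SF sb RB ND l1 lin Bit yy Ay RQ)

section

variable {C : Type*} [Field C] {σ : Type} {θ : σ → C} {M : ℕ}

private theorem PBR_aa (b : Fin 4 → Fin 3 → C) (h : ∀ i r, PB θ 1 (b i r)) (i : Fin 4) (r : Fin 3) :
    PB θ 2 (PQ.aa b i r) := by
  unfold PQ.aa
  exact (h _ _).mul (h _ _)

private theorem PBR_m3 {N : ℕ} (b : Fin 4 → Fin 3 → C) (h : ∀ i r, PB θ N (b i r)) (i : Fin 4) :
    PB θ (3 * N + 6) (PQ.m3 b i) := by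
  unfold PQ.m3
  have h1 : PB θ 0 (((-1) ^ (i : ℕ) : ℤ) : C) := by
    refine PB.int _ ?_
    rw [Int.natAbs_pow]
    simp
  have h2 : PB θ (3 * N + 6) (Matrix.det (Matrix.of fun j : Fin 3 => b (i.succAbove j))) :=
    PB.det _ fun _ _ => h _ _
  have h3 := h1.mul h2
  rw [Nat.zero_add] at h3
  push_cast at h3
  exact h3

theorem pb_yy (b : Fin 4 → Fin 3 → C) (h : ∀ i r, PB θ 1 (b i r)) (r j : Fin 3) : PB θ 200 (yy b r j) := by
  unfold PQ.yy
  have h1 : ∀ i, PB θ 9 (PQ.mu b i) := fun i => PBR_m3 b h i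
  have h2 : ∀ i, PB θ 12 (PQ.la b i) := fun i => PBR_m3 (PQ.aa b) (PBR_aa b h) i
  have h3 : ∀ i : Fin 4, PB θ 36 (∏ l ∈ Finset.univ.erase i, PQ.la b l) := by
    intro i
    have h4 := PB.prod (Finset.univ.erase i) (PQ.la b) fun l _ => h2 l
    have h5 : (Finset.univ.erase i).card = 3 := by
      rw [Finset.card_erase_of_mem (Finset.mem_univ _)]
      rfl
    rw [h5] at h4
    exact h4
  have h6 : ∀ i, PB θ 12 ((Matrix.adjugate (Matrix.of fun s : Fin 3 => PQ.aa b s.succ)) r i) :=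
    fun i => PB.adj _ (fun _ _ => PBR_aa b h _ _) r i
  have h7 := PB.sum Finset.univ (fun i : Fin 3 =>
    (Matrix.adjugate (Matrix.of fun s : Fin 3 => PQ.aa b s.succ)) r i *
      (PQ.mu b i.succ * ∏ l ∈ Finset.univ.erase i.succ, PQ.la b l) * b i.succ j)
    fun i _ => ((h6 i).mul ((h1 i.succ).mul (h3 i.succ))).mul (h i.succ j)
  exact (h7.neg).mono (by rw [Finset.card_univ, Fintype.card_fin]; norm_num)

private theorem PBR_lin (b : Fin 4 → Fin 3 → C) (h : ∀ i r, PB θ 1 (b i r)) (x : Fin 3 → C)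
    (hx : ∀ i, PB θ M (x i)) (r : Fin 3) : PB θ (M + 203) (eval x (lin (yy b r))) := by
  have h0 : eval x (lin (yy b r)) = ∑ j, yy b r j * x j := by
    simp [PQ.lin]
  rw [h0]
  have h1 := PB.sum Finset.univ (fun j : Fin 3 => yy b r j * x j)
    fun j _ => (pb_yy b h r j).mul (hx j)
  exact h1.mono (by rw [Finset.card_univ, Fintype.card_fin]; omega)

theorem pb_A (b : Fin 4 → Fin 3 → C) (h : ∀ i r, PB θ 1 (b i r)) (x : Fin 3 → C) (hx : ∀ i, PB θ M (x i))
    (r : Fin 3) : PB θ (2 * M + 210) (eval x (Ay (yy b) r)) := by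
  unfold PQ.Ay
  rw [map_mul, eval_X]
  exact ((hx r).mul (PBR_lin b h x hx r)).mono (by omega)

theorem pb_lin (b : Fin 4 → Fin 3 → C) (h : ∀ i r, PB θ 1 (b i r)) (x : Fin 3 → C) (hx : ∀ i, PB θ M (x i))
    (r : Fin 3) : PB θ (M + 210) (eval x (lin (yy b r))) :=
  (PBR_lin b h x hx r).mono (by omega)

private theorem PBR_two : PB θ 1 (2 : C) := by
  have := PB.int (θ := θ) (N := 1) 2 (by norm_num)
  simpa using this

theorem pb_RB (b : Fin 4 → Fin 3 → C) (h : ∀ i r, PB θ 1 (b i r)) (x : Fin 3 → C) (hx : ∀ i, PB θ M (x i)) :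
    PB θ (4 * M + 500) (eval x (RB b)) := by
  have hA := pb_A b h x hx
  unfold PQ.RB PQ.RQ
  simp only [map_sub, map_add, map_mul, map_pow, map_ofNat]
  have h1 : ∀ r, PB θ (4 * M + 420) (eval x (Ay (yy b) r) ^ 2) := fun r =>
    ((hA r).pow 2).mono (by omega)
  have h2 : ∀ r t, PB θ (4 * M + 420) (eval x (Ay (yy b) r) * eval x (Ay (yy b) t)) := fun r t =>
    ((hA r).mul (hA t)).mono (by omega)
  have h3 := (((h1 0).add (h1 1)).add (h1 2)).sub
    (PBR_two.mul (((h2 0 1).add (h2 1 2)).add (h2 2 0)))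
  exact h3.mono (by omega)

private theorem PBR_dA (b : Fin 4 → Fin 3 → C) (h : ∀ i r, PB θ 1 (b i r)) (x : Fin 3 → C)
    (hx : ∀ i, PB θ M (x i)) (j r : Fin 3) : PB θ (M + 211) (eval x (pderiv j (Ay (yy b) r))) := by
  have h0 : eval x (pderiv j (Ay (yy b) r)) =
      (if r = j then eval x (lin (yy b r)) else 0) + x r * yy b r j := by
    have h1 : pderiv j (lin (yy b r)) = MvPolynomial.C (yy b r j) := by
      unfold PQ.lin
      rw [map_sum, Finset.sum_eq_single j]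
      · rw [pderiv_C_mul, pderiv_X_self, mul_one]
      · intro i _ hi
        rw [pderiv_C_mul, pderiv_X_of_ne hi, mul_zero]
      · intro hj
        exact absurd (Finset.mem_univ _) hj
    unfold PQ.Ay
    rw [pderiv_mul, h1, pderiv_X]
    by_cases hr : r = j
    · subst hr
      simp
    · rw [Pi.single_eq_of_ne hr, if_neg hr]
      simp
  rw [h0]
  have h2 : PB θ (M + 203) (if r = j then eval x (lin (yy b r)) else 0) := by
    split_ifs
    · exact PBR_lin b h x hx r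
    · exact PB.zero.mono (by omega)
  exact (h2.add ((hx r).mul (pb_yy b h r j))).mono (by omega)

theorem pb_dRB (b : Fin 4 → Fin 3 → C) (h : ∀ i r, PB θ 1 (b i r)) (x : Fin 3 → C) (hx : ∀ i, PB θ M (x i))
    (j : Fin 3) : PB θ (4 * M + 1000) (eval x (pderiv j (RB b))) := by
  have hA := pb_A b h x hx
  have hd := PBR_dA b h x hx j
  have h0 : ∀ r t, PB θ (3 * M + 421) (eval x (pderiv j (Ay (yy b) r)) * eval x (Ay (yy b) t)) :=
    fun r t => ((hd r).mul (hA t)).mono (by omega)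
  have h1 : ∀ r t, PB θ (3 * M + 422) (eval x (pderiv j (Ay (yy b) r * Ay (yy b) t))) := by
    intro r t
    have : eval x (pderiv j (Ay (yy b) r * Ay (yy b) t)) =
        eval x (pderiv j (Ay (yy b) r)) * eval x (Ay (yy b) t) +
          eval x (pderiv j (Ay (yy b) t)) * eval x (Ay (yy b) r) := by
      rw [pderiv_mul]
      simp only [map_add, map_mul]
      ring
    rw [this]
    exact ((h0 r t).add (h0 t r)).mono (by omega)
  have h2 : eval x (pderiv j (RB b)) =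
      eval x (pderiv j (Ay (yy b) 0 * Ay (yy b) 0)) + eval x (pderiv j (Ay (yy b) 1 * Ay (yy b) 1)) +
        eval x (pderiv j (Ay (yy b) 2 * Ay (yy b) 2)) -
      2 * (eval x (pderiv j (Ay (yy b) 0 * Ay (yy b) 1)) + eval x (pderiv j (Ay (yy b) 1 * Ay (yy b) 2)) +
        eval x (pderiv j (Ay (yy b) 2 * Ay (yy b) 0))) := by
    have h3 : RB b = Ay (yy b) 0 * Ay (yy b) 0 + Ay (yy b) 1 * Ay (yy b) 1 + Ay (yy b) 2 * Ay (yy b) 2 -
        MvPolynomial.C 2 * (Ay (yy b) 0 * Ay (yy b) 1 + Ay (yy b) 1 * Ay (yy b) 2 +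
          Ay (yy b) 2 * Ay (yy b) 0) := by
      have h4 : (MvPolynomial.C (2 : C) : P3 C) = 2 := map_ofNat _ 2
      unfold PQ.RB PQ.RQ
      rw [h4]
      ring
    rw [h3, map_sub, pderiv_C_mul]
    simp only [map_add, map_sub, map_mul, eval_C]
  rw [h2]
  have h3 := (((h1 0 0).add (h1 1 1)).add (h1 2 2)).sub
    (PBR_two.mul (((h1 0 1).add (h1 1 2)).add (h1 2 0)))
  exact h3.mono (by omega)

end

end Pool.Agent.T1
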