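import Pool.Agent.T1.BDB
import Pool.Agent.PQ.QFP

/-!
# T1 / QLB: lines in a conic with bounded coefficients

Proof.  Let `w j = 1`, `i ≠ j`, `l` the third index.  The points `p(T)` with coordinates `p i = 1`, `p j = - T`, `p l = 0` lie on the line `w` for `T = w i`, so `Q (p (w i)) = 0`
(`lin w ∣ Q`; `eval_lin`).  For a quadratic form `Q` and `e i = Pi.single i 1`: `Q(e i - T e j) = T² Q(e j) - T (Q(e i + e j) - Q(e i) - Q(e j)) + Q(e i)`.  If one of the three
coefficients is not zero this is `PB.quad`.  Otherwise `Q(e i) = Q(e j) = 0`, `Q(e i + e j) = 0`, so `Q = X l * lin m` for a vector `m`; `lin w` is prime (or compare values), `w j = 1 ≠ 0` so `lin w ∤ X l`, so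
`m = μ w`, `μ ≠ 0` (`Q ≠ 0`), `m j = μ`, `w i = m i / m j`, and `m i = Q(e i + e l) - Q(e i) - Q(e l)`, `m j = Q(e j + e l) - Q(e j) - Q(e l)`.
In more elementary terms: evaluate `Q` at the points `e l - T e j` and `e i - T e j + x e l` of the line ...: the coefficient of `x` of `Q(e i - w i e j + x e l)` and
of `Q(x' e i + ..)`; any argument is fine.  Use the hypothesis `hv` only at the points `e i`, `e i + e j`.
-/

namespace Pool.Agent.T1

open MvPolynomial Matrix
open Pool.Agent.PQ (P3 lin)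

private theorem QLB_fin : ∀ i j : Fin 3, ∃ l, l ≠ i ∧ l ≠ j := by decide

private theorem QLB_all : ∀ i j l a : Fin 3, i ≠ j → l ≠ i → l ≠ j → a = i ∨ a = j ∨ a = l := by decide

private theorem QLB_one {C : Type*} [Field C] (w m : Fin 3 → C) (i : Fin 3) :
    eval (Pi.single i (1 : C)) (lin w * lin m) = w i * m i := by
  rw [map_mul, PQ.eval_lin, PQ.eval_lin, dotProduct_single, dotProduct_single, mul_one, mul_one]

private theorem QLB_two {C : Type*} [Field C] (w m : Fin 3 → C) (i j : Fin 3) :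
    eval (Pi.single i (1 : C) + Pi.single j (1 : C)) (lin w * lin m) = (w i + w j) * (m i + m j) := by
  rw [map_mul, PQ.eval_lin, PQ.eval_lin, dotProduct_add, dotProduct_add]
  simp only [dotProduct_single, mul_one]

private theorem QLB_s {C : Type*} [Field C] (i : Fin 3) (a : Fin 3) :
    (Pi.single i (1 : C) : Fin 3 → C) a = 0 ∨ (Pi.single i (1 : C) : Fin 3 → C) a = 1 := by
  rw [Pi.single_apply]
  split_ifs
  · exact Or.inr rfl
  · exact Or.inl rfl

private theorem QLB_t {C : Type*} [Field C] (i j : Fin 3) (h : i ≠ j) (a : Fin 3) :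
    (Pi.single i (1 : C) + Pi.single j (1 : C) : Fin 3 → C) a = 0 ∨
      (Pi.single i (1 : C) + Pi.single j (1 : C) : Fin 3 → C) a = 1 := by
  rw [Pi.add_apply, Pi.single_apply, Pi.single_apply]
  split_ifs with h1 h2
  · exact absurd (h1.symm.trans h2) h
  · right
    rw [add_zero]
  · right
    rw [zero_add]
  · left
    rw [add_zero]

theorem qlb {C : Type*} [Field C] [CharZero C] [IsAlgClosed C] {σ : Type} [Fintype σ] {θ : σ → C}
    {c s N : ℕ} (hs : 16 ≤ s) (hc : 2 ≤ c) (hN : N ≤ 30000) (hσ : Fintype.card σ ≤ 50000)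
    (hθ : ∀ i, Bd c s (θ i)) (Q : P3 C) (hQ : Q.IsHomogeneous 2) (h0 : Q ≠ 0)
    (hv : ∀ p : Fin 3 → C, (∀ i, p i = 0 ∨ p i = 1) → PB θ N (eval p Q)) (w : Fin 3 → C) (j : Fin 3)
    (hj : w j = 1) (hw : lin w ∣ Q) (i : Fin 3) : Bd (c + 10) s (w i) := by
  by_cases hij : i = j
  · rw [hij, hj]
    exact (Bd.one hs hc).mono (by omega)
  obtain ⟨l, hli, hlj⟩ := QLB_fin i j
  obtain ⟨S, hS, hQS⟩ := PQ.dvl_hom w Q 1 hQ hw
  obtain ⟨m, rfl⟩ := PQ.hom_one S hS
  have v1 : ∀ a, PB θ N (w a * m a) := fun a => by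
    have := hv (Pi.single a 1) (QLB_s a)
    rwa [hQS, QLB_one] at this
  have v2 : ∀ a b, a ≠ b → PB θ N ((w a + w b) * (m a + m b)) := fun a b hab => by
    have := hv (Pi.single a 1 + Pi.single b 1) (QLB_t a b hab)
    rwa [hQS, QLB_two] at this
  have v3 : ∀ a b, a ≠ b → PB θ (N + 2) (w a * m b + w b * m a) := fun a b hab => by
    have h1 := ((v2 a b hab).sub (v1 a)).sub (v1 b)
    have h2 : w a * m b + w b * m a = (w a + w b) * (m a + m b) - w a * m a - w b * m b := by ring
    rw [h2]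
    refine h1.mono ?_
    simp
  by_cases hz : m j = 0 ∧ -(w i * m j + w j * m i) = 0 ∧ w i * m i = 0
  · obtain ⟨z1, z2, z3⟩ := hz
    rw [z1, hj, mul_zero, zero_add, one_mul, neg_eq_zero] at z2
    have hml : m l ≠ 0 := by
      intro h
      apply h0
      have hm : m = 0 := by
        funext a
        rcases QLB_all i j l a hij hli hlj with h' | h' | h' <;> rw [h']
        · exact z2
        · exact z1
        · exact h
      rw [hQS, hm, PQ.lin_zero, mul_zero]
    have a1 := v3 i l hli.symm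
    have a2 := v3 j l hlj.symm
    rw [z2, mul_zero, add_zero] at a1
    rw [z1, mul_zero, add_zero, hj, one_mul] at a2
    have h3 := PB.quot hs hc (by omega) hσ hθ a1 a2 hml
    rwa [mul_div_assoc, div_self hml, mul_one] at h3
  · have b1 : PB θ (N + 2) (m j) := by
      have := v1 j
      rw [hj, one_mul] at this
      exact this.mono (by omega)
    refine PB.quad (N := N + 2) hs hc (by omega) hσ hθ b1 (v3 i j hij).neg
      ((v1 i).mono (by omega)) hz ?_
    rw [hj]
    ring

end Pool.Agent.T1
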