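import Pool.Agent.T1.BTC
import Pool.Agent.T1.QLB
import Pool.Agent.T1.PBR

/-!
# T1 / BTB: all bitangents of a Riemann model with bounded parameters are bounded

`btc` with `y = yy b` (`RB b = RQ (yy b)`).  First three cases: `w = c • e₀`, `w = c • e₁`: `η = c`.  `w = c • y 0`: some `y 0 j ≠ 0`, `u = (y 0 j)⁻¹ • y 0`, `η = c * y 0 j`, entries `PB.quot` with `θ = b` (variables `Fin 4 × Fin 3`, `pb_yy`).
Other cases: `w j ≠ 0` for some `j`; `η = w j`, `u = (w j)⁻¹ • w`, `lin u ∣ Ct .. t` too.  `t` is a root of the one-variable polynomial `f(T) = dq (Ct .. T)` (`PQ.dq_mul`: `lin w * lin w'` has `dq = 0`; `PQ.dvl_hom`,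
`PQ.hom_one`), which is not zero by `PQ.stc` (there is `t₀` with `dq (Ct t₀) ≠ 0`).  `dq` (PQ/QFP.lean) is an integral polynomial in the coefficients `cf`, i.e. (quadratic form `q`): `cf q i i = q(e i)`,
`cf q i j = q(e i + e j) - q(e i) - q(e j)`; these are for `q = Ct .. T` polynomials of degree 2 in `T` with coefficients `PB b 1000` by `PBR`.  So `PX`, `PX.root`: `Bd (c + 10) s t`.
Now `θ' = (b, t) : Option (Fin 4 × Fin 3) → C`: the values of `Ct .. t` at points with coordinates `0, 1` are `PB θ' 1100`; `qlb`: `Bd (c + 20) s (u i)`.  `Ct .. t ≠ 0`: as in `PQ.stp` (`PQ.ct_eq`: otherwise `RB b` is a square;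
a square is not `NS`, `PQ.bin_zero`).
The three quadratic forms `q`, `C'` are homogeneous of degree 2; `RQ y = q ^ 2 + lin _ * lin _ * C'` by `ring` (unfold `RQ`, `QX`, `Ay`, `PQ.lin_single`).
-/

namespace Pool.Agent.T1

open MvPolynomial Matrix
open Pool.Agent.PQ (P3 NS SF sb RB ND l1 lin Bit yy Ay RQ)

open Pool.Agent.PQ (cf dq QX Ct)

private theorem btb_coeff {R : Type*} [CommRing R] (c : Fin 3 → Fin 3 → R) (i j : Fin 3) :
    cf (∑ a, ∑ b, C (c a b) * (X a * X b)) i j = if i = j then c i i else c i j + c j i := by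
  have h : ∀ a b : Fin 3, coeff (Finsupp.single i 1 + Finsupp.single j 1) (C (c a b) * (X a * X b) : P3 R) =
      if (a = i ∧ b = j) ∨ (a = j ∧ b = i) then c a b else 0 := by
    intro a b
    have h1 : (X a * X b : P3 R) = monomial (Finsupp.single a 1 + Finsupp.single b 1) 1 := by
      rw [X, X, monomial_mul, one_mul]
    have h0 := Finsupp.single_add_single_eq_single_add_single (k := a) (l := b) (m := i) (n := j)
      (one_ne_zero : (1 : ℕ) ≠ 0) (one_ne_zero : (1 : ℕ) ≠ 0)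
    rw [h1, coeff_C_mul, coeff_monomial]
    by_cases h2 : (a = i ∧ b = j) ∨ (a = j ∧ b = i)
    · rw [if_pos h2, if_pos, mul_one]
      rw [h0]
      rcases h2 with h2 | h2
      · exact Or.inl h2
      · exact Or.inr (Or.inl ⟨rfl, h2⟩)
    · rw [if_neg h2, if_neg, mul_zero]
      rw [h0]
      rintro (h3 | h3 | h3)
      · exact h2 (Or.inl h3)
      · exact h2 (Or.inr h3.2)
      · exact absurd h3.1 (by norm_num)
  rw [cf, coeff_sum]
  simp only [coeff_sum, h]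
  fin_cases i <;> fin_cases j <;> simp [Fin.sum_univ_three] <;> ring

open scoped Pointwise in
private theorem btb_exp {R : Type*} [CommRing R] (q : P3 R) (hq : q.IsHomogeneous 2) :
    ∃ c : Fin 3 → Fin 3 → R, q = ∑ a, ∑ b, C (c a b) * (X a * X b) := by
  have h1 : q ∈ homogeneousSubmodule (Fin 3) R 2 := hq
  rw [← homogeneousSubmodule_one_pow, pow_two, homogeneousSubmodule_one_eq_span_X, Submodule.span_mul_span] at h1
  have h2 : Set.range (X : Fin 3 → P3 R) * Set.range (X : Fin 3 → P3 R) =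
      Set.range (fun ab : Fin 3 × Fin 3 => (X ab.1 * X ab.2 : P3 R)) := by
    ext p
    rw [Set.mem_mul]
    constructor
    · rintro ⟨_, ⟨a, rfl⟩, _, ⟨b, rfl⟩, rfl⟩
      exact ⟨(a, b), rfl⟩
    · rintro ⟨ab, rfl⟩
      exact ⟨_, ⟨ab.1, rfl⟩, _, ⟨ab.2, rfl⟩, rfl⟩
  rw [h2, Submodule.mem_span_range_iff_exists_fun] at h1
  obtain ⟨c, hc⟩ := h1
  refine ⟨fun a b => c (a, b), ?_⟩
  rw [← hc, Fintype.sum_prod_type]
  refine Finset.sum_congr rfl fun a _ => Finset.sum_congr rfl fun b _ => ?_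
  rw [smul_eq_C_mul]

private theorem btb_eval {R : Type*} [CommRing R] (q : P3 R) (hq : q.IsHomogeneous 2) (x : Fin 3 → R) :
    eval x q = cf q 0 0 * x 0 ^ 2 + cf q 1 1 * x 1 ^ 2 + cf q 2 2 * x 2 ^ 2 + cf q 0 1 * (x 0 * x 1) +
      cf q 0 2 * (x 0 * x 2) + cf q 1 2 * (x 1 * x 2) := by
  obtain ⟨c, rfl⟩ := btb_exp q hq
  simp only [btb_coeff]
  simp only [Fin.sum_univ_three]
  simp
  ring

/-- the coefficients of a quadratic form with bounded values -/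
private theorem btb_cf {C : Type*} [Field C] {σ : Type} {θ : σ → C} {N : ℕ} (q : P3 C)
    (hq : q.IsHomogeneous 2) (hv : ∀ p : Fin 3 → C, (∀ i, p i = 0 ∨ p i = 1) → PB θ N (eval p q)) :
    PB θ (N + 2) (cf q 0 0) ∧ PB θ (N + 2) (cf q 1 1) ∧ PB θ (N + 2) (cf q 2 2) ∧
    PB θ (N + 2) (cf q 0 1) ∧ PB θ (N + 2) (cf q 0 2) ∧ PB θ (N + 2) (cf q 1 2) := by
  have a0 := hv ![1, 0, 0] (by intro i; fin_cases i <;> simp)
  have a1 := hv ![0, 1, 0] (by intro i; fin_cases i <;> simp)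
  have a2 := hv ![0, 0, 1] (by intro i; fin_cases i <;> simp)
  have a01 := hv ![1, 1, 0] (by intro i; fin_cases i <;> simp)
  have a02 := hv ![1, 0, 1] (by intro i; fin_cases i <;> simp)
  have a12 := hv ![0, 1, 1] (by intro i; fin_cases i <;> simp)
  rw [btb_eval q hq] at a0 a1 a2 a01 a02 a12
  simp at a0 a1 a2 a01 a02 a12
  refine ⟨a0.mono (by omega), a1.mono (by omega), a2.mono (by omega), ?_, ?_, ?_⟩
  · have h := (a01.sub a0).sub a1
    ring_nf at h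
    exact h.mono (by omega)
  · have h := (a02.sub a0).sub a2
    ring_nf at h
    exact h.mono (by omega)
  · have h := (a12.sub a1).sub a2
    ring_nf at h
    exact h.mono (by omega)

/-- coefficient of `Ct .. T` as a polynomial in `T` -/
private noncomputable def btbA {k : Type*} [Field k] (v1 v2 : Fin 3 → k) (q C' : P3 k) (i j : Fin 3) :
    Polynomial k :=
  Polynomial.C (cf C' i j) - Polynomial.C (2 * cf q i j) * Polynomial.X -
    Polynomial.C (cf (lin v1 * lin v2) i j) * Polynomial.X ^ 2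

private theorem btbA_eval {k : Type*} [Field k] (v1 v2 : Fin 3 → k) (q C' : P3 k) (i j : Fin 3) (t : k) :
    (btbA v1 v2 q C' i j).eval t = cf (Ct v1 v2 q C' t) i j := by
  simp only [btbA, cf, Ct, Polynomial.eval_sub, Polynomial.eval_mul, Polynomial.eval_C,
    Polynomial.eval_X, Polynomial.eval_pow, coeff_sub, coeff_C_mul]
  ring

private noncomputable def btbD {k : Type*} [Field k] (v1 v2 : Fin 3 → k) (q C' : P3 k) : Polynomial k :=
  Polynomial.C 4 * btbA v1 v2 q C' 0 0 * btbA v1 v2 q C' 1 1 * btbA v1 v2 q C' 2 2 +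
    btbA v1 v2 q C' 0 1 * btbA v1 v2 q C' 0 2 * btbA v1 v2 q C' 1 2 -
    btbA v1 v2 q C' 0 0 * btbA v1 v2 q C' 1 2 ^ 2 -
    btbA v1 v2 q C' 1 1 * btbA v1 v2 q C' 0 2 ^ 2 - btbA v1 v2 q C' 2 2 * btbA v1 v2 q C' 0 1 ^ 2

private theorem btbD_eval {k : Type*} [Field k] (v1 v2 : Fin 3 → k) (q C' : P3 k) (t : k) :
    (btbD v1 v2 q C').eval t = dq (Ct v1 v2 q C' t) := by
  simp only [btbD, dq, Polynomial.eval_sub, Polynomial.eval_add, Polynomial.eval_mul,
    Polynomial.eval_pow, Polynomial.eval_C, btbA_eval]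

private theorem btb_int {C : Type*} [Field C] {σ : Type} {θ : σ → C} (N : ℕ) (n : ℕ)
    (h : n ≤ 2 ^ N) : PB θ N (n : C) := by
  have h1 := PB.int (θ := θ) (N := N) (n : ℤ) (by simpa using h)
  simpa using h1

private theorem btbA_px {k : Type*} [Field k] {σ : Type} {θ : σ → k} (v1 v2 : Fin 3 → k) (q C' : P3 k)
    (i j : Fin 3) (h1 : PB θ 502 (cf C' i j)) (h2 : PB θ 502 (cf q i j))
    (h3 : PB θ 1002 (cf (lin v1 * lin v2) i j)) : PX θ 1005 (btbA v1 v2 q C' i j) := by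
  have e2 : PB θ 1 (2 : k) := btb_int 1 2 (by norm_num)
  have e3 : PX θ (1002 + 2 * 1) (Polynomial.C (cf (lin v1 * lin v2) i j) * Polynomial.X ^ 2) :=
    (PX.con h3).mul (PX.var.pow 2)
  have e4 : PX θ (1 + 502 + 1) (Polynomial.C (2 * cf q i j) * Polynomial.X) :=
    (PX.con (e2.mul h2)).mul PX.var
  exact (((PX.con h1).sub e4).sub e3).mono (by norm_num)

private theorem btbD_px {k : Type*} [Field k] {σ : Type} {θ : σ → k} (v1 v2 : Fin 3 → k) (q C' : P3 k)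
    (hq : q.IsHomogeneous 2) (hC : C'.IsHomogeneous 2)
    (h1 : ∀ p : Fin 3 → k, (∀ i, p i = 0 ∨ p i = 1) → PB θ 500 (eval p C'))
    (h2 : ∀ p : Fin 3 → k, (∀ i, p i = 0 ∨ p i = 1) → PB θ 500 (eval p q))
    (h3 : ∀ p : Fin 3 → k, (∀ i, p i = 0 ∨ p i = 1) → PB θ 500 (eval p (lin v1)))
    (h4 : ∀ p : Fin 3 → k, (∀ i, p i = 0 ∨ p i = 1) → PB θ 500 (eval p (lin v2))) :
    PX θ 4000 (btbD v1 v2 q C') := by
  have hl : (lin v1 * lin v2).IsHomogeneous 2 := (PQ.lin_hom v1).mul (PQ.lin_hom v2)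
  obtain ⟨a00, a11, a22, a01, a02, a12⟩ := btb_cf C' hC h1
  obtain ⟨b00, b11, b22, b01, b02, b12⟩ := btb_cf q hq h2
  obtain ⟨c00, c11, c22, c01, c02, c12⟩ := btb_cf (N := 1000) (lin v1 * lin v2) hl (fun p hp => by
    rw [map_mul]
    exact (h3 p hp).mul (h4 p hp))
  have d00 := btbA_px v1 v2 q C' 0 0 a00 b00 c00
  have d11 := btbA_px v1 v2 q C' 1 1 a11 b11 c11
  have d22 := btbA_px v1 v2 q C' 2 2 a22 b22 c22
  have d01 := btbA_px v1 v2 q C' 0 1 a01 b01 c01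
  have d02 := btbA_px v1 v2 q C' 0 2 a02 b02 c02
  have d12 := btbA_px v1 v2 q C' 1 2 a12 b12 c12
  have e4 : PX θ 2 (Polynomial.C (4 : k)) := PX.con (btb_int 2 4 (by norm_num))
  have g1 : PX θ 3050 (Polynomial.C 4 * btbA v1 v2 q C' 0 0 * btbA v1 v2 q C' 1 1 *
      btbA v1 v2 q C' 2 2) := (((e4.mul d00).mul d11).mul d22).mono (by norm_num)
  have g2 : PX θ 3050 (btbA v1 v2 q C' 0 1 * btbA v1 v2 q C' 0 2 * btbA v1 v2 q C' 1 2) :=
    ((d01.mul d02).mul d12).mono (by norm_num)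
  have g3 : PX θ 3050 (btbA v1 v2 q C' 0 0 * btbA v1 v2 q C' 1 2 ^ 2) :=
    (d00.mul (d12.pow 2)).mono (by norm_num)
  have g4 : PX θ 3050 (btbA v1 v2 q C' 1 1 * btbA v1 v2 q C' 0 2 ^ 2) :=
    (d11.mul (d02.pow 2)).mono (by norm_num)
  have g5 : PX θ 3050 (btbA v1 v2 q C' 2 2 * btbA v1 v2 q C' 0 1 ^ 2) :=
    (d22.mul (d01.pow 2)).mono (by norm_num)
  exact ((((g1.add g2).sub g3).sub g4).sub g5).mono (by norm_num)

private theorem btb_not_sq {k : Type*} [Field k] [IsAlgClosed k] {F : P3 k} (hNS : NS F) (R : P3 k)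
    (hR : R.IsHomogeneous 2) (h : F = R ^ 2) : False := by
  obtain ⟨p, hp, -, h0⟩ := PQ.bin_zero 0 R 2 (by norm_num) hR
  obtain ⟨i, hi⟩ := hNS p hp (by rw [h, map_pow, h0, zero_pow two_ne_zero])
  apply hi
  rw [h, Derivation.leibniz_pow]
  simp [h0]

private theorem btb_lin_mul_hom {R : Type*} [CommRing R] (v w : Fin 3 → R) :
    (lin v * lin w).IsHomogeneous 2 := (PQ.lin_hom v).mul (PQ.lin_hom w)

private theorem btb_ct_hom {R : Type*} [CommRing R] (v1 v2 : Fin 3 → R) (q C' : P3 R)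
    (hq : q.IsHomogeneous 2) (hC : C'.IsHomogeneous 2) (t : R) : (Ct v1 v2 q C' t).IsHomogeneous 2 := by
  have h1 : (C (2 * t) * q).IsHomogeneous (0 + 2) := (isHomogeneous_C (Fin 3) (2 * t)).mul hq
  have h2 : (C (t ^ 2) * (lin v1 * lin v2)).IsHomogeneous (0 + 2) :=
    (isHomogeneous_C (Fin 3) (t ^ 2)).mul (btb_lin_mul_hom v1 v2)
  rw [zero_add] at h1 h2
  exact (hC.sub h1).sub h2

private theorem btb_main {C : Type*} [Field C] [CharZero C] [IsAlgClosed C] {c s : ℕ} (hs : 16 ≤ s)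
    (hc : 2 ≤ c) (b : Fin 4 → Fin 3 → C) (hb : ∀ i r, Bd c s (b i r)) (hNS : NS (RB b))
    (v1 v2 : Fin 3 → C) (hv1 : v1 ≠ 0) (hv2 : v2 ≠ 0) (q C' : P3 C) (hq : q.IsHomogeneous 2)
    (hC : C'.IsHomogeneous 2) (hE : RB b = q ^ 2 + lin v1 * lin v2 * C')
    (hv : ∀ {σ : Type} (θ : σ → C), (∀ i r, PB θ 1 (b i r)) → ∀ p : Fin 3 → C,
      (∀ i, p i = 0 ∨ p i = 1) → PB θ 500 (eval p C') ∧ PB θ 500 (eval p q) ∧
        PB θ 500 (eval p (lin v1)) ∧ PB θ 500 (eval p (lin v2)))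
    (w : Fin 3 → C) (hw : w ≠ 0) (t : C) (ht : lin w ∣ Ct v1 v2 q C' t) :
    ∃ (η : C) (u : Fin 3 → C), η ≠ 0 ∧ w = η • u ∧ u ≠ 0 ∧ ∀ i, Bd (c + 20) s (u i) := by
  obtain ⟨j, hj⟩ : ∃ j, w j ≠ 0 := by
    by_contra hcon
    push Not at hcon
    exact hw (funext hcon)
  have hFh : (RB b).IsHomogeneous 4 := PQ.RQ_hom (PQ.yy b)
  have h0 : Ct v1 v2 q C' t ≠ 0 := by
    intro ht
    refine btb_not_sq hNS (q + MvPolynomial.C t * (lin v1 * lin v2)) ?_ ?_
    · refine hq.add ?_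
      have h2 := (isHomogeneous_C (Fin 3) t).mul (btb_lin_mul_hom v1 v2)
      rwa [zero_add] at h2
    · rw [hE, PQ.ct_eq v1 v2 q C' t, ht, mul_zero, add_zero]
  have hdq : dq (Ct v1 v2 q C' t) = 0 := by
    obtain ⟨S, hS, hCS⟩ := PQ.dvl_hom w _ 1 (btb_ct_hom v1 v2 q C' hq hC t) ht
    obtain ⟨w', rfl⟩ := PQ.hom_one S hS
    rw [hCS, PQ.dq_mul]
  obtain ⟨θ, hθ⟩ : ∃ θ : Fin 4 × Fin 3 → C, θ = fun x => b x.1 x.2 := ⟨_, rfl⟩
  have hθb : ∀ i, Bd c s (θ i) := by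
    rw [hθ]
    exact fun i => hb _ _
  have hθ1 : ∀ i r, PB θ 1 (b i r) := fun i r => by
    have := PB.var (θ := θ) (i, r)
    rwa [hθ] at this ⊢
  have hD := btbD_px v1 v2 q C' hq hC (fun p hp => (hv θ hθ1 p hp).1)
    (fun p hp => (hv θ hθ1 p hp).2.1) (fun p hp => (hv θ hθ1 p hp).2.2.1)
    (fun p hp => (hv θ hθ1 p hp).2.2.2)
  have hD0 : btbD v1 v2 q C' ≠ 0 := by
    obtain ⟨t0, ht0⟩ := PQ.stc (RB b) hFh hNS v1 v2 hv1 hv2 q C' hq hC hE
    intro h
    rw [← btbD_eval, h, Polynomial.eval_zero] at ht0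
    exact ht0 rfl
  have htb : Bd (c + 10) s t := PX.root hs hc (N := 4000) (by norm_num) (by simp) hθb hD hD0
    (by rw [btbD_eval, hdq])
  obtain ⟨θ', hθ'⟩ : ∃ θ' : (Fin 4 × Fin 3) ⊕ Unit → C, θ' = Sum.elim θ (fun _ => t) := ⟨_, rfl⟩
  have hθb' : ∀ i, Bd (c + 10) s (θ' i) := by
    rw [hθ']
    rintro (x | x)
    · exact (hθb x).mono (by omega)
    · exact htb
  have hb' : ∀ i r, PB θ' 1 (b i r) := fun i r =>
    (hθ1 i r).reindex Sum.inl (fun i => by rw [hθ']; rfl)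
  have ht1 : PB θ' 1 t := by
    have := PB.var (θ := θ') (Sum.inr ())
    rwa [hθ'] at this ⊢
  have e2 : PB θ' 1 (2 : C) := btb_int 1 2 (by norm_num)
  refine ⟨w j, (w j)⁻¹ • w, hj, ?_, ?_, ?_⟩
  · rw [smul_smul, mul_inv_cancel₀ hj, one_smul]
  · exact smul_ne_zero (inv_ne_zero hj) hw
  · intro i
    have h5 := qlb hs (by omega : 2 ≤ c + 10) (N := 1100) (by norm_num) (by simp) hθb'
      (Ct v1 v2 q C' t) (btb_ct_hom v1 v2 q C' hq hC t) h0 (fun p hp => by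
        obtain ⟨g1, g2, g3, g4⟩ := hv θ' hb' p hp
        have h6 : eval p (Ct v1 v2 q C' t) = eval p C' - 2 * t * eval p q -
            t ^ 2 * (eval p (lin v1) * eval p (lin v2)) := by
          simp only [Ct, map_sub, map_mul, eval_C]
        rw [h6]
        exact ((g1.sub ((e2.mul ht1).mul g2)).sub ((ht1.pow 2).mul (g3.mul g4))).mono
          (by norm_num)) ((w j)⁻¹ • w) j (by simp [hj]) (by
        rw [PQ.lin_smul]
        exact (IsUnit.mul_left_dvd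
          ((isUnit_iff_ne_zero.2 (inv_ne_zero hj)).map MvPolynomial.C)).2 ht) i
    exact h5.mono (by omega)

theorem btb {C : Type*} [Field C] [CharZero C] [IsAlgClosed C] {c s : ℕ} (hs : 16 ≤ s) (hc : 2 ≤ c)
    (b : Fin 4 → Fin 3 → C) (hb : ∀ i r, Bd c s (b i r)) (hNS : NS (RB b)) (w : Fin 3 → C) (hw : w ≠ 0)
    (Q : P3 C) (hbit : Bit (RB b) w Q) :
    ∃ (η : C) (u : Fin 3 → C), η ≠ 0 ∧ w = η • u ∧ u ≠ 0 ∧ ∀ i, Bd (c + 20) s (u i) := by
  obtain ⟨y, hy⟩ : ∃ y, y = yy b := ⟨_, rfl⟩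
  have hRB : RB b = RQ y := by rw [hy]; rfl
  have hAh : ∀ r, (Ay y r).IsHomogeneous 2 := fun r =>
    (isHomogeneous_X C r).mul (PQ.lin_hom (y r))
  have hnat : ∀ (n : ℕ) (F : P3 C), F.IsHomogeneous 2 → ((n : P3 C) * F).IsHomogeneous 2 := by
    intro n F hF
    have h1 : (MvPolynomial.C (n : C) * F).IsHomogeneous (0 + 2) :=
      (isHomogeneous_C (Fin 3) (n : C)).mul hF
    rw [zero_add, map_natCast] at h1
    exact h1
  have hl0 : (lin (Pi.single 0 1) : P3 C) = X 0 := PQ.lin_single 0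
  have hl1 : (lin (Pi.single 1 1) : P3 C) = X 1 := PQ.lin_single 1
  have hy0 : y 0 ≠ 0 := by
    intro h
    refine btb_not_sq hNS (Ay y 1 - Ay y 2) ((hAh 1).sub (hAh 2)) ?_
    rw [hRB, RQ]
    have h1 : Ay y 0 = 0 := by
      rw [Ay, h, PQ.lin_zero, mul_zero]
    rw [h1]
    ring
  have hs0 : (Pi.single 0 1 : Fin 3 → C) ≠ 0 := by
    intro h
    have := congrFun h 0
    simp at this
  have hs1 : (Pi.single 1 1 : Fin 3 → C) ≠ 0 := by
    intro h
    have := congrFun h 1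
    simp at this
  have hq2 : (Ay y 0 + Ay y 1 - Ay y 2).IsHomogeneous 2 := ((hAh 0).add (hAh 1)).sub (hAh 2)
  have hv : ∀ {σ : Type} (θ : σ → C), (∀ i r, PB θ 1 (b i r)) → ∀ p : Fin 3 → C,
      (∀ i, p i = 0 ∨ p i = 1) → (∀ i, PB θ 0 (p i)) ∧ (∀ r, PB θ 210 (eval p (Ay y r))) ∧
        (∀ r, PB θ 210 (eval p (lin (y r)))) := by
    intro σ θ hθ p hp
    have hp0 : ∀ i, PB θ 0 (p i) := fun i => by
      rcases hp i with h | h <;> rw [h]
      · exact PB.zero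
      · exact PB.one
    rw [hy]
    exact ⟨hp0, fun r => pb_A b hθ p hp0 r, fun r => (pb_lin b hθ p hp0 r).mono (by norm_num)⟩
  have p2 : ∀ {σ : Type} (θ : σ → C), PB θ 1 (2 : C) := fun θ => btb_int 1 2 (by norm_num)
  have p4 : ∀ {σ : Type} (θ : σ → C), PB θ 2 (4 : C) := fun θ => btb_int 2 4 (by norm_num)
  have hbd1 : ∀ i j : Fin 3, Bd (c + 20) s ((Pi.single i 1 : Fin 3 → C) j) := by
    intro i j
    by_cases h : j = i
    · subst h
      rw [Pi.single_eq_same]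
      exact Bd.one hs (by omega)
    · rw [Pi.single_eq_of_ne h]
      exact Bd.zero hs (by omega)
  have hNS' := hNS
  rw [hRB] at hNS' hbit
  rcases btc y hNS' w hw Q hbit with ⟨c0, hc0, h⟩ | ⟨c0, hc0, h⟩ | ⟨c0, hc0, h⟩ | ⟨t, ht⟩ | ⟨t, ht⟩ |
    ⟨t, ht⟩
  · exact ⟨c0, _, hc0, h, hs0, hbd1 0⟩
  · obtain ⟨j, hj⟩ : ∃ j, y 0 j ≠ 0 := by
      by_contra hcon
      push Not at hcon
      exact hy0 (funext hcon)
    refine ⟨c0 * y 0 j, (y 0 j)⁻¹ • y 0, mul_ne_zero hc0 hj, ?_, smul_ne_zero (inv_ne_zero hj) hy0,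
      fun i => ?_⟩
    · rw [h, smul_smul, mul_assoc, mul_inv_cancel₀ hj, mul_one]
    · obtain ⟨θ, hθ⟩ : ∃ θ : Fin 4 × Fin 3 → C, θ = fun x => b x.1 x.2 := ⟨_, rfl⟩
      have hθb : ∀ i, Bd c s (θ i) := by
        rw [hθ]
        exact fun i => hb _ _
      have hθ1 : ∀ i r, PB θ 1 (b i r) := fun i r => by
        have := PB.var (θ := θ) (i, r)
        rwa [hθ] at this ⊢
      have h1 : ∀ r j, PB θ 200 (y r j) := by
        rw [hy]
        exact pb_yy b hθ1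
      have h2 := PB.quot hs hc (N := 200) (by norm_num) (by simp) hθb (h1 0 i) (h1 0 j) hj
      rw [Pi.smul_apply, smul_eq_mul, inv_mul_eq_div]
      exact h2.mono (by omega)
  · exact ⟨c0, _, hc0, h, hs1, hbd1 1⟩
  · refine btb_main hs hc b hb hNS _ _ hs0 hy0 _ _ ((hAh 1).sub (hAh 2))
      (((hAh 0).sub (hnat 2 _ (hAh 1))).sub (hnat 2 _ (hAh 2))) ?_ ?_ w hw t ht
    · rw [hRB, RQ, hl0]
      change _ = (Ay y 1 - Ay y 2) ^ 2 + Ay y 0 * _
      push_cast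
      ring
    · intro σ θ hθ p hp
      obtain ⟨h1, h2, h3⟩ := hv θ hθ p hp
      refine ⟨?_, ?_, ?_, (h3 0).mono (by norm_num)⟩
      · simp only [map_sub, map_mul, map_natCast]
        exact (((h2 0).sub ((p2 θ).mul (h2 1))).sub ((p2 θ).mul (h2 2))).mono (by norm_num)
      · rw [map_sub]
        exact ((h2 1).sub (h2 2)).mono (by norm_num)
      · rw [hl0, eval_X]
        exact (h1 0).mono (by norm_num)
  · refine btb_main hs hc b hb hNS _ _ hs0 hs1 _ _ hq2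
      (hnat 4 _ (btb_lin_mul_hom (y 0) (y 1))).neg ?_ ?_ w hw t ht
    · rw [hRB, RQ, hl0, hl1]
      unfold Ay
      push_cast
      ring
    · intro σ θ hθ p hp
      obtain ⟨h1, h2, h3⟩ := hv θ hθ p hp
      refine ⟨?_, ?_, ?_, ?_⟩
      · simp only [map_neg, map_mul, map_natCast]
        exact ((p4 θ).mul ((h3 0).mul (h3 1))).neg.mono (by norm_num)
      · simp only [map_sub, map_add]
        exact (((h2 0).add (h2 1)).sub (h2 2)).mono (by norm_num)
      · rw [hl0, eval_X]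
        exact (h1 0).mono (by norm_num)
      · rw [hl1, eval_X]
        exact (h1 1).mono (by norm_num)
  · refine btb_main hs hc b hb hNS _ _ hy0 hs1 _ _ hq2
      (hnat 4 _ ((isHomogeneous_X C 0).mul (PQ.lin_hom (y 1)))).neg ?_ ?_ w hw t ht
    · rw [hRB, RQ, hl1]
      unfold Ay
      push_cast
      ring
    · intro σ θ hθ p hp
      obtain ⟨h1, h2, h3⟩ := hv θ hθ p hp
      refine ⟨?_, ?_, (h3 0).mono (by norm_num), ?_⟩
      · simp only [map_neg, map_mul, map_natCast, eval_X]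
        exact ((p4 θ).mul ((h1 0).mul (h3 1))).neg.mono (by norm_num)
      · simp only [map_sub, map_add]
        exact (((h2 0).add (h2 1)).sub (h2 2)).mono (by norm_num)
      · rw [hl1, eval_X]
        exact (h1 1).mono (by norm_num)

end Pool.Agent.T1
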