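import Pool.Agent.T1.DefsB
import Pool.Agent.PQ.DGA

/-!
# T1 / BTC: the bitangents of the Riemann model

Same argument as `PQ.dga`, `PQ.cnt`, `PQ.stp` (PQ/DGA.lean, PQ/CNT.lean), but with explicit decompositions.  Three bitangents `v 0 = e₀` with `Q 0 = QX y 0`, `v 1 = y 0` with `Q 1 = QX y 0`,
`v 2 = e₁` with `Q 2 = - QX y 1`; at `p i = v i × w`: `(Q i)(p i)² = F(p i) = Q(p i)²`, so `Q i (p i) = ± Q(p i)`; two of the three signs agree, and after `Q ↦ - Q` they are `+`.  `PQ.sta` for this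
pair with the decomposition `F = q² + lin (v i) * lin (v j) * C'`, `q = Q i` on `v i = 0` and `q = Q j` on `v j = 0`:
 - pair `(0, 1)`: `q = QX y 0 = A₁ - A₂`, `C' = A₀ - 2 A₁ - 2 A₂` (`A r = Ay y r`);
 - pairs `(0, 2)`, `(1, 2)`: `F = (A₂ - A₀ - A₁)² - 4 A₀ A₁`; on `X₀ = 0` or `y₀ = 0`: `A₂ - A₀ - A₁ = - QX y 0`; on `X₁ = 0`: `A₂ - A₀ - A₁ = QX y 1`.  So `q = A₀ + A₁ - A₂`,
   `C' = - 4 y₀ y₁` resp. `C' = - 4 X₀ y₁` (`lin (Pi.single i 1) = X i`, `PQ.lin_single`).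
The cases `v i × w = 0` give the first three alternatives (a non-zero vector with zero cross product is a non-zero multiple: `par` in PQ/CNT is private, copy it).
`v i × v j ≠ 0`: `PQ.prx_same`, `PQ.prx_diff`.
-/

namespace Pool.Agent.T1

open MvPolynomial Matrix
open Pool.Agent.PQ (P3 NS SF sb RB ND l1 lin Bit yy Ay RQ QX Ct)

/-- a vector parallel to `v` -/
private theorem BTC_par {k : Type*} [Field k] {v w : Fin 3 → k} (hv : v ≠ 0) (hw : w ≠ 0)
    (h : crossProduct v w = 0) : ∃ c : k, c ≠ 0 ∧ w = c • v := by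
  obtain ⟨i, hi⟩ : ∃ i, v i ≠ 0 := by
    by_contra hc
    push Not at hc
    exact hv (funext hc)
  rw [cross_apply] at h
  have h0 : v 1 * w 2 - v 2 * w 1 = 0 := congrFun h 0
  have h1 : v 2 * w 0 - v 0 * w 2 = 0 := congrFun h 1
  have h2 : v 0 * w 1 - v 1 * w 0 = 0 := congrFun h 2
  have hij : ∀ j, w j * v i = w i * v j := by
    intro j
    fin_cases i <;> fin_cases j <;> simp only [Fin.zero_eta, Fin.mk_one, Fin.reduceFinMk] <;>
      first
      | ring1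
      | linear_combination h0
      | linear_combination h1
      | linear_combination h2
      | linear_combination -h0
      | linear_combination -h1
      | linear_combination -h2
  have key : w = (w i / v i) • v := by
    ext j
    simp only [Pi.smul_apply, smul_eq_mul]
    rw [div_mul_eq_mul_div, eq_div_iff hi, hij j]
  refine ⟨w i / v i, fun hc => hw ?_, key⟩
  rw [key, hc, zero_smul]

private theorem BTC_sgn {k : Type*} [Field k] {F : P3 k} {v w : Fin 3 → k} {Q Q' : P3 k} (hb : Bit F v Q)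
    (hb' : Bit F w Q') : eval (crossProduct v w) Q = eval (crossProduct v w) Q' ∨
      eval (crossProduct v w) Q = eval (crossProduct v w) (-Q') := by
  obtain ⟨-, S, -, hS⟩ := hb
  obtain ⟨-, S', -, hS'⟩ := hb'
  have h1 := PQ.Bit.eval hS (crossProduct v w) (dot_self_cross v w)
  have h2 := PQ.Bit.eval hS' (crossProduct v w) (dot_cross_self v w)
  rw [h1] at h2
  rcases sq_eq_sq_iff_eq_or_eq_neg.1 h2 with h | h
  · exact Or.inl h
  · right
    rw [map_neg]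
    exact h

private theorem BTC_A {k : Type*} [Field k] (y : Fin 3 → Fin 3 → k) (r : Fin 3) :
    (Ay y r).IsHomogeneous 2 := (isHomogeneous_X k r).mul (PQ.lin_hom (y r))

private theorem BTC_e {k : Type*} [Field k] (y : Fin 3 → Fin 3 → k) (r : Fin 3) (p : Fin 3 → k) :
    eval p (Ay y r) = p r * (y r ⬝ᵥ p) := by
  rw [Ay, map_mul, eval_X, PQ.eval_lin]

private theorem BTC_2 {k : Type*} [Field k] {G : P3 k} (h : G.IsHomogeneous 2) :
    (2 * G).IsHomogeneous 2 := by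
  have h1 := (isHomogeneous_C (Fin 3) (2 : k)).mul h
  rwa [zero_add, map_ofNat] at h1

private theorem BTC_4 {k : Type*} [Field k] {G : P3 k} (h : G.IsHomogeneous 2) :
    (-(4 * G)).IsHomogeneous 2 := by
  have h1 := ((isHomogeneous_C (Fin 3) (4 : k)).mul h).neg
  rwa [zero_add, map_ofNat] at h1

private theorem BTC_F {k : Type*} [Field k] (y : Fin 3 → Fin 3 → k) : (RQ y).IsHomogeneous 4 := by
  have e : RQ y = (QX y 0) ^ 2 + Ay y 0 * (Ay y 0 - 2 * Ay y 1 - 2 * Ay y 2) := by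
    unfold RQ QX
    change _ = (Ay y 1 - Ay y 2) ^ 2 + _
    ring
  rw [e]
  have h1 : (QX y 0 ^ 2).IsHomogeneous 4 := (PQ.QX_hom y 0).pow 2
  have h2 : (Ay y 0 * (Ay y 0 - 2 * Ay y 1 - 2 * Ay y 2)).IsHomogeneous 4 :=
    (BTC_A y 0).mul (((BTC_A y 0).sub (BTC_2 (BTC_A y 1))).sub (BTC_2 (BTC_A y 2)))
  exact h1.add h2

theorem btc {k : Type*} [Field k] [IsAlgClosed k] [CharZero k] (y : Fin 3 → Fin 3 → k) (hNS : NS (RQ y))
    (w : Fin 3 → k) (hw : w ≠ 0) (Q : P3 k) (hb : Bit (RQ y) w Q) :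
    (∃ c : k, c ≠ 0 ∧ w = c • (Pi.single 0 1 : Fin 3 → k)) ∨ (∃ c : k, c ≠ 0 ∧ w = c • y 0) ∨
    (∃ c : k, c ≠ 0 ∧ w = c • (Pi.single 1 1 : Fin 3 → k)) ∨
    (∃ t : k, lin w ∣ Ct (Pi.single 0 1) (y 0) (QX y 0) (Ay y 0 - 2 * Ay y 1 - 2 * Ay y 2) t) ∨
    (∃ t : k, lin w ∣ Ct (Pi.single 0 1) (Pi.single 1 1) (Ay y 0 + Ay y 1 - Ay y 2)
      (-(4 * (lin (y 0) * lin (y 1)))) t) ∨
    (∃ t : k, lin w ∣ Ct (y 0) (Pi.single 1 1) (Ay y 0 + Ay y 1 - Ay y 2) (-(4 * (X 0 * lin (y 1)))) t) := by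
  have hF := BTC_F y
  have hy0 : y 0 ≠ 0 := by
    intro h
    exact PQ.prx_same y hNS 0 (by rw [h]; simp)
  have he0 : (Pi.single 0 1 : Fin 3 → k) ≠ 0 := by
    intro h
    have := congrFun h 0
    simp at this
  have he1 : (Pi.single 1 1 : Fin 3 → k) ≠ 0 := by
    intro h
    have := congrFun h 1
    simp at this
  by_cases h0 : crossProduct (Pi.single 0 1 : Fin 3 → k) w = 0
  · exact Or.inl (BTC_par he0 hw h0)
  by_cases h1 : crossProduct (y 0) w = 0
  · exact Or.inr (Or.inl (BTC_par hy0 hw h1))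
  by_cases h2 : crossProduct (Pi.single 1 1 : Fin 3 → k) w = 0
  · exact Or.inr (Or.inr (Or.inl (BTC_par he1 hw h2)))
  right; right; right
  have hbn : Bit (RQ y) w (-Q) := PQ.bit_neg hb
  have hb0 := PQ.bit_x y 0
  have hb1 := PQ.bit_y y 0
  have hb2 := PQ.bit_neg (PQ.bit_x y 1)
  have hl0 : lin (Pi.single 0 (1 : k)) = X 0 := PQ.lin_single 0
  have hl1 : lin (Pi.single 1 (1 : k)) = X 1 := PQ.lin_single 1
  -- the forms at the points
  have hq : (Ay y 0 + Ay y 1 - Ay y 2).IsHomogeneous 2 := ((BTC_A y 0).add (BTC_A y 1)).sub (BTC_A y 2)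
  have hqx0 : QX y 0 = Ay y 1 - Ay y 2 := rfl
  have hqx1 : QX y 1 = Ay y 2 - Ay y 0 := rfl
  have e0 : ∀ p : Fin 3 → k, eval p (Ay y 0) = 0 → eval p (Ay y 0 + Ay y 1 - Ay y 2) = eval p (QX y 0) := by
    intro p hp
    rw [hqx0, map_sub, map_sub, map_add, hp, zero_add]
  have e1 : ∀ p : Fin 3 → k, eval p (Ay y 1) = 0 → eval p (Ay y 0 + Ay y 1 - Ay y 2) = eval p (-QX y 1) := by
    intro p hp
    rw [hqx1, map_sub, map_neg, map_sub, map_add, hp]
    ring
  have f0 : eval (crossProduct (Pi.single 0 1) w) (Ay y 0) = 0 := by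
    rw [BTC_e]
    have := dot_self_cross (Pi.single 0 (1 : k)) w
    rw [single_dotProduct, one_mul] at this
    rw [this, zero_mul]
  have f1 : eval (crossProduct (y 0) w) (Ay y 0) = 0 := by
    rw [BTC_e, dot_self_cross, mul_zero]
  have f2 : eval (crossProduct (Pi.single 1 1) w) (Ay y 1) = 0 := by
    rw [BTC_e]
    have := dot_self_cross (Pi.single 1 (1 : k)) w
    rw [single_dotProduct, one_mul] at this
    rw [this, zero_mul]
  have p01 : ∀ Q' : P3 k, Bit (RQ y) w Q' →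
      eval (crossProduct (Pi.single 0 1) w) (QX y 0) = eval (crossProduct (Pi.single 0 1) w) Q' →
      eval (crossProduct (y 0) w) (QX y 0) = eval (crossProduct (y 0) w) Q' →
      ∃ t : k, lin w ∣ Ct (Pi.single 0 1) (y 0) (QX y 0) (Ay y 0 - 2 * Ay y 1 - 2 * Ay y 2) t := by
    intro Q' hb' g1 g2
    refine PQ.sta two_ne_zero (RQ y) hF hNS _ _ w he0 hy0 h0 h1 _ _ Q' (PQ.QX_hom y 0)
      (((BTC_A y 0).sub (BTC_2 (BTC_A y 1))).sub (BTC_2 (BTC_A y 2))) ?_ hb' g1 g2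
    rw [hl0, hqx0]
    change RQ y = (Ay y 1 - Ay y 2) ^ 2 + Ay y 0 * (Ay y 0 - 2 * Ay y 1 - 2 * Ay y 2)
    unfold RQ
    ring
  have p02 : ∀ Q' : P3 k, Bit (RQ y) w Q' →
      eval (crossProduct (Pi.single 0 1) w) (QX y 0) = eval (crossProduct (Pi.single 0 1) w) Q' →
      eval (crossProduct (Pi.single 1 1) w) (-QX y 1) = eval (crossProduct (Pi.single 1 1) w) Q' →
      ∃ t : k, lin w ∣ Ct (Pi.single 0 1) (Pi.single 1 1) (Ay y 0 + Ay y 1 - Ay y 2)
        (-(4 * (lin (y 0) * lin (y 1)))) t := by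
    intro Q' hb' g1 g2
    refine PQ.sta two_ne_zero (RQ y) hF hNS _ _ w he0 he1 h0 h2 _ _ Q' hq
      (BTC_4 ((PQ.lin_hom (y 0)).mul (PQ.lin_hom (y 1)))) ?_ hb' (by rw [e0 _ f0, g1])
      (by rw [e1 _ f2, g2])
    rw [hl0, hl1]
    unfold RQ Ay
    ring
  have p12 : ∀ Q' : P3 k, Bit (RQ y) w Q' →
      eval (crossProduct (y 0) w) (QX y 0) = eval (crossProduct (y 0) w) Q' →
      eval (crossProduct (Pi.single 1 1) w) (-QX y 1) = eval (crossProduct (Pi.single 1 1) w) Q' →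
      ∃ t : k, lin w ∣ Ct (y 0) (Pi.single 1 1) (Ay y 0 + Ay y 1 - Ay y 2)
        (-(4 * (X 0 * lin (y 1)))) t := by
    intro Q' hb' g1 g2
    refine PQ.sta two_ne_zero (RQ y) hF hNS _ _ w hy0 he1 h1 h2 _ _ Q' hq
      (BTC_4 ((isHomogeneous_X k 0).mul (PQ.lin_hom (y 1)))) ?_ hb' (by rw [e0 _ f1, g1])
      (by rw [e1 _ f2, g2])
    rw [hl1]
    unfold RQ Ay
    ring
  rcases BTC_sgn hb0 hb with ha | ha <;> rcases BTC_sgn hb1 hb with hc | hc
  · exact Or.inl (p01 Q hb ha hc)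
  · rcases BTC_sgn hb2 hb with hd | hd
    · exact Or.inr (Or.inl (p02 Q hb ha hd))
    · exact Or.inr (Or.inr (p12 (-Q) hbn hc hd))
  · rcases BTC_sgn hb2 hb with hd | hd
    · exact Or.inr (Or.inr (p12 Q hb hc hd))
    · exact Or.inr (Or.inl (p02 (-Q) hbn ha hd))
  · exact Or.inl (p01 (-Q) hbn ha hc)

end Pool.Agent.T1
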