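import Pool.Agent.T1.FAC

/-!
# T1 / CAA: first case of the reduction lemma

`R` a discrete valuation ring, `π` a uniformiser; `C π` is prime in `P4 R` (`MvPolynomial.prime_C_iff`), so for `f g`: `C (π ^ n) ∣ f * g`, `¬ C π ∣ f` imply `C (π ^ n) ∣ g` (`gau`).
Write `E = unit * π ^ q`, `q ≥ 1` (`IsDiscreteValuationRing.eq_unit_mul_pow_irreducible`).
Transformation: for `h` with `det h` a unit, `gw h M` satisfies the same hypotheses: `adjugate (Aᵀ B A) = adjugate A * adjugate B * (adjugate A)ᵀ`, and `z ↦ (adjugate h)ᵀ z`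
preserves primitive vectors.
Claim for `l ≥ 1`: if `l = 1` or `2 (l - 1) < q` there is `h` (`det h` a unit) such that for `M' = gw h M`: `π ∤ M' _ _ 2 2` (i.e. `¬ C π ∣ pm M' 2 2`) and `π ^ l ∣ M' i j a 2` for `a = 0, 1`.
`l = 1`: modulo `π` (residue field `k`, `mapW`) the adjugate of `pm M̄` is zero (`E` divisible by `π`); `rk1`: `M̄ i j = g i j v vᵀ`, `v ≠ 0`, `g ≠ 0` because of `h0`.  Choose `h` over `R`, `det h` a unit, with
`hᵀ v̄ = e₂` (complete `v` to a basis, lift).
Step `l → l + 1`, for `2 l < q`: write `M' i j a 2 = π ^ l β_a i j`.  For `a, b ∈ {0, 1}` the minor `M'_ab M'_22 - M'_a2 M'_b2` of `pm M'` is an entry of the adjugate (up to sign), so divisible by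
`π ^ q`, `q ≥ 2 l + 1`; so `π ^ (2 l) ∣ M'_ab M'_22`, so (`gau`) `M'_ab = π ^ (2 l) α_ab`, and `π ∣ α_ab M'_22 - β_a β_b`.  Modulo `π`, `a = b`: `pb ᾱ_aa * pb γ̄ = (pb β̄_a)^2`, `γ = M'_22`; `gmb`: `β̄_a = c̄_a • γ̄`.
Lift `c_a` to `R`; replace `e_a` by `e_a - c_a π ^ l e_2`, i.e. `h := !![1, 0, 0; 0, 1, 0; - c_0 π ^ l, - c_1 π ^ l, 1]`: `M''_a2 = M'_a2 - c_a π ^ l M'_22 = π ^ l (β_a - c_a γ)`, divisible by `π ^ (l + 1)`, `M''_22 = M'_22`.
End: take the smallest `l` with `2 l ≥ q` (so the claim holds for `l`: `l = 1` or `2 (l - 1) < q`).  `M'_a2 M'_b2` is divisible by `π ^ (2 l)`, so by `π ^ q`, so is `M'_ab M'_22`, so `π ^ q ∣ M'_ab` (`gau`) for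
`a, b ∈ {0, 1}`.  So the entry `(2, 2)` of the adjugate, `M'_00 M'_11 - M'_01 ^ 2`, is divisible by `π ^ (2 q)`, so by `E * π`: contradiction to `hz` for `z = e₂` (for `M'`).
-/

namespace Pool.Agent.T1

open MvPolynomial Matrix

section

variable {R : Type*} [CommRing R] [IsDomain R] [IsDiscreteValuationRing R]

theorem gau {σ : Type*} (π : R) (hπ : Irreducible π) (n : ℕ) (f g : MvPolynomial σ R) (hf : ¬ C π ∣ f)
    (h : C (π ^ n) ∣ f * g) : C (π ^ n) ∣ g := by
  have hp : Prime (C π : MvPolynomial σ R) := (MvPolynomial.prime_C_iff σ).2 hπ.prime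
  rw [C_pow] at h ⊢
  exact Prime.pow_dvd_of_dvd_mul_left hp n hf h

/-- transformation of the adjugate -/
theorem adj_gw {S : Type*} [CommRing S] (h A : Matrix (Fin 3) (Fin 3) S) :
    (hᵀ * A * h).adjugate = h.adjugate * A.adjugate * h.adjugateᵀ := by
  rw [adjugate_mul_distrib, adjugate_mul_distrib, adjugate_transpose, Matrix.mul_assoc]

/-- a primitive vector is the first row of a matrix with unit determinant -/
theorem prim_row {S : Type*} [CommRing S] [IsLocalRing S] (v : Fin 3 → S) (j : Fin 3) (hv : IsUnit (v j)) :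
    ∃ g : Matrix (Fin 3) (Fin 3) S, IsUnit g.det ∧ g 0 = v := by
  fin_cases j
  · refine ⟨!![v 0, v 1, v 2; 0, 1, 0; 0, 0, 1], ?_, ?_⟩
    · rw [det_fin_three]
      simpa using hv
    · funext i
      fin_cases i <;> simp
  · refine ⟨!![v 0, v 1, v 2; 1, 0, 0; 0, 0, 1], ?_, ?_⟩
    · rw [det_fin_three]
      simpa using hv
    · funext i
      fin_cases i <;> simp
  · refine ⟨!![v 0, v 1, v 2; 1, 0, 0; 0, 1, 0], ?_, ?_⟩
    · rw [det_fin_three]
      simpa using hv
    · funext i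
      fin_cases i <;> simp

private theorem caa_dvd_iff (π : R) (hπ : Irreducible π) (x : R) :
    IsLocalRing.residue R x = 0 ↔ π ∣ x := by
  rw [IsLocalRing.residue_eq_zero_iff, (IsDiscreteValuationRing.irreducible_iff_uniformizer π).1 hπ,
    Ideal.mem_span_singleton]

/-- the hypotheses -/
private structure CAG (π : R) (q : ℕ) (M : Web R) : Prop where
  sy : Sy M
  adj : ∀ a b, C (π ^ q) ∣ (pm M).adjugate a b
  hz : ∀ z : Fin 3 → R, (∃ a, IsUnit (z a)) →
      ¬ C (π ^ (q + 1)) ∣ ∑ a, ∑ b, C (z a * z b) * (pm M).adjugate a b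

omit [IsDomain R] [IsDiscreteValuationRing R] in
private theorem caa_adj (h : Matrix (Fin 3) (Fin 3) R) (M : Web R) :
    (pm (gw h M)).adjugate = h.adjugate.map (C : R → P4 R) * (pm M).adjugate * (h.adjugate.map (C : R → P4 R))ᵀ := by
  rw [pm_gw, adj_gw]
  have : (h.map (C : R → P4 R)).adjugate = h.adjugate.map C := by
    have := RingHom.map_adjugate (C : R →+* P4 R) h
    simp only [RingHom.mapMatrix_apply] at this
    exact this.symm
  rw [this]

omit [IsDomain R] [IsDiscreteValuationRing R] in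
private theorem caa_sum (k : Matrix (Fin 3) (Fin 3) R) (A : Matrix (Fin 3) (Fin 3) (P4 R)) (z : Fin 3 → R) :
    ∑ a, ∑ b, C (z a * z b) * (k.map (C : R → P4 R) * A * (k.map (C : R → P4 R))ᵀ : Matrix (Fin 3) (Fin 3) (P4 R)) a b =
      ∑ a, ∑ b, C ((z ᵥ* k) a * (z ᵥ* k) b) * A a b := by
  simp only [Matrix.mul_apply, Matrix.transpose_apply, Matrix.map_apply, Fin.sum_univ_three, vecMul, dotProduct,
    C_mul, C_add]
  ring

private theorem CAG.gw {π : R} {q : ℕ} {M : Web R} (hM : CAG π q M) {h : Matrix (Fin 3) (Fin 3) R}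
    (hh : IsUnit h.det) : CAG π q (gw h M) where
  sy := hM.sy.gw h
  adj a b := by
    rw [caa_adj]
    simp only [Matrix.mul_apply]
    refine Finset.dvd_sum fun i _ => Dvd.dvd.mul_right (Finset.dvd_sum fun j _ => Dvd.dvd.mul_left (hM.adj _ _) _) _
  hz z hz := by
    rw [caa_adj, caa_sum]
    refine hM.hz _ ?_
    by_contra hc
    push Not at hc
    obtain ⟨a, ha⟩ := hz
    have h1 : (z ᵥ* h.adjugate) ᵥ* h = h.det • z := by
      rw [Matrix.vecMul_vecMul, adjugate_mul, Matrix.vecMul_smul, Matrix.vecMul_one]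
    have h2 : h.det * z a ∈ IsLocalRing.maximalIdeal R := by
      have h3 := congrFun h1 a
      rw [Pi.smul_apply, smul_eq_mul] at h3
      rw [← h3]
      simp only [vecMul, dotProduct]
      refine Ideal.sum_mem _ fun i _ => Ideal.mul_mem_right _ _ ?_
      exact (IsLocalRing.mem_maximalIdeal _).2 (hc i)
    exact (IsLocalRing.mem_maximalIdeal _).1 h2 (hh.mul ha)

omit [CommRing R] [IsDomain R] [IsDiscreteValuationRing R] in
private theorem caa_minor {S : Type*} [CommRing S] (A : Matrix (Fin 3) (Fin 3) S) (hA : Aᵀ = A) (p : S)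
    (hp : ∀ a b, p ∣ A.adjugate a b) (a b : Fin 3) (ha : a ≠ 2) (hb : b ≠ 2) :
    p ∣ A a b * A 2 2 - A a 2 * A b 2 := by
  have hs : ∀ i j, A i j = A j i := fun i j => by
    conv_lhs => rw [← hA]
    rfl
  rw [adjugate_fin_three] at hp
  have h00 := hp 0 0
  have h11 := hp 1 1
  have h01 := hp 0 1
  simp only [of_apply, cons_val', cons_val_zero, cons_val_one, cons_val_fin_one] at h00 h11 h01
  have hab : (a = 0 ∨ a = 1) ∧ (b = 0 ∨ b = 1) := by
    constructor
    · revert ha; fin_cases a <;> simp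
    · revert hb; fin_cases b <;> simp
  obtain ⟨rfl | rfl, rfl | rfl⟩ := hab
  · convert h11 using 1
    rw [hs 2 0]
  · have h2 := (dvd_neg (a := p)).2 h01
    convert h2 using 1
    rw [hs 2 1]
    ring
  · have h2 := (dvd_neg (a := p)).2 h01
    convert h2 using 1
    rw [hs 2 1, hs 1 0]
    ring
  · convert h00 using 1
    rw [hs 2 1]

/-- the statement of the induction -/
private def CAP (π : R) (q l : ℕ) : Prop :=
  ∃ M : Web R, CAG π q M ∧ ¬ C π ∣ pm M 2 2 ∧ ∀ i j a, a ≠ 2 → π ^ l ∣ M i j a 2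

private theorem caa_p1 (π : R) (hπ : Irreducible π) (q : ℕ) (hq : 1 ≤ q) (M : Web R) (hM : CAG π q M)
    (h0 : ∃ i j a b, ¬ π ∣ M i j a b) : CAP π q 1 := by
  set f := IsLocalRing.residue R with hf
  have hz : ∀ x, f x = 0 ↔ π ∣ x := fun x => caa_dvd_iff π hπ x
  have hadj : (pm (mapW f M)).adjugate = 0 := by
    rw [← map_pm]
    have h1 := RingHom.map_adjugate (MvPolynomial.map f) (pm M)
    simp only [RingHom.mapMatrix_apply] at h1
    rw [← h1]
    ext1 a b
    obtain ⟨c, hc⟩ := hM.adj a b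
    rw [map_apply, hc, map_mul, map_C, map_pow, (hz π).2 dvd_rfl, zero_pow (by omega), C_0, zero_mul]
    rfl
  obtain ⟨v, g, hv, hg⟩ := rk1 _ (hM.sy.mapW f) hadj
  choose v' hv' using fun a => IsLocalRing.residue_surjective (v a)
  obtain ⟨j, hj⟩ := Function.ne_iff.1 hv
  have hvj : IsUnit (v' j) := by
    by_contra hc
    apply hj
    rw [Pi.zero_apply, ← hv' j, IsLocalRing.residue_eq_zero_iff]
    exact (IsLocalRing.mem_maximalIdeal _).2 hc
  obtain ⟨g0, hg0, hg0'⟩ := prim_row v' j hvj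
  set P : Matrix (Fin 3) (Fin 3) R := !![0, 0, 1; 0, 1, 0; 1, 0, 0] with hP
  have hPd : P.det = -1 := by
    rw [hP, det_fin_three]
    simp
  set h := g0⁻¹ * P with hh
  have hhd : IsUnit h.det := by
    rw [hh, det_mul, hPd]
    exact ((isUnit_nonsing_inv_det_iff).2 hg0).mul (isUnit_one.neg)
  have hv'h : v' ᵥ* h = Pi.single 2 1 := by
    have h1 : v' = (Pi.single 0 1) ᵥ* g0 := by
      rw [single_one_vecMul]
      exact hg0'.symm
    rw [h1, vecMul_vecMul, hh, ← Matrix.mul_assoc, mul_nonsing_inv _ hg0, Matrix.one_mul, single_one_vecMul]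
    funext i
    fin_cases i <;> simp [hP]
  have key : ∀ i j a b, f (gw h M i j a b) = g i j * ((Pi.single 2 1 : Fin 3 → _) a * (Pi.single 2 1 : Fin 3 → _) b) := by
    intro i j a b
    have h4 : f (gw h M i j a b) = gw (h.map f) (mapW f M) i j a b := by
      rw [← mapW_gw]
      rfl
    have h5 : ∀ c, (v ᵥ* h.map f) c = (Pi.single 2 1 : Fin 3 → _) c := by
      intro c
      have h6 := congrArg f (congrFun hv'h c)
      simp only [vecMul, dotProduct, map_sum, map_mul, map_apply] at h6 ⊢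
      simp only [hf, hv'] at h6 ⊢
      rw [h6]
      fin_cases c <;> simp
    rw [h4, ← h5, ← h5]
    simp only [gw, hg, Matrix.mul_apply, Matrix.transpose_apply, Matrix.smul_apply, vecMulVec_apply, smul_eq_mul,
      Fin.sum_univ_three, vecMul, dotProduct, Matrix.map_apply]
    ring
  refine ⟨gw h M, hM.gw hhd, ?_, ?_⟩
  · rw [pm_apply, pb_dvd]
    intro hc
    obtain ⟨i, j, a, b, h1⟩ := h0
    apply h1
    rw [← hz]
    have h2 : g i j = 0 := by
      have h3 := (hz _).2 (hc i j)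
      rw [of_apply, key] at h3
      simpa using h3
    have h3 : mapW f M i j a b = 0 := by
      rw [hg, h2, zero_smul]
      rfl
    exact h3
  · intro i j a ha
    rw [pow_one, ← hz, key, Pi.single_eq_of_ne ha, zero_mul, mul_zero]

private theorem caa_step (π : R) (hπ : Irreducible π) (q l : ℕ) (hl : 1 ≤ l) (hlq : 2 * l < q) (hP : CAP π q l) :
    CAP π q (l + 1) := by
  obtain ⟨M, hM, h22, hd⟩ := hP
  set f := IsLocalRing.residue R with hf
  have hz : ∀ x, f x = 0 ↔ π ∣ x := fun x => caa_dvd_iff π hπ x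
  set γ : Matrix (Fin 2) (Fin 2) R := Matrix.of fun i j => M i j 2 2 with hγ
  have hπ0 : π ≠ 0 := hπ.ne_zero
  have hC0 : ∀ n, (C (π ^ n) : P4 R) ≠ 0 := fun n => by
    rw [Ne, C_eq_zero]
    exact pow_ne_zero _ hπ0
  have hCd : ∀ m n, m ≤ n → (C (π ^ m) : P4 R) ∣ C (π ^ n) := fun m n h =>
    map_dvd (C : R →+* P4 R) (pow_dvd_pow π h)
  have hγ0 : γ.map f ≠ 0 := by
    intro h1
    apply h22
    rw [pm_apply, pb_dvd]
    intro i j
    rw [← hz]
    exact congrFun (congrFun h1 i) j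
  have hc : ∀ a : Fin 3, a ≠ 2 → ∃ c : R, ∀ i j, π ^ (l + 1) ∣ M i j a 2 - c * π ^ l * M i j 2 2 := by
    intro a ha
    choose β hβ using fun i j => hd i j a ha
    have e1 : pm M a 2 = C (π ^ l) * pb (Matrix.of β) := by
      rw [pm_apply, ← pb_smul]
      congr 1
      ext i j
      simp [hβ]
    have e1' : pm M a 2 * pm M a 2 = C (π ^ (2 * l)) * (pb (Matrix.of β) * pb (Matrix.of β)) := by
      rw [e1, two_mul, pow_add, C_mul]
      ring
    have m1 := caa_minor (pm M) (pm_symm hM.sy) (C (π ^ q)) hM.adj a a ha ha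
    have m2 : C (π ^ (2 * l)) ∣ pm M 2 2 * pm M a a := by
      have h2 := dvd_add ((hCd (2 * l) q (by omega)).trans m1) (Dvd.intro _ e1'.symm)
      rw [sub_add_cancel, mul_comm (pm M a a)] at h2
      exact h2
    have m3 := gau π hπ _ _ _ h22 m2
    rw [pm_apply, pb_dvd] at m3
    choose α hα using m3
    have e2 : pm M a a = C (π ^ (2 * l)) * pb (Matrix.of α) := by
      rw [pm_apply, ← pb_smul]
      congr 1
      ext i j
      simpa using hα i j
    have m4 : C (π ^ (2 * l)) * (C π : P4 R) ∣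
        C (π ^ (2 * l)) * (pb (Matrix.of α) * pm M 2 2 - pb (Matrix.of β) * pb (Matrix.of β)) := by
      have h1 := (hCd (2 * l + 1) q (by omega)).trans m1
      rw [e1', e2, pow_succ, C_mul] at h1
      rw [mul_sub, ← mul_assoc _ (pb (Matrix.of α))]
      exact h1
    have m5 := (mul_dvd_mul_iff_left (hC0 (2 * l))).1 m4
    have m6 : pb (γ.map f) * pb ((Matrix.of α).map f) = pb ((Matrix.of β).map f) ^ 2 := by
      obtain ⟨c, hc⟩ := m5
      have h1 := congrArg (MvPolynomial.map f) hc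
      rw [map_mul, map_C, (hz π).2 dvd_rfl, C_0, zero_mul, map_sub, map_mul, map_mul, map_pb, map_pb, pm_apply,
        map_pb, sub_eq_zero] at h1
      rw [sq, mul_comm]
      exact h1
    obtain ⟨c', hc'⟩ := gmb _ _ _ hγ0 m6
    obtain ⟨c, hc⟩ := IsLocalRing.residue_surjective c'
    refine ⟨c, fun i j => ?_⟩
    have h1 : π ∣ β i j - c * M i j 2 2 := by
      rw [← hz, map_sub, map_mul, sub_eq_zero]
      have h2 := congrFun (congrFun hc' i) j
      rw [hc]
      exact h2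
    have h3 : M i j a 2 - c * π ^ l * M i j 2 2 = π ^ l * (β i j - c * M i j 2 2) := by
      rw [hβ]
      ring
    rw [h3, pow_succ]
    exact mul_dvd_mul_left _ h1
  obtain ⟨c0, hc0⟩ := hc 0 (by decide)
  obtain ⟨c1, hc1⟩ := hc 1 (by decide)
  set h : Matrix (Fin 3) (Fin 3) R := !![1, 0, 0; 0, 1, 0; -c0 * π ^ l, -c1 * π ^ l, 1] with hh
  have hdet : IsUnit h.det := by
    rw [hh, det_fin_three]
    simp
  have g22 : ∀ i j, gw h M i j 2 2 = M i j 2 2 := by
    intro i j
    simp [gw, Matrix.mul_apply, Fin.sum_univ_three, hh]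
  refine ⟨gw h M, hM.gw hdet, ?_, ?_⟩
  · rw [pm_apply]
    rw [pm_apply] at h22
    simpa only [g22] using h22
  · intro i j a ha
    have hab : a = 0 ∨ a = 1 := by
      revert ha; fin_cases a <;> simp
    rcases hab with rfl | rfl
    · have h1 : gw h M i j 0 2 = M i j 0 2 - c0 * π ^ l * M i j 2 2 := by
        simp [gw, Matrix.mul_apply, Fin.sum_univ_three, hh]
        ring
      rw [h1]
      exact hc0 i j
    · have h1 : gw h M i j 1 2 = M i j 1 2 - c1 * π ^ l * M i j 2 2 := by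
        simp [gw, Matrix.mul_apply, Fin.sum_univ_three, hh]
        ring
      rw [h1]
      exact hc1 i j

private theorem caa_end (π : R) (hπ : Irreducible π) (q l : ℕ) (hq : 1 ≤ q) (hlq : q ≤ 2 * l) (hP : CAP π q l) :
    False := by
  obtain ⟨M, hM, h22, hd⟩ := hP
  have hCd : ∀ m n, m ≤ n → (C (π ^ m) : P4 R) ∣ C (π ^ n) := fun m n h =>
    map_dvd (C : R →+* P4 R) (pow_dvd_pow π h)
  have e1 : ∀ a, a ≠ 2 → C (π ^ l) ∣ pm M a 2 := by
    intro a ha
    rw [pm_apply, pb_dvd]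
    intro i j
    exact hd i j a ha
  have e2 : ∀ a b, a ≠ 2 → b ≠ 2 → C (π ^ q) ∣ pm M a b := by
    intro a b ha hb
    have m1 := caa_minor (pm M) (pm_symm hM.sy) (C (π ^ q)) hM.adj a b ha hb
    have m2 : C (π ^ q) ∣ pm M a 2 * pm M b 2 := by
      have h1 := mul_dvd_mul (e1 a ha) (e1 b hb)
      rw [← C_mul, ← pow_add, ← two_mul] at h1
      exact (hCd q (2 * l) hlq).trans h1
    have m3 := dvd_add m1 m2
    rw [sub_add_cancel, mul_comm (pm M a b)] at m3
    exact gau π hπ _ _ _ h22 m3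
  refine hM.hz (Pi.single 2 1) ⟨2, by simp⟩ ?_
  have h1 : ∑ a, ∑ b, C ((Pi.single 2 1 : Fin 3 → R) a * (Pi.single 2 1 : Fin 3 → R) b) * (pm M).adjugate a b =
      (pm M).adjugate 2 2 := by
    simp [Fin.sum_univ_three]
  have h2 : (pm M).adjugate 2 2 = pm M 0 0 * pm M 1 1 - pm M 0 1 * pm M 1 0 := by
    rw [adjugate_fin_three]
    simp
  rw [h1, h2]
  have h3 : ∀ x y : P4 R, C (π ^ q) ∣ x → C (π ^ q) ∣ y → C (π ^ (q + 1)) ∣ x * y := by
    intro x y hx hy
    have h4 := mul_dvd_mul hx hy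
    rw [← C_mul, ← pow_add] at h4
    exact (hCd _ _ (by omega)).trans h4
  exact dvd_sub (h3 _ _ (e2 0 0 (by decide) (by decide)) (e2 1 1 (by decide) (by decide)))
    (h3 _ _ (e2 0 1 (by decide) (by decide)) (e2 1 0 (by decide) (by decide)))

theorem caa (π : R) (hπ : Irreducible π) (h2 : IsUnit (2 : R)) (M : Web R) (hs : Sy M) (E : R) (hE0 : E ≠ 0)
    (hE : ¬ IsUnit E) (h0 : ∃ i j a b, ¬ π ∣ M i j a b) (hadj : ∀ a b, C E ∣ (pm M).adjugate a b)
    (hz : ∀ z : Fin 3 → R, (∃ a, IsUnit (z a)) →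
      ¬ C (E * π) ∣ ∑ a, ∑ b, C (z a * z b) * (pm M).adjugate a b) : False := by
  obtain ⟨q, u, rfl⟩ := IsDiscreteValuationRing.eq_unit_mul_pow_irreducible hE0 hπ
  have hq : 1 ≤ q := by
    rcases Nat.eq_zero_or_pos q with rfl | h
    · exact absurd (by simp) hE
    · exact h
  have hM : CAG π q M := by
    refine ⟨hs, fun a b => ?_, fun z hz' h1 => hz z hz' ?_⟩
    · refine Dvd.dvd.trans (map_dvd (C : R →+* P4 R) ?_) (hadj a b)
      exact Dvd.intro_left _ rfl
    · refine Dvd.dvd.trans (map_dvd (C : R →+* P4 R) ?_) h1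
      rw [mul_assoc, ← pow_succ]
      exact (Units.mul_left_dvd).2 dvd_rfl
  have key : ∀ l, CAP π q (l + 1) := by
    intro l
    induction l with
    | zero => exact caa_p1 π hπ q hq M hM h0
    | succ l ih =>
      by_cases h : 2 * (l + 1) < q
      · exact caa_step π hπ q (l + 1) (by omega) h ih
      · exact (caa_end π hπ q (l + 1) hq (by omega) ih).elim
  exact caa_end π hπ q (q + 1) hq (by omega) (key q)

end

end Pool.Agent.T1
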