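import Pool.Agent.T1.LSB
import Pool.Agent.G4.BAM
import Pool.Agent.G4.BAS

/-!
# T1 / CQT: cubic forms on the cone

`cqt`: `G` of degree 3 is `∑ j ≤ 3, G_j(X 0, X 1, X 2) * X 3 ^ j` with `G_j` homogeneous of degree `3 - j`, `G_3 = e`.  `cq G = ∑ em (G_j (s², s t, t²)) * X 2 ^ j`, `G_j (s², s t, t²)` a form of degree `2 (3 - j)`.
`A i := C e⁻¹ * G_(2 - i) (s², s t, t²)` (with the inverse of the unit `e`).  A way to do it without choosing the decomposition: the set of `G` for which there are `f : Fin 3 → P2 R` with `f i` homogeneous of degree `2 i + 2` and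
`cq G = C (eval e₃ G) * X 2 ^ 3 + em (f 0) * X 2 ^ 2 + em (f 1) * X 2 + em (f 2)` is closed under sums and contains all monomials of degree 3 (`monomial m c`, `m 0 + m 1 + m 2 + m 3 = 3`; case distinction on `m 3 = 0, 1, 2, 3`); `G` is the sum of its monomials.
`tri_inj`: `tri A - tri A' = em (A 0 - A' 0) X 2 ^ 2 + ..`: apply `sl 0`, `pderiv 2` (see `WTR_uniq` in `G4/WTR.lean`; over a ring with no restriction use `sl c` for `c = 0, 1` and the derivative at `0`).
`cqn`: let `p = (s, t, z) ≠ 0`, `tri A (p) = 0`.  `(s, t) ≠ 0`, otherwise `tri A (p) = z³ ≠ 0` (`A i` forms of positive degree).  `x := (s², s t, t², z) ≠ 0`, `qc (x) = 0`, `G (x) = e * 0 = 0`, so some minor of the Jacobian matrix of `(qc, G)` at `x` is not zero.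
Suppose that all derivatives of `tri A` vanish at `p`; `G_i := eval x (pderiv i G)`: chain rule for `cq`: `G_3 = 0`, `2 s G_0 + t G_1 = 0`, `s G_1 + 2 t G_2 = 0`.  The gradient of `qc` at `x` is `(t², -2 s t, s², 0)`.  If `t ≠ 0`: `G_1 = -2 s G_0 / t`,
`G_2 = s² G_0 / t²`, the gradients are proportional.  If `t = 0`, `s ≠ 0`: `G_0 = 0`, `G_1 = 0` and both gradients are multiples of `e₂`.  So all minors vanish.  Contradiction.
-/

namespace Pool.Agent.T1

open MvPolynomial Matrix
open Pool.Agent.G4 (P2 tri TH)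
open Pool.Agent.PQ (NS)

private theorem cqt_C {R : Type*} [CommRing R] (c : R) : cq (C c) = C c := by
  unfold cq
  rw [aeval_C]
  rfl

private theorem cqt_X {R : Type*} [CommRing R] (i : Fin 4) :
    cq (X i : MvPolynomial (Fin 4) R) = (![X 0 ^ 2, X 0 * X 1, X 1 ^ 2, X 2] : Fin 4 → PQ.P3 R) i := by
  unfold cq
  rw [aeval_X]

theorem cq_map {R S : Type*} [CommRing R] [CommRing S] (f : R →+* S) (G : MvPolynomial (Fin 4) R) :
    map f (cq G) = cq (map f G) := by
  induction G using MvPolynomial.induction_on with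
  | C a => rw [cqt_C, map_C, map_C, cqt_C]
  | add p q hp hq => rw [map_add, map_add, map_add, map_add, hp, hq]
  | mul_X p i hp =>
    rw [map_mul, map_mul, map_mul, map_mul, hp, map_X, cqt_X, cqt_X]
    congr 1
    fin_cases i <;> simp

private theorem cqt_emX {R : Type*} [CommRing R] (c : R) (a b : ℕ) :
    G4.em (C c * X 0 ^ a * X 1 ^ b : P2 R) = C c * X 0 ^ a * X 1 ^ b := by
  unfold G4.em
  rw [map_mul, map_mul, map_pow, map_pow, rename_C, rename_X, rename_X]
  rfl

private theorem cqt_hom {R : Type*} [CommRing R] (c : R) (a b n : ℕ) (h : a + b = n) :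
    (C c * X 0 ^ a * X 1 ^ b : P2 R).IsHomogeneous n := by
  have h1 : (C c : P2 R).IsHomogeneous 0 := isHomogeneous_C _ _
  have h2 : (X 0 ^ a : P2 R).IsHomogeneous a := isHomogeneous_X_pow _ _
  have h3 : (X 1 ^ b : P2 R).IsHomogeneous b := isHomogeneous_X_pow _ _
  have h4 := (h1.mul h2).mul h3
  rw [zero_add, h] at h4
  exact h4

private theorem cqt_mon {R : Type*} [CommRing R] (m : Fin 4 →₀ ℕ) (c : R) :
    cq (monomial m c) = C c * X 0 ^ (2 * m 0 + m 1) * X 1 ^ (m 1 + 2 * m 2) * X 2 ^ m 3 := by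
  rw [monomial_eq, map_mul, cqt_C, Finsupp.prod_fintype _ _ (fun i => by simp), map_prod]
  simp only [map_pow, cqt_X, Fin.prod_univ_four]
  simp only [Matrix.cons_val_zero, Matrix.cons_val_one, Matrix.cons_val_two, Matrix.cons_val_three, Matrix.tail_cons,
    Matrix.head_cons, Matrix.cons_val]
  ring

private def CqtP {R : Type*} [CommRing R] (G : MvPolynomial (Fin 4) R) : Prop :=
  ∃ f : Fin 3 → P2 R, TH f ∧ cq G = C (eval (Pi.single 3 1) G) * X 2 ^ 3 + G4.em (f 0) * X 2 ^ 2 +
    G4.em (f 1) * X 2 + G4.em (f 2)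

private theorem cqt_zero {R : Type*} [CommRing R] : CqtP (0 : MvPolynomial (Fin 4) R) :=
  ⟨0, fun i => isHomogeneous_zero _ _ _, by simp⟩

private theorem cqt_add {R : Type*} [CommRing R] {F G : MvPolynomial (Fin 4) R} (hF : CqtP F) (hG : CqtP G) :
    CqtP (F + G) := by
  obtain ⟨f, h1, h2⟩ := hF
  obtain ⟨g, h3, h4⟩ := hG
  refine ⟨f + g, fun i => (h1 i).add (h3 i), ?_⟩
  rw [map_add, h2, h4]
  simp only [Pi.add_apply, map_add]
  ring

private theorem cqt_monP {R : Type*} [CommRing R] (m : Fin 4 →₀ ℕ) (c : R) (hm : m 0 + m 1 + m 2 + m 3 = 3) :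
    CqtP (monomial m c) := by
  have hev : eval (Pi.single 3 1) (monomial m c) = c * (0 ^ m 0 * 0 ^ m 1 * 0 ^ m 2) := by
    rw [eval_monomial, Finsupp.prod_fintype _ _ (fun i => by simp), Fin.prod_univ_four]
    simp
  have h3 : m 3 = 0 ∨ m 3 = 1 ∨ m 3 = 2 ∨ m 3 = 3 := by omega
  rcases h3 with h3 | h3 | h3 | h3
  · refine ⟨![0, 0, C c * X 0 ^ (2 * m 0 + m 1) * X 1 ^ (m 1 + 2 * m 2)], ?_, ?_⟩
    · intro i
      fin_cases i
      · exact isHomogeneous_zero _ _ _
      · exact isHomogeneous_zero _ _ _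
      · exact cqt_hom c _ _ _ (by simp; omega)
    · have hz : (0 : R) ^ m 0 * 0 ^ m 1 * 0 ^ m 2 = 0 := by
        rw [← pow_add, ← pow_add]
        exact zero_pow (by omega)
      rw [hev, hz, cqt_mon, h3]
      simp only [Matrix.cons_val_zero, Matrix.cons_val_one, Matrix.cons_val_two, Matrix.tail_cons,
        Matrix.head_cons, Matrix.cons_val, cqt_emX]
      simp
  · refine ⟨![0, C c * X 0 ^ (2 * m 0 + m 1) * X 1 ^ (m 1 + 2 * m 2), 0], ?_, ?_⟩
    · intro i
      fin_cases i
      · exact isHomogeneous_zero _ _ _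
      · exact cqt_hom c _ _ _ (by simp; omega)
      · exact isHomogeneous_zero _ _ _
    · have hz : (0 : R) ^ m 0 * 0 ^ m 1 * 0 ^ m 2 = 0 := by
        rw [← pow_add, ← pow_add]
        exact zero_pow (by omega)
      rw [hev, hz, cqt_mon, h3]
      simp only [Matrix.cons_val_zero, Matrix.cons_val_one, Matrix.cons_val_two, Matrix.tail_cons,
        Matrix.head_cons, Matrix.cons_val, cqt_emX]
      simp
  · refine ⟨![C c * X 0 ^ (2 * m 0 + m 1) * X 1 ^ (m 1 + 2 * m 2), 0, 0], ?_, ?_⟩
    · intro i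
      fin_cases i
      · exact cqt_hom c _ _ _ (by simp; omega)
      · exact isHomogeneous_zero _ _ _
      · exact isHomogeneous_zero _ _ _
    · have hz : (0 : R) ^ m 0 * 0 ^ m 1 * 0 ^ m 2 = 0 := by
        rw [← pow_add, ← pow_add]
        exact zero_pow (by omega)
      rw [hev, hz, cqt_mon, h3]
      simp only [Matrix.cons_val_zero, Matrix.cons_val_one, Matrix.cons_val_two, Matrix.tail_cons,
        Matrix.head_cons, Matrix.cons_val, cqt_emX]
      simp
  · have h0 : m 0 = 0 := by omega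
    have h1 : m 1 = 0 := by omega
    have h2 : m 2 = 0 := by omega
    refine ⟨0, fun i => isHomogeneous_zero _ _ _, ?_⟩
    rw [hev, cqt_mon, h3, h0, h1, h2]
    simp

theorem cqt {R : Type*} [CommRing R] (G : MvPolynomial (Fin 4) R) (hG : G.IsHomogeneous 3) (e : R)
    (he : eval (Pi.single 3 1) G = e) (hu : IsUnit e) :
    ∃ A : Fin 3 → P2 R, TH A ∧ cq G = C e * tri A := by
  have hP : CqtP G := by
    rw [G.as_sum]
    refine Finset.sum_induction _ CqtP (fun _ _ => cqt_add) cqt_zero fun m hm => ?_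
    refine cqt_monP m _ ?_
    have h1 := hG (mem_support_iff.1 hm)
    rw [Finsupp.weight_apply, Finsupp.sum_fintype _ _ (fun i => by simp), Fin.sum_univ_four] at h1
    simpa using h1
  obtain ⟨f, hf, h1⟩ := hP
  obtain ⟨v, hv⟩ := hu.exists_right_inv
  refine ⟨fun i => C v * f i, fun i => ?_, ?_⟩
  · have h2 := (isHomogeneous_C (Fin 2) v).mul (hf i)
    rw [zero_add] at h2
    exact h2
  · rw [h1, he]
    unfold G4.tri
    have h3 : ∀ i, G4.em (C v * f i) = C v * G4.em (f i) := by
      intro i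
      rw [map_mul]
      congr 1
      unfold G4.em
      rw [rename_C]
    rw [h3, h3, h3]
    have h4 : (C e : PQ.P3 R) * C v = 1 := by rw [← map_mul, hv, map_one]
    linear_combination (-(G4.em (f 0) * X 2 ^ 2 + G4.em (f 1) * X 2 + G4.em (f 2))) * h4

private theorem cqt_ph {R : Type*} [CommRing R] (p : P2 R) :
    (aeval ![Polynomial.C (X 0), Polynomial.C (X 1), Polynomial.X] : PQ.P3 R →ₐ[R] Polynomial (P2 R)) (G4.em p) =
      Polynomial.C p := by
  induction p using MvPolynomial.induction_on with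
  | C a =>
    unfold G4.em
    rw [rename_C, aeval_C]
    rfl
  | add p q hp hq => rw [map_add, map_add, hp, hq, map_add]
  | mul_X p i hp =>
    rw [map_mul, map_mul, hp, map_mul]
    congr 1
    unfold G4.em
    rw [rename_X, aeval_X]
    fin_cases i <;> rfl

theorem tri_inj {R : Type*} [CommRing R] {A A' : Fin 3 → P2 R} (h : tri A = tri A') : A = A' := by
  obtain ⟨φ, hφ⟩ : ∃ φ : PQ.P3 R →ₐ[R] Polynomial (P2 R),
      φ = aeval ![Polynomial.C (X 0), Polynomial.C (X 1), Polynomial.X] := ⟨_, rfl⟩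
  have h2 : φ (X 2) = Polynomial.X := by
    rw [hφ, aeval_X]
    rfl
  have hem : ∀ p, φ (G4.em p) = Polynomial.C p := fun p => by rw [hφ]; exact cqt_ph p
  have h1 := congrArg φ h
  unfold G4.tri at h1
  simp only [map_add, map_mul, map_pow, h2, hem] at h1
  have c0 := congrArg (fun q => Polynomial.coeff q 0) h1
  have c1 := congrArg (fun q => Polynomial.coeff q 1) h1
  have c2 := congrArg (fun q => Polynomial.coeff q 2) h1
  simp [Polynomial.coeff_X, Polynomial.coeff_C, Polynomial.coeff_X_pow] at c0 c1 c2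
  funext i
  fin_cases i
  · exact c2
  · exact c1
  · exact c0

private theorem cqt_chain {R : Type*} [CommRing R] (G : MvPolynomial (Fin 4) R) (i : Fin 3) :
    pderiv i (cq G) = ∑ k, cq (pderiv k G) * pderiv i (cq (X k)) := by
  induction G using MvPolynomial.induction_on with
  | C a => simp [cqt_C]
  | add f g hf hg =>
    simp only [map_add, hf, hg, add_mul, Finset.sum_add_distrib]
  | mul_X f j hf =>
    rw [map_mul, pderiv_mul, hf]
    have h1 : ∀ k, cq (pderiv k (f * X j)) * pderiv i (cq (X k)) =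
        cq (pderiv k f) * pderiv i (cq (X k)) * cq (X j) +
          (if k = j then cq f * pderiv i (cq (X k)) else 0) := by
      intro k
      rw [pderiv_mul, pderiv_X, map_add, map_mul]
      by_cases hk : k = j
      · subst hk
        simp
        ring
      · rw [Pi.single_eq_of_ne (Ne.symm hk), if_neg hk]
        simp
        ring
    rw [Finset.sum_congr rfl fun k _ => h1 k, Finset.sum_add_distrib, ← Finset.sum_mul,
      Finset.sum_ite_eq' Finset.univ j]
    simp

private theorem cqt_ev {R : Type*} [CommRing R] (G : MvPolynomial (Fin 4) R) (p : Fin 3 → R) :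
    eval p (cq G) = eval ![p 0 ^ 2, p 0 * p 1, p 1 ^ 2, p 2] G := by
  induction G using MvPolynomial.induction_on with
  | C a => rw [cqt_C, eval_C, eval_C]
  | add f g hf hg => rw [map_add, map_add, map_add, hf, hg]
  | mul_X f j hf =>
    rw [map_mul, map_mul, map_mul, hf, cqt_X, eval_X]
    congr 1
    fin_cases j <;> simp

theorem cqn {k : Type*} [Field k] (h2 : (2 : k) ≠ 0) (G : MvPolynomial (Fin 4) k) (hN : CN (qc k) G) (e : k)
    (he : e ≠ 0) (A : Fin 3 → P2 k) (hA : TH A) (h : cq G = C e * tri A) : NS (tri A) := by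
  intro p hp h0
  by_contra hcon
  push Not at hcon
  obtain ⟨x, hx⟩ : ∃ x : Fin 4 → k, x = ![p 0 ^ 2, p 0 * p 1, p 1 ^ 2, p 2] := ⟨_, rfl⟩
  have hev : ∀ F : MvPolynomial (Fin 4) k, eval p (cq F) = eval x F := fun F => by rw [hx]; exact cqt_ev F p
  -- the derivatives
  have hd : ∀ i, ∑ l, eval x (pderiv l G) * eval p (pderiv i (cq (X l))) = 0 := by
    intro i
    have h1 := congrArg (eval p) (cqt_chain G i)
    rw [h, pderiv_C_mul, map_mul, eval_C, hcon i, mul_zero, map_sum] at h1
    simp only [map_mul, hev] at h1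
    exact h1.symm
  have d0 := hd 0
  have d1 := hd 1
  have d2 := hd 2
  simp only [Fin.sum_univ_four, cqt_X] at d0 d1 d2
  simp [pderiv_X, Pi.single_apply] at d0 d1 d2
  -- the point
  have hx0 : x ≠ 0 := by
    intro hx0
    have q0 : p 0 = 0 := by
      have h1 : x 0 = 0 := by rw [hx0]; rfl
      rw [hx] at h1
      exact pow_eq_zero_iff (two_ne_zero) |>.1 h1
    have q1 : p 1 = 0 := by
      have h1 : x 2 = 0 := by rw [hx0]; rfl
      rw [hx] at h1
      exact pow_eq_zero_iff (two_ne_zero) |>.1 h1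
    have q2 : p 2 = 0 := by
      have h1 : x 3 = 0 := by rw [hx0]; rfl
      rw [hx] at h1
      exact h1
    apply hp
    funext i
    fin_cases i
    · exact q0
    · exact q1
    · exact q2
  have hQ : eval x (qc k) = 0 := by
    rw [hx]
    simp [qc]
    ring
  have hG : eval x G = 0 := by
    rw [← hev, h, map_mul, h0, mul_zero]
  obtain ⟨i, j, hij⟩ := hN x hx0 hQ hG
  apply hij
  have e3 : eval x (pderiv 3 G) = 0 := d2
  have g0 : eval x (pderiv 0 (qc k)) = p 1 ^ 2 := by
    rw [hx]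
    simp [qc, pderiv_X, Pi.single_apply]
  have g1 : eval x (pderiv 1 (qc k)) = -(2 * (p 0 * p 1)) := by
    rw [hx]
    simp [qc, pderiv_X, Pi.single_apply]
  have g2 : eval x (pderiv 2 (qc k)) = p 0 ^ 2 := by
    rw [hx]
    simp [qc, pderiv_X, Pi.single_apply]
  have g3 : eval x (pderiv 3 (qc k)) = 0 := by
    rw [hx]
    simp [qc, pderiv_X, Pi.single_apply]
  have k01 : p 1 ^ 2 * eval x (pderiv 1 G) - -(2 * (p 0 * p 1)) * eval x (pderiv 0 G) = 0 := by
    linear_combination p 1 * d0
  have k02 : p 1 ^ 2 * eval x (pderiv 2 G) - p 0 ^ 2 * eval x (pderiv 0 G) = 0 := by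
    have h5 : 2 * (p 1 ^ 2 * eval x (pderiv 2 G) - p 0 ^ 2 * eval x (pderiv 0 G)) = 0 := by
      linear_combination p 1 * d1 - p 0 * d0
    exact (mul_eq_zero.1 h5).resolve_left h2
  have k12 : -(2 * (p 0 * p 1)) * eval x (pderiv 2 G) - p 0 ^ 2 * eval x (pderiv 1 G) = 0 := by
    linear_combination -p 0 * d1
  unfold jm
  rw [map_sub, map_mul, map_mul]
  fin_cases i <;> fin_cases j <;> simp only [Fin.zero_eta, Fin.mk_one, Fin.reduceFinMk, g0, g1, g2, g3, e3, mul_zero, zero_mul, sub_self]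
  · exact k01
  · exact k02
  · linear_combination -k01
  · exact k12
  · linear_combination -k02
  · linear_combination -k12

end Pool.Agent.T1
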