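import Pool.Agent.T1.CSI
import Pool.Agent.T1.CQT
import Pool.Agent.G4.WTR

/-!
# T1 / CMP: comparison of two models on the cone

`csi`: `g, μ, q`.  `C e' * tri A' = cq G' = C u * wsb g μ q (cq G) = C (u * e) * wsb g μ q (tri A)` (`cq_qc`).  Evaluate at `(0, 0, 1)`: `tri A' (0,0,1) = 1`, `wsb g μ q (tri A)` has the value `tri A (0, 0, μ) = μ³` (`q (0,0) = 0`), so `e' = u e μ³`.
So `C (μ ^ 3) * tri A' = wsb g μ q (tri A)`; `G4.wsb_tr`.
`kga`: `ψ := (φ'.map τ) * φ`; `ls ψ qc = ls ψ (ls (φ.map τ) Q) = ls φ Q = qc` (`map_ls`, `map_qc`, the coefficients of `map (algebraMap K C) Q` are fixed by `τ`), and `ls φ F = ls ψ (ls (φ.map τ) F) = ls ψ (map τ (ls φ F))`,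
`cq (map τ (ls φ F)) = C (τ e) * tri (map τ ∘ A)` (`cq_map`, `G4.map_tri`).  `cmp` with `G := map τ (ls φ F)`, `G' := ls φ F`, `u = 1`, `l = 0`.
-/

namespace Pool.Agent.T1

open MvPolynomial Matrix
open Pool.Agent.G4 (P2 tri TH Tr wsb bl)

private theorem CMP_em {k : Type*} [Field k] (f : P2 k) (x : Fin 3 → k) :
    eval x (Pool.Agent.G4.em f) = eval ![x 0, x 1] f := by
  unfold Pool.Agent.G4.em
  rw [eval_rename]
  congr 2
  funext i
  fin_cases i <;> rfl

private theorem CMP_pos {k : Type*} [Field k] {f : P2 k} {n : ℕ} (hf : f.IsHomogeneous n)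
    (hn : n ≠ 0) : eval ![0, 0] f = 0 := by
  have e : (![0, 0] : Fin 2 → k) = 0 := by
    funext i
    fin_cases i <;> rfl
  rw [e, eval_zero, constantCoeff_eq]
  refine hf.coeff_eq_zero ?_
  rw [map_zero]
  exact hn.symm

private theorem CMP_tri {k : Type*} [Field k] {A : Fin 3 → P2 k} (hA : TH A) (z : k) :
    eval ![0, 0, z] (tri A) = z ^ 3 := by
  have h : ∀ i, eval ![0, 0] (A i) = 0 := fun i => CMP_pos (hA i) (by omega)
  simp [tri, CMP_em, h]

private theorem CMP_wsb {k : Type*} [Field k] (g : Matrix (Fin 2) (Fin 2) k) (μ : k) {q : P2 k}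
    (hq : q.IsHomogeneous 2) (F : Pool.Agent.PQ.P3 k) (z : k) :
    eval ![0, 0, z] (wsb g μ q F) = eval ![0, 0, μ * z] F := by
  have h : (eval ![0, 0, z]).comp (wsb g μ q : Pool.Agent.PQ.P3 k →+* Pool.Agent.PQ.P3 k) =
      eval ![0, 0, μ * z] := by
    refine ringHom_ext (fun r => ?_) fun i => ?_
    · simp [wsb]
    · rw [RingHom.comp_apply]
      change eval ![0, 0, z] (wsb g μ q (X i)) = _
      unfold wsb
      rw [aeval_X]
      fin_cases i
      · simp [CMP_em, bl]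
      · simp [CMP_em, bl]
      · simp [CMP_em, CMP_pos hq]
  have h1 := congrArg (fun φ => φ F) h
  simpa using h1

theorem cmp {k : Type*} [Field k] [IsAlgClosed k] (h2 : (2 : k) ≠ 0) (ψ ψ' : Matrix (Fin 4) (Fin 4) k)
    (hψ : ψ * ψ' = 1) (c : k) (hc : c ≠ 0) (h : ls ψ (qc k) = C c * qc k) (G G' l : MvPolynomial (Fin 4) k)
    (u e e' : k) (hu : u ≠ 0) (he : e ≠ 0) (he' : e' ≠ 0) (hGG : G' = C u * ls ψ G + l * qc k)
    (A A' : Fin 3 → P2 k) (hA : TH A) (hA' : TH A') (h1 : cq G = C e * tri A) (h1' : cq G' = C e' * tri A') :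
    ∃ (g : Matrix (Fin 2) (Fin 2) k) (μ : k) (q : P2 k), g.det ≠ 0 ∧ μ ≠ 0 ∧ q.IsHomogeneous 2 ∧
      Tr g μ q A A' := by
  obtain ⟨g, μ, q, hg, hμ, hq, hcs⟩ := csi h2 ψ ψ' hψ c hc h
  refine ⟨g, μ, q, hg, hμ, hq, ?_⟩
  have e1 : C e' * tri A' = C (u * e) * wsb g μ q (tri A) := by
    rw [← h1', hGG, map_add, map_mul, map_mul, cq_qc, mul_zero, add_zero, hcs, h1, map_mul, C_mul]
    have e2 : ∀ x : k, cq (C x : MvPolynomial (Fin 4) k) = C x := fun x => by simp [cq]
    have e3 : ∀ x : k, wsb g μ q (C x) = C x := fun x => by simp [wsb]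
    rw [e2, e3]
    ring
  have e2 : e' = u * e * μ ^ 3 := by
    have := congrArg (eval ![0, 0, 1]) e1
    rw [map_mul, map_mul, eval_C, eval_C, CMP_tri hA', CMP_wsb g μ hq, CMP_tri hA] at this
    simpa using this
  refine Pool.Agent.G4.wsb_tr g μ q A A' ?_ hμ
  have hue : (C (u * e) : Pool.Agent.PQ.P3 k) ≠ 0 := by
    rw [Ne, C_eq_zero]
    exact mul_ne_zero hu he
  apply mul_left_cancel₀ hue
  rw [← e1, e2, C_mul (a := u * e)]
  ring

theorem kga {K C : Type*} [Field K] [Field C] [Algebra K C] [IsAlgClosed C] (h2 : (2 : C) ≠ 0)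
    (Q F : MvPolynomial (Fin 4) K) (φ φ' : Matrix (Fin 4) (Fin 4) C) (hφ : φ * φ' = 1) (hφ' : φ' * φ = 1)
    (hQ : ls φ (map (algebraMap K C) Q) = qc C) (e : C) (he : e ≠ 0) (A : Fin 3 → P2 C) (hA : TH A)
    (h : cq (ls φ (map (algebraMap K C) F)) = MvPolynomial.C e * tri A) : GalC K A := by
  intro τ
  set t : C →+* C := (τ : C →+* C) with ht
  have hfix : ∀ P : MvPolynomial (Fin 4) K, map t (map (algebraMap K C) P) = map (algebraMap K C) P := by
    intro P
    rw [MvPolynomial.map_map]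
    have ec : t.comp (algebraMap K C) = algebraMap K C := by
      refine RingHom.ext fun x => ?_
      exact τ.commutes x
    rw [ec]
  have m1 : φ.map t * φ'.map t = 1 := by
    rw [← Matrix.map_mul, hφ, Matrix.map_one _ (map_zero t) (map_one t)]
  have m2 : φ'.map t * φ.map t = 1 := by
    rw [← Matrix.map_mul, hφ', Matrix.map_one _ (map_zero t) (map_one t)]
  have hback : ∀ P : MvPolynomial (Fin 4) C, ls (φ'.map t * φ) (ls (φ.map t) P) = ls φ P := by
    intro P
    rw [ls_ls, ← mul_assoc, m1, one_mul]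
  have hψ : (φ'.map t * φ) * (φ' * φ.map t) = 1 := by
    rw [mul_assoc, ← mul_assoc φ, hφ, one_mul, m2]
  have hQ1 : ls (φ.map t) (map (algebraMap K C) Q) = qc C := by
    have := congrArg (map t) hQ
    rw [map_ls, hfix, map_qc] at this
    exact this
  have hQ2 : ls (φ'.map t * φ) (qc C) = MvPolynomial.C 1 * qc C := by
    rw [C_1, one_mul]
    nth_rw 1 [← hQ1]
    rw [hback, hQ]
  have hF1 : ls (φ.map t) (map (algebraMap K C) F) = map t (ls φ (map (algebraMap K C) F)) := by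
    rw [map_ls, hfix]
  have h1 : cq (map t (ls φ (map (algebraMap K C) F))) =
      MvPolynomial.C (t e) * tri fun i => map t (A i) := by
    rw [← cq_map, h, map_mul, map_C, Pool.Agent.G4.map_tri]
  have hA' : TH fun i => map t (A i) := Pool.Agent.G4.TH.map t hA
  have hte : t e ≠ 0 := by
    rw [Ne, map_eq_zero]
    exact he
  exact cmp h2 _ _ hψ 1 one_ne_zero hQ2 _ (ls φ (map (algebraMap K C) F)) 0 1 (t e) e one_ne_zero
    hte he (by rw [C_1, one_mul, zero_mul, add_zero, ← hF1, hback]) _ A hA' hA h1 h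

end Pool.Agent.T1
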