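import Pool.Agent.T1.PRD
import Pool.Agent.T1.Defs2

/-!
# T1 / DSX: good coordinates

Over an algebraically closed field of characteristic not 3 a smooth form `D` of bidegree `(3, 3)` has, after invertible substitutions of `s` and of `t`, a restriction to `s = (1, 0)` of the form `c ∏ (t₁ - a i t₀)`, `c ≠ 0`, with distinct `a i`.
Proof.  `P = dh D`, as a polynomial in `X 1` over `k[X 0]`: `f ∈ k[x][y]`.  `D` is not a product of two forms of smaller bidegrees (`hred`), so `dh D` is irreducible, of degree exactly 3 in both variables (as in PRD).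
By Gauss' lemma `f` is irreducible of degree 3 in `k(x)[y]` (a primitive irreducible polynomial).  `f' ≠ 0` as the characteristic is not `3` (leading coefficient `3 *` that of `f`), so `f` is separable: `IsCoprime f f'` in
`k(x)[y]`; clearing denominators: `A f + B f' = r(x) ≠ 0`, `A, B ∈ k[x][y]`.  Choose `x₀ ∈ k` with `r(x₀) ≠ 0` and `lc(f)(x₀) ≠ 0` (`k` infinite).  Then `f(x₀, y)` has degree 3 and no double root: `= c ∏ (y - a i)`.
`p` := a matrix with first column `(1, x₀)`, e.g. `!![1, 0; x₀, 1]`, `q := 1`.  The restriction of `sD p 1 D` to `s = (1, 0)` is `D(1, x₀; t₀, t₁) = c ∏ (t₁ - a i t₀)` (homogeneous of degree 3 in `t`, and equal at `t₀ = 1`).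
-/

namespace Pool.Agent.T1

open MvPolynomial Matrix

private lemma DSX_const {k : Type*} [Field k] (f : MvPolynomial (Fin 2) k) (h0 : degreeOf 0 f = 0)
    (h1 : degreeOf 1 f = 0) : f = C (coeff 0 f) := by
  ext d
  rw [coeff_C]
  split_ifs with h
  · rw [← h]
  · by_contra hd
    have hs : d ∈ f.support := by rwa [mem_support_iff]
    apply h
    have a0 := monomial_le_degreeOf 0 hs
    have a1 := monomial_le_degreeOf 1 hs
    rw [h0] at a0
    rw [h1] at a1
    ext i
    fin_cases i
    · simpa using a0.antisymm (Nat.zero_le _) |>.symm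
    · simpa using a1.antisymm (Nat.zero_le _) |>.symm

private lemma DSX_unit {k : Type*} [Field k] (f : MvPolynomial (Fin 2) k) (hf : f ≠ 0)
    (h0 : degreeOf 0 f = 0) (h1 : degreeOf 1 f = 0) : IsUnit f := by
  rw [DSX_const f h0 h1]
  apply IsUnit.map
  rw [isUnit_iff_ne_zero]
  intro h
  apply hf
  rw [DSX_const f h0 h1, h, C_0]

private lemma DSX_low0 {k : Type*} [Field k] [IsAlgClosed k] (D : P4 k) (hD : BH D 3 3) (hS : Smo D)
    (h : degreeOf 0 (dh D) ≤ 2) : False := by
  obtain ⟨D', hD', e⟩ := dh_surj (dh D) 2 3 h (dh_deg hD).2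
  have hX : BH (X (Sum.inl 0) : P4 k) 1 0 := by
    have := isWeightedHomogeneous_X k bw (Sum.inl 0)
    exact this
  have hXD : BH (X (Sum.inl 0) * D') 3 3 := by
    have := hX.mul hD'
    exact this
  have e1 : dh (X (Sum.inl 0) * D') = dh D := by
    rw [map_mul, e]
    simp [dh]
  have e2 : D - X (Sum.inl 0) * D' = 0 := by
    apply dh_inj (hD.sub hXD)
    rw [map_sub, e1, sub_self]
  exact hred D (X (Sum.inl 0)) D' 1 0 (by norm_num) (by norm_num) (by norm_num) (by norm_num) hX hD'
    (sub_eq_zero.mp e2) hS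

private lemma DSX_low1 {k : Type*} [Field k] [IsAlgClosed k] (D : P4 k) (hD : BH D 3 3) (hS : Smo D)
    (h : degreeOf 1 (dh D) ≤ 2) : False := by
  obtain ⟨D', hD', e⟩ := dh_surj (dh D) 3 2 (dh_deg hD).1 h
  have hX : BH (X (Sum.inr 0) : P4 k) 0 1 := by
    have := isWeightedHomogeneous_X k bw (Sum.inr 0)
    exact this
  have hXD : BH (X (Sum.inr 0) * D') 3 3 := by
    have := hX.mul hD'
    exact this
  have e1 : dh (X (Sum.inr 0) * D') = dh D := by
    rw [map_mul, e]
    simp [dh]
  have e2 : D - X (Sum.inr 0) * D' = 0 := by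
    apply dh_inj (hD.sub hXD)
    rw [map_sub, e1, sub_self]
  exact hred D (X (Sum.inr 0)) D' 0 1 (by norm_num) (by norm_num) (by norm_num) (by norm_num) hX hD'
    (sub_eq_zero.mp e2) hS

private lemma DSX_irr {k : Type*} [Field k] [IsAlgClosed k] (D : P4 k) (hD : BH D 3 3) (hS : Smo D) :
    Irreducible (dh D) := by
  have hP0 : dh D ≠ 0 := fun e => hS.ne_zero (dh_inj hD e)
  rw [irreducible_iff]
  constructor
  · intro hU
    apply DSX_low0 D hD hS
    obtain ⟨g, hg⟩ := hU.exists_right_inv
    have hg0 : g ≠ 0 := by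
      rintro rfl
      rw [mul_zero] at hg
      exact zero_ne_one hg
    have h1 := degreeOf_mul_eq (n := 0) hP0 hg0
    rw [hg, degreeOf_one] at h1
    omega
  · intro f g hfg
    by_contra hcon
    rw [not_or] at hcon
    obtain ⟨hf, hg⟩ := hcon
    have hf0 : f ≠ 0 := by rintro rfl; rw [zero_mul] at hfg; exact hP0 hfg
    have hg0 : g ≠ 0 := by rintro rfl; rw [mul_zero] at hfg; exact hP0 hfg
    obtain ⟨d0, d1⟩ := dh_deg hD
    rw [hfg, degreeOf_mul_eq hf0 hg0] at d0
    rw [hfg, degreeOf_mul_eq hf0 hg0] at d1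
    obtain ⟨F, hF, eF⟩ := dh_surj f (degreeOf 0 f) (degreeOf 1 f) le_rfl le_rfl
    obtain ⟨G, hG, eG⟩ := dh_surj g (3 - degreeOf 0 f) (3 - degreeOf 1 f) (by omega) (by omega)
    have hFG : BH (F * G) 3 3 := by
      have := hF.mul hG
      rwa [Nat.add_sub_cancel' (by omega), Nat.add_sub_cancel' (by omega)] at this
    have e2 : D - F * G = 0 := by
      apply dh_inj (hD.sub hFG)
      rw [map_sub, map_mul, eF, eG, hfg, sub_self]
    refine hred D F G (degreeOf 0 f) (degreeOf 1 f) (by omega) (by omega) ?_ ?_ hF hG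
      (sub_eq_zero.mp e2) hS
    · rintro ⟨z0, z1⟩
      exact hf (DSX_unit f hf0 z0 z1)
    · rintro ⟨z0, z1⟩
      exact hg (DSX_unit g hg0 (by omega) (by omega))

/-- an irreducible cubic over a factorial ring has a non-zero discriminant -/
private lemma DSX_discr {A : Type*} [CommRing A] [IsDomain A] [UniqueFactorizationMonoid A]
    (h3 : (3 : A) ≠ 0) (P : Cubic A) (ha : P.a ≠ 0) (hP : Irreducible P.toPoly) : P.discr ≠ 0 := by
  classical
  let := UniqueFactorizationMonoid.toGCDMonoid A
  have hprim : P.toPoly.IsPrimitive := hP.isPrimitive (by rw [Cubic.natDegree_of_a_ne_zero ha]; norm_num)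
  have hK : Irreducible (P.toPoly.map (algebraMap A (FractionRing A))) :=
    (hprim.irreducible_iff_irreducible_map_fraction_map (K := FractionRing A)).mp hP
  have hinj := IsFractionRing.injective A (FractionRing A)
  rw [← Cubic.map_toPoly] at hK
  set Q := Cubic.map (algebraMap A (FractionRing A)) P with hQ
  have hQa : Q.a ≠ 0 := by
    intro h
    exact ha ((map_eq_zero_iff _ hinj).mp h)
  have h3K : (3 : FractionRing A) ≠ 0 := by
    intro h
    apply h3
    apply hinj
    rw [map_ofNat, map_zero]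
    exact h
  have hsep : Q.toPoly.Separable := by
    rw [Polynomial.separable_iff_derivative_ne_zero hK]
    intro h
    have h1 := congrArg (fun p => p.coeff 2) h
    simp only [Polynomial.coeff_derivative, Polynomial.coeff_zero] at h1
    norm_num at h1
    rcases h1 with h1 | h1
    · exact hQa h1
    · exact h3K h1
  have hdQ : Q.discr ≠ 0 := by
    have hs : (Q.toPoly.map (algebraMap (FractionRing A) (AlgebraicClosure (FractionRing A)))).Splits :=
      IsAlgClosed.splits _
    rw [Cubic.discr_ne_zero_iff_roots_nodup hQa hs, Cubic.map_roots]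
    exact Polynomial.nodup_roots (Polynomial.Separable.map hsep)
  have hmap : Q.discr = algebraMap A (FractionRing A) P.discr := by
    simp only [Cubic.discr, hQ, Cubic.map, map_add, map_sub, map_mul, map_pow, map_ofNat]
  intro h
  rw [hmap, h, map_zero] at hdQ
  exact hdQ rfl

/-- polynomials in the second variable -/
private noncomputable def DSX_e (k : Type*) [Field k] :
    MvPolynomial (Fin 2) k ≃ₐ[k] Polynomial (MvPolynomial (Fin 1) k) :=
  (renameEquiv k (Equiv.swap (0 : Fin 2) 1)).trans (finSuccEquiv k 1)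

private lemma DSX_eval {k : Type*} [Field k] (x : Fin 1 → k) (y : k) (p : MvPolynomial (Fin 2) k) :
    Polynomial.eval y (Polynomial.map (eval x) (DSX_e k p)) = eval ![x 0, y] p := by
  have h1 : DSX_e k p = finSuccEquiv k 1 (rename (Equiv.swap (0 : Fin 2) 1) p) := rfl
  rw [h1, ← eval_eq_eval_mv_eval', eval_rename]
  congr 1
  congr 1
  funext i
  fin_cases i <;> simp

private lemma DSX_deg {k : Type*} [Field k] (p : MvPolynomial (Fin 2) k) :
    (DSX_e k p).natDegree = degreeOf 1 p := by
  have h1 : DSX_e k p = finSuccEquiv k 1 (rename (Equiv.swap (0 : Fin 2) 1) p) := rfl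
  rw [h1, natDegree_finSuccEquiv]
  have h2 := degreeOf_rename_of_injective (p := p) (Equiv.swap (0 : Fin 2) 1).injective 1
  rw [Equiv.swap_apply_right] at h2
  exact h2

private lemma DSX_dh {k : Type*} [Field k] (D : P4 k) (x y : k) :
    eval ![x, y] (dh D) = eval (pt ![1, x] ![1, y]) D := by
  have h : (eval ![x, y]).comp (dh (R := k)).toRingHom = eval (pt ![1, x] ![1, y]) := by
    apply MvPolynomial.ringHom_ext
    · intro r
      simp [dh]
    · intro i
      rcases i with i | i <;> fin_cases i <;> simp [dh, pt]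
  exact congrArg (fun f => f D) h

private lemma DSX_main {k : Type*} [Field k] [IsAlgClosed k] (h3 : (3 : k) ≠ 0) (D : P4 k)
    (hD : BH D 3 3) (hS : Smo D) : ∃ (x c : k) (a : Fin 3 → k), c ≠ 0 ∧ Function.Injective a ∧
      ∀ y, eval (pt ![1, x] ![1, y]) D = c * ∏ i, (y - a i) := by
  have hI := DSX_irr D hD hS
  set F := DSX_e k (dh D) with hF
  have hFI : Irreducible F := (MulEquiv.irreducible_iff (DSX_e k)).mpr hI
  have hFd : F.natDegree = 3 := by
    rw [hF, DSX_deg]
    have h1 := (dh_deg hD).2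
    have h2 : ¬ degreeOf 1 (dh D) ≤ 2 := fun h => DSX_low1 D hD hS h
    omega
  set P : Cubic (MvPolynomial (Fin 1) k) := ⟨F.coeff 3, F.coeff 2, F.coeff 1, F.coeff 0⟩ with hP
  have hPF : P.toPoly = F := by
    ext1 n
    rcases n with _ | _ | _ | _ | n
    · rw [Cubic.coeff_eq_d]
    · rw [Cubic.coeff_eq_c]
    · rw [Cubic.coeff_eq_b]
    · rw [Cubic.coeff_eq_a]
    · rw [Cubic.coeff_eq_zero (by omega), Polynomial.coeff_eq_zero_of_natDegree_lt (by omega)]
  have hPa : P.a ≠ 0 := by
    have h1 : F.leadingCoeff ≠ 0 := Polynomial.leadingCoeff_ne_zero.mpr hFI.ne_zero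
    rw [Polynomial.leadingCoeff, hFd] at h1
    exact h1
  have h3A : (3 : MvPolynomial (Fin 1) k) ≠ 0 := by
    intro h
    apply h3
    have h1 := congrArg (eval (fun _ => (0 : k))) h
    rw [map_ofNat, map_zero] at h1
    exact h1
  have hPd : P.discr ≠ 0 := DSX_discr h3A P hPa (by rw [hPF]; exact hFI)
  obtain ⟨x, hx⟩ : ∃ x : Fin 1 → k, eval x (P.discr * P.a) ≠ 0 := by
    by_contra hcon
    push Not at hcon
    apply mul_ne_zero hPd hPa
    apply MvPolynomial.funext
    intro x
    rw [hcon x, map_zero]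
  rw [map_mul] at hx
  have hx1 := left_ne_zero_of_mul hx
  have hx2 := right_ne_zero_of_mul hx
  set Q : Cubic k := Cubic.map (eval x) P with hQ
  have hQa : Q.a ≠ 0 := hx2
  have hQd : Q.discr ≠ 0 := by
    have hmap : Q.discr = eval x P.discr := by
      simp only [Cubic.discr, hQ, Cubic.map, map_add, map_sub, map_mul, map_pow, map_ofNat]
    rw [hmap]
    exact hx1
  obtain ⟨r1, r2, r3, hr⟩ := (Cubic.splits_iff_roots_eq_three (φ := RingHom.id k) hQa).mp
    (IsAlgClosed.splits _)
  obtain ⟨n1, n2, n3⟩ := (Cubic.discr_ne_zero_iff_roots_ne hQa hr).mp hQd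
  have hprod := Cubic.eq_prod_three_roots hQa hr
  rw [Cubic.map_toPoly, Polynomial.map_id, RingHom.id_apply, hQ, Cubic.map_toPoly, hPF] at hprod
  refine ⟨x 0, Q.a, ![r1, r2, r3], hQa, ?_, ?_⟩
  · intro i j hij
    fin_cases i <;> fin_cases j <;> simp_all
  · intro y
    rw [← DSX_dh, ← DSX_eval x y, ← hF, hprod]
    simp [Fin.prod_univ_three]
    ring

theorem dsx {k : Type*} [Field k] [IsAlgClosed k] (h3 : (3 : k) ≠ 0) (D : P4 k) (hD : BH D 3 3)
    (hS : Smo D) : ∃ (x c : k) (a : Fin 3 → k) (D' : P4 k), c ≠ 0 ∧ Function.Injective a ∧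
      sD !![1, 0; x, 1] 1 D = C c * D' ∧ At D' a := by
  obtain ⟨x, c, a, hc, hinj, hy⟩ := DSX_main h3 D hD hS
  refine ⟨x, c, a, C c⁻¹ * sD !![1, 0; x, 1] 1 D, hc, hinj, ?_, ?_⟩
  · rw [← mul_assoc, ← C_mul, mul_inv_cancel₀ hc, C_1, one_mul]
  · unfold At
    apply mul_left_cancel₀ (X_ne_zero (R := k) (0 : Fin 2))
    apply MvPolynomial.funext
    intro t
    rw [map_mul, map_mul, eval_X]
    by_cases h0 : t 0 = 0
    · rw [h0, zero_mul, zero_mul]
    · congr 1
      have hev : ∀ p : P4 k, eval t (eval₂ C (Sum.elim ![1, 0] X) p) = eval (pt ![1, 0] t) p := by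
        intro p
        have h : (eval t).comp (eval₂Hom C (Sum.elim ![1, 0] X)) = eval (pt ![1, 0] t) := by
          apply MvPolynomial.ringHom_ext
          · intro r
            simp
          · intro i
            rcases i with i | i
            · fin_cases i <;> simp [pt]
            · simp [pt]
        exact congrArg (fun f => f p) h
      rw [hev, map_mul, eval_C, eval_sD, map_prod]
      have e1 : !![1, 0; x, 1] *ᵥ ![1, 0] = (1 : k) • ![1, x] := by
        ext i
        fin_cases i <;> simp [Matrix.mulVec, dotProduct, Fin.sum_univ_two]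
      have e2 : (1 : Matrix (Fin 2) (Fin 2) k) *ᵥ t = t 0 • ![1, t 1 / t 0] := by
        rw [Matrix.one_mulVec]
        ext i
        fin_cases i
        · simp
        · simp
          field_simp
      rw [e1, e2, hD.eval_smul, hy]
      simp only [map_sub, map_mul, eval_X, eval_C, Fin.prod_univ_three]
      field_simp

end Pool.Agent.T1
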