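import Pool.Agent.T1.AWB
import Pool.Agent.T1.AWD
import Pool.Agent.T1.Defs2

/-!
# T1 / RGE: every web is equivalent to a rigid web

`R` is a local domain in which every element has a square root (a field which is algebraically closed, or a valuation ring of such a field), `2` and the `a i - a j` are units.
Put `P = M 0 1`, `Q = M 0 0`.  `dW M = C u * D` and `At D a`: `det (t₀ Q + t₁ P) = u ∏ (t₁ - a i t₀)` (as polynomials in `t`: substitute `s = (1, 0)`).  So `det P = u` is a unit.  `N := - P⁻¹ Q`; `P N = - Q` is symmetric;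
`det (X - N) = ∏ (X - a i)`, so `∏ (N - a i) = 0` (Cayley-Hamilton).  For each `i` let `e i = ∏_{j ≠ i} (a i - a j)⁻¹ (N - a j)`; `(N - a i) e i = 0`, `∑ e i = 1` (Lagrange interpolation: an identity
of polynomials of degree `≤ 2` in `N`).  `e i` modulo the maximal ideal is not `0`: otherwise `∏_{j ≠ i} (N̄ - ā j) = 0`, but then the characteristic polynomial of `N̄` (all its irreducible factors divide the minimal polynomial) would
not have the root `ā i`; so some column `v i` of `e i` has an entry which is a unit.  `N v i = a i v i`.  `v i ⬝ᵥ P v j = 0` for `i ≠ j` (`a i (v i ⬝ᵥ P v j) = v i ⬝ᵥ P N v j = a j (..)`, `a i - a j` unit).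
`h₀` = matrix with columns `v i`: its reduction has linearly independent columns (non-zero eigenvectors for different eigenvalues), so `det h₀` is a unit.  `h₀ᵀ P h₀ = diag (d i)`, `d i` units, `d i = δ i ^ 2`.
`h = h₀ diag (δ i)⁻¹`: `hᵀ P h = 1`, `hᵀ Q h = - hᵀ P N h = - hᵀ P h diag a = - diag a`.  So `gw h M` is rigid and `dW (gw h M) = C (det h ^ 2 * u) * D = D` because `det h ^ 2 * u = det (hᵀ P h) = 1`.
-/

namespace Pool.Agent.T1

open MvPolynomial Matrix

private theorem RGE_der {R : Type*} [CommRing R] (Q P : Matrix (Fin 3) (Fin 3) R) (x : R) :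
    Polynomial.eval x (Polynomial.derivative (Matrix.det (Matrix.of fun a b =>
      Polynomial.C (Q a b) + Polynomial.X * Polynomial.C (P a b)))) =
      ((Q + x • P).adjugate * P).trace := by
  rw [Matrix.det_fin_three, Matrix.adjugate_fin_three]
  simp only [Matrix.trace_fin_three, Matrix.mul_apply, Fin.sum_univ_three, Matrix.of_apply,
    Polynomial.derivative_add, Polynomial.derivative_sub, Polynomial.derivative_mul,
    Polynomial.derivative_C, Polynomial.derivative_X, Polynomial.eval_add, Polynomial.eval_sub,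
    Polynomial.eval_mul, Polynomial.eval_C, Polynomial.eval_X, Polynomial.eval_zero,
    Polynomial.eval_one, Matrix.add_apply, Matrix.smul_apply, smul_eq_mul, Matrix.cons_val',
    Matrix.cons_val_zero, Matrix.cons_val_one, Matrix.cons_val]
  ring

private theorem RGE_minor {R : Type*} [CommRing R] (A : Matrix (Fin 3) (Fin 3) R) (hA : A.det = 0)
    (x y b : Fin 3) : A.adjugate x b * A.adjugate b y = A.adjugate x y * A.adjugate b b := by
  have h : A.adjugate.adjugate = 0 := by
    rw [Matrix.adjugate_adjugate A (by simp), hA]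
    simp
  generalize A.adjugate = B at h
  rw [Matrix.adjugate_fin_three] at h
  have h00 := congr_fun (congr_fun h 0) 0
  have h01 := congr_fun (congr_fun h 0) 1
  have h02 := congr_fun (congr_fun h 0) 2
  have h10 := congr_fun (congr_fun h 1) 0
  have h11 := congr_fun (congr_fun h 1) 1
  have h12 := congr_fun (congr_fun h 1) 2
  have h20 := congr_fun (congr_fun h 2) 0
  have h21 := congr_fun (congr_fun h 2) 1
  have h22 := congr_fun (congr_fun h 2) 2
  simp only [Matrix.of_apply, Matrix.cons_val', Matrix.cons_val_zero, Matrix.cons_val_one,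
    Matrix.cons_val, Matrix.zero_apply] at h00 h01 h02 h10 h11 h12 h20 h21 h22
  fin_cases b <;> fin_cases x <;> fin_cases y <;>
    simp only [Fin.zero_eta, Fin.mk_one, Fin.reduceFinMk, Fin.isValue] <;>
    first
    | ring
    | linear_combination h00
    | linear_combination h01
    | linear_combination h02
    | linear_combination h10
    | linear_combination h11
    | linear_combination h12
    | linear_combination h20
    | linear_combination h21
    | linear_combination h22
    | linear_combination -h00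
    | linear_combination -h01
    | linear_combination -h02
    | linear_combination -h10
    | linear_combination -h11
    | linear_combination -h12
    | linear_combination -h20
    | linear_combination -h21
    | linear_combination -h22

private theorem RGE_vec {R : Type*} [CommRing R] [IsLocalRing R] (A P : Matrix (Fin 3) (Fin 3) R)
    (hA : A.det = 0) (hs : Aᵀ = A) (hu : IsUnit (A.adjugate * P).trace) :
    ∃ v : Fin 3 → R, A *ᵥ v = 0 ∧ IsUnit (v ⬝ᵥ (P *ᵥ v)) := by
  have hB : ∀ x y, A.adjugate x y = A.adjugate y x := by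
    intro x y
    have h1 : A.adjugateᵀ = A.adjugate := by rw [Matrix.adjugate_transpose, hs]
    exact congr_fun (congr_fun h1 y) x
  have h1 : ∃ b, IsUnit (A.adjugate b b) := by
    by_contra hcon
    push Not at hcon
    have h2 : ∀ x y, A.adjugate x y ∈ IsLocalRing.maximalIdeal R := by
      intro x y
      rw [IsLocalRing.mem_maximalIdeal, mem_nonunits_iff]
      intro h3
      have h4 : IsUnit (A.adjugate x y * A.adjugate y x) := h3.mul (by rw [hB y x]; exact h3)
      rw [RGE_minor A hA x x y] at h4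
      exact hcon y (isUnit_of_mul_isUnit_right h4)
    have h5 : (A.adjugate * P).trace ∈ IsLocalRing.maximalIdeal R := by
      unfold Matrix.trace
      refine Ideal.sum_mem _ fun i _ => ?_
      rw [Matrix.diag_apply, Matrix.mul_apply]
      exact Ideal.sum_mem _ fun j _ => Ideal.mul_mem_right _ _ (h2 i j)
    rw [IsLocalRing.mem_maximalIdeal, mem_nonunits_iff] at h5
    exact h5 hu
  obtain ⟨b, hb⟩ := h1
  refine ⟨fun x => A.adjugate x b, ?_, ?_⟩
  · have h2 : A * A.adjugate = 0 := by rw [Matrix.mul_adjugate, hA, zero_smul]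
    funext x
    have h3 := congr_fun (congr_fun h2 x) b
    rw [Matrix.mul_apply] at h3
    exact h3
  · have h3 : (fun x => A.adjugate x b) ⬝ᵥ (P *ᵥ fun x => A.adjugate x b) =
        A.adjugate b b * (A.adjugate * P).trace := by
      have e : ∀ x y, A.adjugate x b * A.adjugate y b = A.adjugate y x * A.adjugate b b := by
        intro x y
        rw [hB y x, ← RGE_minor A hA x y b, hB y b]
      simp only [Matrix.trace_fin_three, Matrix.mul_apply, dotProduct, Matrix.mulVec,
        Fin.sum_univ_three]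
      linear_combination P 0 0 * e 0 0 + P 0 1 * e 0 1 + P 0 2 * e 0 2 + P 1 0 * e 1 0 +
        P 1 1 * e 1 1 + P 1 2 * e 1 2 + P 2 0 * e 2 0 + P 2 1 * e 2 1 + P 2 2 * e 2 2
    rw [h3]
    exact hb.mul hu

private theorem RGE_id {R : Type*} [CommRing R] (M : Web R) (u : R) (D : P4 R)
    (hM : dW M = C u * D) (a : Fin 3 → R) (hD : At D a) :
    Matrix.det (Matrix.of fun x y => (C (M 0 0 x y) * X 0 + C (M 0 1 x y) * X 1 :
      MvPolynomial (Fin 2) R)) = C u * ∏ i, (X 1 - C (a i) * X 0 : MvPolynomial (Fin 2) R) := by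
  unfold At at hD
  rw [← hD]
  have h := congrArg (eval₂Hom (C : R →+* MvPolynomial (Fin 2) R) (Sum.elim ![1, 0] X)) hM
  unfold dW at h
  rw [RingHom.map_det, map_mul, coe_eval₂Hom, eval₂_C] at h
  rw [← h]
  congr 1
  ext1 x y
  simp [pm, pb, Fin.sum_univ_two]

private theorem RGE_pol {R : Type*} [CommRing R] (M : Web R) (u : R) (D : P4 R)
    (hM : dW M = C u * D) (a : Fin 3 → R) (hD : At D a) :
    Matrix.det (Matrix.of fun x y => Polynomial.C (M 0 0 x y) + Polynomial.X *
      Polynomial.C (M 0 1 x y)) =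
      Polynomial.C u * ∏ i, (Polynomial.X - Polynomial.C (a i)) := by
  have h := congrArg (eval₂Hom (Polynomial.C : R →+* Polynomial R) ![1, Polynomial.X])
    (RGE_id M u D hM a hD)
  rw [RingHom.map_det, map_mul, map_prod] at h
  have e1 : ∀ i, (eval₂Hom (Polynomial.C : R →+* Polynomial R) ![1, Polynomial.X])
      (X 1 - C (a i) * X 0 : MvPolynomial (Fin 2) R) = Polynomial.X - Polynomial.C (a i) := by
    intro i
    simp
  simp only [e1] at h
  rw [coe_eval₂Hom, eval₂_C] at h
  rw [← h]
  congr 1
  ext1 x y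
  simp

private theorem RGE_P {R : Type*} [CommRing R] (M : Web R) (u : R) (D : P4 R)
    (hM : dW M = C u * D) (a : Fin 3 → R) (hD : At D a) : (M 0 1).det = u := by
  have h := congrArg (eval ![0, 1]) (RGE_id M u D hM a hD)
  rw [RingHom.map_det, map_mul, map_prod] at h
  simp only [eval_C, map_sub, map_mul, eval_X, Matrix.cons_val_zero, Matrix.cons_val_one,
    mul_zero, sub_zero, Finset.prod_const_one, mul_one] at h
  rw [← h]
  congr 1
  ext1 x y
  simp

theorem rge {R : Type*} [CommRing R] [IsDomain R] [IsLocalRing R] (hsq : ∀ x : R, ∃ y, y ^ 2 = x)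
    (M : Web R) (hs : Sy M) (u : R) (hu : IsUnit u) (D : P4 R) (hM : dW M = C u * D) (a : Fin 3 → R)
    (ha : ∀ i j, i ≠ j → IsUnit (a i - a j)) (hD : At D a) :
    ∃ h : Matrix (Fin 3) (Fin 3) R, IsUnit h.det ∧ Rig a (gw h M) ∧ dW (gw h M) = D := by
  have hQ : (M 0 0)ᵀ = M 0 0 := hs 0 0
  have hP : (M 0 1)ᵀ = M 0 1 := hs 0 1
  have hpol := RGE_pol M u D hM a hD
  have hdP := RGE_P M u D hM a hD
  have hv : ∀ i, ∃ v : Fin 3 → R, (M 0 0 + a i • M 0 1) *ᵥ v = 0 ∧ IsUnit (v ⬝ᵥ (M 0 1 *ᵥ v)) := by
    intro i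
    apply RGE_vec
    · have h := congrArg (Polynomial.eval (a i)) hpol
      rw [← Polynomial.coe_evalRingHom, RingHom.map_det, map_mul, map_prod,
        Finset.prod_eq_zero (Finset.mem_univ i) (by simp), mul_zero] at h
      rw [← h]
      congr 1
      ext1 x y
      simp
      ring
    · rw [Matrix.transpose_add, Matrix.transpose_smul, hQ, hP]
    · rw [← RGE_der (M 0 0) (M 0 1) (a i), hpol]
      fin_cases i
      · have e : Polynomial.eval (a 0) (Polynomial.derivative (Polynomial.C u *
            ∏ i, (Polynomial.X - Polynomial.C (a i)))) = u * ((a 0 - a 1) * (a 0 - a 2)) := by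
          simp [Fin.prod_univ_three, Polynomial.derivative_mul]
        exact e ▸ hu.mul ((ha 0 1 (by decide)).mul (ha 0 2 (by decide)))
      · have e : Polynomial.eval (a 1) (Polynomial.derivative (Polynomial.C u *
            ∏ i, (Polynomial.X - Polynomial.C (a i)))) = u * ((a 1 - a 0) * (a 1 - a 2)) := by
          simp [Fin.prod_univ_three, Polynomial.derivative_mul]
        exact e ▸ hu.mul ((ha 1 0 (by decide)).mul (ha 1 2 (by decide)))
      · have e : Polynomial.eval (a 2) (Polynomial.derivative (Polynomial.C u *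
            ∏ i, (Polynomial.X - Polynomial.C (a i)))) = u * ((a 2 - a 0) * (a 2 - a 1)) := by
          simp [Fin.prod_univ_three, Polynomial.derivative_mul]
        exact e ▸ hu.mul ((ha 2 0 (by decide)).mul (ha 2 1 (by decide)))
  choose v hv1 hv2 using hv
  have hQv : ∀ i, M 0 0 *ᵥ v i = -(a i • (M 0 1 *ᵥ v i)) := by
    intro i
    have h := hv1 i
    rw [Matrix.add_mulVec, Matrix.smul_mulVec] at h
    exact eq_neg_of_add_eq_zero_left h
  have hsym : ∀ (S : Matrix (Fin 3) (Fin 3) R), Sᵀ = S → ∀ w z : Fin 3 → R,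
      w ⬝ᵥ (S *ᵥ z) = z ⬝ᵥ (S *ᵥ w) := by
    intro S hS w z
    rw [Matrix.dotProduct_mulVec, ← Matrix.mulVec_transpose, hS, dotProduct_comm]
  have horth : ∀ i j, i ≠ j → v i ⬝ᵥ (M 0 1 *ᵥ v j) = 0 := by
    intro i j hij
    have h1 : v i ⬝ᵥ (M 0 0 *ᵥ v j) = -(a j * (v i ⬝ᵥ (M 0 1 *ᵥ v j))) := by
      rw [hQv, dotProduct_neg, dotProduct_smul, smul_eq_mul]
    have h2 : v i ⬝ᵥ (M 0 0 *ᵥ v j) = -(a i * (v i ⬝ᵥ (M 0 1 *ᵥ v j))) := by
      rw [hsym _ hQ, hQv, dotProduct_neg, dotProduct_smul, smul_eq_mul, hsym _ hP]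
    have h3 : (a i - a j) * (v i ⬝ᵥ (M 0 1 *ᵥ v j)) = 0 := by
      linear_combination h2 - h1
    exact (ha i j hij).mul_right_eq_zero.mp h3
  have hδ : ∀ i, ∃ e : R, e * e * (v i ⬝ᵥ (M 0 1 *ᵥ v i)) = 1 := by
    intro i
    obtain ⟨y, hy⟩ := hsq (v i ⬝ᵥ (M 0 1 *ᵥ v i))
    have h1 : IsUnit y := by
      have := hv2 i
      rw [← hy] at this
      exact (isUnit_pow_iff two_ne_zero).mp this
    obtain ⟨e, he⟩ := h1.exists_right_inv
    refine ⟨e, ?_⟩
    rw [← hy]
    linear_combination (y * e + 1) * he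
  choose ε hε using hδ
  set h : Matrix (Fin 3) (Fin 3) R := Matrix.of fun x i => ε i * v i x with hh
  have hcol : ∀ (S : Matrix (Fin 3) (Fin 3) R) (i j : Fin 3),
      (hᵀ * S * h) i j = ε i * ε j * (v i ⬝ᵥ (S *ᵥ v j)) := by
    intro S i j
    simp only [hh, Matrix.mul_apply, Matrix.transpose_apply, Matrix.of_apply, dotProduct,
      Matrix.mulVec, Fin.sum_univ_three]
    ring
  have h1 : hᵀ * M 0 1 * h = 1 := by
    ext i j
    rw [hcol]
    rcases eq_or_ne i j with rfl | hij
    · rw [hε i, Matrix.one_apply_eq]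
    · rw [horth i j hij, mul_zero, Matrix.one_apply_ne hij]
  have h2 : hᵀ * M 0 0 * h = -diagonal a := by
    ext i j
    rw [hcol, hQv, dotProduct_neg, dotProduct_smul, smul_eq_mul, Matrix.neg_apply]
    rcases eq_or_ne i j with rfl | hij
    · rw [Matrix.diagonal_apply_eq]
      linear_combination -a i * hε i
    · rw [horth i j hij, Matrix.diagonal_apply_ne _ hij]
      ring
  have h3 : h.det * h.det * u = 1 := by
    have h4 := congrArg Matrix.det h1
    rw [Matrix.det_mul, Matrix.det_mul, Matrix.det_transpose, Matrix.det_one, hdP] at h4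
    linear_combination h4
  refine ⟨h, ?_, ⟨Sy.gw hs h, h1, h2⟩, ?_⟩
  · have h5 : h.det * (h.det * u) = 1 := by linear_combination h3
    exact IsUnit.of_mul_eq_one _ h5
  · rw [dW_gw, hM, ← mul_assoc, ← C_mul]
    have h6 : h.det ^ 2 * u = 1 := by linear_combination h3
    rw [h6, C_1, one_mul]

end Pool.Agent.T1
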