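import Pool.Agent.T1.RGN
import Pool.Agent.T1.RGE
import Pool.Agent.T1.DSX

/-!
# T1 / CNW: the number of classes of webs of a smooth form

`dsx`: `x, c₁, a, D'` with `sD p 1 D = C c₁ * D'`, `p = !![1, 0; x, 1]`, `At D' a`.  `D'` is smooth (`smo_sD`, `smo_C`).  Let `M` be a web with `dW M = C c * D`: `dW (sw p 1 M) = C (c c₁) * D'`; `rge` over `C` (square roots exist; `IsLocalRing`, differences of the `a i`
are non-zero): `gw h (sw p 1 M)` is rigid with determinant `D'`.  `rgn`: the set `Z` of rigid webs `N` with `dW N = D'` has at most `37^12` elements.  `W := ` image of `Z` under `sw p⁻¹ 1` (`p⁻¹ = !![1, 0; -x, 1]`): `M = gw h⁻¹ (sw p⁻¹ 1 N)`.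
-/

namespace Pool.Agent.T1

open MvPolynomial Matrix

private theorem CNW_sw_sw {R : Type*} [CommRing R] (p q p' q' : Matrix (Fin 2) (Fin 2) R) (M : Web R) :
    sw p' q' (sw p q M) = sw (p * p') (q * q') M := by
  apply pm_inj
  rw [pm_sw, pm_sw, pm_sw]
  ext1 a b
  simp only [Matrix.map_apply, sD_sD]

private theorem CNW_sw_one {R : Type*} [CommRing R] (M : Web R) : sw 1 1 M = M := by
  apply pm_inj
  rw [pm_sw]
  ext1 a b
  simp only [Matrix.map_apply, sD_one]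

private theorem CNW_gw_one {R : Type*} [CommRing R] (M : Web R) : gw 1 M = M := by
  funext i j
  simp [gw]

theorem cnw {k : Type*} [Field k] [IsAlgClosed k] [CharZero k] (D : P4 k) (hD : BH D 3 3) (hS : Smo D) :
    ∃ W : Finset (Web k), W.card ≤ 37 ^ 12 ∧ ∀ (M : Web k) (c : k), Sy M → c ≠ 0 → dW M = C c * D →
      ∃ M' ∈ W, ∃ (h : Matrix (Fin 3) (Fin 3) k) (c' : k), h.det ≠ 0 ∧ c' ≠ 0 ∧ M = c' • gw h M' := by
  classical
  obtain ⟨x, c₁, a, D', hc₁, ha, hD', hAt⟩ := dsx (by norm_num) D hD hS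
  have hpdet : (!![1, 0; x, 1] : Matrix (Fin 2) (Fin 2) k).det ≠ 0 := by
    simp [Matrix.det_fin_two]
  have hpinv : (!![1, 0; x, 1] : Matrix (Fin 2) (Fin 2) k) * !![1, 0; -x, 1] = 1 := by
    ext i j
    fin_cases i <;> fin_cases j <;> simp [Matrix.mul_apply, Fin.sum_univ_two]
  have hS' : Smo D' := by
    have h1 : Smo (C c₁ * D') := by
      rw [← hD']
      exact smo_sD hpdet (by simp) hS
    have h2 := smo_C (inv_ne_zero hc₁) h1
    have h3 : C c₁⁻¹ * (C c₁ * D') = D' := by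
      rw [← mul_assoc, ← C_mul, inv_mul_cancel₀ hc₁, C_1, one_mul]
    rwa [h3] at h2
  obtain ⟨hfin, hcard⟩ := rgn (k := k) (by norm_num) a D' hS'
  refine ⟨hfin.toFinset.image (sw !![1, 0; -x, 1] 1), ?_, ?_⟩
  · refine Finset.card_image_le.trans ?_
    rwa [← Set.ncard_eq_toFinset_card _ hfin]
  · intro M c hM hc hdet
    have hdet' : dW (sw !![1, 0; x, 1] 1 M) = C (c * c₁) * D' := by
      rw [dW_sw, hdet, map_mul, sD_C, hD', C_mul, mul_assoc]
    obtain ⟨h, hu, hrig, hdW⟩ := rge (fun y => by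
        obtain ⟨z, hz⟩ := IsAlgClosed.exists_pow_nat_eq y (n := 2) (by norm_num)
        exact ⟨z, hz⟩) (sw !![1, 0; x, 1] 1 M) (hM.sw _ _) (c * c₁)
      (mul_ne_zero hc hc₁).isUnit D' hdet' a
      (fun i j hij => (sub_ne_zero.2 (ha.ne hij)).isUnit) hAt
    refine ⟨sw !![1, 0; -x, 1] 1 (gw h (sw !![1, 0; x, 1] 1 M)), ?_, h⁻¹, 1, ?_, one_ne_zero, ?_⟩
    · rw [Finset.mem_image]
      exact ⟨_, by rw [Set.Finite.mem_toFinset]; exact ⟨hrig, hdW⟩, rfl⟩
    · have := hu.ne_zero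
      rw [Matrix.det_nonsing_inv, Ring.inverse_eq_inv']
      exact inv_ne_zero this
    · rw [sw_gw, gw_gw, CNW_sw_sw, hpinv, mul_one, CNW_sw_one, Matrix.mul_nonsing_inv _ hu,
        CNW_gw_one, one_smul]

end Pool.Agent.T1
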