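import Pool.Agent.T1.DefsB
import Pool.Agent.PQ.DVL
import Pool.Agent.PQ.BTX

/-!
# T1 / CPE: quartics with two bitangents in normal position

`cpe`: `F = Q0 ^ 2 + X 0 * S0` on the line `X₀ = 0` (`PQ.lin_single`).  Restrict to `X₀ = 0`: `F(0, y, z) = (a z² + b y z + c y²)²`; `a² = F(0,0,1) = 1`, `2 a b` = coefficient of `z³ y`, the value of `pderiv 1 F` at `(0,0,1)`,
so `b = 0`; `F(0, y, z) = (z² + (c/a) y²)²` (`a² = 1`), `f := -c/a`.  Similarly `F(x, 0, z) = (z² - f' x²)²`.  So `F - V²` (`V` as in `CP`) vanishes on both lines: `F - V² = X 0 * T` (`PQ.dvl_line`, `PQ.dvl_hom`),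
`T` vanishes on `X₁ = 0` outside the point `(0,0,1)`, so everywhere on it (a polynomial in one variable; or: `X 1 ∣ X 0 * T`, `X 1` prime, `X 1 ∤ X 0`).  `F - V² = - X 0 * X 1 * G`, `G` homogeneous of degree 2, so `G = qf A`,
`A i i` = coefficient of `X i ^ 2`, `A i j` = half of the coefficient of `X i X j`.
`cp_val`: values of `F` at integral points determine everything (char 0): direct computation with `V(x) = x₂² - f x₁² - f' x₀²`, `G(x) = ∑ A i j x i x j`,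
`F(x) = V(x)² - x₀ x₁ G(x)`: `ring` / `linear_combination` after `simp`.
-/

namespace Pool.Agent.T1

open MvPolynomial Matrix
open Pool.Agent.PQ (P3 NS SF sb RB ND l1 lin Bit)

section

variable {k : Type*} [Field k]

/-- value of a quadratic form -/
theorem eval_qf {R : Type*} [CommRing R] (A : Matrix (Fin 3) (Fin 3) R) (x : Fin 3 → R) :
    eval x (qf A) = x ⬝ᵥ (A *ᵥ x) := by
  simp only [qf, map_sum, map_mul, eval_C, eval_X, dotProduct, Matrix.mulVec, Finset.mul_sum]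
  refine Finset.sum_congr rfl fun a _ => Finset.sum_congr rfl fun b _ => ?_
  ring

theorem qf_hom {R : Type*} [CommRing R] (A : Matrix (Fin 3) (Fin 3) R) : (qf A).IsHomogeneous 2 := by
  refine IsHomogeneous.sum _ _ _ fun a _ => IsHomogeneous.sum _ _ _ fun b _ => ?_
  exact ((isHomogeneous_C (Fin 3) (A a b)).mul (isHomogeneous_X R a)).mul (isHomogeneous_X R b)

/-- values of a quartic in normal position -/
theorem CP.eval {F : P3 k} {f f' : k} {A : Matrix (Fin 3) (Fin 3) k} (h : CP F f f' A) (x : Fin 3 → k) :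
    MvPolynomial.eval x F = (x 2 ^ 2 - f * x 1 ^ 2 - f' * x 0 ^ 2) ^ 2 - x 0 * x 1 * (x ⬝ᵥ (A *ᵥ x)) := by
  rw [h.eq]
  simp only [map_sub, map_mul, map_pow, eval_C, eval_X, eval_qf]

private theorem CPE_V (f f' : k) :
    (X 2 ^ 2 - C f * X 1 ^ 2 - C f' * X 0 ^ 2 : P3 k).IsHomogeneous 2 := by
  have h1 : ∀ (i : Fin 3), (X i ^ 2 : P3 k).IsHomogeneous 2 := fun i => by
    have := (isHomogeneous_X k i).pow 2
    exact this
  have h2 : ∀ (c : k) (i : Fin 3), (C c * X i ^ 2 : P3 k).IsHomogeneous 2 := fun c i => by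
    have := (isHomogeneous_C (Fin 3) c).mul (h1 i)
    rwa [zero_add] at this
  exact ((h1 2).sub (h2 f 1)).sub (h2 f' 0)

theorem CP.hom {F : P3 k} {f f' : k} {A : Matrix (Fin 3) (Fin 3) k} (h : CP F f f' A) :
    F.IsHomogeneous 4 := by
  rw [h.eq]
  have h1 := (CPE_V f f').pow 2
  have h2 := ((isHomogeneous_X k (0 : Fin 3)).mul (isHomogeneous_X k (1 : Fin 3))).mul (qf_hom A)
  exact h1.sub h2

/-- the two bitangents -/
theorem CP.bit0 {F : P3 k} {f f' : k} {A : Matrix (Fin 3) (Fin 3) k} (h : CP F f f' A) :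
    Bit F (Pi.single 0 1) (X 2 ^ 2 - C f * X 1 ^ 2 - C f' * X 0 ^ 2) := by
  refine ⟨CPE_V f f', -(X 1 * qf A), ?_, ?_⟩
  · exact ((isHomogeneous_X k (1 : Fin 3)).mul (qf_hom A)).neg
  · rw [PQ.lin_single, h.eq]
    ring

theorem CP.bit1 {F : P3 k} {f f' : k} {A : Matrix (Fin 3) (Fin 3) k} (h : CP F f f' A) :
    Bit F (Pi.single 1 1) (X 2 ^ 2 - C f * X 1 ^ 2 - C f' * X 0 ^ 2) := by
  refine ⟨CPE_V f f', -(X 0 * qf A), ?_, ?_⟩
  · exact ((isHomogeneous_X k (0 : Fin 3)).mul (qf_hom A)).neg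
  · rw [PQ.lin_single, h.eq]
    ring

open scoped Pointwise in
private theorem CPE_exp {R : Type*} [CommRing R] (q : P3 R) (hq : q.IsHomogeneous 2) :
    ∃ c : Fin 3 → Fin 3 → R, q = ∑ a, ∑ b, C (c a b) * (X a * X b) := by
  have h1 : q ∈ homogeneousSubmodule (Fin 3) R 2 := hq
  rw [← homogeneousSubmodule_one_pow, pow_two, homogeneousSubmodule_one_eq_span_X, Submodule.span_mul_span] at h1
  have h2 : Set.range (X : Fin 3 → P3 R) * Set.range (X : Fin 3 → P3 R) =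
      Set.range (fun ab : Fin 3 × Fin 3 => (X ab.1 * X ab.2 : P3 R)) := by
    ext p
    rw [Set.mem_mul]
    constructor
    · rintro ⟨_, ⟨a, rfl⟩, _, ⟨b, rfl⟩, rfl⟩
      exact ⟨(a, b), rfl⟩
    · rintro ⟨ab, rfl⟩
      exact ⟨_, ⟨ab.1, rfl⟩, _, ⟨ab.2, rfl⟩, rfl⟩
  rw [h2, Submodule.mem_span_range_iff_exists_fun] at h1
  obtain ⟨c, hc⟩ := h1
  refine ⟨fun a b => c (a, b), ?_⟩
  rw [← hc, Fintype.sum_prod_type]
  refine Finset.sum_congr rfl fun a _ => Finset.sum_congr rfl fun b _ => ?_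
  rw [smul_eq_C_mul]

private theorem CPE_coef (q : P3 k) (hq : q.IsHomogeneous 2) :
    ∃ a b c d e g : k, q = C a * X 0 ^ 2 + C b * X 1 ^ 2 + C c * X 2 ^ 2 + C d * (X 0 * X 1) +
      C e * (X 0 * X 2) + C g * (X 1 * X 2) := by
  obtain ⟨c, rfl⟩ := CPE_exp q hq
  refine ⟨c 0 0, c 1 1, c 2 2, c 0 1 + c 1 0, c 0 2 + c 2 0, c 1 2 + c 2 1, ?_⟩
  simp only [Fin.sum_univ_three, C_add]
  ring

theorem cpe [IsAlgClosed k] [CharZero k] (F : P3 k) (hF : F.IsHomogeneous 4) (Q0 Q1 : P3 k)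
    (h0 : Bit F (Pi.single 0 1) Q0) (h1 : Bit F (Pi.single 1 1) Q1) (he : eval ![0, 0, 1] F = 1)
    (hd0 : eval ![0, 0, 1] (pderiv 0 F) = 0) (hd1 : eval ![0, 0, 1] (pderiv 1 F) = 0) :
    ∃ (f f' : k) (A : Matrix (Fin 3) (Fin 3) k), CP F f f' A := by
  have : Infinite k := Infinite.of_injective (fun n : ℕ => (n : k)) Nat.cast_injective
  have h2k : (2 : k) ≠ 0 := two_ne_zero
  obtain ⟨f, hf⟩ : ∃ f : k, ∀ y z : k, eval ![0, y, z] F = (z ^ 2 - f * y ^ 2) ^ 2 := by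
    obtain ⟨hQ, S, hS, hFS⟩ := h0
    obtain ⟨a, b, c, d, e, g, rfl⟩ := CPE_coef Q0 hQ
    rw [PQ.lin_single] at hFS
    have e1 : c ^ 2 = 1 := by
      rw [hFS] at he
      simpa using he
    have e2 : g = 0 := by
      rw [hFS] at hd1
      simp [pderiv_X, pderiv_C, Derivation.leibniz, Derivation.leibniz_pow, Pi.single_apply] at hd1
      rcases hd1 with hc | hg
      · rw [hc] at e1
        norm_num at e1
      · exact hg
    refine ⟨-(b * c), fun y z => ?_⟩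
    rw [hFS]
    simp [e2]
    linear_combination (z ^ 4 - b ^ 2 * y ^ 4) * e1
  obtain ⟨f', hf'⟩ : ∃ f' : k, ∀ x z : k, eval ![x, 0, z] F = (z ^ 2 - f' * x ^ 2) ^ 2 := by
    obtain ⟨hQ, S, hS, hFS⟩ := h1
    obtain ⟨a, b, c, d, e, g, rfl⟩ := CPE_coef Q1 hQ
    rw [PQ.lin_single] at hFS
    have e1 : c ^ 2 = 1 := by
      rw [hFS] at he
      simpa using he
    have e2 : e = 0 := by
      rw [hFS] at hd0
      simp [pderiv_X, pderiv_C, Derivation.leibniz, Derivation.leibniz_pow, Pi.single_apply] at hd0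
      rcases hd0 with hc | hg
      · rw [hc] at e1
        norm_num at e1
      · exact hg
    refine ⟨-(a * c), fun x z => ?_⟩
    rw [hFS]
    simp [e2]
    linear_combination (z ^ 4 - a ^ 2 * x ^ 4) * e1
  have hcons : ∀ p : Fin 3 → k, p = ![p 0, p 1, p 2] := fun p => by
    ext i
    fin_cases i <;> rfl
  have hhom : (F - (X 2 ^ 2 - C f * X 1 ^ 2 - C f' * X 0 ^ 2) ^ 2 : P3 k).IsHomogeneous (3 + 1) :=
    hF.sub ((CPE_V f f').pow 2)
  have hdv0 : PQ.lin (Pi.single 0 1 : Fin 3 → k) ∣ F - (X 2 ^ 2 - C f * X 1 ^ 2 - C f' * X 0 ^ 2) ^ 2 := by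
    refine PQ.dvl_line _ (fun h => one_ne_zero (α := k) (by simpa using congrFun h 0)) _ fun p hp => ?_
    rw [single_one_dotProduct] at hp
    have e1 := hf (p 1) (p 2)
    rw [← hp, ← hcons p] at e1
    simp only [map_sub, map_pow, map_mul, eval_C, eval_X, e1, hp]
    ring
  obtain ⟨S, hS, hFS⟩ := PQ.dvl_hom _ _ 3 hhom hdv0
  have hdv1 : PQ.lin (Pi.single 1 1 : Fin 3 → k) ∣ F - (X 2 ^ 2 - C f * X 1 ^ 2 - C f' * X 0 ^ 2) ^ 2 := by
    refine PQ.dvl_line _ (fun h => one_ne_zero (α := k) (by simpa using congrFun h 1)) _ fun p hp => ?_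
    rw [single_one_dotProduct] at hp
    have e1 := hf' (p 0) (p 2)
    rw [← hp, ← hcons p] at e1
    simp only [map_sub, map_pow, map_mul, eval_C, eval_X, e1, hp]
    ring
  have hdvS : PQ.lin (Pi.single 1 1 : Fin 3 → k) ∣ S := by
    rw [hFS, PQ.lin_single, PQ.lin_single] at hdv1
    rw [PQ.lin_single]
    rcases (X_prime (R := k) (i := (1 : Fin 3))).dvd_or_dvd hdv1 with h | h
    · rw [X_dvd_X] at h
      exact absurd h (by decide)
    · exact h
  obtain ⟨T, hT, hST⟩ := PQ.dvl_hom _ _ 2 hS hdvS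
  obtain ⟨a, b, c, d, e, g, rfl⟩ := CPE_coef T hT
  refine ⟨f, f', -!![a, d / 2, e / 2; d / 2, b, g / 2; e / 2, g / 2, c], ?_, ?_⟩
  · ext i j
    fin_cases i <;> fin_cases j <;> rfl
  · rw [PQ.lin_single] at hFS hST
    have hq : qf (-!![a, d / 2, e / 2; d / 2, b, g / 2; e / 2, g / 2, c] : Matrix (Fin 3) (Fin 3) k) =
        -(C a * X 0 ^ 2 + C b * X 1 ^ 2 + C c * X 2 ^ 2 + C d * (X 0 * X 1) +
      C e * (X 0 * X 2) + C g * (X 1 * X 2)) := by
      have hd : ∀ u : k, (C (u / 2) + C (u / 2) : P3 k) = C u := fun u => by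
        rw [← C_add]
        congr 1
        ring
      simp only [qf, Fin.sum_univ_three]
      simp only [Matrix.neg_apply, Matrix.of_apply, Matrix.cons_val', Matrix.cons_val_zero,
        Matrix.cons_val_one, Matrix.cons_val_two, Matrix.head_cons, Matrix.tail_cons,
        Matrix.cons_val_fin_one, Matrix.head_fin_const, C_neg, Matrix.cons_val]
      linear_combination (-(X 0 * X 1)) * hd d - (X 0 * X 2) * hd e - (X 1 * X 2) * hd g
    rw [hq]
    rw [hST] at hFS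
    linear_combination hFS

/-- `f`, `f'`, `A` in terms of values of `F` -/
theorem cp_val [CharZero k] {F : P3 k} {f f' : k} {A : Matrix (Fin 3) (Fin 3) k} (h : CP F f f' A) :
    2 * f = 1 + eval ![0, 1, 0] F - eval ![0, 1, 1] F ∧
    2 * f' = 1 + eval ![1, 0, 0] F - eval ![1, 0, 1] F ∧
    (A 0 0 + A 1 1 + 2 * A 0 1 = (f + f') ^ 2 - eval ![1, 1, 0] F) ∧
    (A 0 0 + A 1 1 - 2 * A 0 1 = -((f + f') ^ 2 - eval ![1, -1, 0] F)) ∧
    (2 * (A 0 0 + 4 * A 1 1 + 4 * A 0 1) = (4 * f + f') ^ 2 - eval ![1, 2, 0] F) ∧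
    (A 0 0 + A 1 1 + A 2 2 + 2 * A 0 1 + 2 * A 0 2 + 2 * A 1 2 = (1 - f - f') ^ 2 - eval ![1, 1, 1] F) ∧
    (A 0 0 + A 1 1 + A 2 2 + 2 * A 0 1 - 2 * A 0 2 - 2 * A 1 2 = (1 - f - f') ^ 2 - eval ![1, 1, -1] F) ∧
    (A 0 0 + A 1 1 + A 2 2 - 2 * A 0 1 + 2 * A 0 2 - 2 * A 1 2 =
      -((1 - f - f') ^ 2 - eval ![1, -1, 1] F)) := by
  have s10 : A 1 0 = A 0 1 := congrFun (congrFun h.symm 0) 1
  have s20 : A 2 0 = A 0 2 := congrFun (congrFun h.symm 0) 2
  have s21 : A 2 1 = A 1 2 := congrFun (congrFun h.symm 1) 2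
  simp only [h.eval, dotProduct, Matrix.mulVec, Fin.sum_univ_three, Matrix.cons_val_zero,
    Matrix.cons_val_one, Matrix.cons_val_two, Matrix.head_cons, Matrix.tail_cons, Matrix.cons_val,
    s10, s20, s21]
  refine ⟨?_, ?_, ?_, ?_, ?_, ?_, ?_, ?_⟩ <;> ring

end

end Pool.Agent.T1
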