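import Pool.Agent.T1.ENA
import Pool.Agent.T1.CPE

/-!
# T1 / CPW: the quartic of a web in normal position

`N(x) = ∑ a b, x a * x b • en M a b`, `eval x (qt M) = det N(x) = bf N(x) N(x) / 2` (`eval_qt`, `mv_sum`, `bf_self`).  With `E a b = en M a b` (symmetric) the coefficients of `qt M` are (`2 qt M = bf N N`):
`x₂⁴: bf E₂₂E₂₂ / 2`; `x₂³x₀: 2 bf E₂₂E₀₂`; `x₂³x₁: 2 bf E₂₂E₁₂`; `x₂²x₁²: bf E₂₂E₁₁ + 2 bf E₁₂E₁₂`; `x₂²x₀²: bf E₂₂E₀₀ + 2 bf E₀₂E₀₂`; `x₂²x₀x₁: 2 bf E₂₂E₀₁ + 4 bf E₀₂E₁₂`;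
`x₂x₁³: 2 bf E₁₂E₁₁`; `x₂x₀³: 2 bf E₀₂E₀₀`; `x₂x₀x₁²: 2 bf E₀₂E₁₁ + 4 bf E₁₂E₀₁`; `x₂x₀²x₁: 2 bf E₁₂E₀₀ + 4 bf E₀₂E₀₁`; `x₁⁴: bf E₁₁E₁₁ / 2`; `x₀⁴: bf E₀₀E₀₀/2`;
`x₀x₁³: 2 bf E₀₁E₁₁`; `x₀³x₁: 2 bf E₀₁E₀₀`; `x₀²x₁²: bf E₀₀E₁₁ + 2 bf E₀₁E₀₁`.  `cpw`: compare with `(x₂² - f x₁² - f' x₀²)² - x₀x₁ (x ⬝ᵥ gA x)`: `MvPolynomial.funext`, values, `linear_combination` of the hypotheses.
`cpw'`: conversely, comparing the coefficients (e.g. from the equality of the values at all `x`: both sides are polynomials; take the coefficients by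
`MvPolynomial.coeff`, or use suitable integral points).  Also `A = gA M f f'` (comparing the coefficients divisible by `x₀ x₁`; `A` symmetric).
-/

namespace Pool.Agent.T1

open MvPolynomial Matrix
open Pool.Agent.PQ (P3 NS SF sb RB ND l1 lin Bit)

section

variable {k : Type*} [Field k] [CharZero k]

/-- the conditions on the entries of a web -/
structure CW (M : Web k) (f f' : k) : Prop where
  c22 : bf (en M 2 2) (en M 2 2) = 2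
  c02 : bf (en M 2 2) (en M 0 2) = 0
  c12 : bf (en M 2 2) (en M 1 2) = 0
  a1 : bf (en M 1 2) (en M 1 1) = 0
  a0 : bf (en M 0 2) (en M 0 0) = 0
  b1 : bf (en M 1 1) (en M 1 1) = 2 * f ^ 2
  b0 : bf (en M 0 0) (en M 0 0) = 2 * f' ^ 2
  d1 : bf (en M 2 2) (en M 1 1) + 2 * bf (en M 1 2) (en M 1 2) = -(2 * f)
  d0 : bf (en M 2 2) (en M 0 0) + 2 * bf (en M 0 2) (en M 0 2) = -(2 * f')

private theorem CPW_uni (a b c d e : k) (h : ∀ t : k, a + b * t + c * t ^ 2 + d * t ^ 3 + e * t ^ 4 = 0) :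
    a = 0 ∧ b = 0 ∧ c = 0 ∧ d = 0 ∧ e = 0 := by
  have h0 := h 0
  have h1 := h 1
  have h2 := h (-1)
  have h3 := h 2
  have h4 := h (-2)
  have ha : a = 0 := by linear_combination h0
  have he : (24 : k) * e = 0 := by linear_combination (h3 + h4) - 4 * (h1 + h2) + 6 * ha
  have hd : (12 : k) * d = 0 := by linear_combination (h3 - h4) - 2 * (h1 - h2)
  have he' : e = 0 := by
    rcases mul_eq_zero.1 he with h5 | h5
    · exact absurd h5 (by norm_num)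
    · exact h5
  have hd' : d = 0 := by
    rcases mul_eq_zero.1 hd with h5 | h5
    · exact absurd h5 (by norm_num)
    · exact h5
  have hc : (2 : k) * c = 0 := by linear_combination (h1 + h2) - 2 * ha - 2 * he'
  have hb : (2 : k) * b = 0 := by linear_combination (h1 - h2) - 2 * hd'
  refine ⟨ha, ?_, ?_, hd', he'⟩
  · rcases mul_eq_zero.1 hb with h5 | h5
    · exact absurd h5 (by norm_num)
    · exact h5
  · rcases mul_eq_zero.1 hc with h5 | h5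
    · exact absurd h5 (by norm_num)
    · exact h5

private theorem CPW_quart (c40 c31 c22 c13 c04 c30 c21 c12 c03 c20 c11 c02 c10 c01 c00 : k)
    (h : ∀ x y z : k, (c40 * x ^ 4 + c31 * (x ^ 3 * y) + c22 * (x ^ 2 * y ^ 2) + c13 * (x * y ^ 3) + c04 * y ^ 4) +
      (c30 * x ^ 3 + c21 * (x ^ 2 * y) + c12 * (x * y ^ 2) + c03 * y ^ 3) * z +
      (c20 * x ^ 2 + c11 * (x * y) + c02 * y ^ 2) * z ^ 2 + (c10 * x + c01 * y) * z ^ 3 + c00 * z ^ 4 = 0) :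
    (c40 = 0 ∧ c31 = 0 ∧ c22 = 0 ∧ c13 = 0 ∧ c04 = 0) ∧ (c30 = 0 ∧ c21 = 0 ∧ c12 = 0 ∧ c03 = 0) ∧
      (c20 = 0 ∧ c11 = 0 ∧ c02 = 0) ∧ (c10 = 0 ∧ c01 = 0) ∧ c00 = 0 := by
  have h1 : ∀ x y : k, _ := fun x y => CPW_uni _ _ _ _ _ (fun z => h x y z)
  have h4 := CPW_uni c40 c31 c22 c13 c04 (fun y => by linear_combination (h1 1 y).1)
  have h3 := CPW_uni c30 c21 c12 c03 0 (fun y => by linear_combination (h1 1 y).2.1)
  have h2 := CPW_uni c20 c11 c02 0 0 (fun y => by linear_combination (h1 1 y).2.2.1)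
  have h5 := CPW_uni c10 c01 0 0 0 (fun y => by linear_combination (h1 1 y).2.2.2.1)
  exact ⟨h4, ⟨h3.1, h3.2.1, h3.2.2.1, h3.2.2.2.1⟩, ⟨h2.1, h2.2.1, h2.2.2.1⟩, ⟨h5.1, h5.2.1⟩,
    (h1 1 1).2.2.2.2⟩

omit [CharZero k] in
private theorem CPW_expand (E00 E11 E22 E01 E02 E12 : Matrix (Fin 2) (Fin 2) k) (x y z : k) :
    bf ((x ^ 2) • E00 + (y ^ 2) • E11 + (z ^ 2) • E22 + (2 * (x * y)) • E01 + (2 * (x * z)) • E02 +
      (2 * (y * z)) • E12) ((x ^ 2) • E00 + (y ^ 2) • E11 + (z ^ 2) • E22 + (2 * (x * y)) • E01 +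
      (2 * (x * z)) • E02 + (2 * (y * z)) • E12) =
    (bf E00 E00 * x ^ 4 + (4 * bf E00 E01) * (x ^ 3 * y) + (2 * bf E00 E11 + 4 * bf E01 E01) * (x ^ 2 * y ^ 2) +
      (4 * bf E11 E01) * (x * y ^ 3) + bf E11 E11 * y ^ 4) +
    ((4 * bf E02 E00) * x ^ 3 + (4 * bf E00 E12 + 8 * bf E01 E02) * (x ^ 2 * y) +
      (4 * bf E11 E02 + 8 * bf E01 E12) * (x * y ^ 2) + (4 * bf E12 E11) * y ^ 3) * z +
    ((2 * bf E22 E00 + 4 * bf E02 E02) * x ^ 2 + (4 * bf E01 E22 + 8 * bf E02 E12) * (x * y) +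
      (2 * bf E22 E11 + 4 * bf E12 E12) * y ^ 2) * z ^ 2 +
    ((4 * bf E22 E02) * x + (4 * bf E22 E12) * y) * z ^ 3 + bf E22 E22 * z ^ 4 := by
  unfold bf
  simp only [Matrix.add_apply, Matrix.smul_apply, smul_eq_mul]
  ring

omit [CharZero k] in
private theorem CPW_val (M : Web k) (hs : Sy M) (x : Fin 3 → k) :
    2 * eval x (qt M) =
    (bf (en M 0 0) (en M 0 0) * x 0 ^ 4 + (4 * bf (en M 0 0) (en M 0 1)) * (x 0 ^ 3 * x 1) +
      (2 * bf (en M 0 0) (en M 1 1) + 4 * bf (en M 0 1) (en M 0 1)) * (x 0 ^ 2 * x 1 ^ 2) +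
      (4 * bf (en M 1 1) (en M 0 1)) * (x 0 * x 1 ^ 3) + bf (en M 1 1) (en M 1 1) * x 1 ^ 4) +
    ((4 * bf (en M 0 2) (en M 0 0)) * x 0 ^ 3 +
      (4 * bf (en M 0 0) (en M 1 2) + 8 * bf (en M 0 1) (en M 0 2)) * (x 0 ^ 2 * x 1) +
      (4 * bf (en M 1 1) (en M 0 2) + 8 * bf (en M 0 1) (en M 1 2)) * (x 0 * x 1 ^ 2) +
      (4 * bf (en M 1 2) (en M 1 1)) * x 1 ^ 3) * x 2 +
    ((2 * bf (en M 2 2) (en M 0 0) + 4 * bf (en M 0 2) (en M 0 2)) * x 0 ^ 2 +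
      (4 * bf (en M 0 1) (en M 2 2) + 8 * bf (en M 0 2) (en M 1 2)) * (x 0 * x 1) +
      (2 * bf (en M 2 2) (en M 1 1) + 4 * bf (en M 1 2) (en M 1 2)) * x 1 ^ 2) * x 2 ^ 2 +
    ((4 * bf (en M 2 2) (en M 0 2)) * x 0 + (4 * bf (en M 2 2) (en M 1 2)) * x 1) * x 2 ^ 3 +
      bf (en M 2 2) (en M 2 2) * x 2 ^ 4 := by
  have h1 : eval x (qt M) = (mv M x x).det := by
    unfold qt mv
    rw [Matrix.det_fin_two]
    simp only [map_sub, map_mul, eval_qf, Matrix.of_apply]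
  have h2 : mv M x x = (x 0 ^ 2) • en M 0 0 + (x 1 ^ 2) • en M 1 1 + (x 2 ^ 2) • en M 2 2 +
      (2 * (x 0 * x 1)) • en M 0 1 + (2 * (x 0 * x 2)) • en M 0 2 + (2 * (x 1 * x 2)) • en M 1 2 := by
    rw [mv_sum]
    simp only [Fin.sum_univ_three]
    rw [en_symm hs 1 0, en_symm hs 2 0, en_symm hs 2 1]
    module
  rw [h1, ← bf_self, h2, CPW_expand]

omit [CharZero k] in
private theorem CPW_symm (M : Web k) (f f' : k) : (gA M f f')ᵀ = gA M f f' := by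
  unfold gA
  ext i j
  fin_cases i <;> fin_cases j <;> rfl

omit [CharZero k] in
private theorem CPW_rhs (f f' : k) (A : Matrix (Fin 3) (Fin 3) k) (x : Fin 3 → k) :
    2 * eval x ((X 2 ^ 2 - MvPolynomial.C f * X 1 ^ 2 - MvPolynomial.C f' * X 0 ^ 2) ^ 2 - X 0 * X 1 * qf A) =
    2 * (x 2 ^ 2 - f * x 1 ^ 2 - f' * x 0 ^ 2) ^ 2 - 2 * (x 0 * x 1) * (A 0 0 * x 0 ^ 2 + A 1 1 * x 1 ^ 2 +
      A 2 2 * x 2 ^ 2 + (A 0 1 + A 1 0) * (x 0 * x 1) + (A 0 2 + A 2 0) * (x 0 * x 2) +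
      (A 1 2 + A 2 1) * (x 1 * x 2)) := by
  have h1 : x ⬝ᵥ (A *ᵥ x) = A 0 0 * x 0 ^ 2 + A 1 1 * x 1 ^ 2 +
      A 2 2 * x 2 ^ 2 + (A 0 1 + A 1 0) * (x 0 * x 1) + (A 0 2 + A 2 0) * (x 0 * x 2) +
      (A 1 2 + A 2 1) * (x 1 * x 2) := by
    simp only [dotProduct, mulVec, Fin.sum_univ_three]
    ring
  simp only [map_sub, map_mul, map_pow, eval_X, eval_C, eval_qf, h1]
  ring

theorem cpw (M : Web k) (hs : Sy M) (f f' : k) (h : CW M f f') : CP (qt M) f f' (gA M f f') := by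
  refine ⟨CPW_symm M f f', ?_⟩
  refine MvPolynomial.funext fun x => ?_
  have h2 : (2 : k) ≠ 0 := by norm_num
  refine mul_left_cancel₀ h2 ?_
  rw [CPW_val M hs, CPW_rhs]
  have e00 : gA M f f' 0 0 = -(2 * bf (en M 0 0) (en M 0 1)) := rfl
  have e01 : gA M f f' 0 1 = -(bf (en M 0 0) (en M 1 1) / 2 + bf (en M 0 1) (en M 0 1) - f * f') := rfl
  have e02 : gA M f f' 0 2 = -(bf (en M 0 0) (en M 1 2) + 2 * bf (en M 0 1) (en M 0 2)) := rfl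
  have e10 : gA M f f' 1 0 = -(bf (en M 0 0) (en M 1 1) / 2 + bf (en M 0 1) (en M 0 1) - f * f') := rfl
  have e11 : gA M f f' 1 1 = -(2 * bf (en M 1 1) (en M 0 1)) := rfl
  have e12 : gA M f f' 1 2 = -(bf (en M 1 1) (en M 0 2) + 2 * bf (en M 0 1) (en M 1 2)) := rfl
  have e20 : gA M f f' 2 0 = -(bf (en M 0 0) (en M 1 2) + 2 * bf (en M 0 1) (en M 0 2)) := rfl
  have e21 : gA M f f' 2 1 = -(bf (en M 1 1) (en M 0 2) + 2 * bf (en M 0 1) (en M 1 2)) := rfl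
  have e22 : gA M f f' 2 2 = -(2 * bf (en M 0 1) (en M 2 2) + 4 * bf (en M 0 2) (en M 1 2)) := rfl
  rw [e00, e01, e02, e10, e11, e12, e20, e21, e22]
  linear_combination x 2 ^ 4 * h.c22 + 4 * x 2 ^ 3 * x 0 * h.c02 + 4 * x 2 ^ 3 * x 1 * h.c12 +
    2 * x 1 ^ 2 * x 2 ^ 2 * h.d1 + 2 * x 0 ^ 2 * x 2 ^ 2 * h.d0 + 4 * x 2 * x 1 ^ 3 * h.a1 +
    4 * x 2 * x 0 ^ 3 * h.a0 + x 1 ^ 4 * h.b1 + x 0 ^ 4 * h.b0

theorem cpw' (M : Web k) (hs : Sy M) (f f' : k) (A : Matrix (Fin 3) (Fin 3) k) (h : CP (qt M) f f' A) :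
    CW M f f' ∧ A = gA M f f' := by
  have hA : ∀ i j, A i j = A j i := fun i j => by
    conv_lhs => rw [← h.symm]
    rfl
  have h1 : ∀ x : Fin 3 → k, _ := fun x =>
    (CPW_val M hs x).symm.trans ((congrArg (fun F => 2 * eval x F) h.eq).trans (CPW_rhs f f' A x))
  have h2 := CPW_quart (bf (en M 0 0) (en M 0 0) - 2 * f' ^ 2) (4 * bf (en M 0 0) (en M 0 1) + 2 * A 0 0)
    (2 * bf (en M 0 0) (en M 1 1) + 4 * bf (en M 0 1) (en M 0 1) - 4 * (f * f') + 2 * (A 0 1 + A 1 0))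
    (4 * bf (en M 1 1) (en M 0 1) + 2 * A 1 1) (bf (en M 1 1) (en M 1 1) - 2 * f ^ 2)
    (4 * bf (en M 0 2) (en M 0 0))
    (4 * bf (en M 0 0) (en M 1 2) + 8 * bf (en M 0 1) (en M 0 2) + 2 * (A 0 2 + A 2 0))
    (4 * bf (en M 1 1) (en M 0 2) + 8 * bf (en M 0 1) (en M 1 2) + 2 * (A 1 2 + A 2 1))
    (4 * bf (en M 1 2) (en M 1 1))
    (2 * bf (en M 2 2) (en M 0 0) + 4 * bf (en M 0 2) (en M 0 2) + 4 * f')
    (4 * bf (en M 0 1) (en M 2 2) + 8 * bf (en M 0 2) (en M 1 2) + 2 * A 2 2)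
    (2 * bf (en M 2 2) (en M 1 1) + 4 * bf (en M 1 2) (en M 1 2) + 4 * f)
    (4 * bf (en M 2 2) (en M 0 2)) (4 * bf (en M 2 2) (en M 1 2)) (bf (en M 2 2) (en M 2 2) - 2)
    (fun x y z => by
      have h3 := h1 ![x, y, z]
      simp only [Matrix.cons_val] at h3
      linear_combination h3)
  obtain ⟨⟨q1, q2, q3, q4, q5⟩, ⟨q6, q7, q8, q9⟩, ⟨q10, q11, q12⟩, ⟨q13, q14⟩, q15⟩ := h2
  have hq : (4 : k) ≠ 0 := by norm_num
  refine ⟨⟨?_, ?_, ?_, ?_, ?_, ?_, ?_, ?_, ?_⟩, ?_⟩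
  · linear_combination q15
  · exact (mul_eq_zero.1 q13).resolve_left hq
  · exact (mul_eq_zero.1 q14).resolve_left hq
  · exact (mul_eq_zero.1 q9).resolve_left hq
  · exact (mul_eq_zero.1 q6).resolve_left hq
  · linear_combination q5
  · linear_combination q1
  · linear_combination q12 / 2
  · linear_combination q10 / 2
  · have r1 := hA 1 0
    have r2 := hA 2 0
    have r3 := hA 2 1
    have s00 : A 0 0 = -(2 * bf (en M 0 0) (en M 0 1)) := by linear_combination q2 / 2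
    have s01 : A 0 1 = -(bf (en M 0 0) (en M 1 1) / 2 + bf (en M 0 1) (en M 0 1) - f * f') := by
      linear_combination q3 / 4 - r1 / 2
    have s02 : A 0 2 = -(bf (en M 0 0) (en M 1 2) + 2 * bf (en M 0 1) (en M 0 2)) := by
      linear_combination q7 / 4 - r2 / 2
    have s11 : A 1 1 = -(2 * bf (en M 1 1) (en M 0 1)) := by linear_combination q4 / 2
    have s12 : A 1 2 = -(bf (en M 1 1) (en M 0 2) + 2 * bf (en M 0 1) (en M 1 2)) := by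
      linear_combination q8 / 4 - r3 / 2
    have s22 : A 2 2 = -(2 * bf (en M 0 1) (en M 2 2) + 4 * bf (en M 0 2) (en M 1 2)) := by
      linear_combination q11 / 2
    ext i j
    fin_cases i <;> fin_cases j
    · exact s00
    · exact s01
    · exact s02
    · exact r1.trans s01
    · exact s11
    · exact s12
    · exact r2.trans s02
    · exact r3.trans s12
    · exact s22

end

end Pool.Agent.T1
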