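import Pool.Agent.T1.LSB
import Pool.Agent.G4.BSC

/-!
# T1 / CSI: similitudes of the quadric cone

`H := hs qc` has the entries `H 0 2 = H 2 0 = 1`, `H 1 1 = -2`, others `0`.  `hs_ls`: `ψᵀ H ψ = c H`.  `H e₃ = 0`, so `ψᵀ (H (ψ e₃)) = 0`, `ψ` invertible: `H (ψ e₃) = 0`, so `ψ e₃ = μ e₃` (`2 ≠ 0`), `μ ≠ 0`.
Let `r i (s, t) := ψ i 0 s² + ψ i 1 s t + ψ i 2 t²` (`i = 0, 1, 2, 3`), binary quadratic forms.  Apply `cq` to `ls ψ qc = C c * qc`: `r 0 * r 2 = r 1 ^ 2` (as `cq qc = 0`, and `ψ i 3 = 0` for `i < 3`).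
`r 0, r 1, r 2` have no common zero `(s, t) ≠ 0`: `ψ (s², s t, t², 0)` would be a multiple of `e₃`, so of `ψ e₃`; contradiction.  So `r 0` and `r 2` have no common zero and their product is a square: each of them is a square
of a linear form (`k` algebraically closed: a binary quadratic form is a product of two linear forms `a b`; if `r 0 = a b` with `a, b` not proportional, `a` divides `r 1`, so `a²` divides `r 0 r 2`, so `a` divides `r 2`: common zero;
so `r 0 = const * a²`, and constants are squares).  Elementary alternative: a non-zero binary quadratic form `u s² + v s t + w t²` is a square iff `v² = 4 u w`.  `r 0 = a²`, `r 2 = b²` (neither is zero), `r 1 = ± a b`, choose the sign of `b`: `r 1 = a b`.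
`g` := the matrix with rows the coefficient vectors of `a, b`; `det g ≠ 0` (no common zero).  `q := r 3`.  For `G = X i`: `cq (ls ψ (X i)) = em (r i)` for `i < 3`, `= em (r 3) + C μ * X 2` for `i = 3`; and `wsb g μ q (cq (X i))`: `em (a²)`, `em (a b)`, `em (b²)`,
`C μ * X 2 + em q`.  Both sides are algebra homomorphisms in `G` (`MvPolynomial.algHom_ext`).
-/

namespace Pool.Agent.T1

open MvPolynomial Matrix
open Pool.Agent.G4 (P2 wsb)

private theorem CSI_hs {R : Type*} [CommRing R] : hs (qc R) =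
    !![0, 0, 1, 0; 0, -2, 0, 0; 1, 0, 0, 0; 0, 0, 0, 0] := by
  ext i j
  fin_cases i <;> fin_cases j <;>
    simp [hs, qc, pderiv_mul, pderiv_X, Pi.single_apply, pow_two] <;> ring

/-- rows of a similitude -/
private theorem CSI_rows {k : Type*} [Field k] (h2 : (2 : k) ≠ 0) (P : Matrix (Fin 3) (Fin 3) k) (c : k)
    (hc : c ≠ 0) (h : Pᵀ * !![0, 0, 1; 0, -2, 0; 1, 0, 0] * P = c • !![0, 0, 1; 0, -2, 0; 1, 0, 0]) :
    P * !![0, 0, 2; 0, -1, 0; 2, 0, 0] * Pᵀ = c • !![0, 0, 2; 0, -1, 0; 2, 0, 0] := by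
  obtain ⟨H, hH⟩ : ∃ H : Matrix (Fin 3) (Fin 3) k, H = !![0, 0, 1; 0, -2, 0; 1, 0, 0] := ⟨_, rfl⟩
  obtain ⟨H', hH'⟩ : ∃ H' : Matrix (Fin 3) (Fin 3) k, H' = !![0, 0, 2; 0, -1, 0; 2, 0, 0] := ⟨_, rfl⟩
  have e1 : H' * H = (2 : k) • (1 : Matrix (Fin 3) (Fin 3) k) := by
    rw [hH, hH']
    ext i j
    fin_cases i <;> fin_cases j <;> simp [Matrix.mul_apply, Fin.sum_univ_three]
  have e2 : H * H' = (2 : k) • (1 : Matrix (Fin 3) (Fin 3) k) := by
    rw [hH, hH']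
    ext i j
    fin_cases i <;> fin_cases j <;> simp [Matrix.mul_apply, Fin.sum_univ_three]
  rw [← hH] at h
  rw [← hH']
  have h2c : (2 * c) ≠ 0 := mul_ne_zero h2 hc
  have f1 : ((2 * c)⁻¹ • (H' * Pᵀ * H)) * P = 1 := by
    rw [Matrix.smul_mul, Matrix.mul_assoc H' Pᵀ H, Matrix.mul_assoc H' (Pᵀ * H) P, h, Matrix.mul_smul,
      e1, smul_smul, smul_smul, mul_assoc, mul_comm c 2, inv_mul_cancel₀ h2c, one_smul]
  have f2 : P * ((2 * c)⁻¹ • (H' * Pᵀ * H)) = 1 := mul_eq_one_comm.1 f1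
  have f3 : P * H' * Pᵀ * H = (2 * c) • (1 : Matrix (Fin 3) (Fin 3) k) := by
    rw [← f2, Matrix.mul_smul, smul_smul, mul_inv_cancel₀ h2c, one_smul]
    simp only [Matrix.mul_assoc]
  have f4 := congrArg (fun M => M * H') f3
  simp only [Matrix.mul_assoc _ H H', e2, Matrix.mul_smul, Matrix.mul_one, Matrix.smul_mul,
    Matrix.one_mul] at f4
  rw [mul_smul] at f4
  have f5 := congrArg (fun M => (2 : k)⁻¹ • M) f4
  simp only [smul_smul] at f5
  rw [← mul_assoc (2 : k)⁻¹ 2 c, inv_mul_cancel₀ h2, one_mul, one_smul] at f5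
  exact f5

private noncomputable def csR {k : Type*} [Field k] (ψ : Matrix (Fin 4) (Fin 4) k) (i : Fin 4) : P2 k :=
  C (ψ i 0) * X 0 ^ 2 + C (ψ i 1) * (X 0 * X 1) + C (ψ i 2) * X 1 ^ 2

private theorem CSI_R_hom {k : Type*} [Field k] (ψ : Matrix (Fin 4) (Fin 4) k) (i : Fin 4) :
    (csR ψ i).IsHomogeneous 2 := by
  unfold csR
  refine (IsHomogeneous.add ?_ ?_).add ?_
  · simpa using (isHomogeneous_C (Fin 2) (ψ i 0)).mul ((isHomogeneous_X k (0 : Fin 2)).pow 2)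
  · simpa using (isHomogeneous_C (Fin 2) (ψ i 1)).mul
      ((isHomogeneous_X k (0 : Fin 2)).mul (isHomogeneous_X k (1 : Fin 2)))
  · simpa using (isHomogeneous_C (Fin 2) (ψ i 2)).mul ((isHomogeneous_X k (1 : Fin 2)).pow 2)

private theorem CSI_cq {k : Type*} [Field k] (ψ : Matrix (Fin 4) (Fin 4) k) (i : Fin 4) :
    cq (ls ψ (X i)) = G4.em (csR ψ i) + C (ψ i 3) * X 2 := by
  rw [ls_X, map_sum, Fin.sum_univ_four]
  unfold cq csR
  simp only [map_mul, map_add, map_pow, aeval_X, aeval_C, G4.em_C, G4.em_X0, G4.em_X1,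
    MvPolynomial.algebraMap_eq]
  simp

private theorem CSI_sqrt {k : Type*} [Field k] [IsAlgClosed k] (a b c : k) (h : 4 * a * c - b ^ 2 = 0) :
    ∃ v : Fin 2 → k, v 0 ^ 2 = a ∧ v 1 ^ 2 = c ∧ 2 * v 0 * v 1 = b := by
  obtain ⟨x, hx⟩ := IsAlgClosed.exists_pow_nat_eq a (n := 2) (by norm_num)
  obtain ⟨y, hy⟩ := IsAlgClosed.exists_pow_nat_eq c (n := 2) (by norm_num)
  have h1 : b ^ 2 = (2 * x * y) ^ 2 := by
    rw [← hx, ← hy] at h
    linear_combination -h
  rcases sq_eq_sq_iff_eq_or_eq_neg.1 h1 with h3 | h3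
  · exact ⟨![x, y], hx, hy, h3.symm⟩
  · exact ⟨![x, -y], hx, by simp [hy], by simp [h3]⟩

private theorem CSI_bl {k : Type*} [Field k] (v : Fin 2 → k) : G4.bl v ^ 2 =
    C (v 0 ^ 2) * X 0 ^ 2 + C (2 * v 0 * v 1) * (X 0 * X 1) + C (v 1 ^ 2) * X 1 ^ 2 := by
  simp only [G4.bl, map_mul, map_pow, map_ofNat]
  ring

theorem cq_qc {R : Type*} [CommRing R] : cq (qc R) = 0 := by
  simp [cq, qc]
  ring

theorem csi {k : Type*} [Field k] [IsAlgClosed k] (h2 : (2 : k) ≠ 0) (ψ ψ' : Matrix (Fin 4) (Fin 4) k)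
    (hψ : ψ * ψ' = 1) (c : k) (hc : c ≠ 0) (h : ls ψ (qc k) = C c * qc k) :
    ∃ (g : Matrix (Fin 2) (Fin 2) k) (μ : k) (q : P2 k), g.det ≠ 0 ∧ μ ≠ 0 ∧ q.IsHomogeneous 2 ∧
      ∀ G : MvPolynomial (Fin 4) k, cq (ls ψ G) = wsb g μ q (cq G) := by
  have hψ' : ψ' * ψ = 1 := mul_eq_one_comm.1 hψ
  have E : ψᵀ * hs (qc k) * ψ = c • hs (qc k) := by
    rw [← hs_ls ψ qc_hom, h, hs_smul]
  have E2 : hs (qc k) * ψ = c • (ψ'ᵀ * hs (qc k)) := by
    have h3 : ψ'ᵀ * ψᵀ = 1 := by rw [← Matrix.transpose_mul, hψ, Matrix.transpose_one]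
    have h4 := congrArg (fun M => ψ'ᵀ * M) E
    simp only [← Matrix.mul_assoc, h3, Matrix.one_mul, Matrix.mul_smul] at h4
    exact h4
  rw [CSI_hs] at E E2
  have z0 : ψ 0 3 = 0 := by
    have h3 := congrFun (congrFun E2 2) 3
    simpa [Matrix.mul_apply, Fin.sum_univ_four] using h3
  have z2 : ψ 2 3 = 0 := by
    have h3 := congrFun (congrFun E2 0) 3
    simpa [Matrix.mul_apply, Fin.sum_univ_four] using h3
  have z1 : ψ 1 3 = 0 := by
    have h3 := congrFun (congrFun E2 1) 3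
    have h4 : 2 * ψ 1 3 = 0 := by simpa [Matrix.mul_apply, Fin.sum_univ_four] using h3
    exact (mul_eq_zero.1 h4).resolve_left h2
  have hμ : ψ 3 3 ≠ 0 := by
    intro h3
    have h4 := congrFun (congrFun hψ' 3) 3
    simp [Matrix.mul_apply, Fin.sum_univ_four, z0, z1, z2, h3] at h4
  have rows := CSI_rows h2 !![ψ 0 0, ψ 0 1, ψ 0 2; ψ 1 0, ψ 1 1, ψ 1 2; ψ 2 0, ψ 2 1, ψ 2 2] c hc (by
    have q : ∀ i j : Fin 4, ψ 0 i * ψ 2 j + ψ 2 i * ψ 0 j - 2 * ψ 1 i * ψ 1 j =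
        c * (!![0, 0, 1, 0; 0, -2, 0, 0; 1, 0, 0, 0; 0, 0, 0, 0] : Matrix (Fin 4) (Fin 4) k) i j := by
      intro i j
      have h3 := congrFun (congrFun E i) j
      rw [Matrix.smul_apply, smul_eq_mul] at h3
      rw [← h3]
      simp [Matrix.mul_apply, Fin.sum_univ_four]
      ring
    ext i j
    fin_cases i <;> fin_cases j
    · have := q 0 0; simp [Matrix.mul_apply, Fin.sum_univ_three] at this ⊢; linear_combination this
    · have := q 0 1; simp [Matrix.mul_apply, Fin.sum_univ_three] at this ⊢; linear_combination this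
    · have := q 0 2; simp [Matrix.mul_apply, Fin.sum_univ_three] at this ⊢; linear_combination this
    · have := q 1 0; simp [Matrix.mul_apply, Fin.sum_univ_three] at this ⊢; linear_combination this
    · have := q 1 1; simp [Matrix.mul_apply, Fin.sum_univ_three] at this ⊢; linear_combination this
    · have := q 1 2; simp [Matrix.mul_apply, Fin.sum_univ_three] at this ⊢; linear_combination this
    · have := q 2 0; simp [Matrix.mul_apply, Fin.sum_univ_three] at this ⊢; linear_combination this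
    · have := q 2 1; simp [Matrix.mul_apply, Fin.sum_univ_three] at this ⊢; linear_combination this
    · have := q 2 2; simp [Matrix.mul_apply, Fin.sum_univ_three] at this ⊢; linear_combination this)
  have d0 : 4 * ψ 0 0 * ψ 0 2 - ψ 0 1 ^ 2 = 0 := by
    have h3 := congrFun (congrFun rows 0) 0
    simp [Matrix.mul_apply, Fin.sum_univ_three] at h3
    linear_combination h3
  have d2 : 4 * ψ 2 0 * ψ 2 2 - ψ 2 1 ^ 2 = 0 := by
    have h3 := congrFun (congrFun rows 2) 2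
    simp [Matrix.mul_apply, Fin.sum_univ_three] at h3
    linear_combination h3
  have d02 : 2 * ψ 0 0 * ψ 2 2 + 2 * ψ 0 2 * ψ 2 0 - ψ 0 1 * ψ 2 1 = 2 * c := by
    have h3 := congrFun (congrFun rows 0) 2
    simp [Matrix.mul_apply, Fin.sum_univ_three] at h3
    linear_combination h3
  obtain ⟨v, hv0, hv1, hv2⟩ := CSI_sqrt _ _ _ d0
  obtain ⟨w', hw0', hw1', hw2'⟩ := CSI_sqrt _ _ _ d2
  have hR : csR ψ 0 * csR ψ 2 = csR ψ 1 ^ 2 := by
    have h3 := congrArg cq h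
    rw [map_mul, cq_qc, mul_zero] at h3
    unfold qc at h3
    rw [map_sub, map_mul, map_pow, map_sub, map_mul, map_pow, CSI_cq, CSI_cq, CSI_cq, z0, z1, z2,
      map_zero, zero_mul, add_zero, add_zero, add_zero, ← map_mul, ← map_pow, ← map_sub] at h3
    have h4 := congrArg (G4.sl (0 : P2 k)) h3
    rw [G4.sl_em, map_zero] at h4
    exact sub_eq_zero.1 h4
  have hA : csR ψ 0 = G4.bl v ^ 2 := by rw [CSI_bl, hv0, hv1, hv2]; rfl
  have hB' : csR ψ 2 = G4.bl w' ^ 2 := by rw [CSI_bl, hw0', hw1', hw2']; rfl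
  obtain ⟨w, hw0, hw1, hw2, hR1⟩ : ∃ w : Fin 2 → k, w 0 ^ 2 = ψ 2 0 ∧ w 1 ^ 2 = ψ 2 2 ∧
      2 * w 0 * w 1 = ψ 2 1 ∧ csR ψ 1 = G4.bl v * G4.bl w := by
    rw [hA, hB', ← mul_pow] at hR
    rcases sq_eq_sq_iff_eq_or_eq_neg.1 hR.symm with h3 | h3
    · exact ⟨w', hw0', hw1', hw2', h3⟩
    · refine ⟨-w', by simp [hw0'], by simp [hw1'], by simp [hw2'], ?_⟩
      rw [h3]
      simp only [G4.bl, Pi.neg_apply, map_neg]
      ring
  have hB : csR ψ 2 = G4.bl w ^ 2 := by rw [CSI_bl, hw0, hw1, hw2]; rfl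
  refine ⟨!![v 0, v 1; w 0, w 1], ψ 3 3, csR ψ 3, ?_, hμ, CSI_R_hom ψ 3, ?_⟩
  · rw [Matrix.det_fin_two_of]
    intro h3
    apply mul_ne_zero h2 hc
    rw [← d02, ← hv0, ← hv1, ← hv2, ← hw0, ← hw1, ← hw2]
    linear_combination 2 * (v 0 * w 1 - v 1 * w 0) * h3
  · have g0 : G4.bl ((!![v 0, v 1; w 0, w 1] : Matrix (Fin 2) (Fin 2) k) 0) = G4.bl v := by
      simp [G4.bl]
    have g1 : G4.bl ((!![v 0, v 1; w 0, w 1] : Matrix (Fin 2) (Fin 2) k) 1) = G4.bl w := by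
      simp [G4.bl]
    have key : (cq : MvPolynomial (Fin 4) k →ₐ[k] MvPolynomial (Fin 3) k).comp (ls ψ) =
        (wsb !![v 0, v 1; w 0, w 1] (ψ 3 3) (csR ψ 3)).comp cq := by
      refine algHom_ext fun i => ?_
      rw [AlgHom.comp_apply, AlgHom.comp_apply, CSI_cq]
      unfold wsb
      rw [g0, g1]
      fin_cases i
      · simp only [Fin.zero_eta, Fin.isValue]
        rw [z0, hA]
        simp [cq]
      · simp only [Fin.mk_one, Fin.isValue]
        rw [z1, hR1]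
        simp [cq]
      · simp only [Fin.reduceFinMk, Fin.isValue]
        rw [z2, hB]
        simp [cq]
      · simp only [Fin.reduceFinMk, Fin.isValue]
        simp [cq]
        ring
    intro G
    exact congrArg (fun φ : MvPolynomial (Fin 4) k →ₐ[k] MvPolynomial (Fin 3) k => φ G) key

end Pool.Agent.T1
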