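import Pool.Agent.T1.LSB
import Pool.Agent.T1.QTW

/-!
# T1 / DFB: cubic forms on `V₄` and forms of bidegree `(3, 3)`

See also `eval_dF`, `BH_dF`, `eval_oF`, `p4_ext`, `null_vec` in `QTW`.
`dfb_smo`: at `s, t ≠ 0` put `x (i,j) = s i * t j ≠ 0`; `eval (pt s t) (dF G) = eval x G = 0` and `eval x qd = 0`, so some minor of the Jacobian matrix of `(qd, G)` at `x` is not zero.  Suppose all derivatives of `dF G` at `(s,t)` vanish:
`∂/∂s_i = ∑ j, t j * G_ij`, `∂/∂t_j = ∑ i, s i * G_ij`, `G_ij := eval x (pderiv (i,j) G)` (chain rule, induction on `G`).  So the `2 × 2` matrix `G` satisfies `G t = 0`, `sᵀ G = 0`, so `G_ij = ρ * N_ij` with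
`N = !![s 1 * t 1, -s 1 * t 0; -s 0 * t 1, s 0 * t 0]`, which are the values of the derivatives of `qd` at `x`: all minors vanish.  Contradiction.
`dfb_sim`: evaluate `ls O qd = C c * qd` at `x` (`eval_ls`): `det (ov O x) = c * det x`.
`dfb_ow`: as `dW_ow` in `QTW`: compare the values of both sides at `pt s t` (`p4_ext`): `x = (s i * t j)`, `y = O x`, `det y = c * det x = 0`; if `y = 0` both sides are `0` (`G` homogeneous of degree 3, `aw = 0`), otherwise `null_vec`: `y = (s' i * t' j)`,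
`eval (pt s t) (dW (ow O M)) = det (aw M s' t') = eval (pt s' t') (dW M) = a * eval y G = a * eval x (ls O G)`.
-/

namespace Pool.Agent.T1

open MvPolynomial Matrix

section

variable {R S : Type*} [CommRing R] [CommRing S]

theorem dfb_map (f : R →+* S) (G : MvPolynomial (Fin 2 × Fin 2) R) : map f (dF G) = dF (map f G) := by
  induction G using MvPolynomial.induction_on with
  | C a => simp [dF]
  | add f g hf hg => simp only [map_add, hf, hg]
  | mul_X g i hg =>
    simp only [map_mul, hg, map_X]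
    simp [dF]

theorem dfb_eval₂ (f : R →+* S) (s t : Fin 2 → S) (G : MvPolynomial (Fin 2 × Fin 2) R) :
    eval₂ f (pt s t) (dF G) = eval₂ f (fun ij => s ij.1 * t ij.2) G := by
  induction G using MvPolynomial.induction_on with
  | C a => simp [dF]
  | add g h hg hh => rw [map_add, eval₂_add, eval₂_add, hg, hh]
  | mul_X g i hg =>
    rw [map_mul, eval₂_mul, eval₂_mul, hg]
    simp [dF, pt]

theorem dfb_qd : dF (qd R) = 0 := by
  simp only [qd, dF, map_sub, map_mul, aeval_X]
  ring

theorem dfb_C (c : R) : dF (C c) = C c := by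
  unfold dF
  rw [aeval_C]
  rfl

theorem dfb_sim {O : Matrix (Fin 2 × Fin 2) (Fin 2 × Fin 2) R} {c : R} (h : ls O (qd R) = C c * qd R) :
    Sim O c := by
  intro x
  have h1 := congrArg (eval fun ij : Fin 2 × Fin 2 => x ij.1 ij.2) h
  rw [eval_ls] at h1
  simp only [qd, map_sub, map_mul, eval_X, eval_C] at h1
  rw [det_fin_two, det_fin_two]
  exact h1

end

private theorem DFB_chain {k : Type*} [CommRing k] (G : MvPolynomial (Fin 2 × Fin 2) k) (v : Fin 2 ⊕ Fin 2) :
    pderiv v (dF G) = ∑ ij, dF (pderiv ij G) * pderiv v (dF (X ij)) := by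
  induction G using MvPolynomial.induction_on with
  | C a => simp
  | add f g hf hg =>
    simp only [map_add, hf, hg, add_mul, Finset.sum_add_distrib]
  | mul_X f j hf =>
    rw [map_mul, pderiv_mul, hf]
    have h1 : ∀ ij, dF (pderiv ij (f * X j)) * pderiv v (dF (X ij)) =
        dF (pderiv ij f) * pderiv v (dF (X ij)) * dF (X j) +
          (if ij = j then dF f * pderiv v (dF (X ij)) else 0) := by
      intro ij
      rw [pderiv_mul, pderiv_X, map_add, map_mul]
      by_cases hk : ij = j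
      · subst hk
        simp
        ring
      · rw [Pi.single_eq_of_ne (Ne.symm hk), if_neg hk]
        simp
        ring
    rw [Finset.sum_congr rfl fun ij _ => h1 ij, Finset.sum_add_distrib, ← Finset.sum_mul,
      Finset.sum_ite_eq' Finset.univ j]
    simp

private theorem DFB_l {k : Type*} [CommRing k] (G : MvPolynomial (Fin 2 × Fin 2) k) (s t : Fin 2 → k)
    (i : Fin 2) : eval (pt s t) (pderiv (Sum.inl i) (dF G)) =
      t 0 * eval (fun ij => s ij.1 * t ij.2) (pderiv (i, 0) G) +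
        t 1 * eval (fun ij => s ij.1 * t ij.2) (pderiv (i, 1) G) := by
  rw [DFB_chain, map_sum, Fintype.sum_prod_type]
  have hX : ∀ ij : Fin 2 × Fin 2, dF (X ij : MvPolynomial (Fin 2 × Fin 2) k) =
      X (Sum.inl ij.1) * X (Sum.inr ij.2) := by
    intro ij
    simp [dF]
  simp only [map_mul, eval_dF, hX, pderiv_mul, pderiv_X]
  fin_cases i <;> simp [Fin.sum_univ_two, Pi.single_apply, pt] <;> ring

private theorem DFB_r {k : Type*} [CommRing k] (G : MvPolynomial (Fin 2 × Fin 2) k) (s t : Fin 2 → k)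
    (j : Fin 2) : eval (pt s t) (pderiv (Sum.inr j) (dF G)) =
      s 0 * eval (fun ij => s ij.1 * t ij.2) (pderiv (0, j) G) +
        s 1 * eval (fun ij => s ij.1 * t ij.2) (pderiv (1, j) G) := by
  rw [DFB_chain, map_sum, Fintype.sum_prod_type]
  have hX : ∀ ij : Fin 2 × Fin 2, dF (X ij : MvPolynomial (Fin 2 × Fin 2) k) =
      X (Sum.inl ij.1) * X (Sum.inr ij.2) := by
    intro ij
    simp [dF]
  simp only [map_mul, eval_dF, hX, pderiv_mul, pderiv_X]
  fin_cases j <;> simp [Fin.sum_univ_two, Pi.single_apply, pt] <;> ring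

theorem dfb_smo {k : Type*} [Field k] (G : MvPolynomial (Fin 2 × Fin 2) k) (h : CN (qd k) G) :
    Smo (dF G) := by
  intro s t hs ht h0
  by_contra hc
  push Not at hc
  rw [eval_dF] at h0
  have hx : (fun ij : Fin 2 × Fin 2 => s ij.1 * t ij.2) ≠ 0 := by
    obtain ⟨i, hi⟩ := Function.ne_iff.1 hs
    obtain ⟨j, hj⟩ := Function.ne_iff.1 ht
    intro h1
    exact mul_ne_zero hi hj (congrFun h1 (i, j))
  have hq : eval (fun ij : Fin 2 × Fin 2 => s ij.1 * t ij.2) (qd k) = 0 := by
    simp only [qd, map_sub, map_mul, eval_X]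
    ring
  obtain ⟨i, j, hij⟩ := h _ hx hq h0
  refine hij ?_
  have l0 := hc (Sum.inl 0)
  have l1 := hc (Sum.inl 1)
  have r0 := hc (Sum.inr 0)
  have r1 := hc (Sum.inr 1)
  rw [DFB_l] at l0 l1
  rw [DFB_r] at r0 r1
  have q : ∀ a : Fin 2 × Fin 2, eval (fun ij : Fin 2 × Fin 2 => s ij.1 * t ij.2) (pderiv a (qd k)) =
      (if a = (0, 0) then s 1 * t 1 else if a = (1, 1) then s 0 * t 0 else
        if a = (0, 1) then - (s 1 * t 0) else - (s 0 * t 1)) := by
    intro a
    obtain ⟨a1, a2⟩ := a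
    fin_cases a1 <;> fin_cases a2 <;> simp [qd, pderiv_X]
  simp only [jm, map_sub, map_mul, q]
  clear h0 hx hq hij hc q
  obtain ⟨g, hg⟩ : ∃ g : Fin 2 × Fin 2 → k, ∀ a,
      eval (fun ij : Fin 2 × Fin 2 => s ij.1 * t ij.2) (pderiv a G) = g a := ⟨_, fun _ => rfl⟩
  simp only [hg] at *
  obtain ⟨i1, i2⟩ := i
  obtain ⟨j1, j2⟩ := j
  have e1 : s 1 * t 1 * g (0, 1) + s 1 * t 0 * g (0, 0) = 0 := by linear_combination s 1 * l0
  have e2 : s 1 * t 1 * g (1, 0) + s 0 * t 1 * g (0, 0) = 0 := by linear_combination t 1 * r0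
  have e3 : s 1 * t 1 * g (1, 1) - s 0 * t 0 * g (0, 0) = 0 := by
    linear_combination s 1 * l1 - t 0 * r0
  have e4 : - (s 1 * t 0) * g (1, 0) + s 0 * t 1 * g (0, 1) = 0 := by
    linear_combination t 1 * r1 - s 1 * l1
  have e5 : - (s 1 * t 0) * g (1, 1) - s 0 * t 0 * g (0, 1) = 0 := by
    linear_combination - t 0 * r1
  have e6 : - (s 0 * t 1) * g (1, 1) - s 0 * t 0 * g (1, 0) = 0 := by
    linear_combination - s 0 * l1
  fin_cases i1 <;> fin_cases i2 <;> fin_cases j1 <;> fin_cases j2 <;> simp <;>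
    first | ring1 | linear_combination e1 | linear_combination -e1 | linear_combination e2 |
      linear_combination -e2 | linear_combination e3 | linear_combination -e3 |
      linear_combination e4 | linear_combination -e4 | linear_combination e5 |
      linear_combination -e5 | linear_combination e6 | linear_combination -e6

private theorem DFB_aw_ow {R : Type*} [CommRing R] (O : Matrix (Fin 2 × Fin 2) (Fin 2 × Fin 2) R)
    (M : Web R) (s t : Fin 2 → R) : aw (ow O M) s t = ∑ kl : Fin 2 × Fin 2,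
      (ov O (Matrix.of fun i j => s i * t j)) kl.1 kl.2 • M kl.1 kl.2 := by
  have h1 : aw (ow O M) s t = ∑ ij : Fin 2 × Fin 2, (s ij.1 * t ij.2) • ow O M ij.1 ij.2 := by
    rw [Fintype.sum_prod_type]
    rfl
  rw [h1]
  simp only [ow, ov, Matrix.of_apply, Finset.smul_sum, Finset.sum_smul, smul_smul]
  rw [Finset.sum_comm]
  refine Finset.sum_congr rfl fun kl _ => Finset.sum_congr rfl fun mn _ => ?_
  rw [mul_comm]

private theorem DFB_aw {R : Type*} [CommRing R] (M : Web R) (s t : Fin 2 → R) :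
    aw M s t = ∑ kl : Fin 2 × Fin 2, (Matrix.of fun i j => s i * t j) kl.1 kl.2 • M kl.1 kl.2 := by
  rw [Fintype.sum_prod_type]
  rfl

theorem dfb_ow {k : Type*} [Field k] [Infinite k] (O : Matrix (Fin 2 × Fin 2) (Fin 2 × Fin 2) k) (c : k)
    (hO : Sim O c) (M : Web k) (a : k) (G : MvPolynomial (Fin 2 × Fin 2) k) (hG : G.IsHomogeneous 3)
    (h : dW M = C a * dF G) : dW (ow O M) = C a * dF (ls O G) := by
  refine p4_ext fun s t => ?_
  rw [eval_dW, map_mul, eval_C, eval_dF, eval_ls, DFB_aw_ow]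
  have h1 := hO (Matrix.of fun i j => s i * t j)
  have h5 : (O *ᵥ fun ij : Fin 2 × Fin 2 => s ij.1 * t ij.2) =
      fun kl => ov O (Matrix.of fun i j => s i * t j) kl.1 kl.2 := rfl
  rw [h5]
  obtain ⟨x, hx⟩ : ∃ x, x = ov O (Matrix.of fun i j => s i * t j) := ⟨_, rfl⟩
  rw [← hx] at h1 ⊢
  have h2 : (Matrix.of fun i j => s i * t j).det = 0 := by
    rw [det_fin_two]
    simp only [Matrix.of_apply]
    ring
  rw [h2, mul_zero] at h1
  by_cases h0 : x = 0
  · have h6 : (fun kl : Fin 2 × Fin 2 => x kl.1 kl.2) = fun _ => 0 := by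
      funext kl
      rw [h0]
      rfl
    rw [h6, eval_zero', constantCoeff_eq, hG.coeff_eq_zero (by simp), h0]
    simp
  · obtain ⟨s', t', -, -, h3⟩ := null_vec x h1 h0
    rw [h3, ← DFB_aw, ← eval_dW, h, map_mul, eval_C, eval_dF]
    rfl

end Pool.Agent.T1
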