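import Mathlib

/-!
# T1 / DGM: diagonalisation of symmetric matrices over a valuation ring (Mathlib only)

Induction on `n` with a pivot: over a valuation ring some nonzero entry divides all the others,
after dividing by it the form takes a unit value at a vector with a coordinate `1`, and the
corresponding column is split off.
-/

namespace Pool.Agent.T1

open Matrix

private theorem dgm_exists_dvd {R : Type*} [CommRing R] [IsDomain R] [ValuationRing R] {κ : Type*}
    (f : κ → R) (s : Finset κ) (hs : s.Nonempty) : ∃ x ∈ s, ∀ y ∈ s, f x ∣ f y := by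
  induction hs using Finset.Nonempty.cons_induction with
  | singleton a => exact ⟨a, by simp, by simp⟩
  | cons a s ha hs ih =>
    obtain ⟨x, hx, h⟩ := ih
    rcases ValuationRing.dvd_total (f x) (f a) with h1 | h1
    · refine ⟨x, by simp [hx], fun y hy => ?_⟩
      rcases Finset.mem_cons.1 hy with rfl | hy
      · exact h1
      · exact h y hy
    · refine ⟨a, by simp, fun y hy => ?_⟩
      rcases Finset.mem_cons.1 hy with rfl | hy
      · exact dvd_rfl
      · exact h1.trans (h y hy)

private theorem dgm_unit_vec {R : Type*} [CommRing R] [IsDomain R] [ValuationRing R]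
    (h2 : IsUnit (2 : R)) {ι : Type*} [Fintype ι] [DecidableEq ι] (S : Matrix ι ι R)
    (hS : Sᵀ = S) (i j : ι) (hij : S i j = 1) :
    ∃ (v : ι → R) (m : ι), v m = 1 ∧ IsUnit (v ⬝ᵥ S *ᵥ v) := by
  have hji : S j i = 1 := by rw [← hS, transpose_apply, hij]
  by_cases h1 : IsUnit (S i i)
  · exact ⟨Pi.single i 1, i, by simp, by simpa using h1⟩
  by_cases h3 : IsUnit (S j j)
  · exact ⟨Pi.single j 1, j, by simp, by simpa using h3⟩
  have hne : i ≠ j := by
    rintro rfl
    exact h1 (by rw [hij]; exact isUnit_one)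
  refine ⟨Pi.single i 1 + Pi.single j 1, i, by simp [hne], ?_⟩
  have hval : (Pi.single i 1 + Pi.single j 1 : ι → R) ⬝ᵥ S *ᵥ (Pi.single i 1 + Pi.single j 1)
      = S i i + S j j + 2 := by
    simp only [mulVec_add, dotProduct_add, add_dotProduct, single_dotProduct, mulVec_single,
      one_mul]
    simp [hij, hji]
    ring
  rw [hval]
  by_contra hcon
  have h4 : (S i i + S j j) ∈ nonunits R := IsLocalRing.nonunits_add h1 h3
  have h5 : (S i i + S j j + 2) + -(S i i + S j j) ∈ nonunits R := by
    refine IsLocalRing.nonunits_add hcon ?_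
    rw [mem_nonunits_iff, IsUnit.neg_iff]
    exact h4
  apply h5
  have : (S i i + S j j + 2) + -(S i i + S j j) = 2 := by ring
  rw [this]
  exact h2

private theorem dgm_corner {R : Type*} [CommRing R] {n : ℕ}
    (ih : ∀ S : Matrix (Fin n) (Fin n) R, Sᵀ = S →
      ∃ (g : Matrix (Fin n) (Fin n) R) (d : Fin n → R), IsUnit g.det ∧ gᵀ * S * g = Matrix.diagonal d)
    (S : Matrix (Fin (n + 1)) (Fin (n + 1)) R) (hS : Sᵀ = S) (m : Fin (n + 1))
    (hm : IsUnit (S m m)) :
    ∃ (g : Matrix (Fin (n + 1)) (Fin (n + 1)) R) (d : Fin (n + 1) → R),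
      IsUnit g.det ∧ gᵀ * S * g = Matrix.diagonal d := by
  classical
  obtain ⟨e, he⟩ : ∃ e : Fin (n + 1) ≃ Unit ⊕ Fin n, e m = Sum.inl () := by
    have e0 : Fin (n + 1) ≃ Unit ⊕ Fin n :=
      Fintype.equivOfCardEq (by simp [add_comm])
    exact ⟨e0.trans (Equiv.swap (e0 m) (Sum.inl ())), by simp⟩
  have hem : e.symm (Sum.inl ()) = m := by rw [← he]; simp
  set T : Matrix (Unit ⊕ Fin n) (Unit ⊕ Fin n) R := S.submatrix e.symm e.symm with hT
  have hTs : Tᵀ = T := by rw [hT, transpose_submatrix, hS]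
  obtain ⟨u, hu⟩ := hm
  set A : Matrix Unit Unit R := T.toBlocks₁₁ with hA
  set B : Matrix Unit (Fin n) R := T.toBlocks₁₂ with hB
  set C : Matrix (Fin n) Unit R := T.toBlocks₂₁ with hC
  set D : Matrix (Fin n) (Fin n) R := T.toBlocks₂₂ with hD
  have hTb : T = fromBlocks A B C D := (fromBlocks_toBlocks T).symm
  have hCB : Bᵀ = C := by
    ext i j
    have := congrFun (congrFun hTs (Sum.inr i)) (Sum.inl j)
    simpa [hB, hC, toBlocks₁₂, toBlocks₂₁] using this
  have hDs : Dᵀ = D := by
    ext i j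
    have := congrFun (congrFun hTs (Sum.inr i)) (Sum.inr j)
    simpa [hD, toBlocks₂₂] using this
  have hA00 : A = fun _ _ => (u : R) := by
    ext i j
    simp [hA, toBlocks₁₁, hT, hem, hu]
  let Ai : Matrix Unit Unit R := fun _ _ => ((u⁻¹ : Rˣ) : R)
  have hAAi : A * Ai = 1 := by
    ext i j
    rw [hA00]
    simp [Ai, mul_apply]
  have hAiA : Ai * A = 1 := by
    ext i j
    rw [hA00]
    simp [Ai, mul_apply]
  have hAit : Aiᵀ = Ai := by
    ext i j
    rfl
  have hAt : Aᵀ = A := by
    rw [hA00]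
    rfl
  set D' : Matrix (Fin n) (Fin n) R := D - C * Ai * B with hD'
  have hBC : Cᵀ = B := by rw [← hCB, transpose_transpose]
  have hD's : D'ᵀ = D' := by
    rw [hD', transpose_sub, transpose_mul, transpose_mul, hAit, hDs, hCB, hBC, Matrix.mul_assoc]
  obtain ⟨g3, d', hg3, hg3d⟩ := ih D' hD's
  set L : Matrix (Unit ⊕ Fin n) (Unit ⊕ Fin n) R := fromBlocks 1 (-(Ai * B)) 0 1 with hL
  set G : Matrix (Unit ⊕ Fin n) (Unit ⊕ Fin n) R := fromBlocks 1 0 0 g3 with hG
  have hLT : Lᵀ * T * L = fromBlocks A 0 0 D' := by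
    rw [hTb, hL, fromBlocks_transpose, fromBlocks_multiply, fromBlocks_multiply]
    have e1 : C * (Ai * B) = C * Ai * B := (Matrix.mul_assoc _ _ _).symm
    have e2 : A * (Ai * B) = B := by rw [← Matrix.mul_assoc, hAAi, Matrix.one_mul]
    have e3 : (-(Ai * B))ᵀ = -(C * Ai) := by
      rw [transpose_neg, transpose_mul, hAit, hCB]
    have e4 : C * Ai * A = C := by rw [Matrix.mul_assoc, hAiA, Matrix.mul_one]
    congr 1
    · simp
    · simp [e2]
    · simp [e3, e4]
    · simp [e3, e4, hD', Matrix.mul_neg, Matrix.neg_mul]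
      abel
  have hGL : (L * G)ᵀ * T * (L * G) = Matrix.diagonal (Sum.elim (fun _ => (u : R)) d') := by
    have : (L * G)ᵀ * T * (L * G) = Gᵀ * (Lᵀ * T * L) * G := by
      rw [transpose_mul]
      simp only [Matrix.mul_assoc]
    rw [this, hLT, hG, fromBlocks_transpose, fromBlocks_multiply, fromBlocks_multiply]
    rw [← fromBlocks_diagonal, ← hg3d]
    congr 1
    · rw [hA00]
      ext i j
      simp
    · simp
    · simp
    · simp
  have hdet : IsUnit (L * G).det := by
    rw [det_mul, hL, hG, det_fromBlocks_zero₂₁, det_fromBlocks_zero₂₁]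
    simpa using hg3
  refine ⟨(L * G).submatrix e e, (Sum.elim (fun _ => (u : R)) d') ∘ e, ?_, ?_⟩
  · rw [det_submatrix_equiv_self]
    exact hdet
  · have hST : S = T.submatrix e e := by
      rw [hT]
      ext i j
      simp
    rw [hST, ← submatrix_diagonal_equiv, ← hGL, transpose_submatrix, submatrix_mul_equiv,
      submatrix_mul_equiv]

theorem dgm {R : Type*} [CommRing R] [IsDomain R] [ValuationRing R] (h2 : IsUnit (2 : R)) (n : ℕ)
    (S : Matrix (Fin n) (Fin n) R) (hS : Sᵀ = S) :
    ∃ (g : Matrix (Fin n) (Fin n) R) (d : Fin n → R), IsUnit g.det ∧ gᵀ * S * g = Matrix.diagonal d := by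
  classical
  induction n with
  | zero => exact ⟨1, 0, by simp, by ext i; exact i.elim0⟩
  | succ n ih =>
    by_cases h0 : S = 0
    · exact ⟨1, 0, by simp, by simp [h0]⟩
    obtain ⟨x, -, hx⟩ := dgm_exists_dvd (fun p : Fin (n + 1) × Fin (n + 1) => S p.1 p.2)
      Finset.univ ⟨(0, 0), Finset.mem_univ _⟩
    set c : R := S x.1 x.2 with hc
    have hc0 : c ≠ 0 := by
      intro hc0
      apply h0
      ext i j
      have := hx (i, j) (Finset.mem_univ _)
      simp only [hc0, zero_dvd_iff] at this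
      simpa using this
    have hdvd : ∀ i j, ∃ y, S i j = c * y := fun i j => hx (i, j) (Finset.mem_univ _)
    choose S' hS' using hdvd
    have hSS : S = c • (Matrix.of S') := by
      ext i j
      simp [hS' i j]
    have h1 : S' x.1 x.2 = 1 := by
      have h := hS' x.1 x.2
      rw [← hc] at h
      have h' : c * 1 = c * S' x.1 x.2 := by rw [mul_one]; exact h
      exact (mul_left_cancel₀ hc0 h').symm
    have hsym : (Matrix.of S')ᵀ = Matrix.of S' := by
      ext i j
      apply mul_left_cancel₀ hc0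
      simp only [transpose_apply, of_apply]
      rw [← hS', ← hS', ← transpose_apply S, hS]
    obtain ⟨v, m, hv, hvu⟩ := dgm_unit_vec h2 (Matrix.of S') hsym x.1 x.2 h1
    set g1 : Matrix (Fin (n + 1)) (Fin (n + 1)) R :=
      (1 : Matrix (Fin (n + 1)) (Fin (n + 1)) R).updateCol m v with hg1
    have hdet1 : g1.det = 1 := by
      rw [hg1, ← cramer_apply, cramer_one]
      simpa using hv
    have hcol : ∀ k, g1 k m = v k := by
      intro k
      simp [hg1]
    set S1 := g1ᵀ * (Matrix.of S') * g1 with hS1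
    have hS1s : S1ᵀ = S1 := by
      rw [hS1, transpose_mul, transpose_mul, transpose_transpose, hsym, Matrix.mul_assoc]
    have hS1m : IsUnit (S1 m m) := by
      have : S1 m m = v ⬝ᵥ (Matrix.of S') *ᵥ v := by
        rw [hS1, Matrix.mul_assoc, mul_apply]
        simp only [dotProduct, mulVec, transpose_apply, mul_apply, hcol]
      rw [this]
      exact hvu
    obtain ⟨g2, d, hg2, hg2d⟩ := dgm_corner ih S1 hS1s m hS1m
    refine ⟨g1 * g2, c • d, ?_, ?_⟩
    · rw [det_mul, hdet1, one_mul]
      exact hg2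
    · have : (g1 * g2)ᵀ * S * (g1 * g2) = c • (g2ᵀ * S1 * g2) := by
        rw [hSS, hS1, transpose_mul]
        simp only [Matrix.mul_assoc, Matrix.smul_mul, Matrix.mul_smul]
      rw [this, hg2d, diagonal_smul]

end Pool.Agent.T1
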