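import Pool.Agent.T1.CPE

/-!
# T1 / DIA: linear maps between quartics in normal position

`sb h F = C c * R`; rows `h 0 = (a, 0, 0)`, `h 1 = (0, b, 0)`, `h 2 = (α, β, γ)`; `det h = a b γ ≠ 0`.  Values: `eval x (sb h F) = eval (h *ᵥ x) F`, i.e.
`F(a x₀, b x₁, α x₀ + β x₁ + γ x₂) = c R(x)`.  `x₀ = 0`: `((β x₁ + γ x₂)² - f b² x₁²)² = c (x₂² - f₁ x₁²)²`: coefficients of `x₂⁴`: `γ⁴ = c`; of `x₂³x₁`: `4 β γ³ = 0`, `β = 0`.  Similarly `α = 0` (`x₁ = 0`).  Coefficients of `x₂²x₁²`: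
`f b² γ² = c f₁ = γ⁴ f₁`; so `f b² = γ² f₁`, `f' a² = γ² f₁'`.  So `V(h x) = γ² V₁(x)`, and `a b x₀x₁ G(h x) = c x₀ x₁ G₁(x)`: `hᵀ A h = (c / (a b)) A₁` (compare coefficients; both symmetric; cancel `X 0 * X 1`).
Put `κ = a b / γ²`.  Then `hᵀ (pA f f' A t) h = (c / (a b)) • pA f₁ f₁' A₁ (κ t)`: `hᵀ (2 t diag(-f', -f, 1)) h = 2 t γ² diag(-f₁', -f₁, 1)` and `γ² = (c/(a b)) κ`; `(t²/2) a b = (c/(ab)) κ² t² / 2`.
Determinants: `det(h)² pp f f' A t = (c/(ab))³ pp f₁ f₁' A₁ (κ t)`.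
-/

namespace Pool.Agent.T1

open MvPolynomial Matrix
open Pool.Agent.PQ (P3 NS SF sb RB ND l1 lin Bit)

private theorem DIA_eval {R : Type*} [CommRing R] (h : Matrix (Fin 3) (Fin 3) R) (F : P3 R)
    (x : Fin 3 → R) : MvPolynomial.eval x (sb h F) = MvPolynomial.eval (h *ᵥ x) F := by
  have e : ((MvPolynomial.eval x).comp (sb h).toRingHom) = MvPolynomial.eval (h *ᵥ x) := by
    refine MvPolynomial.ringHom_ext (fun r => ?_) (fun i => ?_)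
    · simp [sb]
    · simp [sb, lin, mulVec, dotProduct]
  exact congrArg (fun g : P3 R →+* R => g F) e

private theorem DIA_quad {R : Type*} [CommRing R] (A : Matrix (Fin 3) (Fin 3) R) (x : Fin 3 → R)
    (s10 : A 1 0 = A 0 1) (s20 : A 2 0 = A 0 2) (s21 : A 2 1 = A 1 2) :
    x ⬝ᵥ (A *ᵥ x) = A 0 0 * x 0 ^ 2 + A 1 1 * x 1 ^ 2 + A 2 2 * x 2 ^ 2 + 2 * A 0 1 * x 0 * x 1 +
      2 * A 0 2 * x 0 * x 2 + 2 * A 1 2 * x 1 * x 2 := by
  simp only [mulVec, dotProduct, Fin.sum_univ_three, s10, s20, s21]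
  ring

theorem dia {k : Type*} [Field k] [CharZero k] (F R : P3 k) (f f' f₁ f₁' : k)
    (A A₁ : Matrix (Fin 3) (Fin 3) k) (hF : CP F f f' A) (hR : CP R f₁ f₁' A₁)
    (h : Matrix (Fin 3) (Fin 3) k) (hh : h.det ≠ 0) (c : k) (hE : sb h F = C c * R) (a b : k)
    (h0 : h 0 = a • (Pi.single 0 1 : Fin 3 → k)) (h1 : h 1 = b • (Pi.single 1 1 : Fin 3 → k)) :
    ∃ κ : k, κ ≠ 0 ∧ ∀ t, pp f f' A t = 0 → pp f₁ f₁' A₁ (κ * t) = 0 := by
  obtain ⟨c0, rfl⟩ : ∃ c0 : k, c0 = c := ⟨c, rfl⟩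
  have e00 : h 0 0 = a := by rw [h0]; simp
  have e01 : h 0 1 = 0 := by rw [h0]; simp
  have e02 : h 0 2 = 0 := by rw [h0]; simp
  have e10 : h 1 0 = 0 := by rw [h1]; simp
  have e11 : h 1 1 = b := by rw [h1]; simp
  have e12 : h 1 2 = 0 := by rw [h1]; simp
  obtain ⟨α, e20⟩ : ∃ α, h 2 0 = α := ⟨_, rfl⟩
  obtain ⟨β, e21⟩ : ∃ β, h 2 1 = β := ⟨_, rfl⟩
  obtain ⟨γ, e22⟩ : ∃ γ, h 2 2 = γ := ⟨_, rfl⟩
  have hdet : h.det = a * b * γ := by
    rw [Matrix.det_fin_three, e00, e01, e02, e10, e11, e12, e20, e21, e22]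
    ring
  rw [hdet] at hh
  have hγ : γ ≠ 0 := right_ne_zero_of_mul hh
  have ha : a ≠ 0 := left_ne_zero_of_mul (left_ne_zero_of_mul hh)
  have hb : b ≠ 0 := right_ne_zero_of_mul (left_ne_zero_of_mul hh)
  have s10 : A 1 0 = A 0 1 := congrFun (congrFun hF.symm 0) 1
  have s20 : A 2 0 = A 0 2 := congrFun (congrFun hF.symm 0) 2
  have s21 : A 2 1 = A 1 2 := congrFun (congrFun hF.symm 1) 2
  have t10 : A₁ 1 0 = A₁ 0 1 := congrFun (congrFun hR.symm 0) 1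
  have t20 : A₁ 2 0 = A₁ 0 2 := congrFun (congrFun hR.symm 0) 2
  have t21 : A₁ 2 1 = A₁ 1 2 := congrFun (congrFun hR.symm 1) 2
  have key : ∀ x0 x1 x2 : k,
      ((α * x0 + β * x1 + γ * x2) ^ 2 - f * (b * x1) ^ 2 - f' * (a * x0) ^ 2) ^ 2 -
        (a * x0) * (b * x1) * (A 0 0 * (a * x0) ^ 2 + A 1 1 * (b * x1) ^ 2 +
          A 2 2 * (α * x0 + β * x1 + γ * x2) ^ 2 + 2 * A 0 1 * (a * x0) * (b * x1) +
          2 * A 0 2 * (a * x0) * (α * x0 + β * x1 + γ * x2) +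
          2 * A 1 2 * (b * x1) * (α * x0 + β * x1 + γ * x2)) =
      c0 * ((x2 ^ 2 - f₁ * x1 ^ 2 - f₁' * x0 ^ 2) ^ 2 -
        x0 * x1 * (A₁ 0 0 * x0 ^ 2 + A₁ 1 1 * x1 ^ 2 + A₁ 2 2 * x2 ^ 2 + 2 * A₁ 0 1 * x0 * x1 +
          2 * A₁ 0 2 * x0 * x2 + 2 * A₁ 1 2 * x1 * x2)) := by
    intro x0 x1 x2
    have q := congrArg (MvPolynomial.eval ![x0, x1, x2]) hE
    rw [map_mul, eval_C, hR.eval, DIA_eval, hF.eval] at q
    have m0 : (h *ᵥ ![x0, x1, x2]) 0 = a * x0 := by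
      simp [mulVec, dotProduct, Fin.sum_univ_three, e00, e01, e02]
    have m1 : (h *ᵥ ![x0, x1, x2]) 1 = b * x1 := by
      simp [mulVec, dotProduct, Fin.sum_univ_three, e10, e11, e12]
    have m2 : (h *ᵥ ![x0, x1, x2]) 2 = α * x0 + β * x1 + γ * x2 := by
      simp [mulVec, dotProduct, Fin.sum_univ_three, e20, e21, e22]
    have g1 := DIA_quad A (h *ᵥ ![x0, x1, x2]) s10 s20 s21
    have g2 := DIA_quad A₁ ![x0, x1, x2] t10 t20 t21
    rw [g1, g2, m0, m1, m2] at q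
    simpa using q
  have hc : c0 = γ ^ 4 := by
    have q := key 0 0 1
    linear_combination -q
  -- the line x0 = 0
  have hβ : β = 0 := by
    have q1 := key 0 1 1
    have q2 := key 0 (-1) 1
    have q3 := key 0 2 1
    have q4 := key 0 (-2) 1
    have r : 48 * γ ^ 3 * β = 0 := by linear_combination 8 * (q1 - q2) - (q3 - q4)
    have r2 := (mul_eq_zero.1 r).resolve_left (mul_ne_zero (by norm_num) (pow_ne_zero 3 hγ))
    exact r2
  have hα : α = 0 := by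
    have q1 := key 1 0 1
    have q2 := key (-1) 0 1
    have q3 := key 2 0 1
    have q4 := key (-2) 0 1
    have r : 48 * γ ^ 3 * α = 0 := by linear_combination 8 * (q1 - q2) - (q3 - q4)
    exact (mul_eq_zero.1 r).resolve_left (mul_ne_zero (by norm_num) (pow_ne_zero 3 hγ))
  subst hα hβ
  subst hc
  have hfb : f * b ^ 2 = γ ^ 2 * f₁ := by
    have q1 := key 0 1 1
    have q2 := key 0 2 1
    have r : 24 * γ ^ 2 * (f * b ^ 2 - γ ^ 2 * f₁) = 0 := by linear_combination q2 - 16 * q1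
    have r2 := (mul_eq_zero.1 r).resolve_left (mul_ne_zero (by norm_num) (pow_ne_zero 2 hγ))
    exact sub_eq_zero.1 r2
  have hfa : f' * a ^ 2 = γ ^ 2 * f₁' := by
    have q1 := key 1 0 1
    have q2 := key 2 0 1
    have r : 24 * γ ^ 2 * (f' * a ^ 2 - γ ^ 2 * f₁') = 0 := by linear_combination q2 - 16 * q1
    have r2 := (mul_eq_zero.1 r).resolve_left (mul_ne_zero (by norm_num) (pow_ne_zero 2 hγ))
    exact sub_eq_zero.1 r2
  have hG : ∀ x0 x1 x2 : k, x0 * x1 * (a * b * (A 0 0 * (a * x0) ^ 2 + A 1 1 * (b * x1) ^ 2 +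
          A 2 2 * (γ * x2) ^ 2 + 2 * A 0 1 * (a * x0) * (b * x1) +
          2 * A 0 2 * (a * x0) * (γ * x2) + 2 * A 1 2 * (b * x1) * (γ * x2)) -
        γ ^ 4 * (A₁ 0 0 * x0 ^ 2 + A₁ 1 1 * x1 ^ 2 + A₁ 2 2 * x2 ^ 2 + 2 * A₁ 0 1 * x0 * x1 +
          2 * A₁ 0 2 * x0 * x2 + 2 * A₁ 1 2 * x1 * x2)) = 0 := by
    intro x0 x1 x2
    have q := key x0 x1 x2
    have v : (0 * x0 + 0 * x1 + γ * x2) ^ 2 - f * (b * x1) ^ 2 - f' * (a * x0) ^ 2 =
        γ ^ 2 * (x2 ^ 2 - f₁ * x1 ^ 2 - f₁' * x0 ^ 2) := by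
      linear_combination -x1 ^ 2 * hfb - x0 ^ 2 * hfa
    rw [v] at q
    linear_combination -q
  have p1 := hG 1 1 0
  have p2 := hG 1 (-1) 0
  have p3 := hG 1 2 0
  have p4 := hG 1 1 1
  have p5 := hG 1 1 (-1)
  have p6 := hG 1 (-1) 1
  have r01 : a * b * (A 0 1 * a * b) = γ ^ 4 * A₁ 0 1 := by linear_combination (1 / 4) * (p1 + p2)
  have r11 : a * b * (A 1 1 * b ^ 2) = γ ^ 4 * A₁ 1 1 := by
    linear_combination (1 / 6) * p3 - (1 / 3) * p1 - (2 / 3) * r01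
  have r00 : a * b * (A 0 0 * a ^ 2) = γ ^ 4 * A₁ 0 0 := by
    linear_combination p1 - 2 * r01 - r11
  have r22 : a * b * (A 2 2 * γ ^ 2) = γ ^ 4 * A₁ 2 2 := by
    linear_combination (1 / 2) * (p4 + p5) - p1
  have r02 : a * b * (A 0 2 * a * γ) = γ ^ 4 * A₁ 0 2 := by
    linear_combination (1 / 4) * (p4 - p6) - (1 / 2) * r00 - (1 / 2) * r11 - (1 / 2) * r22
  have r12 : a * b * (A 1 2 * b * γ) = γ ^ 4 * A₁ 1 2 := by
    linear_combination (1 / 4) * (p4 - p5) - r02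
  have hhe : h = Matrix.diagonal ![a, b, γ] := by
    ext i j
    fin_cases i <;> fin_cases j <;> simp [e00, e01, e02, e10, e11, e12, e20, e21, e22]
  obtain ⟨κ, hκ⟩ : ∃ κ, κ * γ ^ 2 = a * b := ⟨a * b / γ ^ 2, div_mul_cancel₀ _ (pow_ne_zero 2 hγ)⟩
  have hκ0 : κ ≠ 0 := by
    intro h2
    rw [h2, zero_mul] at hκ
    exact mul_ne_zero ha hb hκ.symm
  refine ⟨κ, hκ0, fun t ht => ?_⟩
  have hm : (a * b) • (hᵀ * pA f f' A t * h) = γ ^ 4 • pA f₁ f₁' A₁ (κ * t) := by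
    rw [hhe, Matrix.diagonal_transpose]
    ext i j
    rw [Matrix.smul_apply, Matrix.smul_apply, Matrix.mul_diagonal, Matrix.diagonal_mul]
    fin_cases i <;> fin_cases j <;> simp [pA]
    · linear_combination r00 - (2 * t * a * b) * hfa + (2 * t * γ ^ 2 * f₁') * hκ
    · linear_combination r01 - (t ^ 2 / 2) * (κ * γ ^ 2 + a * b) * hκ
    · linear_combination r02
    · rw [s10, t10]; linear_combination r01 - (t ^ 2 / 2) * (κ * γ ^ 2 + a * b) * hκ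
    · linear_combination r11 - (2 * t * a * b) * hfb + (2 * t * γ ^ 2 * f₁) * hκ
    · linear_combination r12
    · rw [s20, t20]; linear_combination r02
    · rw [s21, t21]; linear_combination r12
    · linear_combination r22 - (2 * t * γ ^ 2) * hκ
  have hd := congrArg Matrix.det hm
  rw [Matrix.det_smul, Matrix.det_smul, Matrix.det_mul, Matrix.det_mul] at hd
  unfold pp at ht ⊢
  rw [ht, mul_zero, zero_mul, mul_zero] at hd
  exact (mul_eq_zero.1 hd.symm).resolve_left (pow_ne_zero _ (pow_ne_zero _ hγ))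

end Pool.Agent.T1
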