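import Pool.Agent.T1.LSB
import Pool.Agent.T1.DGM

/-!
# T1 / DIQ: diagonalisation of quadratic forms over a valuation ring

`dgm` for `hs Q` (`hs_symm`): `gᵀ * hs Q * g = diagonal e`; `d i := w * e i`, `2 * w = 1`.  `hs_ls`, `hs_diag`, `hs_inj`, `ls_hom`, `diag_hom`.  Determinant: `det (gᵀ * hs Q * g) = det g ^ 2 * det (hs Q) = ∏ (2 * d i)`.
-/

namespace Pool.Agent.T1

open MvPolynomial Matrix

theorem diq {R : Type*} [CommRing R] [IsDomain R] [ValuationRing R] (h2 : IsUnit (2 : R))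
    (Q : MvPolynomial (Fin 4) R) (hQ : Q.IsHomogeneous 2) :
    ∃ (g : Matrix (Fin 4) (Fin 4) R) (d : Fin 4 → R), IsUnit g.det ∧ ls g Q = ∑ i, C (d i) * X i ^ 2 ∧
      g.det ^ 2 * (hs Q).det = 16 * ∏ i, d i := by
  obtain ⟨g, e, hg, he⟩ := dgm h2 4 (hs Q) (hs_symm Q)
  obtain ⟨w, hw⟩ := h2.exists_right_inv
  have h3 : ∀ i, 2 * (w * e i) = e i := fun i => by rw [← mul_assoc, hw, one_mul]
  refine ⟨g, fun i => w * e i, hg, ?_, ?_⟩
  · refine hs_inj h2 (ls_hom g hQ) (diag_hom _) ?_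
    rw [hs_ls g hQ, hs_diag, he]
    simp only [h3]
  · have h4 := congrArg Matrix.det he
    rw [Matrix.det_mul, Matrix.det_mul, Matrix.det_transpose, Matrix.det_diagonal] at h4
    have h5 : ∏ i, e i = 16 * ∏ i, w * e i := by
      have h6 : ∏ i, e i = ∏ i, 2 * (w * e i) := Finset.prod_congr rfl fun i _ => (h3 i).symm
      rw [h6, Finset.prod_mul_distrib, Finset.prod_const]
      norm_num
    rw [← h5, ← h4]
    ring

end Pool.Agent.T1
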