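import Pool.Agent.PQ.DefsK

/-!
# T1: definitions

Canonical curves of genus 4 on the quadric `P¹ × P¹`: forms `D` of bidegree `(3, 3)` in `s = (s₀, s₁)`, `t = (t₀, t₁)`, and symmetric
determinantal representations `D = det M(s, t)`, `M(s, t) = ∑ s i * t j * M i j` (webs of conics).
-/

namespace Pool.Agent.T1

open MvPolynomial Matrix
open Pool.Agent.PQ (P3 NS SF sb)

/-- polynomials in the variables `s i` (`X (Sum.inl i)`) and `t j` (`X (Sum.inr j)`) -/
abbrev P4 (R : Type*) [CommSemiring R] := MvPolynomial (Fin 2 ⊕ Fin 2) R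

/-- bidegrees of the variables -/
def bw : Fin 2 ⊕ Fin 2 → ℕ × ℕ := Sum.elim (fun _ => (1, 0)) (fun _ => (0, 1))

/-- webs: `2 × 2` arrays of `3 × 3` matrices -/
abbrev Web (R : Type*) := Fin 2 → Fin 2 → Matrix (Fin 3) (Fin 3) R

/-- the point with coordinates `s`, `t` -/
def pt {R : Type*} (s t : Fin 2 → R) : Fin 2 ⊕ Fin 2 → R := Sum.elim s t

section

variable {R : Type*} [CommRing R]

/-- `f` is a form of bidegree `(m, n)` -/
def BH (f : P4 R) (m n : ℕ) : Prop := f.IsWeightedHomogeneous bw (m, n)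

/-- all matrices of the web are symmetric -/
def Sy (M : Web R) : Prop := ∀ i j, (M i j)ᵀ = M i j

/-- the matrix `∑ s i * t j * M i j` -/
def aw (M : Web R) (s t : Fin 2 → R) : Matrix (Fin 3) (Fin 3) R := ∑ i, ∑ j, (s i * t j) • M i j

/-- change of rings -/
def mapW {S : Type*} (f : R → S) (M : Web R) : Web S := fun i j => (M i j).map f

/-- the bilinear form with matrix `x` as a polynomial -/
noncomputable def pb (x : Matrix (Fin 2) (Fin 2) R) : P4 R :=
  ∑ i, ∑ j, C (x i j) * X (Sum.inl i) * X (Sum.inr j)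

/-- the generic matrix of a web -/
noncomputable def pm (M : Web R) : Matrix (Fin 3) (Fin 3) (P4 R) :=
  Matrix.of fun a b => pb (Matrix.of fun i j => M i j a b)

/-- the determinant of a web, a form of bidegree `(3, 3)` -/
noncomputable def dW (M : Web R) : P4 R := (pm M).det

/-- `M ↦ hᵀ M h` -/
def gw (h : Matrix (Fin 3) (Fin 3) R) (M : Web R) : Web R := fun i j => hᵀ * M i j * h

/-- substitution `s ↦ p s`, `t ↦ q t` in webs -/
def sw (p q : Matrix (Fin 2) (Fin 2) R) (M : Web R) : Web R :=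
  fun i j => ∑ k, ∑ l, (p k i * q l j) • M k l

/-- substitution `s ↦ p s`, `t ↦ q t` in polynomials -/
noncomputable def sD (p q : Matrix (Fin 2) (Fin 2) R) : P4 R →ₐ[R] P4 R :=
  aeval (Sum.elim (fun k => ∑ i, C (p k i) * X (Sum.inl i)) (fun l => ∑ j, C (q l j) * X (Sum.inr j)))

/-- the vector `(yᵀ (M i j) z)` of the space `V₄` of `2 × 2` matrices -/
def mv (M : Web R) (y z : Fin 3 → R) : Matrix (Fin 2) (Fin 2) R :=
  Matrix.of fun i j => y ⬝ᵥ (M i j *ᵥ z)

/-- the polar form of the determinant of `2 × 2` matrices, `bf x x = 2 det x` -/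
def bf (x y : Matrix (Fin 2) (Fin 2) R) : R :=
  x 0 0 * y 1 1 + x 1 1 * y 0 0 - x 0 1 * y 1 0 - x 1 0 * y 0 1

/-- quadratic form of a matrix -/
noncomputable def qf (A : Matrix (Fin 3) (Fin 3) R) : P3 R := ∑ a, ∑ b, C (A a b) * X a * X b

/-- the plane quartic of a web: `y ↦ det (mv M y y)` -/
noncomputable def qt (M : Web R) : P3 R := qf (M 0 0) * qf (M 1 1) - qf (M 0 1) * qf (M 1 0)

/-- smoothness of the curve `D = 0` in `P¹ × P¹`, for points with coordinates in `R` -/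
def Smo (D : P4 R) : Prop :=
  ∀ s t : Fin 2 → R, s ≠ 0 → t ≠ 0 → eval (pt s t) D = 0 → ∃ i, eval (pt s t) (pderiv i D) ≠ 0

/-- (H1) -/
def H1 (M : Web R) : Prop := ∀ s : Fin 2 → R, s ≠ 0 → ∃ t, (aw M s t).det ≠ 0

/-- (H2) -/
def H2 (M : Web R) : Prop := ∀ s t : Fin 2 → R, s ≠ 0 → t ≠ 0 → (aw M s t).adjugate ≠ 0

/-- the pencil `t 0 * P 0 + t 1 * P 1` -/
def ap (P : Fin 2 → Matrix (Fin 3) (Fin 3) R) (t : Fin 2 → R) : Matrix (Fin 3) (Fin 3) R :=
  ∑ j, t j • P j

/-- dehomogenisation `s = (1, X 0)`, `t = (1, X 1)` -/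
noncomputable def dh : P4 R →ₐ[R] MvPolynomial (Fin 2) R :=
  aeval (Sum.elim ![1, X 0] ![1, X 1])

end

end Pool.Agent.T1
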