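import Pool.Agent.T1.Defs2
import Pool.Agent.PQ.ELN

/-!
# T1: definitions of the part B (bounded algebraic numbers, tetrads, Gram matrices)

`Bd c s x` (in `Defs2`): `x` is a root of a non-zero integer polynomial of degree and coefficients at most `tw c s`.
`PB θ N x`: `x` is an integer polynomial expression in the `θ i`, of total degree `≤ N` and sum of the absolute values of the
coefficients `≤ 2 ^ N`.  `PX θ N f`: the same for one-variable polynomials `f`.
-/

namespace Pool.Agent.T1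

open MvPolynomial Matrix
open Pool.Agent.PQ (P3 NS SF sb RB ND l1 lin Bit)

section

variable {C : Type*} [Field C]

/-- integer polynomial expressions in the `θ i` of size `N` -/
def PB {σ : Type} (θ : σ → C) (N : ℕ) (x : C) : Prop :=
  ∃ p : MvPolynomial σ ℤ, p.totalDegree ≤ N ∧ l1 p ≤ 2 ^ N ∧ aeval θ p = x

/-- polynomials in one variable whose coefficients are integer polynomial expressions in the `θ i` of size `N` -/
def PX {σ : Type} (θ : σ → C) (N : ℕ) (f : Polynomial C) : Prop :=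
  ∃ p : Polynomial (MvPolynomial σ ℤ), p.natDegree ≤ N ∧ (∀ j, (p.coeff j).totalDegree ≤ N) ∧
    (∑ j ∈ p.support, l1 (p.coeff j)) ≤ 2 ^ N ∧
    p.map (aeval θ : MvPolynomial σ ℤ →ₐ[ℤ] C).toRingHom = f

/-! ### quartics with two bitangents in normal position -/

/-- `F = V² - X₀ X₁ G`, `V = X₂² - f X₁² - f' X₀²`, `G` the quadratic form with the symmetric matrix `A` -/
structure CP (F : P3 C) (f f' : C) (A : Matrix (Fin 3) (Fin 3) C) : Prop where
  symm : Aᵀ = A
  eq : F = (X 2 ^ 2 - MvPolynomial.C f * X 1 ^ 2 - MvPolynomial.C f' * X 0 ^ 2) ^ 2 - X 0 * X 1 * qf A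

/-- the matrix of the quadratic form `t² X₀ X₁ + 2 t V + G` -/
def pA (f f' : C) (A : Matrix (Fin 3) (Fin 3) C) (t : C) : Matrix (Fin 3) (Fin 3) C :=
  A + (2 * t) • Matrix.diagonal ![-f', -f, 1] + (t ^ 2 / 2) • !![0, 1, 0; 1, 0, 0; 0, 0, 0]

/-- its determinant -/
def pp (f f' : C) (A : Matrix (Fin 3) (Fin 3) C) (t : C) : C := (pA f f' A t).det

/-! ### tetrads -/

/-- a skew symmetric matrix of determinant one -/
def lam : Matrix (Fin 2) (Fin 2) C := !![0, 1; -1, 0]

/-- wedge product of vectors in the plane -/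
def wd (v w : Fin 2 → C) : C := v 0 * w 1 - v 1 * w 0

/-- polar form of the product of two linear forms: the value at `(s, t)` is `(v∧s w∧t + v∧t w∧s) / 2` -/
def nf (v w : Fin 2 → C) : Matrix (Fin 2) (Fin 2) C :=
  !![v 1 * w 1, -(v 1 * w 0 + v 0 * w 1) / 2; -(v 1 * w 0 + v 0 * w 1) / 2, v 0 * w 0]

/-- the diagonal entries of a tetrad -/
def md (x : Fin 4 → C) (v : Fin 4 → Fin 2 → C) (i j : Fin 4) : Matrix (Fin 2) (Fin 2) C :=
  -((x i * x j - wd (v i) (v j) ^ 2 / 4) • lam + x i • nf (v j) (v j) + x j • nf (v i) (v i))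

/-- the entries of the web of a tetrad -/
def tetE (x : Fin 4 → C) (v : Fin 4 → Fin 2 → C) (m : Matrix (Fin 2) (Fin 2) C) :
    Fin 3 → Fin 3 → Matrix (Fin 2) (Fin 2) C :=
  ![![md x v 2 3, m, nf (v 2) (v 3)], ![m, md x v 0 1, nf (v 0) (v 1)],
    ![nf (v 2) (v 3), nf (v 0) (v 1), lam]]

/-- the web with given entries in `V₄` -/
def webOf (E : Fin 3 → Fin 3 → Matrix (Fin 2) (Fin 2) C) : Web C := fun i j => Matrix.of fun a b => E a b i j

/-- the web of a tetrad -/
def tet (x : Fin 4 → C) (v : Fin 4 → Fin 2 → C) (m : Matrix (Fin 2) (Fin 2) C) : Web C :=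
  webOf (tetE x v m)

/-- entries of a web, vectors of `V₄` -/
def en {R : Type*} (M : Web R) (a b : Fin 3) : Matrix (Fin 2) (Fin 2) R := Matrix.of fun i j => M i j a b

/-- the matrix `A` of the quadratic form `G` of the quartic of a web in normal position (`f`, `f'` as in `CP`) -/
def gA (M : Web C) (f f' : C) : Matrix (Fin 3) (Fin 3) C :=
  !![-(2 * bf (en M 0 0) (en M 0 1)),
      -(bf (en M 0 0) (en M 1 1) / 2 + bf (en M 0 1) (en M 0 1) - f * f'),
      -(bf (en M 0 0) (en M 1 2) + 2 * bf (en M 0 1) (en M 0 2));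
    -(bf (en M 0 0) (en M 1 1) / 2 + bf (en M 0 1) (en M 0 1) - f * f'),
      -(2 * bf (en M 1 1) (en M 0 1)),
      -(bf (en M 1 1) (en M 0 2) + 2 * bf (en M 0 1) (en M 1 2));
    -(bf (en M 0 0) (en M 1 2) + 2 * bf (en M 0 1) (en M 0 2)),
      -(bf (en M 1 1) (en M 0 2) + 2 * bf (en M 0 1) (en M 1 2)),
      -(2 * bf (en M 0 1) (en M 2 2) + 4 * bf (en M 0 2) (en M 1 2))]

/-! ### the hypothesis delivered by the part UN -/

/-- the Riemann parameters of all webs of multiples of `D` are bounded -/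
def UNH (c s : ℕ) (D : P4 C) : Prop :=
  ∀ M : Web C, Sy M → (∃ u : C, u ≠ 0 ∧ dW M = MvPolynomial.C u * D) → GB c s M

/-- Gram entries of a web -/
def gr (M : Web C) (a b c d : Fin 3) : C := bf (en M a b) (en M c d)

end

end Pool.Agent.T1
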