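import Pool.Agent.T1.Defs2
import Pool.Agent.G4.Defs

/-!
# T1: definitions for parts N, K, U: complete intersections `Q = F = 0` in projective space
-/

namespace Pool.Agent.T1

open MvPolynomial Matrix NumberField IsDedekindDomain
open Pool.Agent.PQ (P3)

section

variable {R : Type*} [CommRing R] {ι κ : Type*} [Fintype κ]

/-- linear substitution `X i ↦ ∑ j, g i j * X j`, i.e. `F ↦ F ∘ g` -/
noncomputable def ls (g : Matrix ι κ R) : MvPolynomial ι R →ₐ[R] MvPolynomial κ R :=
  aeval fun i => ∑ j, C (g i j) * X j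

end

section

variable {R : Type*} [CommRing R] {ι : Type*}

/-- the `2 × 2` minors of the Jacobian matrix of `(Q, F)` -/
noncomputable def jm (Q F : MvPolynomial ι R) (i j : ι) : MvPolynomial ι R :=
  pderiv i Q * pderiv j F - pderiv j Q * pderiv i F

/-- the complete intersection `Q = F = 0` in projective space over the ring `R` is smooth: `Q`, `F` and the `2 × 2` minors
of the Jacobian matrix generate an ideal containing powers of all coordinates -/
def CS (Q F : MvPolynomial ι R) : Prop :=
  ∃ N : ℕ, ∀ i : ι, (X i : MvPolynomial ι R) ^ N ∈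
    Ideal.span ({Q, F} ∪ Set.range fun p : ι × ι => jm Q F p.1 p.2)

/-- no singular point with coordinates in the field `k` -/
def CN {k : Type*} [Field k] (Q F : MvPolynomial ι k) : Prop :=
  ∀ x : ι → k, x ≠ 0 → eval x Q = 0 → eval x F = 0 → ∃ i j, eval x (jm Q F i j) ≠ 0

/-- the matrix of second derivatives of the quadratic form `Q` -/
noncomputable def hs (Q : MvPolynomial ι R) : Matrix ι ι R :=
  Matrix.of fun i j => constantCoeff (pderiv i (pderiv j Q))

end

section

variable (R : Type*) [CommRing R]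

/-- the determinant on `V₄`: the quadric `P¹ × P¹` -/
noncomputable def qd : MvPolynomial (Fin 2 × Fin 2) R := X (0, 0) * X (1, 1) - X (0, 1) * X (1, 0)

/-- the quadric cone -/
noncomputable def qc : MvPolynomial (Fin 4) R := X 0 * X 2 - X 1 ^ 2

variable {R}

/-- restriction of a quaternary form to the cone, `(s, t, z) ↦ (s², s t, t², z)` -/
noncomputable def cq : MvPolynomial (Fin 4) R →ₐ[R] P3 R :=
  aeval ![X 0 ^ 2, X 0 * X 1, X 1 ^ 2, X 2]

end

section

variable {K : Type*} [Field K] [NumberField K]

/-- the canonical curve `Q = F = 0` (`Q` quadratic, `F` cubic) in `P³` over the number field `K` has good reduction of the same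
type at the finite place `v`: after a linear substitution `g ∈ GL₄(K)`, and after replacing `Q` by `c Q` and `F` by `u F + l Q`, `l` a linear form,
the forms `Q, F` have coefficients in the local ring of `K` at `v` and define a smooth curve over it (also modulo the maximal ideal), and
`det Q` is a unit or `0`, i.e. the quadric `Q = 0` is smooth modulo the maximal ideal if it is smooth over `K` -/
def GoodCI (Q F : MvPolynomial (Fin 4) K) (v : HeightOneSpectrum (𝓞 K)) : Prop :=
  ∃ (g : Matrix (Fin 4) (Fin 4) K) (c u : K) (l : MvPolynomial (Fin 4) K)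
    (Q' F' : MvPolynomial (Fin 4) (v.valuation K).valuationSubring),
    g.det ≠ 0 ∧ c ≠ 0 ∧ u ≠ 0 ∧ l.IsHomogeneous 1 ∧
      map (algebraMap (v.valuation K).valuationSubring K) Q' = C c * ls g Q ∧
      map (algebraMap (v.valuation K).valuationSubring K) F' = C u * ls g F + l * (C c * ls g Q) ∧
      CS Q' F' ∧ (IsUnit (hs Q').det ∨ (hs Q).det = 0)

/-- good reduction of the same type outside `T` and outside the places over `2` and `3` -/
def GoodCO (T : Finset (HeightOneSpectrum (𝓞 K))) (Q F : MvPolynomial (Fin 4) K) : Prop :=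
  ∀ v : HeightOneSpectrum (𝓞 K), v ∉ T → (6 : 𝓞 K) ∉ v.asIdeal → GoodCI Q F v

end

/-- fixed by the inertia group of `V` -/
def Fx (K : Type*) {C : Type*} [Field K] [Field C] [Algebra K C] (V : ValuationSubring C) {ι : Type*}
    (p : MvPolynomial ι V) : Prop :=
  ∀ σ : C ≃ₐ[K] C, ESH.Inert V σ →
    map (σ : C →+* C) (map (algebraMap V C) p) = map (algebraMap V C) p

/-- the Galois conjugates of the curve `tri A = 0` in `P(1,1,2)` over `C` are isomorphic to it -/
def GalC (K : Type*) {C : Type*} [Field K] [Field C] [Algebra K C] (A : Fin 3 → G4.P2 C) : Prop :=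
  ∀ τ : C ≃ₐ[K] C, ∃ (g : Matrix (Fin 2) (Fin 2) C) (l : C) (q : G4.P2 C), g.det ≠ 0 ∧ l ≠ 0 ∧
    q.IsHomogeneous 2 ∧ G4.Tr g l q (fun i => map (τ : C →+* C) (A i)) A

/-- the curve `tri A = 0` in `P(1,1,2)` over `C` has a smooth model over `V` which is fixed by inertia -/
def LocC (K : Type*) {C : Type*} [Field K] [Field C] [Algebra K C] (V : ValuationSubring C)
    (A : Fin 3 → G4.P2 C) : Prop :=
  ∃ (g : Matrix (Fin 2) (Fin 2) C) (l : C) (q : G4.P2 C) (B : Fin 3 → G4.P2 V), g.det ≠ 0 ∧ l ≠ 0 ∧
    q.IsHomogeneous 2 ∧ G4.Tr g l q A (fun i => map (algebraMap V C) (B i)) ∧ G4.TH B ∧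
    PQ.NS (G4.tri fun i => map (IsLocalRing.residue V) (B i)) ∧ ∀ i, Fx K V (B i)

end Pool.Agent.T1
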