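import Pool.Agent.T1.DefsB
import Pool.Agent.T1.AWB
import Pool.Agent.T1.QTW

/-!
# T1 / ENA: entries of webs and small lemmas

Direct computations.  `en (gw h M) a b = ∑ c d, h c a * h d b • en M c d`.  `ext_en`: a web is determined by its entries.
`en_sw`: `en (sw p q M) a b = pᵀ * en M a b * q`, so `bf` is multiplied by `det p * det q` (`bf_mul`: `bf (pᵀ x q) (pᵀ y q) = det p det q bf x y`).
(`qt_gw`, `qt_sw`, `qt_smul` are in `QTW`.)  `mv_sum`: `mv M y z = ∑ a b, y a * z b • en M a b`.
-/

namespace Pool.Agent.T1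

open MvPolynomial Matrix
open Pool.Agent.PQ (P3 NS SF sb RB ND l1 lin Bit)

section

variable {R : Type*} [CommRing R]

theorem en_apply (M : Web R) (a b : Fin 3) (i j : Fin 2) : en M a b i j = M i j a b := rfl

theorem en_symm {M : Web R} (hM : Sy M) (a b : Fin 3) : en M a b = en M b a := by
  ext i j
  rw [en_apply, en_apply]
  conv_lhs => rw [← hM i j]
  rfl

theorem sy_of_en {M : Web R} (h : ∀ a b, en M a b = en M b a) : Sy M := by
  intro i j
  ext a b
  have h1 := congrFun (congrFun (h b a) i) j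
  rw [en_apply, en_apply] at h1
  exact h1

theorem ext_en {M N : Web R} (h : ∀ a b, en M a b = en N a b) : M = N := by
  funext i j
  ext a b
  have h1 := congrFun (congrFun (h a b) i) j
  rw [en_apply, en_apply] at h1
  exact h1

theorem mv_single (M : Web R) (a b : Fin 3) : mv M (Pi.single a 1) (Pi.single b 1) = en M a b := by
  ext i j
  rw [en_apply]
  unfold mv
  rw [Matrix.of_apply, single_dotProduct, one_mul, Matrix.mulVec_single_one, Matrix.col_apply]

theorem mv_sum (M : Web R) (y z : Fin 3 → R) : mv M y z = ∑ a, ∑ b, (y a * z b) • en M a b := by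
  ext i j
  unfold mv
  simp only [Matrix.of_apply, Matrix.sum_apply, Matrix.smul_apply, en_apply, dotProduct, mulVec,
    smul_eq_mul, Finset.mul_sum]
  refine Finset.sum_congr rfl fun a _ => Finset.sum_congr rfl fun b _ => ?_
  ring

theorem mv_symm {M : Web R} (hM : Sy M) (y z : Fin 3 → R) : mv M y z = mv M z y := by
  rw [mv_sum, mv_sum, Finset.sum_comm]
  refine Finset.sum_congr rfl fun a _ => Finset.sum_congr rfl fun b _ => ?_
  rw [en_symm hM, mul_comm]

theorem mv_gw (h : Matrix (Fin 3) (Fin 3) R) (M : Web R) (y z : Fin 3 → R) :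
    mv (gw h M) y z = mv M (h *ᵥ y) (h *ᵥ z) := by
  ext i j
  unfold mv gw
  rw [Matrix.of_apply, Matrix.of_apply, ← Matrix.mulVec_mulVec, ← Matrix.mulVec_mulVec,
    Matrix.dotProduct_mulVec, Matrix.vecMul_transpose]

/-- entries of `gw g M`: values on the columns of `g` -/
theorem en_gw (g : Matrix (Fin 3) (Fin 3) R) (M : Web R) (a b : Fin 3) :
    en (gw g M) a b = mv M (fun i => g i a) (fun i => g i b) := by
  rw [← mv_single, mv_gw, Matrix.mulVec_single_one, Matrix.mulVec_single_one]
  rfl

theorem en_sw (p q : Matrix (Fin 2) (Fin 2) R) (M : Web R) (a b : Fin 3) :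
    en (sw p q M) a b = pᵀ * en M a b * q := by
  ext i j
  rw [en_apply]
  unfold sw
  simp only [Matrix.mul_apply, Matrix.transpose_apply, en_apply, Fin.sum_univ_two,
    Matrix.add_apply, Matrix.smul_apply, smul_eq_mul]
  ring

theorem en_smul (c : R) (M : Web R) (a b : Fin 3) : en (c • M) a b = c • en M a b := by
  ext i j
  rfl

theorem bf_symm (x y : Matrix (Fin 2) (Fin 2) R) : bf x y = bf y x := by
  unfold bf
  ring

theorem bf_self (x : Matrix (Fin 2) (Fin 2) R) : bf x x = 2 * x.det := by
  rw [Matrix.det_fin_two]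
  unfold bf
  ring

theorem bf_add_left (x x' y : Matrix (Fin 2) (Fin 2) R) : bf (x + x') y = bf x y + bf x' y := by
  unfold bf
  simp only [Matrix.add_apply]
  ring

theorem bf_smul_left (c : R) (x y : Matrix (Fin 2) (Fin 2) R) : bf (c • x) y = c * bf x y := by
  unfold bf
  simp only [Matrix.smul_apply, smul_eq_mul]
  ring

theorem bf_sum_left {ι : Type*} (s : Finset ι) (x : ι → Matrix (Fin 2) (Fin 2) R)
    (y : Matrix (Fin 2) (Fin 2) R) : bf (∑ i ∈ s, x i) y = ∑ i ∈ s, bf (x i) y := by
  classical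
  induction s using Finset.induction_on with
  | empty =>
    unfold bf
    simp
  | insert a s ha ih => rw [Finset.sum_insert ha, Finset.sum_insert ha, bf_add_left, ih]

theorem bf_mul (p q x y : Matrix (Fin 2) (Fin 2) R) :
    bf (pᵀ * x * q) (pᵀ * y * q) = p.det * q.det * bf x y := by
  rw [Matrix.det_fin_two, Matrix.det_fin_two]
  unfold bf
  simp only [Matrix.mul_apply, Matrix.transpose_apply, Fin.sum_univ_two]
  ring

/-- the form `bf` is non-degenerate -/
theorem bf_nondeg (x : Matrix (Fin 2) (Fin 2) R) (h : ∀ y, bf x y = 0) : x = 0 := by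
  have h1 := h !![0, 0; 0, 1]
  have h2 := h !![0, 0; 1, 0]
  have h3 := h !![0, 1; 0, 0]
  have h4 := h !![1, 0; 0, 0]
  simp [bf] at h1 h2 h3 h4
  ext i j
  fin_cases i <;> fin_cases j
  · simpa using h1
  · simpa using h2
  · simpa using h3
  · simpa using h4

theorem webOf_en (E : Fin 3 → Fin 3 → Matrix (Fin 2) (Fin 2) R) (a b : Fin 3) : en (fun i j => Matrix.of fun a b => E a b i j) a b = E a b := by
  ext i j
  rfl

end

end Pool.Agent.T1
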