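import Mathlib

/-!
# T1 / R1F: symmetric matrices of rank one over a factorial ring

Proof.  Choose `i` with `A i i ≠ 0` (if all diagonal entries vanish then `A i j * A i j = A i j * A j i = A i i * A j j = 0`, so `A = 0`).
Extract the greatest common divisor of the row `A i 0, A i 1, A i 2`: `A i j = g * y j`, where no prime divides all `y j` (in a factorial
ring; e.g. with `UniqueFactorizationMonoid.toGCDMonoid` and `Finset.exists_gcd...`/`Finset.gcd`, `extract_gcd`).  `g ≠ 0`.
`A i i * A j l = A i j * A i l` (minors and symmetry), so `y i * A j l = g * y j * y l`.  Then `y i ∣ g * y j * y l` for all `j, l`, hence `y i ∣ g` (for every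
prime `p`: the `p`-adic valuation of `y j` is `0` for some `j`, take `l = j`; or `gcd (y j * y l) = 1`).  `g = y i * h`, `y i ≠ 0`, `A j l = h * y j * y l`.
(One may avoid valuations: in a GCD domain, `gcd` of the `y j` is `1`, so the gcd of the `y j * y l` is `1`: `gcd_j (y j * y l) = y l` up to units.)
-/

namespace Pool.Agent.T1

theorem r1f {S : Type*} [CommRing S] [IsDomain S] [UniqueFactorizationMonoid S]
    (A : Matrix (Fin 3) (Fin 3) S) (hs : A.transpose = A) (hm : ∀ i j k l, A i j * A k l = A i l * A k j)
    (h0 : A ≠ 0) : ∃ (h : S) (y : Fin 3 → S), h ≠ 0 ∧ ∀ i j, A i j = h * y i * y j := by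
  classical
  let _ : StrongNormalizationMonoid S := UniqueFactorizationMonoid.strongNormalizationMonoid
  let _ : NormalizedGCDMonoid S := UniqueFactorizationMonoid.toNormalizedGCDMonoid S
  have hsym : ∀ i j, A i j = A j i := by
    intro i j
    have := congrFun (congrFun hs j) i
    simpa [Matrix.transpose_apply] using this
  have hi : ∃ i, A i i ≠ 0 := by
    by_contra hcon
    push Not at hcon
    apply h0
    ext i j
    have h1 := hm i j j i
    rw [hsym j i, hcon i, zero_mul] at h1
    simpa using mul_self_eq_zero.1 h1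
  obtain ⟨i, hi⟩ := hi
  obtain ⟨y, hy, hgcd⟩ := Finset.extract_gcd (s := (Finset.univ : Finset (Fin 3))) (A i)
    Finset.univ_nonempty
  set g : S := (Finset.univ : Finset (Fin 3)).gcd (A i) with hg
  have hy' : ∀ j, A i j = g * y j := fun j => hy j (Finset.mem_univ j)
  have hg0 : g ≠ 0 := by
    intro h
    apply hi
    rw [hy' i, h, zero_mul]
  have hyi : y i ≠ 0 := by
    intro h
    apply hi
    rw [hy' i, h, mul_zero]
  have key : ∀ j l, y i * A j l = g * y j * y l := by
    intro j l
    have h1 : A i i * A j l = A i j * A i l := by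
      rw [hm i i j l, hsym j i, mul_comm]
    rw [hy' i, hy' j, hy' l] at h1
    have h2 : g * (y i * A j l) = g * (g * y j * y l) := by
      rw [← mul_assoc, h1]; ring
    exact mul_left_cancel₀ hg0 h2
  have hcop : ∀ (a b : S), (∀ l, b ∣ a * y l) → b ∣ a := by
    intro a b h
    have h1 : b ∣ (Finset.univ : Finset (Fin 3)).gcd (fun l => a * y l) :=
      Finset.dvd_gcd (fun l _ => h l)
    have h2 := Finset.gcd_mul_left' (Finset.univ : Finset (Fin 3)) y a
    rw [hgcd, mul_one] at h2
    exact h1.trans h2.dvd
  have hdvd : y i ∣ g := by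
    refine hcop g (y i) (fun j => hcop (g * y j) (y i) (fun l => ?_))
    exact ⟨A j l, (key j l).symm⟩
  obtain ⟨h, hh⟩ := hdvd
  refine ⟨h, y, ?_, ?_⟩
  · intro h'
    apply hg0
    rw [hh, h', mul_zero]
  · intro j l
    apply mul_left_cancel₀ hyi
    rw [key j l, hh]
    ring

end Pool.Agent.T1
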