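import Pool.Agent.T1.AWB
import Pool.Agent.T1.AWD
import Pool.Agent.T1.R1F

/-!
# T1 / FAC

`rk1`: web with `adjugate = 0`.  `A := (pm M).map dh`, symmetric, adjugate `0`, so all `2 × 2` minors vanish (every `2 × 2` minor of a `3 × 3` matrix is
up to sign an entry of the adjugate, or trivially zero).  If `M = 0` take `g = 0`.  Otherwise `r1f`: `dh (pm M a b) = h * y a * y b`; for every `a` with
`y a ≠ 0`: `degreeOf c h + 2 * degreeOf c (y a) ≤ 1` (`degreeOf_mul_eq`, `dh_deg`), so `y a` is a constant: `y a = C (v a)` for all `a` (also if `y a = 0`), and `h` has degrees `≤ 1`; `v ≠ 0`.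
`h = dh (pb g)` (`dh_surj`, `BH_one_one`), `pm M a b = pb (g * v a * v b)` (`dh_inj`), `pb_inj`.
`fac`: `A' := A.map dh`.  `r1f`: `dh (A a b) = h * y a * y b`.  For `z ≠ 0`: `∑ z a z b A a b ≠ 0`, so `h * (∑ z a • y a)^2 ≠ 0`: the `y a` are
linearly independent over `k`; in particular `y a ≠ 0`.  `degreeOf c h + 2 degreeOf c (y a) ≤ 2`.  If `degreeOf c h ≥ 1` for `c = 0` (or `1`) then all `y a` have degree `0` in `X c`
and degree `≤ 1` in the other variable: three elements of a two-dimensional space, contradiction.  So `h = C c`, and `y a` has degrees `≤ 1`: `y a = dh (pb (Y a))`.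
`gmb`: apply `r1f` to the `3 × 3` matrix with entries `dh (pb γ), dh (pb β), dh (pb β), dh (pb α)` in the upper left corner and zeros: `dh (pb γ) = h * y 0 ^ 2`,
`dh (pb β) = h * y 0 * y 1`, `dh (pb α) = h * y 1 ^ 2`.  `y 0 ≠ 0` has degrees `0` (`degree h + 2 degree y 0 ≤ 1`), a constant `≠ 0`; `y 1 = 0` or also constant.  So `β = c • γ`.
-/

namespace Pool.Agent.T1

open MvPolynomial Matrix

private lemma FAC_const {k : Type*} [Field k] (f : MvPolynomial (Fin 2) k) (h0 : degreeOf 0 f = 0)
    (h1 : degreeOf 1 f = 0) : f = C (coeff 0 f) := by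
  ext d
  rw [coeff_C]
  split_ifs with h
  · rw [← h]
  · by_contra hd
    have hs : d ∈ f.support := by rwa [mem_support_iff]
    apply h
    have a0 := monomial_le_degreeOf 0 hs
    have a1 := monomial_le_degreeOf 1 hs
    rw [h0] at a0
    rw [h1] at a1
    ext i
    fin_cases i
    · simpa using a0.antisymm (Nat.zero_le _) |>.symm
    · simpa using a1.antisymm (Nat.zero_le _) |>.symm

private lemma FAC_lin {k : Type*} [Field k] (c c' : Fin 2) (hc : c ≠ c') (f : MvPolynomial (Fin 2) k)
    (h0 : degreeOf c f = 0) (h1 : degreeOf c' f ≤ 1) :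
    f = C (coeff 0 f) + C (coeff (Finsupp.single c' 1) f) * X c' := by
  have hne : (Finsupp.single c' 1 : Fin 2 →₀ ℕ) ≠ 0 := by
    intro h
    have := DFunLike.congr_fun h c'
    simp at this
  ext d
  rw [coeff_add, coeff_C, coeff_C_mul, coeff_X]
  by_cases hd0 : 0 = d
  · subst hd0
    rw [if_pos rfl, if_neg hne]
    simp
  · rw [if_neg hd0]
    by_cases hd1 : Finsupp.single c' 1 = d
    · rw [if_pos hd1, ← hd1]
      simp
    · rw [if_neg hd1, mul_zero, add_zero]
      by_contra hd
      have hs : d ∈ f.support := by rwa [mem_support_iff]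
      have a0 := monomial_le_degreeOf c hs
      have a1 := monomial_le_degreeOf c' hs
      rw [h0] at a0
      have b0 : d c = 0 := by omega
      have b1 : d c' = 0 ∨ d c' = 1 := by omega
      have hall' : ∀ a b : Fin 2, a ≠ b → ∀ i, i = a ∨ i = b := by decide
      have hall := hall' c c' hc
      rcases b1 with b1 | b1
      · apply hd0
        ext i
        rcases hall i with rfl | rfl
        · rw [b0]; rfl
        · rw [b1]; rfl
      · apply hd1
        ext i
        rcases hall i with rfl | rfl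
        · rw [b0, Finsupp.single_apply, if_neg (Ne.symm hc)]
        · rw [b1, Finsupp.single_apply, if_pos rfl]

private lemma FAC_minors {S : Type*} [CommRing S] (A : Matrix (Fin 3) (Fin 3) S) (h : A.adjugate = 0) :
    ∀ i j k l, A i j * A k l = A i l * A k j := by
  rw [Matrix.adjugate_fin_three] at h
  have h00 := congrFun (congrFun h 0) 0
  have h01 := congrFun (congrFun h 0) 1
  have h02 := congrFun (congrFun h 0) 2
  have h10 := congrFun (congrFun h 1) 0
  have h11 := congrFun (congrFun h 1) 1
  have h12 := congrFun (congrFun h 1) 2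
  have h20 := congrFun (congrFun h 2) 0
  have h21 := congrFun (congrFun h 2) 1
  have h22 := congrFun (congrFun h 2) 2
  simp at h00 h01 h02 h10 h11 h12 h20 h21 h22
  intro i j k l
  by_cases hik : i = k
  · subst hik; ring
  by_cases hjl : j = l
  · subst hjl; ring
  fin_cases i <;> fin_cases k <;> first | exact absurd rfl hik | skip
  all_goals fin_cases j <;> fin_cases l <;> first | exact absurd rfl hjl | skip
  all_goals simp only [Fin.zero_eta, Fin.mk_one, Fin.reduceFinMk]
  all_goals first
    | linear_combination h00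
    | linear_combination h01
    | linear_combination h02
    | linear_combination h10
    | linear_combination h11
    | linear_combination h12
    | linear_combination h20
    | linear_combination h21
    | linear_combination h22
    | linear_combination -h00
    | linear_combination -h01
    | linear_combination -h02
    | linear_combination -h10
    | linear_combination -h11
    | linear_combination -h12
    | linear_combination -h20
    | linear_combination -h21
    | linear_combination -h22

private lemma FAC_pb0 {k : Type*} [Field k] : pb (0 : Matrix (Fin 2) (Fin 2) k) = 0 := by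
  simp [pb]

private lemma FAC_dpb {k : Type*} [Field k] {x y : Matrix (Fin 2) (Fin 2) k} (h : dh (pb x) = dh (pb y)) :
    x = y := by
  apply pb_inj
  have h1 := dh_inj ((BH_pb x).sub (BH_pb y)) (by rw [map_sub, h, sub_self])
  exact sub_eq_zero.1 h1

private lemma FAC_dC {k : Type*} [Field k] (c : k) (x : Matrix (Fin 2) (Fin 2) k) :
    dh (pb (c • x)) = C c * dh (pb x) := by
  rw [pb_smul, map_mul]
  congr 1
  simp [dh]

private lemma FAC_dhC {k : Type*} [Field k] (c : k) : dh (C c : P4 k) = C c := by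
  simp [dh]

private lemma FAC_deg {k : Type*} [Field k] (c : Fin 2) {h y : MvPolynomial (Fin 2) k} (hh : h ≠ 0)
    (hy : y ≠ 0) : degreeOf c (h * y * y) = degreeOf c h + degreeOf c y + degreeOf c y := by
  rw [degreeOf_mul_eq (mul_ne_zero hh hy) hy, degreeOf_mul_eq hh hy]

theorem rk1 {k : Type*} [Field k] (M : Web k) (hs : Sy M) (h : (pm M).adjugate = 0) :
    ∃ (v : Fin 3 → k) (g : Matrix (Fin 2) (Fin 2) k), v ≠ 0 ∧ ∀ i j, M i j = g i j • vecMulVec v v := by
  have hmin := FAC_minors (pm M) h
  have hsym : (pm M)ᵀ = pm M := pm_symm hs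
  have hpm : ∀ a b, pm M a b = pb (Matrix.of fun i j => M i j a b) := fun a b => rfl
  by_cases h0 : (pm M).map dh = 0
  · refine ⟨fun _ => 1, 0, fun h1 => one_ne_zero (congrFun h1 0), fun i j => ?_⟩
    ext a b
    have h1 : dh (pb (Matrix.of fun i j => M i j a b)) = dh (pb 0) := by
      rw [FAC_pb0, map_zero]
      exact congrFun (congrFun h0 a) b
    have h2 := congrFun (congrFun (FAC_dpb h1) i) j
    simp only [Matrix.of_apply, Matrix.zero_apply] at h2
    rw [h2]
    simp
  · obtain ⟨f, y, hf, hy⟩ := r1f ((pm M).map dh) (by rw [← Matrix.transpose_map, hsym])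
      (fun i j k l => by
        simp only [Matrix.map_apply]
        rw [← map_mul, ← map_mul, hmin i j k l]) h0
    have hy' : ∀ a b, dh (pb (Matrix.of fun i j => M i j a b)) = f * y a * y b := hy
    have hdeg : ∀ a, y a ≠ 0 → ∀ c, degreeOf c (y a) = 0 ∧ degreeOf c f ≤ 1 := by
      intro a ha c
      have h1 := FAC_deg c hf ha
      have h2 : degreeOf c (f * y a * y a) ≤ 1 := by
        rw [← hy']
        have h3 := dh_deg (BH_pb (Matrix.of fun i j => M i j a a))
        fin_cases c
        · exact h3.1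
        · exact h3.2
      omega
    have hex : ∃ a, y a ≠ 0 := by
      by_contra hc
      push Not at hc
      apply h0
      ext1 a b
      rw [hy, hc]
      simp
    obtain ⟨a0, ha0⟩ := hex
    have hyC : ∀ a, y a = C (coeff 0 (y a)) := by
      intro a
      by_cases ha : y a = 0
      · rw [ha]; simp
      · exact FAC_const _ (hdeg a ha 0).1 (hdeg a ha 1).1
    obtain ⟨F, hF, hFf⟩ := dh_surj f 1 1 (hdeg a0 ha0 0).2 (hdeg a0 ha0 1).2
    obtain ⟨g, rfl⟩ := BH_one_one hF
    refine ⟨fun a => coeff 0 (y a), g, fun h1 => ?_, fun i j => ?_⟩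
    · apply ha0
      rw [hyC a0]
      have := congrFun h1 a0
      simp only [Pi.zero_apply] at this
      rw [this, C_0]
    · ext a b
      have h1 : dh (pb (Matrix.of fun i j => M i j a b)) =
          dh (pb ((coeff 0 (y a) * coeff 0 (y b)) • g)) := by
        rw [FAC_dC, hFf, hy' a b, C_mul, ← hyC, ← hyC]
        ring
      have h2 := congrFun (congrFun (FAC_dpb h1) i) j
      simp only [Matrix.of_apply, Matrix.smul_apply, smul_eq_mul] at h2
      rw [h2]
      simp only [Matrix.smul_apply, vecMulVec_apply, smul_eq_mul]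
      ring

theorem fac {k : Type*} [Field k] (A : Matrix (Fin 3) (Fin 3) (P4 k)) (hs : Aᵀ = A)
    (hb : ∀ a b, BH (A a b) 2 2) (hm : ∀ i j k l, A i j * A k l = A i l * A k j)
    (hn : ∀ z : Fin 3 → k, z ≠ 0 → ∑ a, ∑ b, C (z a * z b) * A a b ≠ 0) :
    ∃ (c : k) (Y : Fin 3 → Matrix (Fin 2) (Fin 2) k), c ≠ 0 ∧ ∀ a b, A a b = C c * pb (Y a) * pb (Y b) := by
  have hz : ∀ z : Fin 3 → k, z ≠ 0 → dh (∑ a, ∑ b, C (z a * z b) * A a b) ≠ 0 := by
    intro z hz h1
    apply hn z hz
    refine dh_inj (m := 2) (n := 2) ?_ h1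
    refine (weightedHomogeneousSubmodule k bw (2, 2)).sum_mem fun a _ =>
      (weightedHomogeneousSubmodule k bw (2, 2)).sum_mem fun b _ => ?_
    exact (hb a b).C_mul _
  have h0 : A.map dh ≠ 0 := by
    intro h1
    have h2 : (fun _ => 1 : Fin 3 → k) ≠ 0 := fun h => one_ne_zero (congrFun h 0)
    apply hz _ h2
    rw [map_sum]
    refine Finset.sum_eq_zero fun a _ => ?_
    rw [map_sum]
    refine Finset.sum_eq_zero fun b _ => ?_
    rw [map_mul]
    have h3 : dh (A a b) = 0 := congrFun (congrFun h1 a) b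
    rw [h3, mul_zero]
  obtain ⟨f, y, hf, hy⟩ := r1f (A.map dh) (by rw [← Matrix.transpose_map, hs])
    (fun i j k l => by
      simp only [Matrix.map_apply]
      rw [← map_mul, ← map_mul, hm i j k l]) h0
  have hy' : ∀ a b, dh (A a b) = f * y a * y b := hy
  have hli : ∀ z : Fin 3 → k, z ≠ 0 → ∑ a, C (z a) * y a ≠ 0 := by
    intro z hz0 h1
    apply hz z hz0
    have h2 : dh (∑ a, ∑ b, C (z a * z b) * A a b) = f * (∑ a, C (z a) * y a) * (∑ a, C (z a) * y a) := by
      simp only [map_sum, map_mul, FAC_dhC, hy']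
      simp only [Fin.sum_univ_three]
      ring
    rw [h2, h1, mul_zero]
  have hy0 : ∀ a, y a ≠ 0 := by
    intro a ha
    have h2 : (Pi.single a 1 : Fin 3 → k) ≠ 0 := fun h => by
      have := congrFun h a
      simp at this
    apply hli _ h2
    rw [Finset.sum_eq_single a]
    · rw [ha, mul_zero]
    · intro b _ hb
      rw [Pi.single_eq_of_ne hb, C_0, zero_mul]
    · intro h; exact absurd (Finset.mem_univ _) h
  have hdeg : ∀ a, ∀ c, degreeOf c f + degreeOf c (y a) + degreeOf c (y a) ≤ 2 := by
    intro a c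
    rw [← FAC_deg c hf (hy0 a), ← hy']
    have h3 := dh_deg (hb a a)
    fin_cases c
    · exact h3.1
    · exact h3.2
  have hf0 : ∀ c, degreeOf c f = 0 := by
    intro c
    by_contra hc
    have hex : ∀ a : Fin 2, ∃ b : Fin 2, a ≠ b := by decide
    obtain ⟨c', hcc⟩ := hex c
    have h1 : ∀ a, degreeOf c (y a) = 0 := fun a => by
      have := hdeg a c
      omega
    have h2 : ∀ a, degreeOf c' (y a) ≤ 1 := fun a => by
      have := hdeg a c'
      omega
    have h3 := fun a => FAC_lin c c' hcc (y a) (h1 a) (h2 a)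
    obtain ⟨z, hz0, hzM⟩ := (Matrix.exists_mulVec_eq_zero_iff
      (M := (Matrix.of ![fun a => coeff 0 (y a), fun a => coeff (Finsupp.single c' 1) (y a), fun _ => 0] :
        Matrix (Fin 3) (Fin 3) k))).2 (by simp [Matrix.det_fin_three])
    apply hli z hz0
    have e0 := congrFun hzM 0
    have e1 := congrFun hzM 1
    simp only [Matrix.mulVec, dotProduct, Fin.sum_univ_three, Matrix.of_apply, Matrix.cons_val_zero,
      Matrix.cons_val_one, Pi.zero_apply] at e0 e1
    have e0' := congrArg (C : k → MvPolynomial (Fin 2) k) e0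
    have e1' := congrArg (C : k → MvPolynomial (Fin 2) k) e1
    simp only [C_add, C_mul, C_0] at e0' e1'
    rw [Fin.sum_univ_three, h3 0, h3 1, h3 2]
    linear_combination e0' + X c' * e1'
  have hfC := FAC_const f (hf0 0) (hf0 1)
  have hY : ∀ a, ∃ Y, dh (pb Y) = y a := by
    intro a
    have h1 := hdeg a 0
    have h2 := hdeg a 1
    obtain ⟨F, hF, hFf⟩ := dh_surj (y a) 1 1 (by omega) (by omega)
    obtain ⟨g, rfl⟩ := BH_one_one hF
    exact ⟨g, hFf⟩
  choose Y hY using hY
  refine ⟨coeff 0 f, Y, fun h => hf (by rw [hfC, h, C_0]), fun a b => ?_⟩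
  have h1 : BH (C (coeff 0 f) * pb (Y a) * pb (Y b)) 2 2 := ((BH_pb (Y a)).C_mul _).mul (BH_pb (Y b))
  refine sub_eq_zero.1 (dh_inj ((hb a b).sub h1) ?_)
  rw [map_sub, map_mul, map_mul, FAC_dhC, hY, hY, ← hfC, hy', sub_self]

theorem gmb {k : Type*} [Field k] (γ α β : Matrix (Fin 2) (Fin 2) k) (hγ : γ ≠ 0)
    (h : pb γ * pb α = pb β ^ 2) : ∃ c : k, β = c • γ := by
  have hγ' : dh (pb γ) ≠ 0 := by
    intro h1
    apply hγ
    apply FAC_dpb
    rw [h1, FAC_pb0, map_zero]
  have hd : dh (pb γ) * dh (pb α) = dh (pb β) * dh (pb β) := by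
    rw [← map_mul, h, pow_two, map_mul]
  obtain ⟨f, y, hf, hy⟩ := r1f (!![dh (pb γ), dh (pb β), 0; dh (pb β), dh (pb α), 0; 0, 0, 0])
    (by
      ext i j
      fin_cases i <;> fin_cases j <;> rfl)
    (by
      intro i j k l
      by_cases hik : i = k
      · subst hik; ring
      by_cases hjl : j = l
      · subst hjl; ring
      fin_cases i <;> fin_cases k <;> first | exact absurd rfl hik | skip
      all_goals fin_cases j <;> fin_cases l <;> first | exact absurd rfl hjl | skip
      all_goals simp
      all_goals first | linear_combination hd | linear_combination -hd)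
    (by
      intro h1
      exact hγ' (congrFun (congrFun h1 0) 0))
  have y00 : dh (pb γ) = f * y 0 * y 0 := hy 0 0
  have y01 : dh (pb β) = f * y 0 * y 1 := hy 0 1
  have y11 : dh (pb α) = f * y 1 * y 1 := hy 1 1
  have hdeg : ∀ (x : Matrix (Fin 2) (Fin 2) k) (g : MvPolynomial (Fin 2) k), g ≠ 0 → dh (pb x) = f * g * g →
      g = C (coeff 0 g) := by
    intro x g hg hx
    have h1 : ∀ c, degreeOf c g = 0 := by
      intro c
      have h1 := FAC_deg c hf hg
      have h2 : degreeOf c (f * g * g) ≤ 1 := by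
        rw [← hx]
        have h3 := dh_deg (BH_pb x)
        fin_cases c
        · exact h3.1
        · exact h3.2
      omega
    exact FAC_const g (h1 0) (h1 1)
  have hy0 : y 0 ≠ 0 := by
    intro h1
    apply hγ'
    rw [y00, h1, mul_zero]
  have c0 := hdeg γ (y 0) hy0 y00
  have hu : coeff 0 (y 0) ≠ 0 := by
    intro h1
    apply hy0
    rw [c0, h1, C_0]
  by_cases hy1 : y 1 = 0
  · refine ⟨0, ?_⟩
    rw [zero_smul]
    apply FAC_dpb
    rw [y01, hy1, mul_zero, FAC_pb0, map_zero]
  · have c1 := hdeg α (y 1) hy1 y11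
    refine ⟨coeff 0 (y 1) / coeff 0 (y 0), ?_⟩
    apply FAC_dpb
    rw [FAC_dC, y01, y00]
    have h2 : C (coeff 0 (y 1) / coeff 0 (y 0)) * y 0 = y 1 := by
      have h3 : C (coeff 0 (y 1) / coeff 0 (y 0)) * C (coeff 0 (y 0)) = y 1 := by
        rw [← C_mul, div_mul_cancel₀ _ hu]
        exact c1.symm
      rwa [← c0] at h3
    linear_combination (-(f * y 0)) * h2

end Pool.Agent.T1
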