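import Pool.Agent.T1.BDF

/-!
# T1 / FNB: Belyi functions of curves with bounded webs

`bdd`: `O`, `e`.  `F1 := C e * oF O F0`, homogeneous of degree 3 (`oF_hom`), `dF F1 = C e * dF (oF O F0)` (`dF` is an algebra homomorphism), `Smo (dF F1)` (`smo_oF`, `smo_C`), `BH_dF`.
`ξ' := ov (O⁻¹.map (algebraMap C Φ)) ξ`: `ov (O.map ..) ξ' = ξ` (`Sim.inv`, `ov_ov`, `Matrix.map_mul`), so `ξ' ≠ 0`; `det ξ' = 0`: `Sim (O⁻¹.map (algebraMap C Φ)) 1` (a matrix is a similitude with factor `c` iff `Oᵀ J O = c J`, an identity between matrices: private lemma; or `sim_map`).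
`eval₂ (algebraMap C Φ) ξ' (oF O F0) = eval₂ (algebraMap C Φ) (O ξ') F0 = 0` (induction on `F0` like `eval_oF`).
`hgen'`: let `K = adjoin C {ratios of ξ'}`, `ξ' p q ≠ 0`; `ξ k l = ∑ O (k,l) mn * ξ' mn = ξ' p q * ∑ O (k,l) mn * (ξ' mn / ξ' p q)`, so all `ξ i j / ξ k l = (ξ i j / ξ' p q) / (ξ k l / ξ' p q) ∈ K`: `⊤ = adjoin C {ratios of ξ} ≤ K`.
`gnx` for `F1`, `ξ'`: `x`, `y`; `fgm` for `D = dF F1`, level `c + 200`: `β` of degree `≤ tw (c + 240) s`.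
-/

namespace Pool.Agent.T1

open MvPolynomial Matrix

private def FNB_J (R : Type*) [CommRing R] : Matrix (Fin 2 × Fin 2) (Fin 2 × Fin 2) R :=
  Matrix.of fun a b => if a.1 = b.1 then 0 else if a.2 = b.2 then 0 else if a.1 = a.2 then 1 else -1

private theorem FNB_J_dot {R : Type*} [CommRing R] (v w : Fin 2 × Fin 2 → R) : v ⬝ᵥ (FNB_J R *ᵥ w) =
    v (0, 0) * w (1, 1) + v (1, 1) * w (0, 0) - v (0, 1) * w (1, 0) - v (1, 0) * w (0, 1) := by
  simp only [dotProduct, mulVec, Fintype.sum_prod_type, Fin.sum_univ_two]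
  simp [FNB_J]
  ring

private theorem FNB_ov_det {R : Type*} [CommRing R] (O : Matrix (Fin 2 × Fin 2) (Fin 2 × Fin 2) R)
    (v : Fin 2 × Fin 2 → R) :
    (ov O (Matrix.of fun i j => v (i, j))).det =
      (O *ᵥ v) (0, 0) * (O *ᵥ v) (1, 1) - (O *ᵥ v) (0, 1) * (O *ᵥ v) (1, 0) := by
  rw [det_fin_two]
  rfl

private theorem FNB_polar {R : Type*} [CommRing R] {O : Matrix (Fin 2 × Fin 2) (Fin 2 × Fin 2) R} {c : R}
    (h : Sim O c) (v w : Fin 2 × Fin 2 → R) :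
    (O *ᵥ v) ⬝ᵥ (FNB_J R *ᵥ (O *ᵥ w)) = c * (v ⬝ᵥ (FNB_J R *ᵥ w)) := by
  have h1 := h (Matrix.of fun i j => (v + w) (i, j))
  have h2 := h (Matrix.of fun i j => v (i, j))
  have h3 := h (Matrix.of fun i j => w (i, j))
  rw [FNB_ov_det, det_fin_two] at h1 h2 h3
  rw [mulVec_add] at h1
  rw [FNB_J_dot, FNB_J_dot]
  simp only [Matrix.of_apply, Pi.add_apply] at h1 h2 h3
  linear_combination h1 - h2 - h3

private theorem FNB_gram {R : Type*} [CommRing R] {O : Matrix (Fin 2 × Fin 2) (Fin 2 × Fin 2) R} {c : R}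
    (h : Sim O c) : Oᵀ * FNB_J R * O = c • FNB_J R := by
  ext a b
  have h1 := FNB_polar h (Pi.single a 1) (Pi.single b 1)
  have h2 : (O *ᵥ Pi.single a 1) ⬝ᵥ (FNB_J R *ᵥ (O *ᵥ Pi.single b 1)) =
      (Oᵀ * FNB_J R * O) a b := by
    rw [Matrix.mulVec_mulVec, Matrix.dotProduct_mulVec, ← Matrix.vecMul_transpose,
      Matrix.vecMul_vecMul, ← Matrix.dotProduct_mulVec, single_dotProduct, one_mul,
      Matrix.mulVec_single_one, Matrix.col_apply, Matrix.mul_assoc]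
  rw [h2] at h1
  rw [h1, single_dotProduct, one_mul, Matrix.mulVec_single_one, Matrix.col_apply, Matrix.smul_apply,
    smul_eq_mul]

private theorem FNB_map_J {C Φ : Type*} [Field C] [Field Φ] [Algebra C Φ] :
    (FNB_J C).map (algebraMap C Φ) = FNB_J Φ := by
  ext1 a b
  obtain ⟨a1, a2⟩ := a
  obtain ⟨b1, b2⟩ := b
  fin_cases a1 <;> fin_cases a2 <;> fin_cases b1 <;> fin_cases b2 <;> simp [FNB_J]

private theorem FNB_ov_one {R : Type*} [CommRing R] (x : Matrix (Fin 2) (Fin 2) R) : ov 1 x = x := by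
  ext i j
  simp only [ov, Matrix.of_apply]
  rw [Finset.sum_eq_single (i, j)]
  · simp
  · intro b _ hb
    rw [Matrix.one_apply_ne (Ne.symm hb), zero_mul]
  · intro h
    exact absurd (Finset.mem_univ _) h

private theorem FNB_eval {C Φ : Type*} [Field C] [Field Φ] [Algebra C Φ]
    (O : Matrix (Fin 2 × Fin 2) (Fin 2 × Fin 2) C) (F : MvPolynomial (Fin 2 × Fin 2) C)
    (x : Matrix (Fin 2) (Fin 2) Φ) :
    eval₂ (algebraMap C Φ) (fun ij => x ij.1 ij.2) (oF O F) =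
      eval₂ (algebraMap C Φ) (fun ij => ov (O.map (algebraMap C Φ)) x ij.1 ij.2) F := by
  induction F using MvPolynomial.induction_on with
  | C a => simp [oF]
  | add f g hf hg => rw [map_add, eval₂_add, eval₂_add, hf, hg]
  | mul_X f i hf =>
    rw [map_mul, eval₂_mul, eval₂_mul, hf]
    congr 1
    simp [oF, ov]

theorem sim_map {C Φ : Type*} [Field C] [Field Φ] [Algebra C Φ] (h2 : (2 : C) ≠ 0)
    {O : Matrix (Fin 2 × Fin 2) (Fin 2 × Fin 2) C} {c : C} (h : Sim O c) :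
    Sim (O.map (algebraMap C Φ)) (algebraMap C Φ c) := by
  have h1 := congrArg (fun A : Matrix (Fin 2 × Fin 2) (Fin 2 × Fin 2) C => A.map (algebraMap C Φ))
    (FNB_gram h)
  simp only [Matrix.map_mul] at h1
  have h3 : (c • FNB_J C).map (algebraMap C Φ) = (algebraMap C Φ c) • FNB_J Φ := by
    rw [← FNB_map_J (C := C) (Φ := Φ)]
    ext1 a b
    simp only [Matrix.map_apply, Matrix.smul_apply, smul_eq_mul, map_mul]
  rw [h3, FNB_map_J, Matrix.transpose_map] at h1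
  obtain ⟨O', hO'⟩ : ∃ O', O' = O.map (algebraMap C Φ) := ⟨_, rfl⟩
  rw [← hO'] at h1 ⊢
  intro x
  obtain ⟨N, hN⟩ : ∃ N : Fin 2 × Fin 2 → Φ, N = fun p => x p.1 p.2 := ⟨_, rfl⟩
  have h4 : (O' *ᵥ N) ⬝ᵥ (FNB_J Φ *ᵥ (O' *ᵥ N)) = algebraMap C Φ c * (N ⬝ᵥ (FNB_J Φ *ᵥ N)) := by
    have h5 : (O' *ᵥ N) ⬝ᵥ (FNB_J Φ *ᵥ (O' *ᵥ N)) = N ⬝ᵥ ((O'ᵀ * FNB_J Φ * O') *ᵥ N) := by
      rw [Matrix.mulVec_mulVec, Matrix.dotProduct_mulVec, ← Matrix.vecMul_transpose,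
        Matrix.vecMul_vecMul, ← Matrix.dotProduct_mulVec, Matrix.mul_assoc]
    rw [h5, h1, Matrix.smul_mulVec, dotProduct_smul, smul_eq_mul]
  rw [FNB_J_dot, FNB_J_dot] at h4
  have h6 := FNB_ov_det O' N
  have h7 : (Matrix.of fun i j => N (i, j)) = x := by
    rw [hN]
    rfl
  rw [h7] at h6
  have h8 : (2 : Φ) ≠ 0 := by
    intro h9
    apply h2
    apply (algebraMap C Φ).injective
    rw [map_ofNat, map_zero, h9]
  refine mul_left_cancel₀ h8 ?_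
  rw [h6, det_fin_two]
  rw [hN] at h4 ⊢
  linear_combination h4
theorem fnb {C Φ : Type*} [Field C] [Field Φ] [Algebra C Φ] [Helper11.FunField C Φ] [IsAlgClosed C]
    [CharZero C] {c s : ℕ} (hs : 16 ≤ s) (hc : 2 ≤ c) (F0 : MvPolynomial (Fin 2 × Fin 2) C)
    (hF : F0.IsHomogeneous 3) (hS : Smo (dF F0)) (hU : UNH c s (dF F0)) (ξ : Matrix (Fin 2) (Fin 2) Φ)
    (hξ : ξ ≠ 0) (hdet : ξ.det = 0) (h0 : eval₂ (algebraMap C Φ) (fun ij => ξ ij.1 ij.2) F0 = 0)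
    (hgen : IntermediateField.adjoin C {z : Φ | ∃ i j k l, z = ξ i j / ξ k l} = ⊤) :
    ∃ β : Φ, ESH.IsBelyi C β ∧
      Module.finrank (IntermediateField.adjoin C {β}) Φ ≤ ESH.tw (c + 240) s := by
  obtain ⟨O, e, he, hO, hb⟩ := bdd hs hc F0 hF hS hU
  have h2 : (2 : C) ≠ 0 := two_ne_zero
  have hdF : dF (MvPolynomial.C e * oF O F0) = MvPolynomial.C e * dF (oF O F0) := by
    rw [map_mul]
    congr 1
    unfold dF
    rw [aeval_C]
    rfl
  obtain ⟨F1, hF1⟩ : ∃ F1, F1 = MvPolynomial.C e * oF O F0 := ⟨_, rfl⟩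
  have hF1h : F1.IsHomogeneous 3 := by
    rw [hF1]
    exact (oF_hom O F0 3 hF).C_mul e
  have hF1S : Smo (dF F1) := by
    rw [hF1, hdF]
    exact smo_C he (smo_oF h2 O 1 one_ne_zero hO F0 hS)
  obtain ⟨hOO, -, hOi⟩ := Sim.inv h2 one_ne_zero hO
  obtain ⟨P, hP⟩ : ∃ P, P = O⁻¹.map (algebraMap C Φ) := ⟨_, rfl⟩
  have hO'P : O.map (algebraMap C Φ) * P = 1 := by
    rw [hP, ← Matrix.map_mul, hOO]
    ext a b
    rw [Matrix.map_apply, Matrix.one_apply, Matrix.one_apply]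
    split_ifs <;> simp
  obtain ⟨ξ', hξ'⟩ : ∃ ξ', ξ' = ov P ξ := ⟨_, rfl⟩
  have h1 : ov (O.map (algebraMap C Φ)) ξ' = ξ := by
    rw [hξ', ov_ov, hO'P, FNB_ov_one]
  have hξ'0 : ξ' ≠ 0 := by
    intro h
    apply hξ
    rw [← h1, h]
    ext i j
    simp [ov]
  have hdet' : ξ'.det = 0 := by
    have h3 := sim_map (Φ := Φ) h2 hOi ξ
    rw [hdet, mul_zero, ← hP, ← hξ'] at h3
    exact h3
  have h0' : eval₂ (algebraMap C Φ) (fun ij => ξ' ij.1 ij.2) F1 = 0 := by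
    rw [hF1, eval₂_mul, FNB_eval, h1, h0, mul_zero]
  have hgen' : IntermediateField.adjoin C {z : Φ | ∃ i j k l, z = ξ' i j / ξ' k l} = ⊤ := by
    obtain ⟨p, q, hpq⟩ : ∃ p q, ξ' p q ≠ 0 := by
      by_contra hcon
      push Not at hcon
      exact hξ'0 (Matrix.ext hcon)
    rw [eq_top_iff, ← hgen]
    refine IntermediateField.adjoin_le_iff.2 ?_
    rintro z ⟨i, j, k, l, rfl⟩
    have hm : ∀ k l, ξ k l / ξ' p q ∈
        IntermediateField.adjoin C {z : Φ | ∃ i j k l, z = ξ' i j / ξ' k l} := by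
      intro k l
      have h3 : ξ k l / ξ' p q = ∑ ij : Fin 2 × Fin 2, algebraMap C Φ (O (k, l) ij) *
          (ξ' ij.1 ij.2 / ξ' p q) := by
        conv_lhs => rw [← h1]
        simp only [ov, Matrix.of_apply, Matrix.map_apply, Finset.sum_div, mul_div_assoc]
      rw [h3]
      refine sum_mem fun ij _ => mul_mem (IntermediateField.algebraMap_mem _ _) ?_
      exact IntermediateField.subset_adjoin C _ ⟨_, _, _, _, rfl⟩
    have h4 : ξ i j / ξ k l = (ξ i j / ξ' p q) / (ξ k l / ξ' p q) := by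
      rw [div_div_div_cancel_right₀ hpq]
    rw [h4]
    exact IntermediateField.div_mem _ (hm i j) (hm k l)
  obtain ⟨x, y, hxy, hadj, htr⟩ := gnx F1 hF1h hF1S ξ' hξ'0 hdet' h0' hgen'
  have hD : BH (dF F1) 3 3 := BH_dF hF1h
  have hb' : ∀ i j, Bd (c + 200) s (dco (dF F1) i j) := by
    rw [hF1, hdF]
    exact hb
  exact fgm (dF F1) hD hF1S (c + 200) s hs (by omega) hb' x y hxy hadj htr
end Pool.Agent.T1
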