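import Pool.Agent.T1.FRM
import Pool.Agent.T1.PBR
import Pool.Agent.T1.BDB
import Pool.Agent.PQ.MPB

/-!
# T1 / FRB: the frame of two bounded bitangents is bounded

`F = RB b`.  Choose `ρ` with `ρ⁴ F(u1 × u2) = 1` (`frm_ne`, `IsAlgClosed.exists_pow_nat_eq`).  Levels:
`θ₀ = (b, u1, u2)` (variables `(Fin 4 × Fin 3) ⊕ (Fin 3 ⊕ Fin 3)`), level `c`: `F(u1 × u2)` is `PB θ₀ 520` (`pb_RB`; `cross_apply`), `ρ` is `Bd (c + 10)` (`PB.rt`).
`θ₁ = (θ₀, ρ)`, level `c + 10`: the entries of `4 W` (`W = fW ..`) are `PB θ₁ 1100` (`pb_dRB`), so `det (4 W)` and `adjugate (4 W)` are `PB θ₁ 3400`; `g = W⁻¹ = 4 • (4 W)⁻¹`, entries quotients: `Bd (c + 20)` (`PB.quot`; `Matrix.inv_def`,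
`Ring.inverse_eq_inv'`).  `(det g)⁻¹ = det W`: `Bd (c + 20)` too.
`θ₂ = (b, g)`, level `c + 20`: the values of `R = sb g F` at integral points `x` with `|x i| ≤ 2` are `PB θ₂ 530` (`eval x (sb g F) = eval (g *ᵥ x) F`, `PQ.eval_sb`), so by `cp_val` `12 f`, `12 f'`, `12 A i j` (up to integral multiples) are `PB θ₂ 1100`
(solve the linear system) and `f, f', A i j` are `Bd (c + 30)` (`PB.quot`).  `θ₃ = (f, f', A)`, level `c + 30`: `pp f f' A t = 0`: `8 * pp f f' A t` is a polynomial in `t` with coefficients `PB θ₃ 30`, the coefficient of `t⁵` is `-4 ≠ 0`: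
`PX.root`: `Bd (c + 40)`.
-/

namespace Pool.Agent.T1

open MvPolynomial Matrix
open Pool.Agent.PQ (P3 NS SF sb RB ND l1 lin Bit)

private theorem frb_cross {C : Type*} [Field C] {σ : Type} {θ : σ → C} (u1 u2 : Fin 3 → C)
    (h1 : ∀ i, PB θ 1 (u1 i)) (h2 : ∀ i, PB θ 1 (u2 i)) (i : Fin 3) :
    PB θ 3 (crossProduct u1 u2 i) := by
  have h : ∀ a b : Fin 3, PB θ 2 (u1 a * u2 b) := fun a b => (h1 a).mul (h2 b)
  rw [cross_apply]
  fin_cases i
  · exact (h 1 2).sub (h 2 1)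
  · exact (h 2 0).sub (h 0 2)
  · exact (h 0 1).sub (h 1 0)

private theorem frb_int {C : Type*} [Field C] {σ : Type} {θ : σ → C} (N : ℕ) (n : ℕ)
    (h : n ≤ 2 ^ N) : PB θ N (n : C) := by
  have h1 := PB.int (θ := θ) (N := N) (n : ℤ) (by simpa using h)
  simpa using h1

/-- the polynomial `8 pp` -/
private noncomputable def frbN {C : Type*} [Field C] (f f' : C) (A : Matrix (Fin 3) (Fin 3) C) :
    Matrix (Fin 3) (Fin 3) (Polynomial C) :=
  Matrix.of fun i j => Polynomial.C (2 * A i j) +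
    Polynomial.C (4 * Matrix.diagonal ![-f', -f, 1] i j) * Polynomial.X +
    Polynomial.C ((!![0, 1, 0; 1, 0, 0; 0, 0, 0] : Matrix (Fin 3) (Fin 3) C) i j) * Polynomial.X ^ 2

private theorem frbN_eval {C : Type*} [Field C] [CharZero C] (f f' : C) (A : Matrix (Fin 3) (Fin 3) C)
    (t : C) : (frbN f f' A).det.eval t = 8 * pp f f' A t := by
  have h1 : (frbN f f' A).map (Polynomial.evalRingHom t) = (2 : C) • pA f f' A t := by
    ext i j
    simp only [frbN, pA, Matrix.map_apply, Matrix.of_apply, Matrix.smul_apply, Matrix.add_apply,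
      Polynomial.coe_evalRingHom, Polynomial.eval_add, Polynomial.eval_mul, Polynomial.eval_C,
      Polynomial.eval_X, Polynomial.eval_pow, smul_eq_mul]
    ring
  have h2 := RingHom.map_det (Polynomial.evalRingHom t) (frbN f f' A)
  rw [RingHom.mapMatrix_apply, h1, Polynomial.coe_evalRingHom] at h2
  rw [h2, Matrix.det_smul]
  unfold pp
  simp
  norm_num

private theorem frbN_px {C : Type*} [Field C] {σ : Type} {θ : σ → C} (f f' : C)
    (A : Matrix (Fin 3) (Fin 3) C) (hf : PB θ 1 f) (hf' : PB θ 1 f') (hA : ∀ i j, PB θ 1 (A i j)) :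
    PX θ 24 (frbN f f' A).det := by
  have h2 : PB θ 1 (2 : C) := frb_int 1 2 (by norm_num)
  have h4 : PB θ 2 (4 : C) := frb_int 2 4 (by norm_num)
  have hd : ∀ i j : Fin 3, PB θ 1 (Matrix.diagonal ![-f', -f, 1] i j : C) := by
    intro i j
    by_cases hij : i = j
    · subst hij
      rw [Matrix.diagonal_apply_eq]
      fin_cases i
      · exact hf'.neg
      · exact hf.neg
      · exact PB.one.mono (Nat.zero_le _)
    · rw [Matrix.diagonal_apply_ne _ hij]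
      exact PB.zero.mono (Nat.zero_le _)
  have hJ : ∀ i j : Fin 3, PB θ 0 ((!![0, 1, 0; 1, 0, 0; 0, 0, 0] : Matrix (Fin 3) (Fin 3) C) i j) := by
    intro i j
    fin_cases i <;> fin_cases j <;> first | exact PB.zero | exact PB.one
  have h := PX.det (θ := θ) (N := 6) (frbN f f' A) (fun i j => by
    have e1 : PX θ 2 (Polynomial.C (2 * A i j)) := PX.con (h2.mul (hA i j))
    have e2 : PX θ 4 (Polynomial.C (4 * Matrix.diagonal ![-f', -f, 1] i j) * Polynomial.X) :=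
      (PX.con (h4.mul (hd i j))).mul PX.var
    have e3 : PX θ 2 (Polynomial.C ((!![0, 1, 0; 1, 0, 0; 0, 0, 0] : Matrix (Fin 3) (Fin 3) C) i j) *
        Polynomial.X ^ 2) := by
      have := (PX.con (hJ i j)).mul (PX.var.pow 2 (θ := θ))
      exact this
    exact (e1.add e2).add e3)
  exact h

private theorem frbN_ne {C : Type*} [Field C] [CharZero C] (f f' : C) (A : Matrix (Fin 3) (Fin 3) C) :
    (frbN f f' A).det ≠ 0 := by
  intro h
  have h1 : ∀ t : C, (pA f f' A t).det = 0 := by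
    intro t
    have h2 := frbN_eval f f' A t
    rw [h, Polynomial.eval_zero] at h2
    have h3 : (8 : C) ≠ 0 := by norm_num
    exact (mul_eq_zero.1 h2.symm).resolve_left h3
  have h2 : ∀ t : C,
      (A 0 0 - 2 * t * f') * ((A 1 1 - 2 * t * f) * (A 2 2 + 2 * t)) -
      (A 0 0 - 2 * t * f') * (A 1 2 * A 2 1) -
      (A 0 1 + t ^ 2 / 2) * ((A 1 0 + t ^ 2 / 2) * (A 2 2 + 2 * t)) +
      (A 0 1 + t ^ 2 / 2) * (A 1 2 * A 2 0) +
      A 0 2 * ((A 1 0 + t ^ 2 / 2) * A 2 1) - A 0 2 * ((A 1 1 - 2 * t * f) * A 2 0) = 0 := by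
    intro t
    have h3 := h1 t
    rw [Matrix.det_fin_three] at h3
    simp [pA] at h3
    linear_combination h3
  have e0 := h2 0
  have e1 := h2 1
  have e2 := h2 2
  have e3 := h2 3
  have e4 := h2 4
  have e5 := h2 5
  have h3 : (60 : C) = 0 := by
    linear_combination e0 - 5 * e1 + 10 * e2 - 10 * e3 + 5 * e4 - e5
  norm_num at h3

theorem frb {C : Type*} [Field C] [CharZero C] [IsAlgClosed C] {c s : ℕ} (hs : 16 ≤ s) (hc : 2 ≤ c)
    (b : Fin 4 → Fin 3 → C) (hb : ∀ i r, Bd c s (b i r)) (hNS : NS (RB b)) (u1 u2 : Fin 3 → C)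
    (Q1 Q2 : P3 C) (hb1 : Bit (RB b) u1 Q1) (hb2 : Bit (RB b) u2 Q2) (hx : crossProduct u1 u2 ≠ 0)
    (hu1 : ∀ i, Bd c s (u1 i)) (hu2 : ∀ i, Bd c s (u2 i)) :
    ∃ (g : Matrix (Fin 3) (Fin 3) C) (f f' : C) (A : Matrix (Fin 3) (Fin 3) C), g.det ≠ 0 ∧
      u1 ᵥ* g = Pi.single 0 1 ∧ u2 ᵥ* g = Pi.single 1 1 ∧ CP (sb g (RB b)) f f' A ∧
      Bd (c + 20) s (g.det)⁻¹ ∧ (∀ i j, Bd (c + 30) s (A i j)) ∧
      (∀ t, pp f f' A t = 0 → Bd (c + 40) s t) := by
  have hFh : (RB b).IsHomogeneous 4 := PQ.RQ_hom (PQ.yy b)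
  have hp0 := frm_ne (RB b) hNS u1 u2 Q1 Q2 hb1 hb2 hx
  obtain ⟨ρ, hρ'⟩ := IsAlgClosed.exists_pow_nat_eq (eval (crossProduct u1 u2) (RB b))⁻¹
    (n := 4) (by norm_num)
  have hρ : ρ ^ 4 * eval (crossProduct u1 u2) (RB b) = 1 := by
    rw [hρ', inv_mul_cancel₀ hp0]
  obtain ⟨hW0, hu1g, hu2g, f, f', A, hCP⟩ := frm (RB b) hFh u1 u2 Q1 Q2 hb1 hb2 ρ hρ
  -- level 0
  obtain ⟨θ0, hθ0⟩ : ∃ θ0 : (Fin 4 × Fin 3) ⊕ (Fin 3 ⊕ Fin 3) → C,
    θ0 = Sum.elim (fun x => b x.1 x.2) (Sum.elim u1 u2) := ⟨_, rfl⟩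
  have hθ0b : ∀ i, Bd c s (θ0 i) := by
    rw [hθ0]
    rintro (x | x | x)
    · exact hb _ _
    · exact hu1 _
    · exact hu2 _
  have hb0 : ∀ i r, PB θ0 1 (b i r) := fun i r => by
    have := PB.var (θ := θ0) (Sum.inl (i, r))
    rwa [hθ0] at this ⊢
  have hu10 : ∀ i, PB θ0 1 (u1 i) := fun i => by
    have := PB.var (θ := θ0) (Sum.inr (Sum.inl i))
    rwa [hθ0] at this ⊢
  have hu20 : ∀ i, PB θ0 1 (u2 i) := fun i => by
    have := PB.var (θ := θ0) (Sum.inr (Sum.inr i))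
    rwa [hθ0] at this ⊢
  have hρb : Bd (c + 10) s ρ := by
    refine PB.rt hs hc (N := 4 * 3 + 500) (by norm_num) (by simp) hθ0b 4 (by norm_num) (by norm_num)
      (PB.one.mono (Nat.zero_le _)) (pb_RB b hb0 _ (frb_cross u1 u2 hu10 hu20)) hp0 ?_
    rw [mul_comm]
    exact hρ
  -- level 1
  obtain ⟨θ1, hθ1⟩ : ∃ θ1 : ((Fin 4 × Fin 3) ⊕ (Fin 3 ⊕ Fin 3)) ⊕ Unit → C,
    θ1 = Sum.elim θ0 (fun _ => ρ) := ⟨_, rfl⟩
  have hθ1b : ∀ i, Bd (c + 10) s (θ1 i) := by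
    rw [hθ1]
    rintro (x | x)
    · exact (hθ0b x).mono (by omega)
    · exact hρb
  have h01 : ∀ {N : ℕ} {x : C}, PB θ0 N x → PB θ1 N x := fun h =>
    h.reindex Sum.inl (fun i => by rw [hθ1]; rfl)
  have hρ1 : PB θ1 1 ρ := by
    have := PB.var (θ := θ1) (Sum.inr ())
    rwa [hθ1] at this ⊢
  obtain ⟨W, hW⟩ : ∃ W, W = fW (RB b) u1 u2 (ρ • crossProduct u1 u2) := ⟨_, rfl⟩
  rw [← hW] at hW0 hu1g hu2g hCP
  obtain ⟨V, hV⟩ : ∃ V : Matrix (Fin 3) (Fin 3) C, V = (4 : C) • W := ⟨_, rfl⟩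
  have h4 : PB θ1 2 (4 : C) := frb_int 2 4 (by norm_num)
  have hVe : ∀ i j, PB θ1 1016 (V i j) := by
    intro i j
    rw [hV, Matrix.smul_apply, hW, fW, smul_eq_mul, Matrix.of_apply]
    fin_cases i
    · exact (h4.mul (h01 (hu10 j))).mono (by norm_num)
    · exact (h4.mul (h01 (hu20 j))).mono (by norm_num)
    · change PB θ1 1016 (4 * (eval (ρ • crossProduct u1 u2) (pderiv j (RB b)) / 4))
      rw [mul_div_cancel₀ _ (by norm_num : (4 : C) ≠ 0)]
      have h5 := pb_dRB b (fun i r => h01 (hb0 i r)) (ρ • crossProduct u1 u2) (M := 4) (fun i => by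
        have h6 := hρ1.mul (h01 (frb_cross u1 u2 hu10 hu20 i))
        exact h6) j
      exact h5.mono (by norm_num)
  have hVdet : PB θ1 3060 V.det := (PB.det V hVe).mono (by norm_num [Nat.factorial])
  have hVadj : ∀ i j, PB θ1 3060 (V.adjugate i j) := fun i j =>
    (PB.adj V hVe i j).mono (by norm_num [Nat.factorial])
  have hVd : V.det = 64 * W.det := by
    rw [hV, Matrix.det_smul]
    simp
    norm_num
  have hV0 : V.det ≠ 0 := by
    rw [hVd]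
    exact mul_ne_zero (by norm_num) hW0
  have hginv : W⁻¹ = (4 : C) • V⁻¹ := by
    refine Matrix.inv_eq_left_inv ?_
    have h5 : V⁻¹ * V = 1 := Matrix.nonsing_inv_mul _ (isUnit_iff_ne_zero.2 hV0)
    rw [hV, Matrix.mul_smul] at h5
    rw [Matrix.smul_mul, hV]
    exact h5
  have hgb : ∀ i j, Bd (c + 20) s (W⁻¹ i j) := by
    intro i j
    have h5 : W⁻¹ i j = (4 * V.adjugate i j) / V.det := by
      rw [hginv, Matrix.smul_apply, Matrix.inv_def, Matrix.smul_apply, Ring.inverse_eq_inv',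
        smul_eq_mul, smul_eq_mul]
      field_simp
    rw [h5]
    have h6 := PB.quot hs (by omega : 2 ≤ c + 10) (N := 3062) (by norm_num) (by simp) hθ1b
      ((h4.mul (hVadj i j)).mono (by norm_num)) (hVdet.mono (by norm_num)) hV0
    exact h6.mono (by omega)
  have hdetb : Bd (c + 20) s ((W⁻¹).det)⁻¹ := by
    have h5 : ((W⁻¹).det)⁻¹ = V.det / 64 := by
      rw [Matrix.det_nonsing_inv, Ring.inverse_eq_inv', inv_inv, hVd]
      field_simp
    rw [h5]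
    have h6 := PB.quot hs (by omega : 2 ≤ c + 10) (N := 3062) (by norm_num) (by simp) hθ1b
      (hVdet.mono (by norm_num)) ((frb_int (θ := θ1) 6 64 (by norm_num)).mono (by norm_num))
      (by norm_num)
    exact h6.mono (by omega)
  have hg0 : (W⁻¹).det ≠ 0 := by
    rw [Matrix.det_nonsing_inv, Ring.inverse_eq_inv']
    exact inv_ne_zero hW0
  obtain ⟨g, hg⟩ : ∃ g, g = W⁻¹ := ⟨_, rfl⟩
  rw [← hg] at hu1g hu2g hCP hgb hdetb hg0
  -- level 2
  obtain ⟨θ2, hθ2⟩ : ∃ θ2 : (Fin 4 × Fin 3) ⊕ (Fin 3 × Fin 3) → C,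
    θ2 = Sum.elim (fun x => b x.1 x.2) (fun x => g x.1 x.2) := ⟨_, rfl⟩
  have hθ2b : ∀ i, Bd (c + 20) s (θ2 i) := by
    rw [hθ2]
    rintro (x | x)
    · exact (hb _ _).mono (by omega)
    · exact hgb _ _
  have hb2' : ∀ i r, PB θ2 1 (b i r) := fun i r => by
    have := PB.var (θ := θ2) (Sum.inl (i, r))
    rwa [hθ2] at this ⊢
  have hg2 : ∀ i r, PB θ2 1 (g i r) := fun i r => by
    have := PB.var (θ := θ2) (Sum.inr (i, r))
    rwa [hθ2] at this ⊢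
  have hval : ∀ x : Fin 3 → ℤ, (∀ i, (x i).natAbs ≤ 2) →
      PB θ2 520 (eval (fun i => (x i : C)) (sb g (RB b))) := by
    intro x hx
    rw [PQ.eval_sb]
    have h5 := pb_RB b hb2' (g *ᵥ fun i => (x i : C)) (M := 5) (fun i => by
      have h6 : (g *ᵥ fun i => (x i : C)) i = ∑ j, g i j * (x j : C) := rfl
      rw [h6]
      exact PB.sum Finset.univ (N := 2) _ (fun j _ => (hg2 i j).mul (PB.int (N := 1) (x j) (hx j))))
    exact h5
  obtain ⟨c1, c2, c3, c4, c5, c6, c7, c8⟩ := cp_val hCP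
  have hv : ∀ (y : Fin 3 → C) (x : Fin 3 → ℤ), (∀ i, (x i : C) = y i) → (∀ i, (x i).natAbs ≤ 2) →
      PB θ2 520 (eval y (sb g (RB b))) := by
    intro y x hxy hx
    have h5 : y = fun i => (x i : C) := funext fun i => (hxy i).symm
    rw [h5]
    exact hval x hx
  have v010 := hv ![0, 1, 0] ![0, 1, 0] (by intro i; fin_cases i <;> simp) (by decide)
  have v011 := hv ![0, 1, 1] ![0, 1, 1] (by intro i; fin_cases i <;> simp) (by decide)
  have v100 := hv ![1, 0, 0] ![1, 0, 0] (by intro i; fin_cases i <;> simp) (by decide)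
  have v101 := hv ![1, 0, 1] ![1, 0, 1] (by intro i; fin_cases i <;> simp) (by decide)
  have v110 := hv ![1, 1, 0] ![1, 1, 0] (by intro i; fin_cases i <;> simp) (by decide)
  have v1m0 := hv ![1, -1, 0] ![1, -1, 0] (by intro i; fin_cases i <;> simp) (by decide)
  have v120 := hv ![1, 2, 0] ![1, 2, 0] (by intro i; fin_cases i <;> simp) (by decide)
  have v111 := hv ![1, 1, 1] ![1, 1, 1] (by intro i; fin_cases i <;> simp) (by decide)
  have v11m := hv ![1, 1, -1] ![1, 1, -1] (by intro i; fin_cases i <;> simp) (by decide)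
  have v1m1 := hv ![1, -1, 1] ![1, -1, 1] (by intro i; fin_cases i <;> simp) (by decide)
  obtain ⟨F, hF⟩ : ∃ F, F = sb g (RB b) := ⟨_, rfl⟩
  rw [← hF] at c1 c2 c3 c4 c5 c6 c7 c8 v010 v011 v100 v101 v110 v1m0 v120 v111 v11m v1m1
  have p2 : PB θ2 1 (2 : C) := frb_int 1 2 (by norm_num)
  have p3 : PB θ2 2 (3 : C) := frb_int 2 3 (by norm_num)
  have p4 : PB θ2 2 (4 : C) := frb_int 2 4 (by norm_num)
  have p48 : PB θ2 6 (48 : C) := frb_int 6 48 (by norm_num)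
  have pf : PB θ2 522 (2 * f) := by
    rw [c1]
    exact (PB.one.add v010).sub v011
  have pf' : PB θ2 522 (2 * f') := by
    rw [c2]
    exact (PB.one.add v100).sub v101
  obtain ⟨r1, hr1⟩ : ∃ r1, r1 = 4 * ((f + f') ^ 2 - eval ![1, 1, 0] F) := ⟨_, rfl⟩
  obtain ⟨r2, hr2⟩ : ∃ r2, r2 = 4 * (-((f + f') ^ 2 - eval ![1, -1, 0] F)) := ⟨_, rfl⟩
  obtain ⟨r3, hr3⟩ : ∃ r3, r3 = 4 * ((4 * f + f') ^ 2 - eval ![1, 2, 0] F) := ⟨_, rfl⟩
  obtain ⟨r4, hr4⟩ : ∃ r4, r4 = 4 * ((1 - f - f') ^ 2 - eval ![1, 1, 1] F) := ⟨_, rfl⟩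
  obtain ⟨r5, hr5⟩ : ∃ r5, r5 = 4 * ((1 - f - f') ^ 2 - eval ![1, 1, -1] F) := ⟨_, rfl⟩
  obtain ⟨r6, hr6⟩ : ∃ r6, r6 = 4 * (-((1 - f - f') ^ 2 - eval ![1, -1, 1] F)) := ⟨_, rfl⟩
  have q1 : PB θ2 1060 r1 := by
    have h5 : r1 = (2 * f + 2 * f') ^ 2 - 4 * eval ![1, 1, 0] F := by rw [hr1]; ring
    rw [h5]
    exact (((pf.add pf').pow 2).sub (p4.mul v110)).mono (by norm_num)
  have q2 : PB θ2 1060 r2 := by
    have h5 : r2 = 4 * eval ![1, -1, 0] F - (2 * f + 2 * f') ^ 2 := by rw [hr2]; ring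
    rw [h5]
    exact ((p4.mul v1m0).sub ((pf.add pf').pow 2)).mono (by norm_num)
  have q3 : PB θ2 1060 r3 := by
    have h5 : r3 = (4 * (2 * f) + 2 * f') ^ 2 - 4 * eval ![1, 2, 0] F := by rw [hr3]; ring
    rw [h5]
    exact ((((p4.mul pf).add pf').pow 2).sub (p4.mul v120)).mono (by norm_num)
  have q4 : PB θ2 1060 r4 := by
    have h5 : r4 = (2 - 2 * f - 2 * f') ^ 2 - 4 * eval ![1, 1, 1] F := by rw [hr4]; ring
    rw [h5]
    exact ((((p2.sub pf).sub pf').pow 2).sub (p4.mul v111)).mono (by norm_num)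
  have q5 : PB θ2 1060 r5 := by
    have h5 : r5 = (2 - 2 * f - 2 * f') ^ 2 - 4 * eval ![1, 1, -1] F := by rw [hr5]; ring
    rw [h5]
    exact ((((p2.sub pf).sub pf').pow 2).sub (p4.mul v11m)).mono (by norm_num)
  have q6 : PB θ2 1060 r6 := by
    have h5 : r6 = 4 * eval ![1, -1, 1] F - (2 - 2 * f - 2 * f') ^ 2 := by rw [hr6]; ring
    rw [h5]
    exact ((p4.mul v1m1).sub (((p2.sub pf).sub pf').pow 2)).mono (by norm_num)
  have s1 : r1 = 4 * (A 0 0 + A 1 1 + 2 * A 0 1) := by rw [c3]; exact hr1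
  have s2 : r2 = 4 * (A 0 0 + A 1 1 - 2 * A 0 1) := by rw [c4]; exact hr2
  have s3 : r3 = 4 * (2 * (A 0 0 + 4 * A 1 1 + 4 * A 0 1)) := by rw [c5]; exact hr3
  have s4 : r4 = 4 * (A 0 0 + A 1 1 + A 2 2 + 2 * A 0 1 + 2 * A 0 2 + 2 * A 1 2) := by
    rw [c6]; exact hr4
  have s5 : r5 = 4 * (A 0 0 + A 1 1 + A 2 2 + 2 * A 0 1 - 2 * A 0 2 - 2 * A 1 2) := by
    rw [c7]; exact hr5
  have s6 : r6 = 4 * (A 0 0 + A 1 1 + A 2 2 - 2 * A 0 1 + 2 * A 0 2 - 2 * A 1 2) := by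
    rw [c8]; exact hr6
  have p6 : PB θ2 3 (6 : C) := frb_int 3 6 (by norm_num)
  have hc20 : 2 ≤ c + 20 := by omega
  have key : ∀ x p : C, PB θ2 1100 p → 48 * x = p → Bd (c + 30) s x := by
    intro x p hp hx
    have h5 : x = p / 48 := by
      rw [← hx]
      field_simp
    rw [h5]
    have h6 := PB.quot hs hc20 (N := 1100) (by norm_num) (by simp) hθ2b hp
      (p48.mono (by norm_num)) (by norm_num)
    exact h6.mono (by omega)
  have p24 : PB θ2 5 (24 : C) := frb_int 5 24 (by norm_num)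
  have bf1 : Bd (c + 30) s f := key f (24 * (2 * f)) ((p24.mul pf).mono (by norm_num)) (by ring)
  have bf2 : Bd (c + 30) s f' := key f' (24 * (2 * f')) ((p24.mul pf').mono (by norm_num)) (by ring)
  have b01 : Bd (c + 30) s (A 0 1) := key _ (3 * (r1 - r2))
    ((p3.mul (q1.sub q2)).mono (by norm_num)) (by rw [s1, s2]; ring)
  have b11 : Bd (c + 30) s (A 1 1) := key _ (2 * (r3 - 3 * r1 + r2))
    ((p2.mul ((q3.sub (p3.mul q1)).add q2)).mono (by norm_num)) (by rw [s1, s2, s3]; ring)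
  have b00 : Bd (c + 30) s (A 0 0) := key _ (2 * (6 * r1 + 2 * r2 - r3))
    ((p2.mul (((p6.mul q1).add (p2.mul q2)).sub q3)).mono (by norm_num)) (by rw [s1, s2, s3]; ring)
  have b22 : Bd (c + 30) s (A 2 2) := key _ (6 * (r4 + r5 - 2 * r1))
    ((p6.mul ((q4.add q5).sub (p2.mul q1))).mono (by norm_num)) (by rw [s1, s4, s5]; ring)
  have b02 : Bd (c + 30) s (A 0 2) := key _ (3 * (r1 - r2 - r5 + r6))
    ((p3.mul (((q1.sub q2).sub q5).add q6)).mono (by norm_num)) (by rw [s1, s2, s5, s6]; ring)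
  have b12 : Bd (c + 30) s (A 1 2) := key _ (3 * (r4 - r6 + r2 - r1))
    ((p3.mul (((q4.sub q6).add q2).sub q1)).mono (by norm_num)) (by rw [s1, s2, s4, s6]; ring)
  have hsym : ∀ i j, A i j = A j i := fun i j => (congrFun (congrFun hCP.symm i) j).symm
  have hAb : ∀ i j, Bd (c + 30) s (A i j) := by
    have b10 : Bd (c + 30) s (A 1 0) := by rw [hsym 1 0]; exact b01
    have b20 : Bd (c + 30) s (A 2 0) := by rw [hsym 2 0]; exact b02
    have b21 : Bd (c + 30) s (A 2 1) := by rw [hsym 2 1]; exact b12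
    intro i j
    fin_cases i <;> fin_cases j <;> assumption
  -- level 3
  obtain ⟨θ3, hθ3⟩ : ∃ θ3 : Bool ⊕ (Fin 3 × Fin 3) → C,
    θ3 = Sum.elim (fun x => if x then f else f') (fun x => A x.1 x.2) := ⟨_, rfl⟩
  have hθ3b : ∀ i, Bd (c + 30) s (θ3 i) := by
    rw [hθ3]
    rintro ((x | x) | x)
    · exact bf2
    · exact bf1
    · exact hAb _ _
  have hf3 : PB θ3 1 f := by
    have := PB.var (θ := θ3) (Sum.inl true)
    rwa [hθ3] at this ⊢
  have hf3' : PB θ3 1 f' := by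
    have := PB.var (θ := θ3) (Sum.inl false)
    rwa [hθ3] at this ⊢
  have hA3 : ∀ i j, PB θ3 1 (A i j) := fun i j => by
    have := PB.var (θ := θ3) (Sum.inr (i, j))
    rwa [hθ3] at this ⊢
  refine ⟨g, f, f', A, hg0, hu1g, hu2g, hCP, hdetb, hAb, fun t ht => ?_⟩
  have h6 := PX.root hs (by omega : 2 ≤ c + 30) (N := 24) (by norm_num) (by simp) hθ3b
    (frbN_px f f' A hf3 hf3' hA3) (frbN_ne f f' A) (x := t) (by rw [frbN_eval, ht, mul_zero])
  exact h6.mono (by omega)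

end Pool.Agent.T1
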