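import Pool.Agent.T1.CPE
import Pool.Agent.PQ.BOF
import Pool.Agent.PQ.TRF

/-!
# T1 / FRM: the frame of two bitangents

`p = u1 × u2`, `e = ρ • p`, `F(e) = ρ⁴ F(p) = 1` (homogeneous of degree 4).  `frm_ne`: `F(p) = Q1(p)² ≠ 0` by `PQ.bof`.
`W` = matrix with rows `u1`, `u2`, `u3 j = (1/4) * eval e (pderiv j F)`.  `W *ᵥ e = (0, 0, u3 ⬝ᵥ e) = (0, 0, 1)`: Euler (`∑ e j * eval e (pderiv j F) = 4 F(e) = 4`).  `det W ≠ 0`: `det W * ρ = u3 ⬝ᵥ (u1 × u2) * ρ = u3 ⬝ᵥ e = 1`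
(triple product).  `R := sb W⁻¹ F`: `u1 ᵥ* W⁻¹ = e₀`, `u2 ᵥ* W⁻¹ = e₁` (rows of `W * W⁻¹ = 1`), `PQ.trf_bit`: bitangents `e₀`, `e₁` of `R`.
`eval ![0,0,1] R = eval (W⁻¹ *ᵥ ![0,0,1]) F = F(e) = 1` (`W⁻¹ *ᵥ ![0,0,1] = e`).  Derivatives (chain rule, `eval x (pderiv j (sb g F)) = ∑ i, g i j * eval (g *ᵥ x) (pderiv i F)`): at `(0,0,1)`:
`∑ i, W⁻¹ i j * eval e (pderiv i F) = 4 ∑ i, u3 i * W⁻¹ i j = 4 (W * W⁻¹) 2 j = 0` for `j = 0, 1`.  `cpe`.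
-/

namespace Pool.Agent.T1

open MvPolynomial Matrix
open Pool.Agent.PQ (P3 NS SF sb RB ND l1 lin Bit)

/-- the matrix with rows `u1`, `u2` and the polar line of `e` -/
noncomputable def fW {k : Type*} [Field k] (F : P3 k) (u1 u2 e : Fin 3 → k) : Matrix (Fin 3) (Fin 3) k :=
  Matrix.of ![u1, u2, fun j => eval e (pderiv j F) / 4]

private theorem FRM_euler {k : Type*} [Field k] {F : P3 k} (hF : F.IsHomogeneous 4)
    (e : Fin 3 → k) : ∑ j, e j * eval e (pderiv j F) = 4 * eval e F := by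
  have h := congrArg (eval e) hF.sum_X_mul_pderiv
  rw [map_sum, map_nsmul, nsmul_eq_mul] at h
  simp only [map_mul, eval_X] at h
  exact_mod_cast h

theorem frm_ne {k : Type*} [Field k] (F : P3 k) (hNS : NS F) (u1 u2 : Fin 3 → k) (Q1 Q2 : P3 k)
    (hb1 : Bit F u1 Q1) (hb2 : Bit F u2 Q2) (hx : crossProduct u1 u2 ≠ 0) :
    eval (crossProduct u1 u2) F ≠ 0 := by
  have h1 := (PQ.bof hNS hb1 hb2 hx).1
  obtain ⟨-, S, -, hS⟩ := hb1
  rw [PQ.Bit.eval hS _ (dot_self_cross u1 u2)]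
  exact pow_ne_zero 2 h1

theorem frm {k : Type*} [Field k] [IsAlgClosed k] [CharZero k] (F : P3 k) (hF : F.IsHomogeneous 4)
    (u1 u2 : Fin 3 → k) (Q1 Q2 : P3 k) (hb1 : Bit F u1 Q1) (hb2 : Bit F u2 Q2)
    (ρ : k) (hρ : ρ ^ 4 * eval (crossProduct u1 u2) F = 1) :
    (fW F u1 u2 (ρ • crossProduct u1 u2)).det ≠ 0 ∧
    u1 ᵥ* (fW F u1 u2 (ρ • crossProduct u1 u2))⁻¹ = Pi.single 0 1 ∧
    u2 ᵥ* (fW F u1 u2 (ρ • crossProduct u1 u2))⁻¹ = Pi.single 1 1 ∧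
    ∃ (f f' : k) (A : Matrix (Fin 3) (Fin 3) k),
      CP (sb (fW F u1 u2 (ρ • crossProduct u1 u2))⁻¹ F) f f' A := by
  obtain ⟨e, he⟩ : ∃ e, e = ρ • crossProduct u1 u2 := ⟨_, rfl⟩
  rw [← he]
  have hFe : eval e F = 1 := by
    rw [he, PQ.eval_smul_hom hF, hρ]
  have heu := FRM_euler hF e
  rw [hFe, mul_one] at heu
  have h4 : (4 : k) ≠ 0 := by norm_num
  have r0 : fW F u1 u2 e 0 = u1 := rfl
  have r1 : fW F u1 u2 e 1 = u2 := rfl
  have r2 : fW F u1 u2 e 2 = fun j => eval e (pderiv j F) / 4 := rfl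
  have hdot : ∑ j, (eval e (pderiv j F) / 4) * e j = 1 := by
    have h5 : ∑ j, (eval e (pderiv j F) / 4) * e j = (∑ j, e j * eval e (pderiv j F)) / 4 := by
      rw [Finset.sum_div]
      exact Finset.sum_congr rfl fun j _ => by ring
    rw [h5, heu, div_self h4]
  have hWe : fW F u1 u2 e *ᵥ e = ![0, 0, 1] := by
    ext i
    fin_cases i
    · change u1 ⬝ᵥ e = 0
      rw [he, dotProduct_smul, dot_self_cross, smul_zero]
    · change u2 ⬝ᵥ e = 0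
      rw [he, dotProduct_smul, dot_cross_self, smul_zero]
    · exact hdot
  have hdet : (fW F u1 u2 e).det * ρ = 1 := by
    have h6 : (fW F u1 u2 e).det =
        ∑ j, (eval e (pderiv j F) / 4) * (crossProduct u1 u2) j := by
      rw [Matrix.det_fin_three, Fin.sum_univ_three, r0, r1, r2]
      simp only [cross_apply, Matrix.cons_val_zero, Matrix.cons_val_one, Matrix.cons_val]
      ring
    rw [h6, ← hdot, Finset.sum_mul]
    refine Finset.sum_congr rfl fun j _ => ?_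
    rw [he, Pi.smul_apply, smul_eq_mul]
    ring
  have hdet' : (fW F u1 u2 e).det ≠ 0 := left_ne_zero_of_mul_eq_one hdet
  have hu : IsUnit (fW F u1 u2 e).det := isUnit_iff_ne_zero.2 hdet'
  have hv1 : u1 ᵥ* (fW F u1 u2 e)⁻¹ = Pi.single 0 1 := by
    have h7 : u1 = Pi.single (0 : Fin 3) (1 : k) ᵥ* fW F u1 u2 e := by
      rw [Matrix.single_one_vecMul]
      rfl
    conv_lhs => rw [h7]
    rw [Matrix.vecMul_vecMul, ← h7, Matrix.mul_nonsing_inv _ hu, Matrix.vecMul_one]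
  have hv2 : u2 ᵥ* (fW F u1 u2 e)⁻¹ = Pi.single 1 1 := by
    have h7 : u2 = Pi.single (1 : Fin 3) (1 : k) ᵥ* fW F u1 u2 e := by
      rw [Matrix.single_one_vecMul]
      rfl
    conv_lhs => rw [h7]
    rw [Matrix.vecMul_vecMul, ← h7, Matrix.mul_nonsing_inv _ hu, Matrix.vecMul_one]
  refine ⟨hdet', hv1, hv2, ?_⟩
  have hie : (fW F u1 u2 e)⁻¹ *ᵥ ![0, 0, 1] = e := by
    rw [← hWe, Matrix.mulVec_mulVec, Matrix.nonsing_inv_mul _ hu, Matrix.one_mulVec]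
  have b1 := PQ.trf_bit (fW F u1 u2 e)⁻¹ hb1
  have b2 := PQ.trf_bit (fW F u1 u2 e)⁻¹ hb2
  rw [hv1] at b1
  rw [hv2] at b2
  have hder : ∀ j : Fin 3, j ≠ 2 → eval ![0, 0, 1] (pderiv j (sb (fW F u1 u2 e)⁻¹ F)) = 0 := by
    intro j hj
    rw [PQ.pderiv_sb, map_sum]
    simp only [map_mul, eval_C, PQ.eval_sb, hie]
    have h8 : (fW F u1 u2 e * (fW F u1 u2 e)⁻¹) 2 j = 0 := by
      rw [Matrix.mul_nonsing_inv _ hu, Matrix.one_apply_ne (Ne.symm hj)]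
    rw [Matrix.mul_apply] at h8
    have h9 : ∑ i, (fW F u1 u2 e)⁻¹ i j * eval e (pderiv i F) =
        4 * ∑ i, fW F u1 u2 e 2 i * (fW F u1 u2 e)⁻¹ i j := by
      rw [Finset.mul_sum]
      refine Finset.sum_congr rfl fun i _ => ?_
      rw [r2]
      field_simp
    rw [h9, h8, mul_zero]
  exact cpe (sb (fW F u1 u2 e)⁻¹ F) (PQ.sb_hom _ hF) _ _ b1 b2
    (by rw [PQ.eval_sb, hie, hFe]) (hder 0 (by decide)) (hder 1 (by decide))

end Pool.Agent.T1
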