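import Pool.Agent.T1.LSB

/-!
# T1 / SPU: diagonal forms with square coefficients are split

`w = 1/2`, `I² = -1`, `f i = 1 / e i`.  Put `X i = f i * Y i`, so `∑ e i² X i² = ∑ Y i² = (Y₀ + I Y₁) (Y₀ - I Y₁) - (- (Y₂ + I Y₃)) (Y₂ - I Y₃)`.
`spe`: `X₀₀ = Y₀ + I Y₁`, `X₁₁ = Y₀ - I Y₁`, `X₀₁ = - (Y₂ + I Y₃)`, `X₁₀ = Y₂ - I Y₃`; conversely `Y₀ = w (X₀₀ + X₁₁)`, `Y₁ = - I w (X₀₀ - X₁₁)`, `Y₂ = w (X₁₀ - X₀₁)`, `Y₃ = I w (X₀₁ + X₁₀)` (check: `Y₂ + I Y₃ = w (X₁₀ - X₀₁) - w (X₀₁ + X₁₀) = - X₀₁`,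
`Y₂ - I Y₃ = X₁₀`).  Row `i` of `ψ` is `f i` times the coefficient vector of `Y i`; `ψ'` is the matrix of the `X_kl` in terms of `X i = f i Y i`, `Y i = e i X i`.
`spc`: only three non-zero coefficients, index `m` with coefficient zero: after a permutation `m = 3`; `Y₀² + Y₁² + Y₂² = X₀ X₂ - X₁²`: `X₀ = Y₀ + I Y₁`, `X₂ = Y₀ - I Y₁`, `X₁ = I Y₂`, `X₃ = X m`.
The functions `e` have `e m` arbitrary (`= 1`), the coefficient of `X m ^ 2` is zero.
Last statements: all entries of `ψ` are integral polynomials in `w, I, f i`; `φ₁ w = φ₂ w` since `2 w = 1`, `φ₁ (f i) = φ₂ (f i)` since `e i f i = 1`.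
-/

namespace Pool.Agent.T1

open MvPolynomial Matrix

private theorem SPU_ls_X {R : Type*} [CommRing R] {ι κ : Type*} [Fintype κ] (g : Matrix ι κ R) (i : ι) :
    ls g (X i) = ∑ j, C (g i j) * X j := by
  unfold ls
  exact aeval_X _ _

private theorem SPU_half {R S : Type*} [CommRing R] [CommRing S] {w : R} (hw : 2 * w = 1)
    (φ₁ φ₂ : R →+* S) : φ₁ w = φ₂ w := by
  have h1 : 2 * φ₁ w = 1 := by
    have := congrArg φ₁ hw
    rwa [map_mul, map_one, map_ofNat] at this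
  have h2 : 2 * φ₂ w = 1 := by
    have := congrArg φ₂ hw
    rwa [map_mul, map_one, map_ofNat] at this
  linear_combination (φ₂ w) * h1 - (φ₁ w) * h2

private theorem SPU_inv {R S : Type*} [CommRing R] [CommRing S] {e f : R} (hef : e * f = 1)
    (φ₁ φ₂ : R →+* S) (he : φ₁ e = φ₂ e) : φ₁ f = φ₂ f := by
  have h1 : φ₁ e * φ₁ f = 1 := by
    have := congrArg φ₁ hef
    rwa [map_mul, map_one] at this
  have h2 : φ₂ e * φ₂ f = 1 := by
    have := congrArg φ₂ hef
    rwa [map_mul, map_one] at this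
  linear_combination (φ₂ f) * h1 - (φ₁ f) * h2 - φ₁ f * φ₂ f * he

/-- the matrix of the linear forms `Y i` in `V₄` -/
private def SPU_A {R : Type*} [CommRing R] (w I : R) : Matrix (Fin 4) (Fin 2 × Fin 2) R :=
  Matrix.of fun i j =>
    (![!![w, 0; 0, w], !![-(I * w), 0; 0, I * w], !![0, -w; w, 0], !![0, I * w; I * w, 0]] i :
      Matrix (Fin 2) (Fin 2) R) j.1 j.2

private def SPU_B {R : Type*} [CommRing R] (I : R) : Matrix (Fin 2 × Fin 2) (Fin 4) R :=
  Matrix.of fun j i =>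
    (![!![1, 0; 0, 1], !![I, 0; 0, -I], !![0, -1; 1, 0], !![0, -I; -I, 0]] i :
      Matrix (Fin 2) (Fin 2) R) j.1 j.2

private theorem SPU_AB {R : Type*} [CommRing R] (w : R) (hw : 2 * w = 1) (I : R) (hI : I ^ 2 = -1) :
    SPU_A w I * SPU_B I = 1 := by
  ext i j
  rw [Matrix.mul_apply, Fintype.sum_prod_type]
  simp only [Fin.sum_univ_two]
  fin_cases i <;> fin_cases j <;> simp [SPU_A, SPU_B] <;>
    first
    | ring1
    | linear_combination hw
    | linear_combination hw - 2 * w * hI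

private theorem SPU_BA {R : Type*} [CommRing R] (w : R) (hw : 2 * w = 1) (I : R) (hI : I ^ 2 = -1) :
    SPU_B I * SPU_A w I = 1 := by
  ext ⟨i, i'⟩ ⟨j, j'⟩
  rw [Matrix.mul_apply]
  simp only [Fin.sum_univ_four]
  fin_cases i <;> fin_cases i' <;> fin_cases j <;> fin_cases j' <;> simp [SPU_A, SPU_B] <;>
    first
    | ring1
    | linear_combination hw - w * hI
    | linear_combination w * hI
    | linear_combination - w * hI

/-- the matrix of the linear forms `Y i` in four variables -/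
private def SPU_A' {R : Type*} [CommRing R] (w I : R) : Matrix (Fin 4) (Fin 4) R :=
  !![w, 0, w, 0; -(I * w), 0, I * w, 0; 0, -I, 0, 0; 0, 0, 0, 1]

private def SPU_B' {R : Type*} [CommRing R] (I : R) : Matrix (Fin 4) (Fin 4) R :=
  !![1, I, 0, 0; 0, 0, I, 0; 1, -I, 0, 0; 0, 0, 0, 1]

private theorem SPU_AB' {R : Type*} [CommRing R] (w : R) (hw : 2 * w = 1) (I : R) (hI : I ^ 2 = -1) :
    SPU_A' w I * SPU_B' I = 1 := by
  ext i j
  rw [Matrix.mul_apply]
  simp only [Fin.sum_univ_four]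
  fin_cases i <;> fin_cases j <;> simp [SPU_A', SPU_B'] <;>
    first
    | ring1
    | linear_combination hw
    | linear_combination hw - 2 * w * hI
    | linear_combination - hI

private theorem SPU_BA' {R : Type*} [CommRing R] (w : R) (hw : 2 * w = 1) (I : R) (hI : I ^ 2 = -1) :
    SPU_B' I * SPU_A' w I = 1 := by
  ext i j
  rw [Matrix.mul_apply]
  simp only [Fin.sum_univ_four]
  fin_cases i <;> fin_cases j <;> simp [SPU_A', SPU_B'] <;>
    first
    | ring1
    | linear_combination hw - w * hI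
    | linear_combination w * hI
    | linear_combination - w * hI
    | linear_combination - hI

private theorem SPU_diag {R : Type*} [CommRing R] (e f : Fin 4 → R) (hef : ∀ i, e i * f i = 1) :
    Matrix.diagonal f * Matrix.diagonal e = 1 := by
  rw [Matrix.diagonal_mul_diagonal, ← Matrix.diagonal_one]
  congr 1
  ext i
  rw [mul_comm]
  exact hef i

private theorem SPU_diag' {R : Type*} [CommRing R] (e f : Fin 4 → R) (hef : ∀ i, e i * f i = 1) :
    Matrix.diagonal e * Matrix.diagonal f = 1 := by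
  rw [Matrix.diagonal_mul_diagonal, ← Matrix.diagonal_one]
  congr 1
  ext i
  exact hef i

theorem spe {R : Type*} [CommRing R] (w : R) (hw : 2 * w = 1) (I : R) (hI : I ^ 2 = -1) (e f : Fin 4 → R)
    (hef : ∀ i, e i * f i = 1) :
    ∃ (ψ : Matrix (Fin 4) (Fin 2 × Fin 2) R) (ψ' : Matrix (Fin 2 × Fin 2) (Fin 4) R), ψ * ψ' = 1 ∧
      ψ' * ψ = 1 ∧ ls ψ (∑ i, C (e i ^ 2) * X i ^ 2) = qd R ∧
      ∀ {S : Type*} [CommRing S] (φ₁ φ₂ : R →+* S), φ₁ I = φ₂ I → (∀ i, φ₁ (e i) = φ₂ (e i)) →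
        ∀ i j, φ₁ (ψ i j) = φ₂ (ψ i j) := by
  refine ⟨Matrix.diagonal f * SPU_A w I, SPU_B I * Matrix.diagonal e, ?_, ?_, ?_, ?_⟩
  · rw [Matrix.mul_assoc, ← Matrix.mul_assoc (SPU_A w I), SPU_AB w hw I hI, Matrix.one_mul]
    exact SPU_diag e f hef
  · rw [Matrix.mul_assoc, ← Matrix.mul_assoc (Matrix.diagonal e), SPU_diag' e f hef, Matrix.one_mul]
    exact SPU_BA w hw I hI
  · have hX : ∀ i, ls (Matrix.diagonal f * SPU_A w I) (X i) =
        C (f i) * ∑ j, C (SPU_A w I i j) * X j := by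
      intro i
      rw [SPU_ls_X, Finset.mul_sum]
      refine Finset.sum_congr rfl fun j _ => ?_
      rw [Matrix.diagonal_mul, map_mul, mul_assoc]
    have hC : ∀ c : R, ls (Matrix.diagonal f * SPU_A w I) (C c) = C c := fun c => by
      unfold ls
      exact algHom_C _ _
    rw [map_sum]
    have h1 : ∀ i, ls (Matrix.diagonal f * SPU_A w I) (C (e i ^ 2) * X i ^ 2) =
        (∑ j, C (SPU_A w I i j) * X j) ^ 2 := by
      intro i
      rw [map_mul, map_pow (ls (Matrix.diagonal f * SPU_A w I)), hC, hX]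
      have h2 : (C (e i) * C (f i) : MvPolynomial (Fin 2 × Fin 2) R) = 1 := by
        rw [← map_mul, hef, map_one]
      rw [map_pow]
      linear_combination ((∑ j, C (SPU_A w I i j) * X j) ^ 2 *
        (C (e i) * C (f i) + 1) : MvPolynomial (Fin 2 × Fin 2) R) * h2
    rw [Finset.sum_congr rfl fun i _ => h1 i]
    have hw' : (2 * C w : MvPolynomial (Fin 2 × Fin 2) R) = 1 := by
      have := congrArg (C : R → MvPolynomial (Fin 2 × Fin 2) R) hw
      rwa [map_mul, map_ofNat, map_one] at this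
    have hI' : (C I ^ 2 : MvPolynomial (Fin 2 × Fin 2) R) = -1 := by
      have := congrArg (C : R → MvPolynomial (Fin 2 × Fin 2) R) hI
      simpa using this
    simp only [Fin.sum_univ_four, Fintype.sum_prod_type, Fin.sum_univ_two]
    simp only [SPU_A, Matrix.of_apply, Matrix.cons_val_zero, Matrix.cons_val_one, Matrix.cons_val',
      Matrix.cons_val, Matrix.cons_val_fin_one, map_zero, map_neg, map_mul, zero_mul, add_zero,
      zero_add]
    unfold qd
    linear_combination ((C w) ^ 2 * ((X (0, 0) - X (1, 1)) ^ 2 + (X (0, 1) + X (1, 0)) ^ 2) :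
      MvPolynomial (Fin 2 × Fin 2) R) * hI' +
      ((X (0, 0) * X (1, 1) - X (0, 1) * X (1, 0)) * (2 * C w + 1) :
      MvPolynomial (Fin 2 × Fin 2) R) * hw'
  · intro S _ φ₁ φ₂ h1 h2 i j
    have hw1 := SPU_half hw φ₁ φ₂
    rw [Matrix.diagonal_mul, map_mul, map_mul, SPU_inv (hef i) φ₁ φ₂ (h2 i)]
    congr 1
    obtain ⟨j, j'⟩ := j
    fin_cases i <;> fin_cases j <;> fin_cases j' <;> simp [SPU_A, h1, hw1]

private theorem SPU_three {R : Type*} [CommRing R] (w : R) (hw : 2 * w = 1) (I : R)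
    (hI : I ^ 2 = -1) (e f : Fin 4 → R) (hef : ∀ i, e i * f i = 1) :
    ∃ (ψ ψ' : Matrix (Fin 4) (Fin 4) R), ψ * ψ' = 1 ∧ ψ' * ψ = 1 ∧
      ∑ i, C (if i = 3 then 0 else e i ^ 2) * (∑ j, C (ψ i j) * X j) ^ 2 = qc R ∧
      (∀ i, ψ i 3 = if i = 3 then 1 else 0) ∧
      ∀ {S : Type*} [CommRing S] (φ₁ φ₂ : R →+* S), φ₁ I = φ₂ I → (∀ i, φ₁ (e i) = φ₂ (e i)) →
        ∀ i j, φ₁ (ψ i j) = φ₂ (ψ i j) := by
  let e' : Fin 4 → R := ![e 0, e 1, e 2, 1]
  let f' : Fin 4 → R := ![f 0, f 1, f 2, 1]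
  have hef' : ∀ i, e' i * f' i = 1 := by
    intro i
    fin_cases i
    · exact hef 0
    · exact hef 1
    · exact hef 2
    · exact one_mul 1
  refine ⟨Matrix.diagonal f' * SPU_A' w I, SPU_B' I * Matrix.diagonal e', ?_, ?_, ?_, ?_, ?_⟩
  · rw [Matrix.mul_assoc, ← Matrix.mul_assoc (SPU_A' w I), SPU_AB' w hw I hI, Matrix.one_mul]
    exact SPU_diag e' f' hef'
  · rw [Matrix.mul_assoc, ← Matrix.mul_assoc (Matrix.diagonal e'), SPU_diag' e' f' hef',
      Matrix.one_mul]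
    exact SPU_BA' w hw I hI
  · have hw' : (2 * C w : MvPolynomial (Fin 4) R) = 1 := by
      have := congrArg (C : R → MvPolynomial (Fin 4) R) hw
      rwa [map_mul, map_ofNat, map_one] at this
    have hI' : (C I ^ 2 : MvPolynomial (Fin 4) R) = -1 := by
      have := congrArg (C : R → MvPolynomial (Fin 4) R) hI
      simpa using this
    have h2 : ∀ i, (C (e i) * C (f i) : MvPolynomial (Fin 4) R) = 1 := fun i => by
      rw [← map_mul, hef, map_one]
    simp only [Fin.sum_univ_four, Matrix.diagonal_mul]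
    simp only [SPU_A', f', Matrix.of_apply, Matrix.cons_val_zero, Matrix.cons_val_one,
      Matrix.cons_val', Matrix.cons_val, Matrix.cons_val_fin_one, map_zero, map_neg, map_mul,
      zero_mul, add_zero, zero_add, mul_zero, if_true]
    rw [if_neg (by decide), if_neg (by decide), if_neg (by decide)]
    rw [map_pow, map_pow, map_pow]
    unfold qc
    have k0 := h2 0
    have k1 := h2 1
    have k2 := h2 2
    linear_combination (exp := 1)
      ((C w) ^ 2 * (X 0 + X 2) ^ 2 * (C (e 0) * C (f 0) + 1) : MvPolynomial (Fin 4) R) * k0 +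
      ((C I) ^ 2 * (C w) ^ 2 * (X 0 - X 2) ^ 2 * (C (e 1) * C (f 1) + 1) :
        MvPolynomial (Fin 4) R) * k1 +
      ((C I) ^ 2 * (X 1) ^ 2 * (C (e 2) * C (f 2) + 1) : MvPolynomial (Fin 4) R) * k2 +
      ((C w) ^ 2 * (X 0 - X 2) ^ 2 + X 1 ^ 2 : MvPolynomial (Fin 4) R) * hI' +
      (X 0 * X 2 * (2 * C w + 1) : MvPolynomial (Fin 4) R) * hw'
  · intro i
    rw [Matrix.diagonal_mul]
    fin_cases i <;> simp [SPU_A', f']
  · intro S _ φ₁ φ₂ h1 h2 i j
    have hw1 := SPU_half hw φ₁ φ₂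
    rw [Matrix.diagonal_mul, map_mul, map_mul]
    have hf : φ₁ (f' i) = φ₂ (f' i) := by
      fin_cases i
      · exact SPU_inv (hef 0) φ₁ φ₂ (h2 0)
      · exact SPU_inv (hef 1) φ₁ φ₂ (h2 1)
      · exact SPU_inv (hef 2) φ₁ φ₂ (h2 2)
      · exact (map_one φ₁).trans (map_one φ₂).symm
    rw [hf]
    congr 1
    fin_cases i <;> fin_cases j <;> simp [SPU_A', h1, hw1]

theorem spc {R : Type*} [CommRing R] (w : R) (hw : 2 * w = 1) (I : R) (hI : I ^ 2 = -1) (m : Fin 4)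
    (e f : Fin 4 → R) (hef : ∀ i, e i * f i = 1) :
    ∃ (ψ ψ' : Matrix (Fin 4) (Fin 4) R), ψ * ψ' = 1 ∧ ψ' * ψ = 1 ∧
      ls ψ (∑ i, C (if i = m then 0 else e i ^ 2) * X i ^ 2) = qc R ∧
      ψ *ᵥ Pi.single 3 1 = Pi.single m 1 ∧
      ∀ {S : Type*} [CommRing S] (φ₁ φ₂ : R →+* S), φ₁ I = φ₂ I → (∀ i, φ₁ (e i) = φ₂ (e i)) →
        ∀ i j, φ₁ (ψ i j) = φ₂ (ψ i j) := by
  obtain ⟨ψ, ψ', h1, h2, h3, h4, h5⟩ := SPU_three w hw I hI (fun i => e (Equiv.swap m 3 i))
    (fun i => f (Equiv.swap m 3 i)) (fun i => hef _)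
  set τ : Equiv.Perm (Fin 4) := Equiv.swap m 3 with hτ
  have hττ : ∀ i, τ (τ i) = i := fun i => Equiv.swap_apply_self m 3 i
  refine ⟨ψ.submatrix τ id, ψ'.submatrix id τ, ?_, ?_, ?_, ?_, ?_⟩
  · have h := Matrix.submatrix_mul_equiv ψ ψ' τ (Equiv.refl _) τ
    have h' : ψ.submatrix τ id * ψ'.submatrix id τ = (ψ * ψ').submatrix τ τ := h
    rw [h', h1, Matrix.submatrix_one_equiv]
  · have h := Matrix.submatrix_mul_equiv ψ' ψ id τ id
    rw [h, h2, Matrix.submatrix_id_id]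
  · have hX : ∀ i, ls (ψ.submatrix τ id) (X i) = ∑ j, C (ψ (τ i) j) * X j := fun i => by
      rw [SPU_ls_X]
      rfl
    have hC : ∀ c : R, ls (ψ.submatrix τ id) (C c) = C c := fun c => by
      unfold ls
      exact algHom_C _ _
    rw [map_sum, ← h3, ← Equiv.sum_comp τ]
    refine Finset.sum_congr rfl fun i _ => ?_
    rw [map_mul, map_pow (ls (ψ.submatrix τ id)), hC, hX, hττ]
    congr 2
    have hm : τ i = m ↔ i = 3 := by
      constructor
      · intro h
        have := congrArg τ h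
        rw [hττ, hτ, Equiv.swap_apply_left] at this
        exact this
      · intro h
        rw [h, hτ, Equiv.swap_apply_right]
    by_cases hi : i = 3
    · rw [if_pos hi, if_pos (hm.2 hi)]
    · rw [if_neg hi, if_neg fun h => hi (hm.1 h)]
  · ext i
    rw [Matrix.mulVec_single_one]
    change ψ (τ i) 3 = _
    rw [h4]
    by_cases hi : i = m
    · subst hi
      rw [Pi.single_eq_same, hτ, Equiv.swap_apply_left, if_pos rfl]
    · rw [Pi.single_eq_of_ne hi, if_neg]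
      intro h
      have := congrArg τ h
      rw [hττ, hτ, Equiv.swap_apply_right] at this
      exact hi this
  · intro S _ φ₁ φ₂ k1 k2 i j
    exact h5 φ₁ φ₂ k1 (fun i => k2 _) (τ i) j

end Pool.Agent.T1
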