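import Pool.Agent.T1.MDC
import Pool.Agent.T1.SPU
import Pool.Agent.T1.CMP
import Pool.Agent.G4.HER

/-!
# T1 / KLO: local models on the cone

`mdc`: `g, c, u, l, d, F'`, and `m` with `d m = 0`, `d i` units for `i ≠ m`.  Square roots `e i ^ 2 = d i` in `V` (`i ≠ m`), `e m = 1`, `I ^ 2 = -1`, `w = 1/2`; fixed by inertia (`G4.her_fix`), see `LMQ`.  `spc` over `V`: `ψ, ψ'`, `ls ψ (∑ d i X i ^ 2) = qc`, `ψ e₃ = e_m`.
`G' := ls ψ F' : MvPolynomial (Fin 4) V`, homogeneous of degree 3, fixed by inertia.  `ε := eval e₃ G' = eval e_m F'` (`eval_ls`); its residue is not zero by `rkq_v` for the reduction, so `ε` is a unit.  `cqt` over `V`: `B`, `cq G' = C ε * tri B`.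
`NS (tri B̄)`: `CN.tr` with `ψ̄` gives `CN qc Ḡ'`; `cqn` (`cq_map`, `G4.map_tri`).  `Fx K V (B i)`: `σ` fixes `map G'`, `ε`, so `tri` of the mapped `B` (cancel `C ε`), `tri_inj`.
`Tr`: over `C`: `ψ_C := φ' * g * ψ` (mapped): `ls φ (..)`: `ls ψ_C qc = ls (φ' g ψ) (ls φ Q) = ls ψ (ls g Q) = C c⁻¹ * qc` (`φ * φ' = 1`); `map G' = ls ψ (C u * ls g F + l * ∑ ..) = C u * ls ψ_C (ls φ F) + ls ψ l * qc`.  `cmp` with `G := ls φ F`, `G' := map G'`.
-/

namespace Pool.Agent.T1

open MvPolynomial Matrix NumberField IsDedekindDomain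
open Pool.Agent.G4 (P2 tri TH Tr)
open Pool.Agent.PQ (P3 NS)

private theorem KLO_sqrt {C : Type*} [Field C] [IsAlgClosed C] (V : ValuationSubring C) (x : V) :
    ∃ z : V, z ^ 2 = x := by
  obtain ⟨z, hz⟩ := IsAlgClosed.exists_pow_nat_eq (x : C) (n := 2) (by norm_num)
  have h1 : V.valuation z ≤ 1 := by
    have h2 : V.valuation z ^ 2 ≤ 1 := by
      rw [← map_pow, hz]
      exact V.valuation_le_one x
    exact (pow_le_one_iff (by norm_num)).1 h2
  refine ⟨⟨z, (V.valuation_le_one_iff z).1 h1⟩, ?_⟩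
  exact Subtype.ext hz

private theorem KLO_sum {R S : Type*} [CommRing R] [CommRing S] (φ : R →+* S)
    (ψ : Matrix (Fin 4) (Fin 4) R) (d : Fin 4 → R)
    (h3 : ls ψ (∑ i, MvPolynomial.C (d i) * X i ^ 2) = qc R) :
    ls (ψ.map φ) (∑ i, MvPolynomial.C (φ (d i)) * X i ^ 2) = qc S := by
  rw [← map_qc φ, ← h3, map_ls]
  congr 1
  simp only [map_sum, map_mul, map_pow, map_C, map_X]

private theorem KLO_eval {R S : Type*} [CommRing R] [CommRing S] (φ : R →+* S) (i : Fin 4)
    (F : MvPolynomial (Fin 4) R) :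
    φ (eval (Pi.single i 1) F) = eval (Pi.single i 1) (map φ F) := by
  induction F using MvPolynomial.induction_on with
  | C a => rw [map_C, eval_C, eval_C]
  | add f g hf hg => rw [map_add, map_add, map_add, map_add, hf, hg]
  | mul_X f j hf =>
    rw [map_mul, map_mul, map_mul, map_mul, hf, map_X, eval_X, eval_X]
    congr 1
    by_cases hj : j = i
    · subst hj
      rw [Pi.single_eq_same, Pi.single_eq_same, map_one]
    · rw [Pi.single_eq_of_ne hj, Pi.single_eq_of_ne hj, map_zero]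

theorem klo {K C : Type*} [Field K] [NumberField K] [Field C] [Algebra K C] [Algebra.IsAlgebraic K C]
    [IsAlgClosed C] (T : Finset (HeightOneSpectrum (𝓞 K))) (Q F : MvPolynomial (Fin 4) K)
    (hQ : Q.IsHomogeneous 2) (hF : F.IsHomogeneous 3) (hd : (hs Q).det = 0) (hT : GoodCO T Q F)
    (φ φ' : Matrix (Fin 4) (Fin 4) C) (hφ : φ * φ' = 1) (hφ' : φ' * φ = 1)
    (hQφ : ls φ (map (algebraMap K C) Q) = qc C) (e : C) (he : e ≠ 0) (A : Fin 3 → P2 C) (hA : TH A)
    (h : cq (ls φ (map (algebraMap K C) F)) = MvPolynomial.C e * tri A)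
    (V : ValuationSubring C) (hV : ESH.GoodV T 3 V) : LocC K V A := by
  obtain ⟨g, c, u, l, d, F', hg, hc, hu, hFh, hQe, hFe, hCN, -, hz, hσd, hFx⟩ :=
    mdc T Q F hQ hF hT V hV
  obtain ⟨m, hm, hmu⟩ := hz hd
  obtain ⟨h2, h2u⟩ := val_two (K := K) T V hV
  obtain ⟨w, hw⟩ := h2u.exists_right_inv
  obtain ⟨I, hI⟩ := KLO_sqrt V (-1)
  choose e₁ he₁ using fun i => KLO_sqrt V (d i)
  obtain ⟨e₂, he₂⟩ : ∃ e₂ : Fin 4 → V, e₂ = fun i => if i = m then 1 else e₁ i := ⟨_, rfl⟩
  have hem : e₂ m = 1 := by rw [he₂]; exact if_pos rfl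
  have hei : ∀ i, i ≠ m → e₂ i ^ 2 = d i := by
    intro i hi
    rw [he₂]
    change (if i = m then 1 else e₁ i) ^ 2 = d i
    rw [if_neg hi, he₁]
  have heu : ∀ i, IsUnit (e₂ i) := by
    intro i
    by_cases hi : i = m
    · rw [hi, hem]
      exact isUnit_one
    · refine isUnit_of_mul_isUnit_left (y := e₂ i) ?_
      rw [← pow_two, hei i hi]
      exact hmu i hi
  choose f hef using fun i => (heu i).exists_right_inv
  obtain ⟨ψ, ψ', h1, h1', h3, h3', h4⟩ := spc w hw I hI m e₂ f hef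
  have hdm : ∀ i, (if i = m then (0 : V) else e₂ i ^ 2) = d i := by
    intro i
    by_cases hi : i = m
    · rw [if_pos hi, hi, hm]
    · rw [if_neg hi, hei i hi]
  simp only [hdm] at h3
  have hC1 : ψ.map (algebraMap V C) * ψ'.map (algebraMap V C) = 1 := by
    rw [← Matrix.map_mul, h1, Matrix.map_one _ (map_zero _) (map_one _)]
  have hC2 : ψ'.map (algebraMap V C) * ψ.map (algebraMap V C) = 1 := by
    rw [← Matrix.map_mul, h1', Matrix.map_one _ (map_zero _) (map_one _)]
  have hR1 : ψ.map (IsLocalRing.residue V) * ψ'.map (IsLocalRing.residue V) = 1 := by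
    rw [← Matrix.map_mul, h1, Matrix.map_one _ (map_zero _) (map_one _)]
  have hR2 : ψ'.map (IsLocalRing.residue V) * ψ.map (IsLocalRing.residue V) = 1 := by
    rw [← Matrix.map_mul, h1', Matrix.map_one _ (map_zero _) (map_one _)]
  have hgu : IsUnit g.det := isUnit_iff_ne_zero.2 hg
  have hsum1 : ls (ψ.map (IsLocalRing.residue V))
      (∑ i, MvPolynomial.C (IsLocalRing.residue V (d i)) * X i ^ 2) = qc _ :=
    KLO_sum (IsLocalRing.residue V) ψ d h3
  have hQd : ls (ψ.map (algebraMap V C)) (∑ i, MvPolynomial.C (d i : C) * X i ^ 2) = qc C :=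
    KLO_sum (algebraMap V C) ψ d h3
  -- the value at the vertex is a unit
  obtain ⟨ε, hε⟩ : ∃ ε : V, ε = eval (Pi.single 3 1) (ls ψ F') := ⟨_, rfl⟩
  have hε1 : ε = eval (Pi.single m 1) F' := by rw [hε, eval_ls, h3']
  have hε2 : IsLocalRing.residue V ε ≠ 0 := by
    rw [hε1, KLO_eval]
    exact rkq_v (fun i => IsLocalRing.residue V (d i)) _ hCN m (by rw [hm, map_zero])
  have hεu : IsUnit ε := by
    by_contra hn
    exact hε2 ((IsLocalRing.residue_eq_zero_iff _).mpr ((IsLocalRing.mem_maximalIdeal _).mpr hn))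
  obtain ⟨B, hB, hcq⟩ := cqt (ls ψ F') (ls_hom ψ hFh) ε hε.symm hεu
  have hκ2 : (2 : IsLocalRing.ResidueField V) ≠ 0 := by
    have h5 := h2u.map (IsLocalRing.residue V)
    rw [map_ofNat] at h5
    exact h5.ne_zero
  have hN : CN (qc (IsLocalRing.ResidueField V)) (map (IsLocalRing.residue V) (ls ψ F')) := by
    have h5 := hCN.tr (ψ.map (IsLocalRing.residue V)) (ψ'.map (IsLocalRing.residue V)) hR2 hR1 1 1
      one_ne_zero one_ne_zero 0
    rw [hsum1, ← map_ls, MvPolynomial.C_1, one_mul, one_mul, zero_mul, add_zero] at h5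
    exact h5
  have hNS : NS (tri fun i => map (IsLocalRing.residue V) (B i)) := by
    refine cqn hκ2 _ hN (IsLocalRing.residue V ε) hε2 _ (hB.map _) ?_
    rw [← cq_map, hcq, map_mul, map_C, G4.map_tri]
  have hcqC : cq (map (algebraMap V C) (ls ψ F')) = MvPolynomial.C (algebraMap V C ε) *
      tri fun i => map (algebraMap V C) (B i) := by
    rw [← cq_map, hcq, map_mul, map_C, G4.map_tri]
  have hεC : algebraMap V C ε ≠ 0 := (hεu.map (algebraMap V C)).ne_zero
  -- comparison over `C`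
  have hφψ : φ * (φ' * g * ψ.map (algebraMap V C)) = g * ψ.map (algebraMap V C) := by
    rw [Matrix.mul_assoc φ' g, ← Matrix.mul_assoc φ φ', hφ, Matrix.one_mul]
  have hinv : (φ' * g * ψ.map (algebraMap V C)) * (ψ'.map (algebraMap V C) * g⁻¹ * φ) = 1 := by
    calc (φ' * g * ψ.map (algebraMap V C)) * (ψ'.map (algebraMap V C) * g⁻¹ * φ)
        = φ' * (g * (ψ.map (algebraMap V C) * ψ'.map (algebraMap V C)) * g⁻¹) * φ := by
          simp only [Matrix.mul_assoc]
      _ = 1 := by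
          rw [hC1, Matrix.mul_one, Matrix.mul_nonsing_inv _ hgu, Matrix.mul_one, hφ']
  have hqc : ls (φ' * g * ψ.map (algebraMap V C)) (qc C) = MvPolynomial.C c⁻¹ * qc C := by
    have h5 : ls g (map (algebraMap K C) Q) =
        MvPolynomial.C c⁻¹ * ∑ i, MvPolynomial.C (d i : C) * X i ^ 2 := by
      rw [hQe, ← mul_assoc, ← MvPolynomial.C_mul, inv_mul_cancel₀ hc, MvPolynomial.C_1, one_mul]
    have h6 : ls (φ' * g * ψ.map (algebraMap V C)) (ls φ (map (algebraMap K C) Q)) =
        MvPolynomial.C c⁻¹ * qc C := by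
      rw [ls_ls, hφψ, ← ls_ls, h5, map_mul, ls_C, hQd]
    rwa [hQφ] at h6
  have hGG : map (algebraMap V C) (ls ψ F') = MvPolynomial.C u *
      ls (φ' * g * ψ.map (algebraMap V C)) (ls φ (map (algebraMap K C) F)) +
        ls (ψ.map (algebraMap V C)) l * qc C := by
    rw [ls_ls, hφψ, map_ls, hFe, map_add, map_mul, map_mul, ls_C, ls_ls, hQd]
  have h2C : (2 : C) ≠ 0 := by
    intro h0
    rw [h0, map_zero] at h2
    exact zero_ne_one h2
  obtain ⟨g', μ, q, hg', hμ, hq, hTr⟩ := cmp h2C _ _ hinv c⁻¹ (inv_ne_zero hc) hqc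
    (ls φ (map (algebraMap K C) F)) (map (algebraMap V C) (ls ψ F')) (ls (ψ.map (algebraMap V C)) l)
    u e (algebraMap V C ε) hu he hεC hGG A (fun i => map (algebraMap V C) (B i)) hA (hB.map _) h hcqC
  refine ⟨g', μ, q, B, hg', hμ, hq, hTr, hB, hNS, ?_⟩
  -- inertia
  intro i σ hσ
  have hs : ∀ x : V, V.valuation ((x : C) ^ 2) = 1 → σ ((x : C) ^ 2) = (x : C) ^ 2 →
      algebraMap V C x = ((σ : C →+* C).comp (algebraMap V C)) x := by
    intro x hx hx'
    exact (G4.her_fix V h2 σ hσ (x : C) hx hx').symm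
  have hI' : ((I : C)) ^ 2 = -1 := by
    have := congrArg (fun z : V => (z : C)) hI
    simpa using this
  have hfe : ∀ i, algebraMap V C (e₂ i) = ((σ : C →+* C).comp (algebraMap V C)) (e₂ i) := by
    intro i
    by_cases hi : i = m
    · rw [hi, hem, map_one, map_one]
    · have he' : ((e₂ i : C)) ^ 2 = d i := by
        have := congrArg (fun z : V => (z : C)) (hei i hi)
        simpa using this
      exact hs (e₂ i) (by rw [he']; exact (V.valuation_eq_one_iff (d i)).1 (hmu i hi))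
        (by rw [he']; exact hσd σ hσ i)
  have h6 := h4 (algebraMap V C) ((σ : C →+* C).comp (algebraMap V C))
    (hs I (by rw [hI', Valuation.map_neg, map_one]) (by rw [hI', map_neg, map_one])) hfe
  have h7 : (ψ.map (algebraMap V C)).map (σ : C →+* C) = ψ.map (algebraMap V C) := by
    ext i j
    exact (h6 i j).symm
  have h8 : map (σ : C →+* C) (map (algebraMap V C) (ls ψ F')) = map (algebraMap V C) (ls ψ F') := by
    rw [map_ls, map_ls, h7, hFx σ hσ]
  have h9 : (σ : C →+* C) (algebraMap V C ε) = algebraMap V C ε := by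
    rw [hε, KLO_eval, KLO_eval, h8]
  have h10 : MvPolynomial.C (algebraMap V C ε) *
      (tri fun i => map (σ : C →+* C) (map (algebraMap V C) (B i))) =
        MvPolynomial.C (algebraMap V C ε) * tri fun i => map (algebraMap V C) (B i) := by
    have h11 := congrArg (map (σ : C →+* C)) hcqC
    rw [cq_map, h8, hcqC, map_mul, map_C, h9, G4.map_tri] at h11
    exact h11.symm
  have hCε : (MvPolynomial.C (algebraMap V C ε) : P3 C) ≠ 0 := by
    rw [Ne, MvPolynomial.C_eq_zero]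
    exact hεC
  exact congrFun (tri_inj (mul_left_cancel₀ hCε h10)) i

end Pool.Agent.T1
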