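import Pool.Agent.T1.LSB
import Pool.Agent.G4.BAM
import Pool.Agent.Helper11.Defs

/-!
# T1 / KPT: the generic point on the cone

`y := φ' ξ` (with `φ'` mapped to `Φ`), `ξ = φ y`, `y ≠ 0`, `y 0 * y 2 = y 1 ^ 2`, `eval₂ _ y (ls φ F) = 0` (`eval₂_ls`).
Case `y 2 ≠ 0`: `x := y 1 / y 2`, `z := y 3 / y 2`; `y = y 2 • (x², x, 1, z)`; `ls φ F` is homogeneous of degree 3, so it vanishes at `(x², x, 1, z)`, and `eval₂ _ ![x, 1, z] (cq (ls φ F)) = eval₂ _ (x ^ 2, x, 1, z) (ls φ F) = 0 = e * eval₂ _ ![x, 1, z] (tri A)`.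
Generation: `ξ i / y 2 ∈ C(x, z)`, so `ξ i / ξ j ∈ C(x, z)`.
Case `y 2 = 0`: `y 1 = 0`.  `ls φ F` restricted to `(a, 0, 0, b)` is a binary cubic form `f(a, b)` with coefficient `e ≠ 0` at `b³` (`cq` at `(s, t) = ...`: `eval (0,0,1)` of `cq (ls φ F) = C e * tri A` gives `eval e₃ (ls φ F) = e`, `A i` forms of positive degree).  If `y 0 = 0` then
`e y 3 ³ = 0`, so `y = 0`, contradiction.  Otherwise `w := y 3 / y 0` is a root of a polynomial over `C` with leading coefficient `e ≠ 0`, so `w ∈ C` (`C` algebraically closed), all `ξ i / y 0 ∈ C`, so the field generated by the `ξ i / ξ j` is `⊥`, so `Φ = C`: contradiction to the existence of a transcendental element (`FunField`).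
-/

namespace Pool.Agent.T1

open MvPolynomial Matrix
open Pool.Agent.G4 (P2 tri TH)

private theorem kpt_smul {C Φ : Type*} [CommRing C] [CommRing Φ] (f : C →+* Φ) {n : ℕ}
    {P : MvPolynomial (Fin 4) C} (hP : P.IsHomogeneous n) (a : Φ) (w : Fin 4 → Φ) :
    eval₂ f (fun i => a * w i) P = a ^ n * eval₂ f w P := by
  rw [eval₂_eq', eval₂_eq', Finset.mul_sum]
  refine Finset.sum_congr rfl fun d hd => ?_
  have hd' : ∑ i, d i = n := by
    have := hP (mem_support_iff.1 hd)
    rw [← this, Finsupp.weight_apply, Finsupp.sum_fintype]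
    · simp
    · simp
  have h2 : ∏ i, (a * w i) ^ d i = a ^ n * ∏ i, w i ^ d i := by
    simp only [mul_pow, Finset.prod_mul_distrib]
    rw [Finset.prod_pow_eq_pow_sum, hd']
  rw [h2]
  ring

private theorem kpt_cq {C Φ : Type*} [CommRing C] [CommRing Φ] (f : C →+* Φ) (s t z : Φ)
    (G : MvPolynomial (Fin 4) C) :
    eval₂ f ![s, t, z] (cq G) = eval₂ f ![s ^ 2, s * t, t ^ 2, z] G := by
  have h : ((eval₂Hom f ![s, t, z]).comp (cq (R := C)).toRingHom) =
      eval₂Hom f ![s ^ 2, s * t, t ^ 2, z] := by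
    refine ringHom_ext (fun c => ?_) fun i => ?_
    · simp [cq]
    · fin_cases i <;> simp [cq]
  exact RingHom.congr_fun h G

private theorem kpt_em {C Φ : Type*} [CommRing C] [CommRing Φ] (f : C →+* Φ) (s t z : Φ) (B : P2 C) :
    eval₂ f ![s, t, z] (G4.em B) = eval₂ f ![s, t] B := by
  rw [G4.em, eval₂_rename]
  congr 1
  ext i
  fin_cases i <;> rfl

private theorem kpt_tri {C Φ : Type*} [CommRing C] [CommRing Φ] (f : C →+* Φ) (s t z : Φ)
    (A : Fin 3 → P2 C) :
    eval₂ f ![s, t, z] (tri A) =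
      z ^ 3 + eval₂ f ![s, t] (A 0) * z ^ 2 + eval₂ f ![s, t] (A 1) * z + eval₂ f ![s, t] (A 2) := by
  simp only [tri, eval₂_add, eval₂_mul, eval₂_pow, eval₂_X, kpt_em]
  rfl

private theorem kpt_zero {C Φ : Type*} [CommRing C] [CommRing Φ] (f : C →+* Φ) {n : ℕ} (hn : n ≠ 0)
    {B : P2 C} (hB : B.IsHomogeneous n) : eval₂ f ![(0 : Φ), 0] B = 0 := by
  rw [eval₂_eq']
  refine Finset.sum_eq_zero fun d hd => ?_
  have hd' : ∑ i, d i = n := by
    have := hB (mem_support_iff.1 hd)
    rw [← this, Finsupp.weight_apply, Finsupp.sum_fintype]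
    · simp
    · simp
  have h2 : ∏ i, ![(0 : Φ), 0] i ^ d i = 0 := by
    rw [Fin.sum_univ_two] at hd'
    rw [Fin.prod_univ_two]
    by_cases h0 : d 0 = 0
    · have h1 : d 1 ≠ 0 := by omega
      simp [h1]
    · simp [h0]
  rw [h2, mul_zero]

private theorem kpt_map {C Φ : Type*} [CommRing C] [CommRing Φ] (f : C →+* Φ) (s t : C) (B : P2 C) :
    eval₂ f ![f s, f t] B = f (eval ![s, t] B) := by
  have h : (![f s, f t] : Fin 2 → Φ) = f ∘ ![s, t] := by
    ext i
    fin_cases i <;> rfl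
  rw [h]
  have h3 := eval₂_comp_left f (RingHom.id C) ![s, t] B
  rw [RingHom.comp_id] at h3
  exact h3.symm

theorem kpt {C Φ : Type*} [Field C] [IsAlgClosed C] [Field Φ] [Algebra C Φ] [Helper11.FunField C Φ]
    (φ φ' : Matrix (Fin 4) (Fin 4) C) (h1 : φ * φ' = 1) (Q F : MvPolynomial (Fin 4) C)
    (hF : F.IsHomogeneous 3) (hQ : ls φ Q = qc C) (e : C) (he : e ≠ 0) (A : Fin 3 → P2 C) (hA : TH A)
    (hc : cq (ls φ F) = MvPolynomial.C e * tri A) (ξ : Fin 4 → Φ) (hξ : ξ ≠ 0)
    (hQξ : eval₂ (algebraMap C Φ) ξ Q = 0) (hFξ : eval₂ (algebraMap C Φ) ξ F = 0)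
    (hgen : IntermediateField.adjoin C {z : Φ | ∃ i j, z = ξ i / ξ j} = ⊤) :
    ∃ x z : Φ, eval₂ (algebraMap C Φ) ![x, 1, z] (tri A) = 0 ∧ IntermediateField.adjoin C {x, z} = ⊤ := by
  classical
  set a := algebraMap C Φ with ha
  have hae : a e ≠ 0 := (map_ne_zero a).2 he
  let y : Fin 4 → Φ := (φ'.map a) *ᵥ ξ
  have hy : (φ.map a) *ᵥ y = ξ := by
    show (φ.map a) *ᵥ ((φ'.map a) *ᵥ ξ) = ξ
    rw [Matrix.mulVec_mulVec, ← Matrix.map_mul, h1, Matrix.map_one _ (map_zero a) (map_one a),
      Matrix.one_mulVec]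
  have hy0 : y ≠ 0 := by
    intro h
    rw [h, Matrix.mulVec_zero] at hy
    exact hξ hy.symm
  have hFy : eval₂ a y (ls φ F) = 0 := by
    rw [eval₂_ls, hy, hFξ]
  have hQy : y 0 * y 2 - y 1 ^ 2 = 0 := by
    have h : eval₂ a y (ls φ Q) = 0 := by rw [eval₂_ls, hy, hQξ]
    rw [hQ] at h
    simpa [qc, eval₂_sub] using h
  have hFh : (ls φ F).IsHomogeneous 3 := ls_hom φ hF
  have hcq : ∀ s t z : Φ, eval₂ a ![s ^ 2, s * t, t ^ 2, z] (ls φ F) = a e * eval₂ a ![s, t, z] (tri A) := by
    intro s t z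
    rw [← kpt_cq, hc, eval₂_mul, eval₂_C]
  -- the main step: generation
  have gen : ∀ (c : Φ) (w : Fin 4 → Φ) (S : IntermediateField C Φ), (∀ i, w i ∈ S) → c ≠ 0 →
      (∀ i, y i = c * w i) → S = ⊤ := by
    intro c w S hw hc0 hyw
    rw [eq_top_iff, ← hgen, IntermediateField.adjoin_le_iff]
    rintro z ⟨i, j, rfl⟩
    have hu : ∀ i, ξ i = c * ∑ j, a (φ i j) * w j := by
      intro i
      rw [← hy, Matrix.mulVec, dotProduct, Finset.mul_sum]
      refine Finset.sum_congr rfl fun j _ => ?_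
      rw [hyw j, Matrix.map_apply]
      ring
    rw [hu i, hu j, mul_div_mul_left _ _ hc0]
    exact S.div_mem (S.sum_mem fun k _ => S.mul_mem (S.algebraMap_mem _) (hw k))
      (S.sum_mem fun k _ => S.mul_mem (S.algebraMap_mem _) (hw k))
  by_cases h2 : y 2 = 0
  · exfalso
    have h1' : y 1 = 0 := by
      rw [h2, mul_zero, zero_sub, neg_eq_zero] at hQy
      exact pow_eq_zero_iff two_ne_zero |>.1 hQy
    by_cases h0 : y 0 = 0
    · have h3 : y 3 ≠ 0 := by
        intro h3
        apply hy0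
        ext i
        fin_cases i
        · exact h0
        · exact h1'
        · exact h2
        · exact h3
      have hyw : y = fun i => y 3 * ![(0 : Φ) ^ 2, 0 * 0, 0 ^ 2, 1] i := by
        ext i
        fin_cases i
        · simp [h0]
        · simp [h1']
        · simp [h2]
        · simp
      rw [hyw, kpt_smul a hFh, hcq, kpt_tri, kpt_zero a (by norm_num) (hA 0), kpt_zero a (by norm_num) (hA 1),
        kpt_zero a (by norm_num) (hA 2)] at hFy
      simp only [one_pow, zero_mul, add_zero, mul_one] at hFy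
      exact mul_ne_zero (pow_ne_zero 3 h3) hae hFy
    · have hyw : y = fun i => y 0 * ![(1 : Φ) ^ 2, 1 * 0, 0 ^ 2, y 3 / y 0] i := by
        ext i
        fin_cases i
        · simp
        · simp [h1']
        · simp [h2]
        · simp [mul_div_cancel₀, h0]
      have hFy' := hFy
      rw [hyw, kpt_smul a hFh, hcq, kpt_tri] at hFy'
      have hw : (y 3 / y 0) ^ 3 + a (eval ![1, 0] (A 0)) * (y 3 / y 0) ^ 2 +
          a (eval ![1, 0] (A 1)) * (y 3 / y 0) + a (eval ![1, 0] (A 2)) = 0 := by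
        have e1 : (![(1 : Φ), 0] : Fin 2 → Φ) = ![a 1, a 0] := by simp
        rw [e1, kpt_map, kpt_map, kpt_map] at hFy'
        have := (mul_eq_zero.1 hFy').resolve_left (pow_ne_zero 3 h0)
        exact (mul_eq_zero.1 this).resolve_left hae
      have hint : IsIntegral C (y 3 / y 0) := by
        refine ⟨Polynomial.X ^ 3 + (Polynomial.C (eval ![1, 0] (A 0)) * Polynomial.X ^ 2 +
          Polynomial.C (eval ![1, 0] (A 1)) * Polynomial.X + Polynomial.C (eval ![1, 0] (A 2))), ?_, ?_⟩
        · refine Polynomial.monic_X_pow_add ?_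
          refine lt_of_le_of_lt Polynomial.degree_quadratic_le ?_
          norm_num
        · rw [← hw]
          simp [Polynomial.eval₂_add, ha]
          ring
      have hbot : y 3 / y 0 ∈ (⊥ : IntermediateField C Φ) := by
        rw [IntermediateField.mem_bot]
        have hdeg := IsAlgClosed.degree_eq_one_of_irreducible C (minpoly.irreducible hint)
        exact minpoly.mem_range_of_degree_eq_one C _ hdeg
      have htop : (⊥ : IntermediateField C Φ) = ⊤ := by
        refine gen (y 0) ![(1 : Φ) ^ 2, 1 * 0, 0 ^ 2, y 3 / y 0] ⊥ ?_ h0 fun i => congrFun hyw i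
        intro i
        fin_cases i
        · simp
        · simp
        · simp
        · exact hbot
      have halg : Algebra.IsAlgebraic C Φ := by
        refine ⟨fun x => ?_⟩
        have hx : x ∈ (⊥ : IntermediateField C Φ) := by
          rw [htop]
          trivial
        obtain ⟨c, rfl⟩ := IntermediateField.mem_bot.1 hx
        exact isAlgebraic_algebraMap c
      have h4 := Helper11.FunField.trdeg (k := C) (L := Φ)
      rw [trdeg_eq_zero] at h4
      exact zero_ne_one h4
  · have hyw : y = fun i => y 2 * ![(y 1 / y 2) ^ 2, (y 1 / y 2) * 1, 1 ^ 2, y 3 / y 2] i := by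
      ext i
      fin_cases i
      · have : y 0 = y 1 ^ 2 / y 2 := by
          rw [eq_div_iff h2]
          linear_combination hQy
        simp only [Fin.zero_eta, Matrix.cons_val_zero]
        rw [this]
        field_simp
      · show y 1 = y 2 * (y 1 / y 2 * 1)
        field_simp
      · simp
      · show y 3 = y 2 * (y 3 / y 2)
        field_simp
    refine ⟨y 1 / y 2, y 3 / y 2, ?_, ?_⟩
    · have hFy' := hFy
      rw [hyw, kpt_smul a hFh, hcq] at hFy'
      have := (mul_eq_zero.1 hFy').resolve_left (pow_ne_zero 3 h2)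
      exact (mul_eq_zero.1 this).resolve_left hae
    · refine gen (y 2) _ _ ?_ h2 fun i => congrFun hyw i
      have hx : y 1 / y 2 ∈ IntermediateField.adjoin C {y 1 / y 2, y 3 / y 2} :=
        IntermediateField.subset_adjoin _ _ (by simp)
      have hz : y 3 / y 2 ∈ IntermediateField.adjoin C {y 1 / y 2, y 3 / y 2} :=
        IntermediateField.subset_adjoin _ _ (by simp)
      intro i
      fin_cases i
      · exact pow_mem hx 2
      · exact mul_mem hx (one_mem _)
      · exact pow_mem (one_mem _) 2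
      · exact hz

end Pool.Agent.T1
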