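import Pool.Agent.T1.LSB

/-!
# T1 / RKQ: the rank of the quadric of a smooth complete intersection

`Q = ∑ C (d i) * X i ^ 2`; derivatives `2 d i X i`.
`rkq_v`: if `d m = 0` then at `x = e_m`: `Q(x) = 0` and all derivatives of `Q` vanish at `x`, so all minors vanish; so `F(e_m) ≠ 0` by `h`.
`rkq`: suppose `d m = d n = 0`, `m ≠ n`.  At all points `x = a e_m + b e_n` the form `Q` and its derivatives vanish.  `F(a e_m + b e_n)` is a binary form of degree 3 in `(a, b)`; it has a zero `(a, b) ≠ 0`: if `F(e_n) = 0` take `(0, 1)`;
otherwise `F(e_m + b e_n)` is a polynomial in `b` of degree 3 (leading coefficient `F(e_n)`; `IsAlgClosed.exists_root`, e.g. the polynomial `aeval (fun i => if i = m then 1 else if i = n then X else 0) F : Polynomial k`, whose coefficient of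
`X ^ 3` is `F(e_n)` as `F` is homogeneous of degree 3: its value is `∑ coeff`, monomials `X m ^ a X n ^ b`, `a + b = 3`) and has a root.  Contradiction to `h`.
-/

namespace Pool.Agent.T1

open MvPolynomial Matrix

private lemma RKQ_pd {k : Type*} [Field k] (d : Fin 4 → k) (x : Fin 4 → k) (i : Fin 4) :
    eval x (pderiv i (∑ j, C (d j) * X j ^ 2 : MvPolynomial (Fin 4) k)) = 2 * (d i * x i) := by
  rw [map_sum, map_sum]
  rw [Finset.sum_eq_single i]
  · rw [pderiv_C_mul, pderiv_pow, pderiv_X_self]
    simp
    ring
  · intro j _ hj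
    rw [pderiv_C_mul, pderiv_pow, pderiv_X_of_ne hj]
    simp
  · intro h
    exact absurd (Finset.mem_univ i) h

private lemma RKQ_ev {k : Type*} [Field k] (d : Fin 4 → k) (x : Fin 4 → k)
    (h : ∀ i, d i = 0 ∨ x i = 0) : eval x (∑ j, C (d j) * X j ^ 2 : MvPolynomial (Fin 4) k) = 0 := by
  rw [map_sum]
  refine Finset.sum_eq_zero fun i _ => ?_
  rw [map_mul, eval_C, map_pow, eval_X]
  rcases h i with h | h <;> simp [h]

private lemma RKQ_main {k : Type*} [Field k] (d : Fin 4 → k) (F : MvPolynomial (Fin 4) k)
    (h : CN (∑ i, C (d i) * X i ^ 2) F) (x : Fin 4 → k) (hx : x ≠ 0)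
    (hd : ∀ i, d i = 0 ∨ x i = 0) : eval x F ≠ 0 := by
  intro hF
  obtain ⟨i, j, hij⟩ := h x hx (RKQ_ev d x hd) hF
  apply hij
  have hz : ∀ i, eval x (pderiv i (∑ j, C (d j) * X j ^ 2 : MvPolynomial (Fin 4) k)) = 0 := by
    intro i
    rw [RKQ_pd]
    rcases hd i with h | h <;> simp [h]
  unfold jm
  rw [map_sub, map_mul, map_mul, hz, hz]
  simp

theorem rkq_v {k : Type*} [Field k] (d : Fin 4 → k) (F : MvPolynomial (Fin 4) k)
    (h : CN (∑ i, C (d i) * X i ^ 2) F) (m : Fin 4) (hm : d m = 0) : eval (Pi.single m 1) F ≠ 0 := by
  apply RKQ_main d F h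
  · intro h0
    have h1 := congrFun h0 m
    rw [Pi.single_eq_same] at h1
    exact one_ne_zero h1
  · intro i
    by_cases hi : i = m
    · left; rw [hi]; exact hm
    · right; exact Pi.single_eq_of_ne hi 1

theorem rkq {k : Type*} [Field k] [IsAlgClosed k] (d : Fin 4 → k) (F : MvPolynomial (Fin 4) k)
    (hF : F.IsHomogeneous 3) (h : CN (∑ i, C (d i) * X i ^ 2) F) (m n : Fin 4) (hmn : m ≠ n)
    (hm : d m = 0) : d n ≠ 0 := by
  intro hn
  have hFn := rkq_v d F h n hn
  set g : Fin 4 → Polynomial k := fun i => if i = m then 1 else if i = n then Polynomial.X else 0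
    with hg
  set p : Polynomial k := eval₂ Polynomial.C g F with hp
  have hgn : ∀ i, (g i).natDegree ≤ if i = n then 1 else 0 := by
    intro i
    simp only [hg]
    by_cases him : i = m
    · rw [if_pos him]; simp
    · rw [if_neg him]
      by_cases hin : i = n
      · rw [if_pos hin, if_pos hin]; exact Polynomial.natDegree_X_le
      · rw [if_neg hin, if_neg hin]; simp
  have hcoef : p.coeff 3 = eval (Pi.single n 1) F := by
    rw [hp, eval₂_eq', eval_eq', Polynomial.finsetSum_coeff]
    refine Finset.sum_congr rfl fun e he => ?_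
    have hsum : ∑ i, e i = 3 := by
      have h1 := hF (mem_support_iff.1 he)
      rw [Finsupp.weight_apply, Finsupp.sum_fintype] at h1
      · simpa using h1
      · simp
    rw [Polynomial.coeff_C_mul]
    congr 1
    by_cases hen : e n = 3
    · have hz : ∀ i, i ≠ n → e i = 0 := by
        intro i hi
        have h1 : e n + e i ≤ ∑ i, e i := by
          rw [← Finset.add_sum_erase _ _ (Finset.mem_univ n)]
          have h2 : e i ≤ ∑ x ∈ Finset.univ.erase n, e x :=
            Finset.single_le_sum (f := fun x => e x) (fun _ _ => Nat.zero_le _)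
              (Finset.mem_erase.2 ⟨hi, Finset.mem_univ i⟩)
          omega
        omega
      have h1 : (∏ i, g i ^ e i) = Polynomial.X ^ 3 := by
        rw [Finset.prod_eq_single n]
        · rw [hen]
          have hgn' : g n = Polynomial.X := by
            rw [hg]
            change (if n = m then (1 : Polynomial k) else if n = n then Polynomial.X else 0) =
              Polynomial.X
            rw [if_neg (Ne.symm hmn), if_pos rfl]
          rw [hgn']
        · intro i _ hi
          rw [hz i hi, pow_zero]
        · intro hh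
          exact absurd (Finset.mem_univ n) hh
      have h2 : (∏ i, (Pi.single n 1 : Fin 4 → k) i ^ e i) = 1 := by
        refine Finset.prod_eq_one fun i _ => ?_
        by_cases hi : i = n
        · rw [hi, Pi.single_eq_same, one_pow]
        · rw [hz i hi, pow_zero]
      rw [h1, h2, Polynomial.coeff_X_pow_self]
    · have hle : e n < 3 := by
        have h1 : e n ≤ ∑ i, e i :=
          Finset.single_le_sum (f := fun x => e x) (fun _ _ => Nat.zero_le _) (Finset.mem_univ n)
        omega
      have h1 : (∏ i, g i ^ e i).natDegree ≤ e n := by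
        refine (Polynomial.natDegree_prod_le _ _).trans ?_
        calc ∑ i, (g i ^ e i).natDegree ≤ ∑ i, (if i = n then e n else 0) := by
              refine Finset.sum_le_sum fun i _ => ?_
              refine Polynomial.natDegree_pow_le.trans ?_
              have h3 := hgn i
              by_cases hi : i = n
              · rw [if_pos hi] at h3 ⊢
                rw [hi] at h3 ⊢
                calc e n * (g n).natDegree ≤ e n * 1 := Nat.mul_le_mul_left _ h3
                  _ = e n := Nat.mul_one _
              · rw [if_neg hi] at h3 ⊢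
                rw [Nat.le_zero.1 h3, Nat.mul_zero]
          _ = e n := by rw [Finset.sum_ite_eq' Finset.univ n, if_pos (Finset.mem_univ n)]
      have h2 : ∃ i, i ≠ n ∧ e i ≠ 0 := by
        by_contra hcon
        push Not at hcon
        rw [Finset.sum_eq_single n] at hsum
        · omega
        · intro i _ hi
          exact hcon i hi
        · intro hh
          exact absurd (Finset.mem_univ n) hh
      obtain ⟨i, hi, hei⟩ := h2
      rw [Polynomial.coeff_eq_zero_of_natDegree_lt (lt_of_le_of_lt h1 hle)]
      symm
      apply Finset.prod_eq_zero (Finset.mem_univ i)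
      rw [Pi.single_eq_of_ne hi, zero_pow hei]
  have hdeg : p.degree ≠ 0 := by
    intro h0
    have h1 : p.natDegree = 0 := Polynomial.natDegree_eq_of_degree_eq_some h0
    apply hFn
    rw [← hcoef]
    exact Polynomial.coeff_eq_zero_of_natDegree_lt (by omega)
  obtain ⟨b, hb⟩ := IsAlgClosed.exists_root p hdeg
  have hb' : eval (fun i => (g i).eval b) F = 0 := by
    have h1 := MvPolynomial.eval₂_comp_left (Polynomial.evalRingHom b) Polynomial.C g F
    have h2 : (Polynomial.evalRingHom b).comp Polynomial.C = RingHom.id k := by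
      ext x
      simp
    rw [h2, eval₂_id] at h1
    have h3 : (Polynomial.evalRingHom b) (eval₂ Polynomial.C g F) = 0 := hb
    rw [h3] at h1
    exact h1.symm
  refine RKQ_main d F h (fun i => (g i).eval b) ?_ ?_ hb'
  · intro h0
    have h1 := congrFun h0 m
    simp [hg] at h1
  · intro i
    by_cases him : i = m
    · left; rw [him]; exact hm
    · by_cases hin : i = n
      · left; rw [hin]; exact hn
      · right
        simp only [hg]
        rw [if_neg him, if_neg hin, Polynomial.eval_zero]

end Pool.Agent.T1
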