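import Pool.Agent.T1.DIQ
import Pool.Agent.T1.SPU
import Pool.Agent.T1.RKQ

/-!
# T1 / SPK: splitting over an algebraically closed field

`diq` (a field is a valuation ring): `g, d`.  `spk_d`: `det (hs Q) ≠ 0`, so `∏ d i ≠ 0`; `e i ^ 2 = d i`; `spe`; `φ = g * ψ`, `φ' = ψ' * g⁻¹`.
`spk_c`: `det (hs Q) = 0`, so some `d m = 0`; `CN` for `(ls g Q, ls g F)` (`CN.tr`, `c = u = 1`, `l = 0`), `rkq`: `d i ≠ 0` for `i ≠ m`.  `e i ^ 2 = d i` (`i ≠ m`), `e m = 1`; `spc`; `φ = g * ψ`.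
-/

namespace Pool.Agent.T1

open MvPolynomial Matrix

theorem spk_d {k : Type*} [Field k] [IsAlgClosed k] (h2 : (2 : k) ≠ 0) (Q : MvPolynomial (Fin 4) k)
    (hQ : Q.IsHomogeneous 2) (hd : (hs Q).det ≠ 0) :
    ∃ (φ : Matrix (Fin 4) (Fin 2 × Fin 2) k) (φ' : Matrix (Fin 2 × Fin 2) (Fin 4) k), φ * φ' = 1 ∧
      φ' * φ = 1 ∧ ls φ Q = qd k := by
  obtain ⟨g, d, hg, hls, hdet⟩ := diq (IsUnit.mk0 _ h2) Q hQ
  have hprod : ∏ i, d i ≠ 0 := by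
    intro h0
    rw [h0, mul_zero] at hdet
    rcases mul_eq_zero.1 hdet with h | h
    · exact hg.ne_zero (pow_eq_zero_iff (two_ne_zero) |>.1 h)
    · exact hd h
  have hdi : ∀ i, d i ≠ 0 := fun i => (Finset.prod_ne_zero_iff.1 hprod) i (Finset.mem_univ i)
  have hex : ∀ i, ∃ z : k, z ^ 2 = d i := fun i =>
    IsAlgClosed.exists_pow_nat_eq (d i) two_pos
  choose e he using hex
  obtain ⟨I, hI⟩ := IsAlgClosed.exists_pow_nat_eq (-1 : k) two_pos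
  have hei : ∀ i, e i ≠ 0 := by
    intro i h0
    have := he i
    rw [h0, zero_pow two_ne_zero] at this
    exact hdi i this.symm
  obtain ⟨ψ, ψ', h1, h1', h3, -⟩ := spe.{_, 0} (R := k) (2 : k)⁻¹ (mul_inv_cancel₀ h2) I hI e
    (fun i => (e i)⁻¹) (fun i => mul_inv_cancel₀ (hei i))
  refine ⟨g * ψ, ψ' * g⁻¹, ?_, ?_, ?_⟩
  · rw [Matrix.mul_assoc, ← Matrix.mul_assoc ψ, h1, Matrix.one_mul]
    exact Matrix.mul_nonsing_inv g hg
  · rw [Matrix.mul_assoc, ← Matrix.mul_assoc g⁻¹, Matrix.nonsing_inv_mul g hg, Matrix.one_mul, h1']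
  · rw [← ls_ls, hls, ← h3]
    simp only [he]

theorem spk_c {k : Type*} [Field k] [IsAlgClosed k] (h2 : (2 : k) ≠ 0) (Q F : MvPolynomial (Fin 4) k)
    (hQ : Q.IsHomogeneous 2) (hF : F.IsHomogeneous 3) (hN : CN Q F) (hd : (hs Q).det = 0) :
    ∃ (φ φ' : Matrix (Fin 4) (Fin 4) k), φ * φ' = 1 ∧ φ' * φ = 1 ∧ ls φ Q = qc k := by
  obtain ⟨g, d, hg, hls, hdet⟩ := diq (IsUnit.mk0 _ h2) Q hQ
  have h16 : (16 : k) ≠ 0 := by
    have h : (16 : k) = 2 ^ 4 := by norm_num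
    rw [h]
    exact pow_ne_zero _ h2
  have hprod : ∏ i, d i = 0 := by
    rw [hd, mul_zero] at hdet
    exact (mul_eq_zero.1 hdet.symm).resolve_left h16
  obtain ⟨m, -, hm⟩ := Finset.prod_eq_zero_iff.1 hprod
  have hCN : CN (∑ i, C (d i) * X i ^ 2) (ls g F) := by
    have h := CN.tr hN g g⁻¹ (Matrix.nonsing_inv_mul g hg) (Matrix.mul_nonsing_inv g hg) 1 1
      one_ne_zero one_ne_zero 0
    rw [map_one, one_mul, one_mul, zero_mul, add_zero, hls] at h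
    exact h
  have hdi : ∀ i, i ≠ m → d i ≠ 0 := fun i hi => rkq d (ls g F) (ls_hom g hF) hCN m i hi.symm hm
  have hex : ∀ i, ∃ z : k, z ≠ 0 ∧ (i ≠ m → z ^ 2 = d i) := by
    intro i
    by_cases hi : i = m
    · exact ⟨1, one_ne_zero, fun h => absurd hi h⟩
    · obtain ⟨z, hz⟩ := IsAlgClosed.exists_pow_nat_eq (d i) two_pos
      refine ⟨z, ?_, fun _ => hz⟩
      intro h0
      rw [h0, zero_pow two_ne_zero] at hz
      exact hdi i hi hz.symm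
  choose e he0 he using hex
  obtain ⟨I, hI⟩ := IsAlgClosed.exists_pow_nat_eq (-1 : k) two_pos
  obtain ⟨ψ, ψ', h1, h1', h3, -⟩ := spc.{_, 0} (R := k) (2 : k)⁻¹ (mul_inv_cancel₀ h2) I hI m e
    (fun i => (e i)⁻¹) (fun i => mul_inv_cancel₀ (he0 i))
  refine ⟨g * ψ, ψ' * g⁻¹, ?_, ?_, ?_⟩
  · rw [Matrix.mul_assoc, ← Matrix.mul_assoc ψ, h1, Matrix.one_mul]
    exact Matrix.mul_nonsing_inv g hg
  · rw [Matrix.mul_assoc, ← Matrix.mul_assoc g⁻¹, Matrix.nonsing_inv_mul g hg, Matrix.one_mul, h1']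
  · rw [← ls_ls, hls, ← h3]
    congr 1
    refine Finset.sum_congr rfl fun i _ => ?_
    by_cases hi : i = m
    · rw [if_pos hi, hi, hm]
    · rw [if_neg hi, he i hi]

end Pool.Agent.T1
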