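import Pool.Agent.T1.KFI
import Pool.Agent.T1.KLO
import Pool.Agent.T1.KPT
import Pool.Agent.T1.SPK

/-!
# T1 / KCF: the cone case

`Q_C, F_C` the images over `C`; `CS.map`, `CS.cn`: `CN Q_C F_C`; `map_hs`: `det (hs Q_C) = 0`; `spk_c`: `φ, φ'`.  `G := ls φ F_C`; `CN qc G` (`CN.tr`, `c = u = 1`, `l = 0`); `e := eval e₃ G ≠ 0`: the derivatives of `qc` vanish at `e₃`, so all minors, so `G (e₃) ≠ 0` by `CN`.
`cqt`: `A`; `cqn`: `NS (tri A)`; `kga`, `klo`, `kpt` (`Q := Q_C`), `kfi`.  `eval₂ ((algebraMap C Φ).comp (algebraMap K C)) ξ Q = eval₂ (algebraMap C Φ) ξ Q_C` (`eval₂_map`).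
-/

namespace Pool.Agent.T1

open MvPolynomial Matrix NumberField IsDedekindDomain

private theorem kcf_grad {k : Type*} [Field k] (i : Fin 4) :
    eval (Pi.single 3 1 : Fin 4 → k) (pderiv i (qc k)) = 0 := by
  unfold qc
  fin_cases i <;>
    simp [pderiv_X, Derivation.leibniz, Derivation.leibniz_pow]

private theorem kcf_ev {k : Type*} [Field k] (G : MvPolynomial (Fin 4) k) (hN : CN (qc k) G) :
    eval (Pi.single 3 1 : Fin 4 → k) G ≠ 0 := by
  intro h0
  have hx : (Pi.single 3 1 : Fin 4 → k) ≠ 0 := by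
    intro h
    have := congrFun h 3
    simp at this
  have hq : eval (Pi.single 3 1 : Fin 4 → k) (qc k) = 0 := by
    unfold qc
    simp
  obtain ⟨i, j, hij⟩ := hN _ hx hq h0
  apply hij
  unfold jm
  rw [map_sub, map_mul, map_mul, kcf_grad, kcf_grad]
  ring

theorem kcf {K C Φ : Type*} [Field K] [NumberField K] [Field C] [Algebra K C] [Algebra.IsAlgebraic K C]
    [IsAlgClosed C] [Field Φ] [Algebra C Φ] [Helper11.FunField C Φ]
    (T : Finset (HeightOneSpectrum (𝓞 K))) (Q F : MvPolynomial (Fin 4) K)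
    (hQ : Q.IsHomogeneous 2) (hF : F.IsHomogeneous 3) (hS : CS Q F) (hd : (hs Q).det = 0)
    (hT : GoodCO T Q F) (ξ : Fin 4 → Φ) (hξ : ξ ≠ 0)
    (hQξ : eval₂ ((algebraMap C Φ).comp (algebraMap K C)) ξ Q = 0)
    (hFξ : eval₂ ((algebraMap C Φ).comp (algebraMap K C)) ξ F = 0)
    (hgen : IntermediateField.adjoin C {z : Φ | ∃ i j, z = ξ i / ξ j} = ⊤) :
    ∃ β : Φ, ESH.IsBelyi C β ∧
      Module.finrank (IntermediateField.adjoin C {β}) Φ ≤ ESH.tw 140 (ESH.szK K T) := by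
  classical
  have hC0 : CharZero C := charZero_of_injective_algebraMap (algebraMap K C).injective
  have h2 : (2 : C) ≠ 0 := two_ne_zero
  have hQC : (map (algebraMap K C) Q).IsHomogeneous 2 := hQ.map _
  have hFC : (map (algebraMap K C) F).IsHomogeneous 3 := hF.map _
  have hN : CN (map (algebraMap K C) Q) (map (algebraMap K C) F) := (CS.map _ hS).cn
  have hdC : (hs (map (algebraMap K C) Q)).det = 0 := by
    rw [map_hs]
    have := RingHom.map_det (algebraMap K C) (hs Q)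
    rw [RingHom.mapMatrix_apply] at this
    rw [← this, hd, map_zero]
  obtain ⟨φ, φ', h1, h1', hq⟩ := spk_c h2 _ _ hQC hFC hN hdC
  have hG : (ls φ (map (algebraMap K C) F)).IsHomogeneous 3 := ls_hom φ hFC
  have hNG : CN (qc C) (ls φ (map (algebraMap K C) F)) := by
    have := hN.tr φ φ' h1' h1 1 1 one_ne_zero one_ne_zero 0
    simpa [hq] using this
  have he := kcf_ev _ hNG
  obtain ⟨A, hA, hcq⟩ := cqt _ hG _ rfl (isUnit_iff_ne_zero.2 he)
  have hNS := cqn h2 _ hNG _ he A hA hcq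
  have hGal : GalC K A := kga h2 Q F φ φ' h1 h1' hq _ he A hA hcq
  have hL : ∀ V : ValuationSubring C, ESH.GoodV T 3 V → LocC K V A := fun V hV =>
    klo T Q F hQ hF hd hT φ φ' h1 h1' hq _ he A hA hcq V hV
  have e1 : eval₂ (algebraMap C Φ) ξ (map (algebraMap K C) Q) = 0 := by
    rw [eval₂_map]; exact hQξ
  have e2 : eval₂ (algebraMap C Φ) ξ (map (algebraMap K C) F) = 0 := by
    rw [eval₂_map]; exact hFξ
  obtain ⟨x, z, hx, hz⟩ := kpt φ φ' h1 _ _ hFC hq _ he A hA hcq ξ hξ e1 e2 hgen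
  exact kfi T A hA hNS hGal hL x z hx hz

end Pool.Agent.T1
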