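import Pool.Agent.T1.QCF
import Pool.Agent.T1.KCF
import Pool.Agent.HFB.HBE
import Pool.Agent.ESH.LFT

/-!
# T1 / GFH: the stable Faltings height

`qcf` or `kcf` (`tw 140 ≤ tw 332`: `tw_mono`) for the images of the `x i` in `Φ`, then `HFB.hbe`: see `G4/FHG.lean` (copy and adapt): `ξ = ![1, x 0, x 1, x 2]`; generation: `x i = ξ (i + 1) / ξ 0`.
Bounds: `tw 20 (tw 332 s + 4 + 16) ≤ tw 354 s ≤ tw 360 s`.
-/

namespace Pool.Agent.T1

open MvPolynomial NumberField IsDedekindDomain Pool.Agent.Helper11 Pool.Agent.ESH Pool.Agent.HFB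
open scoped KaehlerDifferential

private theorem gfh_gen {K F C Φ : Type*} [Field K] [Field F] [Algebra K F] [Field C]
    [Algebra K C] [Field Φ] [Algebra C Φ] [Algebra F Φ] (hc : Cmps K F C Φ) (x y z : F)
    (hgen : IntermediateField.adjoin K {x, y, z} = ⊤) :
    IntermediateField.adjoin C {w : Φ | ∃ i j : Fin 4,
      w = (![1, algebraMap F Φ x, algebraMap F Φ y, algebraMap F Φ z] : Fin 4 → Φ) i /
        (![1, algebraMap F Φ x, algebraMap F Φ y, algebraMap F Φ z] : Fin 4 → Φ) j} = ⊤ := by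
  rw [eq_top_iff]
  intro f _
  set S : Set Φ := {w : Φ | ∃ i j : Fin 4,
      w = (![1, algebraMap F Φ x, algebraMap F Φ y, algebraMap F Φ z] : Fin 4 → Φ) i /
        (![1, algebraMap F Φ x, algebraMap F Φ y, algebraMap F Φ z] : Fin 4 → Φ) j} with hSd
  set E := IntermediateField.adjoin C S with hE
  have hS1 : algebraMap F Φ x ∈ S := ⟨1, 0, by simp⟩
  have hS2 : algebraMap F Φ y ∈ S := ⟨2, 0, by simp⟩
  have hS3 : algebraMap F Φ z ∈ S := ⟨3, 0, by simp⟩
  have h1 : ∀ u : F, algebraMap F Φ u ∈ E := by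
    intro u
    have hu : u ∈ IntermediateField.adjoin K {x, y, z} := by
      rw [hgen]
      exact IntermediateField.mem_top
    induction hu using IntermediateField.adjoin_induction with
    | mem w hw =>
      refine IntermediateField.subset_adjoin C _ ?_
      rcases hw with rfl | rfl | hw
      · exact hS1
      · exact hS2
      · rw [Set.mem_singleton_iff.1 hw]
        exact hS3
    | algebraMap c =>
      rw [hc.comm]
      exact E.algebraMap_mem _
    | add a b _ _ ha hb =>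
      rw [map_add]
      exact E.add_mem ha hb
    | inv a _ ha =>
      rw [map_inv₀]
      exact E.inv_mem ha
    | mul a b _ _ ha hb =>
      rw [map_mul]
      exact E.mul_mem ha hb
  have h2 : ∀ w ∈ Submodule.span C (Set.range (algebraMap F Φ)), w ∈ E := by
    intro w hw
    have h3 : Submodule.span C (Set.range (algebraMap F Φ)) ≤ E.toSubalgebra.toSubmodule := by
      refine Submodule.span_le.2 ?_
      rintro _ ⟨y, rfl⟩
      exact h1 y
    exact h3 hw
  obtain ⟨a, ha, b, hb, hb0, hab⟩ := hc.gen f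
  have h4 : f = a / b := by
    rw [eq_div_iff hb0, hab]
  rw [h4]
  exact E.div_mem (h2 a ha) (h2 b hb)

theorem gfh {K F C Φ : Type*} [Field K] [NumberField K] [Field F] [Algebra K F] [FunField K F] [Field C]
    [Algebra K C] [Algebra.IsAlgebraic K C] [IsAlgClosed C] [Field Φ] [Algebra C Φ] [Algebra F Φ]
    (hc : Cmps K F C Φ) (T : Finset (HeightOneSpectrum (𝓞 K))) (Q G : MvPolynomial (Fin 4) K)
    (hQ : Q.IsHomogeneous 2) (hG : G.IsHomogeneous 3) (hS : CS Q G) (hT : GoodCO T Q G)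
    (x y z : F) (hQx : eval₂ (algebraMap K F) ![1, x, y, z] Q = 0)
    (hGx : eval₂ (algebraMap K F) ![1, x, y, z] G = 0)
    (hgen : IntermediateField.adjoin K {x, y, z} = ⊤)
    (a : FinitePlace K → AbsoluteValue C ℝ)
    (ha : ∀ v, IsNonarchimedean (a v) ∧ ∀ y : K, a v (algebraMap K C y) = v y)
    {Ψ : (K →+* ℂ) → Type*} [∀ σ, Field (Ψ σ)] [∀ σ, Algebra ℂ (Ψ σ)] (j : ∀ σ, F →+* Ψ σ)
    (hj : ∀ σ, CmpE σ (j σ)) (x₀ : F) (f₀ : Fin 4 → F)
    (hr : ∀ i, ∀ R : Place C Φ, 0 ≤ R.ordDiff (algebraMap F Φ (f₀ i) • KaehlerDifferential.D C Φ (algebraMap F Φ x₀)))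
    (hli : LinearIndependent C (fun i => algebraMap F Φ (f₀ i) • KaehlerDifferential.D C Φ (algebraMap F Φ x₀)))
    (hsp : ∀ η : Ω[Φ⁄C], (∀ R : Place C Φ, 0 ≤ R.ordDiff η) → η ∈ Submodule.span C
      (Set.range (fun i => algebraMap F Φ (f₀ i) • KaehlerDifferential.D C Φ (algebraMap F Φ x₀)))) :
    hFal (C := C) (Φ := Φ) a j x₀ f₀ ≤ tw 360 (szK K T) := by
  have : FunField C Φ := ffc hc
  set ξ : Fin 4 → Φ := ![1, algebraMap F Φ x, algebraMap F Φ y, algebraMap F Φ z] with hξd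
  have hξ : ξ ≠ 0 := by
    intro h
    have := congrFun h 0
    exact one_ne_zero this
  have hev : ∀ P : MvPolynomial (Fin 4) K, eval₂ (algebraMap K F) ![1, x, y, z] P = 0 →
      eval₂ ((algebraMap C Φ).comp (algebraMap K C)) ξ P = 0 := by
    intro P hP
    have h2 : (algebraMap C Φ).comp (algebraMap K C) = (algebraMap F Φ).comp (algebraMap K F) :=
      RingHom.ext fun y => (hc.comm y).symm
    have h3 : ξ = fun i => algebraMap F Φ ((![1, x, y, z] : Fin 4 → F) i) := by
      ext i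
      fin_cases i
      · exact (map_one _).symm
      · rfl
      · rfl
      · rfl
    rw [h2, h3]
    have h4 := congrArg (algebraMap F Φ) hP
    rw [map_zero, hom_eval₂] at h4
    exact h4
  have hgenC := gfh_gen hc x y z hgen
  have hβ : ∃ β : Φ, IsBelyi C β ∧
      Module.finrank (IntermediateField.adjoin C {β}) Φ ≤ tw 332 (szK K T) := by
    by_cases hd : (hs Q).det = 0
    · obtain ⟨β, h1, h2⟩ := kcf T Q G hQ hG hS hd hT ξ hξ (hev Q hQx) (hev G hGx) hgenC
      exact ⟨β, h1, h2.trans (tw_mono (by norm_num) le_rfl)⟩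
    · exact qcf T Q G hQ hG hS hd hT ξ hξ (hev Q hQx) (hev G hGx) hgenC
  obtain ⟨β, hβ, hβd⟩ := hβ
  have hs16 : 16 ≤ szK K T := by
    rw [szK]
    omega
  refine (hbe hc a ha j hj x₀ f₀ hr hli hsp β hβ).trans ?_
  have h5 : Module.finrank (IntermediateField.adjoin C {β}) Φ + 4 + 16 ≤ tw 334 (szK K T) := by
    have h6 : (4 : ℕ) ≤ tw 332 (szK K T) := le_trans (by omega) (le_tw 332 _)
    have h7 := tw_add hs16 hβd h6
    have h8 : (16 : ℕ) ≤ tw 333 (szK K T) := le_trans (by omega) (le_tw 333 _)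
    exact tw_add hs16 h7 h8
  have h9 : tw 20 (Module.finrank (IntermediateField.adjoin C {β}) Φ + 4 + 16) ≤ tw 360 (szK K T) := by
    have h10 : tw 20 (tw 334 (szK K T)) = tw 354 (szK K T) := tw_comp 20 334 _
    exact (tw_mono le_rfl h5).trans (h10.le.trans (tw_mono (by norm_num) le_rfl))
  exact_mod_cast h9

end Pool.Agent.T1
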