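import Pool.Agent.T1.KEB

/-!
# T1 / GRB: all scalar products of the entries of a web are bounded

Bitangents of `RB b`: `e₀, e₁, e₂` (`PQ.bit_x`) and `(1, 1, 1) = b 0` (`PQ.bit_s`, `PQ.rel_field`, `ND b`: `b 0 r = 1`; see PQ/DSC.lean `hB`), pairwise with cross product `≠ 0`, bounded (`Bd.zero`, `Bd.one`).  `keb` for the six pairs: `ze M i j` (`i ≠ j`) and `∑ j, ze M j i`
(pair `((1,1,1), e_i)`) are `Bd (c + 80)`; so all `ze M i j` are `Bd (c + 90)` (`PB` with these six numbers, `ze_symm`).  `θ = (b, ze)`, level `c + 90`: `12 gr abcd` is `PB θ 600` by `gr_three`, `sym_val` (values of `RB b` at integral points with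
coordinates `≤ 4`: `pb_RB`, `PB.int`), so `PB.quot`: `Bd (c + 100)`.
-/

namespace Pool.Agent.T1

open MvPolynomial Matrix
open Pool.Agent.PQ (P3 NS SF sb RB ND l1 lin Bit)

private theorem grb_single {C : Type*} [Field C] {σ : Type} {θ : σ → C} (a i : Fin 3) :
    PB θ 0 ((Pi.single a 1 : Fin 3 → C) i) := by
  by_cases h : i = a
  · subst h
    rw [Pi.single_eq_same]
    exact PB.one
  · rw [Pi.single_eq_of_ne h]
    exact PB.zero

private theorem grb_cross {C : Type*} [Field C] {σ : Type} {θ : σ → C} (a b i : Fin 3) :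
    PB θ 1 ((crossProduct (Pi.single a 1 : Fin 3 → C) (Pi.single b 1)) i) := by
  rw [cross_apply]
  have h : ∀ x y z w : Fin 3, PB θ 1 ((Pi.single a 1 : Fin 3 → C) x * (Pi.single b 1 : Fin 3 → C) y -
      (Pi.single a 1 : Fin 3 → C) z * (Pi.single b 1 : Fin 3 → C) w) := fun x y z w =>
    (((grb_single a x).mul (grb_single b y)).sub ((grb_single a z).mul (grb_single b w))).mono (by simp)
  fin_cases i
  · exact h 1 2 2 1
  · exact h 2 0 0 2
  · exact h 0 1 1 0

private theorem grb_pt {C : Type*} [Field C] {σ : Type} {θ : σ → C} (ε : Fin 4 → Fin 2) (v : Fin 4 → Fin 3)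
    (i : Fin 3) : PB θ 4 (∑ l, ((ε l : ℕ) : C) * (Pi.single (v l) 1 : Fin 3 → C) i) := by
  have h : ∀ l ∈ Finset.univ, PB θ 0 (((ε l : ℕ) : C) * (Pi.single (v l) 1 : Fin 3 → C) i) := by
    intro l _
    have h1 : PB θ 0 (((ε l : ℕ) : C)) := by
      have h2 : ε l = 0 ∨ ε l = 1 := by omega
      rcases h2 with h2 | h2 <;> rw [h2]
      · simpa using PB.zero
      · simpa using PB.one
    exact (h1.mul (grb_single _ _)).mono (by simp)
  exact (PB.sum _ _ h).mono (by simp)

private theorem grb_cross_ne {C : Type*} [Field C] (i j : Fin 3) (h : i ≠ j) :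
    crossProduct (Pi.single i 1 : Fin 3 → C) (Pi.single j 1) ≠ 0 := by
  rw [cross_apply]
  intro h0
  have h1 := congrFun h0 0
  have h2 := congrFun h0 1
  have h3 := congrFun h0 2
  fin_cases i <;> fin_cases j <;> first | exact absurd rfl h | (solve | simp at h1) | (solve | simp at h2) | (solve | simp at h3)

private theorem grb_cross_ne' {C : Type*} [Field C] (j : Fin 3) :
    crossProduct (fun _ => 1 : Fin 3 → C) (Pi.single j 1) ≠ 0 := by
  rw [cross_apply]
  intro h0
  have h1 := congrFun h0 0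
  have h2 := congrFun h0 1
  have h3 := congrFun h0 2
  fin_cases j <;> first | (solve | simp at h1) | (solve | simp at h2)

theorem grb {C : Type*} [Field C] [CharZero C] [IsAlgClosed C] {c s : ℕ} (hs : 16 ≤ s) (hc : 2 ≤ c)
    (D : P4 C) (hS : Smo D) (hU : UNH c s D) (M : Web C) (hM : Sy M) (u : C) (hu : u ≠ 0)
    (hd : dW M = MvPolynomial.C u * D) (b : Fin 4 → Fin 3 → C) (hbN : ND b) (hb : ∀ i r, Bd c s (b i r))
    (hq : qt M = RB b) (i j k l : Fin 3) : Bd (c + 100) s (bf (en M i j) (en M k l)) := by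
  have hsing : ∀ a r : Fin 3, Bd c s ((Pi.single a 1 : Fin 3 → C) r) := by
    intro a r
    by_cases h : r = a
    · subst h
      rw [Pi.single_eq_same]
      exact Bd.one hs hc
    · rw [Pi.single_eq_of_ne h]
      exact Bd.zero hs hc
  have hze : ∀ a d : Fin 3, a ≠ d → Bd (c + 80) s (ze M a d) := by
    intro a d had
    have h1 := keb hs hc D hS hU M hM u hu hd b hb hq (Pi.single a 1) (Pi.single d 1) _ _
      (PQ.bit_x (PQ.yy b) a) (PQ.bit_x (PQ.yy b) d) (grb_cross_ne a d had) (hsing a) (hsing d)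
    convert h1 using 1
    simp [Finset.sum_mul, Pi.single_apply, Finset.sum_ite_eq]
  have hone : b 0 = fun _ => 1 := by
    funext r
    exact hbN.zero r
  have hT : ∀ d : Fin 3, Bd (c + 80) s (ze M 0 d + ze M 1 d + ze M 2 d) := by
    intro d
    have hbit := PQ.bit_s (b 0) (hbN.ne 0) (PQ.yy b) _ (PQ.rel_field b 0 (hbN.ne 0))
    rw [hone] at hbit
    have h1 := keb hs hc D hS hU M hM u hu hd b hb hq (fun _ => 1) (Pi.single d 1) _ _
      hbit (PQ.bit_x (PQ.yy b) d) (grb_cross_ne' d) (fun _ => Bd.one hs hc) (hsing d)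
    convert h1 using 1
    simp [Pi.single_apply, Finset.sum_ite_eq, Fin.sum_univ_three]
  have hall : ∀ a d : Fin 3, Bd (c + 90) s (ze M a d) := by
    intro a d
    let θ : Fin 6 → C := ![ze M 0 1, ze M 0 2, ze M 1 2, ze M 0 0 + ze M 1 0 + ze M 2 0,
      ze M 0 1 + ze M 1 1 + ze M 2 1, ze M 0 2 + ze M 1 2 + ze M 2 2]
    have hθ : ∀ n, Bd (c + 80) s (θ n) := by
      intro n
      fin_cases n
      · exact hze 0 1 (by decide)
      · exact hze 0 2 (by decide)
      · exact hze 1 2 (by decide)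
      · exact hT 0
      · exact hT 1
      · exact hT 2
    have v0 : PB θ 1 (ze M 0 1) := PB.var (θ := θ) 0
    have v1 : PB θ 1 (ze M 0 2) := PB.var (θ := θ) 1
    have v2 : PB θ 1 (ze M 1 2) := PB.var (θ := θ) 2
    have v3 : PB θ 1 (ze M 0 0 + ze M 1 0 + ze M 2 0) := PB.var (θ := θ) 3
    have v4 : PB θ 1 (ze M 0 1 + ze M 1 1 + ze M 2 1) := PB.var (θ := θ) 4
    have v5 : PB θ 1 (ze M 0 2 + ze M 1 2 + ze M 2 2) := PB.var (θ := θ) 5
    have key : PB θ 4 (ze M a d) := by
      have s10 := ze_symm hM 1 0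
      have s20 := ze_symm hM 2 0
      have s21 := ze_symm hM 2 1
      fin_cases a <;> fin_cases d
      · have h1 := ((v3.sub v0).sub v1).mono (by simp : _ ≤ 4)
        convert h1 using 1
        rw [s10, s20]
        simp only [Fin.zero_eta, Fin.isValue]
        ring
      · exact v0.mono (by simp)
      · exact v1.mono (by simp)
      · have h1 := v0.mono (by simp : 1 ≤ 4)
        rw [← s10] at h1
        exact h1
      · have h1 := ((v4.sub v0).sub v2).mono (by simp : _ ≤ 4)
        convert h1 using 1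
        rw [s21]
        simp only [Fin.mk_one, Fin.isValue]
        ring
      · exact v2.mono (by simp)
      · have h1 := v1.mono (by simp : 1 ≤ 4)
        rw [← s20] at h1
        exact h1
      · have h1 := v2.mono (by simp : 1 ≤ 4)
        rw [← s21] at h1
        exact h1
      · have h1 := ((v5.sub v1).sub v2).mono (by simp : _ ≤ 4)
        convert h1 using 1
        simp only [Fin.reduceFinMk, Fin.isValue]
        ring
    exact PB.bd hs (by omega) (by norm_num : 4 ≤ 40000) (by simp) hθ key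
  let θ : (Fin 4 × Fin 3) ⊕ (Fin 3 × Fin 3) → C := Sum.elim (fun p => b p.1 p.2) (fun p => ze M p.1 p.2)
  have hθ : ∀ n, Bd (c + 90) s (θ n) := by
    rintro (⟨p, r⟩ | ⟨p, r⟩)
    · exact (hb p r).mono (by omega)
    · exact hall p r
  have hvb : ∀ p r, PB θ 1 (b p r) := fun p r => PB.var (θ := θ) (Sum.inl (p, r))
  have hvz : ∀ p r, PB θ 1 (ze M p r) := fun p r => PB.var (θ := θ) (Sum.inr (p, r))
  have hcr : ∀ a d e f : Fin 3, PB θ 9 (∑ i, ∑ j, ze M i j *
      (crossProduct (Pi.single a 1 : Fin 3 → C) (Pi.single d 1)) i *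
      (crossProduct (Pi.single e 1 : Fin 3 → C) (Pi.single f 1)) j) := by
    intro a d e f
    have h1 : ∀ i j, PB θ 3 (ze M i j *
      (crossProduct (Pi.single a 1 : Fin 3 → C) (Pi.single d 1)) i *
      (crossProduct (Pi.single e 1 : Fin 3 → C) (Pi.single f 1)) j) := fun i j =>
      (((hvz i j).mul (grb_cross a d i)).mul (grb_cross e f j)).mono (by simp)
    have h2 : ∀ i, PB θ 6 (∑ j, ze M i j *
      (crossProduct (Pi.single a 1 : Fin 3 → C) (Pi.single d 1)) i *
      (crossProduct (Pi.single e 1 : Fin 3 → C) (Pi.single f 1)) j) := fun i =>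
      (PB.sum _ _ (fun j _ => h1 i j)).mono (by simp)
    exact (PB.sum _ _ (fun i _ => h2 i)).mono (by simp)
  have hval : ∀ a1 a2 a3 a4 : Fin 3, PB θ 532 (4 * (bf (en M a1 a2) (en M a3 a4) + bf (en M a1 a3) (en M a2 a4) +
      bf (en M a1 a4) (en M a2 a3))) := by
    intro a1 a2 a3 a4
    rw [sym_val hM]
    have h1 : ∀ ε : Fin 4 → Fin 2, PB θ 516 ((-1 : C) ^ (∑ l, (ε l : ℕ)) *
        eval (fun i => ∑ l, ((ε l : ℕ) : C) * (Pi.single (![a1, a2, a3, a4] l) 1 : Fin 3 → C) i) (qt M)) := by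
      intro ε
      rw [hq]
      exact ((PB.one.neg.pow _).mul (pb_RB b hvb _ (fun i => grb_pt ε ![a1, a2, a3, a4] i))).mono (by simp)
    exact (PB.sum _ _ (fun ε _ => h1 ε)).mono (by simp)
  have h12 : PB θ 600 (12 * bf (en M i j) (en M k l)) := by
    have e1 : 12 * bf (en M i j) (en M k l) = 4 * (3 * bf (en M i j) (en M k l)) := by ring
    rw [e1, gr_three hM, mul_add, mul_add]
    have h4 : PB θ 2 (4 : C) := by
      have := PB.int (θ := θ) (N := 2) 4 (by norm_num)
      simpa using this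
    exact (((hval i j k l).add (h4.mul (hcr i l j k))).add (h4.mul (hcr i k j l))).mono (by simp)
  have h12' : PB θ 600 (12 : C) := by
    have := PB.int (θ := θ) (N := 4) 12 (by norm_num)
    simpa using this.mono (by simp : 4 ≤ 600)
  have hfin := PB.quot hs (by omega : 2 ≤ c + 90) (by norm_num : 600 ≤ 40000) (by simp) hθ h12 h12' (by norm_num)
  rw [mul_div_cancel_left₀ _ (by norm_num : (12 : C) ≠ 0)] at hfin
  exact hfin

end Pool.Agent.T1
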