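import Pool.Agent.T1.BDB

/-!
# T1 / GSA: Gram-Schmidt with bounded coefficients

`V` a vector space with a symmetric bilinear form `B`, vectors `E α`, `α : ι` (`ι` with at most 9 elements), all `B (E α) (E β)` bounded.  `OS n c f Q`: `f i` (`i < n`) are orthonormal, `f i = ∑ α, Q i α • E α`, all `Q i α` are `Bd c`.
The residual vectors are `E α - ∑ i, B (E α) (f i) • f i`; their scalar products are `B (E α) (E β) - ∑ i, B (E α) (f i) * B (E β) (f i)`.
`gs_step`: suppose the scalar product `r` of the residual vectors `α, β` is not zero.  If the square of one of the residual vectors `α`, `β` is not zero take `w` = this vector, otherwise `w` = the sum of the two (its square is `2 r ≠ 0`).  `ρ² = B w w`, `ρ ≠ 0`, `f n := ρ⁻¹ • w`: orthogonal to the old `f i`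
(the residual vectors are), square 1.  Coefficients: `B (E α) (f i) = ∑ β, Q i β * B (E α) (E β)`.  `θ` = all `B (E α) (E β)` and all `Q i α` (at most `81 + 36` numbers): the coefficients of `w` in terms of the `E β` and `B w w` are `PB θ 100`; `ρ`: `PB.rt`, level `c + 10`;
then `Q n β = (coefficient) / ρ`: `PB.quot` in `(θ, ρ)`, level `c + 20`.
`gs_all`: `B` such that there are no 5 orthonormal vectors (hypothesis `h5`).  Iterate `gs_step` from `n = 0`; it stops at some `n ≤ 4`.
-/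

namespace Pool.Agent.T1

section

variable {k V : Type*} [Field k] [CharZero k] [IsAlgClosed k] [AddCommGroup V] [Module k V]

/-- orthonormal vectors with bounded coefficients -/
structure OS (B : LinearMap.BilinForm k V) {ι : Type} [Fintype ι] (E : ι → V) (c s n : ℕ) (f : Fin n → V) : Prop where
  orth : ∀ i j, B (f i) (f j) = if i = j then 1 else 0
  co : ∃ Q : Fin n → ι → k, (∀ i, f i = ∑ α, Q i α • E α) ∧ ∀ i α, Bd c s (Q i α)

/-- residual vector -/
def rv (B : LinearMap.BilinForm k V) {n : ℕ} (f : Fin n → V) (x : V) : V := x - ∑ i, B x (f i) • f i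

theorem rv_orth (B : LinearMap.BilinForm k V) (hB : ∀ x y, B x y = B y x) {n : ℕ} (f : Fin n → V)
    (hf : ∀ i j, B (f i) (f j) = if i = j then 1 else 0) (x : V) (i : Fin n) : B (rv B f x) (f i) = 0 := by
  have _ := hB
  unfold rv
  rw [map_sub, LinearMap.sub_apply, map_sum, LinearMap.sum_apply]
  simp only [map_smul, LinearMap.smul_apply, smul_eq_mul, hf]
  rw [Finset.sum_eq_single i]
  · simp
  · intro j _ hj
    rw [if_neg hj, mul_zero]
  · intro h
    exact absurd (Finset.mem_univ i) h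

omit [CharZero k] [IsAlgClosed k] in
private theorem gsa_add (B : LinearMap.BilinForm k V) {n : ℕ} (f : Fin n → V) (x y : V) :
    rv B f (x + y) = rv B f x + rv B f y := by
  unfold rv
  simp only [map_add, LinearMap.add_apply, add_smul, Finset.sum_add_distrib]
  abel

private theorem gsa_key (B : LinearMap.BilinForm k V) (hB : ∀ x y, B x y = B y x) {ι : Type} [Fintype ι]
    (hι : Fintype.card ι ≤ 9) (E : ι → V) {c s n : ℕ} (hs : 16 ≤ s) (hc : 2 ≤ c) (hn : n ≤ 4)
    (hG : ∀ α β, Bd c s (B (E α) (E β))) (f : Fin n → V) (h : OS B E c s n f) (m : ι → ℤ)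
    (hm : ∀ γ, (m γ).natAbs ≤ 2) (x : V) (hx : x = ∑ γ, (m γ : k) • E γ)
    (hne : B (rv B f x) (rv B f x) ≠ 0) : ∃ g : Fin (n + 1) → V, OS B E (c + 20) s (n + 1) g := by
  obtain ⟨Q, hQ, hQb⟩ := h.co
  -- the coefficients
  obtain ⟨b, hb⟩ : ∃ b : Fin n → k, b = fun i => ∑ γ, ∑ δ, (m γ : k) * Q i δ * B (E γ) (E δ) := ⟨_, rfl⟩
  have hbx : ∀ i, B x (f i) = b i := by
    intro i
    rw [hx, hQ i, hb]
    simp only [map_sum, map_smul, LinearMap.sum_apply, LinearMap.smul_apply, smul_eq_mul, Finset.mul_sum]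
    rw [Finset.sum_comm]
    refine Finset.sum_congr rfl fun γ _ => Finset.sum_congr rfl fun δ _ => ?_
    ring
  obtain ⟨W, hW⟩ : ∃ W : ι → k, W = fun δ => (m δ : k) - ∑ i, b i * Q i δ := ⟨_, rfl⟩
  have hw : rv B f x = ∑ δ, W δ • E δ := by
    unfold rv
    simp only [hbx]
    rw [hW]
    simp only [sub_smul, Finset.sum_sub_distrib]
    rw [← hx]
    congr 1
    simp only [Finset.sum_smul, mul_smul]
    rw [Finset.sum_comm]
    refine Finset.sum_congr rfl fun i _ => ?_
    rw [← Finset.smul_sum, ← hQ i]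
  have hww : B (rv B f x) (rv B f x) = ∑ γ, ∑ δ, W γ * W δ * B (E γ) (E δ) := by
    rw [hw]
    simp only [map_sum, map_smul, LinearMap.sum_apply, LinearMap.smul_apply, smul_eq_mul, Finset.mul_sum]
    rw [Finset.sum_comm]
    refine Finset.sum_congr rfl fun γ _ => Finset.sum_congr rfl fun δ _ => ?_
    ring
  obtain ⟨ρ, hρ⟩ := IsAlgClosed.exists_pow_nat_eq (B (rv B f x) (rv B f x)) (n := 2) (by norm_num)
  have hρ0 : ρ ≠ 0 := by
    intro h0
    rw [h0] at hρ
    apply hne
    rw [← hρ]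
    ring
  -- sizes
  obtain ⟨θ, hθ⟩ : ∃ θ : (ι × ι) ⊕ (Fin n × ι) → k,
      θ = Sum.elim (fun γδ => B (E γδ.1) (E γδ.2)) (fun iδ => Q iδ.1 iδ.2) := ⟨_, rfl⟩
  have hθb : ∀ i, Bd c s (θ i) := by
    intro i
    rw [hθ]
    rcases i with i | i
    · exact hG _ _
    · exact hQb _ _
  have card1 : Fintype.card ((ι × ι) ⊕ (Fin n × ι)) ≤ 117 := by
    simp only [Fintype.card_sum, Fintype.card_prod, Fintype.card_fin]
    nlinarith
  have pG : ∀ γ δ, PB θ 1 (B (E γ) (E δ)) := by
    intro γ δ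
    have h1 := PB.var (θ := θ) (Sum.inl (γ, δ))
    rw [hθ] at h1 ⊢
    exact h1
  have pQ : ∀ i δ, PB θ 1 (Q i δ) := by
    intro i δ
    have h1 := PB.var (θ := θ) (Sum.inr (i, δ))
    rw [hθ] at h1 ⊢
    exact h1
  have pm : ∀ γ, PB θ 1 ((m γ : k)) := fun γ => PB.int _ (by simpa using hm γ)
  have hcard : (Finset.univ : Finset ι).card ≤ 9 := hι
  have pb : ∀ i, PB θ 21 (b i) := by
    intro i
    rw [hb]
    have h1 : ∀ γ, PB θ 12 (∑ δ, (m γ : k) * Q i δ * B (E γ) (E δ)) := by
      intro γ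
      exact (PB.sum Finset.univ _ fun δ _ => ((pm γ).mul (pQ i δ)).mul (pG γ δ)).mono (by omega)
    exact (PB.sum Finset.univ _ fun γ _ => h1 γ).mono (by omega)
  have pW : ∀ δ, PB θ 27 (W δ) := by
    intro δ
    rw [hW]
    have h1 : PB θ 26 (∑ i, b i * Q i δ) := by
      refine (PB.sum Finset.univ _ fun i _ => (pb i).mul (pQ i δ)).mono ?_
      rw [Finset.card_univ, Fintype.card_fin]
      omega
    exact ((pm δ).sub h1).mono (by simp)
  have pww : PB θ 73 (B (rv B f x) (rv B f x)) := by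
    rw [hww]
    have h1 : ∀ γ, PB θ 64 (∑ δ, W γ * W δ * B (E γ) (E δ)) := by
      intro γ
      exact (PB.sum Finset.univ _ fun δ _ => ((pW γ).mul (pW δ)).mul (pG γ δ)).mono (by omega)
    exact (PB.sum Finset.univ _ fun γ _ => h1 γ).mono (by omega)
  have hρb : Bd (c + 10) s ρ :=
    PB.rt (N := 73) hs hc (by norm_num) (card1.trans (by norm_num)) hθb 2 (by norm_num) (by norm_num) pww
      (PB.one.mono (by norm_num)) one_ne_zero (by rw [one_mul]; exact hρ)
  have hWρ : ∀ δ, Bd (c + 20) s (W δ / ρ) := by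
    intro δ
    obtain ⟨θ', hθ'⟩ : ∃ θ' : ((ι × ι) ⊕ (Fin n × ι)) ⊕ Unit → k, θ' = Sum.elim θ (fun _ => ρ) := ⟨_, rfl⟩
    have hθb' : ∀ i, Bd (c + 10) s (θ' i) := by
      intro i
      rw [hθ']
      rcases i with i | i
      · exact (hθb i).mono (by omega)
      · exact hρb
    have card2 : Fintype.card (((ι × ι) ⊕ (Fin n × ι)) ⊕ Unit) ≤ 118 := by
      rw [Fintype.card_sum]
      simp only [Fintype.card_unit]
      omega
    have p1 : PB θ' 27 (W δ) := PB.reindex Sum.inl (fun i => by rw [hθ']; rfl) (pW δ)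
    have p2 : PB θ' 27 ρ := by
      have h1 := PB.var (θ := θ') (Sum.inr ())
      rw [hθ'] at h1 ⊢
      exact h1.mono (by norm_num)
    have h3 := PB.quot (N := 27) hs (by omega : 2 ≤ c + 10) (by norm_num) (card2.trans (by norm_num)) hθb' p1 p2 hρ0
    exact h3
  have horth : ∀ i, B (rv B f x) (f i) = 0 := rv_orth B hB f h.orth x
  refine ⟨Fin.snoc f (ρ⁻¹ • rv B f x), ?_, Fin.snoc Q (fun δ => W δ / ρ), ?_, ?_⟩
  · intro i j
    refine Fin.lastCases ?_ (fun i => ?_) i
    · refine Fin.lastCases ?_ (fun j => ?_) j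
      · simp only [Fin.snoc_last, map_smul, LinearMap.smul_apply, smul_eq_mul, if_true]
        rw [← hρ]
        field_simp
      · simp only [Fin.snoc_last, Fin.snoc_castSucc, map_smul, LinearMap.smul_apply, smul_eq_mul, horth, mul_zero]
        rw [if_neg (Fin.castSucc_lt_last j).ne']
    · refine Fin.lastCases ?_ (fun j => ?_) j
      · simp only [Fin.snoc_last, Fin.snoc_castSucc, map_smul, smul_eq_mul]
        rw [hB, horth, mul_zero, if_neg (Fin.castSucc_lt_last i).ne]
      · simp only [Fin.snoc_castSucc, h.orth, Fin.castSucc_inj]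
  · intro i
    refine Fin.lastCases ?_ (fun i => ?_) i
    · simp only [Fin.snoc_last]
      rw [hw, Finset.smul_sum]
      refine Finset.sum_congr rfl fun δ _ => ?_
      rw [smul_smul, div_eq_inv_mul]
    · simp only [Fin.snoc_castSucc]
      exact hQ i
  · intro i δ
    refine Fin.lastCases ?_ (fun i => ?_) i
    · simp only [Fin.snoc_last]
      exact hWρ δ
    · simp only [Fin.snoc_castSucc]
      exact (hQb i δ).mono (by omega)

theorem gs_step (B : LinearMap.BilinForm k V) (hB : ∀ x y, B x y = B y x) {ι : Type} [Fintype ι]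
    (hι : Fintype.card ι ≤ 9) (E : ι → V) {c s n : ℕ} (hs : 16 ≤ s) (hc : 2 ≤ c) (hn : n ≤ 4)
    (hG : ∀ α β, Bd c s (B (E α) (E β))) (f : Fin n → V) (h : OS B E c s n f) (α β : ι)
    (hne : B (rv B f (E α)) (rv B f (E β)) ≠ 0) : ∃ g : Fin (n + 1) → V, OS B E (c + 20) s (n + 1) g := by
  classical
  have hs1 : ∀ α : ι, E α = ∑ γ, ((Pi.single α 1 : ι → ℤ) γ : k) • E γ := by
    intro α
    rw [Finset.sum_eq_single α]
    · simp
    · intro j _ hj
      rw [Pi.single_eq_of_ne hj]
      simp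
    · intro h
      exact absurd (Finset.mem_univ α) h
  have hb1 : ∀ α γ : ι, ((Pi.single α 1 : ι → ℤ) γ).natAbs ≤ 1 := by
    intro α γ
    by_cases h1 : γ = α
    · rw [h1, Pi.single_eq_same]
      norm_num
    · rw [Pi.single_eq_of_ne h1]
      norm_num
  by_cases h1 : B (rv B f (E α)) (rv B f (E α)) = 0
  · by_cases h2 : B (rv B f (E β)) (rv B f (E β)) = 0
    · refine gsa_key B hB hι E hs hc hn hG f h (Pi.single α 1 + Pi.single β 1) (fun γ => ?_) (E α + E β) ?_ ?_
      · rw [Pi.add_apply]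
        have h3 := hb1 α γ
        have h4 := hb1 β γ
        have h5 := Int.natAbs_add_le ((Pi.single α 1 : ι → ℤ) γ) ((Pi.single β 1 : ι → ℤ) γ)
        omega
      · simp only [Pi.add_apply, Int.cast_add, add_smul, Finset.sum_add_distrib]
        rw [← hs1, ← hs1]
      · rw [gsa_add]
        simp only [map_add, LinearMap.add_apply, h1, h2]
        rw [hB (rv B f (E β)), zero_add, add_zero, ← two_mul]
        exact mul_ne_zero two_ne_zero hne
    · exact gsa_key B hB hι E hs hc hn hG f h (Pi.single β 1) (fun γ => (hb1 β γ).trans (by norm_num)) _ (hs1 β) h2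
  · exact gsa_key B hB hι E hs hc hn hG f h (Pi.single α 1) (fun γ => (hb1 α γ).trans (by norm_num)) _ (hs1 α) h1

theorem gs_all (B : LinearMap.BilinForm k V) (hB : ∀ x y, B x y = B y x) {ι : Type} [Fintype ι]
    (hι : Fintype.card ι ≤ 9) (E : ι → V) {c s : ℕ} (hs : 16 ≤ s) (hc : 2 ≤ c)
    (hG : ∀ α β, Bd c s (B (E α) (E β)))
    (h5 : ∀ f : Fin 5 → V, ¬ ∀ i j, B (f i) (f j) = if i = j then 1 else 0) :
    ∃ (n : ℕ) (f : Fin n → V), n ≤ 4 ∧ OS B E (c + 80) s n f ∧
      ∀ α β, B (rv B f (E α)) (rv B f (E β)) = 0 := by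
  by_contra hcon
  have key : ∀ j : ℕ, j ≤ 5 → ∃ f : Fin j → V, OS B E (c + 20 * j) s j f := by
    intro j
    induction j with
    | zero =>
      intro _
      exact ⟨Fin.elim0, fun i => Fin.elim0 i, Fin.elim0, fun i => Fin.elim0 i, fun i => Fin.elim0 i⟩
    | succ j ih =>
      intro hj
      obtain ⟨f, hf⟩ := ih (by omega)
      by_cases h0 : ∀ α β, B (rv B f (E α)) (rv B f (E β)) = 0
      · exfalso
        obtain ⟨Q, hQ, hQb⟩ := hf.co
        exact hcon ⟨j, f, by omega, ⟨hf.orth, Q, hQ, fun i α => (hQb i α).mono (by omega)⟩, h0⟩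
      · push Not at h0
        obtain ⟨α, β, hne⟩ := h0
        obtain ⟨g, hg⟩ := gs_step B hB hι E hs (by omega : 2 ≤ c + 20 * j) (by omega)
          (fun α β => (hG α β).mono (by omega)) f hf α β hne
        exact ⟨g, by rwa [Nat.mul_succ, ← add_assoc]⟩
  obtain ⟨f, hf⟩ := key 5 le_rfl
  exact h5 f hf.orth

end

end Pool.Agent.T1
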