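import Pool.Agent.T1.TCW

/-!
# T1 / HLF: half of a tetrad

`n` symmetric: factor the binary quadratic form `n 0 0 s₀² + 2 n 0 1 s₀s₁ + n 1 1 s₁² = (v₀ ∧ s)(v₁ ∧ s)`, `v ∧ s = v 0 * s₁ - v 1 * s₀` (`k` algebraically closed): `n = nf v₀ v₁`.  `w = wd v₀ v₁`, `bf n n = - w²/2`.  Write `D = - (A • lam + B)`, `B` symmetric
(`A = - bf lam D / 2 = (D 1 0 - D 0 1)/2`).  `f = A + w²/2`, `bf B B = 2 (f² - A²) = 2 w² (A + w²/4)`, `bf n B = 0`.
Case `w ≠ 0`: `v₀, v₁` is a basis of `k²`, so `nf v₀ v₀, nf v₀ v₁, nf v₁ v₁` is a basis of the symmetric matrices (`bf_nf_nf`: Gram matrix), `B = x₁ nf v₀ v₀ + y nf v₀ v₁ + x₀ nf v₁ v₁`; `bf n B = 0` gives `y = 0`; `bf B B = 2 x₀ x₁ w²`,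
so `x₀ x₁ = A + w²/4`.
Case `w = 0`: `bf n n = bf B B = bf n B = 0`, `n`, `B` symmetric, of determinant `0`, so (rank one, squares of linear forms, `k` algebraically closed) `n = nf u u`, `B = nf u' u'`, and `bf n B = wd u u'² = 0`.
If `n ≠ 0`: `u ≠ 0`, `u' = r u`, `B = r² nf u u`; take `v₀ = v₁ = u` (new choice of the factorisation) and `x₀, x₁` the roots of `X² - r² X + A`.
If `n = 0`: `v₀ = 0`, `v₁ = u'`, `x₀ = 1`, `x₁ = A`.
-/

namespace Pool.Agent.T1

open MvPolynomial Matrix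

private theorem HLF_mk {k : Type*} [Field k] [CharZero k] {D : Matrix (Fin 2) (Fin 2) k}
    {x₀ x₁ : k} {v₀ v₁ : Fin 2 → k}
    (h00 : D 0 0 = -(x₀ * v₁ 1 ^ 2 + x₁ * v₀ 1 ^ 2))
    (h01 : D 0 1 = -((x₀ * x₁ - wd v₀ v₁ ^ 2 / 4) - x₀ * (v₁ 1 * v₁ 0) - x₁ * (v₀ 1 * v₀ 0)))
    (h10 : D 1 0 = -(-(x₀ * x₁ - wd v₀ v₁ ^ 2 / 4) - x₀ * (v₁ 1 * v₁ 0) - x₁ * (v₀ 1 * v₀ 0)))
    (h11 : D 1 1 = -(x₀ * v₁ 0 ^ 2 + x₁ * v₀ 0 ^ 2)) :
    D = -((x₀ * x₁ - wd v₀ v₁ ^ 2 / 4) • lam + x₀ • nf v₁ v₁ + x₁ • nf v₀ v₀) := by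
  ext i j
  fin_cases i <;> fin_cases j
  · simp only [Fin.zero_eta, Matrix.neg_apply, Matrix.add_apply, Matrix.smul_apply, lam, nf,
      Matrix.of_apply, Matrix.cons_val_zero, Matrix.cons_val', smul_eq_mul]
    simp
    linear_combination h00
  · simp only [Fin.zero_eta, Fin.mk_one, Matrix.neg_apply, Matrix.add_apply, Matrix.smul_apply,
      lam, nf, Matrix.of_apply, Matrix.cons_val_zero, Matrix.cons_val', smul_eq_mul]
    simp
    linear_combination h01
  · simp only [Fin.zero_eta, Fin.mk_one, Matrix.neg_apply, Matrix.add_apply, Matrix.smul_apply,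
      lam, nf, Matrix.of_apply, Matrix.cons_val_zero, Matrix.cons_val', smul_eq_mul]
    simp
    linear_combination h10
  · simp only [Fin.zero_eta, Fin.mk_one, Matrix.neg_apply, Matrix.add_apply, Matrix.smul_apply,
      lam, nf, Matrix.of_apply, Matrix.cons_val_zero, Matrix.cons_val', smul_eq_mul]
    simp
    linear_combination h11

private theorem HLF_nf {k : Type*} [Field k] [CharZero k] {n : Matrix (Fin 2) (Fin 2) k}
    {u v : Fin 2 → k} (hn : n 0 1 = n 1 0) (h00 : n 0 0 = u 1 * v 1)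
    (h01 : n 0 1 = -(u 1 * v 0 + u 0 * v 1) / 2) (h11 : n 1 1 = u 0 * v 0) : n = nf u v := by
  rw [Matrix.eta_fin_two n, ← hn, h00, h01, h11]
  rfl

private theorem HLF_sq {k : Type*} [Field k] [IsAlgClosed k] {a b c : k} (h : b ^ 2 = a * c) :
    ∃ u : Fin 2 → k, u 1 ^ 2 = a ∧ u 0 ^ 2 = c ∧ -(u 1 * u 0) = b := by
  by_cases ha : a = 0
  · obtain ⟨z, hz⟩ := IsAlgClosed.exists_pow_nat_eq c (by norm_num : 0 < 2)
    have hb : b = 0 := by
      rw [ha, zero_mul] at h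
      exact pow_eq_zero_iff (by norm_num) |>.mp h
    exact ⟨![z, 0], by simp [ha], by simp [hz], by simp [hb]⟩
  · obtain ⟨z, hz⟩ := IsAlgClosed.exists_pow_nat_eq a (by norm_num : 0 < 2)
    have hz0 : z ≠ 0 := by
      rintro rfl
      exact ha (by rw [← hz]; simp)
    refine ⟨![-b / z, z], by simp [hz], ?_, ?_⟩
    · simp only [Matrix.cons_val_zero]
      field_simp
      linear_combination h - c * hz
    · simp only [Matrix.cons_val_zero, Matrix.cons_val_one]
      field_simp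

private theorem HLF_fac {k : Type*} [Field k] [IsAlgClosed k] [CharZero k] (a b c : k) :
    ∃ u v : Fin 2 → k, a = u 1 * v 1 ∧ b = -(u 1 * v 0 + u 0 * v 1) / 2 ∧ c = u 0 * v 0 := by
  by_cases ha : a = 0
  · exact ⟨![c, -(2 * b)], ![1, 0], by simp [ha], by simp, by simp⟩
  · obtain ⟨z, hz⟩ := IsAlgClosed.exists_pow_nat_eq (b ^ 2 - a * c) (by norm_num : 0 < 2)
    refine ⟨![-b + z, a], ![(-b - z) / a, 1], by simp, ?_, ?_⟩
    · simp only [Matrix.cons_val_zero, Matrix.cons_val_one]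
      field_simp
      ring
    · simp only [Matrix.cons_val_zero]
      field_simp
      linear_combination hz

theorem hlf {k : Type*} [Field k] [IsAlgClosed k] [CharZero k] (n D : Matrix (Fin 2) (Fin 2) k) (f : k)
    (hn : n 0 1 = n 1 0) (h0 : bf n D = 0) (h1 : bf D D = 2 * f ^ 2)
    (h2 : bf lam D + 2 * bf n n = -(2 * f)) :
    ∃ (x₀ x₁ : k) (v₀ v₁ : Fin 2 → k), n = nf v₀ v₁ ∧
      D = -((x₀ * x₁ - wd v₀ v₁ ^ 2 / 4) • lam + x₀ • nf v₁ v₁ + x₁ • nf v₀ v₀) := by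
  have e0 : n 0 0 * D 1 1 + n 1 1 * D 0 0 - n 0 1 * D 1 0 - n 1 0 * D 0 1 = 0 := h0
  have e1 : D 0 0 * D 1 1 + D 1 1 * D 0 0 - D 0 1 * D 1 0 - D 1 0 * D 0 1 = 2 * f ^ 2 := h1
  have e2 : D 0 1 - D 1 0 + 4 * (n 0 0 * n 1 1 - n 0 1 * n 1 0) = -(2 * f) := by
    have : bf lam D + 2 * bf n n = -(2 * f) := h2
    simp [bf, lam] at this
    linear_combination this
  rw [← hn] at e0 e2
  have h2' : (2 : k) ≠ 0 := two_ne_zero
  have hdet : D 0 0 * D 1 1 - ((D 0 1 + D 1 0) / 2) ^ 2 =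
      4 * (n 0 1 ^ 2 - n 0 0 * n 1 1) * ((D 1 0 - D 0 1) / 2 + (n 0 1 ^ 2 - n 0 0 * n 1 1)) := by
    have hf : f = (D 1 0 - D 0 1) / 2 + 2 * (n 0 1 ^ 2 - n 0 0 * n 1 1) := by
      linear_combination (1 / 2 : k) * e2
    rw [hf] at e1
    linear_combination (1 / 2 : k) * e1
  by_cases hw : n 0 1 ^ 2 - n 0 0 * n 1 1 = 0
  · have hn2 : n 0 1 ^ 2 = n 0 0 * n 1 1 := by linear_combination hw
    have hB2 : ((D 0 1 + D 1 0) / 2) ^ 2 = D 0 0 * D 1 1 := by
      rw [hw] at hdet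
      linear_combination -hdet
    obtain ⟨u, hu1, hu0, hu⟩ := HLF_sq hn2
    obtain ⟨v, hv1, hv0, hv⟩ := HLF_sq (a := -(D 0 0)) (b := -((D 0 1 + D 1 0) / 2))
      (c := -(D 1 1)) (by linear_combination hB2)
    by_cases hn0 : n 0 0 = 0 ∧ n 1 1 = 0
    · obtain ⟨ha, hc⟩ := hn0
      have hb : n 0 1 = 0 := by
        rw [ha, zero_mul] at hn2
        exact pow_eq_zero_iff (by norm_num) |>.mp hn2
      refine ⟨1, (D 1 0 - D 0 1) / 2, 0, v, HLF_nf hn (by simp [ha]) (by simp [hb])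
        (by simp [hc]), HLF_mk ?_ ?_ ?_ ?_⟩
      · simp only [Pi.zero_apply]
        linear_combination hv1
      · simp only [Pi.zero_apply, wd]
        linear_combination hv
      · simp only [Pi.zero_apply, wd]
        linear_combination hv
      · simp only [Pi.zero_apply]
        linear_combination hv0
    · -- u ≠ 0, v = r u
      have hwd : u 0 * v 1 - u 1 * v 0 = 0 := by
        have : (u 0 * v 1 - u 1 * v 0) ^ 2 = 0 := by
          have e3 : D 0 1 + D 1 0 = 2 * (v 1 * v 0) := by linear_combination (2:k) * hv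
          have e4 : n 0 1 = -(u 1 * u 0) := hu.symm
          have e5 : n 0 0 = u 1 ^ 2 := hu1.symm
          have e6 : n 1 1 = u 0 ^ 2 := hu0.symm
          have e7 : D 0 0 = -(v 1 ^ 2) := by linear_combination hv1
          have e8 : D 1 1 = -(v 0 ^ 2) := by linear_combination hv0
          rw [e5, e6, e4, e7, e8] at e0
          linear_combination -e0 + (u 1 * u 0) * e3
        exact pow_eq_zero_iff (by norm_num) |>.mp this
      obtain ⟨r, hr0, hr1⟩ : ∃ r, v 0 = r * u 0 ∧ v 1 = r * u 1 := by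
        by_cases hu0' : u 0 = 0
        · have hu1' : u 1 ≠ 0 := by
            intro h
            exact hn0 ⟨by rw [← hu1, h]; ring, by rw [← hu0, hu0']; ring⟩
          refine ⟨v 1 / u 1, ?_, by field_simp⟩
          rw [hu0', zero_mul, zero_sub, neg_eq_zero] at hwd
          rw [hu0', mul_zero]
          exact (mul_eq_zero.mp hwd).resolve_left hu1'
        · refine ⟨v 0 / u 0, by field_simp, ?_⟩
          field_simp
          linear_combination hwd
      obtain ⟨z, hz⟩ := IsAlgClosed.exists_pow_nat_eq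
        (r ^ 4 - 4 * ((D 1 0 - D 0 1) / 2)) (by norm_num : 0 < 2)
      have hxx : (r ^ 2 + z) / 2 * ((r ^ 2 - z) / 2) = (D 1 0 - D 0 1) / 2 := by
        linear_combination (-1 / 4 : k) * hz
      have hwu : wd u u = 0 := by simp only [wd]; ring
      refine ⟨(r ^ 2 + z) / 2, (r ^ 2 - z) / 2, u, u, HLF_nf hn ?_ ?_ ?_, HLF_mk ?_ ?_ ?_ ?_⟩
      · linear_combination -hu1
      · linear_combination -hu
      · linear_combination -hu0
      · rw [hr1] at hv1
        linear_combination hv1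
      · rw [hxx, hwu]
        rw [hr0, hr1] at hv
        linear_combination hv
      · rw [hxx, hwu]
        rw [hr0, hr1] at hv
        linear_combination hv
      · rw [hr0] at hv0
        linear_combination hv0
  · obtain ⟨u, v, ha, hb, hc⟩ := HLF_fac (n 0 0) (n 0 1) (n 1 1)
    have hw2 : wd u v ^ 2 = 4 * (n 0 1 ^ 2 - n 0 0 * n 1 1) := by
      rw [ha, hb, hc]
      simp only [wd]
      ring
    have hw0 : wd u v ≠ 0 := by
      intro h
      apply hw
      have h4 : (4 : k) ≠ 0 := by norm_num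
      have : 4 * (n 0 1 ^ 2 - n 0 0 * n 1 1) = 0 := by rw [← hw2, h]; ring
      exact (mul_eq_zero.mp this).resolve_left h4
    -- B = (p, b; b, s)
    set p := -(D 0 0) with hp
    set s := -(D 1 1) with hs
    set b := -((D 0 1 + D 1 0) / 2) with hbb
    set A := (D 1 0 - D 0 1) / 2 with hA
    have g0 : n 0 0 * s + n 1 1 * p - 2 * n 0 1 * b = 0 := by
      rw [hp, hs, hbb]
      linear_combination -e0
    have g1 : p * s - b ^ 2 = wd u v ^ 2 * (A + wd u v ^ 2 / 4) := by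
      rw [hw2, hp, hs, hbb]
      linear_combination hdet
    have hD01 : D 0 1 = -(A + b) := by rw [hA, hbb]; ring
    have hD10 : D 1 0 = -(-A + b) := by rw [hA, hbb]; ring
    have hD00 : D 0 0 = -p := by rw [hp]; ring
    have hD11 : D 1 1 = -s := by rw [hs]; ring
    set x₀ := (u 1 ^ 2 * s + u 0 ^ 2 * p + 2 * (u 1 * u 0) * b) / wd u v ^ 2 with hx0
    set x₁ := (v 1 ^ 2 * s + v 0 ^ 2 * p + 2 * (v 1 * v 0) * b) / wd u v ^ 2 with hx1
    rw [ha, hb, hc] at g0
    have k00 : p = x₀ * v 1 ^ 2 + x₁ * u 1 ^ 2 := by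
      rw [hx0, hx1]
      field_simp
      simp only [wd] at *
      linear_combination (-2 * (u 1 * v 1)) * g0
    have k11 : s = x₀ * v 0 ^ 2 + x₁ * u 0 ^ 2 := by
      rw [hx0, hx1]
      field_simp
      simp only [wd] at *
      linear_combination (-2 * (u 0 * v 0)) * g0
    have k01 : b = -(x₀ * (v 1 * v 0)) - x₁ * (u 1 * u 0) := by
      rw [hx0, hx1]
      field_simp
      simp only [wd] at *
      linear_combination (u 0 * v 1 + u 1 * v 0) * g0
    have hxx : x₀ * x₁ = A + wd u v ^ 2 / 4 := by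
      have hw2' : wd u v ^ 2 ≠ 0 := pow_ne_zero 2 hw0
      apply mul_left_cancel₀ hw2'
      rw [← g1]
      rw [k00, k11, k01]
      simp only [wd]
      ring
    refine ⟨x₀, x₁, u, v, HLF_nf hn ha hb hc, HLF_mk ?_ ?_ ?_ ?_⟩
    · rw [hD00]; linear_combination -k00
    · rw [hD01, hxx]; linear_combination -k01
    · rw [hD10, hxx]; linear_combination -k01
    · rw [hD11]; linear_combination -k11

end Pool.Agent.T1
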