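import Pool.Agent.T1.KLM
import Pool.Agent.T1.HHS
import Pool.Agent.T1.Defs2
import Pool.Agent.ST.Gauss

/-!
# T1 / RGU: rigid webs are determined by their reduction

`rgu`.  `V` valuation ring of the field `F` (algebraically closed), residue field `κ` algebraically closed (`Pool.Agent.ST.isAlgClosed_residueField V`).  Suppose `M ≠ M'`.  Among the (finitely many) entries of
`M' - M` (in `V`) choose one, `c`, of maximal valuation; `c ≠ 0`, `M' - M = c • E` with `E` a web over `V`, one of whose entries is `1`.  `V.valuation c < 1` (same reduction: `c` is in the maximal ideal).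
`dW (M + c • E) = dW M + C c * trace ((pm M).adjugate * pm E) + C (c^2) * (...)` (expansion of the determinant of `3 × 3` matrices; `E`, `M` symmetric not needed).  So, `dW M' = dW M`, `P4 V` a domain, `c ≠ 0`:
`trace ((pm M).adjugate * pm E) = - C c * (...)`, whose reduction is `0`.  Evaluate at `s, t` over `κ`: `trace ((aw M̄ s t).adjugate * aw Ē s t) = 0`.  `hhs`: (H1), (H2) for `M̄`; `Ē 0 j = 0` because `M 0 j = M' 0 j` (`Rig`), `c ≠ 0`.
`klm0`: `Ē = 0`, contradiction.
-/

namespace Pool.Agent.T1

open MvPolynomial Matrix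

private theorem rgu_det {k : Type*} [CommRing k] (A B : Matrix (Fin 3) (Fin 3) k) (x : k) :
    (A + x • B).det = A.det + x * ((A.adjugate * B).trace + x * ((B.adjugate * A).trace + x * B.det)) := by
  rw [det_fin_three, det_fin_three, det_fin_three, trace_fin_three, trace_fin_three,
    adjugate_fin_three, adjugate_fin_three]
  simp [Matrix.mul_apply, Fin.sum_univ_three]
  ring

private theorem rgu_pm_add {R : Type*} [CommRing R] (M N : Web R) : pm (M + N) = pm M + pm N := by
  ext1 a b
  rw [Matrix.add_apply, pm_apply, pm_apply, pm_apply, ← pb_add]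
  rfl

private theorem rgu_trace {R S : Type*} [CommRing R] [CommRing S] (f : R →+* S)
    (A B : Matrix (Fin 3) (Fin 3) R) :
    f (A.adjugate * B).trace = ((A.map f).adjugate * B.map f).trace := by
  have h1 : (A.map f).adjugate = A.adjugate.map f := (RingHom.map_adjugate f A).symm
  rw [h1, ← Matrix.map_mul, Matrix.trace, Matrix.trace, map_sum]
  rfl

private theorem rgu_unit {M : Type*} [Field M] (V : ValuationSubring M) (x : V) :
    V.valuation (x : M) = 1 ↔ IsLocalRing.residue V x ≠ 0 := by
  rw [← V.valuation_eq_one_iff x]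
  rw [Ne, IsLocalRing.residue_eq_zero_iff, IsLocalRing.mem_maximalIdeal, mem_nonunits_iff, not_not]

theorem rgu {F : Type*} [Field F] [IsAlgClosed F] (V : ValuationSubring F)
    (h2 : V.valuation (2 : F) = 1) (a : Fin 3 → V) (M M' : Web V) (hM : Rig a M) (hM' : Rig a M')
    (hd : dW M = dW M') (hS : Smo (map (IsLocalRing.residue V) (dW M)))
    (hr : mapW (IsLocalRing.residue V) M = mapW (IsLocalRing.residue V) M') : M = M' := by
  classical
  have hκ : IsAlgClosed (IsLocalRing.ResidueField V) := ST.isAlgClosed_residueField V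
  by_contra hne
  set res := IsLocalRing.residue V with hres
  let d : (Fin 2 × Fin 2) × (Fin 3 × Fin 3) → V := fun x =>
    M' x.1.1 x.1.2 x.2.1 x.2.2 - M x.1.1 x.1.2 x.2.1 x.2.2
  obtain ⟨x0, -, hx0⟩ := Finset.exists_max_image Finset.univ (fun x => V.valuation (d x : F))
    ⟨((0, 0), (0, 0)), Finset.mem_univ _⟩
  have hx0' : ∀ x, V.valuation (d x : F) ≤ V.valuation (d x0 : F) := fun x => hx0 x (Finset.mem_univ x)
  obtain ⟨c, hc⟩ : ∃ c, c = d x0 := ⟨_, rfl⟩
  rw [← hc] at hx0'
  have hc0 : c ≠ 0 := by
    intro h0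
    apply hne
    have hz : ∀ x, d x = 0 := by
      intro x
      have h1 := hx0' x
      rw [h0] at h1
      have h3 : V.valuation (d x : F) = 0 := by
        apply le_antisymm _ zero_le
        simpa using h1
      have h4 : (d x : F) = 0 := (V.valuation).zero_iff.1 h3
      exact Subtype.ext h4
    funext i j
    ext p q
    have := hz ((i, j), (p, q))
    simp only [d, sub_eq_zero] at this
    rw [this]
  have hcF : (c : F) ≠ 0 := fun h => hc0 (Subtype.ext h)
  have hmem : ∀ x, (d x : F) / (c : F) ∈ V := by
    intro x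
    rw [← V.valuation_le_one_iff, map_div₀]
    have hv : V.valuation (c : F) ≠ 0 := (Valuation.ne_zero_iff _).2 hcF
    exact div_le_one_of_le₀ (hx0' x) zero_le
  obtain ⟨e, he⟩ : ∃ e : (Fin 2 × Fin 2) × (Fin 3 × Fin 3) → V, ∀ x, c * e x = d x := by
    refine ⟨fun x => ⟨(d x : F) / (c : F), hmem x⟩, fun x => ?_⟩
    apply Subtype.ext
    change (c : F) * ((d x : F) / (c : F)) = (d x : F)
    field_simp
  have he0 : e x0 = 1 := by
    have h1 := he x0
    rw [← hc] at h1
    exact mul_left_cancel₀ hc0 (by rw [h1, mul_one])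
  let E : Web V := fun i j => Matrix.of fun p q => e ((i, j), (p, q))
  have hME : M' = M + c • E := by
    funext i j
    ext p q
    have h1 := he ((i, j), (p, q))
    simp only [d] at h1
    simp only [Pi.add_apply, Pi.smul_apply, Matrix.add_apply, Matrix.smul_apply, smul_eq_mul, E,
      Matrix.of_apply]
    rw [h1]
    simp
  have hrc : res c = 0 := by
    rw [hc]
    have h1 := congrFun (congrFun (congrFun (congrFun hr x0.1.1) x0.1.2) x0.2.1) x0.2.2
    simp only [mapW, Matrix.map_apply] at h1
    simp only [d, map_sub, h1, sub_self]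
  have hexp := rgu_det (pm M) (pm E) (C c)
  have hdet : dW M' = (pm M + (C c : P4 V) • pm E).det := by
    rw [hME]
    unfold dW
    rw [rgu_pm_add, pm_smul]
  have htr : ((pm M).adjugate * pm E).trace +
      C c * (((pm E).adjugate * pm M).trace + C c * (pm E).det) = 0 := by
    have h3 : (C c : P4 V) * (((pm M).adjugate * pm E).trace +
        C c * (((pm E).adjugate * pm M).trace + C c * (pm E).det)) = 0 := by
      have h4 : dW M = (pm M).det := rfl
      rw [← hdet, ← hd, h4] at hexp
      have h5 := hexp
      linear_combination -h5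
    rcases mul_eq_zero.1 h3 with h4 | h4
    · exact absurd (MvPolynomial.C_injective _ _ (by rw [h4, map_zero])) hc0
    · exact h4
  -- reduction
  let Mb := mapW res M
  let Eb := mapW res E
  have hk : ∀ s t, ((aw Mb s t).adjugate * aw Eb s t).trace = 0 := by
    intro s t
    let f : P4 V →+* IsLocalRing.ResidueField V := (eval (pt s t)).comp (map res)
    have h3 : ∀ N : Web V, (pm N).map f = aw (mapW res N) s t := by
      intro N
      rw [← eval_pm, ← map_pm, Matrix.map_map]
      rfl
    have h4 := congrArg f htr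
    rw [map_add, map_mul, map_zero] at h4
    have h5 : f (C c) = 0 := by
      change eval (pt s t) (map res (C c)) = 0
      rw [map_C, eval_C, hrc]
    rw [h5, zero_mul, add_zero, rgu_trace, h3, h3] at h4
    exact h4
  have h2' : (2 : IsLocalRing.ResidueField V) ≠ 0 := by
    have h3 := (rgu_unit V 2).1 (by
      have h4 : ((2 : V) : F) = 2 := rfl
      rw [h4]; exact h2)
    rwa [map_ofNat] at h3
  have hSb : Smo (dW Mb) := by
    rw [← map_dW]; exact hS
  obtain ⟨hH1, hH2⟩ := hhs Mb hSb
  have hsymd : ∀ i j p q, d ((i, j), (p, q)) = d ((i, j), (q, p)) := by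
    intro i j p q
    have h3 := congrFun (congrFun (hM.sy i j) p) q
    have h4 := congrFun (congrFun (hM'.sy i j) p) q
    simp only [Matrix.transpose_apply] at h3 h4
    simp only [d, h3, h4]
  have hsymE : Sy E := by
    intro i j
    ext p q
    simp only [Matrix.transpose_apply, E, Matrix.of_apply]
    congr 1
    apply mul_left_cancel₀ hc0
    rw [he, he, hsymd]
  have hE0 : ∀ j, Eb 0 j = 0 := by
    intro j
    have h3 : M 0 j = M' 0 j := by
      fin_cases j
      · simp only [Fin.zero_eta, hM.dia, hM'.dia]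
      · simp only [Fin.mk_one, hM.one, hM'.one]
    ext p q
    simp only [Eb, mapW, Matrix.map_apply, Matrix.zero_apply, E, Matrix.of_apply]
    have h4 : e ((0, j), (p, q)) = 0 := by
      apply mul_left_cancel₀ hc0
      rw [he, mul_zero]
      simp only [d, h3, sub_self]
    rw [h4, map_zero]
  have hfin := klm0 h2' Mb (hM.sy.mapW res) hH1 hH2 Eb (hsymE.mapW res) hk hE0
  have h6 := congrFun (congrFun (congrFun (congrFun hfin x0.1.1) x0.1.2) x0.2.1) x0.2.2
  have h7 : Eb x0.1.1 x0.1.2 x0.2.1 x0.2.2 = 1 := by
    simp only [Eb, mapW, Matrix.map_apply, E, Matrix.of_apply]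
    have h8 : e ((x0.1.1, x0.1.2), (x0.2.1, x0.2.2)) = 1 := he0
    rw [h8, map_one]
  rw [h7] at h6
  exact one_ne_zero h6

end Pool.Agent.T1
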