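import Pool.Agent.T1.Defs2
import Pool.Agent.PQ.UNK
import Pool.Agent.ESH.VDV

/-!
# T1 / TEI: lifts fixed by inertia; roots over a valuation ring

`tei`: `κ` = residue field of `V`.  `V ≠ ⊤` lies over a finite place (`ESH.cvu_under`), so some prime number `p` is in the maximal ideal, and `κ` is algebraic over its prime field `𝔽_p`: every `z ∈ V` is integral over the
localisation of `𝓞 K` at `v` or: `z` is a root of a polynomial over `𝓞 K` (`C` algebraic over `K`) one may make primitive at `v`; so `z̄` is algebraic over the finite field `𝓞 K / v` (`ESH.vdv_fin`).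
So `x ∈ κ`, `x ≠ 0`, is algebraic over a finite field, so `x ^ n = 1` for some `n ≥ 1` prime to `p` (`x` lies in a finite field with `q` elements, `n = q - 1`).  For `x = 0` take `z = 0`.  `X ^ n - 1 = ∏ (X - ζ i)` over `C`, `ζ i ∈ V` (integral), reducing: `x` is one
of the `ζ̄ i`; take `z = ζ i`.  For `σ` in the inertia group: `σ z` is an `n`-th root of unity with the same reduction; the reductions of the `n` different `ζ i` are different (`X ^ n - 1` is separable over `κ` as `n ≠ 0` in `κ`), so `σ z = z`.
`vrt`: `f` binary cubic over `V` given by its values; `f(t) = ∑ j, A j t₀^(3-j) t₁^j` with `A 3` a unit; over `C`: `f = A 3 ∏ (t₁ - a i t₀)`; the `a i` are integral over `V`, so in `V`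
(`V` integrally closed); reducing: the multiset of the `ā i` is that of the roots of the reduction of `f`, so the `ā i` are different and (after renumbering) `ā i = α i`.
-/

namespace Pool.Agent.T1

open MvPolynomial Matrix NumberField IsDedekindDomain

private theorem TEI_root {F : Type*} [Field F] [IsAlgClosed F] (V : ValuationSubring F)
    (f : Polynomial V) (hf : f.Monic) (h0 : 0 < f.natDegree) : ∃ w : V, f.IsRoot w := by
  have hq0 : (f.map (algebraMap V F)).degree ≠ 0 := by
    rw [hf.degree_map]
    exact (Polynomial.natDegree_pos_iff_degree_pos.1 h0).ne'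
  obtain ⟨z, hz⟩ := IsAlgClosed.exists_root _ hq0
  have hint : IsIntegral V z := ⟨f, hf, by
    rw [← Polynomial.eval_map]; exact hz⟩
  obtain ⟨w, hw⟩ := IsIntegrallyClosed.isIntegral_iff.1 hint
  refine ⟨w, ?_⟩
  apply FaithfulSMul.algebraMap_injective V F
  rw [map_zero, ← Polynomial.eval₂_at_apply, hw, ← Polynomial.eval_map]
  exact hz

private theorem TEI_split {F : Type*} [Field F] [IsAlgClosed F] (V : ValuationSubring F) (n : ℕ) :
    ∀ f : Polynomial V, f.Monic → f.natDegree = n →
      ∃ s : Multiset V, f = (s.map fun a => Polynomial.X - Polynomial.C a).prod := by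
  induction n with
  | zero =>
    intro f hf h0
    refine ⟨0, ?_⟩
    rw [Multiset.map_zero, Multiset.prod_zero]
    exact hf.natDegree_eq_zero.1 h0
  | succ n ih =>
    intro f hf h0
    obtain ⟨w, hw⟩ := TEI_root V f hf (by omega)
    obtain ⟨g, hg⟩ := Polynomial.dvd_iff_isRoot.2 hw
    have hm : g.Monic := by
      rw [hg] at hf
      exact (Polynomial.monic_X_sub_C w).of_mul_monic_left hf
    have hd : g.natDegree = n := by
      have := congrArg Polynomial.natDegree hg
      rw [(Polynomial.monic_X_sub_C w).natDegree_mul hm, Polynomial.natDegree_X_sub_C, h0] at this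
      omega
    obtain ⟨s, hs⟩ := ih g hm hd
    refine ⟨w ::ₘ s, ?_⟩
    rw [Multiset.map_cons, Multiset.prod_cons, ← hs, hg]

/-- roots of a monic polynomial modulo the maximal ideal lift -/
private theorem TEI_lift {F : Type*} [Field F] [IsAlgClosed F] (V : ValuationSubring F)
    (f : Polynomial V) (hf : f.Monic) (α : IsLocalRing.ResidueField V)
    (hα : (f.map (IsLocalRing.residue V)).IsRoot α) :
    ∃ w : V, IsLocalRing.residue V w = α ∧ f.IsRoot w := by
  obtain ⟨s, hs⟩ := TEI_split V _ f hf rfl
  rw [hs, Polynomial.map_multiset_prod, Multiset.map_map, Polynomial.IsRoot.def,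
    Polynomial.eval_multiset_prod, Multiset.map_map, Multiset.prod_eq_zero_iff, Multiset.mem_map] at hα
  obtain ⟨w, hw, h⟩ := hα
  refine ⟨w, ?_, ?_⟩
  · simp only [Function.comp_apply, Polynomial.map_sub, Polynomial.map_X, Polynomial.map_C,
      Polynomial.eval_sub, Polynomial.eval_X, Polynomial.eval_C] at h
    exact (sub_eq_zero.1 h).symm
  · rw [hs, Polynomial.IsRoot.def, Polynomial.eval_multiset_prod, Multiset.map_map,
      Multiset.prod_eq_zero_iff, Multiset.mem_map]
    refine ⟨w, hw, ?_⟩
    simp

private theorem TEI_alg {K C : Type*} [Field K] [NumberField K] [Field C] [Algebra K C]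
    [Algebra.IsAlgebraic K C] (V : ValuationSubring C) (hV : V ≠ ⊤) (x : IsLocalRing.ResidueField V)
    (hx : x ≠ 0) : ∃ n : ℕ, 0 < n ∧ x ^ n = 1 ∧ (n : IsLocalRing.ResidueField V) ≠ 0 := by
  obtain ⟨v, hv⟩ := ESH.cvu_under (K := K) V hV
  obtain ⟨ψ, hψ⟩ : ∃ ψ : (v.valuation K).valuationSubring →+* V,
      ∀ o, (ψ o : C) = algebraMap K C (o : K) :=
    ⟨((algebraMap K C).comp (v.valuation K).valuationSubring.subtype).codRestrict V.toSubring
      (fun o => (hv (o : K)).2 ((Valuation.mem_valuationSubring_iff _ _).1 o.2)), fun o => rfl⟩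
  have hloc : IsLocalHom ψ := by
    constructor
    intro o ho
    obtain ⟨y, hy⟩ := isUnit_iff_exists_inv.1 ho
    have h1 : algebraMap K C (o : K) * (y : C) = 1 := by
      rw [← hψ]
      exact congrArg Subtype.val hy
    have ho0 : (o : K) ≠ 0 := by
      intro h0
      rw [h0, map_zero, zero_mul] at h1
      exact zero_ne_one h1
    have h2 : (y : C) = algebraMap K C ((o : K)⁻¹) := by
      rw [map_inv₀]
      exact eq_inv_of_mul_eq_one_right h1
    have h3 : ((o : K)⁻¹) ∈ (v.valuation K).valuationSubring := by
      rw [Valuation.mem_valuationSubring_iff]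
      apply (hv _).1
      rw [← h2]
      exact y.2
    exact IsUnit.of_mul_eq_one (⟨(o : K)⁻¹, h3⟩ : (v.valuation K).valuationSubring)
      (Subtype.ext (mul_inv_cancel₀ ho0))
  have hfin : Finite (IsLocalRing.ResidueField (v.valuation K).valuationSubring) := ESH.vdv_fin v
  obtain ⟨z, rfl⟩ := IsLocalRing.residue_surjective x
  let _ : Algebra (IsLocalRing.ResidueField (v.valuation K).valuationSubring)
    (IsLocalRing.ResidueField V) := (IsLocalRing.ResidueField.map ψ).toAlgebra
  have halg : IsAlgebraic (IsLocalRing.ResidueField (v.valuation K).valuationSubring)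
      (IsLocalRing.residue V z) := by
    obtain ⟨P, hP0, hP⟩ := Algebra.IsAlgebraic.isAlgebraic (R := K) (z : C)
    obtain ⟨j, hj, hmax⟩ := Finset.exists_max_image P.support (fun i => v.valuation K (P.coeff i))
      (Polynomial.support_nonempty.2 hP0)
    have ha : P.coeff j ≠ 0 := Polynomial.mem_support_iff.1 hj
    have hle : ∀ i, (Polynomial.C (P.coeff j)⁻¹ * P).coeff i ∈ (v.valuation K).valuationSubring := by
      intro i
      rw [Valuation.mem_valuationSubring_iff, Polynomial.coeff_C_mul, map_mul, map_inv₀]
      by_cases hi : P.coeff i = 0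
      · rw [hi, map_zero, mul_zero]
        exact zero_le
      · have h1 := hmax i (Polynomial.mem_support_iff.2 hi)
        have h2 : v.valuation K (P.coeff j) ≠ 0 := (Valuation.ne_zero_iff _).2 ha
        calc (v.valuation K (P.coeff j))⁻¹ * v.valuation K (P.coeff i)
            ≤ (v.valuation K (P.coeff j))⁻¹ * v.valuation K (P.coeff j) :=
              mul_le_mul_right h1 _
          _ = 1 := inv_mul_cancel₀ h2
    have hl : (Polynomial.C (P.coeff j)⁻¹ * P) ∈
        Polynomial.lifts (v.valuation K).valuationSubring.subtype := by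
      rw [Polynomial.lifts_iff_coeff_lifts]
      exact fun m => ⟨⟨_, hle m⟩, rfl⟩
    obtain ⟨Q, hQ⟩ := (Polynomial.lifts_iff_set_range _).1 hl
    have hQj : Q.coeff j = 1 := by
      apply Subtype.ext
      have := congrArg (fun q => Polynomial.coeff q j) hQ
      simp only [Polynomial.coeff_map, Polynomial.coeff_C_mul,
        inv_mul_cancel₀ ha] at this
      exact this
    have hQz : Polynomial.eval₂ ψ z Q = 0 := by
      have h1 : ((Polynomial.eval₂ ψ z Q : V) : C) = 0 := by
        have h2 : ((Polynomial.eval₂ ψ z Q : V) : C) =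
            Polynomial.eval₂ (V.subtype.comp ψ) (z : C) Q := by
          exact Polynomial.hom_eval₂ Q ψ V.subtype z
        have h3 : V.subtype.comp ψ =
            (algebraMap K C).comp (v.valuation K).valuationSubring.subtype := by
          ext o
          exact hψ o
        rw [h2, h3, ← Polynomial.eval₂_map]
        have h4 : Polynomial.map (v.valuation K).valuationSubring.subtype Q =
          Polynomial.C (P.coeff j)⁻¹ * P := hQ
        rw [h4, Polynomial.eval₂_mul]
        have h5 : Polynomial.eval₂ (algebraMap K C) (z : C) P = 0 := hP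
        rw [h5, mul_zero]
      exact Subtype.ext h1
    refine ⟨Q.map (IsLocalRing.residue _), ?_, ?_⟩
    · intro h0
      have := congrArg (fun q => Polynomial.coeff q j) h0
      simp only [Polynomial.coeff_map, hQj, map_one, Polynomial.coeff_zero] at this
      exact one_ne_zero this
    · rw [Polynomial.aeval_def, Polynomial.eval₂_map]
      have h1 : (algebraMap (IsLocalRing.ResidueField (v.valuation K).valuationSubring)
          (IsLocalRing.ResidueField V)).comp (IsLocalRing.residue _) =
          (IsLocalRing.residue V).comp ψ := by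
        ext o
        rfl
      rw [h1, ← Polynomial.hom_eval₂, hQz, map_zero]
  obtain ⟨k0, hk0⟩ : ∃ k0, k0 = IsLocalRing.ResidueField (v.valuation K).valuationSubring := ⟨_, rfl⟩
  have hint := halg.isIntegral
  have hfd := IntermediateField.adjoin.finiteDimensional hint
  have hfin2 : Finite (IntermediateField.adjoin
      (IsLocalRing.ResidueField (v.valuation K).valuationSubring) {IsLocalRing.residue V z}) :=
    Module.finite_of_finite (IsLocalRing.ResidueField (v.valuation K).valuationSubring)
  let _ := Fintype.ofFinite (IntermediateField.adjoin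
      (IsLocalRing.ResidueField (v.valuation K).valuationSubring) {IsLocalRing.residue V z})
  obtain ⟨y, hy⟩ : ∃ y : IntermediateField.adjoin
      (IsLocalRing.ResidueField (v.valuation K).valuationSubring) {IsLocalRing.residue V z},
      (y : IsLocalRing.ResidueField V) = IsLocalRing.residue V z :=
    ⟨⟨_, IntermediateField.mem_adjoin_simple_self _ _⟩, rfl⟩
  obtain ⟨q, hq⟩ : ∃ q, q = Fintype.card (IntermediateField.adjoin
      (IsLocalRing.ResidueField (v.valuation K).valuationSubring) {IsLocalRing.residue V z}) := ⟨_, rfl⟩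
  have hq1 : 1 < q := by
    rw [hq]
    exact Fintype.one_lt_card
  refine ⟨q - 1, by omega, ?_, ?_⟩
  · rw [← hy, ← SubmonoidClass.coe_pow, hq, FiniteField.pow_card_sub_one_eq_one y]
    · rfl
    · intro h0
      apply hx
      rw [← hy, h0]
      rfl
  · have h1 : (q : IsLocalRing.ResidueField V) = 0 := by
      have := FiniteField.cast_card_eq_zero (IntermediateField.adjoin
        (IsLocalRing.ResidueField (v.valuation K).valuationSubring) {IsLocalRing.residue V z})
      rw [← hq] at this
      have h2 := congrArg (fun t : IntermediateField.adjoin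
        (IsLocalRing.ResidueField (v.valuation K).valuationSubring) {IsLocalRing.residue V z} =>
        (t : IsLocalRing.ResidueField V)) this
      simpa using h2
    rw [Nat.cast_sub hq1.le, h1, zero_sub, Nat.cast_one]
    exact neg_ne_zero.2 one_ne_zero

theorem tei {K C : Type*} [Field K] [NumberField K] [Field C] [Algebra K C] [Algebra.IsAlgebraic K C]
    [IsAlgClosed C] (V : ValuationSubring C) (hV : V ≠ ⊤) (x : IsLocalRing.ResidueField V) :
    ∃ z : V, IsLocalRing.residue V z = x ∧ ∀ σ : C ≃ₐ[K] C, ESH.Inert V σ → σ (z : C) = z := by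
  by_cases hx : x = 0
  · refine ⟨0, by rw [hx, map_zero], fun σ _ => ?_⟩
    have : ((0 : V) : C) = 0 := rfl
    rw [this, map_zero]
  obtain ⟨n, hn, hxn, hn0⟩ := TEI_alg (K := K) V hV x hx
  have hm : (Polynomial.X ^ n - 1 : Polynomial V).Monic := Polynomial.monic_X_pow_sub_C 1 hn.ne'
  obtain ⟨z, hz, hr⟩ := TEI_lift V (Polynomial.X ^ n - 1) hm x (by
    rw [Polynomial.IsRoot.def, Polynomial.map_sub, Polynomial.map_pow, Polynomial.map_X,
      Polynomial.map_one, Polynomial.eval_sub, Polynomial.eval_pow, Polynomial.eval_X,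
      Polynomial.eval_one, hxn, sub_self])
  refine ⟨z, hz, fun σ hσ => ?_⟩
  have hz1 : z ^ n = 1 := by
    rw [Polynomial.IsRoot.def, Polynomial.eval_sub, Polynomial.eval_pow, Polynomial.eval_X,
      Polynomial.eval_one, sub_eq_zero] at hr
    exact hr
  have hz2 : (z : C) ^ n = 1 := by
    rw [← SubmonoidClass.coe_pow, hz1]
    rfl
  have hnu := hσ (z : C) z.2
  have hdm : σ (z : C) - z ∈ V := V.nonunits_le hnu
  have hmem : σ (z : C) ∈ V := by
    have := V.add_mem _ _ hdm z.2
    rwa [sub_add_cancel] at this
  obtain ⟨y, hy⟩ : ∃ y : V, (y : C) = σ (z : C) := ⟨⟨_, hmem⟩, rfl⟩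
  have hyr : IsLocalRing.residue V y = IsLocalRing.residue V z := by
    rw [← sub_eq_zero, ← map_sub, IsLocalRing.residue_eq_zero_iff]
    have h1 : ((y - z : V) : C) ∈ V.nonunits := by
      have : ((y - z : V) : C) = σ (z : C) - z := by
        rw [← hy]
        rfl
      rw [this]
      exact hnu
    exact ValuationSubring.coe_mem_nonunits_iff.1 h1
  have hyn : y ^ n = 1 := by
    apply Subtype.ext
    rw [SubmonoidClass.coe_pow, hy, ← map_pow, hz2, map_one]
    rfl
  have hsum : (y - z) * (∑ i ∈ Finset.range n, y ^ i * z ^ (n - 1 - i)) = 0 := by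
    rw [mul_comm, geom_sum₂_mul, hyn, hz1, sub_self]
  rcases mul_eq_zero.1 hsum with h | h
  · rw [← hy, sub_eq_zero.1 h]
  · exfalso
    have h1 := congrArg (IsLocalRing.residue V) h
    rw [map_sum, map_zero] at h1
    have h2 : ∀ i ∈ Finset.range n, IsLocalRing.residue V (y ^ i * z ^ (n - 1 - i)) = x ^ (n - 1) := by
      intro i hi
      rw [map_mul, map_pow, map_pow, hyr, hz, ← pow_add]
      congr 1
      have := Finset.mem_range.1 hi
      omega
    rw [Finset.sum_congr rfl h2, Finset.sum_const, Finset.card_range, nsmul_eq_mul] at h1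
    exact mul_ne_zero hn0 (pow_ne_zero _ hx) h1

private theorem TEI_list {F : Type*} [Field F] [IsAlgClosed F] (V : ValuationSubring F)
    (l : List (IsLocalRing.ResidueField V)) : ∀ f : Polynomial V, f.Monic →
      f.map (IsLocalRing.residue V) = (l.map fun a => Polynomial.X - Polynomial.C a).prod →
      ∃ l' : List V, l'.map (IsLocalRing.residue V) = l ∧
        f = (l'.map fun a => Polynomial.X - Polynomial.C a).prod := by
  induction l with
  | nil =>
    intro f hf h
    refine ⟨[], rfl, ?_⟩
    rw [List.map_nil, List.prod_nil] at h ⊢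
    have h1 : f.natDegree = 0 := by
      rw [← hf.natDegree_map (IsLocalRing.residue V), h, Polynomial.natDegree_one]
    exact hf.natDegree_eq_zero.1 h1
  | cons a l ih =>
    intro f hf h
    rw [List.map_cons, List.prod_cons] at h
    obtain ⟨w, hw, hr⟩ := TEI_lift V f hf a (by
      rw [h, Polynomial.IsRoot.def, Polynomial.eval_mul, Polynomial.eval_sub, Polynomial.eval_X,
        Polynomial.eval_C, sub_self, zero_mul])
    obtain ⟨g, hg⟩ := Polynomial.dvd_iff_isRoot.2 hr
    have hm : g.Monic := by
      rw [hg] at hf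
      exact (Polynomial.monic_X_sub_C w).of_mul_monic_left hf
    have h2 : g.map (IsLocalRing.residue V) = (l.map fun a => Polynomial.X - Polynomial.C a).prod := by
      rw [hg, Polynomial.map_mul, Polynomial.map_sub, Polynomial.map_X, Polynomial.map_C, hw] at h
      exact mul_left_cancel₀ (Polynomial.X_sub_C_ne_zero a) h
    obtain ⟨l', hl', hl⟩ := ih g hm h2
    refine ⟨w :: l', ?_, ?_⟩
    · rw [List.map_cons, hw, hl']
    · rw [List.map_cons, List.prod_cons, ← hl, hg]

/-- polynomials over a valuation ring of an algebraically closed field -/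
theorem vrt {F : Type*} [Field F] [IsAlgClosed F] (V : ValuationSubring F) (f : Polynomial V)
    (hf : f.natDegree ≤ 3) (c : IsLocalRing.ResidueField V) (hc : c ≠ 0)
    (α : Fin 3 → IsLocalRing.ResidueField V)
    (h : f.map (IsLocalRing.residue V) = Polynomial.C c * ∏ i, (Polynomial.X - Polynomial.C (α i))) :
    ∃ (u : V) (a : Fin 3 → V), IsLocalRing.residue V u = c ∧ (∀ i, IsLocalRing.residue V (a i) = α i) ∧
      f = Polynomial.C u * ∏ i, (Polynomial.X - Polynomial.C (a i)) := by
  have hmon : (∏ i, (Polynomial.X - Polynomial.C (α i))).Monic :=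
    Polynomial.monic_prod_of_monic _ _ fun i _ => Polynomial.monic_X_sub_C _
  have hdeg : (∏ i, (Polynomial.X - Polynomial.C (α i))).natDegree = 3 := by
    rw [Polynomial.natDegree_prod_of_monic _ _ fun i _ => Polynomial.monic_X_sub_C _]
    simp
  have hc3 : IsLocalRing.residue V (f.coeff 3) = c := by
    rw [← Polynomial.coeff_map, h, Polynomial.coeff_C_mul]
    have : (∏ i, (Polynomial.X - Polynomial.C (α i))).coeff 3 = 1 := by
      have := hmon.coeff_natDegree
      rwa [hdeg] at this
    rw [this, mul_one]
  have hu : IsUnit (f.coeff 3) := by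
    rw [← IsLocalRing.residue_ne_zero_iff_isUnit, hc3]
    exact hc
  obtain ⟨u, hu'⟩ := hu
  obtain ⟨g, hg⟩ : ∃ g, g = Polynomial.C ((u⁻¹ : Vˣ) : V) * f := ⟨_, rfl⟩
  have hfg : f = Polynomial.C (u : V) * g := by
    rw [hg, ← mul_assoc, ← Polynomial.C_mul, Units.mul_inv, Polynomial.C_1, one_mul]
  have hgd : g.natDegree ≤ 3 := by
    rw [hg]
    exact (Polynomial.natDegree_C_mul_le _ _).trans hf
  have hg3 : g.coeff 3 = 1 := by
    rw [hg, Polynomial.coeff_C_mul, ← hu', Units.inv_mul]
  have hgm : g.Monic := Polynomial.monic_of_natDegree_le_of_coeff_eq_one 3 hgd hg3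
  have hgr : g.map (IsLocalRing.residue V) =
      ([α 0, α 1, α 2].map fun a => Polynomial.X - Polynomial.C a).prod := by
    have h1 : Polynomial.C c * g.map (IsLocalRing.residue V) =
        Polynomial.C c * ∏ i, (Polynomial.X - Polynomial.C (α i)) := by
      rw [← h, hfg, Polynomial.map_mul, Polynomial.map_C, hu', hc3]
    have h2 := mul_left_cancel₀ (Polynomial.C_ne_zero.2 hc) h1
    rw [h2, Fin.prod_univ_three]
    simp [mul_assoc]
  obtain ⟨l', hl', hl⟩ := TEI_list V _ g hgm hgr
  match l', hl', hl with
  | [a, b, d], hl', hl =>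
    simp only [List.map_cons, List.map_nil, List.cons.injEq, and_true] at hl'
    refine ⟨u, ![a, b, d], by rw [hu', hc3], ?_, ?_⟩
    · intro i
      fin_cases i
      · exact hl'.1
      · exact hl'.2.1
      · exact hl'.2.2
    · rw [hfg, hl, Fin.prod_univ_three]
      simp [mul_assoc]
  | [], hl', hl => simp at hl'
  | [a], hl', hl => simp at hl'
  | [a, b], hl', hl => simp at hl'
  | a :: b :: d :: e :: l, hl', hl => simp at hl'

end Pool.Agent.T1
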