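import Pool.Agent.T1.RLV
import Pool.Agent.T1.RGE
import Pool.Agent.T1.RGU
import Pool.Agent.T1.DSX
import Pool.Agent.T1.QTW
import Pool.Agent.T1.TEI

/-!
# T1 / IFX: good models of the plane quartics of a web

`κ` = residue field of `V` (algebraically closed), `2, 3 ≠ 0` in `κ` (`hV.res_char`).
(1) `dsx` for `D̄`: `x̄, c̄, ᾱ, D̄'`: `sD !![1,0;x̄,1] 1 D̄ = C c̄ * D̄'`, `At D̄' ᾱ`.  (2) `tei`: `x ∈ V` over `x̄` fixed by inertia.  `p = !![1, 0; x, 1]`, `D₁ = sD p 1 D` over `V`.  Its restriction to `s = (1, 0)`, dehomogenised (`t = (1, X)`), is a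
polynomial `f` over `V` of degree `≤ 3` with reduction `c̄ ∏ (X - ᾱ i)`.  (3) `vrt`: `f = u ∏ (X - a i)`, `u` a unit, `a i - a j` units for `i ≠ j`.  `D₂ := C u⁻¹ * D₁`; `At D₂ a` (both sides homogeneous of degree 3 in `t`).
(4) Let `σ` be in the inertia group.  It maps `V` to `V` and induces the identity on `κ`.  It fixes the coefficients of `D` and `x`, so those of `D₁` and `f`; so `u`, and it permutes the `a i`; as `σ (a i) ≡ a i` and the `ᾱ i` are different, `σ (a i) = a i`.  So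
it fixes the coefficients of `D₂`.
(5) `M₁ := sw p 1 M` (`p` mapped to `C`): `dW M₁ = sD p 1 (dW M) = C (c u) * D₂` (mapped to `C`).  `rlv`: `Λ` over `V`, `dW Λ = C w * D₂`.  `rge` (`R = V`; square roots exist in `V`: `C` algebraically closed and `V` integrally closed): `h₂` over `V` with
`M₂ := gw h₂ Λ` rigid, `dW M₂ = D₂`.
(6) `σ` applied to the entries of `M₂` (elements of `V`, mapped to `V`) is again a rigid web for the same `a`, with determinant `σ D₂ = D₂` and the same reduction: `rgu`: it is `M₂`.  So inertia fixes all entries of `M₂`.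
(7) `G := qt M₂`, over `V`: `qt_hom`, `NS (map residue G)` by `smq` for `mapW residue M₂` (`dW = D̄₂` smooth by `smo_sD`, `smo_C`), coefficients fixed by inertia, `map G = qt (M₂ over C)`, `M₂ = c'' • gw h'' (sw p 1 M)`, so by `qt_gw`, `qt_smul`, `qt_sw` (`det p = 1`)
`map G = C (c''^2) * sb h'' (qt M)`.
-/

namespace Pool.Agent.T1

open MvPolynomial Matrix NumberField IsDedekindDomain
open Pool.Agent.PQ (P3 NS SF sb)

section

variable {R S : Type*} [CommRing R] [CommRing S]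

private noncomputable def ifxPsi (R : Type*) [CommRing R] : P4 R →+* MvPolynomial (Fin 2) R :=
  eval₂Hom (C : R →+* MvPolynomial (Fin 2) R) (Sum.elim ![1, 0] X)

private noncomputable def ifxPhi (R : Type*) [CommRing R] : MvPolynomial (Fin 2) R →+* Polynomial R :=
  eval₂Hom (Polynomial.C : R →+* Polynomial R) ![1, Polynomial.X]

private theorem ifx_at {D : P4 R} {a : Fin 3 → R} : At D a ↔
    ifxPsi R D = ∏ i, (X 1 - C (a i) * X 0 : MvPolynomial (Fin 2) R) := Iff.rfl

private theorem ifxPsi_map (f : R →+* S) (D : P4 R) :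
    ifxPsi S (map f D) = map f (ifxPsi R D) := by
  have h : (ifxPsi S).comp (map f) = (map f).comp (ifxPsi R) := by
    refine MvPolynomial.ringHom_ext (fun r => ?_) (fun i => ?_)
    · simp [ifxPsi]
    · rcases i with i | i
      · fin_cases i <;> simp [ifxPsi]
      · simp [ifxPsi]
  exact congrArg (fun g : P4 R →+* MvPolynomial (Fin 2) S => g D) h

private theorem ifxPhi_map (f : R →+* S) (g : MvPolynomial (Fin 2) R) :
    ifxPhi S (map f g) = (ifxPhi R g).map f := by
  have h : (ifxPhi S).comp (map f) = (Polynomial.mapRingHom f).comp (ifxPhi R) := by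
    refine MvPolynomial.ringHom_ext (fun r => ?_) (fun i => ?_)
    · simp [ifxPhi]
    · fin_cases i <;> simp [ifxPhi]
  exact congrArg (fun k : MvPolynomial (Fin 2) R →+* Polynomial S => k g) h

private theorem ifxPsi_C (c : R) : ifxPsi R (C c) = C c := by simp [ifxPsi]

private theorem ifxPhi_C (c : R) : ifxPhi R (C c) = Polynomial.C c := by simp [ifxPhi]

private theorem ifxPhi_prod (a : Fin 3 → R) :
    ifxPhi R (∏ i, (X 1 - C (a i) * X 0 : MvPolynomial (Fin 2) R)) =
      ∏ i, (Polynomial.X - Polynomial.C (a i)) := by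
  rw [map_prod]
  refine Finset.prod_congr rfl fun i _ => ?_
  simp [ifxPhi]

private theorem ifx_wt (d : Fin 2 ⊕ Fin 2 →₀ ℕ) :
    Finsupp.weight bw d = (d (Sum.inl 0) + d (Sum.inl 1), d (Sum.inr 0) + d (Sum.inr 1)) := by
  rw [Finsupp.weight_apply, Finsupp.sum_fintype _ _ (fun i => by simp)]
  rw [Fintype.sum_sum_type, Fin.sum_univ_two, Fin.sum_univ_two]
  refine Prod.ext ?_ ?_
  · simp only [bw, Sum.elim_inl, Sum.elim_inr, Prod.fst_add, Prod.smul_fst, smul_eq_mul]
    ring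
  · simp only [bw, Sum.elim_inl, Sum.elim_inr, Prod.snd_add, Prod.smul_snd, smul_eq_mul]
    ring

private theorem ifxPsi_hom {D : P4 R} (hD : BH D 3 3) : (ifxPsi R D).IsHomogeneous 3 := by
  have h : ifxPsi R D = eval₂ (C : R →+* MvPolynomial (Fin 2) R) (Sum.elim ![1, 0] X) D := rfl
  rw [h, eval₂_eq']
  refine IsHomogeneous.sum _ _ _ fun d hd => ?_
  have h1 := hD (mem_support_iff.1 hd)
  rw [ifx_wt] at h1
  have h2 : d (Sum.inr 0) + d (Sum.inr 1) = 3 := congrArg Prod.snd h1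
  rw [Fintype.prod_sum_type, Fin.prod_univ_two, Fin.prod_univ_two]
  simp only [Sum.elim_inl, Sum.elim_inr, Matrix.cons_val_zero, Matrix.cons_val_one, one_pow, one_mul]
  have h3 : ((0 : MvPolynomial (Fin 2) R) ^ d (Sum.inl 1)).IsHomogeneous 0 := by
    rcases Nat.eq_zero_or_pos (d (Sum.inl 1)) with h0 | h0
    · rw [h0, pow_zero]
      exact isHomogeneous_one _ _
    · rw [zero_pow h0.ne']
      exact isHomogeneous_zero _ _ _
  have h4 : ((X 0 : MvPolynomial (Fin 2) R) ^ d (Sum.inr 0) * X 1 ^ d (Sum.inr 1)).IsHomogeneous 3 := by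
    have h5 := ((isHomogeneous_X R (0 : Fin 2)).pow (d (Sum.inr 0))).mul
      ((isHomogeneous_X R (1 : Fin 2)).pow (d (Sum.inr 1)))
    simpa [h2] using h5
  have h6 := (isHomogeneous_C (Fin 2) (coeff d D)).mul (h3.mul h4)
  simpa using h6

private theorem ifxPhi_eq (g : MvPolynomial (Fin 2) R) :
    ifxPhi R g = ∑ d ∈ g.support, Polynomial.C (coeff d g) * Polynomial.X ^ d 1 := by
  have h : ifxPhi R g = eval₂ (Polynomial.C : R →+* Polynomial R) ![1, Polynomial.X] g := rfl
  rw [h, eval₂_eq']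
  refine Finset.sum_congr rfl fun d _ => ?_
  simp [Fin.prod_univ_two]

private theorem ifx_hdeg {g : MvPolynomial (Fin 2) R} {n : ℕ} (hg : g.IsHomogeneous n)
    {d : Fin 2 →₀ ℕ} (hd : coeff d g ≠ 0) : d 0 + d 1 = n := by
  have h := hg hd
  rw [Finsupp.weight_apply, Finsupp.sum_fintype _ _ (fun i => by simp)] at h
  simpa [Fin.sum_univ_two] using h

private theorem ifxPhi_deg {g : MvPolynomial (Fin 2) R} (hg : g.IsHomogeneous 3) :
    (ifxPhi R g).natDegree ≤ 3 := by
  rw [ifxPhi_eq]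
  refine Polynomial.natDegree_sum_le_of_forall_le _ _ fun d hd => ?_
  refine (Polynomial.natDegree_C_mul_X_pow_le _ _).trans ?_
  have := ifx_hdeg hg (mem_support_iff.1 hd)
  omega

private theorem ifxPhi_inj {g : MvPolynomial (Fin 2) R} {n : ℕ} (hg : g.IsHomogeneous n)
    (h : ifxPhi R g = 0) : g = 0 := by
  by_contra hne
  obtain ⟨d, hd⟩ := exists_coeff_ne_zero hne
  have h1 := congrArg (fun p : Polynomial R => p.coeff (d 1)) h
  simp only [ifxPhi_eq, Polynomial.finsetSum_coeff, Polynomial.coeff_C_mul_X_pow,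
    Polynomial.coeff_zero] at h1
  rw [Finset.sum_eq_single d] at h1
  · rw [if_pos rfl] at h1
    exact hd h1
  · intro e he hne2
    rw [if_neg]
    intro h2
    apply hne2
    have h3 := ifx_hdeg hg (mem_support_iff.1 he)
    have h4 := ifx_hdeg hg hd
    ext i
    fin_cases i
    · show e 0 = d 0
      omega
    · exact h2.symm
  · intro h2
    exact absurd (mem_support_iff.2 hd) h2

private theorem ifx_prod_hom (u : R) (a : Fin 3 → R) :
    (C u * ∏ i, (X 1 - C (a i) * X 0 : MvPolynomial (Fin 2) R)).IsHomogeneous 3 := by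
  have h1 : (∏ i, (X 1 - C (a i) * X 0 : MvPolynomial (Fin 2) R)).IsHomogeneous (∑ _i : Fin 3, 1) := by
    refine IsHomogeneous.prod _ _ _ fun i _ => ?_
    refine (isHomogeneous_X R (1 : Fin 2)).sub ?_
    have h2 := (isHomogeneous_C (Fin 2) (a i)).mul (isHomogeneous_X R (0 : Fin 2))
    simpa using h2
  have h3 := (isHomogeneous_C (Fin 2) u).mul h1
  simpa using h3

private theorem ifxPsi_of_Phi {D : P4 R} (hD : BH D 3 3) (u : R) (a : Fin 3 → R)
    (h : ifxPhi R (ifxPsi R D) = Polynomial.C u * ∏ i, (Polynomial.X - Polynomial.C (a i))) :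
    ifxPsi R D = C u * ∏ i, (X 1 - C (a i) * X 0 : MvPolynomial (Fin 2) R) := by
  have h1 := (ifxPsi_hom hD).sub (ifx_prod_hom u a)
  have h2 := ifxPhi_inj h1 (by rw [map_sub, h, map_mul, ifxPhi_C, ifxPhi_prod, sub_self])
  exact sub_eq_zero.1 h2

private theorem ifx_gw_smul (c : R) (h : Matrix (Fin 3) (Fin 3) R) (M : Web R) :
    gw h (c • M) = c • gw h M := by
  funext i j
  simp only [gw, Pi.smul_apply, Matrix.mul_smul, Matrix.smul_mul]

end

private theorem ifx_unit {M : Type*} [Field M] (V : ValuationSubring M) (x : V) :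
    IsLocalRing.residue V x ≠ 0 ↔ IsUnit x := by
  rw [Ne, IsLocalRing.residue_eq_zero_iff, IsLocalRing.mem_maximalIdeal, mem_nonunits_iff, not_not]

private theorem ifx_res {M : Type*} [Field M] (V : ValuationSubring M) (n : ℕ)
    (h : V.valuation (n : M) = 1) : (n : IsLocalRing.ResidueField V) ≠ 0 := by
  have h1 : V.valuation ((n : V) : M) = 1 := by
    rw [← h]; norm_cast
  have h2 : IsUnit (n : V) := (V.valuation_eq_one_iff _).2 h1
  have h3 := (ifx_unit V (n : V)).2 h2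
  rwa [map_natCast] at h3

theorem ifx {K C : Type*} [Field K] [NumberField K] [Field C] [Algebra K C] [Algebra.IsAlgebraic K C]
    [IsAlgClosed C] (T : Finset (HeightOneSpectrum (𝓞 K))) (V : ValuationSubring C)
    (hV : ESH.GoodV T 3 V) (D : P4 V) (hD : BH D 3 3)
    (hS : Smo (MvPolynomial.map (IsLocalRing.residue V) D))
    (hfix : ∀ σ : C ≃ₐ[K] C, ESH.Inert V σ → ∀ m, σ ((D.coeff m : V) : C) = (D.coeff m : V))
    (M : Web C) (hs : Sy M) (c : C) (hc : c ≠ 0)
    (hM : dW M = MvPolynomial.C c * MvPolynomial.map (algebraMap V C) D) :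
    ∃ (h : Matrix (Fin 3) (Fin 3) C) (c' : C) (G : P3 V), h.det ≠ 0 ∧ c' ≠ 0 ∧ G.IsHomogeneous 4 ∧
      NS (MvPolynomial.map (IsLocalRing.residue V) G) ∧
      MvPolynomial.map (algebraMap V C) G = MvPolynomial.C c' * sb h (qt M) ∧
      ∀ σ : C ≃ₐ[K] C, ESH.Inert V σ → ∀ m, σ ((G.coeff m : V) : C) = (G.coeff m : V) := by
  classical
  have hκ : IsAlgClosed (IsLocalRing.ResidueField V) := ST.isAlgClosed_residueField V
  have hv2 : V.valuation (2 : C) = 1 := by
    have := hV.res_char 2 Nat.prime_two (by norm_num)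
    simpa using this
  have hk2 : (2 : IsLocalRing.ResidueField V) ≠ 0 := by
    have := ifx_res V 2 (hV.res_char 2 Nat.prime_two (by norm_num))
    simpa using this
  have hk3 : (3 : IsLocalRing.ResidueField V) ≠ 0 := by
    have := ifx_res V 3 (hV.res_char 3 Nat.prime_three (by norm_num))
    simpa using this
  set res := IsLocalRing.residue V with hres
  -- coordinates
  obtain ⟨xb, cb, αb, Db, hcb, hαb, hsDb, hAtb⟩ := dsx hk3 (MvPolynomial.map res D) (hD.map res) hS
  obtain ⟨x, hx, hxσ⟩ := tei (K := K) V hV.ne_top xb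
  obtain ⟨p, hp⟩ : ∃ p : Matrix (Fin 2) (Fin 2) V, p = !![1, 0; x, 1] := ⟨_, rfl⟩
  have hpmap : ∀ {S : Type _} [CommRing S] (f : V →+* S), p.map f = !![1, 0; f x, 1] := by
    intro S _ f
    rw [hp]
    ext i j
    fin_cases i <;> fin_cases j <;> simp
  obtain ⟨D₁, hD₁⟩ : ∃ D₁ : P4 V, D₁ = sD p 1 D := ⟨_, rfl⟩
  have hD₁h : BH D₁ 3 3 := by rw [hD₁]; exact BH_sD p 1 hD
  have hD₁r : MvPolynomial.map res D₁ = MvPolynomial.C cb * Db := by
    rw [hD₁, map_sD, hpmap res, Matrix.map_one res (map_zero res) (map_one res), hx, hsDb]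
  have hfr : (ifxPhi V (ifxPsi V D₁)).map res =
      Polynomial.C cb * ∏ i, (Polynomial.X - Polynomial.C (αb i)) := by
    rw [← ifxPhi_map, ← ifxPsi_map, hD₁r, map_mul, ifxPsi_C, ifx_at.1 hAtb, map_mul, ifxPhi_C,
      ifxPhi_prod]
  obtain ⟨u, a, hu, ha, hfe⟩ := vrt V (ifxPhi V (ifxPsi V D₁)) (ifxPhi_deg (ifxPsi_hom hD₁h)) cb hcb
    αb hfr
  have huu : IsUnit u := by
    rw [← ifx_unit V u, hu]; exact hcb
  obtain ⟨u', hu'⟩ := huu.exists_right_inv
  have haa : ∀ i j, i ≠ j → IsUnit (a i - a j) := by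
    intro i j hij
    rw [← ifx_unit V, map_sub, ha, ha]
    exact sub_ne_zero.2 fun h => hij (hαb h)
  have hD₁p := ifxPsi_of_Phi hD₁h u a hfe
  obtain ⟨D₂, hD₂⟩ : ∃ D₂ : P4 V, D₂ = MvPolynomial.C u' * D₁ := ⟨_, rfl⟩
  have hD₁₂ : MvPolynomial.C u * D₂ = D₁ := by
    rw [hD₂, ← mul_assoc, ← MvPolynomial.C_mul, hu', MvPolynomial.C_1, one_mul]
  have hD₂h : BH D₂ 3 3 := by rw [hD₂]; exact hD₁h.C_mul u'
  have hAt₂ : At D₂ a := by
    rw [ifx_at, hD₂, map_mul, ifxPsi_C, hD₁p, ← mul_assoc, ← MvPolynomial.C_mul, mul_comm u' u, hu',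
      MvPolynomial.C_1, one_mul]
  have hS₂ : Smo (MvPolynomial.map res D₂) := by
    have h1 : res u' ≠ 0 := by
      intro h0
      have h2 := congrArg res hu'
      rw [map_mul, h0, mul_zero, map_one] at h2
      exact zero_ne_one h2
    rw [hD₂, map_mul, map_C, hD₁, map_sD, hpmap res, Matrix.map_one res (map_zero res) (map_one res)]
    refine smo_C h1 (smo_sD ?_ ?_ hS)
    · rw [Matrix.det_fin_two_of]; simp
    · rw [Matrix.det_one]; exact one_ne_zero
  -- the inertia group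
  have hτ : ∀ σ : C ≃ₐ[K] C, ESH.Inert V σ → ∃ τ : V →+* V, (∀ z : V, ((τ z : V) : C) = σ (z : C)) ∧
      (∀ z, res (τ z) = res z) ∧ MvPolynomial.map τ D₂ = D₂ ∧ ∀ i, τ (a i) = a i := by
    intro σ hσ
    have hmem : ∀ z ∈ V, (σ : C →+* C) z ∈ V := by
      intro z hz
      have h1 := V.add_mem _ _ (V.nonunits_subset (hσ z hz)) hz
      rwa [sub_add_cancel] at h1
    obtain ⟨τ, hτ⟩ : ∃ τ : V →+* V, ∀ z : V, ((τ z : V) : C) = σ (z : C) :=
      ⟨(σ : C →+* C).restrict V V hmem, fun z => rfl⟩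
    have hτr : ∀ z, res (τ z) = res z := by
      intro z
      have h1 := hσ (z : C) z.2
      rw [← hτ z] at h1
      obtain ⟨h2, h3⟩ := (ValuationSubring.mem_nonunits_iff_exists_mem_maximalIdeal).1 h1
      have h4 : τ z - z ∈ IsLocalRing.maximalIdeal V := h3
      rw [← sub_eq_zero, ← map_sub]
      exact (IsLocalRing.residue_eq_zero_iff _).2 h4
    have hτD : MvPolynomial.map τ D = D := by
      ext m
      rw [coeff_map, hτ]
      exact hfix σ hσ m
    have hτx : τ x = x := Subtype.ext ((hτ x).trans (hxσ σ hσ))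
    have hτD₁ : MvPolynomial.map τ D₁ = D₁ := by
      rw [hD₁, map_sD, hpmap τ, Matrix.map_one τ (map_zero τ) (map_one τ), hτD, hτx, hp]
    have hτf : (ifxPhi V (ifxPsi V D₁)).map τ = ifxPhi V (ifxPsi V D₁) := by
      rw [← ifxPhi_map, ← ifxPsi_map, hτD₁]
    have hτa : ∀ i, τ (a i) = a i := by
      intro i
      have h1 := hτf
      rw [hfe] at h1
      have h2 := congrArg (Polynomial.eval (τ (a i))) h1
      rw [Polynomial.map_mul, Polynomial.map_prod, Polynomial.eval_mul, Polynomial.eval_prod,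
        Finset.prod_eq_zero (Finset.mem_univ i) (by simp), mul_zero, Polynomial.eval_mul,
        Polynomial.eval_prod, Polynomial.eval_C] at h2
      have h3 := (mul_eq_zero.1 h2.symm).resolve_left huu.ne_zero
      obtain ⟨j, -, hj⟩ := Finset.prod_eq_zero_iff.1 h3
      rw [Polynomial.eval_sub, Polynomial.eval_X, Polynomial.eval_C, sub_eq_zero] at hj
      have h4 : αb i = αb j := by
        rw [← ha i, ← ha j, ← hj, hτr]
      rw [hj, hαb h4]
    have hτu : τ u = u := by
      have h1 := hτf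
      rw [hfe, Polynomial.map_mul, Polynomial.map_prod, Polynomial.map_C] at h1
      have e : ∀ i, (Polynomial.X - Polynomial.C (a i)).map τ = Polynomial.X - Polynomial.C (a i) := by
        intro i
        rw [Polynomial.map_sub, Polynomial.map_X, Polynomial.map_C, hτa]
      rw [Finset.prod_congr rfl fun i _ => e i] at h1
      have hne : (∏ i, (Polynomial.X - Polynomial.C (a i)) : Polynomial V) ≠ 0 :=
        (Polynomial.monic_prod_of_monic _ _ fun i _ => Polynomial.monic_X_sub_C (a i)).ne_zero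
      exact Polynomial.C_injective (mul_right_cancel₀ hne h1)
    refine ⟨τ, hτ, hτr, ?_, hτa⟩
    have h1 := congrArg (MvPolynomial.map τ) hD₁₂
    rw [map_mul, map_C, hτu, hτD₁, ← hD₁₂] at h1
    exact mul_left_cancel₀ (fun h0 => huu.ne_zero (MvPolynomial.C_injective _ _ (by rw [h0, map_zero]))) h1
  -- the web over `V`
  have huC : algebraMap V C u ≠ 0 := by
    intro h0
    apply huu.ne_zero
    exact Subtype.ext h0
  have hM₁ : dW (sw (p.map (algebraMap V C)) 1 M) = MvPolynomial.C (c * algebraMap V C u) *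
      MvPolynomial.map (algebraMap V C) D₂ := by
    rw [dW_sw, hM, map_mul, sD_C]
    have h1 := map_sD (algebraMap V C) p 1 D
    rw [Matrix.map_one (algebraMap V C) (map_zero _) (map_one _)] at h1
    rw [← h1, ← hD₁, ← hD₁₂, map_mul, map_C, MvPolynomial.C_mul, mul_assoc]
  obtain ⟨h₁, c₁, Λ, w, hh₁, hc₁, hw, hΛs, hΛ, hdΛ⟩ := rlv (K := K) V hV.ne_top hv2 D₂ hD₂h hS₂
    (sw (p.map (algebraMap V C)) 1 M) (hs.sw _ _) (c * algebraMap V C u) (mul_ne_zero hc huC) hM₁
  have hsq : ∀ x : V, ∃ y, y ^ 2 = x := by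
    intro x
    obtain ⟨y, hy⟩ := IsAlgClosed.exists_pow_nat_eq (x : C) (n := 2) (by norm_num)
    have hyV : y ∈ V := by
      rw [← V.valuation_le_one_iff]
      have h1 : V.valuation y ^ 2 ≤ 1 := by
        rw [← map_pow, hy, V.valuation_le_one_iff]
        exact x.2
      by_contra h2
      push Not at h2
      exact absurd h1 (not_le.2 (one_lt_pow₀ h2 (by norm_num)))
    exact ⟨⟨y, hyV⟩, Subtype.ext hy⟩
  obtain ⟨h₂, hh₂, hrig, hdM₂⟩ := rge hsq Λ hΛs w hw D₂ hdΛ a haa hAt₂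
  obtain ⟨M₂, hM₂⟩ : ∃ M₂ : Web V, M₂ = gw h₂ Λ := ⟨_, rfl⟩
  rw [← hM₂] at hrig hdM₂
  have hfixM : ∀ σ : C ≃ₐ[K] C, ESH.Inert V σ → ∃ τ : V →+* V,
      (∀ z : V, ((τ z : V) : C) = σ (z : C)) ∧ mapW τ M₂ = M₂ := by
    intro σ hσ
    obtain ⟨τ, hτ1, hτr, hτD, hτa⟩ := hτ σ hσ
    refine ⟨τ, hτ1, ?_⟩
    have hrig' : Rig a (mapW τ M₂) := by
      refine ⟨hrig.sy.mapW τ, ?_, ?_⟩
      · show (M₂ 0 1).map τ = 1
        rw [hrig.one, Matrix.map_one τ (map_zero τ) (map_one τ)]
      · show (M₂ 0 0).map τ = - diagonal a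
        rw [hrig.dia]
        ext i j
        simp only [Matrix.map_apply, Matrix.neg_apply, map_neg, Matrix.diagonal_apply]
        split_ifs
        · rw [hτa]
        · rw [map_zero]
    refine (rgu V hv2 a M₂ (mapW τ M₂) hrig hrig' ?_ ?_ ?_).symm
    · rw [← map_dW, hdM₂, hτD]
    · rw [hdM₂]; exact hS₂
    · funext i j
      ext k l
      simp only [mapW, Matrix.map_apply]
      exact (hτr _).symm
  -- conclusion
  have hdet1 : (p.map (algebraMap V C)).det = 1 := by
    rw [hpmap, Matrix.det_fin_two_of]; simp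
  refine ⟨h₁ * h₂.map (algebraMap V C), c₁ ^ 2, qt M₂, ?_, pow_ne_zero 2 hc₁, qt_hom M₂, ?_, ?_, ?_⟩
  · rw [Matrix.det_mul]
    refine mul_ne_zero hh₁ ?_
    have e1 := (algebraMap V C).map_det h₂
    rw [RingHom.mapMatrix_apply] at e1
    rw [← e1]
    exact (hh₂.map (algebraMap V C)).ne_zero
  · rw [← qt_map]
    refine smq hk2 _ (hrig.sy.mapW _) ?_
    rw [← map_dW, hdM₂]
    exact hS₂
  · rw [← qt_map, hM₂, mapW_gw, hΛ, ifx_gw_smul, gw_gw, qt_smul, qt_gw, qt_sw, hdet1, Matrix.det_one,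
      one_mul, MvPolynomial.C_1, one_mul]
  · intro σ hσ m
    obtain ⟨τ, hτ1, hτM⟩ := hfixM σ hσ
    rw [← hτ1, ← coeff_map, ← qt_map, hτM]

end Pool.Agent.T1
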