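import Pool.Agent.T1.AWD

/-!
# T1 / INT: two curves on `P¹ × P¹` meet

Proof.  For `s : Fin 2 → k` let `f_s, g_s ∈ k[X]` be the polynomials `f(s; 1, X)`, `g(s; 1, X)` (degree `≤ n`, `≤ n'`; coefficient of `X^n` of `f_s` is
the value `f(s; 0, 1)`).  `R(s) := resultant f_s g_s n n'`
(`Polynomial.resultant`), a polynomial in `s` (`resultant_map_map`).  `f_{c s} = C (c ^ m) * f_s`, `g_{c s} = C (c ^ m') * g_s`, so by
`resultant_C_mul_left/right` `R(c s) = c ^ (m n' + m' n) R(s)`.  A polynomial function `R` in two variables with `R(c s) = c^N R(s)`, `N > 0`, has a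
zero `s ≠ 0`: `r(x) = R(1, x)`; if `r` is not constant it has a root; if
`r = c₀` then `R(x, 1) = x^N R(1, 1/x) = c₀ x^N` for `x ≠ 0`, so for all `x` (`k` infinite, both sides polynomials in `x`), and `R(0, 1) = 0`.
If the coefficients of `X^n` in `f_s` and of `X^n'` in `g_s` vanish: `t = (0, 1)`.  Otherwise, e.g. `f_s` has degree `n`; then
`resultant f_s g_s n n' = (f_s.coeff n) ^ _ * resultant f_s g_s`, so `f_s`, `g_s` are not coprime (`resultant_ne_zero`) and have a common root `x`, `t = (1, x)`.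
-/

namespace Pool.Agent.T1

open MvPolynomial Matrix

section

variable {k : Type*} [Field k]

/-- the polynomial `f(s; 1, X)` with coefficients in a `k`-algebra `A` -/
private noncomputable def INTF {A : Type*} [CommRing A] [Algebra k A] (s : Fin 2 → A) (f : P4 k) :
    Polynomial A :=
  ∑ d ∈ f.support, Polynomial.C (algebraMap k A (coeff d f) * s 0 ^ d (Sum.inl 0) *
    s 1 ^ d (Sum.inl 1)) * Polynomial.X ^ d (Sum.inr 1)

private theorem INT_map {A B : Type*} [CommRing A] [Algebra k A] [CommRing B] [Algebra k B]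
    (φ : A →ₐ[k] B) (s : Fin 2 → A) (f : P4 k) :
    (INTF s f).map (φ : A →+* B) = INTF (fun i => φ (s i)) f := by
  unfold INTF
  rw [Polynomial.map_sum]
  refine Finset.sum_congr rfl fun d _ => ?_
  simp

private theorem INT_wt {f : P4 k} {m n : ℕ} (hf : BH f m n) {d : Fin 2 ⊕ Fin 2 →₀ ℕ}
    (hd : d ∈ f.support) :
    d (Sum.inl 0) + d (Sum.inl 1) = m ∧ d (Sum.inr 0) + d (Sum.inr 1) = n := by
  have h := hf (mem_support_iff.mp hd)
  rw [Finsupp.weight_apply, Finsupp.sum_fintype _ _ (by simp)] at h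
  simp only [Fintype.sum_sum_type, Fin.sum_univ_two, bw, Sum.elim_inl, Sum.elim_inr, Prod.ext_iff,
    Prod.fst_add, Prod.snd_add, Prod.smul_fst, Prod.smul_snd, smul_eq_mul] at h
  omega

private theorem INT_natDegree {A : Type*} [CommRing A] [Algebra k A] (s : Fin 2 → A) {f : P4 k}
    {m n : ℕ} (hf : BH f m n) : (INTF s f).natDegree ≤ n := by
  refine Polynomial.natDegree_sum_le_of_forall_le _ _ fun d hd => ?_
  refine (Polynomial.natDegree_C_mul_X_pow_le _ _).trans ?_
  have := (INT_wt hf hd).2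
  omega

private theorem INT_smul {A : Type*} [CommRing A] [Algebra k A] (s : Fin 2 → A) {f : P4 k}
    {m n : ℕ} (hf : BH f m n) (c : A) :
    INTF (fun i => c * s i) f = Polynomial.C (c ^ m) * INTF s f := by
  unfold INTF
  rw [Finset.mul_sum]
  refine Finset.sum_congr rfl fun d hd => ?_
  have := (INT_wt hf hd).1
  rw [← mul_assoc, ← Polynomial.C_mul]
  congr 2
  rw [← this, mul_pow, mul_pow, pow_add]
  ring

private theorem INT_eval (s : Fin 2 → k) (f : P4 k) (x : k) :
    (INTF s f).eval x = eval (pt s ![1, x]) f := by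
  unfold INTF
  rw [Polynomial.eval_finsetSum, eval_eq']
  refine Finset.sum_congr rfl fun d _ => ?_
  simp [pt, Fintype.prod_sum_type]
  ring

private theorem INT_coeff (s : Fin 2 → k) {f : P4 k} {m n : ℕ} (hf : BH f m n) :
    (INTF s f).coeff n = eval (pt s ![0, 1]) f := by
  unfold INTF
  rw [Polynomial.finsetSum_coeff, eval_eq']
  refine Finset.sum_congr rfl fun d hd => ?_
  have h := (INT_wt hf hd).2
  rw [Polynomial.coeff_C_mul_X_pow]
  simp only [pt, Fintype.prod_sum_type, Sum.elim_inl, Sum.elim_inr, Fin.prod_univ_two]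
  by_cases h0 : d (Sum.inr 0) = 0
  · rw [if_pos (by omega)]
    simp [h0]
    ring
  · rw [if_neg (by omega)]
    simp [h0]

/-- resultant -/
private noncomputable def INTR {A : Type*} [CommRing A] [Algebra k A] (f g : P4 k) (n n' : ℕ)
    (s : Fin 2 → A) : A := Polynomial.resultant (INTF s f) (INTF s g) n n'

private theorem INTR_map {A B : Type*} [CommRing A] [Algebra k A] [CommRing B] [Algebra k B]
    (φ : A →ₐ[k] B) (f g : P4 k) (n n' : ℕ) (s : Fin 2 → A) :
    INTR f g n n' (fun i => φ (s i)) = φ (INTR f g n n' s) := by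
  unfold INTR
  rw [← INT_map φ s f, ← INT_map φ s g, Polynomial.resultant_map_map]
  rfl

private theorem INTR_smul {f g : P4 k} {m n m' n' : ℕ} (hf : BH f m n) (hg : BH g m' n')
    (s : Fin 2 → k) (c : k) :
    INTR f g n n' (fun i => c * s i) = c ^ (m * n' + m' * n) * INTR f g n n' s := by
  unfold INTR
  rw [INT_smul s hf, INT_smul s hg, Polynomial.resultant_C_mul_left,
    Polynomial.resultant_C_mul_right, ← pow_mul, ← pow_mul, pow_add, mul_assoc]

private theorem INT_zero [IsAlgClosed k] {f g : P4 k} {m n m' n' : ℕ} (hf : BH f m n)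
    (hg : BH g m' n') (hN : 0 < m * n' + m' * n) :
    ∃ s : Fin 2 → k, s ≠ 0 ∧ INTR f g n n' s = 0 := by
  set r : Polynomial k := INTR f g n n' ![1, Polynomial.X] with hr
  set r' : Polynomial k := INTR f g n n' ![Polynomial.X, 1] with hr'
  have e1 : ∀ x, r.eval x = INTR f g n n' ![1, x] := by
    intro x
    have h := INTR_map (Polynomial.aeval (R := k) x) f g n n' ![1, Polynomial.X]
    rw [← hr, Polynomial.coe_aeval_eq_eval] at h
    rw [← h]
    congr 1
    funext i
    fin_cases i <;> simp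
  have e2 : ∀ x, r'.eval x = INTR f g n n' ![x, 1] := by
    intro x
    have h := INTR_map (Polynomial.aeval (R := k) x) f g n n' ![Polynomial.X, 1]
    rw [← hr', Polynomial.coe_aeval_eq_eval] at h
    rw [← h]
    congr 1
    funext i
    fin_cases i <;> simp
  by_cases hd : r.degree = 0
  · obtain ⟨c, hc⟩ := Polynomial.natDegree_eq_zero.mp (Polynomial.natDegree_eq_of_degree_eq_some hd)
    have key : Polynomial.X * r' = Polynomial.C c * Polynomial.X ^ (m * n' + m' * n + 1) := by
      refine Polynomial.funext fun x => ?_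
      by_cases hx : x = 0
      · subst hx
        simp
      · have h3 : (![x, 1] : Fin 2 → k) = fun i => x * (![1, x⁻¹] : Fin 2 → k) i := by
          funext i
          fin_cases i <;> simp [hx]
        rw [Polynomial.eval_mul, e2, h3, INTR_smul hf hg, ← e1, ← hc]
        simp
        ring
    have key2 : r' = Polynomial.C c * Polynomial.X ^ (m * n' + m' * n) := by
      apply mul_left_cancel₀ (Polynomial.X_ne_zero (R := k))
      rw [key]
      ring
    refine ⟨![0, 1], fun h => one_ne_zero (congrFun h 1), ?_⟩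
    rw [← e2, key2, Polynomial.eval_mul, Polynomial.eval_pow, Polynomial.eval_X,
      zero_pow hN.ne', mul_zero]
  · obtain ⟨x, hx⟩ := IsAlgClosed.exists_root r hd
    refine ⟨![1, x], fun h => one_ne_zero (congrFun h 0), ?_⟩
    rw [← e1]
    exact hx

end

private theorem INT_aux {k : Type*} [Field k] [IsAlgClosed k] (f g : P4 k) (m n m' n' : ℕ)
    (hf : BH f m n) (hg : BH g m' n') (s : Fin 2 → k) (hR : INTR f g n n' s = 0)
    (hc : (INTF s f).coeff n ≠ 0) :
    ∃ x : k, (INTF s f).eval x = 0 ∧ (INTF s g).eval x = 0 := by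
  have hn : (INTF s f).natDegree = n :=
    le_antisymm (INT_natDegree s hf) (Polynomial.le_natDegree_of_ne_zero hc)
  obtain ⟨j, hj⟩ := Nat.exists_eq_add_of_le (INT_natDegree s hg)
  unfold INTR at hR
  rw [hj, Polynomial.resultant_add_right_deg _ _ _ _ _ le_rfl] at hR
  have h0 : Polynomial.resultant (INTF s f) (INTF s g) = 0 := by
    rcases mul_eq_zero.mp hR with h | h
    · exact absurd h (pow_ne_zero _ hc)
    · rw [← hn] at h
      exact h
  have hco : ¬ IsCoprime (INTF s f) (INTF s g) := fun h => Polynomial.resultant_ne_zero _ _ h h0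
  rw [Polynomial.isCoprime_iff_aeval_ne_zero_of_isAlgClosed k k] at hco
  push Not at hco
  obtain ⟨x, hx⟩ := hco
  exact ⟨x, by simpa [Polynomial.coe_aeval_eq_eval] using hx⟩

theorem int2 {k : Type*} [Field k] [IsAlgClosed k] (f g : P4 k) (m n m' n' : ℕ) (hf : BH f m n)
    (hg : BH g m' n') (hN : 0 < m * n' + m' * n) :
    ∃ s t : Fin 2 → k, s ≠ 0 ∧ t ≠ 0 ∧ eval (pt s t) f = 0 ∧ eval (pt s t) g = 0 := by
  obtain ⟨s, hs, hR⟩ := INT_zero hf hg hN
  by_cases hc : (INTF s f).coeff n = 0
  · by_cases hc' : (INTF s g).coeff n' = 0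
    · refine ⟨s, ![0, 1], hs, fun h => one_ne_zero (congrFun h 1), ?_, ?_⟩
      · rw [← INT_coeff s hf, hc]
      · rw [← INT_coeff s hg, hc']
    · have hR' : INTR g f n' n s = 0 := by
        unfold INTR at hR ⊢
        rw [Polynomial.resultant_comm, hR, mul_zero]
      obtain ⟨x, h1, h2⟩ := INT_aux g f m' n' m n hg hf s hR' hc'
      refine ⟨s, ![1, x], hs, fun h => one_ne_zero (congrFun h 0), ?_, ?_⟩
      · rw [← INT_eval, h2]
      · rw [← INT_eval, h1]
  · obtain ⟨x, h1, h2⟩ := INT_aux f g m n m' n' hf hg s hR hc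
    refine ⟨s, ![1, x], hs, fun h => one_ne_zero (congrFun h 0), ?_, ?_⟩
    · rw [← INT_eval, h1]
    · rw [← INT_eval, h2]

end Pool.Agent.T1
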