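import Pool.Agent.T1.KFX
import Pool.Agent.G4.BTS
import Pool.Agent.G4.OBI
import Pool.Agent.PQ.BTX
import Pool.Agent.PQ.TRF
import Pool.Agent.PQ.REL

/-!
# T1 / KST: finitely many Riemann models of the quartic of a section

`bts`: a set `S₁` of at most 42 elements which contains all bitangents of `qy A p r` with third coordinate `-1`.  For a datum `(h, κ, b)` the seven lines `e_s ᵥ* h⁻¹`, `b i ᵥ* h⁻¹` are bitangents of `qy A p r` with third coordinate `≠ 0` (see the part on normalised lines of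
`G4/DGB.lean`, copy it), their normalisations `L j` are in `S₁`, so `L ∈ S₁ ^ 7`.  By `kfx` two data with the same `L` have the same `(b, oo h)`.  `S` := the image of `Fintype.piFinset (fun _ : Fin 7 => S₁)` under the map which sends `L` to `(b, oo h)` for some datum with normalised lines `L`
(to `(0, 0)` if there is none).
-/

namespace Pool.Agent.T1

open MvPolynomial Matrix
open Pool.Agent.PQ (P3 lin sb SF NS Bit RB yy ka ND)
open Pool.Agent.G4 (P2 tri TH Tr Sec qy tv oo)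

/-- bitangents of the model give bitangents of `F` -/
private theorem kst_bit {C : Type*} [Field C] [IsAlgClosed C] (F : P3 C)
    (h : Matrix (Fin 3) (Fin 3) C) (hh : h.det ≠ 0) (c : C) (G : P3 C)
    (hE : sb h F = MvPolynomial.C c * G) (v : Fin 3 → C) (Q : P3 C) (hb : Bit G v Q) :
    ∃ Q', Bit F (v ᵥ* h⁻¹) Q' := by
  obtain ⟨e, he⟩ := IsAlgClosed.exists_pow_nat_eq c (n := 2) (by norm_num)
  have h1 := Pool.Agent.PQ.scl_bit hb 1 e one_ne_zero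
  rw [he, ← hE, one_smul] at h1
  have h2 := Pool.Agent.PQ.trf_bit h⁻¹ h1
  rw [Pool.Agent.PQ.sb_inv h hh] at h2
  exact ⟨_, h2⟩

theorem kst {k : Type*} [Field k] [CharZero k] [IsAlgClosed k] (A : Fin 3 → P2 k) (hA : TH A)
    (hNS : NS (tri A)) (p r : P2 k) (hs : Sec A p r) :
    ∃ S : Finset ((Fin 4 → Fin 3 → k) × (Fin 3 → k)), S.card ≤ 42 ^ 7 ∧
      ∀ (h : Matrix (Fin 3) (Fin 3) k) (κ : k) (b : Fin 4 → Fin 3 → k), h.det ≠ 0 → κ ≠ 0 → ND b →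
        sb h (qy A p r) = C κ * RB b → (b, oo h) ∈ S := by
  classical
  have h2 : (2 : k) ≠ 0 := two_ne_zero
  obtain ⟨S₁, hc, hS₁⟩ := G4.bts A hA hNS p r hs
  let R : (Fin 3 ⊕ Fin 4 → Fin 3 → k) → ((Fin 4 → Fin 3 → k) × (Fin 3 → k)) → Prop := fun L x =>
    ∃ h : Matrix (Fin 3) (Fin 3) k, h.det ≠ 0 ∧ ND x.1 ∧ x.2 = oo h ∧
      (∀ s : Fin 3, ∃ t : k, t ≠ 0 ∧ (Pi.single s 1 : Fin 3 → k) ᵥ* h⁻¹ = t • L (Sum.inl s)) ∧
      (∀ i : Fin 4, ∃ t : k, t ≠ 0 ∧ x.1 i ᵥ* h⁻¹ = t • L (Sum.inr i))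
  have comb : ∀ (v w l : Fin 3 → k), (∃ t : k, t ≠ 0 ∧ v = t • l) → (∃ t : k, t ≠ 0 ∧ w = t • l) →
      ∃ ζ : k, ζ ≠ 0 ∧ w = ζ • v := by
    rintro v w l ⟨t, ht, rfl⟩ ⟨u, hu, rfl⟩
    refine ⟨u / t, div_ne_zero hu ht, ?_⟩
    rw [smul_smul, div_mul_cancel₀ u ht]
  have hR : ∀ L x y, R L x → R L y → x = y := by
    rintro L ⟨b, o⟩ ⟨b', o'⟩ ⟨h, hh, hb, ho, hx, hl⟩ ⟨h', -, hb', ho', hx', hl'⟩
    obtain ⟨e1, e2⟩ := kfx h h' hh b b' hb hb' (fun s => comb _ _ _ (hx s) (hx' s))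
      (fun i => comb _ _ _ (hl i) (hl' i))
    have ho1 : o = oo h := ho
    have ho2 : o' = oo h' := ho'
    rw [ho1, ho2, e1, e2]
  let f : (Fin 3 ⊕ Fin 4 → Fin 3 → k) → ((Fin 4 → Fin 3 → k) × (Fin 3 → k)) := fun L =>
    if hx : ∃ x, R L x then hx.choose else 0
  refine ⟨(Fintype.piFinset fun _ : Fin 3 ⊕ Fin 4 => S₁).image f, ?_, ?_⟩
  · refine Finset.card_image_le.trans ?_
    rw [Fintype.card_piFinset]
    simp only [Finset.prod_const, Finset.card_univ, Fintype.card_sum, Fintype.card_fin]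
    exact Nat.pow_le_pow_left hc 7
  · intro h κ b hh hκ hb hE
    have hhi : h⁻¹ * h = 1 := Matrix.nonsing_inv_mul _ (isUnit_iff_ne_zero.2 hh)
    have hback : ∀ v : Fin 3 → k, (v ᵥ* h⁻¹) ᵥ* h = v := by
      intro v
      rw [Matrix.vecMul_vecMul, hhi, Matrix.vecMul_one]
    have hne : ∀ v : Fin 3 → k, v ≠ 0 → v ᵥ* h⁻¹ ≠ 0 := by
      intro v hv h0
      apply hv
      rw [← hback v, h0, Matrix.zero_vecMul]
    have hN : ∀ v : Fin 3 → k, v ≠ 0 → (∃ Q, Bit (RB b) v Q) →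
        ∃ l : Fin 3 → k, l ∈ S₁ ∧ ∃ t : k, t ≠ 0 ∧ v ᵥ* h⁻¹ = t • l := by
      rintro v hv ⟨Q, hQ⟩
      obtain ⟨Q', hQ'⟩ := kst_bit _ h hh κ _ hE v Q hQ
      have h3 : (v ᵥ* h⁻¹) 2 ≠ 0 := G4.obi h2 A hA hNS p r hs _ (hne v hv) Q' hQ'
      have h4 := Pool.Agent.PQ.scl_bit hQ' (-((v ᵥ* h⁻¹) 2)⁻¹) 1 (neg_ne_zero.2 (inv_ne_zero h3))
      rw [one_pow, C_1, one_mul] at h4
      refine ⟨-((v ᵥ* h⁻¹) 2)⁻¹ • (v ᵥ* h⁻¹), hS₁ _ _ ?_ h4, -((v ᵥ* h⁻¹) 2), neg_ne_zero.2 h3, ?_⟩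
      · rw [Pi.smul_apply, smul_eq_mul, neg_mul, inv_mul_cancel₀ h3]
      · rw [smul_smul, neg_mul_neg, mul_inv_cancel₀ h3, one_smul]
    have hX0 : ∀ s : Fin 3, (Pi.single s 1 : Fin 3 → k) ≠ 0 := by
      intro s h0
      have := congrFun h0 s
      rw [Pi.single_eq_same, Pi.zero_apply] at this
      exact one_ne_zero this
    have hB0 : ∀ i : Fin 4, b i ≠ 0 := by
      intro i h0
      exact hb.ne i 0 (congrFun h0 0)
    have hXl := fun s : Fin 3 => hN (Pi.single s 1) (hX0 s) ⟨_, Pool.Agent.PQ.bit_x (yy b) s⟩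
    have hBl := fun i : Fin 4 => hN (b i) (hB0 i)
      ⟨_, Pool.Agent.PQ.bit_s (b i) (hb.ne i) (yy b) _ (Pool.Agent.PQ.rel_field b i (hb.ne i))⟩
    choose lx hx1 hx2 using hXl
    choose lb hb1 hb2 using hBl
    have hRL : R (Sum.elim lx lb) (b, oo h) := ⟨h, hh, hb, rfl, fun s => hx2 s, fun i => hb2 i⟩
    refine Finset.mem_image.2 ⟨Sum.elim lx lb, ?_, ?_⟩
    · rw [Fintype.mem_piFinset]
      rintro (s | i)
      · exact hx1 s
      · exact hb1 i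
    · have hex : ∃ x, R (Sum.elim lx lb) x := ⟨_, hRL⟩
      show (if hx : ∃ x, R (Sum.elim lx lb) x then hx.choose else 0) = _
      rw [dif_pos hex]
      exact hR _ _ _ hex.choose_spec hRL

end Pool.Agent.T1
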