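import Pool.Agent.PQ.DGA
import Pool.Agent.PQ.CRO
import Pool.Agent.PQ.BTX
import Pool.Agent.PQ.TRF
import Pool.Agent.PQ.REL
import Pool.Agent.ESH.CVU

/-!
# T1 / NDG

Degrees.  `b i r` is the cross ratio of lines `e_s ᵥ* h⁻¹`, `b 0 ᵥ* h⁻¹`, `b i ᵥ* h⁻¹` (`PQ.cro`).  Suppose that for every `τ : C ≃ₐ[K] C` the quartic `τ F` is
equivalent to a member `G` of the finite set `W`.  Then `G` has the Riemann model with the parameters `τ b`, and `τ (b i r)` is the cross ratio of bitangents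
of `G`; there are at most 42 (`PQ.dga`).  So the conjugates of `b i r` lie in a set with at most `W.card * 42 ^ 5` elements.
-/

namespace Pool.Agent.T1

open MvPolynomial Matrix NumberField IsDedekindDomain
open Pool.Agent.PQ (P3 lin sb SF NS Bit RB yy ka ND)

/-- bitangents of the model give bitangents of `F` -/
private theorem ndg_bit {C : Type*} [Field C] [IsAlgClosed C] (F : P3 C)
    (h : Matrix (Fin 3) (Fin 3) C) (hh : h.det ≠ 0) (c : C) (G : P3 C)
    (hE : sb h F = MvPolynomial.C c * G) (v : Fin 3 → C) (Q : P3 C) (hb : Bit G v Q) :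
    ∃ Q', Bit F (v ᵥ* h⁻¹) Q' := by
  obtain ⟨e, he⟩ := IsAlgClosed.exists_pow_nat_eq c (n := 2) (by norm_num)
  have h1 := PQ.scl_bit hb 1 e one_ne_zero
  rw [he, ← hE, one_smul] at h1
  have h2 := PQ.trf_bit h⁻¹ h1
  rw [PQ.sb_inv h hh] at h2
  exact ⟨_, h2⟩

theorem nd_map {C : Type*} [Field C] {b : Fin 4 → Fin 3 → C} (hb : ND b) (φ : C →+* C) :
    ND fun i r => φ (b i r) := by
  refine ⟨fun r => ?_, fun i => ?_, fun i r => ?_, fun i r hi hr h => ?_, fun i => ?_, fun i => ?_⟩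
  · rw [hb.zero, map_one]
  · rw [hb.col, map_one]
  · exact (map_ne_zero φ).2 (hb.ne i r)
  · exact hb.one i r hi hr (φ.injective (by rw [h, map_one]))
  · have h1 : PQ.mu (fun i r => φ (b i r)) i = φ (PQ.mu b i) := by
      unfold PQ.mu PQ.m3
      rw [map_mul, map_pow, map_neg, map_one, RingHom.map_det]
      rfl
    rw [h1]
    exact (map_ne_zero φ).2 (hb.mu i)
  · have h1 : PQ.la (fun i r => φ (b i r)) i = φ (PQ.la b i) := by
      unfold PQ.la PQ.m3
      rw [map_mul, map_pow, map_neg, map_one, RingHom.map_det]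
      congr 2
      ext j s
      simp only [RingHom.mapMatrix_apply, Matrix.map_apply, Matrix.of_apply, PQ.aa, map_mul]
    rw [h1]
    exact (map_ne_zero φ).2 (hb.la i)

/-- the cross ratios of a quartic with a Riemann model: a finite set containing all parameters of all Riemann models -/
private theorem ndg_set {C : Type*} [Field C] [CharZero C] [IsAlgClosed C] (G : P3 C) (hG : G.IsHomogeneous 4)
    (hS : SF G) (r : Fin 3) : ∃ T : Finset C, T.card ≤ 42 ^ 5 ∧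
      ∀ (h : Matrix (Fin 3) (Fin 3) C) (_ : h.det ≠ 0) (c : C) (_ : c ≠ 0) (b : Fin 4 → Fin 3 → C) (_ : ND b)
        (_ : sb h G = MvPolynomial.C c * RB b) (i : Fin 4), b i r ∈ T := by
  classical
  by_cases hex : ∃ (h : Matrix (Fin 3) (Fin 3) C) (c : C) (b : Fin 4 → Fin 3 → C), h.det ≠ 0 ∧ c ≠ 0 ∧
      ND b ∧ sb h G = MvPolynomial.C c * RB b
  swap
  · refine ⟨∅, by simp, fun h hh c hc b hb hE => ?_⟩
    exact absurd ⟨h, c, b, hh, hc, hb, hE⟩ hex
  obtain ⟨h0, c0, b0, hh0, hc0, hb0, hE0⟩ := hex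
  obtain ⟨S, hS1, hS2⟩ := PQ.dga G hG hS h0 hh0 c0 hc0 b0 hb0 hE0
  refine ⟨(Fintype.piFinset fun _ : Fin 5 => S).image
    (fun f => PQ.cr (fun j : Fin 3 => f (Fin.castLE (by norm_num) j)) (f 3) (f 4) r), ?_, ?_⟩
  · refine Finset.card_image_le.trans ?_
    rw [Fintype.card_piFinset_const]
    exact Nat.pow_le_pow_left hS1 5
  intro h hh c hc b hb hE i
  have hhi : h⁻¹ * h = 1 := Matrix.nonsing_inv_mul _ (isUnit_iff_ne_zero.2 hh)
  have hback : ∀ v : Fin 3 → C, (v ᵥ* h⁻¹) ᵥ* h = v := by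
    intro v
    rw [Matrix.vecMul_vecMul, hhi, Matrix.vecMul_one]
  have hne : ∀ v : Fin 3 → C, v ≠ 0 → v ᵥ* h⁻¹ ≠ 0 := by
    intro v hv h0
    apply hv
    rw [← hback v, h0, Matrix.zero_vecMul]
  have hX : ∀ r : Fin 3, ∃ Q, Bit G ((Pi.single r 1 : Fin 3 → C) ᵥ* h⁻¹) Q :=
    fun r => ndg_bit _ h hh c _ hE _ _ (PQ.bit_x (yy b) r)
  have hB : ∀ i : Fin 4, ∃ Q, Bit G (b i ᵥ* h⁻¹) Q :=
    fun i => ndg_bit _ h hh c _ hE _ _ (PQ.bit_s (b i) (hb.ne i) (yy b) _ (PQ.rel_field b i (hb.ne i)))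
  have hX0 : ∀ r : Fin 3, (Pi.single r 1 : Fin 3 → C) ≠ 0 := by
    intro r h0
    have := congrFun h0 r
    rw [Pi.single_eq_same, Pi.zero_apply] at this
    exact one_ne_zero this
  have hB0 : ∀ i : Fin 4, b i ≠ 0 := by
    intro i h0
    exact hb.ne i 0 (congrFun h0 0)
  set L : Fin 3 → Fin 3 → C := fun r => (Pi.single r 1 : Fin 3 → C) ᵥ* h⁻¹ with hL
  have hcr : PQ.cr L (b 0 ᵥ* h⁻¹) (b i ᵥ* h⁻¹) r = b i r := by
    refine PQ.cro h hh L _ _ (b i) (hb.col i) (fun _ => 1) (fun _ => one_ne_zero) 1 1 one_ne_zero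
      one_ne_zero ?_ ?_ ?_ r
    · intro r
      rw [one_smul, hL]
      exact (hback _).symm
    · rw [one_smul, hback]
      ext r
      exact (hb.zero r).symm
    · rw [one_smul, hback]
  choose QX' hQX' using hX
  choose QB' hQB' using hB
  have h1 : ∀ r : Fin 3, ∃ s ∈ S, ∃ c : C, c ≠ 0 ∧ L r = c • s :=
    fun r => hS2 _ _ (hne _ (hX0 r)) (hQX' r)
  have h2 : ∀ i : Fin 4, ∃ s ∈ S, ∃ c : C, c ≠ 0 ∧ b i ᵥ* h⁻¹ = c • s :=
    fun i => hS2 _ _ (hne _ (hB0 i)) (hQB' i)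
  choose sL hsL cL hcL hEL using h1
  choose sB hsB cB hcB hEB using h2
  rw [Finset.mem_image]
  refine ⟨![sL 0, sL 1, sL 2, sB 0, sB i], ?_, ?_⟩
  · rw [Fintype.mem_piFinset]
    intro j
    fin_cases j
    · exact hsL 0
    · exact hsL 1
    · exact hsL 2
    · exact hsB 0
    · exact hsB i
  · have h3 : (fun j : Fin 3 => (![sL 0, sL 1, sL 2, sB 0, sB i] : Fin 5 → Fin 3 → C)
        (Fin.castLE (by norm_num) j)) = sL := by
      ext j
      fin_cases j <;> rfl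
    rw [h3]
    change PQ.cr sL (sB 0) (sB i) r = b i r
    have h5 : L = fun i => cL i • sL i := funext hEL
    rw [← hcr, h5, hEB 0, hEB i, PQ.cro_smul sL (sB 0) (sB i) cL hcL (cB 0) (cB i) (hcB 0) (hcB i)]

theorem ndg {K C : Type*} [Field K] [NumberField K] [Field C] [Algebra K C] [Algebra.IsAlgebraic K C]
    [IsAlgClosed C] (W : Finset (P3 C)) (hW : ∀ G ∈ W, G.IsHomogeneous 4 ∧ SF G) (F : P3 C)
    (h : Matrix (Fin 3) (Fin 3) C) (hh : h.det ≠ 0) (c : C) (hc : c ≠ 0) (b : Fin 4 → Fin 3 → C)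
    (hb : ND b) (hE : sb h F = MvPolynomial.C c * RB b)
    (hσ : ∀ τ : C ≃ₐ[K] C, ∃ G ∈ W, ∃ (m : Matrix (Fin 3) (Fin 3) C) (κ : C), m.det ≠ 0 ∧ κ ≠ 0 ∧
      map (τ : C →+* C) F = MvPolynomial.C κ * sb m G) (i : Fin 4) (r : Fin 3) :
    (minpoly K (b i r)).natDegree ≤ W.card * 42 ^ 5 := by
  classical
  have hchar : CharZero C := charZero_of_injective_algebraMap (algebraMap K C).injective
  have hT : ∀ G : P3 C, ∃ T : Finset C, T.card ≤ 42 ^ 5 ∧ (G ∈ W →
      ∀ (h : Matrix (Fin 3) (Fin 3) C) (_ : h.det ≠ 0) (c : C) (_ : c ≠ 0) (b : Fin 4 → Fin 3 → C) (_ : ND b)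
        (_ : sb h G = MvPolynomial.C c * RB b) (i : Fin 4), b i r ∈ T) := by
    intro G
    by_cases hG : G ∈ W
    · obtain ⟨T, h1, h2⟩ := ndg_set G (hW G hG).1 (hW G hG).2 r
      exact ⟨T, h1, fun _ => h2⟩
    · exact ⟨∅, by simp, fun h => absurd h hG⟩
  choose T hT1 hT2 using hT
  set S : Finset C := W.biUnion T with hS
  have hSc : S.card ≤ W.card * 42 ^ 5 := Finset.card_biUnion_le_card_mul _ _ _ fun G _ => hT1 G
  have hmem : ∀ τ : C ≃ₐ[K] C, τ (b i r) ∈ S := by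
    intro τ
    obtain ⟨G, hG, m, κ, hm, hκ, hF⟩ := hσ τ
    rw [hS, Finset.mem_biUnion]
    refine ⟨G, hG, ?_⟩
    have hτh : (h.map τ).det = τ h.det := by
      have e1 := (τ : C →+* C).map_det h
      rw [RingHom.mapMatrix_apply] at e1
      exact e1.symm
    refine hT2 G hG (m * h.map τ) ?_ (κ⁻¹ * τ c) (mul_ne_zero (inv_ne_zero hκ) ((map_ne_zero τ).2 hc))
      (fun i r => τ (b i r)) (nd_map hb (τ : C →+* C)) ?_ i
    · rw [Matrix.det_mul, hτh]
      exact mul_ne_zero hm ((map_ne_zero τ).2 hh)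
    · have e1 := congrArg (map (τ : C →+* C)) hE
      rw [PQ.map_sb, map_mul, map_C, hF, map_mul, PQ.sb_C, PQ.sb_sb] at e1
      have e2 : map (τ : C →+* C) (RB b) = RB fun i r => τ (b i r) := PQ.map_RB _ _
      rw [e2] at e1
      have e3 : sb (m * h.map τ) G =
          MvPolynomial.C κ⁻¹ * (MvPolynomial.C κ * sb (m * h.map τ) G) := by
        rw [← mul_assoc, ← C_mul, inv_mul_cancel₀ hκ, C_1, one_mul]
      rw [e3]
      have e4 : (MvPolynomial.C κ * sb (m * h.map τ) G : P3 C) =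
          MvPolynomial.C (τ c) * RB fun i r => τ (b i r) := e1
      rw [e4, ← mul_assoc, ← C_mul]
  have hx : IsAlgebraic K (b i r) := Algebra.IsAlgebraic.isAlgebraic _
  have hnorm : Normal K C :=
    { toIsAlgebraic := inferInstance
      splits' := fun _ => IsAlgClosed.splits _ }
  have hsep : (minpoly K (b i r)).Separable := (minpoly.irreducible hx.isIntegral).separable
  have hcard := Polynomial.card_rootSet_eq_natDegree hsep
    (IsAlgClosed.splits ((minpoly K (b i r)).map (algebraMap K C)))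
  rw [← hcard]
  have hsub : (minpoly K (b i r)).rootSet C ⊆ (S : Set C) := by
    intro y hy
    obtain ⟨τ, hτ⟩ := minpoly.exists_algEquiv_of_root' (K := K) (L := C) (x := y) (y := b i r)
      hx (Polynomial.mem_rootSet.mp hy).2
    rw [← hτ]
    exact hmem τ
  have h8 : Fintype.card ((minpoly K (b i r)).rootSet C) = ((minpoly K (b i r)).rootSet C).toFinset.card :=
    (Set.toFinset_card _).symm
  rw [h8]
  refine (Finset.card_le_card ?_).trans hSc
  intro y hy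
  exact hsub (Set.mem_toFinset.1 hy)

end Pool.Agent.T1
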