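import Pool.Agent.T1.DefsN
import Pool.Agent.T1.KST
import Pool.Agent.T1.NDG
import Pool.Agent.G4.CNS
import Pool.Agent.G4.TRX
import Pool.Agent.G4.TLB
import Pool.Agent.G4.HER
import Pool.Agent.ESH.CNT

/-!
# T1 / KDG: degrees on the cone

`cns`: `S₀` with at most 7226 elements containing all sections of `A`.  `Z` := the union over `(p', r') ∈ S₀` (with `Sec A p' r'`) of the sets of `kst`; `Z.card ≤ 7226 * 42 ^ 7`.
Claim: `(τ b, τ (oo h)) ∈ Z` for all `τ : C ≃ₐ[K] C` (`τ b = fun i r => τ (b i r)`).  `hG τ`: `g, l, q`, `Tr g l q (τ A) A`; `μ ^ 2 = l`; `Sec.map`: `(τ p, τ r)` is a section of `τ A`; `G4.trx`: a section `(p', r')` of `A` with `qy A p' r' = C (μ⁻¹ ^ 4) * sb m (qy (τ A) (τ p) (τ r))`, `m = blk g μ`,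
`qy (τ A) (τ p) (τ r) = map τ (qy A p r)` (`map_qy`).  `h' := m⁻¹ * τ h`: `sb h' (qy A p' r') = C (μ⁻¹ ^ 4 * τ κ) * RB (τ b)` (`PQ.sb_sb`, `PQ.map_sb`-type lemmas), `oo h' = oo (τ h) = τ (oo h)` as in `G4/UNX.lean` (`m e₂ = μ e₂`); `nd_map` (in `NDG`).
First part: `ESH.cnt` with `T σ := σ (b i r)`, the set `{z | ∃ y ∈ Z, z = y.1 i r}` of at most `7226 * 42 ^ 7` elements, `m = 1`.
Second part: `τ (exu (v j) i) = exu (τ v j) i`, and `(τ (v j l)) ^ 2 = tv (τ b) (τ (oo h)) j l` (`map_tv`).  For `u : Fin 3 → C` the set `{exu w i | ∀ l, w l ^ 2 = u l}` has at most 8 elements (fix `w₀` with `w₀ l ^ 2 = u l`; `w l = ± w₀ l`; image of `Fin 3 → Bool`).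
So all conjugates of `exu (v j) i` are in a set of at most `7226 * 42 ^ 7 * 8` elements.
-/

namespace Pool.Agent.T1

open MvPolynomial Matrix
open Pool.Agent.PQ (P3 lin sb SF NS Bit RB yy ka ND)
open Pool.Agent.G4 (P2 tri TH Tr Sec qy tv oo exu)

private theorem kdg_oo {k : Type*} [Field k] (m h : Matrix (Fin 3) (Fin 3) k) (hm : m.det ≠ 0) (μ : k)
    (hμ : μ ≠ 0) (hm2 : m *ᵥ Pi.single 2 1 = μ • Pi.single 2 1) : oo (m⁻¹ * h) = oo h := by
  have e1 : (m⁻¹ * h)⁻¹ = h⁻¹ * m := by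
    rw [Matrix.mul_inv_rev, Matrix.nonsing_inv_nonsing_inv _ (isUnit_iff_ne_zero.2 hm)]
  have e2 : ∀ i, (m⁻¹ * h)⁻¹ i 2 = μ * h⁻¹ i 2 := by
    intro i
    have e3 : (m⁻¹ * h)⁻¹ *ᵥ (Pi.single 2 1 : Fin 3 → k) =
        μ • (h⁻¹ *ᵥ (Pi.single 2 1 : Fin 3 → k)) := by
      rw [e1, ← Matrix.mulVec_mulVec, hm2, Matrix.mulVec_smul]
    have e4 := congrFun e3 i
    simpa [Matrix.mulVec_single_one] using e4
  funext i
  simp only [oo]
  rw [e2 i, e2 0, mul_div_mul_left _ _ hμ]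

private theorem kdg_oomap {k : Type*} [Field k] (h : Matrix (Fin 3) (Fin 3) k) (hh : h.det ≠ 0)
    (τ : k →+* k) (i : Fin 3) : oo (h.map τ) i = τ (oo h i) := by
  have e1 : (h.map τ)⁻¹ = (h⁻¹).map τ := by
    refine Matrix.inv_eq_left_inv ?_
    rw [← Matrix.map_mul, Matrix.nonsing_inv_mul _ (isUnit_iff_ne_zero.2 hh)]
    exact Matrix.map_one _ (map_zero τ) (map_one τ)
  simp only [oo]
  rw [e1, map_div₀]
  rfl

private theorem kdg_exu {k : Type*} [Field k] (τ : k →+* k) (v : Fin 3 → k) (i : Fin 3) :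
    τ (exu v i) = exu (fun l => τ (v l)) i := by
  simp only [exu, map_div₀, map_sub, map_add, map_mul, map_ofNat]

theorem kdg {K C : Type*} [Field K] [NumberField K] [Field C] [Algebra K C] [Algebra.IsAlgebraic K C]
    [IsAlgClosed C] (A : Fin 3 → P2 C) (hA : TH A) (hNS : NS (tri A)) (hG : GalC K A) (p r : P2 C)
    (hs : Sec A p r) (h : Matrix (Fin 3) (Fin 3) C) (hh : h.det ≠ 0) (κ : C) (hκ : κ ≠ 0)
    (b : Fin 4 → Fin 3 → C) (hb : ND b) (hE : sb h (qy A p r) = MvPolynomial.C κ * RB b) :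
    (∀ i r, (minpoly K (b i r)).natDegree ≤ 7226 * 42 ^ 7 * 8) ∧
      ∀ v : Fin 3 → Fin 3 → C, (∀ j i, v j i ^ 2 = tv b (oo h) j i) →
        ∀ j i, (minpoly K (exu (v j) i)).natDegree ≤ 7226 * 42 ^ 7 * 8 := by
  classical
  have hchar : CharZero C := charZero_of_injective_algebraMap (algebraMap K C).injective
  obtain ⟨S0, hS0, hS0'⟩ := G4.cns A hA hNS
  have hk : ∀ x : P2 C × P2 C, ∃ S : Finset ((Fin 4 → Fin 3 → C) × (Fin 3 → C)), S.card ≤ 42 ^ 7 ∧
      (Sec A x.1 x.2 → ∀ (h : Matrix (Fin 3) (Fin 3) C) (κ : C) (b : Fin 4 → Fin 3 → C), h.det ≠ 0 →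
        κ ≠ 0 → ND b → sb h (qy A x.1 x.2) = MvPolynomial.C κ * RB b → (b, oo h) ∈ S) := by
    intro x
    by_cases hx : Sec A x.1 x.2
    · obtain ⟨S, h1, h2⟩ := kst A hA hNS x.1 x.2 hx
      exact ⟨S, h1, fun _ => h2⟩
    · exact ⟨∅, by simp, fun h => absurd h hx⟩
  choose T hT1 hT2 using hk
  set Z : Finset ((Fin 4 → Fin 3 → C) × (Fin 3 → C)) := S0.biUnion T with hZ
  have hZc : Z.card ≤ 7226 * 42 ^ 7 :=
    (Finset.card_biUnion_le_card_mul _ _ _ fun G _ => hT1 G).trans (Nat.mul_le_mul_right _ hS0)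
  have hmem : ∀ τ : C ≃ₐ[K] C, ((fun i s => τ (b i s) : Fin 4 → Fin 3 → C), fun i => τ (oo h i)) ∈ Z := by
    intro τ
    obtain ⟨g, l, q, hg, hl, hq, ht⟩ := hG τ
    obtain ⟨μ, hμl⟩ := IsAlgClosed.exists_pow_nat_eq l (n := 2) (by norm_num)
    have hμ : μ ≠ 0 := by
      intro h0
      apply hl
      rw [← hμl, h0]
      norm_num
    rw [← hμl] at ht
    obtain ⟨h1, h2⟩ := G4.trx g μ hμ q hq _ _ ht _ _ (hs.map (φ := (τ : C →+* C)))
    rw [← G4.map_qy] at h2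
    set p' := MvPolynomial.C (μ⁻¹ ^ 2) * (G4.bsb g (map (τ : C →+* C) p) - q) with hp'
    set r' := MvPolynomial.C (μ⁻¹ ^ 3) * G4.bsb g (map (τ : C →+* C) r) with hr'
    have hmd : (G4.blk g μ).det ≠ 0 := by
      rw [G4.det_blk]
      exact mul_ne_zero hg hμ
    have hm2 : G4.blk g μ *ᵥ Pi.single 2 1 = μ • Pi.single 2 1 := by
      ext i
      fin_cases i <;> simp [G4.blk, Matrix.mulVec, dotProduct, Pi.single_apply]
    have hτh : (h.map (τ : C →+* C)).det ≠ 0 := by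
      have e1 := (τ : C →+* C).map_det h
      rw [RingHom.mapMatrix_apply] at e1
      rw [← e1]
      exact (map_ne_zero (τ : C →+* C)).2 hh
    have hin := hT2 (p', r') h1 ((G4.blk g μ)⁻¹ * h.map (τ : C →+* C)) (μ⁻¹ ^ 4 * (τ : C →+* C) κ)
      (fun i s => (τ : C →+* C) (b i s)) ?_ (mul_ne_zero (pow_ne_zero _ (inv_ne_zero hμ))
        ((map_ne_zero (τ : C →+* C)).2 hκ)) (nd_map hb (τ : C →+* C)) ?_
    · rw [hZ, Finset.mem_biUnion]
      refine ⟨(p', r'), hS0' _ _ h1, ?_⟩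
      rw [kdg_oo _ _ hmd μ hμ hm2] at hin
      have e1 : oo (h.map (τ : C →+* C)) = fun i => τ (oo h i) := by
        funext i
        exact kdg_oomap h hh (τ : C →+* C) i
      rw [e1] at hin
      exact hin
    · rw [Matrix.det_mul]
      refine mul_ne_zero ?_ hτh
      rw [Matrix.det_nonsing_inv, Ring.inverse_eq_inv']
      exact inv_ne_zero hmd
    · rw [h2, map_mul, PQ.sb_C, PQ.sb_sb, ← mul_assoc,
        Matrix.mul_nonsing_inv _ (isUnit_iff_ne_zero.2 hmd), one_mul, ← PQ.map_sb, hE, map_mul, map_C,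
        PQ.map_RB, ← mul_assoc, ← C_mul]
  have hcnt : ∀ (ρ : C), (∀ y ∈ Z, ∃ X : Finset C, X.card ≤ 8 ∧ ∀ s : C ≃ₐ[K] C,
      ((fun i t => s (b i t) : Fin 4 → Fin 3 → C), fun i => s (oo h i)) = y → s ρ ∈ X) →
      (minpoly K ρ).natDegree ≤ 7226 * 42 ^ 7 * 8 := by
    intro ρ hρ
    have h1 := ESH.cnt (K := K) ρ
      (fun s : C ≃ₐ[K] C => ((fun i t => s (b i t) : Fin 4 → Fin 3 → C), fun i => s (oo h i)))
      (Z : Set ((Fin 4 → Fin 3 → C) × (Fin 3 → C))) Z.finite_toSet (fun s => hmem s) 8 ?_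
    · refine h1.trans ?_
      rw [Set.ncard_coe_finset]
      exact Nat.mul_le_mul_right _ hZc
    · intro y
      by_cases hy : y ∈ Z
      · obtain ⟨X, hX1, hX2⟩ := hρ y hy
        have hsub : {z : C | ∃ s : C ≃ₐ[K] C,
            ((fun i t => s (b i t) : Fin 4 → Fin 3 → C), fun i => s (oo h i)) = y ∧ s ρ = z} ⊆
            (X : Set C) := by
          rintro z ⟨s, hs1, hs2⟩
          rw [← hs2]
          exact hX2 s hs1
        refine ⟨X.finite_toSet.subset hsub, ?_⟩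
        refine (Set.ncard_le_ncard hsub X.finite_toSet).trans ?_
        rw [Set.ncard_coe_finset]
        exact hX1
      · have hemp : {z : C | ∃ s : C ≃ₐ[K] C,
            ((fun i t => s (b i t) : Fin 4 → Fin 3 → C), fun i => s (oo h i)) = y ∧ s ρ = z} = ∅ := by
          ext z
          simp only [Set.mem_setOf_eq, Set.mem_empty_iff_false, iff_false]
          rintro ⟨s, hs1, -⟩
          exact hy (hs1 ▸ hmem s)
        rw [hemp]
        exact ⟨Set.finite_empty, by simp⟩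
  constructor
  · intro i t
    refine hcnt _ fun y _ => ⟨{y.1 i t}, by simp, fun s hs1 => ?_⟩
    rw [Finset.mem_singleton, ← hs1]
  · intro v hv j i
    refine hcnt _ fun y _ => ?_
    by_cases hex : ∃ s0 : C ≃ₐ[K] C,
        ((fun i t => s0 (b i t) : Fin 4 → Fin 3 → C), fun i => s0 (oo h i)) = y
    swap
    · exact ⟨∅, by simp, fun s hs1 => absurd ⟨s, hs1⟩ hex⟩
    obtain ⟨s0, hs0⟩ := hex
    obtain ⟨X, hX1, hX2⟩ := G4.her_sgn (K := K) (fun l => s0 (v j l)) i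
    refine ⟨X, hX1, fun s hs1 => ?_⟩
    have hsq : ∀ s : C ≃ₐ[K] C,
        ((fun i t => s (b i t) : Fin 4 → Fin 3 → C), fun i => s (oo h i)) = y →
        ∀ l, s (v j l) ^ 2 = tv y.1 y.2 j l := by
      intro s hs2 l
      rw [← map_pow, hv j l, ← hs2]
      exact G4.map_tv (s : C →+* C) b (oo h) j l
    have h3 := hX2 (s0.symm.trans s) ?_
    · have e1 : exu (fun l => s0 (v j l)) i = s0 (exu (v j) i) :=
        (kdg_exu (s0 : C →+* C) (v j) i).symm
      rw [e1, AlgEquiv.trans_apply, AlgEquiv.symm_apply_apply] at h3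
      exact h3
    · intro l
      rw [map_pow, AlgEquiv.trans_apply, AlgEquiv.symm_apply_apply, hsq s hs1 l, hsq s0 hs0 l]


end Pool.Agent.T1
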