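import Pool.Agent.PQ.LNF

/-!
# T1 / NSF: `NS` implies `SF` over an algebraically closed field

`I = span ({F} ∪ range (pderiv · F))`.  Points `p` of `zeroLocus I`: `F p = 0` and all derivatives vanish, so `p = 0` (`NS`).  So `X i` vanishes on the zero locus, `X i ∈ radical I` by the Nullstellensatz
(`MvPolynomial.vanishingIdeal_zeroLocus_eq_radical`), `X i ^ n i ∈ I`, `N = ∑ i, n i` or the maximum (`Ideal.pow_mem_of_pow_mem` or `Ideal.mul_mem_left`).
-/

namespace Pool.Agent.T1

open MvPolynomial Matrix
open Pool.Agent.PQ (P3 NS SF)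

theorem nsf {k : Type*} [Field k] [IsAlgClosed k] (F : P3 k) (h : NS F) : SF F := by
  classical
  have key : ∀ i : Fin 3, ∃ n : ℕ, (X i : P3 k) ^ n ∈
      Ideal.span ({F} ∪ Set.range fun j : Fin 3 => pderiv j F) := by
    intro i
    have h1 : (X i : P3 k) ∈ (Ideal.span ({F} ∪ Set.range fun j : Fin 3 => pderiv j F)).radical := by
      rw [← vanishingIdeal_zeroLocus_eq_radical (K := k), mem_vanishingIdeal_iff]
      intro x hx
      rw [mem_zeroLocus_iff] at hx
      have hF : eval x F = 0 := by
        have := hx F (Ideal.subset_span (Or.inl rfl))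
        rwa [aeval_eq_eval] at this
      have hd : ∀ j, eval x (pderiv j F) = 0 := fun j => by
        have := hx (pderiv j F) (Ideal.subset_span (Or.inr ⟨j, rfl⟩))
        rwa [aeval_eq_eval] at this
      by_cases hx0 : x = 0
      · simp [hx0]
      · obtain ⟨j, hj⟩ := h x hx0 hF
        exact absurd (hd j) hj
    exact h1
  choose n hn using key
  refine ⟨∑ i, n i, fun i => ?_⟩
  exact Ideal.pow_mem_of_pow_mem _ (hn i) (Finset.single_le_sum (f := n) (fun _ _ => Nat.zero_le _) (Finset.mem_univ i))

end Pool.Agent.T1
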