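import Pool.Agent.T1.CPE
import Pool.Agent.PQ.BIN

/-!
# T1 / SIM: the polynomial `pp` has two different roots

`pp f f' A t` is a polynomial in `t` of degree 5 with leading coefficient `-1/2` (expand the `3 × 3` determinant: the entries `(0,1)`, `(1,0)` are `A 0 1 + t²/2`, the entry `(2,2)` is `A 2 2 + 2 t`).  Suppose all its roots
are equal to `t₀` (`pp` splits; `k` algebraically closed): then `pp(t) = -(1/2)(t - t₀)^5`, so `t₀` is a multiple root: `pp(t₀) = 0`, `pp'(t₀) = 0`.
Let `A₀ = pA f f' A t₀` (symmetric), `q := V + t₀ X₀X₁`.  `F = q² - X₀ X₁ qf A₀` (identity: `V² - X₀X₁G = (V + tX₀X₁)² - X₀X₁(t² X₀X₁ + 2tV + G)`).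
Jacobi: `pp'(t₀) = trace (adjugate A₀ * B)`, `B = derivative of pA = 2 diag(-f', -f, 1) + t₀ (E₀₁ + E₁₀)`, the matrix of `2 q`: `p ⬝ᵥ B p = 2 q(p)`.
Case `adjugate A₀ ≠ 0`: `A₀` is symmetric of rank 2, `adjugate A₀ = c • p pᵀ` with `c ≠ 0`, `p ≠ 0`, `A₀ p = 0`, so `0 = pp'(t₀) = 2 c q(p)`: `q(p) = 0`.  All first derivatives of `F` at `p` vanish (`q(p) = 0`, `qf A₀` vanishes to second
order at `p`), and `F(p) = 0`: contradiction to `NS F`.
Case `adjugate A₀ = 0`: `A₀` has rank `≤ 1`: `A₀ = c • m mᵀ`.  There is `p ≠ 0` with `m ⬝ᵥ p = 0`, `q(p) = 0` (`PQ.bin_zero`); again `F` is singular at `p`.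
-/

namespace Pool.Agent.T1

open MvPolynomial Matrix
open Pool.Agent.PQ (P3 NS SF sb RB ND l1 lin Bit)

private theorem SIM_minor {k : Type*} [Field k] {M : Matrix (Fin 3) (Fin 3) k}
    (h : M.adjugate = 0) (i l a b : Fin 3) : M i a * M l b = M i b * M l a := by
  have e : ∀ x y, M.adjugate x y = 0 := fun x y => by rw [h]; rfl
  have h00 := e 0 0
  have h01 := e 0 1
  have h02 := e 0 2
  have h10 := e 1 0
  have h11 := e 1 1
  have h12 := e 1 2
  have h20 := e 2 0
  have h21 := e 2 1
  have h22 := e 2 2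
  rw [Matrix.adjugate_fin_three] at h00 h01 h02 h10 h11 h12 h20 h21 h22
  simp at h00 h01 h02 h10 h11 h12 h20 h21 h22
  fin_cases i <;> fin_cases l <;> fin_cases a <;> fin_cases b <;>
    first
    | (simp; done)
    | (simp; ring1)
    | (simp; linear_combination h00)
    | (simp; linear_combination -h00)
    | (simp; linear_combination h01)
    | (simp; linear_combination -h01)
    | (simp; linear_combination h02)
    | (simp; linear_combination -h02)
    | (simp; linear_combination h10)
    | (simp; linear_combination -h10)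
    | (simp; linear_combination h11)
    | (simp; linear_combination -h11)
    | (simp; linear_combination h12)
    | (simp; linear_combination -h12)
    | (simp; linear_combination h20)
    | (simp; linear_combination -h20)
    | (simp; linear_combination h21)
    | (simp; linear_combination -h21)
    | (simp; linear_combination h22)
    | (simp; linear_combination -h22)

private theorem SIM_dqf {k : Type*} [Field k] (A : Matrix (Fin 3) (Fin 3) k) (p : Fin 3 → k)
    (i : Fin 3) : MvPolynomial.eval p (pderiv i (qf A)) = (A *ᵥ p) i + (p ᵥ* A) i := by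
  fin_cases i <;>
    simp [qf, Fin.sum_univ_three, mulVec, vecMul, dotProduct, pderiv_X, Pi.single_apply] <;> ring

private theorem SIM_qf {k : Type*} [Field k] [CharZero k] (f f' : k)
    (A : Matrix (Fin 3) (Fin 3) k) (t : k) :
    qf (pA f f' A t) = qf A + C (2 * t) * (X 2 ^ 2 - C f * X 1 ^ 2 - C f' * X 0 ^ 2) +
      C (t ^ 2) * (X 0 * X 1) := by
  have h2 : (C (t ^ 2 / 2) : P3 k) * 2 = C (t ^ 2) := by
    rw [show (2 : P3 k) = C 2 from (map_ofNat C 2).symm, ← C_mul]
    congr 1
    field_simp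
  rw [← h2]
  simp only [qf, pA, Fin.sum_univ_three, Matrix.add_apply, Matrix.smul_apply,
    Matrix.diagonal_apply, smul_eq_mul]
  simp
  ring

private theorem SIM_symm {k : Type*} [Field k] (f f' : k) (A : Matrix (Fin 3) (Fin 3) k)
    (h : Aᵀ = A) (t : k) : (pA f f' A t)ᵀ = pA f f' A t := by
  have e : (!![0, 1, 0; 1, 0, 0; 0, 0, 0] : Matrix (Fin 3) (Fin 3) k)ᵀ =
      !![0, 1, 0; 1, 0, 0; 0, 0, 0] := by
    ext i j
    fin_cases i <;> fin_cases j <;> rfl
  rw [pA, Matrix.transpose_add, Matrix.transpose_add, Matrix.transpose_smul,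
    Matrix.transpose_smul, Matrix.diagonal_transpose, h, e]

/-- the singular point -/
private theorem SIM_sing {k : Type*} [Field k] [CharZero k] {F : P3 k} (hNS : NS F) {f f' : k}
    {A : Matrix (Fin 3) (Fin 3) k} (h : CP F f f' A) (t : k) (p : Fin 3 → k) (hp : p ≠ 0)
    (hA : pA f f' A t *ᵥ p = 0) (hA' : p ᵥ* pA f f' A t = 0)
    (hq : p 2 ^ 2 - f * p 1 ^ 2 - f' * p 0 ^ 2 + t * (p 0 * p 1) = 0) : False := by
  obtain ⟨q, hqd⟩ : ∃ q : P3 k, q = X 2 ^ 2 - C f * X 1 ^ 2 - C f' * X 0 ^ 2 + C t * (X 0 * X 1) :=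
    ⟨_, rfl⟩
  have hF : F = q ^ 2 - X 0 * X 1 * qf (pA f f' A t) := by
    rw [SIM_qf, h.eq, hqd]
    simp only [C_mul, C_pow, map_ofNat]
    ring
  have hq0 : MvPolynomial.eval p q = 0 := by
    rw [hqd]
    simp only [map_add, map_sub, map_mul, map_pow, eval_X, eval_C]
    exact hq
  have hG0 : MvPolynomial.eval p (qf (pA f f' A t)) = 0 := by
    rw [eval_qf, hA, dotProduct_zero]
  obtain ⟨i, hi⟩ := hNS p hp (by
    rw [hF]
    simp only [map_sub, map_mul, map_pow, hq0, hG0]
    ring)
  apply hi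
  have hG1 := SIM_dqf (pA f f' A t) p i
  rw [hA, hA'] at hG1
  rw [hF, map_sub, Derivation.leibniz_pow, Derivation.leibniz]
  simp only [map_sub, map_add, map_mul, map_pow, map_nsmul, smul_eq_mul, hq0, hG0, hG1]
  simp

theorem sim {k : Type*} [Field k] [IsAlgClosed k] [CharZero k] (F : P3 k) (hNS : NS F) (f f' : k)
    (A : Matrix (Fin 3) (Fin 3) k) (h : CP F f f' A) :
    ∃ t₁ t₂ : k, t₁ ≠ t₂ ∧ pp f f' A t₁ = 0 ∧ pp f f' A t₂ = 0 := by
  classical
  have hs : ∀ i j, A j i = A i j := fun i j => congrFun (congrFun h.symm i) j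
  obtain ⟨P, hP⟩ : ∃ P : Polynomial k, P =
      (Polynomial.C (A 0 0) - Polynomial.C (2 * f') * Polynomial.X) *
        ((Polynomial.C (A 1 1) - Polynomial.C (2 * f) * Polynomial.X) *
          (Polynomial.C (A 2 2) + Polynomial.C 2 * Polynomial.X) - Polynomial.C (A 1 2 ^ 2)) -
      (Polynomial.C (A 0 1) + Polynomial.C (1 / 2) * Polynomial.X ^ 2) *
        ((Polynomial.C (A 0 1) + Polynomial.C (1 / 2) * Polynomial.X ^ 2) *
          (Polynomial.C (A 2 2) + Polynomial.C 2 * Polynomial.X) -
          Polynomial.C (A 1 2 * A 0 2)) +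
      Polynomial.C (A 0 2) *
        ((Polynomial.C (A 0 1) + Polynomial.C (1 / 2) * Polynomial.X ^ 2) * Polynomial.C (A 1 2) -
          (Polynomial.C (A 1 1) - Polynomial.C (2 * f) * Polynomial.X) * Polynomial.C (A 0 2)) :=
    ⟨_, rfl⟩
  have hdeg : P.natDegree = 5 := by
    rw [hP]
    compute_degree!
  have hev : ∀ t, P.eval t = pp f f' A t := by
    intro t
    rw [hP, pp, Matrix.det_fin_three]
    simp [pA, hs 0 1, hs 0 2, hs 1 2, Matrix.diagonal_apply]
    ring
  have hP0 : P ≠ 0 := by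
    intro h0
    rw [h0] at hdeg
    simp at hdeg
  by_contra hcon
  push Not at hcon
  -- all the roots are equal
  obtain ⟨t₀, ht₀⟩ := IsAlgClosed.exists_root P (by
    intro hd
    rw [Polynomial.degree_eq_natDegree hP0, hdeg] at hd
    norm_num at hd)
  have hpp0 : pp f f' A t₀ = 0 := by
    rw [← hev]
    exact ht₀
  have hcard : P.roots.card = 5 := by
    rw [← hdeg]
    exact (IsAlgClosed.splits P).natDegree_eq_card_roots.symm
  have hall : ∀ t ∈ P.roots, t = t₀ := by
    intro t ht
    by_contra hne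
    have h1 := Polynomial.isRoot_of_mem_roots ht
    exact hcon t t₀ hne (by rw [← hev]; exact h1) hpp0
  have hmult : P.rootMultiplicity t₀ = 5 := by
    rw [← Polynomial.count_roots, Multiset.eq_replicate_of_mem hall, hcard,
      Multiset.count_replicate_self]
  have hder : P.derivative.eval t₀ = 0 := by
    have h1 := (Polynomial.one_lt_rootMultiplicity_iff_isRoot hP0).1
      (show 1 < P.rootMultiplicity t₀ by rw [hmult]; norm_num)
    exact h1.2
  obtain ⟨M, hM⟩ : ∃ M, M = pA f f' A t₀ := ⟨_, rfl⟩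
  have hMs : Mᵀ = M := by
    rw [hM]
    exact SIM_symm f f' A h.symm t₀
  have hMs' : ∀ i j, M j i = M i j := fun i j => congrFun (congrFun hMs i) j
  have hdet : M.det = 0 := by
    rw [hM]
    exact hpp0
  have htr : M.adjugate 2 2 - f * M.adjugate 1 1 - f' * M.adjugate 0 0 +
      t₀ * M.adjugate 0 1 = 0 := by
    have h2 : P.derivative.eval t₀ = 2 * (M.adjugate 2 2 - f * M.adjugate 1 1 -
        f' * M.adjugate 0 0 + t₀ * M.adjugate 0 1) := by
      have hz : ∀ c : k, Polynomial.derivative (Polynomial.C c ^ 2) = 0 := fun c => by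
        rw [← Polynomial.C_pow, Polynomial.derivative_C]
      rw [hP, Matrix.adjugate_fin_three, hM]
      simp [pA, hs 0 1, hs 0 2, hs 1 2, Matrix.diagonal_apply, hz]
      ring
    rw [hder] at h2
    have h3 : (2 : k) ≠ 0 := by norm_num
    exact (mul_eq_zero.1 h2.symm).resolve_left h3
  by_cases hadj : M.adjugate = 0
  · -- rank at most one
    have hq : (X 2 ^ 2 - C f * X 1 ^ 2 - C f' * X 0 ^ 2 + C t₀ * (X 0 * X 1) : P3 k).IsHomogeneous 2 := by
      have e1 : ∀ i : Fin 3, (X i ^ 2 : P3 k).IsHomogeneous 2 := fun i => isHomogeneous_X_pow i 2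
      have e2 : ∀ c : k, ∀ i : Fin 3, (C c * X i ^ 2 : P3 k).IsHomogeneous 2 := fun c i => by
        have := (isHomogeneous_C (Fin 3) c).mul (e1 i)
        rwa [zero_add] at this
      have e3 : (C t₀ * (X 0 * X 1) : P3 k).IsHomogeneous 2 := by
        have := (isHomogeneous_C (Fin 3) t₀).mul
          ((isHomogeneous_X k (0 : Fin 3)).mul (isHomogeneous_X k (1 : Fin 3)))
        rwa [zero_add] at this
      exact (((e1 2).sub (e2 f 1)).sub (e2 f' 0)).add e3
    have hex : ∃ p : Fin 3 → k, p ≠ 0 ∧ M *ᵥ p = 0 ∧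
        MvPolynomial.eval p (X 2 ^ 2 - C f * X 1 ^ 2 - C f' * X 0 ^ 2 + C t₀ * (X 0 * X 1)) = 0 := by
      by_cases hM0 : M = 0
      · obtain ⟨p, h1, -, h3⟩ := PQ.bin_zero (0 : Fin 3 → k) _ 2 (by norm_num) hq
        exact ⟨p, h1, by rw [hM0, Matrix.zero_mulVec], h3⟩
      · obtain ⟨i, a, hia⟩ : ∃ i a, M i a ≠ 0 := by
          by_contra hc
          push Not at hc
          exact hM0 (Matrix.ext hc)
        obtain ⟨p, h1, h2, h3⟩ := PQ.bin_zero (M i) _ 2 (by norm_num) hq
        refine ⟨p, h1, ?_, h3⟩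
        ext l
        have h4 : M i a * (M l ⬝ᵥ p) = M l a * (M i ⬝ᵥ p) := by
          simp only [dotProduct, Finset.mul_sum]
          refine Finset.sum_congr rfl fun b _ => ?_
          have := SIM_minor hadj i l a b
          linear_combination p b * this
        rw [h2, mul_zero] at h4
        exact (mul_eq_zero.1 h4).resolve_left hia
    obtain ⟨p, hp, hMp, hqp⟩ := hex
    have hpM : p ᵥ* M = 0 := by
      rw [← hMs, Matrix.vecMul_transpose, hMp]
    simp only [map_add, map_sub, map_mul, map_pow, eval_X, eval_C] at hqp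
    rw [hM] at hMp hpM
    exact SIM_sing hNS h t₀ p hp hMp hpM hqp
  · obtain ⟨i, j, hij⟩ : ∃ i j, M.adjugate i j ≠ 0 := by
      by_contra hc
      push Not at hc
      exact hadj (Matrix.ext hc)
    have hns : ∀ i j, M.adjugate j i = M.adjugate i j := by
      intro i j
      have h5 : M.adjugateᵀ = M.adjugate := by rw [Matrix.adjugate_transpose, hMs]
      exact congrFun (congrFun h5 i) j
    have hna : M.adjugate.adjugate = 0 := by
      rw [Matrix.adjugate_adjugate M (by simp), hdet]
      simp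
    have hmin := SIM_minor hna
    obtain ⟨p, hpd⟩ : ∃ p : Fin 3 → k, p = fun a => M.adjugate a j := ⟨_, rfl⟩
    have hp : p ≠ 0 := by
      intro h0
      apply hij
      have := congrFun h0 i
      rw [hpd] at this
      exact this
    have hMp : M *ᵥ p = 0 := by
      ext a
      have h6 := congrFun (congrFun (Matrix.mul_adjugate M) a) j
      rw [hdet, zero_smul] at h6
      rw [hpd]
      exact h6
    have hpM : p ᵥ* M = 0 := by
      rw [← hMs, Matrix.vecMul_transpose, hMp]
    have hqp : p 2 ^ 2 - f * p 1 ^ 2 - f' * p 0 ^ 2 + t₀ * (p 0 * p 1) = 0 := by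
      have e2 : M.adjugate 2 j * M.adjugate 2 j = M.adjugate 2 2 * M.adjugate j j := by
        have := hmin 2 j j 2
        rw [hns 2 j] at this
        rw [this]
      have e1 : M.adjugate 1 j * M.adjugate 1 j = M.adjugate 1 1 * M.adjugate j j := by
        have := hmin 1 j j 1
        rw [hns 1 j] at this
        rw [this]
      have e0 : M.adjugate 0 j * M.adjugate 0 j = M.adjugate 0 0 * M.adjugate j j := by
        have := hmin 0 j j 0
        rw [hns 0 j] at this
        rw [this]
      have e01 : M.adjugate 0 j * M.adjugate 1 j = M.adjugate 0 1 * M.adjugate j j := by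
        have := hmin 0 j j 1
        rw [hns 1 j] at this
        rw [this]
      rw [hpd]
      linear_combination e2 - f * e1 - f' * e0 + t₀ * e01 + M.adjugate j j * htr
    rw [hM] at hMp hpM
    exact SIM_sing hNS h t₀ p hp hMp hpM hqp

end Pool.Agent.T1
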