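import Pool.Agent.T1.TWF
import Pool.Agent.T1.SIM
import Pool.Agent.T1.DIA
import Pool.Agent.T1.FRB
import Pool.Agent.T1.BTB
import Pool.Agent.T1.NSF
import Pool.Agent.PQ.EXI

/-!
# T1 / KEA: the shift of a tetrad web is bounded

`M₁` is a web with smooth determinant and bounded Riemann parameters (`GB`), `CP (qt M₁) f₁ f₁' A₁`, and `pp f₁ f₁' A₁ (t - α) = 0` for two bounded numbers `t = t₁, t₂`, `t₁ ≠ t₂`.
Proof.  `smq`: `NS (qt M₁)`; `nsf`, `PQ.exi` (`qt_hom`): `sb h (qt M₁) = C a * RB b`, `det h ≠ 0`, `a ≠ 0`, `ND b`; `GB`: `b i r` are `Bd c`.  `NS (RB b)` (`PQ.ns_sb`, divide by `a`; see PQ/FIN.lean, PQ/DGA.lean).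
Bitangents: `CP.bit0`, `CP.bit1`, `PQ.trf_bit`, `PQ.scl_bit` (`e² = a⁻¹`): `Bit (RB b) (e₀ ᵥ* h) _`, `Bit (RB b) (e₁ ᵥ* h) _`, the lines `e₀ ᵥ* h = h 0`, `e₁ ᵥ* h = h 1`.  `btb`: `h 0 = η₀ • u₀`, `h 1 = η₁ • u₁`, `u₀, u₁` are `Bd (c + 20)`; `u₀`, `u₁` are
bitangents too (`PQ.scl_bit` with `e = 1`), `u₀ × u₁ ≠ 0` (`det h ≠ 0`).  `frb` (level `c + 20`): `g`, `CP (sb g (RB b)) f₂ f₂' A₂`, `det g ≠ 0`, the roots of `pp f₂ f₂' A₂` are `Bd (c + 60)`.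
`dia` with `F = qt M₁`, `R = sb g (RB b)`, the matrix `h * g` (`PQ.sb_sb`), rows `(h * g) 0 = h 0 ᵥ* g = η₀ • e₀`, similarly `1`: `κ ≠ 0`, `pp f₁ f₁' A₁ t = 0 → pp f₂ f₂' A₂ (κ t) = 0`.  So `X = κ (t₁ - α)` and `Y = κ (t₂ - α)` are `Bd (c + 60)`.
`X - Y = κ (t₁ - t₂) ≠ 0`, `α = (t₁ (X - Y) - X (t₁ - t₂)) / (X - Y)`: `PB.quot` with `θ = ![X, Y, t₁, t₂]`: `Bd (c + 70)`.
-/

namespace Pool.Agent.T1

open MvPolynomial Matrix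
open Pool.Agent.PQ (P3 NS SF sb RB ND l1 lin Bit)

private theorem KEA_ns {C : Type*} [Field C] (h : Matrix (Fin 3) (Fin 3) C) (hh : h.det ≠ 0)
    (F R : P3 C) (hF : NS F) (a : C) (hE : sb h F = MvPolynomial.C a * R) : NS R := by
  have h1 : NS (sb h F) := PQ.ns_sb hh hF
  rw [hE] at h1
  intro p hp h0
  obtain ⟨i, hi⟩ := h1 p hp (by rw [map_mul, h0, mul_zero])
  refine ⟨i, fun h2 => hi ?_⟩
  rw [pderiv_C_mul, map_mul, h2, mul_zero]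

private theorem KEA_bit {C : Type*} [Field C] {F : P3 C} {u w : Fin 3 → C} {Q : P3 C} {η : C}
    (hη : η ≠ 0) (hw : w = η • u) (hb : Bit F w Q) : Bit F u Q := by
  have h1 := PQ.scl_bit hb η⁻¹ 1 (inv_ne_zero hη)
  rw [hw, smul_smul, inv_mul_cancel₀ hη, one_smul, one_pow, MvPolynomial.C_1, one_mul, one_mul] at h1
  exact h1

private theorem KEA_alg {C : Type*} [Field C] [CharZero C] [IsAlgClosed C] {c s : ℕ} (hs : 16 ≤ s)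
    (hc : 2 ≤ c) (t₁ t₂ α κ : C) (ht : t₁ ≠ t₂) (hκ : κ ≠ 0) (h1 : Bd c s t₁) (h2 : Bd c s t₂)
    (hX : Bd c s (κ * (t₁ - α))) (hY : Bd c s (κ * (t₂ - α))) : Bd (c + 10) s α := by
  obtain ⟨X, hXe⟩ : ∃ X, X = κ * (t₁ - α) := ⟨_, rfl⟩
  obtain ⟨Y, hYe⟩ : ∃ Y, Y = κ * (t₂ - α) := ⟨_, rfl⟩
  rw [← hXe] at hX
  rw [← hYe] at hY
  have hXY : X - Y = κ * (t₁ - t₂) := by rw [hXe, hYe]; ring
  have hXY0 : X - Y ≠ 0 := by
    rw [hXY]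
    exact mul_ne_zero hκ (sub_ne_zero.2 ht)
  have hα : α = (t₁ * (X - Y) - X * (t₁ - t₂)) / (X - Y) := by
    rw [eq_div_iff hXY0, hXY, hXe]
    ring
  let θ : Fin 4 → C := ![X, Y, t₁, t₂]
  have hθ : ∀ i, Bd c s (θ i) := by
    intro i
    fin_cases i
    · exact hX
    · exact hY
    · exact h1
    · exact h2
  have v0 : PB θ 1 X := PB.var (θ := θ) 0
  have v1 : PB θ 1 Y := PB.var (θ := θ) 1
  have v2 : PB θ 1 t₁ := PB.var (θ := θ) 2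
  have v3 : PB θ 1 t₂ := PB.var (θ := θ) 3
  have hq : PB θ 4 (X - Y) := (v0.sub v1).mono (by norm_num)
  have hp : PB θ 4 (t₁ * (X - Y) - X * (t₁ - t₂)) :=
    ((v2.mul (v0.sub v1)).sub (v0.mul (v2.sub v3))).mono (by norm_num)
  rw [hα]
  exact PB.quot hs hc (by norm_num) (by simp) hθ hp hq hXY0

theorem kea {C : Type*} [Field C] [CharZero C] [IsAlgClosed C] {c s : ℕ} (hs : 16 ≤ s) (hc : 2 ≤ c)
    (M₁ : Web C) (hM : Sy M₁) (hS : Smo (dW M₁)) (hG : GB c s M₁) (f₁ f₁' : C)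
    (A₁ : Matrix (Fin 3) (Fin 3) C) (hC : CP (qt M₁) f₁ f₁' A₁) (t₁ t₂ α : C) (ht : t₁ ≠ t₂)
    (h1 : Bd (c + 60) s t₁) (h2 : Bd (c + 60) s t₂) (hp1 : pp f₁ f₁' A₁ (t₁ - α) = 0)
    (hp2 : pp f₁ f₁' A₁ (t₂ - α) = 0) : Bd (c + 70) s α := by
  have hNSq : NS (qt M₁) := smq two_ne_zero M₁ hM hS
  obtain ⟨h, a, b, hh, ha, hND, hE⟩ := PQ.exi (qt M₁) (qt_hom M₁) (nsf _ hNSq)
  have hb : ∀ i r, Bd c s (b i r) := hG h a b hh ha hND hE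
  have hNS : NS (RB b) := KEA_ns h hh _ _ hNSq a hE
  obtain ⟨e, he⟩ := IsAlgClosed.exists_pow_nat_eq a⁻¹ (n := 2) (by norm_num)
  have hsc : MvPolynomial.C (e ^ 2) * sb h (qt M₁) = RB b := by
    rw [he, hE, ← mul_assoc, ← MvPolynomial.C_mul, inv_mul_cancel₀ ha, MvPolynomial.C_1, one_mul]
  have hrow : ∀ i : Fin 3, (Pi.single i 1 : Fin 3 → C) ᵥ* h = h i := by
    intro i
    exact Matrix.single_one_vecMul i h
  obtain ⟨Q0, B0⟩ : ∃ Q, Bit (RB b) (h 0) Q := by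
    have h3 := PQ.scl_bit (PQ.trf_bit h hC.bit0) 1 e one_ne_zero
    rw [hsc, one_smul, hrow] at h3
    exact ⟨_, h3⟩
  obtain ⟨Q1, B1⟩ : ∃ Q, Bit (RB b) (h 1) Q := by
    have h3 := PQ.scl_bit (PQ.trf_bit h hC.bit1) 1 e one_ne_zero
    rw [hsc, one_smul, hrow] at h3
    exact ⟨_, h3⟩
  have hrow0 : ∀ i : Fin 3, h i ≠ 0 := by
    intro i h3
    exact hh (Matrix.det_eq_zero_of_row_eq_zero i (fun j => congrFun h3 j))
  obtain ⟨η₀, u₀, hη₀, hw₀, hu₀, hB₀⟩ := btb hs hc b hb hNS (h 0) (hrow0 0) Q0 B0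
  obtain ⟨η₁, u₁, hη₁, hw₁, hu₁, hB₁⟩ := btb hs hc b hb hNS (h 1) (hrow0 1) Q1 B1
  have hx : crossProduct u₀ u₁ ≠ 0 := by
    intro h3
    apply hh
    have c0 := congrFun h3 0
    have c1 := congrFun h3 1
    have c2 := congrFun h3 2
    simp only [cross_apply, Matrix.cons_val_zero, Matrix.cons_val_one, Matrix.cons_val,
      Pi.zero_apply] at c0 c1 c2
    have e0 : ∀ j, h 0 j = η₀ * u₀ j := fun j => by rw [hw₀]; rfl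
    have e1 : ∀ j, h 1 j = η₁ * u₁ j := fun j => by rw [hw₁]; rfl
    rw [Matrix.det_fin_three]
    simp only [e0, e1]
    linear_combination (η₀ * η₁ * h 2 0) * c0 + (η₀ * η₁ * h 2 1) * c1 + (η₀ * η₁ * h 2 2) * c2
  obtain ⟨g, f₂, f₂', A₂, hg, hug0, hug1, hCP, _, _, hroot⟩ :=
    frb (c := c + 20) hs (by omega) b (fun i r => (hb i r).mono (by omega)) hNS u₀ u₁ Q0 Q1
      (KEA_bit hη₀ hw₀ B0) (KEA_bit hη₁ hw₁ B1) hx hB₀ hB₁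
  have hE' : sb (h * g) (qt M₁) = MvPolynomial.C a * sb g (RB b) := by
    rw [← PQ.sb_sb, hE, map_mul, PQ.sb_C]
  have hdet : (h * g).det ≠ 0 := by
    rw [Matrix.det_mul]
    exact mul_ne_zero hh hg
  obtain ⟨κ, hκ, hpp⟩ := dia (qt M₁) (sb g (RB b)) f₁ f₁' f₂ f₂' A₁ A₂ hC hCP (h * g) hdet a hE'
    η₀ η₁ (by rw [Matrix.mul_apply_eq_vecMul, hw₀, Matrix.smul_vecMul, hug0])
    (by rw [Matrix.mul_apply_eq_vecMul, hw₁, Matrix.smul_vecMul, hug1])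
  have hX : Bd (c + 60) s (κ * (t₁ - α)) := hroot _ (hpp _ hp1)
  have hY : Bd (c + 60) s (κ * (t₂ - α)) := hroot _ (hpp _ hp2)
  exact KEA_alg hs (by omega) t₁ t₂ α κ ht hκ h1 h2 hX hY

end Pool.Agent.T1
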