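import Pool.Agent.T1.ENA

/-!
# T1 / ZET: the symmetric form on lines attached to a web

`zet`: both sides are multilinear in `p, q, r, t`; expand with `mv_sum`, `bf` bilinear; the left side is alternating in `(p, q)` and in `(r, t)` (symmetry of `en M`): `bf(pr, tq) - bf(pt, rq)`; exchanging `p, q`: `bf(qr, tp) - bf(qt, rp) = bf(rq.. )`, i.e. minus the original.
Concretely: write all `en M a b` (`6` vectors, `en_symm`), `bf (en M a b) (en M c d) =: gr M a b c d` (symmetric under exchange of the pairs), `Fin.sum_univ_three`, `crossProduct`, `ring`; 21 atoms `gr`.  Alternatively prove it first on basis vectors (`fin_cases`, `3⁴` cases) and extend by multilinearity.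
`ze_symm`: `gr` is symmetric in the two pairs and within the pairs.  `gr_three`: `3 gr abcd = (gr abcd + gr acbd + gr adbc) + (gr abcd - gr acbd) + (gr abcd - gr adbc)`, and the two last differences are `zet` for `(p,q,r,t) = (e_a, e_d, e_b, e_c)` and `(e_a, e_c, e_b, e_d)`.
`sym_val`: `S(y) := eval y (qt M) = bf (mv M y y) (mv M y y) / 2 = (1/2) ∑ y_a y_b y_c y_d gr M a b c d`; polarisation: the alternating sum over subsets of `{a, b, c, d}` of the values at the sums of the basis vectors is `24 * ` the symmetric part, i.e.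
`4 (gr abcd + gr acbd + gr adbc) = ∑_{I ⊆ {1..4}} (-1)^{|I|} eval (∑_{i ∈ I} e_i) (qt M)`.  The sum is written with `ε : Fin 4 → Fin 2`.
-/

namespace Pool.Agent.T1

open MvPolynomial Matrix
open Pool.Agent.PQ (P3)

section

variable {R : Type*} [CommRing R]

/-- matrix of the form `Z` -/
def ze (M : Web R) (i j : Fin 3) : R :=
  bf (en M (i + 1) (j + 1)) (en M (j + 2) (i + 2)) - bf (en M (i + 1) (j + 2)) (en M (j + 1) (i + 2))

private theorem ZET_pair (S T : Matrix (Fin 3) (Fin 3) R) (hS : Sᵀ = S) (hT : Tᵀ = T)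
    (p q r t : Fin 3 → R) :
    (p ⬝ᵥ (S *ᵥ r)) * (t ⬝ᵥ (T *ᵥ q)) + (p ⬝ᵥ (T *ᵥ r)) * (t ⬝ᵥ (S *ᵥ q)) -
      ((p ⬝ᵥ (S *ᵥ t)) * (r ⬝ᵥ (T *ᵥ q)) + (p ⬝ᵥ (T *ᵥ t)) * (r ⬝ᵥ (S *ᵥ q))) =
      ∑ i : Fin 3, ∑ j : Fin 3,
        ((S (i + 1) (j + 1) * T (j + 2) (i + 2) + T (i + 1) (j + 1) * S (j + 2) (i + 2)) -
        (S (i + 1) (j + 2) * T (j + 1) (i + 2) + T (i + 1) (j + 2) * S (j + 1) (i + 2))) *
        (crossProduct p q) i * (crossProduct r t) j := by
  have s1 : S 1 0 = S 0 1 := congr_fun (congr_fun hS 0) 1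
  have s2 : S 2 0 = S 0 2 := congr_fun (congr_fun hS 0) 2
  have s3 : S 2 1 = S 1 2 := congr_fun (congr_fun hS 1) 2
  have t1 : T 1 0 = T 0 1 := congr_fun (congr_fun hT 0) 1
  have t2 : T 2 0 = T 0 2 := congr_fun (congr_fun hT 0) 2
  have t3 : T 2 1 = T 1 2 := congr_fun (congr_fun hT 1) 2
  have i1 : (0 + 1 : Fin 3) = 1 := rfl
  have i2 : (0 + 2 : Fin 3) = 2 := rfl
  have i3 : (1 + 1 : Fin 3) = 2 := rfl
  have i4 : (1 + 2 : Fin 3) = 0 := rfl
  have i5 : (2 + 1 : Fin 3) = 0 := rfl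
  have i6 : (2 + 2 : Fin 3) = 1 := rfl
  simp only [cross_apply, dotProduct, Matrix.mulVec, Fin.sum_univ_three, i1, i2, i3, i4, i5, i6,
    s1, s2, s3, t1, t2, t3, Matrix.cons_val_zero, Matrix.cons_val_one, Matrix.cons_val]
  ring

private theorem ZET_q {k : Type*} [Field k] (A : Matrix (Fin 3) (Fin 3) k) (x : Fin 4 → Fin 3)
    (c : Fin 4 → k) :
    eval (fun i => ∑ l, c l * (Pi.single (x l) 1 : Fin 3 → k) i) (qf A) =
      ∑ l, ∑ l', c l * c l' * A (x l) (x l') := by
  have e : (fun i => ∑ l, c l * (Pi.single (x l) 1 : Fin 3 → k) i) =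
      ∑ l, c l • (Pi.single (x l) 1 : Fin 3 → k) := by
    ext i
    simp
  have e2 : ∀ y, eval y (qf A) = y ⬝ᵥ (A *ᵥ y) := by
    intro y
    simp only [qf, dotProduct, Matrix.mulVec, Fin.sum_univ_three, map_add, map_mul, eval_C, eval_X]
    ring
  rw [e, e2, Matrix.mulVec_sum, sum_dotProduct]
  refine Finset.sum_congr rfl fun l _ => ?_
  rw [dotProduct_sum]
  refine Finset.sum_congr rfl fun l' _ => ?_
  rw [Matrix.mulVec_smul, smul_dotProduct, dotProduct_smul, Matrix.mulVec_single_one,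
    single_one_dotProduct]
  simp only [Matrix.col_apply, smul_eq_mul]
  ring

private def ZET_e : (Fin 2 × Fin 2 × Fin 2 × Fin 2) ≃ (Fin 4 → Fin 2) where
  toFun p := ![p.1, p.2.1, p.2.2.1, p.2.2.2]
  invFun e := (e 0, e 1, e 2, e 3)
  left_inv p := by simp
  right_inv e := by
    funext i
    fin_cases i <;> rfl

private theorem ZET_sum {k : Type*} [Field k] (f : (Fin 4 → Fin 2) → k) :
    ∑ e, f e = ∑ a : Fin 2, ∑ b : Fin 2, ∑ c : Fin 2, ∑ d : Fin 2, f ![a, b, c, d] := by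
  rw [← Equiv.sum_comp ZET_e f]
  simp only [Fintype.sum_prod_type]
  rfl

theorem ze_symm {M : Web R} (hM : Sy M) (i j : Fin 3) : ze M i j = ze M j i := by
  unfold ze
  rw [en_symm hM (j + 1) (i + 1), en_symm hM (i + 2) (j + 2), bf_symm (en M (j + 1) (i + 2))]

theorem zet {M : Web R} (hM : Sy M) (p q r t : Fin 3 → R) :
    bf (mv M p r) (mv M t q) - bf (mv M p t) (mv M r q) =
      ∑ i, ∑ j, ze M i j * (crossProduct p q) i * (crossProduct r t) j := by
  have h1 := ZET_pair (M 0 0) (M 1 1) (hM 0 0) (hM 1 1) p q r t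
  have h2 := ZET_pair (M 0 1) (M 1 0) (hM 0 1) (hM 1 0) p q r t
  have h3 := congrArg₂ (fun a b => a - b) h1 h2
  simp only [← Finset.sum_sub_distrib, ← sub_mul] at h3
  refine Eq.trans ?_ (h3.trans ?_)
  · simp only [bf, mv, Matrix.of_apply]
    ring
  · refine Finset.sum_congr rfl fun i _ => Finset.sum_congr rfl fun j _ => ?_
    simp only [ze, bf, en_apply]
    ring

theorem gr_three {M : Web R} (hM : Sy M) (a b c d : Fin 3) :
    3 * bf (en M a b) (en M c d) =
      (bf (en M a b) (en M c d) + bf (en M a c) (en M b d) + bf (en M a d) (en M b c)) +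
      (∑ i, ∑ j, ze M i j * (crossProduct (Pi.single a 1 : Fin 3 → R) (Pi.single d 1)) i *
        (crossProduct (Pi.single b 1 : Fin 3 → R) (Pi.single c 1)) j) +
      (∑ i, ∑ j, ze M i j * (crossProduct (Pi.single a 1 : Fin 3 → R) (Pi.single c 1)) i *
        (crossProduct (Pi.single b 1 : Fin 3 → R) (Pi.single d 1)) j) := by
  have h1 := zet hM (Pi.single a 1) (Pi.single d 1) (Pi.single b 1) (Pi.single c 1)
  have h2 := zet hM (Pi.single a 1) (Pi.single c 1) (Pi.single b 1) (Pi.single d 1)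
  simp only [mv_single] at h1 h2
  rw [← h1, ← h2, en_symm hM d c]
  ring

theorem sym_val {k : Type*} [Field k] [CharZero k] {M : Web k} (hM : Sy M) (a b c d : Fin 3) :
    4 * (bf (en M a b) (en M c d) + bf (en M a c) (en M b d) + bf (en M a d) (en M b c)) =
      ∑ ε : Fin 4 → Fin 2, (-1 : k) ^ (∑ l, (ε l : ℕ)) *
        eval (fun i => ∑ l, ((ε l : ℕ) : k) * (Pi.single (![a, b, c, d] l) 1 : Fin 3 → k) i) (qt M) := by
  have hc : ∀ (i j : Fin 2) (x y : Fin 3), M i j x y = M i j y x := by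
    intro i j x y
    exact congr_fun (congr_fun (hM i j) y) x
  have hq : ∀ e : Fin 4 → k,
      eval (fun i => ∑ l, e l * (Pi.single (![a, b, c, d] l) 1 : Fin 3 → k) i) (qt M) =
      (∑ l, ∑ l', e l * e l' * M 0 0 (![a, b, c, d] l) (![a, b, c, d] l')) *
        (∑ l, ∑ l', e l * e l' * M 1 1 (![a, b, c, d] l) (![a, b, c, d] l')) -
      (∑ l, ∑ l', e l * e l' * M 0 1 (![a, b, c, d] l) (![a, b, c, d] l')) *
        (∑ l, ∑ l', e l * e l' * M 1 0 (![a, b, c, d] l) (![a, b, c, d] l')) := by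
    intro e
    unfold qt
    rw [map_sub, map_mul, map_mul, ZET_q, ZET_q, ZET_q, ZET_q]
  rw [ZET_sum]
  have hq' : ∀ ε : Fin 4 → Fin 2, eval (fun i => ∑ l, ((ε l : ℕ) : k) *
      (Pi.single (![a, b, c, d] l) 1 : Fin 3 → k) i) (qt M) = _ := fun ε => hq fun l => ((ε l : ℕ) : k)
  simp only [hq']
  simp only [Fin.sum_univ_two, Fin.sum_univ_four, Matrix.cons_val_zero, Matrix.cons_val_one,
    Matrix.cons_val, Fin.val_zero, Fin.val_one, Nat.cast_zero, Nat.cast_one, bf, en_apply]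
  have c1 : ∀ i j : Fin 2, M i j b a = M i j a b := fun i j => hc i j b a
  have c2 : ∀ i j : Fin 2, M i j c a = M i j a c := fun i j => hc i j c a
  have c3 : ∀ i j : Fin 2, M i j d a = M i j a d := fun i j => hc i j d a
  have c4 : ∀ i j : Fin 2, M i j c b = M i j b c := fun i j => hc i j c b
  have c5 : ∀ i j : Fin 2, M i j d b = M i j b d := fun i j => hc i j d b
  have c6 : ∀ i j : Fin 2, M i j d c = M i j c d := fun i j => hc i j d c
  simp only [c1, c2, c3, c4, c5, c6]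
  ring

end

end Pool.Agent.T1
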