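import Pool.Agent.T1.KEA
import Pool.Agent.T1.ZET

/-!
# T1 / KEB: `Z (u1, u2)` is bounded for two bounded bitangents

`qt M = RB b`, `NS (RB b)` by `smq` (`dW M = C u * D` is smooth: `smo_C`).  `frb` (level `c`): `g`, `f`, `f'`, `A`.  `M' := gw g M`: `qt M' = sb g (RB b)` (`qt_gw`), `dW M' = C (det g ^ 2) * dW M` (`dW_gw`), `Sy M'`.  `twf` for `M'`: `M₁`, `M₂` with `dW M₁ = dW M₂ = dW M'`, smooth and
`GB c s` by `UNH`.  `sim`: two different roots `t₁, t₂` of `pp f f' A`, `Bd (c + 40)`.  `kea`: `α₁`, `α₂` are `Bd (c + 70)`.  `X := bf (en M' 0 2) (en M' 1 2) = α₁ + α₂`, `Y := bf (en M' 0 1) (en M' 2 2) = - A 2 2 / 2 - 2 X` (first part of `twf`).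
Columns `γ j = fun i => g i j`: `en M' a b = mv M (γ a) (γ b)` (`en_gw`).  `zet` with `(p, q, r, t) = (γ 1, γ 2, γ 2, γ 0)`: `X - Y = ∑ ze M i j * (γ 1 × γ 2) i * (γ 2 × γ 0) j`, and `γ 1 × γ 2 = det g • u1`, `γ 2 × γ 0 = det g • u2` (`u1 ⬝ γ j = δ_{0j}`, `u2 ⬝ γ j = δ_{1j}`;
both sides have the same scalar products with the basis `γ 0, γ 1, γ 2`; `mv M (γ 1) (γ 2) = mv M (γ 2) (γ 1)` etc. by symmetry).
So the sum in the statement is `(X - Y) / det g ^ 2 = (3 X + A 2 2 / 2) * (det g)⁻¹ ^ 2`: `2 *` it is a `PB` in `θ = ![α₁, α₂, A 2 2, (det g)⁻¹]` at level `c + 70`.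
-/

namespace Pool.Agent.T1

open MvPolynomial Matrix
open Pool.Agent.PQ (P3 NS SF sb RB ND l1 lin Bit)

private theorem keb_inj {k : Type*} [Field k] {g : Matrix (Fin 3) (Fin 3) k} (hg : g.det ≠ 0)
    {v w : Fin 3 → k} (h : v ᵥ* g = w ᵥ* g) : v = w := by
  have h1 : (v - w) ᵥ* g = 0 := by rw [sub_vecMul, h, sub_self]
  exact sub_eq_zero.1 (Matrix.eq_zero_of_vecMul_eq_zero hg h1)

private theorem keb_c0 {k : Type*} [Field k] {g : Matrix (Fin 3) (Fin 3) k} (hg : g.det ≠ 0)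
    {u : Fin 3 → k} (h : u ᵥ* g = Pi.single 0 1) :
    crossProduct (fun i => g i 1) (fun i => g i 2) = g.det • u := by
  refine keb_inj hg ?_
  rw [smul_vecMul, h]
  funext j
  fin_cases j
  · simp [vecMul, dotProduct, cross_apply, det_fin_three, Fin.sum_univ_three]
    ring
  · simp [vecMul, dotProduct, cross_apply, det_fin_three, Fin.sum_univ_three]
    ring
  · simp [vecMul, dotProduct, cross_apply, det_fin_three, Fin.sum_univ_three]
    ring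

private theorem keb_c1 {k : Type*} [Field k] {g : Matrix (Fin 3) (Fin 3) k} (hg : g.det ≠ 0)
    {u : Fin 3 → k} (h : u ᵥ* g = Pi.single 1 1) :
    crossProduct (fun i => g i 2) (fun i => g i 0) = g.det • u := by
  refine keb_inj hg ?_
  rw [smul_vecMul, h]
  funext j
  fin_cases j
  · simp [vecMul, dotProduct, cross_apply, det_fin_three, Fin.sum_univ_three]
    ring
  · simp [vecMul, dotProduct, cross_apply, det_fin_three, Fin.sum_univ_three]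
    ring
  · simp [vecMul, dotProduct, cross_apply, det_fin_three, Fin.sum_univ_three]
    ring

theorem keb {C : Type*} [Field C] [CharZero C] [IsAlgClosed C] {c s : ℕ} (hs : 16 ≤ s) (hc : 2 ≤ c)
    (D : P4 C) (hS : Smo D) (hU : UNH c s D) (M : Web C) (hM : Sy M) (u : C) (hu : u ≠ 0)
    (hd : dW M = MvPolynomial.C u * D) (b : Fin 4 → Fin 3 → C) (hb : ∀ i r, Bd c s (b i r)) (hq : qt M = RB b)
    (u1 u2 : Fin 3 → C) (Q1 Q2 : P3 C) (hb1 : Bit (RB b) u1 Q1) (hb2 : Bit (RB b) u2 Q2)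
    (hx : crossProduct u1 u2 ≠ 0) (hu1 : ∀ i, Bd c s (u1 i)) (hu2 : ∀ i, Bd c s (u2 i)) :
    Bd (c + 80) s (∑ i, ∑ j, ze M i j * u1 i * u2 j) := by
  have hSM : Smo (dW M) := by
    rw [hd]
    exact smo_C hu hS
  have hNS : NS (RB b) := by
    rw [← hq]
    exact smq two_ne_zero M hM hSM
  obtain ⟨g, f, f', A, hg, hg1, hg2, hCP, hBg, hBA, hBr⟩ := frb hs hc b hb hNS u1 u2 Q1 Q2 hb1 hb2 hx hu1 hu2
  -- the transformed web
  obtain ⟨M', hM'⟩ : ∃ M' : Web C, M' = gw g M := ⟨_, rfl⟩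
  have hsy : Sy M' := by
    intro i j
    rw [hM']
    simp only [gw, transpose_mul, transpose_transpose, hM i j, Matrix.mul_assoc]
  have hdW : dW M' = MvPolynomial.C (g.det ^ 2 * u) * D := by
    rw [hM', dW_gw, hd, map_mul]
    ring
  have hu' : g.det ^ 2 * u ≠ 0 := mul_ne_zero (pow_ne_zero _ hg) hu
  have hS' : Smo (dW M') := by
    rw [hdW]
    exact smo_C hu' hS
  have hqt : qt M' = sb g (RB b) := by rw [hM', qt_gw, hq]
  have hNS' : NS (qt M') := smq two_ne_zero M' hsy hS'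
  have hCP' : CP (qt M') f f' A := by rw [hqt]; exact hCP
  obtain ⟨hA, M₁, M₂, f₁, f₁', f₂, f₂', A₁, A₂, α₁, α₂, hM₁, hM₂, hd₁, hd₂, hC₁, hC₂, hp₁, hp₂, hX⟩ :=
    twf M' hsy f f' A hCP'
  have hG₁ : GB c s M₁ := hU M₁ hM₁ ⟨_, hu', by rw [hd₁, hdW]⟩
  have hG₂ : GB c s M₂ := hU M₂ hM₂ ⟨_, hu', by rw [hd₂, hdW]⟩
  obtain ⟨t₁, t₂, ht, hr₁, hr₂⟩ := sim (qt M') hNS' f f' A hCP'
  have hB₁ : Bd (c + 60) s t₁ := (hBr t₁ hr₁).mono (by omega)
  have hB₂ : Bd (c + 60) s t₂ := (hBr t₂ hr₂).mono (by omega)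
  have hα₁ : Bd (c + 70) s α₁ := kea hs hc M₁ hM₁ (by rw [hd₁]; exact hS') hG₁ f₁ f₁' A₁ hC₁ t₁ t₂ α₁ ht hB₁ hB₂
    (hp₁ t₁ hr₁) (hp₁ t₂ hr₂)
  have hα₂ : Bd (c + 70) s α₂ := kea hs hc M₂ hM₂ (by rw [hd₂]; exact hS') hG₂ f₂ f₂' A₂ hC₂ t₁ t₂ α₂ ht hB₁ hB₂
    (hp₂ t₁ hr₁) (hp₂ t₂ hr₂)
  -- the form `Z`
  have hz := zet hM (fun i => g i 1) (fun i => g i 2) (fun i => g i 2) (fun i => g i 0)
  rw [keb_c0 hg hg1, keb_c1 hg hg2] at hz
  have e12 : mv M (fun i => g i 1) (fun i => g i 2) = en M' 1 2 := by rw [hM', en_gw]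
  have e02 : mv M (fun i => g i 0) (fun i => g i 2) = en M' 0 2 := by rw [hM', en_gw]
  have e10 : mv M (fun i => g i 1) (fun i => g i 0) = en M' 0 1 := by rw [hM', en_gw, mv_symm hM]
  have e22 : mv M (fun i => g i 2) (fun i => g i 2) = en M' 2 2 := by rw [hM', en_gw]
  rw [e12, e02, e10, e22, bf_symm (en M' 1 2)] at hz
  have hsum : (∑ i, ∑ j, ze M i j * (g.det • u1) i * (g.det • u2) j) =
      g.det ^ 2 * ∑ i, ∑ j, ze M i j * u1 i * u2 j := by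
    rw [Finset.mul_sum]
    refine Finset.sum_congr rfl fun i _ => ?_
    rw [Finset.mul_sum]
    refine Finset.sum_congr rfl fun j _ => ?_
    simp only [Pi.smul_apply, smul_eq_mul]
    ring
  rw [hsum] at hz
  obtain ⟨Z, hZ⟩ : ∃ Z, Z = ∑ i, ∑ j, ze M i j * u1 i * u2 j := ⟨_, rfl⟩
  rw [← hZ] at hz ⊢
  have hval : Z = ((6 : ℤ) * (α₁ + α₂) + A 2 2) * ((g.det)⁻¹) ^ 2 / ((2 : ℤ) : C) := by
    have h3 : g.det ^ 2 * Z * 2 = 6 * (α₁ + α₂) + A 2 2 := by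
      linear_combination (-2) * hz + 6 * hX - hA
    have h4 : Z = (g.det ^ 2 * Z * 2) * ((g.det)⁻¹) ^ 2 / 2 := by
      field_simp
    rw [h4, h3]
    push_cast
    ring
  obtain ⟨θ, hθ⟩ : ∃ θ : Fin 4 → C, θ = ![α₁, α₂, A 2 2, (g.det)⁻¹] := ⟨_, rfl⟩
  have hθb : ∀ i, Bd (c + 70) s (θ i) := by
    intro i
    rw [hθ]
    fin_cases i
    · exact hα₁
    · exact hα₂
    · exact (hBA 2 2).mono (by omega)
    · exact hBg.mono (by omega)
  have p0 : PB θ 1 α₁ := by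
    have h1 := PB.var (θ := θ) 0
    rw [hθ] at h1 ⊢
    exact h1
  have p1 : PB θ 1 α₂ := by
    have h1 := PB.var (θ := θ) 1
    rw [hθ] at h1 ⊢
    exact h1
  have p2 : PB θ 1 (A 2 2) := by
    have h1 := PB.var (θ := θ) 2
    rw [hθ] at h1 ⊢
    exact h1
  have p3 : PB θ 1 ((g.det)⁻¹) := by
    have h1 := PB.var (θ := θ) 3
    rw [hθ] at h1 ⊢
    exact h1
  have p6 : PB θ 3 ((6 : ℤ) : C) := PB.int 6 (by norm_num)
  have p7 : PB θ 8 (((6 : ℤ) * (α₁ + α₂) + A 2 2) * ((g.det)⁻¹) ^ 2) := by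
    have h1 := (p6.mul (p0.add p1)).add p2
    exact (h1.mul (p3.pow 2)).mono (by simp)
  have p8 : PB θ 8 ((2 : ℤ) : C) := PB.int 2 (by norm_num)
  have h9 := PB.quot (N := 8) hs (by omega : 2 ≤ c + 70) (by norm_num) (by simp) hθb p7 p8 (by norm_num)
  rw [← hval] at h9
  exact h9

end Pool.Agent.T1
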