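import Pool.Agent.T1.KHT
import Pool.Agent.G4.FIN

/-!
# T1 / KFI: Belyi functions on the cone

This is `G4/FIN.lean` with the curve `A` over `C` and `kht` instead of `hty` (copy and adapt; `szK K T + 3 + 7226 * 42 ^ 7 * 8 ≤ tw 2 (szK K T)`, the same estimate as `fin_add`).
-/

namespace Pool.Agent.T1

open MvPolynomial Matrix NumberField IsDedekindDomain
open Pool.Agent.PQ (P3 lin sb SF NS Bit RB yy ka ND)
open Pool.Agent.G4 (P2 tri TH Tr Sec qy tv oo exu)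

section

open ESH G4

private theorem kfi_one {s : ℕ} (hs : 16 ≤ s) : 65536 ≤ tw 1 s := by
  have h3 : tw 1 16 ≤ tw 1 s := tw_mono le_rfl hs
  refine le_trans ?_ h3
  rw [show (1 : ℕ) = 0 + 1 from rfl, tw_succ, tw_zero]
  norm_num

private theorem kfi_big {s c : ℕ} (hs : 16 ≤ s) (hc : 2 ≤ c) : 2 ^ 400 ≤ tw c s := by
  have h1 : tw 2 s ≤ tw c s := tw_mono hc le_rfl
  refine le_trans ?_ h1
  rw [show (2 : ℕ) = 1 + 1 from rfl, tw_succ]
  have h2 := kfi_one hs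
  generalize tw 1 s = m at h2
  exact Nat.pow_le_pow_right (by decide) (by omega)

private theorem kfi_add (s m : ℕ) (h1 : s ≤ m) (h2 : 65536 ≤ m) : s + 3 + 7226 * 42 ^ 7 * 8 ≤ 2 ^ m := by
  have h3 : m < 2 ^ (m / 2) * 2 := by
    have h4 : m / 2 < 2 ^ (m / 2) := Nat.lt_two_pow_self
    omega
  have h5 : 3 + 7226 * 42 ^ 7 * 8 ≤ 2 ^ 60 := by norm_num
  have h6 : 2 ^ 60 ≤ 2 ^ (m - 1) := Nat.pow_le_pow_right (by norm_num) (by omega)
  have h7 : 2 ^ (m / 2) * 2 ≤ 2 ^ (m - 1) := by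
    rw [← pow_succ]
    exact Nat.pow_le_pow_right (by norm_num) (by omega)
  have h8 : 2 ^ m = 2 ^ (m - 1) + 2 ^ (m - 1) := by
    rw [← two_mul, ← pow_succ']
    congr 1
    omega
  omega

private theorem kfi_s {s : ℕ} (hs : 16 ≤ s) : s + 3 + 7226 * 42 ^ 7 * 8 ≤ tw 2 s := by
  have h1 := le_tw 1 s
  have h2 := kfi_one hs
  rw [show tw 2 s = 2 ^ tw 1 s from tw_succ 1 s]
  generalize tw 1 s = m at h1 h2 ⊢
  exact kfi_add s m h1 h2

private theorem kfi_small {n X : ℕ} (h : 2 ^ 400 ≤ X) (hn : n ≤ 1000) : n ≤ X := by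
  refine hn.trans (le_trans ?_ h)
  exact le_trans (by norm_num : 1000 ≤ 2 ^ 10) (Nat.pow_le_pow_right (by norm_num) (by norm_num))

private theorem kfi_tw (a b s D : ℕ) (h : D ≤ tw b s) : tw a D ≤ tw (a + b) s := by
  rw [← tw_comp]
  exact tw_mono le_rfl h

private theorem kfi_main {K C Φ : Type*} [Field K] [NumberField K] [Field C] [Algebra K C] [Algebra.IsAlgebraic K C]
    [IsAlgClosed C] [Field Φ] [Algebra C Φ] [Helper11.FunField C Φ]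
    (T : Finset (HeightOneSpectrum (𝓞 K))) (A : Fin 3 → P2 C) (hA : TH A)
    (hNS : NS (tri A)) (hG : GalC K A) (hL : ∀ V : ValuationSubring C, ESH.GoodV T 3 V → LocC K V A)
    (x z : Φ) (h0 : eval₂ (algebraMap C Φ) ![x, 1, z] (tri A) = 0)
    (hgen : IntermediateField.adjoin C {x, z} = ⊤) :
    ∃ β : Φ, ESH.IsBelyi C β ∧
      Module.finrank (IntermediateField.adjoin C {β}) Φ ≤ ESH.tw 140 (ESH.szK K T) := by
  have hcz : CharZero C := charZero_of_injective_algebraMap (algebraMap K C).injective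
  have h2 : (2 : C) ≠ 0 := two_ne_zero
  have hTH : TH A := hA
  obtain ⟨p, r, hs⟩ := exs _ hTH hNS
  have hGq := nsy h2 _ hTH hNS p r hs
  have hGh := qy_hom hTH hs.hp hs.hr
  obtain ⟨h, κ, b, hh, hκ, hb, hE⟩ := PQ.exi _ hGh (nsf _ hGq)
  obtain ⟨hw, ho, htv, hRB⟩ := nzc h2 _ hTH hNS p r hs h hh κ hκ b hb hE
  have hsq : ∀ j i, ∃ v : C, v ^ 2 = tv b (oo h) j i := fun j i =>
    IsAlgClosed.exists_pow_nat_eq _ (by norm_num)
  choose v hv using hsq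
  set s : ℕ := szK K T with hsdef
  have hs16 : 16 ≤ s := by
    rw [hsdef, szK]
    omega
  have hs' : s + 3 + 7226 * 42 ^ 7 * 8 ≤ tw 2 s := kfi_s hs16
  have hP : ∀ y : C, ((∃ i r, i ≠ 0 ∧ r ≠ 0 ∧ y = b i r) ∨ ∃ j i, y = exu (v j) i) →
      ∃ P : Polynomial ℤ, P ≠ 0 ∧ P.natDegree ≤ tw 92 s ∧
        Polynomial.aeval y P = 0 ∧ ∀ j, |P.coeff j| ≤ (tw 92 s : ℤ) := by
    intro y hy
    obtain ⟨P, h1, h2, h3, h4⟩ := kht T A hA hNS hG hL p r hs h hh κ hκ b hb hE v hv y hy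
    refine ⟨P, h1, ?_, h3, fun j => ?_⟩
    · exact h2.trans ((kfi_tw 5 2 s _ hs').trans (tw_mono (by norm_num) le_rfl))
    · exact (h4 j).trans (Int.ofNat_le.2 (kfi_tw 90 2 s _ hs'))
  -- the marked point
  have ho1 : oo h 0 = 1 := by
    rw [oo, div_self hw]
  have hvne : ∀ j i, v j i ≠ 0 := by
    intro j i h3
    apply htv j i
    rw [← hv, h3]
    ring
  have hHq : ∀ j, Hq (v j 0 ^ 2) (v j 1 ^ 2) (v j 2 ^ 2) ≠ 0 := by
    intro j
    rw [hv, hv, hv, hq_tv b hb.zero]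
    exact hRB
  have hne := fun j i => her_ne h2 (v j) (hvne j) (hHq j) i
  have hoN : ∀ j : Fin 3, j ≠ 0 → ∃ N : Polynomial ℤ, N ≠ 0 ∧ N.natDegree ≤ tw 102 s ∧
      (∀ i, |N.coeff i| ≤ (tw 102 s : ℤ)) ∧ Polynomial.aeval (oo h j) N = 0 := by
    intro j hj
    have h3 := tvr h2 b (oo h) ho1 v hv hvne (fun j => (hne j 0).1) j hj
    have h4 : ∀ t : Fin 4, ∃ P : Polynomial ℤ, P ≠ 0 ∧ P.natDegree ≤ tw 92 s ∧
        Polynomial.aeval ((![exu (v 0) 0, exu (v j) 0, exu (v 0) j, exu (v j) 1] : Fin 4 → C) t) P = 0 ∧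
        ∀ i, |P.coeff i| ≤ (tw 92 s : ℤ) := by
      intro t
      fin_cases t
      · exact hP _ (Or.inr ⟨0, 0, rfl⟩)
      · exact hP _ (Or.inr ⟨j, 0, rfl⟩)
      · exact hP _ (Or.inr ⟨0, j, rfl⟩)
      · exact hP _ (Or.inr ⟨j, 1, rfl⟩)
    choose P hP1 hP2 hP3 hP4 using h4
    exact nfo s 92 hs16 (by norm_num) _ P hP1 hP2 hP4 hP3 (hne 0 0).2.2 (hne j 0).2.2 (oo h j) h3
  have hPV : ∀ t : Vx, ∃ P : Polynomial ℤ, P ≠ 0 ∧ P.natDegree ≤ tw 102 s ∧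
      Polynomial.aeval ((Sum.elim (fun x : Fin 3 × Fin 2 => b x.1.succ x.2.succ)
        fun j : Fin 2 => oo h j.succ) t) P = 0 ∧ ∀ j, |P.coeff j| ≤ (tw 102 s : ℤ) := by
    have hle : tw 92 s ≤ tw 102 s := tw_mono (by norm_num) le_rfl
    rintro (t | t)
    · obtain ⟨P, h3, h4, h5, h6⟩ := hP (b t.1.succ t.2.succ)
        (Or.inl ⟨_, _, Fin.succ_ne_zero _, Fin.succ_ne_zero _, rfl⟩)
      exact ⟨P, h3, h4.trans hle, h5, fun j => (h6 j).trans (Int.ofNat_le.2 hle)⟩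
    · obtain ⟨N, h3, h4, h5, h6⟩ := hoN t.succ (Fin.succ_ne_zero _)
      exact ⟨N, h3, h4, h6, h5⟩
  choose P hP1 hP2 hP3 hP4 using hPV
  -- the discriminant
  have hNSR : NS (RB b) := by
    have h1 := PQ.ns_sb hh hGq
    rw [hE] at h1
    intro q hq hq0
    obtain ⟨i, hi⟩ := h1 q hq (by rw [map_mul, hq0, mul_zero])
    refine ⟨i, fun h2 => hi ?_⟩
    rw [pderiv_C_mul, map_mul, h2, mul_zero]
  have hdet : (hpo (oo h)).det ≠ 0 := by
    rw [det_hpo, ho1]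
    exact neg_ne_zero.2 one_ne_zero
  have hRh : (sb (hpo (oo h)) (RB b)).IsHomogeneous 4 := PQ.sb_hom _ (PQ.RQ_hom _)
  have he : eval (Pi.single 1 1) (sb (hpo (oo h)) (RB b)) ≠ 0 := by
    rw [PQ.eval_sb]
    have h3 : Matrix.mulVec (hpo (oo h)) (Pi.single 1 1) = oo h := by
      ext i
      rw [Matrix.mulVec_single_one]
      fin_cases i <;> rfl
    rw [h3]
    exact hRB
  have h2400 := kfi_big (c := 102) hs16 (by norm_num)
  obtain ⟨N, hN0, hNd, hNc, hNr⟩ := PQ.elm (Sum.elim (fun x : Fin 3 × Fin 2 => b x.1.succ x.2.succ)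
      fun j : Fin 2 => oo h j.succ) P s 102
    (tw 102 s) (tw 102 s) 100 1000 (2 ^ 400) hs16 le_rfl le_rfl
    (kfi_small h2400 (by norm_num)) (kfi_small h2400 (by norm_num)) h2400
    (kfi_small h2400 (by simp)) hP1 hP2 hP4 hP3 uds uds_natDegree uds_totalDegree uds_l1
    (by
      rw [uds_map b hb (oo h) ho1]
      exact PQ.rsb _ hRh (PQ.ns_sb hdet hNSR) he)
  rw [uds_map b hb (oo h) ho1] at hNr
  -- the curve
  obtain ⟨m, hm, hdbl⟩ := mhp h hh hw _ (RB b) κ hκ hE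
  have h0' : eval₂ (algebraMap C Φ) ![x, 1, z] (tri A) = 0 := h0
  obtain ⟨x', z', hx0, hxg⟩ := mob _ hTH x z h0' hgen m hm
  have hxt := mob_tr _ x' z' hx0 hxg
  have hxf := mob_deg _ x' z' hx0 hxg
  obtain ⟨β, hβ, hβd⟩ := blp x' hxt N hN0 (tw 112 s) (tw 112 s) hNd hNc (fun c' hc' => by
    obtain ⟨z0, hz1, hz2⟩ := brx _ x' z' hx0 hxg c' hc'
    obtain ⟨u0, hu1, hu2⟩ := dbr _ _ _ (hs.bsb m) c' z0 hz1 hz2
    rw [← sb_qy] at hu1 hu2
    obtain ⟨y0, hy1, hy2⟩ := hdbl c' u0 hu1 hu2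
    exact hNr c' (PQ.rsa _ hRh c' y0 hy1 hy2))
  refine ⟨β, hβ, hβd.trans ?_⟩
  have h4 : tw 112 s + tw 112 s + 16 ≤ tw 114 s := by
    have h5 := tw_add hs16 (le_refl (tw 112 s)) (le_refl (tw 112 s))
    have h6 : 16 ≤ tw 113 s := hs16.trans (le_tw 113 s)
    exact tw_add hs16 h5 h6
  have h7 : tw 20 (tw 112 s + tw 112 s + 16) ≤ tw 134 s := kfi_tw 20 114 s _ h4
  have h8 : (3 : ℕ) ≤ tw 134 s := le_trans (by omega) (le_tw 134 s)
  have h9 := tw_mul hs16 (hxf.trans h8) h7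
  exact h9.trans (tw_mono (by norm_num) le_rfl)


end

theorem kfi {K C Φ : Type*} [Field K] [NumberField K] [Field C] [Algebra K C] [Algebra.IsAlgebraic K C]
    [IsAlgClosed C] [Field Φ] [Algebra C Φ] [Helper11.FunField C Φ]
    (T : Finset (HeightOneSpectrum (𝓞 K))) (A : Fin 3 → P2 C) (hA : TH A)
    (hNS : NS (tri A)) (hG : GalC K A) (hL : ∀ V : ValuationSubring C, ESH.GoodV T 3 V → LocC K V A)
    (x z : Φ) (h0 : eval₂ (algebraMap C Φ) ![x, 1, z] (tri A) = 0)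
    (hgen : IntermediateField.adjoin C {x, z} = ⊤) :
    ∃ β : Φ, ESH.IsBelyi C β ∧
      Module.finrank (IntermediateField.adjoin C {β}) Φ ≤ ESH.tw 140 (ESH.szK K T) :=
  kfi_main T A hA hNS hG hL x z h0 hgen

end Pool.Agent.T1
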