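import Pool.Agent.G4.FXH

/-!
# T1 / KFX: the seven lines determine the Riemann parameters and the point

Same proof as `G4/FXH.lean` (which is the case `h' = σ h`, `b' = σ b`): `h'⁻¹ r j = z r * h⁻¹ r j`; `∑ r, b' i r * z r * h⁻¹ r j = z' i * ∑ r, b i r * h⁻¹ r j`, so `b' i r * z r = z' i * b i r`; `b 0 r = b' 0 r = 1`: `z r = z' 0`; `b i 0 = b' i 0 = 1`: `z' i = z' 0`.
-/

namespace Pool.Agent.T1

open MvPolynomial Matrix
open Pool.Agent.PQ (ND)
open Pool.Agent.G4 (oo)

theorem kfx {C : Type*} [Field C] (h h' : Matrix (Fin 3) (Fin 3) C) (hh : h.det ≠ 0)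
    (b b' : Fin 4 → Fin 3 → C) (hb : ND b) (hb' : ND b')
    (h1 : ∀ r : Fin 3, ∃ ζ : C, ζ ≠ 0 ∧
      (Pi.single r 1 : Fin 3 → C) ᵥ* h'⁻¹ = ζ • ((Pi.single r 1 : Fin 3 → C) ᵥ* h⁻¹))
    (h2 : ∀ i : Fin 4, ∃ ζ : C, ζ ≠ 0 ∧ b' i ᵥ* h'⁻¹ = ζ • (b i ᵥ* h⁻¹)) :
    b' = b ∧ oo h' = oo h := by
  choose z hz0 hz using h1
  choose z' hz'0 hz' using h2
  have hzr : ∀ r j, h'⁻¹ r j = z r * h⁻¹ r j := by
    intro r j
    have e := congrFun (hz r) j
    simp only [Pi.smul_apply, smul_eq_mul] at e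
    rw [Matrix.single_one_vecMul, Matrix.single_one_vecMul] at e
    exact e
  have key : ∀ i r, b' i r * z r = z' i * b i r := by
    intro i
    have hw : (fun r => b' i r * z r - z' i * b i r) ᵥ* h⁻¹ = 0 := by
      funext j
      have e := congrFun (hz' i) j
      simp only [Pi.smul_apply, smul_eq_mul, Matrix.vecMul, dotProduct, hzr] at e
      simp only [Matrix.vecMul, dotProduct, Pi.zero_apply, sub_mul, Finset.sum_sub_distrib]
      rw [sub_eq_zero]
      rw [Finset.mul_sum] at e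
      calc ∑ x, b' i x * z x * h⁻¹ x j = ∑ x, b' i x * (z x * h⁻¹ x j) :=
            Finset.sum_congr rfl fun x _ => by ring
        _ = ∑ x, z' i * (b i x * h⁻¹ x j) := e
        _ = ∑ x, z' i * b i x * h⁻¹ x j := Finset.sum_congr rfl fun x _ => by ring
    have hw2 : (fun r => b' i r * z r - z' i * b i r) = 0 := by
      have e2 := congrArg (fun v => v ᵥ* h) hw
      simp only [Matrix.vecMul_vecMul, Matrix.zero_vecMul] at e2
      rw [Matrix.nonsing_inv_mul h (isUnit_iff_ne_zero.2 hh), Matrix.vecMul_one] at e2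
      exact e2
    intro r
    exact sub_eq_zero.1 (congrFun hw2 r)
  have hzz : ∀ r, z r = z' 0 := by
    intro r
    have e := key 0 r
    rw [hb.zero, hb'.zero, one_mul, mul_one] at e
    exact e
  have hzz' : ∀ i, z' i = z' 0 := by
    intro i
    have e := key i 0
    rw [hb.col, hb'.col, one_mul, mul_one] at e
    rw [← e, hzz]
  constructor
  · funext i r
    have e := key i r
    rw [hzz, hzz' i, mul_comm] at e
    exact mul_left_cancel₀ (hz'0 0) e
  · funext i
    unfold oo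
    rw [hzr, hzr, hzz i, hzz 0, mul_div_mul_left _ _ (hz'0 0)]

end Pool.Agent.T1
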