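import Pool.Agent.T1.KLC
import Pool.Agent.G4.UNW
import Pool.Agent.G4.INX
import Pool.Agent.G4.FXH

/-!
# T1 / KUX: the units and inertia on the cone

This is `G4/UNX.lean` with `klc` instead of `loc` (copy and adapt).
-/

namespace Pool.Agent.T1

open MvPolynomial Matrix
open Pool.Agent.PQ (P3 lin sb SF NS Bit RB yy ka ND)
open Pool.Agent.G4 (P2 tri TH Tr Sec qy tv oo)

private theorem unx_par {k : Type*} [Field k] (L L' : Fin 3 → k) (hL : L ≠ 0) (hL' : L' ≠ 0)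
    (hx : crossProduct L L' = 0) : ∃ ζ : k, ζ ≠ 0 ∧ L' = ζ • L := by
  have h0 := congrFun hx 0
  have h1 := congrFun hx 1
  have h2 := congrFun hx 2
  simp only [crossProduct, LinearMap.mk₂_apply, Matrix.cons_val_zero, Matrix.cons_val_one,
    Matrix.cons_val_two, Matrix.head_cons, Matrix.tail_cons, Pi.zero_apply,
    Matrix.cons_val] at h0 h1 h2
  have key : ∀ i j, L i * L' j = L j * L' i := by
    intro i j
    fin_cases i <;> fin_cases j
    · rfl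
    · show L 0 * L' 1 = L 1 * L' 0
      linear_combination h2
    · show L 0 * L' 2 = L 2 * L' 0
      linear_combination -h1
    · show L 1 * L' 0 = L 0 * L' 1
      linear_combination -h2
    · rfl
    · show L 1 * L' 2 = L 2 * L' 1
      linear_combination h0
    · show L 2 * L' 0 = L 0 * L' 2
      linear_combination h1
    · show L 2 * L' 1 = L 1 * L' 2
      linear_combination -h0
    · rfl
  obtain ⟨i, hi⟩ := Function.ne_iff.1 hL
  have hi' : L i ≠ 0 := hi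
  have hL2 : L' = (L' i / L i) • L := by
    ext j
    rw [Pi.smul_apply, smul_eq_mul, div_mul_eq_mul_div, eq_div_iff hi', mul_comm, key i j, mul_comm]
  refine ⟨L' i / L i, ?_, hL2⟩
  intro h
  apply hL'
  rw [hL2, h, zero_smul]

theorem kux {K C : Type*} [Field K] [Field C] [Algebra K C] [IsAlgClosed C] (V : ValuationSubring C)
    (h2 : V.valuation (2 : C) = 1) (A : Fin 3 → P2 C) (hA : TH A) (hL : LocC K V A) (p r : P2 C)
    (hs : Sec A p r) (h : Matrix (Fin 3) (Fin 3) C) (hh : h.det ≠ 0) (κ : C) (hκ : κ ≠ 0)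
    (b : Fin 4 → Fin 3 → C) (hb : ND b) (hE : sb h (qy A p r) = MvPolynomial.C κ * RB b) :
    (∀ i r, V.valuation (b i r) = 1) ∧ (∀ i r, i ≠ 0 → r ≠ 0 → V.valuation (1 - b i r) = 1) ∧
      (∀ j i, V.valuation (tv b (oo h) j i) = 1) ∧ V.valuation (eval (oo h) (RB b)) = 1 ∧
      ∀ σ : C ≃ₐ[K] C, ESH.Inert V σ → (∀ i r, σ (b i r) = b i r) ∧ ∀ i, σ (oo h i) = oo h i := by
  obtain ⟨m, c, μ, G, hm, hc, hμ, hG, hNS, hGe, hm2, hG1, hO, hσG⟩ := klc (K := K) V h2 A hA hL p r hs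
  set h1 : Matrix (Fin 3) (Fin 3) C := m⁻¹ * h with hh1
  have e0 : m * h1 = h := by
    rw [hh1, ← mul_assoc, Matrix.mul_nonsing_inv _ (isUnit_iff_ne_zero.2 hm), one_mul]
  have hd1 : h1.det ≠ 0 := by
    intro h0
    apply hh
    rw [← e0, Matrix.det_mul, h0, mul_zero]
  set c1 : C := c * κ with hc1
  have hc1' : c1 ≠ 0 := mul_ne_zero hc hκ
  have hE1 : sb h1 (map (algebraMap V C) G) = MvPolynomial.C c1 * RB b := by
    rw [hGe, map_mul, PQ.sb_C, PQ.sb_sb, e0, hE, hc1, map_mul]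
    ring
  have hoo : oo h1 = oo h := by
    have e1 : h1⁻¹ = h⁻¹ * m := by
      rw [hh1, Matrix.mul_inv_rev, Matrix.nonsing_inv_nonsing_inv _ (isUnit_iff_ne_zero.2 hm)]
    have e2 : ∀ i, h1⁻¹ i 2 = μ * h⁻¹ i 2 := by
      intro i
      have e3 : h1⁻¹ *ᵥ (Pi.single 2 1 : Fin 3 → C) = μ • (h⁻¹ *ᵥ (Pi.single 2 1 : Fin 3 → C)) := by
        rw [e1, ← Matrix.mulVec_mulVec, hm2, Matrix.mulVec_smul]
      have e4 := congrFun e3 i
      simpa [Matrix.mulVec_single_one] using e4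
    funext i
    simp only [oo]
    rw [e2 i, e2 0, mul_div_mul_left _ _ hμ]
  obtain ⟨u1, u2, -, u4, u5⟩ := G4.unw V h2 G hG hNS hO hG1 h1 hd1 c1 hc1' b hb hE1
  rw [hoo] at u4 u5
  refine ⟨u1, u2, u4, u5, ?_⟩
  intro σ hσ
  have hGe2 : map (algebraMap V C) G = MvPolynomial.C c1 * sb h1⁻¹ (RB b) := by
    rw [← PQ.sb_inv h1 hd1 (map (algebraMap V C) G), hE1, map_mul, PQ.sb_C]
  obtain ⟨e, he⟩ := IsAlgClosed.exists_pow_nat_eq c1 (n := 2) (by norm_num)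
  have line : ∀ (w : Fin 3 → C) (Q : P3 C), w ≠ 0 → Bit (RB b) w Q →
      ∃ ζ : C, ζ ≠ 0 ∧ (fun j => (σ : C →+* C) ((w ᵥ* h1⁻¹) j)) = ζ • (w ᵥ* h1⁻¹) := by
    intro w Q hw hQ
    have hw1 : w ᵥ* h1⁻¹ ≠ 0 := by
      intro h0
      apply hw
      have e1 := congrArg (fun q => q ᵥ* h1) h0
      simpa [Matrix.vecMul_vecMul, Matrix.nonsing_inv_mul _ (isUnit_iff_ne_zero.2 hd1)] using e1
    obtain ⟨η, L, hη, hL, hLp⟩ := PQ.prv V (w ᵥ* h1⁻¹) hw1
    have hL' : w ᵥ* h1⁻¹ = η • fun j => (L j : C) := by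
      ext j
      rw [hL j]
      rfl
    have hLw : (fun j => (L j : C)) = η⁻¹ • (w ᵥ* h1⁻¹) := by
      rw [hL', smul_smul, inv_mul_cancel₀ hη, one_smul]
    have b1 := PQ.trf_bit h1⁻¹ hQ
    have b2 := PQ.scl_bit b1 η⁻¹ e (inv_ne_zero hη)
    rw [he, ← hGe2, ← hLw] at b2
    have hcr := G4.inx V h2 G hG hNS σ hσ (hσG σ hσ) L hLp _ b2
    have hL0 : (fun j => (L j : C)) ≠ 0 := by
      obtain ⟨j, hj⟩ := hLp
      intro h0
      have := congrFun h0 j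
      have e1 : (L j : C) = 0 := this
      rw [e1, map_zero] at hj
      exact zero_ne_one hj
    have hL1 : (fun j => σ (L j : C)) ≠ 0 := by
      intro h0
      apply hL0
      ext j
      have e1 : σ (L j : C) = 0 := congrFun h0 j
      exact (map_eq_zero σ).1 e1
    obtain ⟨ζ, hζ, hζL⟩ := unx_par _ _ hL0 hL1 hcr
    refine ⟨σ η * ζ * η⁻¹, mul_ne_zero (mul_ne_zero ((map_ne_zero σ).2 hη) hζ) (inv_ne_zero hη), ?_⟩
    rw [hL']
    funext j
    have e1 : σ (L j : C) = ζ * (L j : C) := congrFun hζL j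
    change σ (η * (L j : C)) = σ η * ζ * η⁻¹ * (η * (L j : C))
    rw [map_mul, e1]
    field_simp
  have lx : ∀ r : Fin 3, ∃ ζ : C, ζ ≠ 0 ∧
      (fun j => (σ : C →+* C) (((Pi.single r 1 : Fin 3 → C) ᵥ* h1⁻¹) j)) =
        ζ • ((Pi.single r 1 : Fin 3 → C) ᵥ* h1⁻¹) := by
    intro r
    refine line _ (PQ.QX (yy b) r) ?_ (PQ.bit_x (yy b) r)
    intro h0
    have := congrFun h0 r
    simp at this
  have lb : ∀ i : Fin 4, ∃ ζ : C, ζ ≠ 0 ∧
      (fun j => (σ : C →+* C) ((b i ᵥ* h1⁻¹) j)) = ζ • (b i ᵥ* h1⁻¹) := by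
    intro i
    refine line _ (PQ.QS (b i) (yy b)) ?_
      (PQ.bit_s (b i) (hb.ne i) (yy b) _ (PQ.rel_field b i (hb.ne i)))
    intro h0
    exact hb.ne i 0 (congrFun h0 0)
  obtain ⟨f1, f2⟩ := G4.fxh (σ : C →+* C) h1 hd1 b hb lx lb
  rw [hoo] at f2
  exact ⟨f1, f2⟩


end Pool.Agent.T1
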