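import Pool.Agent.T1.KDG
import Pool.Agent.T1.KUX
import Pool.Agent.G4.NZC
import Pool.Agent.G4.HER
import Pool.Agent.ESH.HTL

/-!
# T1 / KHT: heights on the cone

This is `G4/HTY.lean` with `kdg`, `kux` instead of `dgb`, `unx` and `m = 3` (copy and adapt).
-/

namespace Pool.Agent.T1

open MvPolynomial Matrix NumberField IsDedekindDomain
open Pool.Agent.PQ (P3 lin sb SF NS Bit RB yy ka ND)
open Pool.Agent.G4 (P2 tri TH Tr Sec qy tv oo exu nzc Hq hq_tv her_ne her her_fix map_tv)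

theorem kht {K C : Type*} [Field K] [NumberField K] [Field C] [Algebra K C] [Algebra.IsAlgebraic K C]
    [IsAlgClosed C] (T : Finset (HeightOneSpectrum (𝓞 K))) (A : Fin 3 → P2 C) (hA : TH A)
    (hNS : NS (tri A)) (hG : GalC K A) (hL : ∀ V : ValuationSubring C, ESH.GoodV T 3 V → LocC K V A)
    (p r : P2 C) (hs : Sec A p r)
    (h : Matrix (Fin 3) (Fin 3) C) (hh : h.det ≠ 0) (κ : C) (hκ : κ ≠ 0) (b : Fin 4 → Fin 3 → C) (hb : ND b)
    (hE : sb h (qy A p r) = MvPolynomial.C κ * RB b)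
    (v : Fin 3 → Fin 3 → C) (hv : ∀ j i, v j i ^ 2 = tv b (oo h) j i) (x : C)
    (hx : (∃ i r, i ≠ 0 ∧ r ≠ 0 ∧ x = b i r) ∨ ∃ j i, x = exu (v j) i) :
    ∃ P : Polynomial ℤ, P ≠ 0 ∧ P.natDegree ≤ ESH.tw 5 (ESH.szK K T + 3 + 7226 * 42 ^ 7 * 8) ∧
      Polynomial.aeval x P = 0 ∧
      ∀ j, |P.coeff j| ≤ (ESH.tw 90 (ESH.szK K T + 3 + 7226 * 42 ^ 7 * 8) : ℤ) := by
  have : CharZero C := charZero_of_injective_algebraMap (algebraMap K C).injective
  have h2C : (2 : C) ≠ 0 := two_ne_zero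
  obtain ⟨d1, d2⟩ := kdg A hA hNS hG p r hs h hh κ hκ b hb hE
  obtain ⟨z1, z2, z3, z4⟩ := nzc h2C _ hA hNS p r hs h hh κ hκ b hb hE
  have hvne : ∀ j i, v j i ≠ 0 := by
    intro j i h0
    apply z3 j i
    rw [← hv, h0]
    ring
  have hHq : ∀ j, Hq (v j 0 ^ 2) (v j 1 ^ 2) (v j 2 ^ 2) = eval (oo h) (RB b) := by
    intro j
    rw [hv, hv, hv, hq_tv b hb.zero (oo h) j]
  have hV2 : ∀ V : ValuationSubring C, ESH.GoodV T 3 V → V.valuation (2 : C) = 1 := by
    intro V hV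
    have := hV.res_char 2 Nat.prime_two (by norm_num)
    simpa using this
  have hU := fun (V : ValuationSubring C) (hV : ESH.GoodV T 3 V) =>
    kux V (hV2 V hV) A hA (hL V hV) p r hs h hh κ hκ b hb hE
  rcases hx with ⟨i, r', hi, hr, rfl⟩ | ⟨j, i, rfl⟩
  · refine ESH.htl T 3 _ _ (hb.ne i r') (hb.one i r' hi hr) (d1 i r') (fun V hV => ?_) (fun V hV σ hσ => ?_)
    · obtain ⟨u1, u2, _, _, _⟩ := hU V hV
      exact ⟨u1 i r', u2 i r' hi hr⟩
    · obtain ⟨_, _, _, _, u5⟩ := hU V hV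
      exact (u5 σ hσ).1 i r'
  · obtain ⟨_, n1, n2⟩ := her_ne h2C (v j) (hvne j) (by rw [hHq]; exact z4) i
    refine ESH.htl T 3 _ _ n1 n2 (d2 v hv j i) (fun V hV => ?_) (fun V hV σ hσ => ?_)
    · obtain ⟨_, _, u3, u4, _⟩ := hU V hV
      exact her V (hV2 V hV) (v j) (fun l => by rw [hv]; exact u3 j l) (by rw [hHq]; exact u4) i
    · obtain ⟨_, _, u3, _, u5⟩ := hU V hV
      obtain ⟨f1, f2⟩ := u5 σ hσ
      have hfx : ∀ l, σ (v j l) = v j l := by
        intro l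
        refine her_fix V (hV2 V hV) σ hσ (v j l) (by rw [hv]; exact u3 j l) ?_
        rw [hv]
        have e1 := map_tv (σ : C →+* C) b (oo h) j l
        have e2 : (fun i r => (σ : C →+* C) (b i r)) = b := by
          funext i r
          exact f1 i r
        have e3 : (fun i => (σ : C →+* C) (oo h i)) = oo h := by
          funext i
          exact f2 i
        rw [e2, e3] at e1
        exact e1
      simp only [exu, map_div₀, map_sub, map_add, map_mul, hfx, map_ofNat]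

end Pool.Agent.T1
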