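import Pool.Agent.T1.DefsN
import Pool.Agent.G4.LOC

/-!
# T1 / KLC: the local package at a valuation ring with a fixed model

This is `G4/LOC.lean` with the curve `A` over `C` (not over `K`) and the model given by `LocC K V A` instead of `mdx` (copy and adapt; the part on the coefficients of `B` being fixed by inertia is now the hypothesis `∀ i, Fx K V (B i)`).
-/

namespace Pool.Agent.T1

open MvPolynomial Matrix
open Pool.Agent.PQ (P3 lin sb SF NS Bit)
open Pool.Agent.G4 (P2 tri TH Tr Sec qy)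

theorem klc {K C : Type*} [Field K] [Field C] [Algebra K C] [IsAlgClosed C] (V : ValuationSubring C)
    (h2 : V.valuation (2 : C) = 1) (A : Fin 3 → P2 C) (hA : TH A) (hL : LocC K V A) (p r : P2 C)
    (hs : Sec A p r) :
    ∃ (m : Matrix (Fin 3) (Fin 3) C) (c μ : C) (G : P3 V), m.det ≠ 0 ∧ c ≠ 0 ∧ μ ≠ 0 ∧ G.IsHomogeneous 4 ∧
      NS (map (IsLocalRing.residue V) G) ∧
      map (algebraMap V C) G = MvPolynomial.C c * sb m (qy A p r) ∧
      m *ᵥ Pi.single 2 1 = μ • Pi.single 2 1 ∧ eval (Pi.single 2 1) G = 1 ∧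
      (∀ (v : Fin 3 → IsLocalRing.ResidueField V) (Q : P3 (IsLocalRing.ResidueField V)), v ≠ 0 →
        Bit (map (IsLocalRing.residue V) G) v Q → v 2 ≠ 0) ∧ Fx K V G := by
  classical
  obtain ⟨g, l, q, B, hg, hl, hq, hTr, hB, hNS, hFx⟩ := hL
  have hκ : IsAlgClosed (IsLocalRing.ResidueField V) := ST.isAlgClosed_residueField V
  have h2' : (2 : IsLocalRing.ResidueField V) ≠ 0 := by
    have h3 : IsUnit (2 : V) := by
      exact (ValuationSubring.valuation_eq_one_iff V (2 : V)).2 h2
    have h4 := h3.map (IsLocalRing.residue V)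
    rw [map_ofNat] at h4
    exact h4.ne_zero
  obtain ⟨μ, hμ⟩ := IsAlgClosed.exists_pow_nat_eq l (n := 2) (by norm_num)
  have hμ0 : μ ≠ 0 := by
    rintro rfl
    rw [zero_pow two_ne_zero] at hμ
    exact hl hμ.symm
  have hTrC : Tr g (μ ^ 2) q A (fun i => map (algebraMap V C) (B i)) := by
    rw [hμ]
    exact hTr
  obtain ⟨hS', hqy⟩ := G4.trx g μ hμ0 _ hq _ _ hTrC p r hs
  obtain ⟨P, R, hPR, hP, hR⟩ := G4.int V h2 B hB hNS _ _ hS'
  rw [← hP, ← hR, ← G4.map_qy] at hqy
  refine ⟨G4.blk g μ, μ⁻¹ ^ 4, μ, qy B P R, ?_, pow_ne_zero _ (inv_ne_zero hμ0),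
    hμ0, G4.qy_hom hB hPR.hp hPR.hr, ?_, hqy, ?_, G4.qy_single B hB hPR.hp hPR.hr, ?_, ?_⟩
  · rw [G4.det_blk]
    exact mul_ne_zero hg hμ0
  · rw [G4.map_qy]
    exact G4.nsy h2' _ (hB.map _) hNS _ _ (hPR.map _)
  · ext i
    fin_cases i <;> simp [G4.blk, Matrix.mulVec, dotProduct, Fin.sum_univ_three, Pi.single_apply]
  · intro v Q hv hb
    rw [G4.map_qy] at hb
    exact G4.obi h2' _ (hB.map _) hNS _ _ (hPR.map _) v hv Q hb
  · intro σ hσ
    have hmem : ∀ z ∈ V, σ z ∈ V := by
      intro z hz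
      have h1 := V.add_mem _ _ (V.nonunits_subset (hσ z hz)) hz
      rwa [sub_add_cancel] at h1
    let τ : V →+* V := ((σ : C →+* C).comp (algebraMap V C)).codRestrict V.toSubring
      fun x => hmem _ x.2
    have hτ : (algebraMap V C).comp τ = (σ : C →+* C).comp (algebraMap V C) := RingHom.ext fun x => rfl
    have hres : (IsLocalRing.residue V).comp τ = IsLocalRing.residue V := by
      ext x
      have h1 := hσ (x : C) x.2
      obtain ⟨h2, h3⟩ := (ValuationSubring.mem_nonunits_iff_exists_mem_maximalIdeal).1 h1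
      have h4 : τ x - x ∈ IsLocalRing.maximalIdeal V := h3
      rw [RingHom.comp_apply, ← sub_eq_zero, ← map_sub]
      exact (IsLocalRing.residue_eq_zero_iff _).2 h4
    have hinj : Function.Injective (algebraMap V C) := FaithfulSMul.algebraMap_injective V C
    have hBτ : ∀ i, map τ (B i) = B i := by
      intro i
      apply MvPolynomial.map_injective _ hinj
      rw [MvPolynomial.map_map, hτ, ← MvPolynomial.map_map]
      exact hFx i σ hσ
    have hs' : Sec B (map τ P) (map τ R) := by
      have h3 := hPR.map τ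
      rwa [show (fun i => map τ (B i)) = B from funext hBτ] at h3
    obtain ⟨hPP, hRR⟩ := G4.slu V h2 B hB hNS P R (map τ P) (map τ R) hPR hs'
      (by rw [MvPolynomial.map_map, hres]) (by rw [MvPolynomial.map_map, hres])
    have hG : map τ (qy B P R) = qy B P R := by
      rw [G4.map_qy, ← hPP, ← hRR]
      congr 1
      exact funext hBτ
    calc map (σ : C →+* C) (map (algebraMap V C) (qy B P R))
        = map ((σ : C →+* C).comp (algebraMap V C)) (qy B P R) := by rw [MvPolynomial.map_map]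
      _ = map ((algebraMap V C).comp τ) (qy B P R) := by rw [hτ]
      _ = map (algebraMap V C) (qy B P R) := by rw [← MvPolynomial.map_map, hG]

end Pool.Agent.T1
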