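import Mathlib

/-!
# T1 / PCL: sections of injective pencils are constant

Proof.  Choose bases, so that `T0, T1` are `m × n` matrices, `n = dim U`, and `E0, E1 ∈ kᵐ`.  Work over `S = k[X]`.  `T = T0 + X T1`, `E = E0 + X E1` (with
entries in `S`).  For every `x ∈ k` the matrix `T(x)` is injective, so it has an `n × n` minor (set of rows `I : Fin n → Fin m`) with
`det T(x)_I ≠ 0` (rows of an injective matrix span `kⁿ`, choose a basis among them).  So the polynomials `Δ_I = det T_I ∈ S` have no common zero, they generate the unit ideal of the principal ideal domain `S`: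
`∑_I c_I Δ_I = 1` (a generator of the ideal has no root, so it is a unit).  `L := ∑_I c_I adj(T_I) * (rows I)` satisfies `L T = 1`.
Put `g := L E ∈ Sⁿ`.  For every `x`: `E(x) = T(x) u` for some `u`, so `g(x) = L(x) T(x) u = u`, `T(x) g(x) = E(x)`.  So `T g = E` (`k` infinite).
Let `d` be the maximal degree of the entries of `g`.  If `d ≥ 1` the coefficient of `X^(d+1)` in `T g = E` gives `T1 g_d = 0` (`E` has degree `≤ 1 < d + 1`),
`g_d ≠ 0` the vector of the coefficients of `X^d`: contradiction to the injectivity of `T1` (`a = 0, b = 1`).  So `g` is constant, `g = u`: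
`T0 u = E0`, `T1 u = E1`.
-/

namespace Pool.Agent.T1

private theorem pcl_shift {k U W : Type*} [Field k] [AddCommGroup U] [Module k U]
    [AddCommGroup W] [Module k W] (T0 T1 : U →ₗ[k] W)
    (hQ : ∀ (T : U →ₗ[k] W) (E : W) (S : Set k),
      (∀ a b : k, (a ≠ 0 ∨ b ≠ 0) → ∀ u, a • T u + b • T1 u = 0 → u = 0) → S.Infinite →
      (∀ x ∈ S, ∃ u, T u + x • T1 u = x • E) → E = 0)
    (hinj : ∀ a b : k, (a ≠ 0 ∨ b ≠ 0) → ∀ u, a • T0 u + b • T1 u = 0 → u = 0) (E0 E1 : W)
    (S : Set k) (hS : S.Infinite) (h : ∀ x ∈ S, ∃ u, T0 u + x • T1 u = E0 + x • E1) :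
    ∃ u, T0 u = E0 ∧ T1 u = E1 := by
  obtain ⟨x0, hx0⟩ := hS.nonempty
  obtain ⟨u0, hu0⟩ := h x0 hx0
  have h1 := hQ (T0 + x0 • T1) (E1 - T1 u0) ((fun y => y + x0) ⁻¹' S) ?_ ?_ ?_
  · have h2 : T1 u0 = E1 := (sub_eq_zero.1 h1).symm
    refine ⟨u0, ?_, h2⟩
    rw [h2] at hu0
    exact add_right_cancel hu0
  · intro a b hab u hu
    refine hinj a (a * x0 + b) ?_ u ?_
    · rcases eq_or_ne a 0 with rfl | ha
      · right
        rcases hab with h | h
        · exact absurd rfl h
        · simpa using h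
      · exact Or.inl ha
    · rw [← hu]
      simp only [LinearMap.add_apply, LinearMap.smul_apply, smul_add, add_smul, mul_smul]
      abel
  · refine hS.preimage ?_
    intro y _
    exact ⟨y - x0, by simp⟩
  · intro y hy
    obtain ⟨u, hu⟩ := h (y + x0) hy
    refine ⟨u - u0, ?_⟩
    have h3 : (T0 + x0 • T1) (u - u0) + y • T1 (u - u0) =
        (T0 u + (y + x0) • T1 u) - (T0 u0 + x0 • T1 u0) - y • T1 u0 := by
      simp only [LinearMap.add_apply, LinearMap.smul_apply, map_sub, smul_sub, add_smul]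
      abel
    rw [h3, hu, hu0, add_smul, smul_sub]
    abel

private theorem pcl_eig {k U W : Type*} [Field k] [IsAlgClosed k] [AddCommGroup U] [Module k U]
    [FiniteDimensional k U] [Nontrivial U]
    [AddCommGroup W] [Module k W] (T0 T1 : U →ₗ[k] W)
    (hinj : ∀ a b : k, (a ≠ 0 ∨ b ≠ 0) → ∀ u, a • T0 u + b • T1 u = 0 → u = 0)
    (h : ∀ u, T1 u ∈ LinearMap.range T0) : False := by
  have h0 : Function.Injective T0 := by
    rw [injective_iff_map_eq_zero]
    intro u hu
    refine hinj 1 0 (Or.inl one_ne_zero) u ?_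
    rw [hu, smul_zero, zero_smul, add_zero]
  obtain ⟨A, hA⟩ : ∃ A : U →ₗ[k] U, ∀ u, T0 (A u) = T1 u := by
    refine ⟨(LinearEquiv.ofInjective T0 h0).symm.toLinearMap.comp
      (T1.codRestrict (LinearMap.range T0) h), fun u => ?_⟩
    have h1 := (LinearEquiv.ofInjective T0 h0).apply_symm_apply
      (T1.codRestrict (LinearMap.range T0) h u)
    have h2 := congrArg Subtype.val h1
    exact h2
  obtain ⟨c, hc⟩ := Module.End.exists_eigenvalue A
  obtain ⟨u, hu⟩ := hc.exists_hasEigenvector
  refine hu.2 (hinj (-c) 1 (Or.inr one_ne_zero) u ?_)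
  rw [← hA u, hu.apply_eq_smul, map_smul, one_smul, neg_smul]
  simp

private theorem pcl_Q {k W : Type*} [Field k] [IsAlgClosed k] [AddCommGroup W] [Module k W]
    (n : ℕ) : ∀ (U : Type*) [AddCommGroup U] [Module k U] [FiniteDimensional k U],
    Module.finrank k U = n → ∀ (T0 T1 : U →ₗ[k] W) (E : W) (S : Set k),
      (∀ a b : k, (a ≠ 0 ∨ b ≠ 0) → ∀ u, a • T0 u + b • T1 u = 0 → u = 0) → S.Infinite →
      (∀ x ∈ S, ∃ u, T0 u + x • T1 u = x • E) → E = 0 := by
  induction n using Nat.strong_induction_on with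
  | _ n ih =>
  intro U _ _ _ hn T0 T1 E S hinj hS h
  obtain ⟨x1, hx1⟩ := (hS.sdiff (Set.finite_singleton (0 : k))).nonempty
  have hx10 : x1 ≠ 0 := hx1.2
  obtain ⟨u1, hu1⟩ := h x1 hx1.1
  have hfin : u1 = 0 → E = 0 := by
    intro h1
    rw [h1, map_zero, map_zero, smul_zero, add_zero] at hu1
    exact (smul_eq_zero.1 hu1.symm).resolve_left hx10
  rcases subsingleton_or_nontrivial U with hU | hU
  · exact hfin (Subsingleton.elim _ _)
  · have h0 : Function.Injective T0 := by
      rw [injective_iff_map_eq_zero]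
      intro u hu
      refine hinj 1 0 (Or.inl one_ne_zero) u ?_
      rw [hu, smul_zero, zero_smul, add_zero]
    obtain ⟨U1, hU1⟩ : ∃ U1 : Submodule k U, U1 = (LinearMap.range T0).comap T1 := ⟨_, rfl⟩
    have hlt : U1 < ⊤ := by
      rw [lt_top_iff_ne_top]
      intro h1
      refine pcl_eig T0 T1 hinj fun u => ?_
      have h2 : u ∈ U1 := by
        rw [h1]
        exact Submodule.mem_top
      rw [hU1] at h2
      exact h2
    have hdim : Module.finrank k U1 < n := by
      rw [← hn]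
      exact Submodule.finrank_lt hlt.ne
    have hinj1 : ∀ a b : k, (a ≠ 0 ∨ b ≠ 0) → ∀ u : U1,
        a • (T0.comp U1.subtype) u + b • (T1.comp U1.subtype) u = 0 → u = 0 := by
      intro a b hab u hu
      exact Subtype.ext (hinj a b hab u hu)
    have hmem : ∀ x ∈ S \ {0}, ∀ u, T0 u + x • T1 u = x • E → E - T1 u ∈ LinearMap.range T0 := by
      intro x hx u hu
      refine ⟨x⁻¹ • u, ?_⟩
      have hx0 : x ≠ 0 := hx.2
      have h2 : T0 u = x • (E - T1 u) := by
        rw [smul_sub, ← hu]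
        abel
      rw [map_smul, h2, inv_smul_smul₀ hx0]
    have hc1 := hmem x1 hx1 u1 hu1
    have hT0 : T0 u1 = x1 • (E - T1 u1) := by
      rw [smul_sub, ← hu1]
      abel
    obtain ⟨v, hv0, hv1⟩ := pcl_shift (T0.comp U1.subtype) (T1.comp U1.subtype)
      (fun T E' S' => ih _ hdim U1 rfl T (T1.comp U1.subtype) E' S') hinj1
      (-T0 u1) (E - T1 u1) (S \ {0}) (hS.sdiff (Set.finite_singleton (0 : k))) (by
        intro x hx
        obtain ⟨u, hu⟩ := h x hx.1
        have h3 : u - u1 ∈ U1 := by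
          rw [hU1]
          change T1 (u - u1) ∈ LinearMap.range T0
          have h4 : T1 (u - u1) = (E - T1 u1) - (E - T1 u) := by
            rw [map_sub]
            abel
          rw [h4]
          exact Submodule.sub_mem _ hc1 (hmem x hx u hu)
        refine ⟨⟨u - u1, h3⟩, ?_⟩
        change T0 (u - u1) + x • T1 (u - u1) = -T0 u1 + x • (E - T1 u1)
        rw [map_sub, map_sub, smul_sub, smul_sub, ← hu]
        abel)
    have h5 : (v : U) = -u1 := by
      apply h0
      rw [map_neg]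
      exact hv0
    have h6 : T1 (v : U) = E - T1 u1 := hv1
    rw [h5, map_neg] at h6
    have hE : E = 0 := by
      have h7 : E = -T1 u1 + T1 u1 := by
        rw [h6]
        abel
      rw [h7]
      abel
    exact hE

theorem pcl {k U W : Type*} [Field k] [IsAlgClosed k] [AddCommGroup U] [Module k U] [FiniteDimensional k U]
    [AddCommGroup W] [Module k W] [FiniteDimensional k W] (T0 T1 : U →ₗ[k] W)
    (hinj : ∀ a b : k, (a ≠ 0 ∨ b ≠ 0) → Function.Injective (a • T0 + b • T1)) (E0 E1 : W)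
    (hE : ∀ a b : k, (a ≠ 0 ∨ b ≠ 0) → ∃ u, (a • T0 + b • T1) u = a • E0 + b • E1) :
    ∃ u, T0 u = E0 ∧ T1 u = E1 := by
  refine pcl_shift T0 T1 (fun T E S => pcl_Q _ U rfl T T1 E S) ?_ E0 E1 Set.univ
    Set.infinite_univ ?_
  · intro a b hab u hu
    apply hinj a b hab
    rw [map_zero]
    exact hu
  · intro x _
    obtain ⟨u, hu⟩ := hE 1 x (Or.inl one_ne_zero)
    refine ⟨u, ?_⟩
    simpa using hu

end Pool.Agent.T1
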