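import Pool.Agent.T1.PKA

/-!
# T1 / PKB: infinitesimal isotrivial deformations of pencils

Write `M_t = ap P t`, `E_t = ap E t`.  Proof by counting dimensions.
Let `W` be the space of pairs of symmetric matrices, dimension 12 (`Fin 2 → Sym`), and
`Ψ : W → k⁴`, `E ↦` the coefficients of the cubic form `trace (adjugate M_t * E_t)` in `t`.
(1) `Ψ` is surjective.  For a symmetric matrix `S` let `q_S(t) = trace (adjugate M_t * S)`, a quadratic form in `t`.  The `q_S` have no
common zero `t ≠ 0`: `adjugate M_t ≠ 0` is symmetric, and `trace (A S) = 0` for all symmetric `S` implies `A = 0` (`2 ≠ 0`).  There are two of them without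
common zero: take `S_1` with `q_{S_1} ≠ 0`; it has at most two zeros up to scalars `t', t''`; choose `S_2` with `q_{S_2}(t') ≠ 0` and `q_{S_2}(t'') ≠ 0`
(`k` infinite: if `q_a(t') ≠ 0`, `q_b(t'') ≠ 0` then some combination `q_a + x q_b`, or `q_a` or `q_b`).  The four cubic forms `t_0 q_{S_1}, t_1 q_{S_1}, t_0 q_{S_2}, t_1 q_{S_2}` are
linearly independent: `l q_{S_1} = - l' q_{S_2}`, `l ≠ 0`: at a zero of `l'` ...: if `l' ≠ 0`, the quadratic form `q_{S_1}` divides `l' q_{S_2}` and is coprime to `q_{S_2}`, so divides the linear form `l'`, impossible;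
(elementary: all zeros of `q_{S_1}` (with multiplicity) are zeros of `l'`.)  So they span the cubic forms, and they are the images of `E = (S_i, 0), (0, S_i)`.
(2) So `dim ker Ψ = 8`.  (3) The map `h ↦ (hᵀ P j + P j h)_j` is injective on all matrices (`pka`), in particular on the 8-dimensional space of matrices of trace `0`, and its
values there are in `ker Ψ`: `trace (adjugate M (hᵀ M + M h)) = 2 det M * trace h = 0`.  So the image of the trace zero matrices is
`ker Ψ`, which contains `E`.  (The identity `trace (adjugate M_t * E_t) = 0` for all `t` says `Ψ E = 0`, `k` infinite.)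
-/

namespace Pool.Agent.T1

open MvPolynomial Matrix

section

variable {k : Type*} [Field k]

private theorem PKB_cubic [Infinite k] (c : Fin 4 → k)
    (h : ∀ t : Fin 2 → k, c 0 * t 0 ^ 3 + c 1 * t 0 ^ 2 * t 1 + c 2 * t 0 * t 1 ^ 2 + c 3 * t 1 ^ 3 = 0) :
    c 0 = 0 ∧ c 1 = 0 ∧ c 2 = 0 ∧ c 3 = 0 := by
  have h1 : (Polynomial.C (c 0) * Polynomial.X ^ 3 + Polynomial.C (c 1) * Polynomial.X ^ 2 +
      Polynomial.C (c 2) * Polynomial.X + Polynomial.C (c 3) : Polynomial k) = 0 := by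
    refine Polynomial.funext fun x => ?_
    have h2 := h ![x, 1]
    simp only [Matrix.cons_val_zero, Matrix.cons_val_one, one_pow, mul_one] at h2
    simp only [Polynomial.eval_add, Polynomial.eval_mul, Polynomial.eval_C, Polynomial.eval_pow, Polynomial.eval_X,
      Polynomial.eval_zero]
    exact h2
  have e0 : Polynomial.coeff (Polynomial.C (c 0) * Polynomial.X ^ 3 + Polynomial.C (c 1) * Polynomial.X ^ 2 +
      Polynomial.C (c 2) * Polynomial.X + Polynomial.C (c 3) : Polynomial k) 3 = 0 := by rw [h1]; simp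
  have e1 : Polynomial.coeff (Polynomial.C (c 0) * Polynomial.X ^ 3 + Polynomial.C (c 1) * Polynomial.X ^ 2 +
      Polynomial.C (c 2) * Polynomial.X + Polynomial.C (c 3) : Polynomial k) 2 = 0 := by rw [h1]; simp
  have e2 : Polynomial.coeff (Polynomial.C (c 0) * Polynomial.X ^ 3 + Polynomial.C (c 1) * Polynomial.X ^ 2 +
      Polynomial.C (c 2) * Polynomial.X + Polynomial.C (c 3) : Polynomial k) 1 = 0 := by rw [h1]; simp
  have e3 : Polynomial.coeff (Polynomial.C (c 0) * Polynomial.X ^ 3 + Polynomial.C (c 1) * Polynomial.X ^ 2 +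
      Polynomial.C (c 2) * Polynomial.X + Polynomial.C (c 3) : Polynomial k) 0 = 0 := by rw [h1]; simp
  simp [Polynomial.coeff_X, Polynomial.coeff_C, Polynomial.coeff_X_pow] at e0 e1 e2 e3
  exact ⟨e0, e1, e2, e3⟩

/-- if `l q₁ + l' q₂ = 0` with `q₁ = m' m''` and `q₂` is not zero at the zeros of `m'`, `m''` then `l = l' = 0` -/
private theorem PKB_indep [Infinite k] (l0 l1 p0 p1 α β γ δ a b c : k)
    (h1 : α ≠ 0 ∨ β ≠ 0) (h2 : γ ≠ 0 ∨ δ ≠ 0)
    (h3 : a * β ^ 2 - b * β * α + c * α ^ 2 ≠ 0) (h4 : a * δ ^ 2 - b * δ * γ + c * γ ^ 2 ≠ 0)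
    (h : ∀ t : Fin 2 → k, (l0 * t 0 + l1 * t 1) * ((α * t 0 + β * t 1) * (γ * t 0 + δ * t 1)) +
      (p0 * t 0 + p1 * t 1) * (a * t 0 ^ 2 + b * t 0 * t 1 + c * t 1 ^ 2) = 0) :
    l0 = 0 ∧ l1 = 0 ∧ p0 = 0 ∧ p1 = 0 := by
  have hz : p0 * β - p1 * α = 0 := by
    have e := h ![β, -α]
    simp only [Matrix.cons_val_zero, Matrix.cons_val_one] at e
    have e2 : (p0 * β - p1 * α) * (a * β ^ 2 - b * β * α + c * α ^ 2) = 0 := by
      linear_combination e
    exact (mul_eq_zero.1 e2).resolve_right h3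
  -- `l' = x m'`
  obtain ⟨x, hx0, hx1⟩ : ∃ x, p0 = x * α ∧ p1 = x * β := by
    by_cases ha : α = 0
    · have hb : β ≠ 0 := h1.resolve_left (not_not.2 ha)
      refine ⟨p1 / β, ?_, ?_⟩
      · rw [ha, mul_zero]
        rw [ha, mul_zero, sub_zero] at hz
        exact (mul_eq_zero.1 hz).resolve_right hb
      · field_simp
    · refine ⟨p0 / α, ?_, ?_⟩
      · field_simp
      · field_simp
        linear_combination -hz
  -- the cubic coefficients of `m' (l m'' + x q₂)`
  have hc := PKB_cubic ![α * (l0 * γ + x * a), α * (l0 * δ + l1 * γ + x * b) + β * (l0 * γ + x * a),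
      α * (l1 * δ + x * c) + β * (l0 * δ + l1 * γ + x * b), β * (l1 * δ + x * c)] (fun t => by
    have e := h t
    rw [hx0, hx1] at e
    simp [Matrix.cons_val_zero, Matrix.cons_val_one, Matrix.cons_val_two, Matrix.cons_val_three]
    linear_combination e)
  simp at hc
  obtain ⟨c0, c1, c2, c3⟩ := hc
  have hf : l0 * γ + x * a = 0 ∧ l0 * δ + l1 * γ + x * b = 0 ∧ l1 * δ + x * c = 0 := by
    by_cases ha : α = 0
    · have hb : β ≠ 0 := h1.resolve_left (not_not.2 ha)
      have f3 : l1 * δ + x * c = 0 := c3.resolve_left hb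
      have f2 : l0 * δ + l1 * γ + x * b = 0 := by
        rw [ha, zero_mul, zero_add] at c2
        exact (mul_eq_zero.1 c2).resolve_left hb
      have f1 : l0 * γ + x * a = 0 := by
        rw [ha, zero_mul, zero_add] at c1
        exact (mul_eq_zero.1 c1).resolve_left hb
      exact ⟨f1, f2, f3⟩
    · have f1 : l0 * γ + x * a = 0 := c0.resolve_left ha
      have f2 : l0 * δ + l1 * γ + x * b = 0 := by
        rw [f1, mul_zero, add_zero] at c1
        exact (mul_eq_zero.1 c1).resolve_left ha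
      have f3 : l1 * δ + x * c = 0 := by
        rw [f2, mul_zero, add_zero] at c2
        exact (mul_eq_zero.1 c2).resolve_left ha
      exact ⟨f1, f2, f3⟩
  obtain ⟨f1, f2, f3⟩ := hf
  have hx : x = 0 := by
    have e2 : x * (a * δ ^ 2 - b * δ * γ + c * γ ^ 2) = 0 := by
      linear_combination δ ^ 2 * f1 - δ * γ * f2 + γ ^ 2 * f3
    exact (mul_eq_zero.1 e2).resolve_right h4
  rw [hx, zero_mul, add_zero] at f1 f2 f3
  rw [hx, zero_mul] at hx0 hx1
  have hl : l0 = 0 ∧ l1 = 0 := by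
    by_cases hg : γ = 0
    · have hd : δ ≠ 0 := h2.resolve_left (not_not.2 hg)
      have e1 : l1 = 0 := (mul_eq_zero.1 f3).resolve_right hd
      rw [e1, zero_mul, add_zero] at f2
      exact ⟨(mul_eq_zero.1 f2).resolve_right hd, e1⟩
    · have e0 : l0 = 0 := (mul_eq_zero.1 f1).resolve_right hg
      rw [e0, zero_mul, zero_add] at f2
      exact ⟨e0, (mul_eq_zero.1 f2).resolve_right hg⟩
  exact ⟨hl.1, hl.2, hx0, hx1⟩

/-- factorization of binary quadratic forms -/
private theorem PKB_fact [IsAlgClosed k] (a b c : k) (h : a ≠ 0 ∨ b ≠ 0 ∨ c ≠ 0) :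
    ∃ α β γ δ : k, (α ≠ 0 ∨ β ≠ 0) ∧ (γ ≠ 0 ∨ δ ≠ 0) ∧ a = α * γ ∧ b = α * δ + β * γ ∧ c = β * δ := by
  by_cases ha : a = 0
  · refine ⟨0, 1, b, c, Or.inr one_ne_zero, h.resolve_left (not_not.2 ha), ?_, ?_, ?_⟩
    · rw [ha, zero_mul]
    · ring
    · ring
  · obtain ⟨x, hx⟩ := IsAlgClosed.exists_root (Polynomial.C a * Polynomial.X ^ 2 + Polynomial.C b * Polynomial.X + Polynomial.C c)
      (by rw [Polynomial.degree_quadratic ha]; decide)
    rw [Polynomial.IsRoot.def] at hx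
    simp only [Polynomial.eval_add, Polynomial.eval_mul, Polynomial.eval_C, Polynomial.eval_pow, Polynomial.eval_X] at hx
    refine ⟨1, -x, a, a * x + b, Or.inl one_ne_zero, Or.inl ha, ?_, ?_, ?_⟩
    · ring
    · ring
    · linear_combination hx

private def PKB_S (v : Fin 6 → k) : Matrix (Fin 3) (Fin 3) k :=
  !![v 0, v 1, v 2; v 1, v 3, v 4; v 2, v 4, v 5]

private def PKB_c (A : Matrix (Fin 3) (Fin 3) k) : Fin 6 → k :=
  ![A 0 0, A 0 1, A 0 2, A 1 1, A 1 2, A 2 2]

private def PKB_T (v : Fin 8 → k) : Matrix (Fin 3) (Fin 3) k :=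
  !![v 0, v 1, v 2; v 3, v 4, v 5; v 6, v 7, - v 0 - v 4]

private theorem PKB_Sc {A : Matrix (Fin 3) (Fin 3) k} (hA : Aᵀ = A) : PKB_S (PKB_c A) = A := by
  have h : ∀ i j, A j i = A i j := fun i j => congrFun (congrFun hA i) j
  ext i j
  fin_cases i <;> fin_cases j <;> simp [PKB_S, PKB_c, h 0 1, h 0 2, h 1 2]

private theorem PKB_Sadd (v w : Fin 6 → k) : PKB_S (v + w) = PKB_S v + PKB_S w := by
  ext i j
  fin_cases i <;> fin_cases j <;> simp [PKB_S]

private theorem PKB_Ssmul (c : k) (v : Fin 6 → k) : PKB_S (c • v) = c • PKB_S v := by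
  ext i j
  fin_cases i <;> fin_cases j <;> simp [PKB_S]

private theorem PKB_cadd (A B : Matrix (Fin 3) (Fin 3) k) : PKB_c (A + B) = PKB_c A + PKB_c B := by
  ext i
  fin_cases i <;> simp [PKB_c]

private theorem PKB_csmul (c : k) (A : Matrix (Fin 3) (Fin 3) k) : PKB_c (c • A) = c • PKB_c A := by
  ext i
  fin_cases i <;> simp [PKB_c]

private theorem PKB_Tadd (v w : Fin 8 → k) : PKB_T (v + w) = PKB_T v + PKB_T w := by
  ext i j
  fin_cases i <;> fin_cases j <;> simp [PKB_T] <;> ring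

private theorem PKB_Tsmul (c : k) (v : Fin 8 → k) : PKB_T (c • v) = c • PKB_T v := by
  ext i j
  fin_cases i <;> fin_cases j <;> simp [PKB_T] <;> ring

private theorem PKB_Ttr (v : Fin 8 → k) : (PKB_T v).trace = 0 := by
  simp [PKB_T, Matrix.trace_fin_three]

private theorem PKB_T0 {v : Fin 8 → k} (h : PKB_T v = 0) : v = 0 := by
  have h' : ∀ i j, PKB_T v i j = 0 := fun i j => by rw [h]; rfl
  have h00 := h' 0 0
  have h01 := h' 0 1
  have h02 := h' 0 2
  have h10 := h' 1 0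
  have h11 := h' 1 1
  have h12 := h' 1 2
  have h20 := h' 2 0
  have h21 := h' 2 1
  simp [PKB_T] at h00 h01 h02 h10 h11 h12 h20 h21
  ext i
  fin_cases i <;> simpa

private theorem PKB_ap (P : Fin 2 → Matrix (Fin 3) (Fin 3) k) (t : Fin 2 → k) :
    ap P t = t 0 • P 0 + t 1 • P 1 := by
  unfold ap
  rw [Fin.sum_univ_two]

private theorem PKB_adj (P : Fin 2 → Matrix (Fin 3) (Fin 3) k) (t : Fin 2 → k) :
    (ap P t).adjugate = (t 0 ^ 2) • (P 0).adjugate +
      (t 0 * t 1) • ((P 0 + P 1).adjugate - (P 0).adjugate - (P 1).adjugate) + (t 1 ^ 2) • (P 1).adjugate := by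
  rw [PKB_ap]
  ext i j
  fin_cases i <;> fin_cases j <;> simp [Matrix.adjugate_fin_three] <;> ring

/-- the quadratic form `q_S` -/
private theorem PKB_q (P : Fin 2 → Matrix (Fin 3) (Fin 3) k) (S : Matrix (Fin 3) (Fin 3) k) :
    ∃ a b c : k, ∀ t : Fin 2 → k, ((ap P t).adjugate * S).trace =
      a * t 0 ^ 2 + b * t 0 * t 1 + c * t 1 ^ 2 := by
  refine ⟨((P 0).adjugate * S).trace,
    (((P 0 + P 1).adjugate - (P 0).adjugate - (P 1).adjugate) * S).trace, ((P 1).adjugate * S).trace, fun t => ?_⟩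
  rw [PKB_adj, add_mul, add_mul, smul_mul_assoc, smul_mul_assoc, smul_mul_assoc, trace_add, trace_add, trace_smul,
    trace_smul, trace_smul]
  simp only [smul_eq_mul]
  ring

private theorem PKB_sym (h2 : (2 : k) ≠ 0) {A : Matrix (Fin 3) (Fin 3) k} (hA : Aᵀ = A) (h : A ≠ 0) :
    ∃ S : Matrix (Fin 3) (Fin 3) k, Sᵀ = S ∧ (A * S).trace ≠ 0 := by
  by_contra hc
  push Not at hc
  apply h
  ext a b
  have h1 := hc (Matrix.single a b 1 + Matrix.single b a 1) (by
    rw [transpose_add, transpose_single, transpose_single, add_comm])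
  rw [mul_add, trace_add, trace_mul_comm A, trace_mul_comm A, trace_single_mul, trace_single_mul] at h1
  have h3 : A b a = A a b := congrFun (congrFun hA a) b
  rw [h3] at h1
  have h4 : 2 * A a b = 0 := by linear_combination h1
  exact (mul_eq_zero.1 h4).resolve_left h2

end

theorem pkb {k : Type*} [Field k] [IsAlgClosed k] (h2 : (2 : k) ≠ 0) (P : Fin 2 → Matrix (Fin 3) (Fin 3) k)
    (hP : ∀ j, (P j)ᵀ = P j) (h1 : ∃ t, (ap P t).det ≠ 0) (hadj : ∀ t, t ≠ 0 → (ap P t).adjugate ≠ 0)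
    (E : Fin 2 → Matrix (Fin 3) (Fin 3) k) (hE : ∀ j, (E j)ᵀ = E j)
    (hk : ∀ t, ((ap P t).adjugate * ap E t).trace = 0) :
    ∃ h : Matrix (Fin 3) (Fin 3) k, ∀ j, E j = hᵀ * P j + P j * h := by
  haveI : Infinite k := IsAlgClosed.instInfinite
  -- the matrices `adj M_t` are symmetric
  have hMs : ∀ t, ((ap P t).adjugate)ᵀ = (ap P t).adjugate := by
    intro t
    rw [adjugate_transpose, PKB_ap, transpose_add, transpose_smul, transpose_smul, hP, hP]
  -- two quadratic forms without common zero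
  obtain ⟨S1, hS1, hq1⟩ := PKB_sym h2 (hMs ![1, 0]) (hadj ![1, 0] (fun h => one_ne_zero (congrFun h 0)))
  obtain ⟨a1, b1, c1, hq⟩ := PKB_q P S1
  have hne : a1 ≠ 0 ∨ b1 ≠ 0 ∨ c1 ≠ 0 := by
    by_contra hc
    push Not at hc
    apply hq1
    rw [hq, hc.1, hc.2.1, hc.2.2]
    ring
  obtain ⟨α, β, γ, δ, hαβ, hγδ, e1, e2, e3⟩ := PKB_fact a1 b1 c1 hne
  have ht1 : (![β, -α] : Fin 2 → k) ≠ 0 := by
    intro h
    have h01 : β = 0 := congrFun h 0
    have h02 : -α = 0 := congrFun h 1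
    rcases hαβ with h3 | h3
    · exact h3 (neg_eq_zero.1 h02)
    · exact h3 h01
  have ht2 : (![δ, -γ] : Fin 2 → k) ≠ 0 := by
    intro h
    have h01 : δ = 0 := congrFun h 0
    have h02 : -γ = 0 := congrFun h 1
    rcases hγδ with h3 | h3
    · exact h3 (neg_eq_zero.1 h02)
    · exact h3 h01
  obtain ⟨S2, hS2, hz1, hz2⟩ : ∃ S : Matrix (Fin 3) (Fin 3) k, Sᵀ = S ∧
      ((ap P ![β, -α]).adjugate * S).trace ≠ 0 ∧ ((ap P ![δ, -γ]).adjugate * S).trace ≠ 0 := by
    obtain ⟨Sa, hSa, ha⟩ := PKB_sym h2 (hMs ![β, -α]) (hadj _ ht1)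
    obtain ⟨Sb, hSb, hb⟩ := PKB_sym h2 (hMs ![δ, -γ]) (hadj _ ht2)
    by_cases ha' : ((ap P ![δ, -γ]).adjugate * Sa).trace = 0
    · by_cases hb' : ((ap P ![β, -α]).adjugate * Sb).trace = 0
      · refine ⟨Sa + Sb, by rw [transpose_add, hSa, hSb], ?_, ?_⟩
        · rw [mul_add, trace_add, hb', add_zero]; exact ha
        · rw [mul_add, trace_add, ha', zero_add]; exact hb
      · exact ⟨Sb, hSb, hb', hb⟩
    · exact ⟨Sa, hSa, ha, ha'⟩
  obtain ⟨a2, b2, c2, hr⟩ := PKB_q P S2
  have hz1' : a2 * β ^ 2 - b2 * β * α + c2 * α ^ 2 ≠ 0 := by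
    intro h
    apply hz1
    rw [hr]
    simp only [Matrix.cons_val_zero, Matrix.cons_val_one]
    linear_combination h
  have hz2' : a2 * δ ^ 2 - b2 * δ * γ + c2 * γ ^ 2 ≠ 0 := by
    intro h
    apply hz2
    rw [hr]
    simp only [Matrix.cons_val_zero, Matrix.cons_val_one]
    linear_combination h
  -- the map `Ψ`
  obtain ⟨Ψ, hΨ⟩ : ∃ Ψ : (Fin 2 → Fin 6 → k) →ₗ[k] ((Fin 2 → k) → k),
      ∀ e t, Ψ e t = ((ap P t).adjugate * ap (fun j => PKB_S (e j)) t).trace := by
    refine ⟨{ toFun := fun e t => ((ap P t).adjugate * ap (fun j => PKB_S (e j)) t).trace,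
              map_add' := ?_, map_smul' := ?_ }, fun e t => rfl⟩
    · intro e f
      funext t
      simp only [PKB_ap (fun j => PKB_S _), Pi.add_apply]
      rw [← trace_add, ← mul_add]
      congr 2
      change t 0 • PKB_S (e 0 + f 0) + t 1 • PKB_S (e 1 + f 1) = _
      rw [PKB_Sadd, PKB_Sadd, smul_add, smul_add]
      abel
    · intro c e
      funext t
      simp only [PKB_ap (fun j => PKB_S _), Pi.smul_apply, RingHom.id_apply]
      rw [← trace_smul, ← mul_smul_comm]
      congr 2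
      change t 0 • PKB_S (c • e 0) + t 1 • PKB_S (c • e 1) = _
      rw [PKB_Ssmul, PKB_Ssmul, smul_add, smul_comm c, smul_comm c]
  -- the rank of `Ψ` is at least 4
  have hrank : 4 ≤ Module.finrank k (LinearMap.range Ψ) := by
    obtain ⟨Θ, hΘ⟩ : ∃ Θ : (Fin 4 → k) →ₗ[k] (Fin 2 → Fin 6 → k),
        ∀ l, Θ l = ![l 0 • PKB_c S1 + l 2 • PKB_c S2, l 1 • PKB_c S1 + l 3 • PKB_c S2] := by
      refine ⟨{ toFun := fun l => ![l 0 • PKB_c S1 + l 2 • PKB_c S2, l 1 • PKB_c S1 + l 3 • PKB_c S2],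
                map_add' := ?_, map_smul' := ?_ }, fun l => rfl⟩
      · intro l l'
        ext i j
        fin_cases i <;> simp <;> ring
      · intro c l
        ext i j
        fin_cases i <;> simp <;> ring
    have hinj : Function.Injective (Ψ.rangeRestrict ∘ₗ Θ) := by
      rw [← LinearMap.ker_eq_bot, LinearMap.ker_eq_bot']
      intro l hl
      have hl' : Ψ (Θ l) = 0 := by
        have := congrArg Subtype.val hl
        simpa using this
      have hl2 : ∀ t : Fin 2 → k, (l 0 * t 0 + l 1 * t 1) * ((α * t 0 + β * t 1) * (γ * t 0 + δ * t 1)) +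
          (l 2 * t 0 + l 3 * t 1) * (a2 * t 0 ^ 2 + b2 * t 0 * t 1 + c2 * t 1 ^ 2) = 0 := by
        intro t
        have h3 := congrFun hl' t
        rw [hΨ, PKB_ap (fun j => PKB_S _), hΘ] at h3
        simp only [Matrix.cons_val_zero, Matrix.cons_val_one, Pi.zero_apply] at h3
        rw [PKB_Sadd, PKB_Sadd, PKB_Ssmul, PKB_Ssmul, PKB_Ssmul, PKB_Ssmul, PKB_Sc hS1, PKB_Sc hS2] at h3
        have h4 : t 0 • (l 0 • S1 + l 2 • S2) + t 1 • (l 1 • S1 + l 3 • S2) =
            (l 0 * t 0 + l 1 * t 1) • S1 + (l 2 * t 0 + l 3 * t 1) • S2 := by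
          simp only [smul_add, smul_smul, add_smul]
          rw [mul_comm (t 0), mul_comm (t 0), mul_comm (t 1), mul_comm (t 1)]
          abel
        rw [h4, mul_add, trace_add, mul_smul_comm, mul_smul_comm, trace_smul, trace_smul, hq, hr, e1, e2, e3] at h3
        simp only [smul_eq_mul] at h3
        linear_combination h3
      obtain ⟨l0, l1, l2, l3⟩ := PKB_indep _ _ _ _ _ _ _ _ _ _ _ hαβ hγδ hz1' hz2' hl2
      ext i
      fin_cases i
      · exact l0
      · exact l1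
      · exact l2
      · exact l3
    have h3 := LinearMap.finrank_le_finrank_of_injective hinj
    simpa using h3
  have hker : Module.finrank k (LinearMap.ker Ψ) ≤ 8 := by
    have h3 := LinearMap.finrank_range_add_finrank_ker Ψ
    have h4 : Module.finrank k (Fin 2 → Fin 6 → k) = 12 := by
      rw [Module.finrank_pi_fintype]
      simp
    omega
  -- the map `Φ`
  obtain ⟨Φ, hΦ⟩ : ∃ Φ : (Fin 8 → k) →ₗ[k] (Fin 2 → Fin 6 → k),
      ∀ v j, Φ v j = PKB_c ((PKB_T v)ᵀ * P j + P j * PKB_T v) := by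
    refine ⟨{ toFun := fun v j => PKB_c ((PKB_T v)ᵀ * P j + P j * PKB_T v),
              map_add' := ?_, map_smul' := ?_ }, fun v j => rfl⟩
    · intro v w
      funext j
      rw [Pi.add_apply, ← PKB_cadd, PKB_Tadd, transpose_add, add_mul, mul_add]
      congr 1
      abel
    · intro c v
      funext j
      rw [Pi.smul_apply, RingHom.id_apply, ← PKB_csmul, PKB_Tsmul, transpose_smul, smul_mul_assoc, mul_smul_comm,
        smul_add]
  have hsym : ∀ v j, ((PKB_T v)ᵀ * P j + P j * PKB_T v)ᵀ = (PKB_T v)ᵀ * P j + P j * PKB_T v := by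
    intro v j
    rw [transpose_add, transpose_mul, transpose_mul, transpose_transpose, hP, add_comm]
  have hΦi : Function.Injective Φ := by
    rw [← LinearMap.ker_eq_bot, LinearMap.ker_eq_bot']
    intro v hv
    apply PKB_T0
    refine pka h2 P hP h1 hadj _ fun j => ?_
    have h3 : Φ v j = 0 := by rw [hv]; rfl
    rw [hΦ] at h3
    rw [← PKB_Sc (hsym v j), h3]
    ext i l
    fin_cases i <;> fin_cases l <;> simp [PKB_S]
  have hΦr : LinearMap.range Φ ≤ LinearMap.ker Ψ := by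
    rintro _ ⟨v, rfl⟩
    rw [LinearMap.mem_ker]
    funext t
    rw [hΨ, Pi.zero_apply]
    have h3 : ap (fun j => PKB_S (Φ v j)) t = (PKB_T v)ᵀ * ap P t + ap P t * PKB_T v := by
      rw [PKB_ap, PKB_ap, hΦ, hΦ, PKB_Sc (hsym v 0), PKB_Sc (hsym v 1)]
      simp only [mul_add, add_mul, smul_add, mul_smul_comm, smul_mul_assoc]
      abel
    rw [h3, mul_add, trace_add, ← mul_assoc, trace_mul_comm, ← mul_assoc, mul_adjugate, smul_mul_assoc, one_mul,
      trace_smul, trace_transpose, PKB_Ttr, ← mul_assoc, adjugate_mul, smul_mul_assoc, one_mul, trace_smul, PKB_Ttr]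
    simp
  have heq : LinearMap.range Φ = LinearMap.ker Ψ := by
    refine Submodule.eq_of_le_of_finrank_le hΦr ?_
    rw [LinearMap.finrank_range_of_inj hΦi]
    simpa using hker
  have hEk : (fun j => PKB_c (E j)) ∈ LinearMap.ker Ψ := by
    rw [LinearMap.mem_ker]
    funext t
    rw [hΨ, Pi.zero_apply]
    have h3 : (fun j => PKB_S (PKB_c (E j))) = E := funext fun j => PKB_Sc (hE j)
    rw [h3]
    exact hk t
  rw [← heq] at hEk
  obtain ⟨v, hv⟩ := hEk
  refine ⟨PKB_T v, fun j => ?_⟩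
  have h3 := congrFun hv j
  rw [hΦ] at h3
  rw [← PKB_Sc (hsym v j), h3, PKB_Sc (hE j)]

end Pool.Agent.T1
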