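import Pool.Agent.T1.AWB
import Pool.Agent.T1.PKB
import Pool.Agent.T1.PCL

/-!
# T1 / KLM: the kernel lemma

Proof.  `pcl` with `U` the space of `3 × 3` matrices, `W = Fin 2 → Matrix`, `T0 h = (fun j => hᵀ * M 0 j + M 0 j * h)`, `T1 h` with `M 1 j`, `E0 = E 0`,
`E1 = E 1`.  For `s = (a, b) ≠ 0` put `P j = aw M s (Pi.single j 1) = a • M 0 j + b • M 1 j`; `ap P t = aw M s t` (`aw_ap`), so `pka` gives the injectivity of
`a • T0 + b • T1`, and `pkb` (with `aw E s (Pi.single j 1)`) the hypothesis `hE`.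
-/

namespace Pool.Agent.T1

open MvPolynomial Matrix

private def klmT {k : Type*} [Field k] (N : Fin 2 → Matrix (Fin 3) (Fin 3) k) :
    Matrix (Fin 3) (Fin 3) k →ₗ[k] (Fin 2 → Matrix (Fin 3) (Fin 3) k) where
  toFun h := fun j => hᵀ * N j + N j * h
  map_add' h h' := by
    funext j
    simp only [Pi.add_apply, transpose_add, Matrix.add_mul, Matrix.mul_add]
    abel
  map_smul' c h := by
    funext j
    simp only [Pi.smul_apply, transpose_smul, Matrix.smul_mul, Matrix.mul_smul, smul_add, RingHom.id_apply]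

private theorem klm_aw {k : Type*} [Field k] (M : Web k) (a b : k) (j : Fin 2) :
    aw M ![a, b] (Pi.single j 1) = a • M 0 j + b • M 1 j := by
  have h1 : (![a, b] : Fin 2 → k) = a • Pi.single 0 1 + b • Pi.single 1 1 := by
    funext i
    fin_cases i <;> simp
  rw [h1, aw_add_l, aw_smul_l, aw_smul_l, aw_single, aw_single]

private theorem klm_inj {k : Type*} [Field k] [IsAlgClosed k] (h2 : (2 : k) ≠ 0) (M : Web k)
    (hs : Sy M) (h1 : H1 M) (h2' : H2 M) (s : Fin 2 → k) (hs0 : s ≠ 0)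
    (h : Matrix (Fin 3) (Fin 3) k)
    (hh : ∀ j, hᵀ * aw M s (Pi.single j 1) + aw M s (Pi.single j 1) * h = 0) : h = 0 := by
  refine pka h2 (fun j => aw M s (Pi.single j 1)) (fun j => aw_symm hs _ _) ?_ ?_ h hh
  · obtain ⟨t, ht⟩ := h1 s hs0
    rw [aw_ap] at ht
    exact ⟨t, ht⟩
  · intro t ht
    have h3 := h2' s t hs0 ht
    rw [aw_ap] at h3
    exact h3

private theorem klm_ne {k : Type*} [Field k] {a b : k} (h : a ≠ 0 ∨ b ≠ 0) :
    (![a, b] : Fin 2 → k) ≠ 0 := by
  intro h0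
  have h1 : a = 0 := congrFun h0 0
  have h2 : b = 0 := congrFun h0 1
  rcases h with h | h
  · exact h h1
  · exact h h2

theorem klm {k : Type*} [Field k] [IsAlgClosed k] (h2 : (2 : k) ≠ 0) (M : Web k) (hs : Sy M) (h1 : H1 M)
    (h2' : H2 M) (E : Web k) (hE : Sy E) (hk : ∀ s t, ((aw M s t).adjugate * aw E s t).trace = 0) :
    ∃ h : Matrix (Fin 3) (Fin 3) k, ∀ i j, E i j = hᵀ * M i j + M i j * h := by
  suffices hkey : ∃ u, klmT (M 0) u = E 0 ∧ klmT (M 1) u = E 1 by
    obtain ⟨u, hu0, hu1⟩ := hkey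
    refine ⟨u, fun i j => ?_⟩
    fin_cases i
    · exact (congrFun hu0 j).symm
    · exact (congrFun hu1 j).symm
  refine pcl (klmT (M 0)) (klmT (M 1)) ?_ (E 0) (E 1) ?_
  · intro a b hab
    rw [injective_iff_map_eq_zero]
    intro h hh
    refine klm_inj h2 M hs h1 h2' _ (klm_ne hab) h fun j => ?_
    rw [klm_aw]
    have h3 := congrFun hh j
    have h4 : a • (hᵀ * M 0 j + M 0 j * h) + b • (hᵀ * M 1 j + M 1 j * h) = 0 := h3
    rw [← h4]
    simp only [Matrix.mul_add, Matrix.add_mul, Matrix.smul_mul, Matrix.mul_smul, smul_add]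
    abel
  · intro a b hab
    obtain ⟨h, hh⟩ := pkb h2 (fun j => aw M ![a, b] (Pi.single j 1)) (fun j => aw_symm hs _ _) (by
        obtain ⟨t, ht⟩ := h1 _ (klm_ne hab)
        rw [aw_ap] at ht
        exact ⟨t, ht⟩) (by
        intro t ht
        have h3 := h2' _ t (klm_ne hab) ht
        rw [aw_ap] at h3
        exact h3) (fun j => aw E ![a, b] (Pi.single j 1)) (fun j => aw_symm hE _ _) (by
        intro t
        have h3 := hk ![a, b] t
        rw [aw_ap M, aw_ap E] at h3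
        exact h3)
    refine ⟨h, ?_⟩
    funext j
    have h3 := hh j
    simp only [klm_aw] at h3
    change a • (hᵀ * M 0 j + M 0 j * h) + b • (hᵀ * M 1 j + M 1 j * h) = a • E 0 j + b • E 1 j
    rw [h3]
    simp only [Matrix.mul_add, Matrix.add_mul, Matrix.smul_mul, Matrix.mul_smul, smul_add]
    abel

/-- the version at a fixed pencil: if moreover `E 0 j = 0` for all `j` then `E = 0` -/
theorem klm0 {k : Type*} [Field k] [IsAlgClosed k] (h2 : (2 : k) ≠ 0) (M : Web k) (hs : Sy M) (h1 : H1 M)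
    (h2' : H2 M) (E : Web k) (hE : Sy E) (hk : ∀ s t, ((aw M s t).adjugate * aw E s t).trace = 0)
    (h0 : ∀ j, E 0 j = 0) : E = 0 := by
  obtain ⟨h, hh⟩ := klm h2 M hs h1 h2' E hE hk
  have h3 : h = 0 := by
    refine klm_inj h2 M hs h1 h2' (Pi.single 0 1) ?_ h fun j => ?_
    · intro h4
      have h5 := congrFun h4 0
      simp at h5
    · rw [aw_single, ← hh 0 j, h0]
  funext i j
  rw [hh i j, h3]
  simp

end Pool.Agent.T1
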