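import Pool.Agent.T1.INT

/-!
# T1 / PRD: a smooth form of bidegree `(3, 3)` does not divide a product of two forms of bidegree `(2, 2)`

`hred`: if `D = F * G` with `F`, `G` of bidegrees `(m, n)`, `(3 - m, 3 - n)`, `m, n ≤ 3`, `(m, n) ≠ (0, 0), (3, 3)`, then `D` is not smooth: `m (3 - n) + n (3 - m) > 0`,
so by `int2` there is a common zero of `F` and `G`, where `D` and all derivatives (product rule) vanish.
`prd`: Suppose `a, b ≠ 0`.  `P := dh D` in the factorial ring `MvPolynomial (Fin 2) k`; `dh a`, `dh b ≠ 0` (`dh_inj`) have degrees `≤ 2` in both variables; `dh a * dh b = P * dh q`,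
`P ≠ 0`.  If `P` is irreducible it is prime and divides, say, `dh a`, so its degrees are `≤ 2` (`degreeOf_mul_eq`); by `dh_surj` there is `D'` of bidegree `(2, 3)` with
`dh D' = P = dh D`; then `D = X (inl 0) * D'` (`dh_inj`, `dh (X (inl 0)) = 1`), contradiction to `hred` with `(m, n) = (1, 0)`.  If `P` is a unit (a constant) the same argument applies.
If `P = f g` with `f`, `g` not units: let `m = degreeOf 0 f`, `n = degreeOf 1 f`; `degreeOf 0 g ≤ 3 - m`, `degreeOf 1 g ≤ 3 - n` (`dh_deg`, `degreeOf_mul_eq`);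
`F`, `G` from `dh_surj` of bidegrees `(m, n)`, `(3 - m, 3 - n)`: `D = F * G` (`dh_inj`).  `(m, n) ≠ (0, 0)` because `f` is not a constant, `(m, n) ≠ (3, 3)` because `g` is not constant.
-/

namespace Pool.Agent.T1

open MvPolynomial Matrix

theorem hred {k : Type*} [Field k] [IsAlgClosed k] (D F G : P4 k) (m n : ℕ) (hm : m ≤ 3) (hn : n ≤ 3)
    (h0 : ¬ (m = 0 ∧ n = 0)) (h3 : ¬ (m = 3 ∧ n = 3)) (hF : BH F m n) (hG : BH G (3 - m) (3 - n))
    (hD : D = F * G) : ¬ Smo D := by
  intro hS
  have hN : 0 < m * (3 - n) + (3 - m) * n := by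
    interval_cases m <;> interval_cases n <;> simp_all
  obtain ⟨s, t, hs, ht, hf, hg⟩ := int2 F G m n (3 - m) (3 - n) hF hG hN
  have h1 : eval (pt s t) D = 0 := by rw [hD, map_mul, hf, zero_mul]
  obtain ⟨i, hi⟩ := hS s t hs ht h1
  apply hi
  rw [hD, Derivation.leibniz, map_add, smul_eq_mul, smul_eq_mul, map_mul, map_mul, hf, hg]
  simp

private lemma prd_const {k : Type*} [Field k] (f : MvPolynomial (Fin 2) k) (h0 : degreeOf 0 f = 0)
    (h1 : degreeOf 1 f = 0) : f = C (coeff 0 f) := by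
  ext d
  rw [coeff_C]
  split_ifs with h
  · rw [← h]
  · by_contra hd
    have hs : d ∈ f.support := by rwa [mem_support_iff]
    apply h
    have a0 := monomial_le_degreeOf 0 hs
    have a1 := monomial_le_degreeOf 1 hs
    rw [h0] at a0
    rw [h1] at a1
    ext i
    fin_cases i
    · simpa using a0.antisymm (Nat.zero_le _) |>.symm
    · simpa using a1.antisymm (Nat.zero_le _) |>.symm

private lemma prd_unit {k : Type*} [Field k] (f : MvPolynomial (Fin 2) k) (hf : f ≠ 0)
    (h0 : degreeOf 0 f = 0) (h1 : degreeOf 1 f = 0) : IsUnit f := by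
  rw [prd_const f h0 h1]
  apply IsUnit.map
  rw [isUnit_iff_ne_zero]
  intro h
  apply hf
  rw [prd_const f h0 h1, h, C_0]

private lemma prd_low {k : Type*} [Field k] [IsAlgClosed k] (D : P4 k) (hD : BH D 3 3) (hS : Smo D)
    (h : degreeOf 0 (dh D) ≤ 2) : False := by
  obtain ⟨D', hD', e⟩ := dh_surj (dh D) 2 3 h (dh_deg hD).2
  have hX : BH (X (Sum.inl 0) : P4 k) 1 0 := by
    have := isWeightedHomogeneous_X k bw (Sum.inl 0)
    exact this
  have hXD : BH (X (Sum.inl 0) * D') 3 3 := by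
    have := hX.mul hD'
    exact this
  have e1 : dh (X (Sum.inl 0) * D') = dh D := by
    rw [map_mul, e]
    simp [dh]
  have e2 : D - X (Sum.inl 0) * D' = 0 := by
    apply dh_inj (hD.sub hXD)
    rw [map_sub, e1, sub_self]
  exact hred D (X (Sum.inl 0)) D' 1 0 (by norm_num) (by norm_num) (by norm_num) (by norm_num) hX hD'
    (sub_eq_zero.mp e2) hS

theorem prd {k : Type*} [Field k] [IsAlgClosed k] (D : P4 k) (hD : BH D 3 3) (hS : Smo D) (a b q : P4 k)
    (ha : BH a 2 2) (hb : BH b 2 2) (h : a * b = D * q) : a = 0 ∨ b = 0 := by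
  by_contra hab
  rw [not_or] at hab
  obtain ⟨ha0, hb0⟩ := hab
  have hP0 : dh D ≠ 0 := fun e => hS.ne_zero (dh_inj hD e)
  have ha1 : dh a ≠ 0 := fun e => ha0 (dh_inj ha e)
  have hb1 : dh b ≠ 0 := fun e => hb0 (dh_inj hb e)
  have hm : dh a * dh b = dh D * dh q := by rw [← map_mul, h, map_mul]
  have key : ∀ c : P4 k, BH c 2 2 → dh c ≠ 0 → dh D ∣ dh c → False := by
    intro c hc hc0 hdvd
    obtain ⟨r, hr⟩ := hdvd
    have hr0 : r ≠ 0 := by
      rintro rfl
      rw [mul_zero] at hr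
      exact hc0 hr
    apply prd_low D hD hS
    have h1 := (dh_deg hc).1
    rw [hr, degreeOf_mul_eq hP0 hr0] at h1
    omega
  by_cases hI : Irreducible (dh D)
  · have hp : Prime (dh D) := hI.prime
    rcases hp.dvd_or_dvd (Dvd.intro _ hm.symm) with h1 | h1
    · exact key a ha ha1 h1
    · exact key b hb hb1 h1
  · by_cases hU : IsUnit (dh D)
    · exact key a ha ha1 hU.dvd
    · rw [irreducible_iff] at hI
      push Not at hI
      obtain ⟨f, g, hfg, hf, hg⟩ := hI hU
      have hf0 : f ≠ 0 := by rintro rfl; rw [zero_mul] at hfg; exact hP0 hfg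
      have hg0 : g ≠ 0 := by rintro rfl; rw [mul_zero] at hfg; exact hP0 hfg
      obtain ⟨d0, d1⟩ := dh_deg hD
      rw [hfg, degreeOf_mul_eq hf0 hg0] at d0
      rw [hfg, degreeOf_mul_eq hf0 hg0] at d1
      obtain ⟨F, hF, eF⟩ := dh_surj f (degreeOf 0 f) (degreeOf 1 f) le_rfl le_rfl
      obtain ⟨G, hG, eG⟩ := dh_surj g (3 - degreeOf 0 f) (3 - degreeOf 1 f) (by omega) (by omega)
      have hFG : BH (F * G) 3 3 := by
        have := hF.mul hG
        rwa [Nat.add_sub_cancel' (by omega), Nat.add_sub_cancel' (by omega)] at this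
      have e2 : D - F * G = 0 := by
        apply dh_inj (hD.sub hFG)
        rw [map_sub, map_mul, eF, eG, hfg, sub_self]
      refine hred D F G (degreeOf 0 f) (degreeOf 1 f) (by omega) (by omega) ?_ ?_ hF hG
        (sub_eq_zero.mp e2) hS
      · rintro ⟨z0, z1⟩
        exact hf (prd_unit f hf0 z0 z1)
      · rintro ⟨z0, z1⟩
        exact hg (prd_unit g hg0 (by omega) (by omega))

end Pool.Agent.T1
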