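import Pool.Agent.T1.CAA
import Pool.Agent.T1.PRD

/-!
# T1 / LAT: the optimal lattice

Matrices `A` over `P4 R`.  Let `ι : P4 R → P4 L` (`map (algebraMap R L)`, injective).  `PR A`: `A` symmetric, all entries of bidegree `(2, 2)`, `det A ≠ 0`, and all entries of
`adjugate A` are divisible by `D`.
`lag`: for vectors `y z : Fin 3 → R`: `A(y,y) A(z,z) - A(y,z)² = ∑ w a w b (adjugate A) a b`, `w = y × z`, (identity), so it is divisible by `D`.
`key`: if `PR A`, `π ∣ A(y, y)`: then `π ∣ A(y, z)` for all `z` (modulo `π`, in `P4 κ`: `- A(y,z)² = D * n`, `prd`; the kernel of `map φ` on `P4 R` consists of the multiples of `C π`).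
`key2`: if moreover `π ∤ A(z₀, z₀)` for some `z₀` then `π² ∣ A(y, y)`: `A(y,y) = π a'`, `π a' A(z₀,z₀) - A(y,z₀)² = D n`, `π² ∣ A(y,z₀)²`, so `π ∣ D n`, `π ∣ n` (`gau`; `π ∤ D` as `map φ D ≠ 0`), `n = π n'`,
`a' A(z₀,z₀) - π (..) = D n'`; modulo `π`: `prd` gives `a' ≡ 0`.
`dst` (descent), by strong induction on `n` with `¬ C (π ^ n) ∣ det A`: there are `g` over `L` with `det g ≠ 0`, `κ ≠ 0` in `L`, and `A'` with `PR A'`, `ι A' = κ • g (ι A) gᵀ`, and `π ∤ A'(z, z)` for all primitive `z`.
 - all entries divisible by `π`: `A = π A₁`; `det A = π³ det A₁`, `adjugate A = π² adjugate A₁` (so `D` divides it by `gau`: `D n = π² m`, `n = π² n'`).  Induction, `κ = π⁻¹ κ'`.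
 - otherwise some `π ∤ A(z₀, z₀)` (polarisation, `2` a unit: if `π` divides all `A(z,z)` it divides all `2 A a b`).  If `π ∤ A(z,z)` for all primitive `z`: done (`g = 1`).
 - otherwise there is a primitive `y` with `π ∣ A(y,y)`, so `π² ∣ A(y,y)`, `π ∣ A(y,z)`.  `prim_row`: `g₁` with first row `y`, `A₁ = g₁ A g₁ᵀ`; `A₂ := A₁` with the first row and column divided by `π` (the entry `(0,0)` by `π²`).  `ι A₂ = d (ι A₁) d`, `d = diag(π⁻¹, 1, 1)`;
   `det A₁ = π² det A₂`; `adjugate A₂` divisible by `D`: `π² adjugate A₂ = δ adjugate(A₁) δ`-type identity (`adjugate (d A₁ d)`, entries of `adjugate A₂` times `π²` are multiples of entries of `adjugate A₁`), `gau`.  Induction.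
`lat`: scale `M` to have entries in `R` (`M ↦ a • M`, `a` a common denominator; `c ↦ a³ c`): `M₀` over `R`, `ι (..)`.  `A₀ = (pm M₀).adjugate`: symmetric, `BH_adj`, `det A₀ = (dW M₀)²`, `adjugate A₀ = dW M₀ • pm M₀` (`Matrix.adjugate_adjugate`),
`dW M₀ = C c₀ * D` with `c₀ ∈ R` (`gau`-type: `c₀ ∈ L`, `c₀ D` integral and `D` primitive).  `dst`: `A'`, `g`, `κ`.  `adjugate (ι A') = κ² adj(g)ᵀ adjugate(ι A₀) adj(g) = κ² c₀ D • adj(g)ᵀ pm(M₀) adj(g) = D • pm Λ_L` with
`Λ_L := κ² c₀ • gw (adj g) M₀`.  Since `adjugate A' = D • N` with `N` over `P4 R` and `ι` injective, `N = ` integral: `Λ_L` comes from a web `Λ` over `R` (entries of `N` are `pb`s with coefficients in `R`: coefficients of `pm Λ_L = ι N`).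
`det A' = e D²`, `e := κ³ det(g)² c₀²`, `e ∈ R` (`gau`).  `D² adjugate(pm Λ) = adjugate (adjugate A') = det A' • A' = e D² A'`, so `adjugate (pm Λ) = e A'`; `D³ dW Λ = det (adjugate A') = e² D⁴`, `dW Λ = e² D`.
-/

namespace Pool.Agent.T1

open MvPolynomial Matrix

section LATgen

variable {S : Type*} [CommRing S]

private def LAT_B (A : Matrix (Fin 3) (Fin 3) S) (y z : Fin 3 → S) : S :=
  ∑ a, ∑ b, y a * z b * A a b

private lemma LAT_lag (A : Matrix (Fin 3) (Fin 3) S) (hA : Aᵀ = A) (y z : Fin 3 → S) (D : S)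
    (hD : ∀ a b, D ∣ A.adjugate a b) :
    D ∣ LAT_B A y y * LAT_B A z z - LAT_B A y z ^ 2 := by
  have h01 : A 1 0 = A 0 1 := congrFun (congrFun hA 0) 1
  have h02 : A 2 0 = A 0 2 := congrFun (congrFun hA 0) 2
  have h12 : A 2 1 = A 1 2 := congrFun (congrFun hA 1) 2
  have key : LAT_B A y y * LAT_B A z z - LAT_B A y z ^ 2 =
      LAT_B A.adjugate ![y 1 * z 2 - y 2 * z 1, y 2 * z 0 - y 0 * z 2, y 0 * z 1 - y 1 * z 0]
        ![y 1 * z 2 - y 2 * z 1, y 2 * z 0 - y 0 * z 2, y 0 * z 1 - y 1 * z 0] := by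
    simp only [LAT_B, Matrix.adjugate_fin_three, Fin.sum_univ_three, Matrix.of_apply,
      Matrix.cons_val', Matrix.cons_val_zero, Matrix.cons_val_one, Matrix.cons_val,
      h01, h02, h12]
    ring
  rw [key]
  exact Finset.dvd_sum fun a _ => Finset.dvd_sum fun b _ => Dvd.dvd.mul_left (hD a b) _

private lemma LAT_B_mul (g A : Matrix (Fin 3) (Fin 3) S) (a b : Fin 3) :
    (g * A * gᵀ) a b = LAT_B A (g a) (g b) := by
  simp only [LAT_B, Matrix.mul_apply, Matrix.transpose_apply, Fin.sum_univ_three]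
  ring

private lemma LAT_cong_symm (g A : Matrix (Fin 3) (Fin 3) S) (hA : Aᵀ = A) :
    (g * A * gᵀ)ᵀ = g * A * gᵀ := by
  rw [Matrix.transpose_mul, Matrix.transpose_mul, Matrix.transpose_transpose, hA, Matrix.mul_assoc]

private lemma LAT_cong_adj (g A : Matrix (Fin 3) (Fin 3) S) :
    (g * A * gᵀ).adjugate = g.adjugateᵀ * A.adjugate * g.adjugate := by
  have h := adj_gw gᵀ A
  rw [Matrix.transpose_transpose] at h
  rw [h, Matrix.adjugate_transpose, Matrix.transpose_transpose, Matrix.adjugate_transpose]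

private lemma LAT_dvd_mul3 (D : S) (P A Q : Matrix (Fin 3) (Fin 3) S) (h : ∀ a b, D ∣ A a b)
    (a b : Fin 3) : D ∣ (P * A * Q) a b := by
  rw [Matrix.mul_apply]
  refine Finset.dvd_sum fun c _ => Dvd.dvd.mul_right ?_ _
  rw [Matrix.mul_apply]
  exact Finset.dvd_sum fun d _ => Dvd.dvd.mul_left (h _ _) _

end LATgen

section LATR

variable {R : Type*} [CommRing R] [IsDomain R] [IsDiscreteValuationRing R]

private lemma LAT_unit (π : R) (hπ : Irreducible π) (x : R) : ¬ IsUnit x ↔ π ∣ x := by
  constructor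
  · intro h
    have h1 : x ∈ IsLocalRing.maximalIdeal R := (IsLocalRing.mem_maximalIdeal x).2 h
    rw [(IsDiscreteValuationRing.irreducible_iff_uniformizer π).1 hπ] at h1
    exact Ideal.mem_span_singleton.1 h1
  · intro h hx
    exact hπ.not_isUnit (isUnit_of_dvd_unit h hx)

private lemma LAT_ker {κ : Type*} [Field κ] (φ : R →+* κ) (hφ : ∀ x, φ x = 0 ↔ ¬ IsUnit x)
    (π : R) (hπ : Irreducible π) {σ : Type*} (f : MvPolynomial σ R) :
    map φ f = 0 ↔ C π ∣ f := by
  rw [C_dvd_iff_dvd_coeff, MvPolynomial.ext_iff]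
  constructor
  · intro h i
    have h1 := h i
    rw [coeff_map, coeff_zero, hφ] at h1
    exact (LAT_unit π hπ _).1 h1
  · intro h i
    rw [coeff_map, coeff_zero, hφ]
    exact (LAT_unit π hπ _).2 (h i)

private lemma LAT_C_ne {σ : Type*} {x : R} (hx : x ≠ 0) : (C x : MvPolynomial σ R) ≠ 0 := by
  intro h
  exact hx (C_injective σ R (by rw [h, C_0]))

private lemma LAT_BH_div {c : R} (hc : c ≠ 0) {f g : P4 R} {m n : ℕ} (hf : BH f m n)
    (h : f = C c * g) : BH g m n := by
  intro d hd
  apply hf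
  rw [h, coeff_C_mul]
  exact mul_ne_zero hc hd

private lemma LAT_BH_zero (m n : ℕ) : BH (0 : P4 R) m n := by
  intro d hd
  exact absurd (coeff_zero d) hd

private lemma LAT_BH_sum {ι : Type*} (s : Finset ι) (f : ι → P4 R) (m n : ℕ)
    (h : ∀ i ∈ s, BH (f i) m n) : BH (∑ i ∈ s, f i) m n := by
  classical
  induction s using Finset.induction_on with
  | empty => rw [Finset.sum_empty]; exact LAT_BH_zero m n
  | insert a s ha ih =>
    rw [Finset.sum_insert ha]
    exact (h a (Finset.mem_insert_self a s)).add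
      (ih fun i hi => h i (Finset.mem_insert_of_mem hi))

/-- the value of the form at constant vectors -/
private noncomputable def LAT_Q (A : Matrix (Fin 3) (Fin 3) (P4 R)) (y z : Fin 3 → R) : P4 R :=
  LAT_B A (fun a => C (y a)) (fun a => C (z a))

private lemma LAT_BH_Q {A : Matrix (Fin 3) (Fin 3) (P4 R)} (hb : ∀ a b, BH (A a b) 2 2)
    (y z : Fin 3 → R) : BH (LAT_Q A y z) 2 2 := by
  unfold LAT_Q LAT_B
  refine LAT_BH_sum _ _ _ _ fun a _ => LAT_BH_sum _ _ _ _ fun b _ => ?_
  rw [← C_mul]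
  exact (hb a b).C_mul _

private structure LAT_PR (D : P4 R) (A : Matrix (Fin 3) (Fin 3) (P4 R)) : Prop where
  sy : Aᵀ = A
  bh : ∀ a b, BH (A a b) 2 2
  dt : A.det ≠ 0
  ad : ∀ a b, D ∣ A.adjugate a b

private lemma LAT_key {κ : Type*} [Field κ] [IsAlgClosed κ] (φ : R →+* κ)
    (hφ : ∀ x, φ x = 0 ↔ ¬ IsUnit x) (π : R) (hπ : Irreducible π) (D : P4 R) (hD : BH D 3 3)
    (hS : Smo (map φ D)) (A : Matrix (Fin 3) (Fin 3) (P4 R)) (hA : LAT_PR D A) (y z : Fin 3 → R)
    (h : C π ∣ LAT_Q A y y) : C π ∣ LAT_Q A y z := by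
  obtain ⟨n, hn⟩ := LAT_lag A hA.sy (fun a => C (y a)) (fun a => C (z a)) D hA.ad
  change LAT_Q A y y * LAT_Q A z z - LAT_Q A y z ^ 2 = D * n at hn
  have h1 := (LAT_ker φ hφ π hπ _).2 h
  have h2 := congrArg (map φ) hn
  rw [map_sub, map_mul, map_mul, h1, zero_mul, zero_sub, map_pow] at h2
  have h3 : map φ (LAT_Q A y z) * map φ (LAT_Q A y z) = map φ D * (- map φ n) := by
    rw [mul_neg, ← h2]; ring
  have hb := (LAT_BH_Q hA.bh y z).map φ
  have h4 := prd (map φ D) (hD.map φ) hS _ _ _ hb hb h3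
  rw [or_self] at h4
  exact (LAT_ker φ hφ π hπ _).1 h4

private lemma LAT_key2 {κ : Type*} [Field κ] [IsAlgClosed κ] (φ : R →+* κ)
    (hφ : ∀ x, φ x = 0 ↔ ¬ IsUnit x) (π : R) (hπ : Irreducible π) (D : P4 R) (hD : BH D 3 3)
    (hS : Smo (map φ D)) (A : Matrix (Fin 3) (Fin 3) (P4 R)) (hA : LAT_PR D A) (y z : Fin 3 → R)
    (h : C π ∣ LAT_Q A y y) (hz : ¬ C π ∣ LAT_Q A z z) : C (π ^ 2) ∣ LAT_Q A y y := by
  obtain ⟨b', hb'⟩ := LAT_key φ hφ π hπ D hD hS A hA y z h
  obtain ⟨n, hn⟩ := LAT_lag A hA.sy (fun a => C (y a)) (fun a => C (z a)) D hA.ad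
  change LAT_Q A y y * LAT_Q A z z - LAT_Q A y z ^ 2 = D * n at hn
  obtain ⟨a', ha'⟩ := h
  have hDπ : ¬ C π ∣ D := by
    intro h0
    exact hS.ne_zero ((LAT_ker φ hφ π hπ _).2 h0)
  have h1 : C (π ^ 1) ∣ D * n := by
    rw [pow_one]
    refine ⟨a' * LAT_Q A z z - C π * b' ^ 2, ?_⟩
    rw [← hn, ha', hb']
    ring
  have h2 := gau π hπ 1 D n hDπ h1
  rw [pow_one] at h2
  obtain ⟨n', hn'⟩ := h2
  have h3 : a' * LAT_Q A z z - C π * b' ^ 2 = D * n' := by
    apply mul_left_cancel₀ (LAT_C_ne (σ := Fin 2 ⊕ Fin 2) hπ.ne_zero)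
    have h4 : C π * (D * n') = D * n := by rw [hn']; ring
    rw [h4, ← hn, ha', hb']
    ring
  have h4 := congrArg (map φ) h3
  have h5 : map φ (C π : P4 R) = 0 := by
    rw [map_C, (hφ π).2 hπ.not_isUnit, C_0]
  rw [map_sub, map_mul, map_mul, map_mul, h5, zero_mul, sub_zero] at h4
  have hba : BH a' 2 2 := LAT_BH_div hπ.ne_zero (LAT_BH_Q hA.bh y y) ha'
  rcases prd (map φ D) (hD.map φ) hS _ _ _ (hba.map φ) ((LAT_BH_Q hA.bh z z).map φ) h4 with h6 | h6
  · obtain ⟨a'', ha''⟩ := (LAT_ker φ hφ π hπ _).1 h6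
    refine ⟨a'', ?_⟩
    rw [ha', ha'', pow_two, C_mul, mul_assoc]
  · exact absurd ((LAT_ker φ hφ π hπ _).1 h6) hz

/-- cancellation of powers of `π` in a divisibility by `D` -/
private lemma LAT_cancel (π : R) (hπ : Irreducible π) (D : P4 R) (hDπ : ¬ C π ∣ D) (n : ℕ)
    (f : P4 R) (h : D ∣ C (π ^ n) * f) : D ∣ f := by
  obtain ⟨m, hm⟩ := h
  obtain ⟨m', hm'⟩ := gau π hπ n D m hDπ ⟨f, hm.symm⟩
  refine ⟨m', ?_⟩
  apply mul_left_cancel₀ (LAT_C_ne (σ := Fin 2 ⊕ Fin 2) (pow_ne_zero n hπ.ne_zero))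
  rw [hm, hm']
  ring

private def LAT_Rel (L : Type*) [Field L] [Algebra R L] (A A' : Matrix (Fin 3) (Fin 3) (P4 R)) :
    Prop :=
  ∃ (g : Matrix (Fin 3) (Fin 3) L) (k : L), g.det ≠ 0 ∧ k ≠ 0 ∧
    A'.map (MvPolynomial.map (algebraMap R L)) =
      (C k : P4 L) • (g.map C * A.map (MvPolynomial.map (algebraMap R L)) * (g.map C)ᵀ)

private lemma LAT_Rel_trans {L : Type*} [Field L] [Algebra R L]
    {A A' A'' : Matrix (Fin 3) (Fin 3) (P4 R)} (h : LAT_Rel L A A') (h' : LAT_Rel L A' A'') :
    LAT_Rel L A A'' := by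
  obtain ⟨g, k, hg, hk, e⟩ := h
  obtain ⟨g', k', hg', hk', e'⟩ := h'
  refine ⟨g' * g, k' * k, ?_, mul_ne_zero hk' hk, ?_⟩
  · rw [Matrix.det_mul]; exact mul_ne_zero hg' hg
  · rw [e', e, Matrix.map_mul, Matrix.transpose_mul, C_mul]
    simp only [Matrix.mul_smul, Matrix.smul_mul, smul_smul, Matrix.mul_assoc]

private lemma LAT_Rel_refl {L : Type*} [Field L] [Algebra R L]
    (A : Matrix (Fin 3) (Fin 3) (P4 R)) : LAT_Rel L A A := by
  refine ⟨1, 1, ?_, one_ne_zero, ?_⟩
  · rw [Matrix.det_one]; exact one_ne_zero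
  · rw [Matrix.map_one C C_0 C_1, C_1, one_smul, Matrix.one_mul, Matrix.transpose_one,
      Matrix.mul_one]

private lemma LAT_Rel_smul {L : Type*} [Field L] [Algebra R L] [IsFractionRing R L]
    (A A' : Matrix (Fin 3) (Fin 3) (P4 R)) (c : R) (hc : c ≠ 0) (h : A = (C c : P4 R) • A') :
    LAT_Rel L A A' := by
  have hc' : algebraMap R L c ≠ 0 := by
    intro h0
    exact hc (IsFractionRing.injective R L (by rw [h0, map_zero]))
  refine ⟨1, (algebraMap R L c)⁻¹, ?_, inv_ne_zero hc', ?_⟩
  · rw [Matrix.det_one]; exact one_ne_zero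
  · rw [Matrix.map_one C C_0 C_1, Matrix.one_mul, Matrix.transpose_one, Matrix.mul_one, h]
    ext1 a b
    simp only [Matrix.map_apply, Matrix.smul_apply, smul_eq_mul, map_mul, map_C]
    rw [← mul_assoc, ← C_mul, inv_mul_cancel₀ hc', C_1, one_mul]

private lemma LAT_Rel_left {L : Type*} [Field L] [Algebra R L] [IsFractionRing R L]
    (A : Matrix (Fin 3) (Fin 3) (P4 R)) (g : Matrix (Fin 3) (Fin 3) R) (hg : g.det ≠ 0) :
    LAT_Rel L A (g.map C * A * (g.map C)ᵀ) := by
  refine ⟨g.map (algebraMap R L), 1, ?_, one_ne_zero, ?_⟩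
  · intro h0
    apply hg
    apply IsFractionRing.injective R L
    rw [map_zero, ← h0, RingHom.map_det]
    rfl
  · rw [C_1, one_smul, Matrix.map_mul, Matrix.map_mul, Matrix.map_map, ← Matrix.transpose_map,
      Matrix.map_map, Matrix.map_map]
    have hcomp : (⇑(MvPolynomial.map (algebraMap R L)) ∘ ⇑(C : R →+* P4 R)) =
        ⇑(C : L →+* P4 L) ∘ ⇑(algebraMap R L) := by
      funext x
      simp
    rw [hcomp]
    rfl

private lemma LAT_Rel_right {L : Type*} [Field L] [Algebra R L] [IsFractionRing R L]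
    (A : Matrix (Fin 3) (Fin 3) (P4 R)) (d : Matrix (Fin 3) (Fin 3) R) (hd : d.det ≠ 0) :
    LAT_Rel L (d.map C * A * (d.map C)ᵀ) A := by
  set dL : Matrix (Fin 3) (Fin 3) L := d.map (algebraMap R L) with hdL
  have hdet : dL.det ≠ 0 := by
    intro h0
    apply hd
    apply IsFractionRing.injective R L
    rw [map_zero, ← h0, RingHom.map_det]
    rfl
  have hinv : dL⁻¹ * dL = 1 := Matrix.nonsing_inv_mul dL (isUnit_iff_ne_zero.2 hdet)
  refine ⟨dL⁻¹, 1, ?_, one_ne_zero, ?_⟩
  · intro h0
    have h1 := congrArg Matrix.det hinv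
    rw [Matrix.det_mul, h0, zero_mul, Matrix.det_one] at h1
    exact one_ne_zero h1.symm
  · have h1 : (d.map C * A * (d.map C)ᵀ).map (MvPolynomial.map (algebraMap R L)) =
        dL.map C * A.map (MvPolynomial.map (algebraMap R L)) * (dL.map C)ᵀ := by
      rw [Matrix.map_mul, Matrix.map_mul, Matrix.map_map, ← Matrix.transpose_map,
        Matrix.map_map, hdL, Matrix.map_map]
      have hcomp : (⇑(MvPolynomial.map (algebraMap R L)) ∘ ⇑(C : R →+* P4 R)) =
          ⇑(C : L →+* P4 L) ∘ ⇑(algebraMap R L) := by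
        funext x
        simp
      rw [hcomp]
      rfl
    have h2 : (dL⁻¹.map C : Matrix (Fin 3) (Fin 3) (P4 L)) * dL.map C = 1 := by
      rw [← Matrix.map_mul, hinv, Matrix.map_one C C_0 C_1]
    have h3 : ((dL.map C : Matrix (Fin 3) (Fin 3) (P4 L)))ᵀ * (dL⁻¹.map C)ᵀ = 1 := by
      rw [← Matrix.transpose_mul, h2, Matrix.transpose_one]
    rw [h1, C_1, one_smul]
    calc A.map (MvPolynomial.map (algebraMap R L))
        = (1 : Matrix (Fin 3) (Fin 3) (P4 L)) * A.map (MvPolynomial.map (algebraMap R L)) * 1 := by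
          rw [Matrix.one_mul, Matrix.mul_one]
      _ = (dL⁻¹.map C * dL.map C) * A.map (MvPolynomial.map (algebraMap R L)) *
            ((dL.map C)ᵀ * (dL⁻¹.map C)ᵀ) := by rw [h2, h3]
      _ = _ := by simp only [Matrix.mul_assoc]

private lemma LAT_dst {L : Type*} [Field L] [Algebra R L] [IsFractionRing R L]
    {κ : Type*} [Field κ] [IsAlgClosed κ] (φ : R →+* κ)
    (hφ : ∀ x, φ x = 0 ↔ ¬ IsUnit x) (π : R) (hπ : Irreducible π) (h2 : IsUnit (2 : R))
    (D : P4 R) (hD : BH D 3 3)
    (hS : Smo (map φ D)) (n : ℕ) : ∀ A : Matrix (Fin 3) (Fin 3) (P4 R), LAT_PR D A →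
      ¬ C (π ^ n) ∣ A.det → ∃ A', LAT_PR D A' ∧ LAT_Rel L A A' ∧
        ∀ z : Fin 3 → R, (∃ a, IsUnit (z a)) → ¬ C π ∣ LAT_Q A' z z := by
  have hDπ : ¬ C π ∣ D := by
    intro h0
    exact hS.ne_zero ((LAT_ker φ hφ π hπ _).2 h0)
  induction n with
  | zero =>
    intro A hA h
    exact absurd (by rw [pow_zero, C_1]; exact one_dvd _) h
  | succ n ih =>
    intro A hA h
    by_cases hall : ∀ a b, C π ∣ A a b
    · choose A1 hA1 using hall
      have hAA : A = (C π : P4 R) • Matrix.of A1 := by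
        ext1 a b
        rw [Matrix.smul_apply, Matrix.of_apply, smul_eq_mul, hA1]
      have hdet : A.det = C (π ^ 3) * (Matrix.of A1).det := by
        rw [hAA, Matrix.det_smul, Fintype.card_fin, C_pow]
      have hadj : A.adjugate = (C (π ^ 2) : P4 R) • (Matrix.of A1).adjugate := by
        rw [hAA, Matrix.adjugate_smul, Fintype.card_fin, C_pow]
      have hPR : LAT_PR D (Matrix.of A1) := by
        refine ⟨?_, ?_, ?_, ?_⟩
        · ext1 a b
          apply mul_left_cancel₀ (LAT_C_ne (σ := Fin 2 ⊕ Fin 2) hπ.ne_zero)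
          have h3 := congrFun (congrFun hA.sy a) b
          rw [Matrix.transpose_apply, hA1, hA1] at h3
          exact h3
        · intro a b
          exact LAT_BH_div hπ.ne_zero (hA.bh a b) (hA1 a b)
        · intro h0
          exact hA.dt (by rw [hdet, h0, mul_zero])
        · intro a b
          apply LAT_cancel π hπ D hDπ 2
          have h3 := hA.ad a b
          rw [hadj, Matrix.smul_apply, smul_eq_mul] at h3
          exact h3
      obtain ⟨A', hA', hR, hz⟩ := ih (Matrix.of A1) hPR (by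
        intro h0
        apply h
        obtain ⟨x, hx⟩ := h0
        refine ⟨C (π ^ 2) * x, ?_⟩
        rw [hdet, hx, C_pow, C_pow, C_pow, C_pow]
        ring)
      exact ⟨A', hA', LAT_Rel_trans (LAT_Rel_smul A _ π hπ.ne_zero hAA) hR, hz⟩
    · by_cases hprim : ∀ z : Fin 3 → R, (∃ a, IsUnit (z a)) → ¬ C π ∣ LAT_Q A z z
      · exact ⟨A, hA, LAT_Rel_refl A, hprim⟩
      · push Not at hprim
        obtain ⟨y, ⟨j, hj⟩, hy⟩ := hprim
        have hz0 : ∃ z : Fin 3 → R, ¬ C π ∣ LAT_Q A z z := by
          by_contra hcon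
          push Not at hcon
          apply hall
          have hdiag : ∀ a, C π ∣ A a a := by
            intro a
            have h3 := hcon (Pi.single a 1)
            have h4 : LAT_Q A (Pi.single a 1) (Pi.single a 1) = A a a := by
              unfold LAT_Q LAT_B
              rw [Finset.sum_eq_single a, Finset.sum_eq_single a]
              · simp
              · intro b _ hb; simp [hb]
              · intro hb; exact absurd (Finset.mem_univ a) hb
              · intro b _ hb; simp [hb]
              · intro hb; exact absurd (Finset.mem_univ a) hb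
            rwa [h4] at h3
          intro a b
          by_cases hab : a = b
          · rw [hab]; exact hdiag b
          · have h3 := hcon (Pi.single a 1 + Pi.single b 1)
            have hs := congrFun (congrFun hA.sy a) b
            rw [Matrix.transpose_apply] at hs
            have h4 : LAT_Q A (Pi.single a 1 + Pi.single b 1) (Pi.single a 1 + Pi.single b 1) =
                A a a + A b b + C 2 * A a b := by
              have h5 : ∀ u v : Fin 3 → P4 R, LAT_B A (u + v) (u + v) =
                  LAT_B A u u + LAT_B A v v + (LAT_B A u v + LAT_B A v u) := by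
                intro u v
                simp only [LAT_B, Pi.add_apply, Fin.sum_univ_three]
                ring
              have h6 : ∀ c d : Fin 3, LAT_B A (Pi.single c 1) (Pi.single d 1) = A c d := by
                intro c d
                unfold LAT_B
                rw [Finset.sum_eq_single c, Finset.sum_eq_single d]
                · simp
                · intro b _ hb; simp [hb]
                · intro hb; exact absurd (Finset.mem_univ d) hb
                · intro b _ hb; simp [hb]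
                · intro hb; exact absurd (Finset.mem_univ c) hb
              have h7 : (fun i => C ((Pi.single a 1 + Pi.single b 1 : Fin 3 → R) i) : Fin 3 → P4 R)
                  = Pi.single a 1 + Pi.single b 1 := by
                funext i
                simp only [Pi.add_apply, C_add, Pi.single_apply]
                congr 1 <;> split_ifs <;> simp
              unfold LAT_Q
              rw [h7, h5, h6, h6, h6, h6, hs, show (2 : R) = 1 + 1 by norm_num, C_add, C_1]
              ring
            rw [h4] at h3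
            have h8 : C π ∣ C 2 * A a b :=
              (dvd_add_right (dvd_add (hdiag a) (hdiag b))).1 h3
            have h9 : IsUnit (C 2 : P4 R) := h2.map C
            exact h9.dvd_mul_left.1 h8
        obtain ⟨z0, hz0⟩ := hz0
        have hy2 := LAT_key2 φ hφ π hπ D hD hS A hA y z0 hy hz0
        have hyz := fun z => LAT_key φ hφ π hπ D hD hS A hA y z hy
        obtain ⟨g, hg, hg0⟩ := prim_row y j hj
        have hg0' : g.det ≠ 0 := hg.ne_zero
        set A1 : Matrix (Fin 3) (Fin 3) (P4 R) := g.map C * A * (g.map C)ᵀ with hA1def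
        have hA1e : ∀ a b, A1 a b = LAT_Q A (g a) (g b) := by
          intro a b
          rw [hA1def, LAT_B_mul]
          rfl
        have hdet1 : A1.det = C (g.det ^ 2) * A.det := by
          rw [hA1def, Matrix.det_mul, Matrix.det_mul, Matrix.det_transpose, C_pow, RingHom.map_det]
          change (g.map C).det * A.det * (g.map C).det = (g.map C).det ^ 2 * A.det
          ring
        have hPR1 : LAT_PR D A1 := by
          refine ⟨LAT_cong_symm _ _ hA.sy, ?_, ?_, ?_⟩
          · intro a b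
            rw [hA1e]
            exact LAT_BH_Q hA.bh _ _
          · rw [hdet1]
            exact mul_ne_zero (LAT_C_ne (pow_ne_zero 2 hg0')) hA.dt
          · intro a b
            rw [hA1def, LAT_cong_adj]
            exact LAT_dvd_mul3 D _ _ _ hA.ad a b
        -- the new matrix
        set d : Matrix (Fin 3) (Fin 3) R := Matrix.diagonal ![π, 1, 1] with hd
        have hddet : d.det = π := by
          rw [hd, Matrix.det_diagonal, Fin.prod_univ_three]
          simp
        obtain ⟨x00, hx00⟩ := hy2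
        have hx0 : ∀ b, ∃ x, A1 0 b = C π * x := by
          intro b
          rw [hA1e, hg0]
          exact hyz (g b)
        choose x hx using hx0
        have hA100 : A1 0 0 = C (π ^ 2) * x00 := by
          rw [hA1e, hg0]; exact hx00
        have hs1 : ∀ a b, A1 b a = A1 a b := fun a b => congrFun (congrFun hPR1.sy a) b
        set A2 : Matrix (Fin 3) (Fin 3) (P4 R) :=
          !![x00, x 1, x 2; x 1, A1 1 1, A1 1 2; x 2, A1 2 1, A1 2 2] with hA2
        have hA12 : A1 = d.map C * A2 * (d.map C)ᵀ := by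
          have hdm : (d.map C : Matrix (Fin 3) (Fin 3) (P4 R)) =
              Matrix.diagonal ![C π, 1, 1] := by
            rw [hd, Matrix.diagonal_map C_0]
            congr 1
            funext i
            fin_cases i <;> simp
          rw [hdm, Matrix.diagonal_transpose]
          ext1 a b
          rw [Matrix.mul_diagonal, Matrix.diagonal_mul]
          have h01 := hx 1
          have h02 := hx 2
          have h10 := hs1 0 1
          have h20 := hs1 0 2
          fin_cases a <;> fin_cases b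
          · simp [hA2, hA100, pow_two]; ring
          · simp [hA2, h01]
          · simp [hA2, h02]
          · simp [hA2, h10, h01]; ring
          · simp [hA2]
          · simp [hA2]
          · simp [hA2, h20, h02]; ring
          · simp [hA2]
          · simp [hA2]
        have hdet2 : A1.det = C (π ^ 2) * A2.det := by
          rw [hA12, Matrix.det_mul, Matrix.det_mul, Matrix.det_transpose]
          have h3 : (d.map C : Matrix (Fin 3) (Fin 3) (P4 R)).det = C π := by
            rw [← hddet, RingHom.map_det]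
            rfl
          rw [h3, C_pow]
          ring
        have hadj2 : ∀ a b, ∃ m : ℕ, A1.adjugate a b = C (π ^ m) * A2.adjugate a b := by
          have hdm : (d.map C : Matrix (Fin 3) (Fin 3) (P4 R)).adjugate =
              Matrix.diagonal ![1, C π, C π] := by
            have h3 : (d.map C : Matrix (Fin 3) (Fin 3) (P4 R)) =
                Matrix.diagonal ![C π, 1, 1] := by
              rw [hd, Matrix.diagonal_map C_0]
              congr 1
              funext i
              fin_cases i <;> simp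
            rw [h3, Matrix.adjugate_fin_three]
            ext1 a b
            fin_cases a <;> fin_cases b <;> simp
          intro a b
          rw [hA12, LAT_cong_adj, hdm, Matrix.diagonal_transpose, Matrix.mul_diagonal,
            Matrix.diagonal_mul]
          have h4 : ∀ c : Fin 3, ∃ m : ℕ, (![1, C π, C π] : Fin 3 → P4 R) c = C (π ^ m) := by
            intro c
            fin_cases c
            · exact ⟨0, by simp⟩
            · exact ⟨1, by simp⟩
            · exact ⟨1, by simp⟩
          obtain ⟨m1, hm1⟩ := h4 a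
          obtain ⟨m2, hm2⟩ := h4 b
          refine ⟨m1 + m2, ?_⟩
          rw [hm1, hm2, pow_add, C_mul]
          ring
        have hPR2 : LAT_PR D A2 := by
          refine ⟨?_, ?_, ?_, ?_⟩
          · ext1 a b
            have h12 := hs1 1 2
            fin_cases a <;> fin_cases b <;> simp [hA2, h12]
          · have hb0 : BH x00 2 2 :=
              LAT_BH_div (pow_ne_zero 2 hπ.ne_zero) (hPR1.bh 0 0) hA100
            have hbx : ∀ b, BH (x b) 2 2 := fun b =>
              LAT_BH_div hπ.ne_zero (hPR1.bh 0 b) (hx b)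
            intro a b
            fin_cases a <;> fin_cases b
            · simpa [hA2] using hb0
            · simpa [hA2] using hbx 1
            · simpa [hA2] using hbx 2
            · simpa [hA2] using hbx 1
            · simpa [hA2] using hPR1.bh 1 1
            · simpa [hA2] using hPR1.bh 1 2
            · simpa [hA2] using hbx 2
            · simpa [hA2] using hPR1.bh 2 1
            · simpa [hA2] using hPR1.bh 2 2
          · intro h0
            exact hPR1.dt (by rw [hdet2, h0, mul_zero])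
          · intro a b
            obtain ⟨m, hm⟩ := hadj2 a b
            apply LAT_cancel π hπ D hDπ m
            rw [← hm]
            exact hPR1.ad a b
        obtain ⟨A', hA', hR, hz⟩ := ih A2 hPR2 (by
          rintro ⟨w, hw⟩
          apply h
          have h3 : C (π ^ (n + 1)) ∣ A1.det := by
            refine ⟨C π * w, ?_⟩
            rw [hdet2, hw, C_pow, C_pow, C_pow]
            ring
          rw [hdet1] at h3
          have h9 : IsUnit (C (g.det ^ 2) : P4 R) := (hg.pow 2).map C
          exact h9.dvd_mul_left.1 h3)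
        refine ⟨A', hA', ?_, hz⟩
        refine LAT_Rel_trans (LAT_Rel_left A g hg0') ?_
        rw [← hA1def]
        refine LAT_Rel_trans ?_ hR
        have h5 := LAT_Rel_right (L := L) A2 d (by rw [hddet]; exact hπ.ne_zero)
        rwa [← hA12] at h5

private lemma LAT_prim {L : Type*} [Field L] [Algebra R L] [IsFractionRing R L] (π : R)
    (hπ : Irreducible π) (G f : P4 R) (hG : ¬ C π ∣ G) (x : L)
    (h : C x * map (algebraMap R L) G = map (algebraMap R L) f) :
    ∃ r : R, algebraMap R L r = x ∧ f = C r * G := by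
  rw [C_dvd_iff_dvd_coeff] at hG
  push Not at hG
  obtain ⟨m, hm⟩ := hG
  have hu : IsUnit (coeff m G) := by
    by_contra hc
    exact hm ((LAT_unit π hπ _).1 hc)
  obtain ⟨u, hu⟩ := hu
  have h1 := congrArg (coeff m) h
  rw [coeff_C_mul, coeff_map, coeff_map] at h1
  have h2 : algebraMap R L (coeff m f * (↑u⁻¹ : R)) = x := by
    rw [map_mul, ← h1, ← hu, mul_assoc, ← map_mul, Units.mul_inv, map_one, mul_one]
  refine ⟨coeff m f * (↑u⁻¹ : R), h2, ?_⟩
  apply map_injective (algebraMap R L) (IsFractionRing.injective R L)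
  rw [map_mul, map_C, h2, h]

end LATR

theorem lat {R L κ : Type*} [CommRing R] [IsDomain R] [IsDiscreteValuationRing R] [Field L] [Algebra R L]
    [IsFractionRing R L] [Field κ] [IsAlgClosed κ] (φ : R →+* κ) (hφ : ∀ x, φ x = 0 ↔ ¬ IsUnit x)
    (π : R) (hπ : Irreducible π) (h2 : IsUnit (2 : R)) (D : P4 R) (hD : BH D 3 3) (hS : Smo (map φ D))
    (M : Web L) (hs : Sy M) (c : L) (hc : c ≠ 0) (hM : dW M = C c * map (algebraMap R L) D) :
    ∃ (h : Matrix (Fin 3) (Fin 3) L) (c' : L) (Λ : Web R) (e : R), h.det ≠ 0 ∧ c' ≠ 0 ∧ e ≠ 0 ∧ Sy Λ ∧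
      mapW (algebraMap R L) Λ = c' • gw h M ∧ dW Λ = C (e ^ 2) * D ∧
      (∀ a b, C e ∣ (pm Λ).adjugate a b) ∧
      ∀ z : Fin 3 → R, (∃ a, IsUnit (z a)) →
        ¬ C (e * π) ∣ ∑ a, ∑ b, C (z a * z b) * (pm Λ).adjugate a b := by
  have hinj : Function.Injective (algebraMap R L) := IsFractionRing.injective R L
  have hinjι : Function.Injective (map (algebraMap R L) : P4 R → P4 L) :=
    map_injective (algebraMap R L) hinj
  have hDπ : ¬ C π ∣ D := by
    intro h0
    exact hS.ne_zero ((LAT_ker φ hφ π hπ _).2 h0)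
  have hD0 : D ≠ 0 := by
    intro h0
    exact hDπ (by rw [h0]; exact dvd_zero _)
  have hD2π : ¬ C π ∣ D ^ 2 := by
    intro h0
    have h1 := (LAT_ker φ hφ π hπ _).2 h0
    rw [map_pow] at h1
    exact hS.ne_zero (pow_eq_zero_iff (two_ne_zero) |>.1 h1)
  -- common denominator
  obtain ⟨a, ha⟩ := IsLocalization.exist_integer_multiples_of_finite (nonZeroDivisors R)
    (fun p : Fin 2 × Fin 2 × Fin 3 × Fin 3 => M p.1 p.2.1 p.2.2.1 p.2.2.2)
  have ha0 : (a : R) ≠ 0 := nonZeroDivisors.ne_zero a.2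
  have haL : algebraMap R L a ≠ 0 := by
    intro h0
    exact ha0 (hinj (by rw [h0, map_zero]))
  have ha' : ∀ (i j : Fin 2) (x y : Fin 3), ∃ r : R,
      algebraMap R L r = algebraMap R L a * M i j x y := by
    intro i j x y
    obtain ⟨r, hr⟩ := ha (i, j, x, y)
    exact ⟨r, by rw [hr, Algebra.smul_def]⟩
  choose m0 hm0 using ha'
  set M0 : Web R := fun i j => Matrix.of (m0 i j) with hM0
  have hM0L : mapW (algebraMap R L) M0 = (algebraMap R L a) • M := by
    funext i j
    ext1 x y
    simp only [mapW, hM0, Matrix.map_apply, Matrix.of_apply, Pi.smul_apply, Matrix.smul_apply,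
      smul_eq_mul]
    exact hm0 i j x y
  have hs0 : Sy M0 := by
    intro i j
    ext1 x y
    apply hinj
    have h1 := congrFun (congrFun (hs i j) x) y
    rw [Matrix.transpose_apply] at h1
    simp only [hM0, Matrix.transpose_apply, Matrix.of_apply]
    rw [hm0, hm0, h1]
  have hdW0 : C ((algebraMap R L a) ^ 3 * c) * map (algebraMap R L) D =
      map (algebraMap R L) (dW M0) := by
    rw [map_dW, hM0L, dW_smul, hM, C_mul, mul_assoc]
  obtain ⟨c0, hc0, hdW⟩ := LAT_prim π hπ D (dW M0) hDπ _ hdW0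
  have hc00 : c0 ≠ 0 := by
    intro h0
    rw [h0, map_zero] at hc0
    exact mul_ne_zero (pow_ne_zero 3 haL) hc hc0.symm
  have hdW_ne : dW M0 ≠ 0 := by
    rw [hdW]; exact mul_ne_zero (LAT_C_ne hc00) hD0
  set A0 : Matrix (Fin 3) (Fin 3) (P4 R) := (pm M0).adjugate with hA0
  have hdet0 : A0.det = dW M0 ^ 2 := by
    rw [hA0, Matrix.det_adjugate, Fintype.card_fin]
    rfl
  have hadj0 : A0.adjugate = dW M0 • pm M0 := by
    rw [hA0, Matrix.adjugate_adjugate _ (by rw [Fintype.card_fin]; norm_num), Fintype.card_fin]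
    change (pm M0).det ^ 1 • pm M0 = _
    rw [pow_one]
    rfl
  have hPR0 : LAT_PR D A0 := by
    refine ⟨?_, ?_, ?_, ?_⟩
    · rw [hA0, Matrix.adjugate_transpose, pm_symm hs0]
    · intro x y
      exact BH_adj M0 x y
    · rw [hdet0]; exact pow_ne_zero 2 hdW_ne
    · intro x y
      rw [hadj0, Matrix.smul_apply, smul_eq_mul, hdW]
      exact ⟨C c0 * pm M0 x y, by ring⟩
  have hn : ∃ n : ℕ, ¬ C (π ^ n) ∣ A0.det := by
    obtain ⟨m, hm⟩ := MvPolynomial.ne_zero_iff.1 hPR0.dt
    obtain ⟨n, hn⟩ := IsDiscreteValuationRing.associated_pow_irreducible hm hπ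
    refine ⟨n + 1, ?_⟩
    rw [C_dvd_iff_dvd_coeff]
    intro h
    have h1 := (h m).trans hn.dvd
    have h3 := (pow_dvd_pow_iff hπ.ne_zero hπ.not_isUnit).1 h1
    omega
  obtain ⟨n, hn⟩ := hn
  obtain ⟨A', hA', ⟨g, k, hg, hk, hgk⟩, hz'⟩ :=
    LAT_dst (L := L) φ hφ π hπ h2 D hD hS n A0 hPR0 hn
  have hadjι : ∀ B : Matrix (Fin 3) (Fin 3) (P4 R),
      (B.map (map (algebraMap R L))).adjugate = B.adjugate.map (map (algebraMap R L)) := by
    intro B
    have h1 := RingHom.map_adjugate (map (algebraMap R L) : P4 R →+* P4 L) B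
    exact h1.symm
  have hdetι : ∀ B : Matrix (Fin 3) (Fin 3) (P4 R),
      (B.map (map (algebraMap R L))).det = map (algebraMap R L) B.det := by
    intro B
    have h1 := RingHom.map_det (map (algebraMap R L) : P4 R →+* P4 L) B
    exact h1.symm
  have hadjg : (g.map C : Matrix (Fin 3) (Fin 3) (P4 L)).adjugate = g.adjugate.map C := by
    have h1 := RingHom.map_adjugate (C : L →+* P4 L) g
    exact h1.symm
  have hdetg : (g.map C : Matrix (Fin 3) (Fin 3) (P4 L)).det = C g.det := by
    have h1 := RingHom.map_det (C : L →+* P4 L) g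
    exact h1.symm
  set c' : L := k ^ 2 * algebraMap R L c0 * algebraMap R L a with hc'
  have hc0L : algebraMap R L c0 ≠ 0 := by
    intro h0
    exact hc00 (hinj (by rw [h0, map_zero]))
  have hc'0 : c' ≠ 0 := mul_ne_zero (mul_ne_zero (pow_ne_zero 2 hk) hc0L) haL
  set ΛL : Web L := c' • gw g.adjugate M with hΛL
  -- the adjugate of `A'` over `L`
  have hadjA' : (A'.map (map (algebraMap R L))).adjugate =
      map (algebraMap R L) D • pm ΛL := by
    rw [hgk, Matrix.adjugate_smul, Fintype.card_fin, LAT_cong_adj, hadjι, hadj0, hadjg]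
    have h1 : (dW M0 • pm M0).map (map (algebraMap R L)) =
        (map (algebraMap R L) D) • ((C (algebraMap R L c0 * algebraMap R L a) : P4 L) • pm M) := by
      rw [hdW]
      ext1 x y
      have h5 := congrFun (congrFun (map_pm (algebraMap R L) M0) x) y
      rw [Matrix.map_apply, hM0L, pm_smul, Matrix.smul_apply, smul_eq_mul] at h5
      rw [Matrix.map_apply, Matrix.smul_apply, smul_eq_mul, map_mul, map_mul, map_C, h5,
        Matrix.smul_apply, Matrix.smul_apply, smul_eq_mul, smul_eq_mul, C_mul]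
      ring
    rw [h1, hΛL, pm_smul, pm_gw, hc', C_mul, C_mul, C_mul, C_pow]
    simp only [Matrix.mul_smul, Matrix.smul_mul, smul_smul]
    congr 1
    · ring
  have hN : ∀ x y, ∃ N, A'.adjugate x y = D * N := fun x y => hA'.ad x y
  choose N hN using hN
  have hιD0 : map (algebraMap R L) D ≠ 0 := by
    intro h0
    exact hD0 (hinjι (by rw [h0, map_zero]))
  have hNL : ∀ x y, map (algebraMap R L) (N x y) = pm ΛL x y := by
    intro x y
    have h1 := congrFun (congrFun hadjA' x) y
    rw [hadjι, Matrix.map_apply, hN, map_mul, Matrix.smul_apply, smul_eq_mul] at h1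
    exact mul_left_cancel₀ hιD0 h1
  set Λ : Web R := fun i j => Matrix.of fun x y =>
    coeff (Finsupp.single (Sum.inl i) 1 + Finsupp.single (Sum.inr j) 1) (N x y) with hΛ
  have hΛΛ : mapW (algebraMap R L) Λ = ΛL := by
    funext i j
    ext1 x y
    simp only [mapW, hΛ, Matrix.map_apply, Matrix.of_apply]
    rw [← coeff_map, hNL, pm_apply, pb_coeff, Matrix.of_apply]
  have hpmΛ : ∀ x y, pm Λ x y = N x y := by
    intro x y
    apply hinjι
    have h1 := congrFun (congrFun (map_pm (algebraMap R L) Λ) x) y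
    rw [Matrix.map_apply, hΛΛ] at h1
    rw [h1, hNL]
  have hadjA : A'.adjugate = D • pm Λ := by
    ext1 x y
    rw [Matrix.smul_apply, smul_eq_mul, hpmΛ, hN]
  -- the determinant of `A'`
  have hdetA' : C (k ^ 3 * g.det ^ 2 * (algebraMap R L c0) ^ 2) * map (algebraMap R L) (D ^ 2) =
      map (algebraMap R L) A'.det := by
    rw [← hdetι, hgk, Matrix.det_smul, Fintype.card_fin, Matrix.det_mul, Matrix.det_mul,
      Matrix.det_transpose, hdetι, hdet0, hdetg, hdW]
    simp only [map_pow, map_mul, map_C]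
    ring
  obtain ⟨e, he, hdetA⟩ := LAT_prim π hπ (D ^ 2) A'.det hD2π _ hdetA'
  have he0 : e ≠ 0 := by
    intro h0
    rw [h0, map_zero] at he
    exact mul_ne_zero (mul_ne_zero (pow_ne_zero 3 hk) (pow_ne_zero 2 hg))
      (pow_ne_zero 2 hc0L) he.symm
  have hadjΛ : (pm Λ).adjugate = (C e : P4 R) • A' := by
    have h1 : A'.adjugate.adjugate = A'.det • A' := by
      rw [Matrix.adjugate_adjugate _ (by rw [Fintype.card_fin]; norm_num), Fintype.card_fin]
      change A'.det ^ 1 • A' = _
      rw [pow_one]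
    rw [hadjA, Matrix.adjugate_smul, Fintype.card_fin, hdetA] at h1
    ext1 x y
    have h3 := congrFun (congrFun h1 x) y
    rw [Matrix.smul_apply, Matrix.smul_apply, smul_eq_mul, smul_eq_mul] at h3
    rw [Matrix.smul_apply, smul_eq_mul]
    apply mul_left_cancel₀ (pow_ne_zero 2 hD0)
    have h4 : D ^ 2 * (pm Λ).adjugate x y = C e * D ^ 2 * A' x y := h3
    rw [h4]
    ring
  have hdWΛ : dW Λ = C (e ^ 2) * D := by
    have h1 : A'.adjugate.det = A'.det ^ 2 := by
      rw [Matrix.det_adjugate, Fintype.card_fin]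
    rw [hadjA, Matrix.det_smul, Fintype.card_fin, hdetA] at h1
    change D ^ 3 * dW Λ = _ at h1
    apply mul_left_cancel₀ (pow_ne_zero 3 hD0)
    rw [h1, C_pow]
    ring
  refine ⟨g.adjugate, c', Λ, e, ?_, hc'0, he0, ?_, hΛΛ, hdWΛ, ?_, ?_⟩
  · rw [Matrix.det_adjugate, Fintype.card_fin]
    exact pow_ne_zero _ hg
  · have h1 : Sy ΛL := (hs.gw g.adjugate).smul c'
    rw [← hΛΛ] at h1
    intro i j
    ext1 x y
    apply hinj
    have h3 := congrFun (congrFun (h1 i j) x) y
    exact h3
  · intro x y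
    rw [hadjΛ, Matrix.smul_apply, smul_eq_mul]
    exact Dvd.intro _ rfl
  · intro z hz h
    apply hz' z hz
    have h1 : ∑ a, ∑ b, C (z a * z b) * (pm Λ).adjugate a b = C e * LAT_Q A' z z := by
      unfold LAT_Q LAT_B
      rw [hadjΛ, Finset.mul_sum]
      refine Finset.sum_congr rfl fun x _ => ?_
      rw [Finset.mul_sum]
      refine Finset.sum_congr rfl fun y _ => ?_
      rw [Matrix.smul_apply, smul_eq_mul, C_mul]
      ring
    rw [h1, C_mul] at h
    exact (mul_dvd_mul_iff_left (LAT_C_ne (σ := Fin 2 ⊕ Fin 2) he0)).1 h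

end Pool.Agent.T1
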