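import Pool.Agent.T1.MDC
import Pool.Agent.T1.SPU
import Pool.Agent.T1.DFB
import Pool.Agent.G4.HER

/-!
# T1 / LMQ: local models on `P¹ × P¹`

`mdc`: `g, c, u, l, d, F'`; all `d i` are units.  In `V` (`C` algebraically closed, `V` integrally closed / valuation subring: a square root of an element of `V` is in `V`): `e i ^ 2 = d i`, `e i` units, `I ^ 2 = -1`, `w = 1/2`.
They are fixed by inertia: `G4.her_fix` (`σ (e i ^ 2) = e i ^ 2`, valuation 1).  `spe` (`R = V`): `ψ`, `ψ'`.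
`φ := g * ψ` (mapped to `C`), `φ' := ψ' * g⁻¹`; `G := ls ψ F'`, `l' := ls ψ l`.  `ls φ Q = ls ψ (ls g Q) = C c⁻¹ * ls ψ (∑ d i X i ^ 2) = C c⁻¹ * qd`.
`Fx K V G`: `map_ls`, the entries of `ψ` are fixed (last part of `spe` with `φ₁ = algebraMap V C`, `φ₂ = σ ∘ algebraMap V C`), `Fx K V F'`.
Reduction: `CN (∑ d̄ i X i ^ 2) F̄'` and `CN.tr` with `ψ̄`, `ψ̄'`: `CN (ls ψ̄ (∑ ..)) (ls ψ̄ F̄') = CN qd Ḡ` (`c = u = 1`, `l = 0`, `map_qd`).
-/

namespace Pool.Agent.T1

open MvPolynomial Matrix NumberField IsDedekindDomain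

private theorem LMQ_sqrt {C : Type*} [Field C] [IsAlgClosed C] (V : ValuationSubring C) (x : V) :
    ∃ z : V, z ^ 2 = x := by
  obtain ⟨z, hz⟩ := IsAlgClosed.exists_pow_nat_eq (x : C) (n := 2) (by norm_num)
  have h1 : V.valuation z ≤ 1 := by
    have h2 : V.valuation z ^ 2 ≤ 1 := by
      rw [← map_pow, hz]
      exact V.valuation_le_one x
    exact (pow_le_one_iff (by norm_num)).1 h2
  refine ⟨⟨z, (V.valuation_le_one_iff z).1 h1⟩, ?_⟩
  exact Subtype.ext hz

private theorem LMQ_sum {R S : Type*} [CommRing R] [CommRing S] (φ : R →+* S)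
    (ψ : Matrix (Fin 4) (Fin 2 × Fin 2) R) (e d : Fin 4 → R) (he : ∀ i, e i ^ 2 = d i)
    (h3 : ls ψ (∑ i, MvPolynomial.C (e i ^ 2) * X i ^ 2) = qd R) :
    ls (ψ.map φ) (∑ i, MvPolynomial.C (φ (d i)) * X i ^ 2) = qd S := by
  rw [← map_qd φ, ← h3, map_ls]
  congr 1
  simp only [map_sum, map_mul, map_pow, map_C, map_X, ← he]

theorem lmq {K C : Type*} [Field K] [NumberField K] [Field C] [Algebra K C] [Algebra.IsAlgebraic K C]
    [IsAlgClosed C] (T : Finset (HeightOneSpectrum (𝓞 K))) (Q F : MvPolynomial (Fin 4) K)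
    (hQ : Q.IsHomogeneous 2) (hF : F.IsHomogeneous 3) (hd : (hs Q).det ≠ 0) (hT : GoodCO T Q F)
    (V : ValuationSubring C) (hV : ESH.GoodV T 3 V) :
    ∃ (φ : Matrix (Fin 4) (Fin 2 × Fin 2) C) (φ' : Matrix (Fin 2 × Fin 2) (Fin 4) C) (c u : C)
      (l : MvPolynomial (Fin 2 × Fin 2) C) (G : MvPolynomial (Fin 2 × Fin 2) V),
      φ * φ' = 1 ∧ φ' * φ = 1 ∧ c ≠ 0 ∧ u ≠ 0 ∧ G.IsHomogeneous 3 ∧
      ls φ (map (algebraMap K C) Q) = MvPolynomial.C c * qd C ∧
      map (algebraMap V C) G = MvPolynomial.C u * ls φ (map (algebraMap K C) F) + l * qd C ∧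
      CN (qd (IsLocalRing.ResidueField V)) (map (IsLocalRing.residue V) G) ∧ Fx K V G := by
  obtain ⟨g, c, u, l, d, F', hg, hc, hu, hFh, hQe, hFe, hCN, hun, -, hσd, hFx⟩ :=
    mdc T Q F hQ hF hT V hV
  have hdu := hun hd
  obtain ⟨h2, h2u⟩ := val_two (K := K) T V hV
  obtain ⟨w, hw⟩ := h2u.exists_right_inv
  obtain ⟨I, hI⟩ := LMQ_sqrt V (-1)
  choose e he using fun i => LMQ_sqrt V (d i)
  have heu : ∀ i, IsUnit (e i) := by
    intro i
    refine isUnit_of_mul_isUnit_left (y := e i) ?_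
    rw [← pow_two, he i]
    exact hdu i
  choose f hef using fun i => (heu i).exists_right_inv
  obtain ⟨ψ, ψ', h1, h1', h3, h4⟩ := spe w hw I hI e f hef
  have hC1 : ψ.map (algebraMap V C) * ψ'.map (algebraMap V C) = 1 := by
    rw [← Matrix.map_mul, h1, Matrix.map_one _ (map_zero _) (map_one _)]
  have hC2 : ψ'.map (algebraMap V C) * ψ.map (algebraMap V C) = 1 := by
    rw [← Matrix.map_mul, h1', Matrix.map_one _ (map_zero _) (map_one _)]
  have hR1 : ψ.map (IsLocalRing.residue V) * ψ'.map (IsLocalRing.residue V) = 1 := by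
    rw [← Matrix.map_mul, h1, Matrix.map_one _ (map_zero _) (map_one _)]
  have hR2 : ψ'.map (IsLocalRing.residue V) * ψ.map (IsLocalRing.residue V) = 1 := by
    rw [← Matrix.map_mul, h1', Matrix.map_one _ (map_zero _) (map_one _)]
  have hgu : IsUnit g.det := isUnit_iff_ne_zero.2 hg
  have hsum1 : ls (ψ.map (IsLocalRing.residue V))
      (∑ i, MvPolynomial.C (IsLocalRing.residue V (d i)) * X i ^ 2) = qd _ :=
    LMQ_sum (IsLocalRing.residue V) ψ e d he h3
  have hQd : ls (ψ.map (algebraMap V C)) (∑ i, MvPolynomial.C (d i : C) * X i ^ 2) = qd C :=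
    LMQ_sum (algebraMap V C) ψ e d he h3
  refine ⟨g * ψ.map (algebraMap V C), ψ'.map (algebraMap V C) * g⁻¹, c⁻¹, u,
    ls (ψ.map (algebraMap V C)) l, ls ψ F', ?_, ?_, inv_ne_zero hc, hu, ls_hom ψ hFh, ?_, ?_, ?_, ?_⟩
  · rw [Matrix.mul_assoc, ← Matrix.mul_assoc (ψ.map (algebraMap V C)), hC1, Matrix.one_mul,
      Matrix.mul_nonsing_inv _ hgu]
  · rw [Matrix.mul_assoc, ← Matrix.mul_assoc g⁻¹, Matrix.nonsing_inv_mul _ hgu, Matrix.one_mul, hC2]
  · have h5 : ls g (map (algebraMap K C) Q) =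
        MvPolynomial.C c⁻¹ * ∑ i, MvPolynomial.C (d i : C) * X i ^ 2 := by
      rw [hQe, ← mul_assoc, ← MvPolynomial.C_mul, inv_mul_cancel₀ hc, MvPolynomial.C_1, one_mul]
    rw [← ls_ls, h5, map_mul, ls_C, hQd]
  · rw [map_ls, hFe, map_add, map_mul, map_mul, ls_C, ls_ls, hQd]
  · have h5 := hCN.tr (ψ.map (IsLocalRing.residue V)) (ψ'.map (IsLocalRing.residue V)) hR2 hR1 1 1
      one_ne_zero one_ne_zero 0
    rw [hsum1, ← map_ls, MvPolynomial.C_1, one_mul, one_mul, zero_mul,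
      add_zero] at h5
    exact h5
  · intro σ hσ
    have hs : ∀ x : V, V.valuation ((x : C) ^ 2) = 1 → σ ((x : C) ^ 2) = (x : C) ^ 2 →
        algebraMap V C x = ((σ : C →+* C).comp (algebraMap V C)) x := by
      intro x hx hx'
      exact (G4.her_fix V h2 σ hσ (x : C) hx hx').symm
    have hI' : ((I : C)) ^ 2 = -1 := by
      have := congrArg (fun z : V => (z : C)) hI
      simpa using this
    have he' : ∀ i, ((e i : C)) ^ 2 = d i := by
      intro i
      have := congrArg (fun z : V => (z : C)) (he i)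
      simpa using this
    have h6 := h4 (algebraMap V C) ((σ : C →+* C).comp (algebraMap V C))
      (hs I (by rw [hI', Valuation.map_neg, map_one]) (by rw [hI', map_neg, map_one]))
      (fun i => hs (e i) (by rw [he' i]; exact (V.valuation_eq_one_iff (d i)).1 (hdu i))
        (by rw [he' i]; exact hσd σ hσ i))
    have h7 : (ψ.map (algebraMap V C)).map (σ : C →+* C) = ψ.map (algebraMap V C) := by
      ext i j
      exact (h6 i j).symm
    rw [map_ls, map_ls, h7, hFx σ hσ]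

end Pool.Agent.T1
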