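import Pool.Agent.T1.DefsN

/-!
# T1 / LSB: linear substitutions, Jacobian minors, second derivatives

Direct computations.  Compare `sb`, `lin` in `Pool/Agent/PQ` (`PQ/LNF.lean`, `PQ/TRF.lean`).  `ls_ls`, `map_ls`, `eval_ls`: compare on the variables (`MvPolynomial.algHom_ext`, `ringHom_ext`).
`ls_hom`: `IsHomogeneous.aeval` / `IsHomogeneous.sum`.  `pderiv_ls`: chain rule, induction on `F` (`MvPolynomial.induction_on`), or `MvPolynomial.derivation_ext` style.
`CS.cn`: over a field, if all minors vanish at `x`, `x i ≠ 0`, evaluate `X i ^ N ∈ span` at `x` (`Ideal.span_le`, the kernel of `eval x`).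
`CN.tr`: `Q₁ = c Q ∘ g`, `F₁ = u F ∘ g + l Q₁`; at `x ≠ 0` with `Q₁(x) = F₁(x) = 0`: `y := g x ≠ 0` (`g' y = x`), `Q(y) = F(y) = 0`.  Suppose all minors of `(Q₁, F₁)` vanish at `x`.  `d Q₁ (x) = c gᵀ dQ(y)`,
`dF₁ (x) = u gᵀ dF(y) + l(x) dQ₁(x)` (as `Q₁(x) = 0`), so the minors of `(gᵀ dQ(y), gᵀ dF(y))` vanish, i.e. `a i * b j = a j * b i` for `a = gᵀ α`, `b = gᵀ β`; multiply with `g'ᵀ`: the same for `α = g'ᵀ a`, `β = g'ᵀ b`: all minors at `y` vanish.
`hs_ls`: for monomials `X a * X b` and linear combinations; or `pderiv_ls` twice.  `hs_inj`: coefficients of `X i X j` (`i ≠ j`) is `hs Q i j`, coefficient of `X i ^ 2` is `hs Q i i / 2`; equivalently Euler: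
`2 Q = ∑ i j, C (hs Q i j) X i X j` for `Q` homogeneous of degree 2 (`IsHomogeneous` of degree 1 for the derivatives, `MvPolynomial.IsHomogeneous.sum_X_mul_pderiv` or via `PQ`).
-/

namespace Pool.Agent.T1

open MvPolynomial Matrix

section

variable {R S : Type*} [CommRing R] [CommRing S] {ι κ μ : Type*} [Fintype ι] [Fintype κ] [Fintype μ]
  [DecidableEq ι] [DecidableEq κ] [DecidableEq μ]

theorem ls_X (g : Matrix ι κ R) (i : ι) : ls g (X i) = ∑ j, C (g i j) * X j := by
  simp [ls]

theorem ls_C (g : Matrix ι κ R) (c : R) : ls g (C c) = C c := by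
  rw [ls, aeval_C, MvPolynomial.algebraMap_eq]

theorem ls_ls (g : Matrix ι κ R) (h : Matrix κ μ R) (F : MvPolynomial ι R) :
    ls h (ls g F) = ls (g * h) F := by
  induction F using MvPolynomial.induction_on with
  | C a => rw [ls_C, ls_C, ls_C]
  | add f g hf hg => rw [map_add, map_add, map_add, hf, hg]
  | mul_X f i hf =>
    rw [map_mul, map_mul, map_mul, hf]
    congr 1
    rw [ls_X, ls_X, map_sum]
    simp only [map_mul, ls_C, ls_X, Finset.mul_sum, Matrix.mul_apply, map_sum, Finset.sum_mul]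
    rw [Finset.sum_comm]
    refine Finset.sum_congr rfl fun k _ => Finset.sum_congr rfl fun j _ => ?_
    ring

theorem ls_one (F : MvPolynomial ι R) : ls (1 : Matrix ι ι R) F = F := by
  induction F using MvPolynomial.induction_on with
  | C a => rw [ls_C]
  | add f g hf hg => rw [map_add, hf, hg]
  | mul_X f i hf =>
    rw [map_mul, hf, ls_X]
    congr 1
    rw [Finset.sum_eq_single i]
    · simp
    · intro j _ hj
      rw [Matrix.one_apply_ne hj.symm, C_0, zero_mul]
    · intro h; exact absurd (Finset.mem_univ _) h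

theorem eval_ls (g : Matrix ι κ R) (F : MvPolynomial ι R) (x : κ → R) :
    eval x (ls g F) = eval (g *ᵥ x) F := by
  induction F using MvPolynomial.induction_on with
  | C a => rw [ls_C, eval_C, eval_C]
  | add f g hf hg => rw [map_add, map_add, map_add, hf, hg]
  | mul_X f i hf =>
    rw [map_mul, map_mul, map_mul, hf, ls_X]
    congr 1
    simp [Matrix.mulVec, dotProduct]

theorem map_ls (f : R →+* S) (g : Matrix ι κ R) (F : MvPolynomial ι R) :
    map f (ls g F) = ls (g.map f) (map f F) := by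
  induction F using MvPolynomial.induction_on with
  | C a => rw [ls_C, map_C, map_C, ls_C]
  | add f g hf hg => rw [map_add, map_add, map_add, map_add, hf, hg]
  | mul_X f i hf =>
    rw [map_mul, map_mul, map_mul, map_mul, hf, ls_X, map_X, ls_X]
    congr 1
    simp

theorem ls_hom (g : Matrix ι κ R) {F : MvPolynomial ι R} {n : ℕ} (hF : F.IsHomogeneous n) :
    (ls g F).IsHomogeneous n := by
  have h1 : ∀ i, (∑ j, C (g i j) * X j : MvPolynomial κ R).IsHomogeneous 1 := fun i =>
    IsHomogeneous.sum _ _ _ fun j _ => isHomogeneous_C_mul_X _ _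
  have := hF.aeval (fun i => ∑ j, C (g i j) * X j : ι → MvPolynomial κ R) (n := 1) h1
  rwa [one_mul] at this

theorem eval₂_ls (f : R →+* S) (g : Matrix ι κ R) (F : MvPolynomial ι R) (x : κ → S) :
    eval₂ f x (ls g F) = eval₂ f (g.map f *ᵥ x) F := by
  rw [← eval_map, map_ls, eval_ls, eval_map]

theorem pderiv_ls (g : Matrix ι κ R) (j : κ) (F : MvPolynomial ι R) :
    pderiv j (ls g F) = ∑ i, C (g i j) * ls g (pderiv i F) := by
  induction F using MvPolynomial.induction_on with
  | C a => simp [ls_C]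
  | add f g hf hg => simp only [map_add, hf, hg, mul_add, Finset.sum_add_distrib]
  | mul_X f i hf =>
    have h1 : pderiv j (∑ k, C (g i k) * X k : MvPolynomial κ R) = C (g i j) := by
      rw [map_sum, Finset.sum_eq_single j]
      · rw [pderiv_C_mul, pderiv_X_self, mul_one]
      · intro k _ hk
        rw [pderiv_C_mul, pderiv_X_of_ne hk, mul_zero]
      · intro h; exact absurd (Finset.mem_univ _) h
    rw [map_mul, ls_X, Derivation.leibniz, h1, smul_eq_mul, smul_eq_mul, hf]
    have h2 : ∀ l, C (g l j) * ls g (pderiv l (f * X i)) =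
        (if l = i then C (g i j) * ls g f else 0) +
          (∑ k, C (g i k) * X k) * (C (g l j) * ls g (pderiv l f)) := by
      intro l
      rw [Derivation.leibniz, smul_eq_mul, smul_eq_mul, map_add, map_mul, map_mul, ls_X, mul_add]
      split_ifs with hl
      · subst hl
        rw [pderiv_X_self, map_one]
        ring
      · rw [pderiv_X_of_ne (Ne.symm hl), map_zero]
        ring
    simp_rw [h2]
    rw [Finset.sum_add_distrib, Finset.sum_ite_eq' Finset.univ i, if_pos (Finset.mem_univ _),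
      ← Finset.mul_sum]
    ring

theorem map_jm (f : R →+* S) (Q F : MvPolynomial ι R) (i j : ι) :
    map f (jm Q F i j) = jm (map f Q) (map f F) i j := by
  simp only [jm, map_sub, map_mul, pderiv_map]

theorem CS.map (f : R →+* S) {Q F : MvPolynomial ι R} (h : CS Q F) :
    CS (MvPolynomial.map f Q) (MvPolynomial.map f F) := by
  obtain ⟨N, hN⟩ := h
  refine ⟨N, fun i => ?_⟩
  have h1 := Ideal.mem_map_of_mem (MvPolynomial.map f) (hN i)
  rw [Ideal.map_span, map_pow, map_X] at h1
  refine Ideal.span_mono ?_ h1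
  rintro _ ⟨p, hp, rfl⟩
  rcases hp with hp | ⟨q, rfl⟩
  · rcases hp with rfl | hp
    · exact Or.inl (Or.inl rfl)
    · rw [Set.mem_singleton_iff] at hp
      subst hp
      exact Or.inl (Or.inr rfl)
  · exact Or.inr ⟨q, (map_jm f Q F q.1 q.2).symm⟩

theorem CS.cn {k : Type*} [Field k] {Q F : MvPolynomial ι k} (h : CS Q F) : CN Q F := by
  intro x hx hQ hF
  by_contra hc
  push Not at hc
  obtain ⟨N, hN⟩ := h
  apply hx
  funext i
  have hle : Ideal.span ({Q, F} ∪ Set.range fun p : ι × ι => jm Q F p.1 p.2) ≤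
      RingHom.ker (eval x) := by
    rw [Ideal.span_le]
    rintro p (hp | ⟨q, rfl⟩)
    · rcases hp with rfl | hp
      · exact hQ
      · rw [Set.mem_singleton_iff] at hp
        subst hp
        exact hF
    · exact hc q.1 q.2
  have h1 := hle (hN i)
  rw [RingHom.mem_ker, map_pow, eval_X] at h1
  exact eq_zero_of_pow_eq_zero h1

private theorem LSB_inv {k : Type*} [Field k] (g : Matrix ι κ k) (g' : Matrix κ ι k) (hg' : g * g' = 1)
    (α : ι → k) (i : ι) : ∑ m, (∑ l, α l * g l m) * g' m i = α i := by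
  have h1 : ∀ l, ∑ m, g l m * g' m i = (1 : Matrix ι ι k) l i := fun l => by
    rw [← hg', Matrix.mul_apply]
  simp_rw [Finset.sum_mul]
  rw [Finset.sum_comm]
  simp_rw [mul_assoc, ← Finset.mul_sum, h1]
  rw [Finset.sum_eq_single i]
  · rw [Matrix.one_apply_eq, mul_one]
  · intro l _ hl
    rw [Matrix.one_apply_ne hl, mul_zero]
  · intro h; exact absurd (Finset.mem_univ _) h

theorem CN.tr {k : Type*} [Field k] {Q F : MvPolynomial ι k} (h : CN Q F) (g : Matrix ι κ k)
    (g' : Matrix κ ι k) (hg : g' * g = 1) (hg' : g * g' = 1) (c u : k) (hc : c ≠ 0) (hu : u ≠ 0)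
    (l : MvPolynomial κ k) : CN (C c * ls g Q) (C u * ls g F + l * (C c * ls g Q)) := by
  intro x hx hQ hF
  have hQ0 := hQ
  rw [map_mul, eval_C, eval_ls] at hQ
  have hQy := (mul_eq_zero.1 hQ).resolve_left hc
  rw [map_add, map_mul, map_mul, hQ0, mul_zero, add_zero, eval_C, eval_ls] at hF
  have hFy := (mul_eq_zero.1 hF).resolve_left hu
  have hy : g *ᵥ x ≠ 0 := by
    intro h0
    apply hx
    rw [← Matrix.one_mulVec x, ← hg, ← Matrix.mulVec_mulVec, h0, Matrix.mulVec_zero]
  obtain ⟨i, j, hij⟩ := h _ hy hQy hFy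
  by_contra hcon
  push Not at hcon
  apply hij
  set y := g *ᵥ x with hydef
  set α : ι → k := fun i => eval y (pderiv i Q) with hα
  set β : ι → k := fun i => eval y (pderiv i F) with hβ
  have e1 : ∀ m, eval x (pderiv m (ls g Q)) = ∑ l, α l * g l m := fun m => by
    rw [pderiv_ls, map_sum]
    refine Finset.sum_congr rfl fun l _ => ?_
    rw [map_mul, eval_C, eval_ls, mul_comm]
  have e2 : ∀ m, eval x (pderiv m (ls g F)) = ∑ l, β l * g l m := fun m => by
    rw [pderiv_ls, map_sum]
    refine Finset.sum_congr rfl fun l _ => ?_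
    rw [map_mul, eval_C, eval_ls, mul_comm]
  have hQx : eval x (ls g Q) = 0 := by rw [eval_ls]; exact hQy
  have key : ∀ m n, (∑ l, α l * g l m) * (∑ l, β l * g l n) =
      (∑ l, α l * g l n) * (∑ l, β l * g l m) := by
    intro m n
    have h1 := hcon m n
    have hA : ∀ m, eval x (pderiv m (C c * ls g Q)) = c * ∑ l, α l * g l m := fun m => by
      rw [pderiv_C_mul, map_mul, eval_C, e1]
    have hB : ∀ m, eval x (pderiv m (C u * ls g F + l * (C c * ls g Q))) =
        u * (∑ l, β l * g l m) + eval x l * (c * ∑ l, α l * g l m) := fun m => by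
      rw [map_add, map_add, pderiv_C_mul, (eval x).map_mul, eval_C, e2, Derivation.leibniz,
        smul_eq_mul, smul_eq_mul, map_add, (eval x).map_mul, (eval x).map_mul, hA,
        (eval x).map_mul (C c), hQx]
      ring
    rw [jm, map_sub, (eval x).map_mul, (eval x).map_mul, hA, hA, hB, hB] at h1
    have h2 : c * u * ((∑ l, α l * g l m) * (∑ l, β l * g l n) -
      (∑ l, α l * g l n) * (∑ l, β l * g l m)) = 0 := by linear_combination h1
    have h3 := (mul_eq_zero.1 h2).resolve_left (mul_ne_zero hc hu)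
    exact sub_eq_zero.1 h3
  rw [jm, map_sub, map_mul, map_mul]
  change α i * β j - α j * β i = 0
  rw [← LSB_inv g g' hg' α i, ← LSB_inv g g' hg' β j, ← LSB_inv g g' hg' α j,
    ← LSB_inv g g' hg' β i, sub_eq_zero, Finset.sum_mul_sum, Finset.sum_mul_sum]
  rw [Finset.sum_comm (s := Finset.univ) (t := Finset.univ)
    (f := fun m n => (∑ l, α l * g l m) * g' m j * ((∑ l, β l * g l n) * g' n i))]
  refine Finset.sum_congr rfl fun m _ => Finset.sum_congr rfl fun n _ => ?_
  linear_combination (g' m i * g' n j) * key m n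

private theorem LSB_comm (i j : ι) (Q : MvPolynomial ι R) :
    pderiv i (pderiv j Q) = pderiv j (pderiv i Q) := by
  have h : ⁅(pderiv i : Derivation R (MvPolynomial ι R) (MvPolynomial ι R)),
      (pderiv j : Derivation R (MvPolynomial ι R) (MvPolynomial ι R))⁆ = 0 := by
    apply MvPolynomial.derivation_ext
    intro l
    rw [Derivation.commutator_apply, pderiv_X, pderiv_X]
    simp only [Pi.single_apply, Derivation.zero_apply]
    split_ifs <;> simp
  have h1 := congrArg (fun D => D Q) h
  simp only [Derivation.commutator_apply, Derivation.zero_apply] at h1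
  exact sub_eq_zero.1 h1

theorem hs_symm (Q : MvPolynomial ι R) : (hs Q)ᵀ = hs Q := by
  ext i j
  simp only [hs, Matrix.transpose_apply, Matrix.of_apply]
  rw [LSB_comm]

theorem map_hs (f : R →+* S) (Q : MvPolynomial ι R) : hs (map f Q) = (hs Q).map f := by
  ext i j
  simp only [hs, Matrix.map_apply, Matrix.of_apply, pderiv_map, constantCoeff_map]

theorem hs_smul (c : R) (Q : MvPolynomial ι R) : hs (C c * Q) = c • hs Q := by
  ext i j
  simp only [hs, Matrix.smul_apply, Matrix.of_apply, pderiv_C_mul, map_mul, constantCoeff_C,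
    smul_eq_mul]

private theorem LSB_cc (g : Matrix ι κ R) (P : MvPolynomial ι R) :
    constantCoeff (ls g P) = constantCoeff P := by
  have h := eval_ls g P 0
  rw [Matrix.mulVec_zero] at h
  simpa [MvPolynomial.eval_zero] using h

theorem hs_ls (g : Matrix ι κ R) {Q : MvPolynomial ι R} (hQ : Q.IsHomogeneous 2) :
    hs (ls g Q) = gᵀ * hs Q * g := by
  ext i j
  simp only [hs, Matrix.mul_apply, Matrix.of_apply, Matrix.transpose_apply]
  rw [pderiv_ls, map_sum, map_sum]
  refine Finset.sum_congr rfl fun l _ => ?_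
  rw [pderiv_C_mul, map_mul, constantCoeff_C, pderiv_ls, map_sum, mul_comm, Finset.sum_mul,
    Finset.sum_mul]
  refine Finset.sum_congr rfl fun m _ => ?_
  rw [map_mul, constantCoeff_C, LSB_cc]

theorem hs_diag (d : ι → R) :
    hs (∑ i, C (d i) * X i ^ 2 : MvPolynomial ι R) = Matrix.diagonal fun i => 2 * d i := by
  ext i j
  have h1 : pderiv j (∑ i, C (d i) * X i ^ 2 : MvPolynomial ι R) = C (2 * d j) * X j := by
    rw [map_sum, Finset.sum_eq_single j]
    · rw [pderiv_C_mul, pderiv_pow, pderiv_X_self, C_mul, map_ofNat]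
      simp
      ring
    · intro k _ hk
      rw [pderiv_C_mul, pderiv_pow, pderiv_X_of_ne hk]
      simp
    · intro h; exact absurd (Finset.mem_univ _) h
  simp only [hs, Matrix.of_apply]
  rw [h1, pderiv_C_mul, map_mul, constantCoeff_C]
  by_cases hij : i = j
  · subst hij
    rw [pderiv_X_self, Matrix.diagonal_apply_eq]
    simp
  · rw [pderiv_X_of_ne (Ne.symm hij), Matrix.diagonal_apply_ne _ hij]
    simp

theorem diag_hom (d : ι → R) : (∑ i, C (d i) * X i ^ 2 : MvPolynomial ι R).IsHomogeneous 2 := by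
  refine IsHomogeneous.sum _ _ _ fun i _ => ?_
  have := (isHomogeneous_C ι (d i)).mul ((isHomogeneous_X R i).pow 2)
  simpa using this

private theorem LSB_euler {Q : MvPolynomial ι R} (hQ : Q.IsHomogeneous 2) :
    C 2 * Q = ∑ i, X i * ∑ j, X j * C (hs Q j i) := by
  have h1 := hQ.sum_X_mul_pderiv
  have h2 : ∀ i, ∑ j, X j * pderiv j (pderiv i Q) = pderiv i Q := fun i => by
    have h3 : (pderiv i Q).IsHomogeneous 1 := hQ.pderiv
    have h4 := h3.sum_X_mul_pderiv
    rwa [one_smul] at h4
  have h5 : ∀ i j, pderiv j (pderiv i Q) = C (hs Q j i) := fun i j => by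
    have h3 : (pderiv i Q).IsHomogeneous 1 := hQ.pderiv
    have h4 : (pderiv j (pderiv i Q)).IsHomogeneous 0 := h3.pderiv
    have h6 := h4.totalDegree_le
    have h7 := (totalDegree_eq_zero_iff_eq_C).1 (Nat.le_zero.1 h6)
    rw [h7]
    simp only [hs, Matrix.of_apply]
    rfl
  have h8 : (C 2 * Q : MvPolynomial ι R) = 2 • Q := by
    rw [two_smul, map_ofNat]; ring
  rw [h8, ← h1]
  refine Finset.sum_congr rfl fun i _ => ?_
  congr 1
  rw [← h2 i]
  exact Finset.sum_congr rfl fun j _ => by rw [h5]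

theorem hs_inj (h2 : IsUnit (2 : R)) {Q Q' : MvPolynomial ι R} (hQ : Q.IsHomogeneous 2)
    (hQ' : Q'.IsHomogeneous 2) (h : hs Q = hs Q') : Q = Q' := by
  have h1 : (C 2 * Q : MvPolynomial ι R) = C 2 * Q' := by
    rw [LSB_euler hQ, LSB_euler hQ', h]
  exact (h2.map (C : R →+* MvPolynomial ι R)).mul_left_cancel h1

theorem qd_hom : (qd R).IsHomogeneous 2 :=
  ((isHomogeneous_X R _).mul (isHomogeneous_X R _)).sub
    ((isHomogeneous_X R _).mul (isHomogeneous_X R _))

theorem qc_hom : (qc R).IsHomogeneous 2 :=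
  ((isHomogeneous_X R _).mul (isHomogeneous_X R _)).sub (by simpa using (isHomogeneous_X R 1).pow 2)

theorem map_qd (f : R →+* S) : map f (qd R) = qd S := by
  simp [qd]

theorem map_qc (f : R →+* S) : map f (qc R) = qc S := by
  simp [qc]

/-- Cramer: invertible rectangular matrices of the same size -/
theorem mul_one_comm' (g : Matrix (Fin 4) (Fin 2 × Fin 2) R) (g' : Matrix (Fin 2 × Fin 2) (Fin 4) R)
    (h : g * g' = 1) : g' * g = 1 :=
  (Matrix.mul_eq_one_comm_of_card_eq _ _ _ (by simp)).1 h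

end

end Pool.Agent.T1
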