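import Pool.Agent.T1.DIQ
import Pool.Agent.T1.RKQ
import Pool.Agent.PQ.LNF
import Pool.Agent.ESH.CVU
import Pool.Agent.ST.Gauss

/-!
# T1 / MDC: diagonal models over the valuation rings of `C`

Compare `G4/MDX.lean` (copy and adapt).  `ESH.cvu_under`: `V` lies over a place `v` of `K`, `v ∉ T`.  `(6 : 𝓞 K) ∉ v.asIdeal`: otherwise (prime ideal, `6 = 2 * 3`) `2` or `3` is in `v.asIdeal`, which
contradicts `hV.res_char` (as in `MDX` for `2`).  `GoodCI` gives `g₀, c, u, l₀, Q₀, F₀` over `O := (v.valuation K).valuationSubring`, a valuation ring in which `2` is a unit.  `diq` for `Q₀` (homogeneous of degree 2: `map (algebraMap O K) Q₀` is, `ls_hom`,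
and `algebraMap O K` is injective): `g₁, d₀`.  `φ : O →+* V`; `g := (g₀ * g₁) mapped to C`, `d := φ ∘ d₀`, `F' := map φ (ls g₁ F₀)`; `l := ls g₁ l₀` mapped.  `ls_ls`, `map_ls`.
`CS Q₀ F₀` maps to the residue field of `V` (`CS.map`, `CS.cn`), and `CN.tr` with `g₁` mapped (its determinant is a unit; inverse matrix), `c = u = 1`, `l = 0`.
Units: if `(hs Q).det ≠ 0` then `(hs Q₀).det` is a unit, so by the last part of `diq` `16 * ∏ d₀ i` is a unit and all `d₀ i` are units.  If `(hs Q).det = 0` then (`map_hs`, `hs_smul`, `hs_ls`) `(hs Q₀).det = 0`, so `∏ d₀ i = 0`, so some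
`d₀ m = 0`, and for `i ≠ m` the image of `d i` in the residue field is not `0` by `rkq` (`ST.isAlgClosed_residueField V`), so `d i` is a unit.
Fixed by inertia: `algebraMap V C ∘ φ = algebraMap K C ∘ algebraMap O K`, and `σ ∘ algebraMap K C = algebraMap K C`.
-/

namespace Pool.Agent.T1

open MvPolynomial Matrix NumberField IsDedekindDomain

private lemma MDC_prime {K C : Type*} [Field K] [NumberField K] [Field C] [Algebra K C]
    {T : Finset (HeightOneSpectrum (𝓞 K))} {V : ValuationSubring C} (hV : ESH.GoodV T 3 V)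
    {v : HeightOneSpectrum (𝓞 K)} (hv : ESH.VOver V v) (p : ℕ) (hp : p.Prime) (hp3 : p ≤ 3) :
    ((p : ℕ) : 𝓞 K) ∉ v.asIdeal := by
  intro h
  rw [ESH.cvu_prime V v hv (p : 𝓞 K)] at h
  have h1 : V.valuation (algebraMap K C (((p : ℕ) : 𝓞 K) : K)) < 1 :=
    (ValuationSubring.mem_nonunits_iff V).mp h
  have h2 := hV.res_char p hp hp3
  have h3 : algebraMap K C (((p : ℕ) : 𝓞 K) : K) = ((p : ℕ) : C) := by
    have h4 : (((p : ℕ) : 𝓞 K) : K) = ((p : ℕ) : K) := map_natCast (algebraMap (𝓞 K) K) p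
    rw [h4, map_natCast]
  rw [h3, h2] at h1
  exact lt_irrefl _ h1

private lemma MDC_hom {R S : Type*} [CommRing R] [CommRing S] {f : R →+* S} (hf : Function.Injective f)
    {P : MvPolynomial (Fin 4) R} {n : ℕ} (h : (map f P).IsHomogeneous n) : P.IsHomogeneous n := by
  intro d hd
  apply h
  rw [coeff_map]
  intro h1
  exact hd (hf (by rw [h1, map_zero]))

theorem val_two {K C : Type*} [Field K] [NumberField K] [Field C] [Algebra K C]
    (T : Finset (HeightOneSpectrum (𝓞 K))) (V : ValuationSubring C) (hV : ESH.GoodV T 3 V) :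
    V.valuation (2 : C) = 1 ∧ IsUnit (2 : V) := by
  have h := hV.res_char 2 Nat.prime_two (by norm_num)
  rw [Nat.cast_ofNat] at h
  refine ⟨h, ?_⟩
  rw [ValuationSubring.valuation_eq_one_iff]
  exact h

private lemma MDC_map {R S : Type*} [CommRing R] [CommRing S] (f : R →+* S) (d : Fin 4 → R) :
    map f (∑ i, MvPolynomial.C (d i) * X i ^ 2 : MvPolynomial (Fin 4) R) =
      ∑ i, MvPolynomial.C (f (d i)) * X i ^ 2 := by
  simp only [map_sum, map_mul, map_pow, map_C, map_X]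

theorem mdc {K C : Type*} [Field K] [NumberField K] [Field C] [Algebra K C] [Algebra.IsAlgebraic K C]
    [IsAlgClosed C] (T : Finset (HeightOneSpectrum (𝓞 K))) (Q F : MvPolynomial (Fin 4) K)
    (hQ : Q.IsHomogeneous 2) (hF : F.IsHomogeneous 3) (hT : GoodCO T Q F) (V : ValuationSubring C)
    (hV : ESH.GoodV T 3 V) :
    ∃ (g : Matrix (Fin 4) (Fin 4) C) (c u : C) (l : MvPolynomial (Fin 4) C) (d : Fin 4 → V)
      (F' : MvPolynomial (Fin 4) V), g.det ≠ 0 ∧ c ≠ 0 ∧ u ≠ 0 ∧ F'.IsHomogeneous 3 ∧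
      (∑ i, MvPolynomial.C (d i : C) * X i ^ 2) = MvPolynomial.C c * ls g (map (algebraMap K C) Q) ∧
      map (algebraMap V C) F' = MvPolynomial.C u * ls g (map (algebraMap K C) F) +
        l * (∑ i, MvPolynomial.C (d i : C) * X i ^ 2) ∧
      CN (∑ i, MvPolynomial.C (IsLocalRing.residue V (d i)) * X i ^ 2) (map (IsLocalRing.residue V) F') ∧
      ((hs Q).det ≠ 0 → ∀ i, IsUnit (d i)) ∧
      ((hs Q).det = 0 → ∃ m, d m = 0 ∧ ∀ i, i ≠ m → IsUnit (d i)) ∧
      (∀ σ : C ≃ₐ[K] C, ESH.Inert V σ → ∀ i, σ (d i : C) = d i) ∧ Fx K V F' := by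
  obtain ⟨v, hv⟩ := ESH.cvu_under (K := K) V hV.ne_top
  have hvT : v ∉ T := fun h => hV.not_over v h hv
  have h2v : ((2 : ℕ) : 𝓞 K) ∉ v.asIdeal := MDC_prime hV hv 2 Nat.prime_two (by norm_num)
  have h3v : ((3 : ℕ) : 𝓞 K) ∉ v.asIdeal := MDC_prime hV hv 3 Nat.prime_three (by norm_num)
  have hv6 : (6 : 𝓞 K) ∉ v.asIdeal := by
    intro h
    have h6 : (6 : 𝓞 K) = ((2 : ℕ) : 𝓞 K) * ((3 : ℕ) : 𝓞 K) := by norm_num
    rw [h6] at h
    rcases v.isPrime.mem_or_mem h with h | h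
    · exact h2v h
    · exact h3v h
  obtain ⟨g₀, c, u, l₀, Q₀, F₀, hg₀, hc, hu, hl₀, hQ₀, hF₀, hCS, hdet⟩ := hT v hvT hv6
  obtain ⟨ι, hι⟩ : ∃ ι : (v.valuation K).valuationSubring →+* K,
    ι = algebraMap (v.valuation K).valuationSubring K := ⟨_, rfl⟩
  obtain ⟨ρ, hρ⟩ : ∃ ρ : K →+* C, ρ = algebraMap K C := ⟨_, rfl⟩
  have hιinj : Function.Injective ι := by
    rw [hι]
    exact Subtype.val_injective
  obtain ⟨φ, hφ⟩ : ∃ φ : (v.valuation K).valuationSubring →+* V, φ =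
      ((algebraMap K C).comp (v.valuation K).valuationSubring.subtype).codRestrict V.toSubring
        (fun x => (hv x).mpr x.2) := ⟨_, rfl⟩
  have hφρ : (algebraMap V C).comp φ = ρ.comp ι := by
    rw [hφ, hρ, hι]
    exact RingHom.ext fun x => rfl
  have hφρ' : ∀ x, ((φ x : V) : C) = ρ (ι x) := fun x => RingHom.congr_fun hφρ x
  have hσρ : ∀ (σ : C ≃ₐ[K] C) (x : K), σ (ρ x) = ρ x := by
    intro σ x
    rw [hρ]
    exact σ.commutes x
  rw [← hι] at hQ₀ hF₀
  rw [← hρ]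
  have h2O : IsUnit (2 : (v.valuation K).valuationSubring) := by
    have h2V := (val_two T V hV).1
    have hinv : (2 : K)⁻¹ ∈ (v.valuation K).valuationSubring := by
      have h5 : algebraMap K C (2 : K)⁻¹ ∈ V := by
        rw [map_inv₀, map_ofNat, ← ValuationSubring.valuation_le_one_iff, map_inv₀, h2V, inv_one]
      exact (hv _).mp h5
    have h2K : (2 : K) ≠ 0 := two_ne_zero
    refine IsUnit.of_mul_eq_one (⟨(2 : K)⁻¹, hinv⟩ : (v.valuation K).valuationSubring) ?_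
    apply Subtype.ext
    exact mul_inv_cancel₀ h2K
  have hQ₀h : Q₀.IsHomogeneous 2 := by
    apply MDC_hom hιinj
    rw [hQ₀]
    have := (isHomogeneous_C (Fin 4) c).mul (ls_hom g₀ hQ)
    rwa [zero_add] at this
  have hF₀h : F₀.IsHomogeneous 3 := by
    apply MDC_hom hιinj
    rw [hF₀]
    have h1 := (isHomogeneous_C (Fin 4) u).mul (ls_hom g₀ hF)
    have h2 := hl₀.mul ((isHomogeneous_C (Fin 4) c).mul (ls_hom g₀ hQ))
    rw [zero_add] at h1 h2
    exact h1.add h2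
  obtain ⟨g₁, d₀, hg₁, hd₀, hdd⟩ := diq h2O Q₀ hQ₀h
  have hK : (∑ i, MvPolynomial.C (ι (d₀ i)) * X i ^ 2 : MvPolynomial (Fin 4) K) =
      MvPolynomial.C c * ls (g₀ * g₁.map ι) Q := by
    rw [← MDC_map, ← hd₀, map_ls, hQ₀, map_mul, ls_C, ls_ls]
  have hKF : map ι (ls g₁ F₀) = MvPolynomial.C u * ls (g₀ * g₁.map ι) F +
      ls (g₁.map ι) l₀ * (∑ i, MvPolynomial.C (ι (d₀ i)) * X i ^ 2) := by
    rw [hK, map_ls, hF₀, map_add, map_mul, map_mul, map_mul, ls_C, ls_C, ls_ls, ls_ls]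
  have hC : (∑ i, MvPolynomial.C ((φ (d₀ i) : V) : C) * X i ^ 2 : MvPolynomial (Fin 4) C) =
      MvPolynomial.C (ρ c) * ls ((g₀ * g₁.map ι).map ρ) (map ρ Q) := by
    simp only [hφρ']
    rw [← MDC_map ρ, hK, map_mul, map_C, map_ls]
  have hCF : map (algebraMap V C) (map φ (ls g₁ F₀)) = map ρ (map ι (ls g₁ F₀)) := by
    rw [MvPolynomial.map_map, hφρ, ← MvPolynomial.map_map]
  have hFh : (map φ (ls g₁ F₀)).IsHomogeneous 3 := (ls_hom g₁ hF₀h).map φ
  have hCN : CN (∑ i, MvPolynomial.C (IsLocalRing.residue V (φ (d₀ i))) * X i ^ 2)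
      (map (IsLocalRing.residue V) (map φ (ls g₁ F₀))) := by
    have h1 := ((hCS.map φ).map (IsLocalRing.residue V)).cn
    obtain ⟨ψ, hψ⟩ : ∃ ψ : (v.valuation K).valuationSubring →+* IsLocalRing.ResidueField V,
      ψ = (IsLocalRing.residue V).comp φ := ⟨_, rfl⟩
    have hψx : ∀ x, IsLocalRing.residue V (φ x) = ψ x := fun x => by rw [hψ]; rfl
    rw [MvPolynomial.map_map, MvPolynomial.map_map, ← hψ] at h1
    rw [MvPolynomial.map_map, ← hψ]
    simp only [hψx]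
    obtain ⟨g₁', hg₁'⟩ : ∃ g₁', g₁' = (g₁⁻¹).map ψ := ⟨_, rfl⟩
    have e1 : g₁' * g₁.map ψ = 1 := by
      rw [hg₁', ← Matrix.map_mul, Matrix.nonsing_inv_mul _ hg₁]
      exact Matrix.map_one ψ (map_zero ψ) (map_one ψ)
    have e2 : g₁.map ψ * g₁' = 1 := by
      rw [hg₁', ← Matrix.map_mul, Matrix.mul_nonsing_inv _ hg₁]
      exact Matrix.map_one ψ (map_zero ψ) (map_one ψ)
    have h2 := h1.tr (g₁.map ψ) g₁' e1 e2 1 1 one_ne_zero one_ne_zero 0
    rw [zero_mul, add_zero, MvPolynomial.C_1, one_mul, one_mul, ← map_ls, ← map_ls, hd₀, MDC_map] at h2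
    exact h2
  have hι16 : IsUnit (16 : (v.valuation K).valuationSubring) := by
    have h16 : (16 : (v.valuation K).valuationSubring) = 2 ^ 4 := by norm_num
    rw [h16]
    exact h2O.pow 4
  refine ⟨(g₀ * g₁.map ι).map ρ, ρ c, ρ u, map ρ (ls (g₁.map ι) l₀), fun i => φ (d₀ i),
    map φ (ls g₁ F₀), ?_, ?_, ?_, hFh, hC, ?_, hCN, ?_, ?_, ?_, ?_⟩
  · have h1 : ((g₀ * g₁.map ι).map ρ).det = ρ (g₀.det * ι g₁.det) := by
      rw [← RingHom.mapMatrix_apply, ← RingHom.map_det, Matrix.det_mul, ← RingHom.mapMatrix_apply,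
        ← RingHom.map_det]
    rw [h1]
    exact (map_ne_zero ρ).mpr (mul_ne_zero hg₀ (hg₁.map ι).ne_zero)
  · exact (map_ne_zero ρ).mpr hc
  · exact (map_ne_zero ρ).mpr hu
  · rw [hCF, hKF, map_add, map_mul, map_mul, map_C, map_ls, MDC_map ρ]
    simp only [hφρ']
  · intro hQd i
    have h1 : IsUnit (hs Q₀).det := hdet.resolve_right hQd
    have h3 : IsUnit (16 * ∏ i, d₀ i) := by
      rw [← hdd]
      exact (hg₁.pow 2).mul h1
    have h4 : IsUnit (∏ i, d₀ i) := isUnit_of_mul_isUnit_right h3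
    exact (isUnit_of_dvd_unit (Finset.dvd_prod_of_mem d₀ (Finset.mem_univ i)) h4).map φ
  · intro hQd
    have h1 : (hs Q₀).det = 0 := by
      apply hιinj
      rw [map_zero, RingHom.map_det, RingHom.mapMatrix_apply, ← map_hs, hQ₀, hs_smul, Matrix.det_smul,
        hs_ls g₀ hQ, Matrix.det_mul, Matrix.det_mul, hQd]
      ring
    rw [h1, mul_zero] at hdd
    have h3 : ∏ i, d₀ i = 0 := by
      rcases mul_eq_zero.mp hdd.symm with h | h
      · exact absurd h hι16.ne_zero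
      · exact h
    obtain ⟨m, _, hm⟩ := Finset.prod_eq_zero_iff.mp h3
    refine ⟨m, ?_, fun i him => ?_⟩
    · show φ (d₀ m) = 0
      rw [hm, map_zero]
    have : IsAlgClosed (IsLocalRing.ResidueField V) := ST.isAlgClosed_residueField V
    have h4 := rkq (fun i => IsLocalRing.residue V (φ (d₀ i))) (map (IsLocalRing.residue V) (map φ (ls g₁ F₀)))
      (hFh.map _) hCN m i (Ne.symm him) (by simp only [hm, map_zero])
    by_contra hu'
    exact h4 ((IsLocalRing.residue_eq_zero_iff _).mpr ((IsLocalRing.mem_maximalIdeal _).mpr hu'))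
  · intro σ _ i
    rw [hφρ']
    exact hσρ σ _
  · intro σ _
    rw [hCF, MvPolynomial.map_map ρ (σ : C →+* C)]
    have h1 : (σ : C →+* C).comp ρ = ρ := RingHom.ext fun x => hσρ σ x
    rw [h1]

end Pool.Agent.T1
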