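import Pool.Agent.T1.KLM

/-!
# T1 / MST: a web with surjective differential

`mst`: `M*(s, t) = diag (l₁, l₂, l₃) + l₄ J`, `J` = the matrix with all entries `1`, `l₁ = s₀t₀ + s₁t₁`, `l₂ = s₀t₀ - s₁t₁`, `l₃ = s₀t₁ + s₁t₀`, `l₄ = 2 (s₀t₁ - s₁t₀)`.
(H2): if the adjugate vanishes then `l₄ l₁ = l₄ l₂ = l₄ l₃ = 0` (minors with rows `1, 2`, columns `1, 3`, ...) and `l₁ l₂ = l₁ l₃ = l₂ l₃ = 0` (principal minors, using the former), so three of the `l i` vanish; but for `s, t ≠ 0` no three vanish:
`l₁ = l₂ = 0` gives `s₀t₀ = s₁t₁ = 0`, so `s₀ = t₁ = 0` or `s₁ = t₀ = 0`, and `l₃, l₄ ≠ 0`; `l₃ = l₄ = 0` gives `s₀t₁ = s₁t₀ = 0`, so (`s₀ = t₀ = 0` or `s₁ = t₁ = 0`) `l₁, l₂ ≠ 0`.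
(H1): `det M* = l₁l₂l₃ + l₄(l₁l₂ + l₁l₃ + l₂l₃) = (s₀²t₀² - s₁²t₁²)(3 s₀t₁ - s₁t₀) + 4 s₀t₀ (s₀²t₁² - s₁²t₀²)`; the coefficient of `t₀²t₁` is `3 s₀³`, that of `t₀t₁²` is `s₁³ + 4 s₀³`: not all zero for `s ≠ 0`
(so choose `t` among finitely many values, or use that a binary cubic form with all values `0` is `0`).
`sur`: let `M` satisfy (H1), (H2).  `Θ : {E symmetric} → {forms of bidegree (3,3)}`, `E ↦ trace ((pm M).adjugate * pm E)`.  `dim {E} = 4 * 6 = 24`, `dim {forms} = 16`.  Kernel: by `klm` every `E` in the kernel is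
`h ↦ (hᵀ M i j + M i j h)`, with `trace h = 0` because `trace (adj M (hᵀ M + M h)) = 2 trace h * det M` and `det M ≠ 0`; so the kernel has dimension `≤ 8`, the image has dimension `≥ 16`.
-/

namespace Pool.Agent.T1

open MvPolynomial Matrix

private def mstM (k : Type*) [Field k] : Web k := fun i j =>
  if i = 0 then (if j = 0 then !![1, 0, 0; 0, 1, 0; 0, 0, 0] else !![2, 2, 2; 2, 2, 2; 2, 2, 3])
  else (if j = 0 then !![-2, -2, -2; -2, -2, -2; -2, -2, -1] else !![1, 0, 0; 0, -1, 0; 0, 0, 0])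

private theorem mst_aw (k : Type*) [Field k] (s t : Fin 2 → k) :
    aw (mstM k) s t =
      !![s 0 * t 0 + s 1 * t 1 + 2 * (s 0 * t 1 - s 1 * t 0), 2 * (s 0 * t 1 - s 1 * t 0),
          2 * (s 0 * t 1 - s 1 * t 0);
        2 * (s 0 * t 1 - s 1 * t 0), s 0 * t 0 - s 1 * t 1 + 2 * (s 0 * t 1 - s 1 * t 0),
          2 * (s 0 * t 1 - s 1 * t 0);
        2 * (s 0 * t 1 - s 1 * t 0), 2 * (s 0 * t 1 - s 1 * t 0),
          s 0 * t 1 + s 1 * t 0 + 2 * (s 0 * t 1 - s 1 * t 0)] := by
  unfold aw mstM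
  simp only [Fin.sum_univ_two]
  ext i j
  fin_cases i <;> fin_cases j <;> simp <;> ring

private theorem mst_cub {k : Type*} [Field k] [IsAlgClosed k] {c0 c1 c2 c3 : k}
    (h : ∀ x : k, c0 + c1 * x + c2 * x ^ 2 + c3 * x ^ 3 = 0) : c1 = 0 ∧ c2 = 0 := by
  have h1 : (Polynomial.C c3 * Polynomial.X ^ 3 + Polynomial.C c2 * Polynomial.X ^ 2 +
      Polynomial.C c1 * Polynomial.X + Polynomial.C c0 : Polynomial k) = 0 := by
    refine Polynomial.funext fun x => ?_
    have h2 := h x
    simp only [Polynomial.eval_add, Polynomial.eval_mul, Polynomial.eval_C, Polynomial.eval_pow,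
      Polynomial.eval_X, Polynomial.eval_zero]
    linear_combination h2
  have h3 := congrArg (fun p => Polynomial.coeff p 1) h1
  have h4 := congrArg (fun p => Polynomial.coeff p 2) h1
  constructor
  · simpa [Polynomial.coeff_X, Polynomial.coeff_C] using h3
  · simpa [Polynomial.coeff_X, Polynomial.coeff_C] using h4

theorem mst (k : Type*) [Field k] [IsAlgClosed k] (h2 : (2 : k) ≠ 0) (h3 : (3 : k) ≠ 0) :
    ∃ M : Web k, Sy M ∧ H1 M ∧ H2 M := by
  refine ⟨mstM k, ?_, ?_, ?_⟩
  · intro i j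
    ext a b
    fin_cases i <;> fin_cases j <;> fin_cases a <;> fin_cases b <;> rfl
  · intro s hs
    by_contra hcon
    push Not at hcon
    have h1 := mst_cub (c0 := -(s 0 ^ 2 * s 1) - 4 * (s 0 * s 1 ^ 2)) (c1 := 3 * s 0 ^ 3)
      (c2 := s 1 ^ 3 + 4 * s 0 ^ 3) (c3 := -3 * (s 0 * s 1 ^ 2)) (fun x => by
        have h2 := hcon ![1, x]
        rw [mst_aw, det_fin_three] at h2
        simp at h2
        linear_combination h2)
    have hs0 : s 0 = 0 := by
      have h3 := (mul_eq_zero.1 h1.1).resolve_left h3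
      exact pow_eq_zero_iff (by norm_num) |>.1 h3
    have hs1 : s 1 = 0 := by
      have h4 := h1.2
      rw [hs0] at h4
      simpa using h4
    apply hs
    funext i
    fin_cases i
    · exact hs0
    · exact hs1
  · intro s t hs ht h0
    rw [mst_aw, adjugate_fin_three] at h0
    have e : ∀ i j, _ := fun i j => congrFun (congrFun h0 i) j
    have hs' : s 0 = 0 → s 1 ≠ 0 := by
      intro h h'
      apply hs
      funext i
      fin_cases i
      · exact h
      · exact h'
    have ht' : t 0 = 0 → t 1 ≠ 0 := by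
      intro h h'
      apply ht
      funext i
      fin_cases i
      · exact h
      · exact h'
    obtain ⟨a, ha⟩ : ∃ a, a = s 0 * t 0 + s 1 * t 1 := ⟨_, rfl⟩
    obtain ⟨b, hb⟩ : ∃ b, b = s 0 * t 0 - s 1 * t 1 := ⟨_, rfl⟩
    obtain ⟨c, hc⟩ : ∃ c, c = s 0 * t 1 + s 1 * t 0 := ⟨_, rfl⟩
    obtain ⟨d, hd⟩ : ∃ d, d = 2 * (s 0 * t 1 - s 1 * t 0) := ⟨_, rfl⟩
    rw [← ha, ← hb, ← hc, ← hd] at e
    have e00 := e 0 0
    have e01 := e 0 1
    have e02 := e 0 2
    have e12 := e 1 2
    have e11 := e 1 1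
    have e22 := e 2 2
    simp at e00 e01 e02 e12 e11 e22
    have hdc : d * c = 0 := by linear_combination -e01
    have hdb : d * b = 0 := by linear_combination -e02
    have hda : d * a = 0 := by linear_combination -e12
    have hbc : b * c = 0 := by linear_combination e00 - hdb - hdc
    have hac : a * c = 0 := by linear_combination e11 - hda - hdc
    have hab : a * b = 0 := by linear_combination e22 - hda - hdb
    by_cases hab0 : a = 0 ∧ b = 0
    · have h1 : s 0 * t 0 = 0 := by
        have h2' : 2 * (s 0 * t 0) = 0 := by linear_combination hab0.1 + hab0.2 - ha - hb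
        exact (mul_eq_zero.1 h2').resolve_left h2
      have h2' : s 1 * t 1 = 0 := by linear_combination hab0.1 - ha - h1
      have h4 : (s 0 * t 1 - s 1 * t 0) * (s 0 * t 1 + s 1 * t 0) = 0 := by
        rw [hc, hd] at hdc
        have h5 : 2 * ((s 0 * t 1 - s 1 * t 0) * (s 0 * t 1 + s 1 * t 0)) = 0 := by
          linear_combination hdc
        exact (mul_eq_zero.1 h5).resolve_left h2
      rcases mul_eq_zero.1 h1 with h5 | h5
      · have h6 := hs' h5
        have h7 : t 1 = 0 := (mul_eq_zero.1 h2').resolve_left h6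
        have h8 : t 0 ≠ 0 := fun h => ht' h h7
        rw [h5, h7] at h4
        simp at h4
        tauto
      · have h6 := ht' h5
        have h7 : s 1 = 0 := (mul_eq_zero.1 h2').resolve_right h6
        have h8 : s 0 ≠ 0 := fun h => hs' h h7
        rw [h5, h7] at h4
        simp at h4
        tauto
    · have hcd : c = 0 ∧ d = 0 := by
        by_cases ha0 : a = 0
        · have hb0 : b ≠ 0 := fun h => hab0 ⟨ha0, h⟩
          exact ⟨(mul_eq_zero.1 hbc).resolve_left hb0, (mul_eq_zero.1 hdb).resolve_right hb0⟩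
        · exact ⟨(mul_eq_zero.1 hac).resolve_left ha0, (mul_eq_zero.1 hda).resolve_right ha0⟩
      have hd' : s 0 * t 1 - s 1 * t 0 = 0 := by
        have h5 := hcd.2
        rw [hd] at h5
        exact (mul_eq_zero.1 h5).resolve_left h2
      have h1 : s 0 * t 1 = 0 := by
        have h2' : 2 * (s 0 * t 1) = 0 := by linear_combination hcd.1 + hd' - hc
        exact (mul_eq_zero.1 h2').resolve_left h2
      have h2' : s 1 * t 0 = 0 := by linear_combination h1 - hd'
      have h4 : (s 0 * t 0 + s 1 * t 1) * (s 0 * t 0 - s 1 * t 1) = 0 := by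
        rw [← ha, ← hb]
        exact hab
      rcases mul_eq_zero.1 h1 with h5 | h5
      · have h6 := hs' h5
        have h7 : t 0 = 0 := (mul_eq_zero.1 h2').resolve_left h6
        have h8 := ht' h7
        rw [h5, h7] at h4
        simp at h4
        tauto
      · have h8 : t 0 ≠ 0 := fun h => ht' h h5
        have h7 : s 1 = 0 := (mul_eq_zero.1 h2').resolve_right h8
        have h9 : s 0 ≠ 0 := fun h => hs' h h7
        rw [h5, h7] at h4
        simp at h4
        tauto

private def mstP {k : Type*} [Field k] : (Fin 2 → Fin 2 → Fin 6 → k) →ₗ[k] Web k where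
  toFun a := fun i j => !![a i j 0, a i j 1, a i j 2; a i j 1, a i j 3, a i j 4;
    a i j 2, a i j 4, a i j 5]
  map_add' a b := by
    funext i j
    ext p q
    fin_cases p <;> fin_cases q <;> rfl
  map_smul' c a := by
    funext i j
    ext p q
    fin_cases p <;> fin_cases q <;> rfl

private theorem mstP_inj {k : Type*} [Field k] : Function.Injective (mstP (k := k)) := by
  intro a b h
  funext i j l
  have h1 : ∀ p q, mstP a i j p q = mstP b i j p q := fun p q => by rw [h]
  fin_cases l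
  · exact h1 0 0
  · exact h1 0 1
  · exact h1 0 2
  · exact h1 1 1
  · exact h1 1 2
  · exact h1 2 2

private theorem mstP_sy {k : Type*} [Field k] (a : Fin 2 → Fin 2 → Fin 6 → k) : Sy (mstP a) := by
  intro i j
  ext p q
  fin_cases p <;> fin_cases q <;> rfl

private noncomputable def mstT {k : Type*} [Field k] (M : Web k) : Web k →ₗ[k] P4 k where
  toFun E := ((pm M).adjugate * pm E).trace
  map_add' E E' := by
    have h1 : pm (E + E') = pm E + pm E' := by
      refine Matrix.ext fun a b => ?_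
      rw [Matrix.add_apply, pm_apply, pm_apply, pm_apply, ← pb_add]
      rfl
    rw [h1, Matrix.mul_add, trace_add]
  map_smul' c E := by
    rw [pm_smul, Matrix.mul_smul, trace_smul, smul_eq_mul, RingHom.id_apply,
      MvPolynomial.smul_eq_C_mul]

private theorem mstT_BH {k : Type*} [Field k] (M E : Web k) : BH (mstT M E) 3 3 := by
  have h1 : mstT M E = ∑ a, ∑ b, (pm M).adjugate a b * pm E b a := by
    change ((pm M).adjugate * pm E).trace = _
    rw [Matrix.trace]
    rfl
  rw [h1]
  refine Submodule.sum_mem (weightedHomogeneousSubmodule k bw (3, 3)) fun a _ =>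
    Submodule.sum_mem _ fun b _ => ?_
  have h2 : BH ((pm M).adjugate a b * pm E b a) (2 + 1) (2 + 1) :=
    IsWeightedHomogeneous.mul (BH_adj M a b) (BH_pb _)
  exact h2

private noncomputable def mstD (a b : ℕ) : Fin 2 ⊕ Fin 2 →₀ ℕ :=
  Finsupp.equivFunOnFinite.symm (Sum.elim ![a, 3 - a] ![b, 3 - b])

private noncomputable def mstK (k : Type*) [Field k] : P4 k →ₗ[k] (Fin 4 × Fin 4 → k) :=
  LinearMap.pi fun ab => MvPolynomial.lcoeff k (mstD ab.1 ab.2)

private theorem mstK_inj {k : Type*} [Field k] (f : P4 k) (hf : BH f 3 3) (h : mstK k f = 0) :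
    f = 0 := by
  ext d
  rw [coeff_zero]
  by_contra hd
  have h1 := hf hd
  rw [Finsupp.weight_apply, Finsupp.sum_fintype _ _ (by simp)] at h1
  simp only [Fintype.sum_sum_type, Fin.sum_univ_two, bw, Sum.elim_inl, Sum.elim_inr] at h1
  simp only [Prod.smul_mk, smul_eq_mul, mul_one, mul_zero, Prod.mk_add_mk, add_zero, zero_add,
    Prod.mk.injEq] at h1
  have h2 : d = mstD (d (Sum.inl 0)) (d (Sum.inr 0)) := by
    ext x
    rcases x with x | x <;> fin_cases x
    · rfl
    · change d (Sum.inl 1) = 3 - d (Sum.inl 0)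
      omega
    · rfl
    · change d (Sum.inr 1) = 3 - d (Sum.inr 0)
      omega
  have h3 := congrFun h (⟨d (Sum.inl 0), by omega⟩, ⟨d (Sum.inr 0), by omega⟩)
  apply hd
  rw [h2]
  exact h3

private def mstL {k : Type*} [Field k] (M : Web k) : Matrix (Fin 3) (Fin 3) k →ₗ[k] Web k where
  toFun h := fun i j => hᵀ * M i j + M i j * h
  map_add' h h' := by
    funext i j
    simp only [Pi.add_apply, transpose_add, Matrix.add_mul, Matrix.mul_add]
    abel
  map_smul' c h := by
    funext i j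
    simp only [Pi.smul_apply, transpose_smul, Matrix.smul_mul, Matrix.mul_smul, smul_add,
      RingHom.id_apply]

private theorem mst_eval {k : Type*} [Field k] (M E : Web k) (s t : Fin 2 → k) :
    eval (pt s t) (mstT M E) = ((aw M s t).adjugate * aw E s t).trace := by
  change eval (pt s t) ((pm M).adjugate * pm E).trace = _
  rw [← eval_pm M, ← eval_pm E]
  have h1 : ∀ A : Matrix (Fin 3) (Fin 3) (P4 k), eval (pt s t) A.trace =
      (A.map (eval (pt s t))).trace := fun A => by
    rw [Matrix.trace, Matrix.trace, map_sum]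
    rfl
  rw [h1, Matrix.map_mul]
  have h2 := RingHom.map_adjugate (eval (pt s t)) (pm M)
  rw [RingHom.mapMatrix_apply, RingHom.mapMatrix_apply] at h2
  rw [h2]

private theorem mst_ker {k : Type*} [Field k] [IsAlgClosed k] (h2 : (2 : k) ≠ 0) (M : Web k)
    (hs : Sy M) (h1 : H1 M) (hh2 : H2 M) (a : Fin 2 → Fin 2 → Fin 6 → k)
    (ha : mstT M (mstP a) = 0) : ∃ h : Matrix (Fin 3) (Fin 3) k, h.trace = 0 ∧
      mstL M h = mstP a := by
  have hk : ∀ s t, ((aw M s t).adjugate * aw (mstP a) s t).trace = 0 := fun s t => by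
    rw [← mst_eval, ha, map_zero]
  obtain ⟨h, hh⟩ := klm h2 M hs h1 hh2 (mstP a) (mstP_sy a) hk
  refine ⟨h, ?_, ?_⟩
  · obtain ⟨t, ht⟩ := h1 (Pi.single 0 1) (by
      intro h4
      have h5 := congrFun h4 0
      simp at h5)
    have h3 := hk (Pi.single 0 1) t
    obtain ⟨A, hA⟩ : ∃ A, A = aw M (Pi.single 0 1) t := ⟨_, rfl⟩
    have h4 : aw (mstP a) (Pi.single 0 1) t = hᵀ * A + A * h := by
      rw [hA]
      unfold aw
      simp only [hh, Fin.sum_univ_two, Matrix.mul_add, Matrix.add_mul, Matrix.smul_mul,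
        Matrix.mul_smul, smul_add]
      abel
    rw [← hA] at ht h3
    rw [h4, Matrix.mul_add, trace_add, ← Matrix.mul_assoc, ← Matrix.mul_assoc, adjugate_mul,
      trace_mul_comm, ← Matrix.mul_assoc, mul_adjugate, Matrix.smul_mul, Matrix.one_mul,
      Matrix.smul_mul, Matrix.one_mul, trace_smul, trace_smul, trace_transpose, smul_eq_mul] at h3
    have h5 : 2 * (A.det * h.trace) = 0 := by linear_combination h3
    have h6 := (mul_eq_zero.1 h5).resolve_left h2
    exact (mul_eq_zero.1 h6).resolve_left ht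
  · funext i j
    exact (hh i j).symm

theorem sur {k : Type*} [Field k] [IsAlgClosed k] (h2 : (2 : k) ≠ 0) (M : Web k) (hs : Sy M) (h1 : H1 M)
    (hh2 : H2 M) (G : P4 k) (hG : BH G 3 3) :
    ∃ E : Web k, Sy E ∧ ((pm M).adjugate * pm E).trace = G := by
  obtain ⟨Θ, hΘ⟩ : ∃ Θ : (Fin 2 → Fin 2 → Fin 6 → k) →ₗ[k] (Fin 4 × Fin 4 → k),
      Θ = (mstK k).comp ((mstT M).comp mstP) := ⟨_, rfl⟩
  have hker : Module.finrank k (LinearMap.ker Θ) ≤ 8 := by
    obtain ⟨tr, htr⟩ : ∃ tr : Matrix (Fin 3) (Fin 3) k →ₗ[k] k,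
      tr = Matrix.traceLinearMap (Fin 3) k k := ⟨_, rfl⟩
    have htr8 : Module.finrank k (LinearMap.ker tr) = 8 := by
      have h3 := LinearMap.finrank_range_add_finrank_ker tr
      have h4 : LinearMap.range tr = ⊤ := by
        rw [LinearMap.range_eq_top]
        intro c
        refine ⟨Matrix.single 0 0 c, ?_⟩
        rw [htr]
        simp
      rw [h4, finrank_top, Module.finrank_self, Module.finrank_matrix] at h3
      simp at h3
      omega
    have h5 : (LinearMap.ker Θ).map mstP ≤ (LinearMap.ker tr).map (mstL M) := by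
      rintro _ ⟨a, ha, rfl⟩
      have h6 : mstK k (mstT M (mstP a)) = 0 := by
        have h7 := LinearMap.mem_ker.1 ha
        rw [hΘ] at h7
        exact h7
      obtain ⟨h, hh, hh'⟩ := mst_ker h2 M hs h1 hh2 a (mstK_inj _ (mstT_BH _ _) h6)
      refine ⟨h, ?_, hh'⟩
      change tr h = 0
      rw [htr]
      exact hh
    have h6 : Module.finrank k ((LinearMap.ker Θ).map mstP) =
        Module.finrank k (LinearMap.ker Θ) :=
      (Submodule.equivMapOfInjective mstP mstP_inj (LinearMap.ker Θ)).finrank_eq.symm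
    rw [← h6, ← htr8]
    exact (Submodule.finrank_mono h5).trans (Submodule.finrank_map_le _ _)
  have hrange : LinearMap.range Θ = ⊤ := by
    apply Submodule.eq_top_of_finrank_eq
    have h3 := LinearMap.finrank_range_add_finrank_ker Θ
    have h4 : Module.finrank k (Fin 2 → Fin 2 → Fin 6 → k) = 24 := by
      simp [Module.finrank_pi_fintype]
    have h5 : Module.finrank k (Fin 4 × Fin 4 → k) = 16 := by
      simp
    have h6 := Submodule.finrank_le (LinearMap.range Θ)
    omega
  obtain ⟨a, ha⟩ : ∃ a, Θ a = mstK k G := by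
    have h3 : mstK k G ∈ LinearMap.range Θ := by
      rw [hrange]
      exact Submodule.mem_top
    exact h3
  refine ⟨mstP a, mstP_sy a, ?_⟩
  change mstT M (mstP a) = G
  have h3 : mstT M (mstP a) - G = 0 := by
    apply mstK_inj
    · exact Submodule.sub_mem (weightedHomogeneousSubmodule k bw (3, 3)) (mstT_BH _ _) hG
    · rw [map_sub, ← ha, hΘ]
      exact sub_self _
  exact sub_eq_zero.1 h3

end Pool.Agent.T1
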