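import Pool.Agent.PQ.UNA
import Pool.Agent.G4.INX
import Pool.Agent.G4.FXH

/-!
# T1 / NIN

The units and inertia for a quartic `G` over a valuation ring `V` of `C` whose reduction is smooth.  `PQ.una`: the valuations.  Inertia (as in
`G4/UNX.lean`): for `w = e_r, b i` the vector `w ᵥ* h⁻¹` is a bitangent of `map G`; `PQ.prv`: a multiple `L`, primitive in `V`; `G4.inx`:
`L × σ L = 0`, so `σ (w ᵥ* h⁻¹)` is a non-zero multiple of `w ᵥ* h⁻¹`.  `G4.fxh`.
-/

namespace Pool.Agent.T1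

open MvPolynomial Matrix NumberField IsDedekindDomain
open Pool.Agent.PQ (P3 lin sb SF NS Bit RB yy ka ND)

private theorem nin_par {k : Type*} [Field k] (L L' : Fin 3 → k) (hL : L ≠ 0) (hL' : L' ≠ 0)
    (hx : crossProduct L L' = 0) : ∃ ζ : k, ζ ≠ 0 ∧ L' = ζ • L := by
  have h0 := congrFun hx 0
  have h1 := congrFun hx 1
  have h2 := congrFun hx 2
  simp only [crossProduct, LinearMap.mk₂_apply, Matrix.cons_val_zero, Matrix.cons_val_one,
    Matrix.cons_val_two, Matrix.head_cons, Matrix.tail_cons, Pi.zero_apply,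
    Matrix.cons_val] at h0 h1 h2
  have key : ∀ i j, L i * L' j = L j * L' i := by
    intro i j
    fin_cases i <;> fin_cases j
    · rfl
    · show L 0 * L' 1 = L 1 * L' 0
      linear_combination h2
    · show L 0 * L' 2 = L 2 * L' 0
      linear_combination -h1
    · show L 1 * L' 0 = L 0 * L' 1
      linear_combination -h2
    · rfl
    · show L 1 * L' 2 = L 2 * L' 1
      linear_combination h0
    · show L 2 * L' 0 = L 0 * L' 2
      linear_combination h1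
    · show L 2 * L' 1 = L 1 * L' 2
      linear_combination -h0
    · rfl
  obtain ⟨i, hi⟩ := Function.ne_iff.1 hL
  have hi' : L i ≠ 0 := hi
  have hL2 : L' = (L' i / L i) • L := by
    ext j
    rw [Pi.smul_apply, smul_eq_mul, div_mul_eq_mul_div, eq_div_iff hi', mul_comm, key i j, mul_comm]
  refine ⟨L' i / L i, ?_, hL2⟩
  intro h
  apply hL'
  rw [hL2, h, zero_smul]

theorem nin {K C : Type*} [Field K] [Field C] [Algebra K C] [IsAlgClosed C]
    (V : ValuationSubring C) (h2 : V.valuation (2 : C) = 1) (G : P3 V) (hG : G.IsHomogeneous 4)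
    (hNS : NS (map (IsLocalRing.residue V) G)) (h : Matrix (Fin 3) (Fin 3) C) (hh : h.det ≠ 0) (c : C)
    (hc : c ≠ 0) (b : Fin 4 → Fin 3 → C) (hb : ND b)
    (hE : sb h (map (algebraMap V C) G) = MvPolynomial.C c * RB b) :
    (∀ i r, V.valuation (b i r) = 1) ∧ (∀ i r, i ≠ 0 → r ≠ 0 → V.valuation (1 - b i r) = 1) ∧
      ∀ σ : C ≃ₐ[K] C, ESH.Inert V σ →
        map (σ : C →+* C) (map (algebraMap V C) G) = map (algebraMap V C) G → ∀ i r, σ (b i r) = b i r := by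
  obtain ⟨u1, u2, -, -⟩ := PQ.una V h2 G hG hNS h hh c hc b hb hE
  refine ⟨u1, u2, ?_⟩
  intro σ hσ hσG
  have hGe2 : map (algebraMap V C) G = MvPolynomial.C c * sb h⁻¹ (RB b) := by
    rw [← PQ.sb_inv h hh (map (algebraMap V C) G), hE, map_mul, PQ.sb_C]
  obtain ⟨e, he⟩ := IsAlgClosed.exists_pow_nat_eq c (n := 2) (by norm_num)
  have line : ∀ (w : Fin 3 → C) (Q : P3 C), w ≠ 0 → Bit (RB b) w Q →
      ∃ ζ : C, ζ ≠ 0 ∧ (fun j => (σ : C →+* C) ((w ᵥ* h⁻¹) j)) = ζ • (w ᵥ* h⁻¹) := by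
    intro w Q hw hQ
    have hw1 : w ᵥ* h⁻¹ ≠ 0 := by
      intro h0
      apply hw
      have e1 := congrArg (fun q => q ᵥ* h) h0
      simpa [Matrix.vecMul_vecMul, Matrix.nonsing_inv_mul _ (isUnit_iff_ne_zero.2 hh)] using e1
    obtain ⟨η, L, hη, hL, hLp⟩ := PQ.prv V (w ᵥ* h⁻¹) hw1
    have hL' : w ᵥ* h⁻¹ = η • fun j => (L j : C) := by
      ext j
      rw [hL j]
      rfl
    have hLw : (fun j => (L j : C)) = η⁻¹ • (w ᵥ* h⁻¹) := by
      rw [hL', smul_smul, inv_mul_cancel₀ hη, one_smul]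
    have b1 := PQ.trf_bit h⁻¹ hQ
    have b2 := PQ.scl_bit b1 η⁻¹ e (inv_ne_zero hη)
    rw [he, ← hGe2, ← hLw] at b2
    have hcr := G4.inx V h2 G hG hNS σ hσ hσG L hLp _ b2
    have hL0 : (fun j => (L j : C)) ≠ 0 := by
      obtain ⟨j, hj⟩ := hLp
      intro h0
      have := congrFun h0 j
      have e1 : (L j : C) = 0 := this
      rw [e1, map_zero] at hj
      exact zero_ne_one hj
    have hL1 : (fun j => σ (L j : C)) ≠ 0 := by
      intro h0
      apply hL0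
      ext j
      have e1 : σ (L j : C) = 0 := congrFun h0 j
      exact (map_eq_zero σ).1 e1
    obtain ⟨ζ, hζ, hζL⟩ := nin_par _ _ hL0 hL1 hcr
    refine ⟨σ η * ζ * η⁻¹, mul_ne_zero (mul_ne_zero ((map_ne_zero σ).2 hη) hζ) (inv_ne_zero hη), ?_⟩
    rw [hL']
    funext j
    have e1 : σ (L j : C) = ζ * (L j : C) := congrFun hζL j
    change σ (η * (L j : C)) = σ η * ζ * η⁻¹ * (η * (L j : C))
    rw [map_mul, e1]
    field_simp
  have lx : ∀ r : Fin 3, ∃ ζ : C, ζ ≠ 0 ∧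
      (fun j => (σ : C →+* C) (((Pi.single r 1 : Fin 3 → C) ᵥ* h⁻¹) j)) =
        ζ • ((Pi.single r 1 : Fin 3 → C) ᵥ* h⁻¹) := by
    intro r
    refine line _ (PQ.QX (yy b) r) ?_ (PQ.bit_x (yy b) r)
    intro h0
    have := congrFun h0 r
    simp at this
  have lb : ∀ i : Fin 4, ∃ ζ : C, ζ ≠ 0 ∧
      (fun j => (σ : C →+* C) ((b i ᵥ* h⁻¹) j)) = ζ • (b i ᵥ* h⁻¹) := by
    intro i
    refine line _ (PQ.QS (b i) (yy b)) ?_
      (PQ.bit_s (b i) (hb.ne i) (yy b) _ (PQ.rel_field b i (hb.ne i)))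
    intro h0
    exact hb.ne i 0 (congrFun h0 0)
  exact (G4.fxh (σ : C →+* C) h hh b hb lx lb).1

end Pool.Agent.T1
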