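import Pool.Agent.T1.TNW

/-!
# T1 / NLS: a web over a finite extension of `k(u)`

`u = Polynomial.X ∈ k[u]`.  Consider the polynomial ring `A = K₁[m]` over `K₁ = FractionRing k[u]` in the `36` entries `m` of a web (index type `Fin 2 × Fin 2 × Fin 3 × Fin 3`), and the ideal `I` generated by the
differences `m i j a b - m i j b a` and by the coefficients of `dW m - (D₀ + u G)` (coefficients as polynomials in the 16 (or all) monomials; `D₀ = dW M₀`).
Claim `I ≠ ⊤`.  Otherwise `1 = ∑ a_l f_l`; clearing denominators `q = ∑ a'_l f_l` with `q ∈ k[u]`, `q ≠ 0`, `a'_l ∈ k[u][m]`, `f_l ∈ k[u][m]` the generators.  Let `n > deg q`; substitute the web `M` of `tnw` for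
this `n`: all `f_l` have values divisible by `u^(n+1)`, so `u^(n+1) ∣ q`, contradiction.
So there is a maximal ideal `𝔪 ⊇ I`, and `L = A / 𝔪` is a finite extension of `K₁` (Zariski's lemma: `finite_of_finite_type_of_isJacobsonRing` or similar).  `M` := images of the variables.  `FunField k L`:
`K₁ = k(u)` has transcendence degree 1 over `k`, `L/K₁` finite (see Helper11/FunFieldBasic, ESH for instances of this kind).
-/

namespace Pool.Agent.T1

open MvPolynomial Matrix

universe u

private abbrev NLSi := Fin 2 × Fin 2 × Fin 3 × Fin 3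

/-- the generic web -/
private noncomputable def nlsW (S : Type*) [CommRing S] : Web (MvPolynomial NLSi S) :=
  fun i j => Matrix.of fun a b => X (i, j, a, b)

private theorem nls_mapW {R S : Type*} [CommRing R] [CommRing S] (f : R →+* S) (M : Web R) :
    dW (mapW f M) = MvPolynomial.map f (dW M) := by
  have h1 : pm (mapW f M) = (MvPolynomial.map f).mapMatrix (pm M) := by
    ext1 a b
    simp [pm, pb, mapW, map_mul]
  unfold dW
  rw [h1, ← RingHom.map_det]

/-- the ideal of the relations -/
private noncomputable def nlsI {S : Type*} [CommRing S] (T : P4 S) : Ideal (MvPolynomial NLSi S) :=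
  Ideal.span ({x | ∃ i j a b, x = nlsW S i j a b - nlsW S i j b a} ∪
    {x | ∃ m, x = coeff m (dW (nlsW S) - MvPolynomial.map C T)})

private theorem nls_mem {S R : Type*} [CommRing S] [CommRing R] (T : P4 S)
    (φ : MvPolynomial NLSi S →+* R) (J : Ideal R)
    (h1 : ∀ i j a b, φ (nlsW S i j a b) - φ (nlsW S i j b a) ∈ J)
    (h2 : ∀ m, coeff m (dW (mapW φ (nlsW S)) - MvPolynomial.map (φ.comp C) T) ∈ J) :
    (nlsI T).map φ ≤ J := by
  rw [nlsI, Ideal.map_span, Ideal.span_le]
  rintro _ ⟨x, (⟨i, j, a, b, rfl⟩ | ⟨m, rfl⟩), rfl⟩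
  · rw [SetLike.mem_coe, map_sub]
    exact h1 i j a b
  · have h := h2 m
    rw [nls_mapW, ← MvPolynomial.map_map, ← map_sub, coeff_map] at h
    exact h

private theorem nls_conv {S R : Type*} [CommRing S] [CommRing R] (T : P4 S)
    (φ : MvPolynomial NLSi S →+* R) (h : ∀ x ∈ nlsI T, φ x = 0) :
    Sy (mapW φ (nlsW S)) ∧ dW (mapW φ (nlsW S)) = MvPolynomial.map (φ.comp C) T := by
  constructor
  · intro i j
    ext1 a b
    have h1 := h (nlsW S i j b a - nlsW S i j a b) (Ideal.subset_span (Or.inl ⟨i, j, b, a, rfl⟩))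
    rw [map_sub, sub_eq_zero] at h1
    simpa [mapW] using h1
  · rw [← sub_eq_zero]
    ext m
    have h1 := h _ (Ideal.subset_span (Or.inr ⟨m, rfl⟩))
    rw [← coeff_map, map_sub, ← nls_mapW, MvPolynomial.map_map] at h1
    simpa using h1

attribute [local instance] MvPolynomial.algebraMvPolynomial

private theorem nls_gen {S : Type u} [CommRing S] [IsDomain S] (T : P4 S)
    (hq : ∀ q : S, q ≠ 0 → (C q : MvPolynomial NLSi S) ∉ nlsI T) :
    ∃ (L : Type u) (_ : Field L) (_ : Algebra S L) (M : Web L),
      Function.Injective (algebraMap S L) ∧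
      Algebra.EssFiniteType S L ∧ Algebra.IsAlgebraic S L ∧ Sy M ∧
      dW M = MvPolynomial.map (algebraMap S L) T := by
  classical
  have hdis : Disjoint (((nonZeroDivisors S).map (C (σ := NLSi)) :
      Submonoid (MvPolynomial NLSi S)) : Set (MvPolynomial NLSi S)) (nlsI T : Set _) := by
    rw [Set.disjoint_left]
    rintro _ ⟨q, hq', rfl⟩ hqI
    exact hq q (nonZeroDivisors.ne_zero hq') hqI
  have hne : (nlsI T).map (algebraMap (MvPolynomial NLSi S) (MvPolynomial NLSi (FractionRing S)))
      ≠ ⊤ :=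
    (IsLocalization.map_algebraMap_ne_top_iff_disjoint ((nonZeroDivisors S).map (C (σ := NLSi))) _
      (nlsI T)).mpr hdis
  obtain ⟨m, hm, hIm⟩ := Ideal.exists_le_maximal _ hne
  let : Field (MvPolynomial NLSi (FractionRing S) ⧸ m) := Ideal.Quotient.field m
  obtain ⟨hsy, hdW⟩ := nls_conv T ((Ideal.Quotient.mk m).comp
      (algebraMap (MvPolynomial NLSi S) (MvPolynomial NLSi (FractionRing S)))) (fun x hx =>
    Ideal.Quotient.eq_zero_iff_mem.mpr (hIm (Ideal.mem_map_of_mem _ hx)))
  have hφC : ((Ideal.Quotient.mk m).comp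
      (algebraMap (MvPolynomial NLSi S) (MvPolynomial NLSi (FractionRing S)))).comp C =
      algebraMap S (MvPolynomial NLSi (FractionRing S) ⧸ m) := by
    ext x
    rw [RingHom.comp_apply, RingHom.comp_apply, MvPolynomial.algebraMap_def, MvPolynomial.map_C]
    rfl
  have : Module.Finite (FractionRing S) (MvPolynomial NLSi (FractionRing S) ⧸ m) :=
    finite_of_finite_type_of_isJacobsonRing _ _
  refine ⟨MvPolynomial NLSi (FractionRing S) ⧸ m, inferInstance, inferInstance, _, ?_, ?_, ?_,
    hsy, ?_⟩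
  · rw [IsScalarTower.algebraMap_eq S (FractionRing S) (MvPolynomial NLSi (FractionRing S) ⧸ m)]
    exact (algebraMap (FractionRing S) (MvPolynomial NLSi (FractionRing S) ⧸ m)).injective.comp
      (IsFractionRing.injective S (FractionRing S))
  · have : Algebra.EssFiniteType S (FractionRing S) :=
      Algebra.EssFiniteType.of_isLocalization (FractionRing S) (nonZeroDivisors S)
    exact Algebra.EssFiniteType.comp S (FractionRing S) _
  · exact (IsFractionRing.comap_isAlgebraic_iff (A := S) (K := FractionRing S)).mpr inferInstance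
  · rw [hdW, hφC]

theorem nls {k : Type u} [Field k] [IsAlgClosed k] (M₀ : Web k) (hs : Sy M₀)
    (hsur : ∀ G : P4 k, BH G 3 3 → ∃ E : Web k, Sy E ∧ ((pm M₀).adjugate * pm E).trace = G)
    (G : P4 k) (hG : BH G 3 3) :
    ∃ (L : Type u) (_ : Field L) (_ : Algebra (Polynomial k) L) (M : Web L),
      Function.Injective (algebraMap (Polynomial k) L) ∧
      Algebra.EssFiniteType (Polynomial k) L ∧ Algebra.IsAlgebraic (Polynomial k) L ∧ Sy M ∧
      dW M = MvPolynomial.map (algebraMap (Polynomial k) L)
        (MvPolynomial.map Polynomial.C (dW M₀) + C Polynomial.X * MvPolynomial.map Polynomial.C G) := by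
  refine nls_gen _ ?_
  intro q hq0 hqI
  obtain ⟨M, Q, hMs, hM⟩ := tnw M₀ hs hsur G hG q.natDegree
  obtain ⟨φ, hφX, hφC⟩ : ∃ φ : MvPolynomial NLSi (Polynomial k) →+* Polynomial k,
      (∀ i j a b, φ (X (i, j, a, b)) = M i j a b) ∧ ∀ c, φ (C c) = c :=
    ⟨eval₂Hom (RingHom.id _) (fun x => M x.1 x.2.1 x.2.2.1 x.2.2.2), fun i j a b => by
      simp, fun c => by simp⟩
  have hφW : mapW φ (nlsW (Polynomial k)) = M := by
    funext i j
    ext1 a b
    simp [mapW, nlsW, hφX]
  have hφC' : φ.comp C = RingHom.id (Polynomial k) := RingHom.ext hφC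
  have h := nls_mem (MvPolynomial.map Polynomial.C (dW M₀) +
      C Polynomial.X * MvPolynomial.map Polynomial.C G) φ
    (Ideal.span {(Polynomial.X : Polynomial k) ^ (q.natDegree + 1)})
    (fun i j a b => by
      have h1 : φ (nlsW (Polynomial k) i j a b) = M i j a b := by simp [nlsW, hφX]
      have h2 : φ (nlsW (Polynomial k) i j b a) = M i j b a := by simp [nlsW, hφX]
      have h3 : M i j b a = M i j a b := by
        have := congrFun (congrFun (hMs i j) a) b
        simpa using this
      rw [h1, h2, h3, sub_self]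
      exact zero_mem _)
    (fun m => by
      rw [hφW, hφC', MvPolynomial.map_id, hM, add_sub_cancel_left, coeff_C_mul]
      exact Ideal.mul_mem_right _ _ (Ideal.mem_span_singleton_self _))
  have h1 : φ (C q) ∈ Ideal.span {(Polynomial.X : Polynomial k) ^ (q.natDegree + 1)} :=
    h (Ideal.mem_map_of_mem φ hqI)
  rw [hφC, Ideal.mem_span_singleton] at h1
  have h3 := Polynomial.natDegree_le_of_dvd h1 hq0
  rw [Polynomial.natDegree_X_pow] at h3
  omega

end Pool.Agent.T1
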