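import Pool.Agent.T1.Defs

/-!
# T1 / PKA: infinitesimal automorphisms of pencils

`M_t = ap P t`.  Proof.  `M_t h` is skew symmetric for all `t` (sum of the hypotheses: `hᵀ M_t + M_t h = 0`, and
`(M_t h)ᵀ = hᵀ M_t`).  A skew symmetric `3 × 3` matrix `S` (over a field with `2 ≠ 0`) is `S = [v]_×` for a unique vector `v` (its axis,
`v = (S 2 1, S 0 2, S 1 0)`) and `S v = 0`, `Sᵀ v = 0`; let `v_t` be the axis of `M_t h`, linear in `t`: `v_t = t 0 • v_0 + t 1 • v_1`.
Suppose `h ≠ 0`.  For `det M_t ≠ 0`: `M_t h ≠ 0`, so `v_t ≠ 0`, and `M_t (h v_t) = 0`, so `h v_t = 0`.  As `det M_t` is a non-zero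
polynomial in `t` and `k` is infinite, `h v_t = 0` for all `t` (`t ↦ det M_t • h v_t` is a polynomial map which vanishes everywhere; or: choose `t, t'`
linearly independent with `det ≠ 0`; `h v_t` linear in `t`), and `det h = 0`.  `det M_t ≠ 0` for some `t`, for this `t` the kernel of `M_t h = [v_t]_×` is the line
spanned by `v_t`, so `ker h` is a line, spanned by a vector `v`.  So `v_0 = c_0 v`, `v_1 = c_1 v`.  Take
`t := (c_1, -c_0)` if this is not `0`: then `v_t = 0`, `M_t h = 0`, so the adjugate of `M_t` is zero: `M_t` vanishes on the image of `h`, a plane (rank of `h` is 2),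
so `M_t` has rank `≤ 1`.  Contradiction to `hadj`.  If `(c_0, c_1) = 0` then `M_t h = 0` for all `t`, take `t = (1, 0)`: same contradiction.
(rank `≤ 1` implies adjugate `0`: all `2 × 2` minors vanish.)
-/

namespace Pool.Agent.T1

open MvPolynomial Matrix

private theorem pka_par {k : Type*} [Field k] (v x : Fin 3 → k) (hv : v ≠ 0) (h0 : v 1 * x 2 = v 2 * x 1)
    (h1 : v 2 * x 0 = v 0 * x 2) (h2 : v 0 * x 1 = v 1 * x 0) : ∃ c : k, x = c • v := by
  obtain ⟨i, hi⟩ := Function.ne_iff.1 hv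
  rw [Pi.zero_apply] at hi
  refine ⟨x i / v i, ?_⟩
  funext j
  rw [Pi.smul_apply, smul_eq_mul, div_mul_eq_mul_div, eq_div_iff hi]
  fin_cases i <;> fin_cases j <;> simp only [Fin.zero_eta, Fin.mk_one, Fin.reduceFinMk, Fin.isValue] <;>
    first | linear_combination h0 | linear_combination -h0 | linear_combination h1 | linear_combination -h1 |
      linear_combination h2 | linear_combination -h2

/-- the axis of a skew symmetric matrix -/
private def pax {k : Type*} (N : Matrix (Fin 3) (Fin 3) k) : Fin 3 → k := ![N 2 1, N 0 2, N 1 0]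

private theorem pka_skew {k : Type*} [Field k] (h2 : (2 : k) ≠ 0) (N : Matrix (Fin 3) (Fin 3) k) (hN : Nᵀ = -N)
    (x : Fin 3 → k) : N *ᵥ x =
      ![pax N 1 * x 2 - pax N 2 * x 1, pax N 2 * x 0 - pax N 0 * x 2, pax N 0 * x 1 - pax N 1 * x 0] := by
  have h : ∀ i j, N j i = - N i j := fun i j => congrFun (congrFun hN i) j
  have hd : ∀ i, N i i = 0 := fun i => by
    have h1 := h i i
    have h3 : 2 * N i i = 0 := by linear_combination h1
    exact (mul_eq_zero.1 h3).resolve_left h2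
  funext i
  fin_cases i
  · simp [mulVec, dotProduct, Fin.sum_univ_three, pax, hd, h 1 0]
    ring
  · simp [mulVec, dotProduct, Fin.sum_univ_three, pax, hd, h 2 1]
    ring
  · simp [mulVec, dotProduct, Fin.sum_univ_three, pax, hd, h 0 2]
    ring

private theorem pka_zero {k : Type*} [Field k] (h2 : (2 : k) ≠ 0) (N : Matrix (Fin 3) (Fin 3) k) (hN : Nᵀ = -N)
    (hp : pax N = 0) : N = 0 := by
  have h : ∀ x, N *ᵥ x = 0 := fun x => by
    rw [pka_skew h2 N hN, hp]
    funext i
    fin_cases i <;> simp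
  ext i j
  have h3 := congrFun (h (Pi.single j 1)) i
  rw [mulVec_single_one] at h3
  exact h3

/-- the kernel of a skew symmetric matrix -/
private theorem pka_ker {k : Type*} [Field k] (h2 : (2 : k) ≠ 0) (N : Matrix (Fin 3) (Fin 3) k) (hN : Nᵀ = -N)
    (x : Fin 3 → k) (hx : N *ᵥ x = 0) :
    pax N 1 * x 2 = pax N 2 * x 1 ∧ pax N 2 * x 0 = pax N 0 * x 2 ∧ pax N 0 * x 1 = pax N 1 * x 0 := by
  rw [pka_skew h2 N hN] at hx
  have h0 := congrFun hx 0
  have h1 := congrFun hx 1
  have h3 := congrFun hx 2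
  simp only [cons_val_zero, cons_val_one, cons_val, Pi.zero_apply, sub_eq_zero] at h0 h1 h3
  exact ⟨h0, h1, h3⟩

theorem pka {k : Type*} [Field k] [IsAlgClosed k] (h2 : (2 : k) ≠ 0) (P : Fin 2 → Matrix (Fin 3) (Fin 3) k)
    (hP : ∀ j, (P j)ᵀ = P j) (h1 : ∃ t, (ap P t).det ≠ 0) (hadj : ∀ t, t ≠ 0 → (ap P t).adjugate ≠ 0)
    (h : Matrix (Fin 3) (Fin 3) k) (hh : ∀ j, hᵀ * P j + P j * h = 0) : h = 0 := by
  by_contra hne
  have hPh : ∀ j, (P j * h)ᵀ = -(P j * h) := fun j => by
    rw [transpose_mul, hP]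
    exact eq_neg_of_add_eq_zero_left (hh j)
  have hN : ∀ t, (ap P t * h)ᵀ = -(ap P t * h) := fun t => by
    simp only [ap, Fin.sum_univ_two, Matrix.add_mul, Matrix.smul_mul, transpose_add, transpose_smul, hPh]
    rw [smul_neg, smul_neg, neg_add]
  obtain ⟨s, hs⟩ := h1
  set v := pax (ap P s * h) with hv
  have hunit : IsUnit (ap P s).det := isUnit_iff_ne_zero.2 hs
  have hv0 : v ≠ 0 := by
    intro hv0
    apply hne
    have h3 := pka_zero h2 _ (hN s) hv0
    have h4 := congrArg (fun A => (ap P s)⁻¹ * A) h3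
    simp only [Matrix.mul_zero] at h4
    rwa [← Matrix.mul_assoc, nonsing_inv_mul _ hunit, Matrix.one_mul] at h4
  have hNv : (ap P s * h) *ᵥ v = 0 := by
    rw [pka_skew h2 _ (hN s), ← hv]
    funext i
    fin_cases i <;> simp <;> ring
  have hhv : h *ᵥ v = 0 := by
    rw [← mulVec_mulVec] at hNv
    exact eq_zero_of_mulVec_eq_zero hs hNv
  have hc : ∀ j, ∃ c : k, pax (P j * h) = c • v := by
    intro j
    have h3 : (P j * h) *ᵥ v = 0 := by
      rw [← mulVec_mulVec, hhv, mulVec_zero]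
    obtain ⟨a0, a1, a2⟩ := pka_ker h2 _ (hPh j) v h3
    exact pka_par v _ hv0 (by linear_combination -a0) (by linear_combination -a1) (by linear_combination -a2)
  choose c hc using hc
  have ht : ∃ t : Fin 2 → k, t ≠ 0 ∧ t 0 * c 0 + t 1 * c 1 = 0 := by
    by_cases h0 : c 0 = 0
    · refine ⟨![1, 0], ?_, by simp [h0]⟩
      intro h3
      simpa using congrFun h3 0
    · refine ⟨![c 1, - c 0], ?_, by simp; ring⟩
      intro h3
      apply h0
      simpa using congrFun h3 1
  obtain ⟨t, ht0, ht⟩ := ht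
  have hM : ap P t * h = 0 := by
    refine pka_zero h2 _ (hN t) ?_
    have h3 : pax (ap P t * h) = t 0 • pax (P 0 * h) + t 1 • pax (P 1 * h) := by
      simp only [ap, Fin.sum_univ_two, Matrix.add_mul, Matrix.smul_mul, pax]
      funext i
      fin_cases i <;> simp
    rw [h3, hc, hc, smul_smul, smul_smul, ← add_smul, ht, zero_smul]
  have hrow : ∀ i, ∃ a : k, ap P t i = a • (v ᵥ* ap P s) := by
    intro i
    have h3 : ap P t i ᵥ* h = 0 := by
      have h4 := congrFun hM i
      rw [mul_apply_eq_vecMul] at h4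
      exact h4
    set x := ap P t i ᵥ* (ap P s)⁻¹ with hx
    have h4 : x ᵥ* ap P s = ap P t i := by
      rw [hx, vecMul_vecMul, nonsing_inv_mul _ hunit, vecMul_one]
    have h5 : (ap P s * h) *ᵥ x = 0 := by
      have h6 : x ᵥ* (ap P s * h) = 0 := by
        rw [← vecMul_vecMul, h4, h3]
      rw [← mulVec_transpose, hN s, neg_mulVec, neg_eq_zero] at h6
      exact h6
    obtain ⟨a0, a1, a2⟩ := pka_ker h2 _ (hN s) x h5
    obtain ⟨a, ha⟩ := pka_par v x hv0 a0 a1 a2
    refine ⟨a, ?_⟩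
    rw [← h4, ha, smul_vecMul]
  choose a ha using hrow
  apply hadj t ht0
  have hent : ∀ i j, ap P t i j = a i * (v ᵥ* ap P s) j := fun i j => by
    rw [ha]
    rfl
  rw [adjugate_fin_three]
  ext i j
  fin_cases i <;> fin_cases j <;> simp only [hent, Matrix.zero_apply, of_apply, cons_val', cons_val_zero, cons_val_one,
    cons_val, cons_val_fin_one, Fin.zero_eta, Fin.mk_one, Fin.reduceFinMk] <;> ring

end Pool.Agent.T1
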