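import Mathlib
namespace Pool.Agent.T1
/-- the determinant of the conic `pA` of a tetrad in terms of the invariants (see TPP) -/
def PMf {k : Type*} [Field k] (x0 x1 x2 x3 w01 w02 w03 w12 w13 w23 s00 s11 s22 s33 s01 s23 ν θ u : k) : k :=
  let a11 := 2 * x2 * x3 * θ + 4 * (x2 * s33 + x3 * s22) - u * w23 ^ 2 / 2
  let a22 := 2 * x0 * x1 * θ + 4 * (x0 * s11 + x1 * s00) - u * w01 ^ 2 / 2
  let a12 := (x0 * x1 * w23 ^ 2 + x2 * x3 * w01 ^ 2 - x0 * x2 * w13 ^ 2 - x0 * x3 * w12 ^ 2 -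
    x1 * x2 * w03 ^ 2 - x1 * x3 * w02 ^ 2 - 4 * ν - u * θ) / 2
  let a33 := -(2 * θ) - 2 * (w02 * w13 + w03 * w12)
  let a13 := x2 * (w03 * w13) + x3 * (w02 * w12) - 4 * s23
  let a23 := x0 * (w12 * w13) + x1 * (w02 * w03) - 4 * s01
  a11 * a22 * a33 + 2 * a12 * a13 * a23 - a11 * a23 ^ 2 - a22 * a13 ^ 2 - a33 * a12 ^ 2

theorem pmx {k : Type*} [Field k] [CharZero k] (x0 x1 x2 x3 p0 q0 p1 q1 p2 q2 p3 q3 a b c θ u : k) :
    PMf x0 x1 x2 x3 (p0 * q1 - q0 * p1) (p0 * q2 - q0 * p2) (p0 * q3 - q0 * p3) (p1 * q2 - q1 * p2)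
      (p1 * q3 - q1 * p3) (p2 * q3 - q2 * p3) 
      ((a * (p0 * p0) + b * (p0 * q0 + q0 * p0) + c * (q0 * q0)) / 2)
      ((a * (p1 * p1) + b * (p1 * q1 + q1 * p1) + c * (q1 * q1)) / 2)
      ((a * (p2 * p2) + b * (p2 * q2 + q2 * p2) + c * (q2 * q2)) / 2)
      ((a * (p3 * p3) + b * (p3 * q3 + q3 * p3) + c * (q3 * q3)) / 2)
      ((a * (p0 * p1) + b * (p0 * q1 + q0 * p1) + c * (q0 * q1)) / 2)
      ((a * (p2 * p3) + b * (p2 * q3 + q2 * p3) + c * (q2 * q3)) / 2) (a * c - b ^ 2) θ u =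
    PMf x0 x2 x1 x3 (p0 * q2 - q0 * p2) (p0 * q1 - q0 * p1) (p0 * q3 - q0 * p3) (p2 * q1 - q2 * p1)
      (p2 * q3 - q2 * p3) (p1 * q3 - q1 * p3) 
      ((a * (p0 * p0) + b * (p0 * q0 + q0 * p0) + c * (q0 * q0)) / 2)
      ((a * (p2 * p2) + b * (p2 * q2 + q2 * p2) + c * (q2 * q2)) / 2)
      ((a * (p1 * p1) + b * (p1 * q1 + q1 * p1) + c * (q1 * q1)) / 2)
      ((a * (p3 * p3) + b * (p3 * q3 + q3 * p3) + c * (q3 * q3)) / 2)
      ((a * (p0 * p2) + b * (p0 * q2 + q0 * p2) + c * (q0 * q2)) / 2)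
      ((a * (p1 * p3) + b * (p1 * q3 + q1 * p3) + c * (q1 * q3)) / 2) (a * c - b ^ 2)
      (θ + (p0 * q3 - q0 * p3) * (p1 * q2 - q1 * p2)) u := by
  have h12 : p2 * q1 - q2 * p1 = -(p1 * q2 - q1 * p2) := by ring
  rw [h12]
  obtain ⟨w01, Hw01⟩ : ∃ z : k, z = p0 * q1 - q0 * p1 := ⟨_, rfl⟩
  obtain ⟨w02, Hw02⟩ : ∃ z : k, z = p0 * q2 - q0 * p2 := ⟨_, rfl⟩
  obtain ⟨w03, Hw03⟩ : ∃ z : k, z = p0 * q3 - q0 * p3 := ⟨_, rfl⟩
  obtain ⟨w12, Hw12⟩ : ∃ z : k, z = p1 * q2 - q1 * p2 := ⟨_, rfl⟩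
  obtain ⟨w13, Hw13⟩ : ∃ z : k, z = p1 * q3 - q1 * p3 := ⟨_, rfl⟩
  obtain ⟨w23, Hw23⟩ : ∃ z : k, z = p2 * q3 - q2 * p3 := ⟨_, rfl⟩
  obtain ⟨s00, Hs00⟩ : ∃ z : k, z = (a * (p0 * p0) + b * (p0 * q0 + q0 * p0) + c * (q0 * q0)) / 2 := ⟨_, rfl⟩
  obtain ⟨s11, Hs11⟩ : ∃ z : k, z = (a * (p1 * p1) + b * (p1 * q1 + q1 * p1) + c * (q1 * q1)) / 2 := ⟨_, rfl⟩
  obtain ⟨s22, Hs22⟩ : ∃ z : k, z = (a * (p2 * p2) + b * (p2 * q2 + q2 * p2) + c * (q2 * q2)) / 2 := ⟨_, rfl⟩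
  obtain ⟨s33, Hs33⟩ : ∃ z : k, z = (a * (p3 * p3) + b * (p3 * q3 + q3 * p3) + c * (q3 * q3)) / 2 := ⟨_, rfl⟩
  obtain ⟨s01, Hs01⟩ : ∃ z : k, z = (a * (p0 * p1) + b * (p0 * q1 + q0 * p1) + c * (q0 * q1)) / 2 := ⟨_, rfl⟩
  obtain ⟨s23, Hs23⟩ : ∃ z : k, z = (a * (p2 * p3) + b * (p2 * q3 + q2 * p3) + c * (q2 * q3)) / 2 := ⟨_, rfl⟩
  obtain ⟨s02, Hs02⟩ : ∃ z : k, z = (a * (p0 * p2) + b * (p0 * q2 + q0 * p2) + c * (q0 * q2)) / 2 := ⟨_, rfl⟩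
  obtain ⟨s13, Hs13⟩ : ∃ z : k, z = (a * (p1 * p3) + b * (p1 * q3 + q1 * p3) + c * (q1 * q3)) / 2 := ⟨_, rfl⟩
  obtain ⟨ν, Hν⟩ : ∃ z : k, z = a * c - b ^ 2 := ⟨_, rfl⟩
  rw [← Hw01, ← Hw02, ← Hw03, ← Hw12, ← Hw13, ← Hw23, ← Hs00, ← Hs11, ← Hs22, ← Hs33, ← Hs01, ← Hs23, ← Hs02, ← Hs13, ← Hν]
  have h1 : -(64 * (ν * s01 * s23)) + 4 * (ν * θ * u * w02 * w13) + 4 * (ν * θ * u * w03 * w12) + 4 * (ν
      * θ * θ * u) + 8 * (ν * ν * θ) + 8 * (ν * ν * w02 * w13) + 8 * (ν * ν * w03 * w12) - 16 *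
      (s01 * s23 * θ * u) + 8 * (s01 * s01 * u * w23 * w23) + 8 * (s23 * s23 * u * w01 * w01) - 1
      / 2 * (θ * u * u * w01 * w01 * w23 * w23) + 1 / 2 * (θ * θ * u * u * w02 * w13) + 1 / 2 * (θ
      * θ * u * u * w03 * w12) + 1 / 2 * (θ * θ * θ * u * u) - 1 / 2 * (u * u * w01 * w01 * w02 *
      w13 * w23 * w23) - 1 / 2 * (u * u * w01 * w01 * w03 * w12 * w23 * w23) = -(64 * (ν * s02 *
      s13)) + 4 * (ν * θ * u * w01 * w23) + 4 * (ν * θ * u * w03 * w12) + 4 * (ν * θ * θ * u) + 4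
      * (ν * u * w01 * w03 * w12 * w23) + 8 * (ν * ν * θ) + 8 * (ν * ν * w01 * w23) - 16 * (s02 *
      s13 * θ * u) - 16 * (s02 * s13 * u * w03 * w12) + 8 * (s02 * s02 * u * w13 * w13) + 8 * (s13
      * s13 * u * w02 * w02) + θ * u * u * w01 * w03 * w12 * w23 - 1 / 2 * (θ * u * u * w02 * w02
      * w13 * w13) + 1 / 2 * (θ * u * u * w03 * w03 * w12 * w12) + 1 / 2 * (θ * θ * u * u * w01 *
      w23) + θ * θ * u * u * w03 * w12 + 1 / 2 * (θ * θ * θ * u * u) - 1 / 2 * (u * u * w01 * w02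
      * w02 * w13 * w13 * w23) + 1 / 2 * (u * u * w01 * w03 * w03 * w12 * w12 * w23) := by
    rw [Hw01, Hw02, Hw03, Hw12, Hw13, Hw23, Hs01, Hs23, Hs02, Hs13, Hν]
    ring
  have h2 : 16 * (ν * s23 * w12 * w13) - 4 * (s01 * u * w12 * w13 * w23 * w23) - 64 * (s11 * s23 * s23)
      + 4 * (s11 * θ * u * w23 * w23) + 4 * (s11 * u * w02 * w13 * w23 * w23) + 4 * (s11 * u * w03
      * w12 * w23 * w23) + 4 * (s23 * θ * u * w12 * w13) = -(16 * (ν * s13 * w12 * w23)) + 4 *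
      (s02 * u * w12 * w13 * w13 * w23) - 4 * (s13 * θ * u * w12 * w23) - 4 * (s13 * u * w03 * w12
      * w12 * w23) - 64 * (s13 * s13 * s22) + 4 * (s22 * θ * u * w13 * w13) + 4 * (s22 * u * w01 *
      w13 * w13 * w23) := by
    rw [Hw01, Hw02, Hw03, Hw12, Hw13, Hw23, Hs11, Hs22, Hs01, Hs23, Hs02, Hs13, Hν]
    ring
  have h3 : 16 * (ν * s23 * w02 * w03) - 64 * (s00 * s23 * s23) + 4 * (s00 * θ * u * w23 * w23) + 4 *
      (s00 * u * w02 * w13 * w23 * w23) + 4 * (s00 * u * w03 * w12 * w23 * w23) - 4 * (s01 * u *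
      w02 * w03 * w23 * w23) + 4 * (s23 * θ * u * w02 * w03) = 16 * (ν * s02 * w03 * w23) + 4 *
      (s02 * θ * u * w03 * w23) + 4 * (s02 * u * w03 * w03 * w12 * w23) - 64 * (s02 * s02 * s33) -
      4 * (s13 * u * w02 * w02 * w03 * w23) + 4 * (s33 * θ * u * w02 * w02) + 4 * (s33 * u * w01 *
      w02 * w02 * w23) := by
    rw [Hw01, Hw02, Hw03, Hw12, Hw13, Hw23, Hs00, Hs33, Hs01, Hs23, Hs02, Hs13, Hν]
    ring
  have h4 : 16 * (ν * s01 * w03 * w13) + 4 * (s01 * θ * u * w03 * w13) - 64 * (s01 * s01 * s33) - 4 *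
      (s23 * u * w01 * w01 * w03 * w13) + 4 * (s33 * θ * u * w01 * w01) + 4 * (s33 * u * w01 * w01
      * w02 * w13) + 4 * (s33 * u * w01 * w01 * w03 * w12) = 16 * (ν * s13 * w01 * w03) - 64 *
      (s00 * s13 * s13) + 4 * (s00 * θ * u * w13 * w13) + 4 * (s00 * u * w01 * w13 * w13 * w23) -
      4 * (s02 * u * w01 * w03 * w13 * w13) + 4 * (s13 * θ * u * w01 * w03) + 4 * (s13 * u * w01 *
      w03 * w03 * w12) := by
    rw [Hw01, Hw02, Hw03, Hw12, Hw13, Hw23, Hs00, Hs33, Hs01, Hs23, Hs02, Hs13, Hν]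
    ring
  have h5 : 16 * (ν * s01 * w02 * w12) + 4 * (s01 * θ * u * w02 * w12) - 64 * (s01 * s01 * s22) + 4 *
      (s22 * θ * u * w01 * w01) + 4 * (s22 * u * w01 * w01 * w02 * w13) + 4 * (s22 * u * w01 * w01
      * w03 * w12) - 4 * (s23 * u * w01 * w01 * w02 * w12) = -(16 * (ν * s02 * w01 * w12)) - 4 *
      (s02 * θ * u * w01 * w12) - 4 * (s02 * u * w01 * w03 * w12 * w12) - 64 * (s02 * s02 * s11) +
      4 * (s11 * θ * u * w02 * w02) + 4 * (s11 * u * w01 * w02 * w02 * w23) + 4 * (s13 * u * w01 *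
      w02 * w02 * w12) := by
    rw [Hw01, Hw02, Hw03, Hw12, Hw13, Hw23, Hs11, Hs22, Hs01, Hs23, Hs02, Hs13, Hν]
    ring
  have h6 : -(4 * (ν * θ * w23 * w23)) - 4 * (ν * w02 * w13 * w23 * w23) - 4 * (ν * w03 * w12 * w23 *
      w23) + 16 * (s01 * s23 * w23 * w23) - 32 * (s23 * s23 * θ) + θ * u * w02 * w13 * w23 * w23 +
      θ * u * w03 * w12 * w23 * w23 + θ * θ * u * w23 * w23 + u * w02 * w03 * w12 * w13 * w23 *
      w23 = 4 * (ν * θ * w23 * w23) + 4 * (ν * w01 * w23 * w23 * w23) + 4 * (ν * w03 * w12 * w23 *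
      w23) - 16 * (s02 * s13 * w23 * w23) - 32 * (s02 * s33 * w12 * w23) + 32 * (s13 * s22 * w03 *
      w23) - 32 * (s22 * s33 * θ) - 32 * (s22 * s33 * w01 * w23) + θ * u * w01 * w23 * w23 * w23 +
      2 * (θ * u * w03 * w12 * w23 * w23) + θ * θ * u * w23 * w23 + u * w01 * w03 * w12 * w23 *
      w23 * w23 + u * w03 * w03 * w12 * w12 * w23 * w23 := by
    rw [Hw01, Hw02, Hw03, Hw12, Hw13, Hw23, Hs22, Hs33, Hs01, Hs23, Hs02, Hs13, Hν]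
    ring
  have h7 : 4 * (ν * θ * w13 * w13) + 4 * (ν * w02 * w13 * w13 * w13) - 16 * (s01 * s23 * w13 * w13) +
      32 * (s01 * s33 * w12 * w13) + 32 * (s11 * s23 * w03 * w13) - 32 * (s11 * s33 * θ) - 32 *
      (s11 * s33 * w02 * w13) - 32 * (s11 * s33 * w03 * w12) + θ * u * w02 * w13 * w13 * w13 + θ *
      θ * u * w13 * w13 = -(4 * (ν * θ * w13 * w13)) - 4 * (ν * w01 * w13 * w13 * w23) + 16 * (s02
      * s13 * w13 * w13) - 32 * (s13 * s13 * θ) - 32 * (s13 * s13 * w03 * w12) + θ * u * w01 * w13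
      * w13 * w23 + θ * u * w03 * w12 * w13 * w13 + θ * θ * u * w13 * w13 := by
    rw [Hw01, Hw02, Hw03, Hw12, Hw13, Hw23, Hs11, Hs33, Hs01, Hs23, Hs02, Hs13, Hν]
    ring
  have h8 : 4 * (ν * θ * w12 * w12) + 4 * (ν * w03 * w12 * w12 * w12) + 32 * (s01 * s22 * w12 * w13) -
      16 * (s01 * s23 * w12 * w12) - 32 * (s11 * s22 * θ) - 32 * (s11 * s22 * w02 * w13) - 32 *
      (s11 * s22 * w03 * w12) + 32 * (s11 * s23 * w02 * w12) + θ * u * w03 * w12 * w12 * w12 + θ *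
      θ * u * w12 * w12 = 4 * (ν * θ * w12 * w12) - 32 * (s02 * s11 * w12 * w23) - 16 * (s02 * s13
      * w12 * w12) - 32 * (s11 * s22 * θ) - 32 * (s11 * s22 * w01 * w23) - 32 * (s13 * s22 * w01 *
      w12) + θ * u * w03 * w12 * w12 * w12 + θ * θ * u * w12 * w12 := by
    rw [Hw01, Hw02, Hw03, Hw12, Hw13, Hw23, Hs11, Hs22, Hs01, Hs23, Hs02, Hs13, Hν]
    ring
  have h9 : 4 * (ν * θ * w03 * w03) + 4 * (ν * w03 * w03 * w03 * w12) + 32 * (s00 * s23 * w03 * w13) -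
      32 * (s00 * s33 * θ) - 32 * (s00 * s33 * w02 * w13) - 32 * (s00 * s33 * w03 * w12) - 16 *
      (s01 * s23 * w03 * w03) + 32 * (s01 * s33 * w02 * w03) + θ * u * w03 * w03 * w03 * w12 + θ *
      θ * u * w03 * w03 = 4 * (ν * θ * w03 * w03) + 32 * (s00 * s13 * w03 * w23) - 32 * (s00 * s33
      * θ) - 32 * (s00 * s33 * w01 * w23) - 16 * (s02 * s13 * w03 * w03) + 32 * (s02 * s33 * w01 *
      w03) + θ * u * w03 * w03 * w03 * w12 + θ * θ * u * w03 * w03 := by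
    rw [Hw01, Hw02, Hw03, Hw12, Hw13, Hw23, Hs00, Hs33, Hs01, Hs23, Hs02, Hs13, Hν]
    ring
  have h10 : 4 * (ν * θ * w02 * w02) + 4 * (ν * w02 * w02 * w02 * w13) - 32 * (s00 * s22 * θ) - 32 * (s00
      * s22 * w02 * w13) - 32 * (s00 * s22 * w03 * w12) + 32 * (s00 * s23 * w02 * w12) + 32 * (s01
      * s22 * w02 * w03) - 16 * (s01 * s23 * w02 * w02) + θ * u * w02 * w02 * w02 * w13 + θ * θ *
      u * w02 * w02 = -(4 * (ν * θ * w02 * w02)) - 4 * (ν * w01 * w02 * w02 * w23) + 16 * (s02 *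
      s13 * w02 * w02) - 32 * (s02 * s02 * θ) - 32 * (s02 * s02 * w03 * w12) + θ * u * w01 * w02 *
      w02 * w23 + θ * u * w02 * w02 * w03 * w12 + θ * θ * u * w02 * w02 := by
    rw [Hw01, Hw02, Hw03, Hw12, Hw13, Hw23, Hs00, Hs22, Hs01, Hs23, Hs02, Hs13, Hν]
    ring
  have h11 : -(4 * (ν * θ * w01 * w01)) - 4 * (ν * w01 * w01 * w02 * w13) - 4 * (ν * w01 * w01 * w03 *
      w12) + 16 * (s01 * s23 * w01 * w01) - 32 * (s01 * s01 * θ) + θ * u * w01 * w01 * w02 * w13 +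
      θ * u * w01 * w01 * w03 * w12 + θ * θ * u * w01 * w01 + u * w01 * w01 * w02 * w03 * w12 *
      w13 = 4 * (ν * θ * w01 * w01) + 4 * (ν * w01 * w01 * w03 * w12) + 4 * (ν * w01 * w01 * w01 *
      w23) - 32 * (s00 * s11 * θ) - 32 * (s00 * s11 * w01 * w23) - 32 * (s00 * s13 * w01 * w12) +
      32 * (s02 * s11 * w01 * w03) - 16 * (s02 * s13 * w01 * w01) + 2 * (θ * u * w01 * w01 * w03 *
      w12) + θ * u * w01 * w01 * w01 * w23 + θ * θ * u * w01 * w01 + u * w01 * w01 * w03 * w03 *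
      w12 * w12 + u * w01 * w01 * w01 * w03 * w12 * w23 := by
    rw [Hw01, Hw02, Hw03, Hw12, Hw13, Hw23, Hs00, Hs11, Hs01, Hs23, Hs02, Hs13, Hν]
    ring
  have h12 : -(4 * (s01 * w03 * w13 * w23 * w23)) + 16 * (s23 * θ * w03 * w13) + 4 * (s23 * w02 * w03 *
      w13 * w13) + 4 * (s23 * w03 * w03 * w12 * w13) - 16 * (s33 * θ * w02 * w13) - 16 * (s33 * θ
      * w03 * w12) - 16 * (s33 * θ * θ) - 8 * (s33 * w02 * w03 * w12 * w13) = -(4 * (s02 * w03 *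
      w13 * w13 * w23)) + 16 * (s13 * θ * w03 * w23) + 4 * (s13 * w01 * w03 * w23 * w23) + 12 *
      (s13 * w03 * w03 * w12 * w23) - 16 * (s33 * θ * w01 * w23) - 16 * (s33 * θ * w03 * w12) - 16
      * (s33 * θ * θ) - 8 * (s33 * w01 * w03 * w12 * w23) := by
    rw [Hw01, Hw02, Hw03, Hw12, Hw13, Hw23, Hs33, Hs01, Hs23, Hs02, Hs13]
    ring
  have h13 : -(4 * (s01 * w02 * w12 * w23 * w23)) - 16 * (s22 * θ * w02 * w13) - 16 * (s22 * θ * w03 *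
      w12) - 16 * (s22 * θ * θ) - 8 * (s22 * w02 * w03 * w12 * w13) + 16 * (s23 * θ * w02 * w12) +
      4 * (s23 * w02 * w03 * w12 * w12) + 4 * (s23 * w02 * w02 * w12 * w13) = -(16 * (s02 * θ *
      w12 * w23)) - 4 * (s02 * w01 * w12 * w23 * w23) - 12 * (s02 * w03 * w12 * w12 * w23) + 4 *
      (s13 * w02 * w02 * w12 * w23) - 16 * (s22 * θ * w01 * w23) - 16 * (s22 * θ * w03 * w12) - 16
      * (s22 * θ * θ) - 8 * (s22 * w01 * w03 * w12 * w23) := by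
    rw [Hw01, Hw02, Hw03, Hw12, Hw13, Hw23, Hs22, Hs01, Hs23, Hs02, Hs13]
    ring
  have h14 : -(4 * (s23 * w02 * w03 * w23 * w23)) = 4 * (s02 * w03 * w23 * w23 * w23) - 4 * (s22 * w03 *
      w03 * w23 * w23) := by
    rw [Hw02, Hw03, Hw23, Hs22, Hs23, Hs02]
    ring
  have h15 : 16 * (s01 * θ * w12 * w13) + 4 * (s01 * w02 * w12 * w13 * w13) + 4 * (s01 * w03 * w12 * w12
      * w13) - 16 * (s11 * θ * w02 * w13) - 16 * (s11 * θ * w03 * w12) - 16 * (s11 * θ * θ) - 8 *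
      (s11 * w02 * w03 * w12 * w13) - 4 * (s23 * w01 * w01 * w12 * w13) = 4 * (s02 * w01 * w12 *
      w13 * w13) - 16 * (s11 * θ * w01 * w23) - 16 * (s11 * θ * w03 * w12) - 16 * (s11 * θ * θ) -
      8 * (s11 * w01 * w03 * w12 * w23) - 16 * (s13 * θ * w01 * w12) - 12 * (s13 * w01 * w03 * w12
      * w12) - 4 * (s13 * w01 * w01 * w12 * w23) := by
    rw [Hw01, Hw02, Hw03, Hw12, Hw13, Hw23, Hs11, Hs01, Hs23, Hs02, Hs13]
    ring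
  have h16 : 4 * (s01 * w03 * w13 * w13 * w13) - 4 * (s11 * w03 * w03 * w13 * w13) = -(4 * (s13 * w01 *
      w03 * w13 * w13)) := by
    rw [Hw01, Hw03, Hw13, Hs11, Hs01, Hs13]
    ring
  have h17 : 4 * (s01 * w02 * w12 * w12 * w12) - 4 * (s11 * w02 * w02 * w12 * w12) = -(4 * (s02 * w01 *
      w12 * w12 * w12)) - 4 * (s22 * w01 * w01 * w12 * w12) := by
    rw [Hw01, Hw02, Hw12, Hs11, Hs22, Hs01, Hs02]
    ring
  have h18 : -(4 * (s23 * w12 * w13 * w23 * w23)) = -(4 * (s13 * w12 * w23 * w23 * w23)) - 4 * (s33 * w12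
      * w12 * w23 * w23) := by
    rw [Hw12, Hw13, Hw23, Hs33, Hs23, Hs13]
    ring
  have h19 : 4 * (s23 * w12 * w13 * w13 * w13) - 4 * (s33 * w12 * w12 * w13 * w13) = 4 * (s13 * w12 * w13
      * w13 * w23) := by
    rw [Hw12, Hw13, Hw23, Hs33, Hs23, Hs13]
    ring
  have h20 : -(4 * (s22 * w12 * w12 * w13 * w13)) + 4 * (s23 * w12 * w12 * w12 * w13) = -(4 * (s11 * w12
      * w12 * w23 * w23)) - 4 * (s13 * w12 * w12 * w12 * w23) := by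
    rw [Hw12, Hw13, Hw23, Hs11, Hs22, Hs23, Hs13]
    ring
  have h21 : -(16 * (s00 * θ * w02 * w13)) - 16 * (s00 * θ * w03 * w12) - 16 * (s00 * θ * θ) - 8 * (s00 *
      w02 * w03 * w12 * w13) + 16 * (s01 * θ * w02 * w03) + 4 * (s01 * w02 * w03 * w03 * w12) + 4
      * (s01 * w02 * w02 * w03 * w13) - 4 * (s23 * w01 * w01 * w02 * w03) = -(16 * (s00 * θ * w01
      * w23)) - 16 * (s00 * θ * w03 * w12) - 16 * (s00 * θ * θ) - 8 * (s00 * w01 * w03 * w12 *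
      w23) + 16 * (s02 * θ * w01 * w03) + 12 * (s02 * w01 * w03 * w03 * w12) + 4 * (s02 * w01 *
      w01 * w03 * w23) - 4 * (s13 * w01 * w02 * w02 * w03) := by
    rw [Hw01, Hw02, Hw03, Hw12, Hw13, Hw23, Hs00, Hs01, Hs23, Hs02, Hs13]
    ring
  have h22 : -(4 * (s00 * w03 * w03 * w13 * w13)) + 4 * (s01 * w03 * w03 * w03 * w13) = 4 * (s13 * w01 *
      w03 * w03 * w03) - 4 * (s33 * w01 * w01 * w03 * w03) := by
    rw [Hw01, Hw03, Hw13, Hs00, Hs33, Hs01, Hs13]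
    ring
  have h23 : -(4 * (s00 * w02 * w02 * w12 * w12)) + 4 * (s01 * w02 * w02 * w02 * w12) = 4 * (s02 * w01 *
      w02 * w02 * w12) := by
    rw [Hw01, Hw02, Hw12, Hs00, Hs01, Hs02]
    ring
  have h24 : 4 * (s23 * w02 * w03 * w03 * w03) - 4 * (s33 * w02 * w02 * w03 * w03) = -(4 * (s00 * w03 *
      w03 * w23 * w23)) + 4 * (s02 * w03 * w03 * w03 * w23) := by
    rw [Hw02, Hw03, Hw23, Hs00, Hs33, Hs23, Hs02]
    ring
  have h25 : -(4 * (s22 * w02 * w02 * w03 * w03)) + 4 * (s23 * w02 * w02 * w02 * w03) = -(4 * (s02 * w02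
      * w02 * w03 * w23)) := by
    rw [Hw02, Hw03, Hw23, Hs22, Hs23, Hs02]
    ring
  have h26 : -(4 * (s01 * w01 * w01 * w02 * w12)) = -(4 * (s00 * w01 * w01 * w12 * w12)) - 4 * (s02 * w01
      * w01 * w01 * w12) := by
    rw [Hw01, Hw02, Hw12, Hs00, Hs01, Hs02]
    ring
  have h27 : -(4 * (s01 * w01 * w01 * w03 * w13)) = -(4 * (s11 * w01 * w01 * w03 * w03)) + 4 * (s13 * w01
      * w01 * w01 * w03) := by
    rw [Hw01, Hw03, Hw13, Hs11, Hs01, Hs13]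
    ring
  have h28 : θ * w01 * w01 * w23 * w23 - 8 * (θ * w02 * w03 * w12 * w13) + θ * w02 * w02 * w13 * w13 + θ
      * w03 * w03 * w12 * w12 - 8 * (θ * θ * w02 * w13) - 8 * (θ * θ * w03 * w12) - 8 * (θ * θ *
      θ) + w01 * w01 * w02 * w13 * w23 * w23 + w01 * w01 * w03 * w12 * w23 * w23 - w02 * w03 * w03
      * w12 * w12 * w13 - w02 * w02 * w03 * w12 * w13 * w13 + w02 * w02 * w02 * w13 * w13 * w13 +
      w03 * w03 * w03 * w12 * w12 * w12 = -(8 * (θ * w01 * w03 * w12 * w23)) + θ * w01 * w01 * w23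
      * w23 + θ * w02 * w02 * w13 * w13 - 7 * (θ * w03 * w03 * w12 * w12) - 8 * (θ * θ * w01 *
      w23) - 16 * (θ * θ * w03 * w12) - 8 * (θ * θ * θ) + w01 * w02 * w02 * w13 * w13 * w23 - w01
      * w03 * w03 * w12 * w12 * w23 + 2 * (w01 * w01 * w03 * w12 * w23 * w23) + w01 * w01 * w01 *
      w23 * w23 * w23 := by
    rw [Hw01, Hw02, Hw03, Hw12, Hw13, Hw23]
    ring
  have h29 : -(θ * w02 * w02 * w23 * w23) - w02 * w02 * w02 * w13 * w23 * w23 = -(θ * w02 * w02 * w23 *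
      w23) - w01 * w02 * w02 * w23 * w23 * w23 - w02 * w02 * w03 * w12 * w23 * w23 := by
    rw [Hw01, Hw02, Hw03, Hw12, Hw13, Hw23]
    ring
  have h30 : -(θ * w01 * w01 * w13 * w13) - w01 * w01 * w02 * w13 * w13 * w13 = -(θ * w01 * w01 * w13 *
      w13) - w01 * w01 * w03 * w12 * w13 * w13 - w01 * w01 * w01 * w13 * w13 * w23 := by
    rw [Hw01, Hw02, Hw03, Hw12, Hw13, Hw23]
    ring
  have h31 : -(θ * w13 * w13 * w23 * w23) - w02 * w13 * w13 * w13 * w23 * w23 = -(θ * w13 * w13 * w23 *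
      w23) - w01 * w13 * w13 * w23 * w23 * w23 - w03 * w12 * w13 * w13 * w23 * w23 := by
    rw [Hw01, Hw02, Hw03, Hw12, Hw13, Hw23]
    ring
  have h32 : 1 / 2 * (θ * w23 * w23 * w23 * w23) + 1 / 2 * (w02 * w13 * w23 * w23 * w23 * w23) + 1 / 2 *
      (w03 * w12 * w23 * w23 * w23 * w23) = 1 / 2 * (θ * w23 * w23 * w23 * w23) + 1 / 2 * (w01 *
      w23 * w23 * w23 * w23 * w23) + w03 * w12 * w23 * w23 * w23 * w23 := by
    rw [Hw01, Hw02, Hw03, Hw12, Hw13, Hw23]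
    ring
  have h33 : 1 / 2 * (θ * w13 * w13 * w13 * w13) + 1 / 2 * (w02 * w13 * w13 * w13 * w13 * w13) - 1 / 2 *
      (w03 * w12 * w13 * w13 * w13 * w13) = 1 / 2 * (θ * w13 * w13 * w13 * w13) + 1 / 2 * (w01 *
      w13 * w13 * w13 * w13 * w23) := by
    rw [Hw01, Hw02, Hw03, Hw12, Hw13, Hw23]
    ring
  have h34 : 1 / 2 * (θ * w12 * w12 * w12 * w12) - 1 / 2 * (w02 * w12 * w12 * w12 * w12 * w13) + 1 / 2 *
      (w03 * w12 * w12 * w12 * w12 * w12) = 1 / 2 * (θ * w12 * w12 * w12 * w12) - 1 / 2 * (w01 *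
      w12 * w12 * w12 * w12 * w23) := by
    rw [Hw01, Hw02, Hw03, Hw12, Hw13, Hw23]
    ring
  have h35 : -(θ * w01 * w01 * w02 * w02) - w01 * w01 * w02 * w02 * w02 * w13 = -(θ * w01 * w01 * w02 *
      w02) - w01 * w01 * w02 * w02 * w03 * w12 - w01 * w01 * w01 * w02 * w02 * w23 := by
    rw [Hw01, Hw02, Hw03, Hw12, Hw13, Hw23]
    ring
  have h36 : 1 / 2 * (θ * w03 * w03 * w03 * w03) - 1 / 2 * (w02 * w03 * w03 * w03 * w03 * w13) + 1 / 2 *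
      (w03 * w03 * w03 * w03 * w03 * w12) = 1 / 2 * (θ * w03 * w03 * w03 * w03) - 1 / 2 * (w01 *
      w03 * w03 * w03 * w03 * w23) := by
    rw [Hw01, Hw02, Hw03, Hw12, Hw13, Hw23]
    ring
  have h37 : 1 / 2 * (θ * w02 * w02 * w02 * w02) - 1 / 2 * (w02 * w02 * w02 * w02 * w03 * w12) + 1 / 2 *
      (w02 * w02 * w02 * w02 * w02 * w13) = 1 / 2 * (θ * w02 * w02 * w02 * w02) + 1 / 2 * (w01 *
      w02 * w02 * w02 * w02 * w23) := by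
    rw [Hw01, Hw02, Hw03, Hw12, Hw13, Hw23]
    ring
  have h38 : 1 / 2 * (θ * w01 * w01 * w01 * w01) + 1 / 2 * (w01 * w01 * w01 * w01 * w02 * w13) + 1 / 2 *
      (w01 * w01 * w01 * w01 * w03 * w12) = 1 / 2 * (θ * w01 * w01 * w01 * w01) + w01 * w01 * w01
      * w01 * w03 * w12 + 1 / 2 * (w01 * w01 * w01 * w01 * w01 * w23) := by
    rw [Hw01, Hw02, Hw03, Hw12, Hw13, Hw23]
    ring
  clear Hw01 Hw02 Hw03 Hw12 Hw13 Hw23 Hs00 Hs11 Hs22 Hs33 Hs01 Hs23 Hs02 Hs13 Hν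
  simp only [PMf]
  linear_combination h1 + (x0) * h2 + (x1) * h3 + (x2) * h4 + (x3) * h5 + (x0 * x1) * h6 + (x0 * x2) * h7 + (x0 *
    x3) * h8 + (x1 * x2) * h9 + (x1 * x3) * h10 + (x2 * x3) * h11 + (x0 * x1 * x2) * h12 + (x0 *
    x1 * x3) * h13 + (x0 * x1 * x1) * h14 + (x0 * x2 * x3) * h15 + (x0 * x2 * x2) * h16 + (x0 *
    x3 * x3) * h17 + (x0 * x0 * x1) * h18 + (x0 * x0 * x2) * h19 + (x0 * x0 * x3) * h20 + (x1 *
    x2 * x3) * h21 + (x1 * x2 * x2) * h22 + (x1 * x3 * x3) * h23 + (x1 * x1 * x2) * h24 + (x1 *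
    x1 * x3) * h25 + (x2 * x3 * x3) * h26 + (x2 * x2 * x3) * h27 + (x0 * x1 * x2 * x3) * h28 +
    (x0 * x1 * x1 * x3) * h29 + (x0 * x2 * x2 * x3) * h30 + (x0 * x0 * x1 * x2) * h31 + (x0 * x0
    * x1 * x1) * h32 + (x0 * x0 * x2 * x2) * h33 + (x0 * x0 * x3 * x3) * h34 + (x1 * x2 * x3 *
    x3) * h35 + (x1 * x1 * x2 * x2) * h36 + (x1 * x1 * x3 * x3) * h37 + (x2 * x2 * x3 * x3) *
    h38
end Pool.Agent.T1
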