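import Pool.Agent.T1.DFB

/-!
# T1 / QPT: the generic point on `P¹ × P¹`

`y := φ' ξ` (with `φ'` mapped to `Φ`), `ξ = φ y`, so `y ≠ 0`; `eval₂ _ y (ls φ Q) = eval₂ _ ξ Q = 0` (`eval₂_ls`), so `y (0,0) y (1,1) = y (0,1) y (1,0)`.  If `y (m, n) ≠ 0`: `sg i := y (i, n)`, `tu j := y (m, j) / y (m, n)`:
`y (i, j) = sg i * tu j`.  `dfb_eval₂`.  Generation: let `E` be the field generated by the ratios of `sg` and `tu`; choose `sg a ≠ 0`, `tu b ≠ 0`; `ξ i / (sg a * tu b) = ∑ φ i (k, l) (sg k / sg a) (tu l / tu b) ∈ E`, so all `ξ i / ξ j ∈ E`.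
-/

namespace Pool.Agent.T1

open MvPolynomial Matrix

theorem qpt {C Φ : Type*} [Field C] [Field Φ] [Algebra C Φ] (φ : Matrix (Fin 4) (Fin 2 × Fin 2) C)
    (φ' : Matrix (Fin 2 × Fin 2) (Fin 4) C) (h1 : φ * φ' = 1) (Q F : MvPolynomial (Fin 4) C)
    (hQ : ls φ Q = qd C) (ξ : Fin 4 → Φ) (hξ : ξ ≠ 0) (hQξ : eval₂ (algebraMap C Φ) ξ Q = 0)
    (hFξ : eval₂ (algebraMap C Φ) ξ F = 0)
    (hgen : IntermediateField.adjoin C {z : Φ | ∃ i j, z = ξ i / ξ j} = ⊤) :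
    ∃ sg tu : Fin 2 → Φ, sg ≠ 0 ∧ tu ≠ 0 ∧ eval₂ (algebraMap C Φ) (pt sg tu) (dF (ls φ F)) = 0 ∧
      IntermediateField.adjoin C {z : Φ | ∃ i j, z = sg i / sg j ∨ z = tu i / tu j} = ⊤ := by
  obtain ⟨y, hy⟩ : ∃ y : Fin 2 × Fin 2 → Φ, y = (φ'.map (algebraMap C Φ)) *ᵥ ξ := ⟨_, rfl⟩
  have hy1 : (φ.map (algebraMap C Φ)) *ᵥ y = ξ := by
    rw [hy, Matrix.mulVec_mulVec, ← Matrix.map_mul, h1, Matrix.map_one _ (map_zero _) (map_one _),
      Matrix.one_mulVec]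
  have hy0 : y ≠ 0 := by
    intro h
    rw [h, Matrix.mulVec_zero] at hy1
    exact hξ hy1.symm
  have hQ1 : y (0, 0) * y (1, 1) = y (0, 1) * y (1, 0) := by
    have h2 := eval₂_ls (algebraMap C Φ) φ Q y
    rw [hQ, hy1, hQξ] at h2
    simp only [qd, eval₂_sub, eval₂_mul, eval₂_X] at h2
    linear_combination h2
  have key : ∀ i j m n, y (i, n) * y (m, j) = y (i, j) * y (m, n) := by
    intro i j m n
    fin_cases i <;> fin_cases j <;> fin_cases m <;> fin_cases n <;>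
      simp only [Fin.zero_eta, Fin.mk_one] <;> first
        | ring1
        | linear_combination (exp := 1) hQ1
        | linear_combination (exp := 1) -hQ1
  obtain ⟨⟨m, n⟩, hmn⟩ := Function.ne_iff.1 hy0
  rw [Pi.zero_apply] at hmn
  obtain ⟨sg, hsg⟩ : ∃ sg : Fin 2 → Φ, sg = fun i => y (i, n) := ⟨_, rfl⟩
  obtain ⟨tu, htu⟩ : ∃ tu : Fin 2 → Φ, tu = fun j => y (m, j) / y (m, n) := ⟨_, rfl⟩
  have hst : (fun ij : Fin 2 × Fin 2 => sg ij.1 * tu ij.2) = y := by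
    funext ij
    obtain ⟨i, j⟩ := ij
    rw [hsg, htu]
    simp only
    rw [mul_div_assoc', key, mul_div_assoc, div_self hmn, mul_one]
  have hsm : sg m ≠ 0 := by rw [hsg]; exact hmn
  have htn : tu n ≠ 0 := by
    rw [htu]
    simp only
    rw [div_self hmn]
    exact one_ne_zero
  refine ⟨sg, tu, fun h => hsm (by rw [h]; rfl), fun h => htn (by rw [h]; rfl), ?_, ?_⟩
  · rw [dfb_eval₂, hst, eval₂_ls, hy1]
    exact hFξ
  · rw [eq_top_iff, ← hgen, IntermediateField.adjoin_le_iff]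
    set E := IntermediateField.adjoin C {z : Φ | ∃ i j, z = sg i / sg j ∨ z = tu i / tu j} with hE
    have h2 : ∀ i j, sg i / sg j ∈ E := fun i j =>
      IntermediateField.subset_adjoin _ _ ⟨i, j, Or.inl rfl⟩
    have h3 : ∀ i j, tu i / tu j ∈ E := fun i j =>
      IntermediateField.subset_adjoin _ _ ⟨i, j, Or.inr rfl⟩
    have h4 : ∀ i, ξ i / (sg m * tu n) ∈ E := by
      intro i
      have h5 : ξ i / (sg m * tu n) =
          ∑ kl : Fin 2 × Fin 2, algebraMap C Φ (φ i kl) * ((sg kl.1 / sg m) * (tu kl.2 / tu n)) := by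
        rw [← hy1, ← hst]
        simp only [mulVec, dotProduct, Matrix.map_apply]
        rw [Finset.sum_div]
        refine Finset.sum_congr rfl fun kl _ => ?_
        rw [mul_div_assoc, div_mul_div_comm]
      rw [h5]
      exact sum_mem fun kl _ => mul_mem (E.algebraMap_mem _) (mul_mem (h2 _ _) (h3 _ _))
    rintro z ⟨i, j, rfl⟩
    have h6 : ξ i / ξ j = (ξ i / (sg m * tu n)) / (ξ j / (sg m * tu n)) :=
      (div_div_div_cancel_right₀ (mul_ne_zero hsm htn) _ _).symm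
    rw [h6]
    exact div_mem (h4 i) (h4 j)

end Pool.Agent.T1
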