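import Pool.Agent.T1.UNF
import Pool.Agent.T1.EXW
import Pool.Agent.T1.FNB
import Pool.Agent.T1.QPT
import Pool.Agent.T1.SPK

/-!
# T1 / QCF: the case of a smooth quadric

`spk_d` for `Q_C = map (algebraMap K C) Q` (`map_hs`): `φ, φ'`, `ls φ Q_C = qd`.  `D := dF (ls φ F_C)`: `dfb_hom`, `dfb_smo` (`CN qd (ls φ F_C)` from `CS.map`, `CS.cn`, `CN.tr`), `exw`, `unf` (`c₀ = 1`) gives `UNH 92 s D`; `qpt`; `fnb` with `c = 92`, `16 ≤ szK K T`.
-/

namespace Pool.Agent.T1

open MvPolynomial Matrix NumberField IsDedekindDomain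

theorem qcf {K C Φ : Type*} [Field K] [NumberField K] [Field C] [Algebra K C] [Algebra.IsAlgebraic K C]
    [IsAlgClosed C] [Field Φ] [Algebra C Φ] [Helper11.FunField C Φ]
    (T : Finset (HeightOneSpectrum (𝓞 K))) (Q F : MvPolynomial (Fin 4) K)
    (hQ : Q.IsHomogeneous 2) (hF : F.IsHomogeneous 3) (hS : CS Q F) (hd : (hs Q).det ≠ 0)
    (hT : GoodCO T Q F) (ξ : Fin 4 → Φ) (hξ : ξ ≠ 0)
    (hQξ : eval₂ ((algebraMap C Φ).comp (algebraMap K C)) ξ Q = 0)
    (hFξ : eval₂ ((algebraMap C Φ).comp (algebraMap K C)) ξ F = 0)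
    (hgen : IntermediateField.adjoin C {z : Φ | ∃ i j, z = ξ i / ξ j} = ⊤) :
    ∃ β : Φ, ESH.IsBelyi C β ∧
      Module.finrank (IntermediateField.adjoin C {β}) Φ ≤ ESH.tw 332 (ESH.szK K T) := by
  have hcz : CharZero C := charZero_of_injective_algebraMap (algebraMap K C).injective
  have h2 : (2 : C) ≠ 0 := two_ne_zero
  have hQC : (map (algebraMap K C) Q).IsHomogeneous 2 := hQ.map _
  have hFC : (map (algebraMap K C) F).IsHomogeneous 3 := hF.map _
  have hdC : (hs (map (algebraMap K C) Q)).det ≠ 0 := by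
    rw [map_hs]
    have h3 : ((hs Q).map (algebraMap K C)).det = algebraMap K C (hs Q).det := by
      rw [RingHom.map_det]; rfl
    rw [h3]
    exact (map_ne_zero _).2 hd
  have hN : CN (map (algebraMap K C) Q) (map (algebraMap K C) F) := (hS.map _).cn
  obtain ⟨φ, φ', h1, h1', hφ⟩ := spk_d h2 _ hQC hdC
  have hNφ : CN (qd C) (ls φ (map (algebraMap K C) F)) := by
    have h3 := hN.tr φ φ' h1' h1 1 1 one_ne_zero one_ne_zero 0
    rw [C_1, one_mul, one_mul, zero_mul, add_zero, hφ] at h3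
    exact h3
  have hφF := ls_hom φ hFC
  have hBH : BH (dF (ls φ (map (algebraMap K C) F))) 3 3 := BH_dF hφF
  have hSm : Smo (dF (ls φ (map (algebraMap K C) F))) := dfb_smo _ hNφ
  have hU := unf T Q F hQ hF hd hT φ φ' h1 1 one_ne_zero (by rw [C_1, one_mul]; exact hφ) hSm
  have hs16 : 16 ≤ ESH.szK K T := by
    rw [ESH.szK]
    omega
  rw [← eval₂_map] at hQξ hFξ
  obtain ⟨sg, tu, hsg, htu, h0, hg⟩ := qpt φ φ' h1 _ _ hφ ξ hξ hQξ hFξ hgen
  obtain ⟨p, hp⟩ := Function.ne_iff.1 hsg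
  obtain ⟨q, hq⟩ := Function.ne_iff.1 htu
  rw [Pi.zero_apply] at hp hq
  refine fnb hs16 (by norm_num : 2 ≤ 92) _ hφF hSm hU (Matrix.of fun i j => sg i * tu j) ?_ ?_ ?_ ?_
  · intro h
    have h3 := congrFun (congrFun h p) q
    exact mul_ne_zero hp hq h3
  · rw [Matrix.det_fin_two]
    simp only [Matrix.of_apply]
    ring
  · rw [dfb_eval₂] at h0
    exact h0
  · rw [eq_top_iff, ← hg]
    refine IntermediateField.adjoin_le_iff.2 ?_
    rintro z ⟨i, j, hz⟩
    rcases hz with hz | hz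
    · refine IntermediateField.subset_adjoin C _ ⟨i, q, j, q, ?_⟩
      rw [hz]
      simp only [Matrix.of_apply]
      rw [mul_div_mul_right _ _ hq]
    · refine IntermediateField.subset_adjoin C _ ⟨p, i, p, j, ?_⟩
      rw [hz]
      simp only [Matrix.of_apply]
      rw [mul_div_mul_left _ _ hp]

end Pool.Agent.T1
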