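import Pool.Agent.T1.RGU
import Pool.Agent.T1.BEZ

/-!
# T1 / RGN: counting rigid webs.  See the header of RGU.
-/

namespace Pool.Agent.T1

open MvPolynomial Matrix

section der

variable {k σ : Type*} [Field k] [Fintype σ]

/-- directional derivative at `p` -/
noncomputable def RGN_d (p v : σ → k) : MvPolynomial σ k →+ k where
  toFun f := ∑ j, v j * eval p (pderiv j f)
  map_zero' := by simp
  map_add' f g := by
    rw [← Finset.sum_add_distrib]
    exact Finset.sum_congr rfl fun j _ => by rw [map_add, map_add, mul_add]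

theorem RGN_d_apply (p v : σ → k) (f : MvPolynomial σ k) :
    RGN_d p v f = ∑ j, v j * eval p (pderiv j f) := rfl

theorem RGN_d_mul (p v : σ → k) (f g : MvPolynomial σ k) :
    RGN_d p v (f * g) = eval p f * RGN_d p v g + RGN_d p v f * eval p g := by
  rw [RGN_d_apply, RGN_d_apply, RGN_d_apply, Finset.mul_sum, Finset.sum_mul,
    ← Finset.sum_add_distrib]
  refine Finset.sum_congr rfl fun j _ => ?_
  rw [Derivation.leibniz, map_add, smul_eq_mul, smul_eq_mul, map_mul, map_mul]
  ring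

theorem RGN_d_C (p v : σ → k) (c : k) : RGN_d p v (C c) = 0 := by
  rw [RGN_d_apply]
  exact Finset.sum_eq_zero fun j _ => by rw [pderiv_C, map_zero, mul_zero]

theorem RGN_d_one (p v : σ → k) : RGN_d p v 1 = 0 := by
  rw [← C_1]; exact RGN_d_C p v 1

theorem RGN_d_X [DecidableEq σ] (p v : σ → k) (i : σ) : RGN_d p v (X i) = v i := by
  rw [RGN_d_apply, Finset.sum_eq_single i]
  · rw [pderiv_X_self, map_one, mul_one]
  · intro j _ hj
    rw [pderiv_X_of_ne hj.symm, map_zero, mul_zero]
  · intro h; exact absurd (Finset.mem_univ i) h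

/-- directional derivative of the coefficients -/
noncomputable def RGN_D (p v : σ → k) (F : P4 (MvPolynomial σ k)) : P4 k :=
  ∑ m ∈ F.support, monomial m (RGN_d p v (coeff m F))

theorem RGN_D_coeff (p v : σ → k) (F : P4 (MvPolynomial σ k)) (m : Fin 2 ⊕ Fin 2 →₀ ℕ) :
    coeff m (RGN_D p v F) = RGN_d p v (coeff m F) := by
  classical
  rw [RGN_D, coeff_sum]
  by_cases h : m ∈ F.support
  · rw [Finset.sum_eq_single m]
    · rw [coeff_monomial, if_pos rfl]
    · intro n _ hn
      rw [coeff_monomial, if_neg hn]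
    · intro h'; exact absurd h h'
  · rw [Finset.sum_eq_zero, notMem_support_iff.mp h, map_zero]
    intro n hn
    rw [coeff_monomial, if_neg]
    rintro rfl
    exact h hn

theorem RGN_D_add (p v : σ → k) (F G : P4 (MvPolynomial σ k)) :
    RGN_D p v (F + G) = RGN_D p v F + RGN_D p v G := by
  ext m
  rw [coeff_add, RGN_D_coeff, RGN_D_coeff, RGN_D_coeff, coeff_add, map_add]

theorem RGN_D_sub (p v : σ → k) (F G : P4 (MvPolynomial σ k)) :
    RGN_D p v (F - G) = RGN_D p v F - RGN_D p v G := by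
  ext m
  rw [coeff_sub, RGN_D_coeff, RGN_D_coeff, RGN_D_coeff, coeff_sub, map_sub]

theorem RGN_D_zero (p v : σ → k) : RGN_D p v 0 = 0 := by
  ext m
  rw [RGN_D_coeff, coeff_zero, coeff_zero, map_zero]

theorem RGN_D_sum (p v : σ → k) {α : Type*} (s : Finset α) (F : α → P4 (MvPolynomial σ k)) :
    RGN_D p v (∑ i ∈ s, F i) = ∑ i ∈ s, RGN_D p v (F i) := by
  classical
  induction s using Finset.induction_on with
  | empty => simp [RGN_D_zero]
  | insert i s hi ih => rw [Finset.sum_insert hi, Finset.sum_insert hi, RGN_D_add, ih]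

theorem RGN_D_mul (p v : σ → k) (F G : P4 (MvPolynomial σ k)) :
    RGN_D p v (F * G) = map (eval p) F * RGN_D p v G + RGN_D p v F * map (eval p) G := by
  classical
  ext m
  rw [coeff_add, RGN_D_coeff, coeff_mul, coeff_mul, coeff_mul, map_sum,
    ← Finset.sum_add_distrib]
  refine Finset.sum_congr rfl fun x _ => ?_
  rw [RGN_d_mul, RGN_D_coeff, RGN_D_coeff, coeff_map, coeff_map]

theorem RGN_D_C (p v : σ → k) (c : MvPolynomial σ k) : RGN_D p v (C c) = C (RGN_d p v c) := by
  classical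
  ext m
  rw [RGN_D_coeff, coeff_C, coeff_C]
  split_ifs
  · rfl
  · exact map_zero _

theorem RGN_D_X (p v : σ → k) (i : Fin 2 ⊕ Fin 2) : RGN_D p v (X i) = 0 := by
  classical
  ext m
  rw [RGN_D_coeff, coeff_X, coeff_zero]
  split_ifs
  · exact RGN_d_one p v
  · exact map_zero _

theorem RGN_D_pb (p v : σ → k) (x : Matrix (Fin 2) (Fin 2) (MvPolynomial σ k)) :
    RGN_D p v (pb x) = pb (x.map (RGN_d p v)) := by
  simp only [pb, RGN_D_sum, RGN_D_mul, RGN_D_X, RGN_D_C, mul_zero, zero_add, map_X, Matrix.map_apply]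

theorem RGN_D_det (p v : σ → k) (A : Matrix (Fin 3) (Fin 3) (P4 (MvPolynomial σ k))) :
    RGN_D p v A.det = ((A.map (map (eval p))).adjugate * A.map (RGN_D p v)).trace := by
  rw [Matrix.det_fin_three, Matrix.adjugate_fin_three, Matrix.trace_fin_three]
  simp only [Matrix.mul_apply, Fin.sum_univ_three, Matrix.map_apply, Matrix.of_apply,
    RGN_D_sub, RGN_D_add, RGN_D_mul, map_mul, Matrix.cons_val', Matrix.cons_val_zero,
    Matrix.cons_val_one, Matrix.cons_val_two, Matrix.empty_val', Matrix.cons_val_fin_one,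
    Matrix.tail_cons, Matrix.head_cons, Matrix.head_fin_const]
  ring

/-- all coefficients have degree at most `d` -/
def RGN_cd (d : ℕ) (F : P4 (MvPolynomial σ k)) : Prop := ∀ m, (coeff m F).totalDegree ≤ d

theorem RGN_cd_mono {d e : ℕ} (h : d ≤ e) {F : P4 (MvPolynomial σ k)} (hF : RGN_cd d F) :
    RGN_cd e F := fun m => (hF m).trans h

theorem RGN_cd_add {d : ℕ} {F G : P4 (MvPolynomial σ k)} (hF : RGN_cd d F) (hG : RGN_cd d G) :
    RGN_cd d (F + G) := fun m => by
  rw [coeff_add]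
  exact (totalDegree_add _ _).trans (max_le (hF m) (hG m))

theorem RGN_cd_sub {d : ℕ} {F G : P4 (MvPolynomial σ k)} (hF : RGN_cd d F) (hG : RGN_cd d G) :
    RGN_cd d (F - G) := fun m => by
  rw [coeff_sub]
  exact (totalDegree_sub _ _).trans (max_le (hF m) (hG m))

theorem RGN_cd_mul {d e : ℕ} {F G : P4 (MvPolynomial σ k)} (hF : RGN_cd d F) (hG : RGN_cd e G) :
    RGN_cd (d + e) (F * G) := fun m => by
  classical
  rw [coeff_mul]
  refine totalDegree_finsetSum_le fun x _ => ?_
  exact (totalDegree_mul _ _).trans (add_le_add (hF _) (hG _))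

theorem RGN_cd_C {d : ℕ} {c : MvPolynomial σ k} (hc : c.totalDegree ≤ d) :
    RGN_cd d (C c : P4 (MvPolynomial σ k)) := fun m => by
  classical
  rw [coeff_C]
  split_ifs
  · exact hc
  · rw [totalDegree_zero]; exact Nat.zero_le _

theorem RGN_cd_X (i : Fin 2 ⊕ Fin 2) : RGN_cd 0 (X i : P4 (MvPolynomial σ k)) := fun m => by
  classical
  rw [coeff_X]
  split_ifs
  · rw [totalDegree_one]
  · rw [totalDegree_zero]

theorem RGN_cd_sum {α : Type*} (s : Finset α) {d : ℕ} {F : α → P4 (MvPolynomial σ k)}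
    (hF : ∀ i, RGN_cd d (F i)) : RGN_cd d (∑ i ∈ s, F i) := by
  intro m
  rw [coeff_sum]
  exact totalDegree_finsetSum_le fun i _ => hF i m

theorem RGN_cd_pb {x : Matrix (Fin 2) (Fin 2) (MvPolynomial σ k)}
    (hx : ∀ i j, (x i j).totalDegree ≤ 1) : RGN_cd 1 (pb x) := by
  refine RGN_cd_sum _ fun i => RGN_cd_sum _ fun j => ?_
  exact RGN_cd_mul (e := 0) (RGN_cd_mul (e := 0) (RGN_cd_C (hx i j)) (RGN_cd_X _)) (RGN_cd_X _)

theorem RGN_cd_dW {M : Web (MvPolynomial σ k)} (hM : ∀ i j a b, (M i j a b).totalDegree ≤ 1) :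
    RGN_cd 3 (dW M) := by
  have h : ∀ a b, RGN_cd 1 (pm M a b) := fun a b => RGN_cd_pb fun i j => hM i j a b
  have h3 : ∀ a b c d e f, RGN_cd 3 (pm M a b * pm M c d * pm M e f) := fun a b c d e f =>
    RGN_cd_mul (d := 2) (e := 1) (RGN_cd_mul (d := 1) (e := 1) (h a b) (h c d)) (h e f)
  rw [dW, Matrix.det_fin_three]
  exact RGN_cd_sub (RGN_cd_add (RGN_cd_add (RGN_cd_sub (RGN_cd_sub (h3 _ _ _ _ _ _)
    (h3 _ _ _ _ _ _)) (h3 _ _ _ _ _ _)) (h3 _ _ _ _ _ _)) (h3 _ _ _ _ _ _)) (h3 _ _ _ _ _ _)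

end der

/-- symmetric matrix with given entries -/
def RGN_sy {R : Type*} (v : Fin 6 → R) : Matrix (Fin 3) (Fin 3) R :=
  !![v 0, v 1, v 2; v 1, v 3, v 4; v 2, v 4, v 5]

/-- the rigid web with given entries -/
def RGN_wb {R : Type*} [CommRing R] (a : Fin 3 → R) (x : Fin 2 × Fin 6 → R) : Web R :=
  ![![-diagonal a, 1], ![RGN_sy fun m => x (0, m), RGN_sy fun m => x (1, m)]]

/-- the tangent web -/
def RGN_ew {R : Type*} [CommRing R] (x : Fin 2 × Fin 6 → R) : Web R :=
  ![![0, 0], ![RGN_sy fun m => x (0, m), RGN_sy fun m => x (1, m)]]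

/-- the entries of a web -/
def RGN_co {R : Type*} (M : Web R) : Fin 2 × Fin 6 → R := fun x =>
  ![M 1 x.1 0 0, M 1 x.1 0 1, M 1 x.1 0 2, M 1 x.1 1 1, M 1 x.1 1 2, M 1 x.1 2 2] x.2

theorem RGN_wb_co {R : Type*} [CommRing R] {a : Fin 3 → R} {M : Web R} (h : Rig a M) :
    RGN_wb a (RGN_co M) = M := by
  have hs : ∀ i j c d, M i j c d = M i j d c := fun i j c d => by
    conv_lhs => rw [← h.sy i j]
    rfl
  have hsy : ∀ j, RGN_sy (fun m => RGN_co M (j, m)) = M 1 j := by
    intro j
    ext c d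
    fin_cases c <;> fin_cases d <;> simp [RGN_sy, RGN_co]
    · exact hs 1 j 0 1
    · exact hs 1 j 0 2
    · exact hs 1 j 1 2
  funext i j
  fin_cases i <;> fin_cases j
  · exact h.dia.symm
  · exact h.one.symm
  · exact hsy 0
  · exact hsy 1

/-- exponents of the equations -/
noncomputable def RGN_mo (x : Fin 3 × Fin 4) : Fin 2 ⊕ Fin 2 →₀ ℕ :=
  Finsupp.single (Sum.inl 0) (2 - (x.1 : ℕ)) + Finsupp.single (Sum.inl 1) ((x.1 : ℕ) + 1) +
    Finsupp.single (Sum.inr 0) (3 - (x.2 : ℕ)) + Finsupp.single (Sum.inr 1) (x.2 : ℕ)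

theorem RGN_weight (m : Fin 2 ⊕ Fin 2 →₀ ℕ) : Finsupp.weight bw m =
    (m (Sum.inl 0) + m (Sum.inl 1), m (Sum.inr 0) + m (Sum.inr 1)) := by
  rw [Finsupp.weight_apply, Finsupp.sum_fintype _ _ (fun _ => by simp), Fintype.sum_sum_type,
    Fin.sum_univ_two, Fin.sum_univ_two]
  simp [bw]

theorem RGN_exists_mo {m : Fin 2 ⊕ Fin 2 →₀ ℕ} (hm : Finsupp.weight bw m = (3, 3))
    (h1 : m (Sum.inl 1) ≠ 0) : ∃ x, RGN_mo x = m := by
  rw [RGN_weight, Prod.mk.injEq] at hm
  obtain ⟨ha, hb⟩ := hm
  refine ⟨(⟨m (Sum.inl 1) - 1, by omega⟩, ⟨m (Sum.inr 1), by omega⟩), ?_⟩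
  ext i
  rcases i with i | i <;> fin_cases i <;> simp [RGN_mo] <;> omega

theorem RGN_jac {k : Type*} [Field k] [IsAlgClosed k] (h2 : (2 : k) ≠ 0) (a : Fin 3 → k)
    (D : P4 k) (hS : Smo D) (M : Web k) (hM : Rig a M) (hD : dW M = D) (v : Fin 2 × Fin 6 → k)
    (hv : ∀ x, RGN_d (RGN_co M) v (coeff (RGN_mo x)
      (dW (RGN_wb (fun i => C (a i)) X : Web (MvPolynomial (Fin 2 × Fin 6) k)) -
        map C D)) = 0) : v = 0 := by
  classical
  set p := RGN_co M with hp
  set G : Web (MvPolynomial (Fin 2 × Fin 6) k) := RGN_wb (fun i => C (a i)) X with hG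
  have hGp : mapW (eval p) G = M := by
    rw [← RGN_wb_co hM]
    funext i j
    ext c d
    fin_cases i <;> fin_cases j <;> fin_cases c <;> fin_cases d <;>
      simp [mapW, hG, RGN_wb, RGN_sy, hp]
  have hGv : ∀ i j c d, RGN_d p v (G i j c d) = RGN_ew v i j c d := by
    intro i j c d
    fin_cases i <;> fin_cases j <;> fin_cases c <;> fin_cases d <;>
      simp [hG, RGN_wb, RGN_sy, RGN_ew, RGN_d_X, RGN_d_C, RGN_d_one, map_neg]
  set P : P4 k := ((pm M).adjugate * pm (RGN_ew v)).trace with hP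
  have hDP : RGN_D p v (dW G) = P := by
    rw [dW, RGN_D_det, map_pm, hGp, hP]
    congr 2
    ext1 c d
    rw [Matrix.map_apply, pm_apply, pm_apply, RGN_D_pb]
    congr 1
    ext i j
    simp only [Matrix.map_apply, Matrix.of_apply]
    exact hGv i j c d
  have hP0 : P = 0 := by
    ext m
    rw [coeff_zero]
    by_cases hm : Finsupp.weight bw m = (3, 3)
    · by_cases h1 : m (Sum.inl 1) = 0
      · have hdv : (X (Sum.inl 1) : P4 k) ∣ P := by
          rw [hP, Matrix.trace]
          refine Finset.dvd_sum fun c _ => ?_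
          rw [Matrix.diag_apply, Matrix.mul_apply]
          refine Finset.dvd_sum fun d _ => Dvd.dvd.mul_left ?_ _
          rw [pm_apply, pb]
          refine Finset.dvd_sum fun i _ => Finset.dvd_sum fun j _ => ?_
          fin_cases i
          · have : (RGN_ew v 0 j d c) = 0 := by
              fin_cases j <;> simp [RGN_ew]
            simp [this]
          · exact Dvd.dvd.mul_right (dvd_mul_left _ _) _
        obtain ⟨Q, hQ⟩ := hdv
        rw [hQ, coeff_X_mul', if_neg]
        rw [Finsupp.mem_support_iff, not_not]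
        exact h1
      · obtain ⟨x, rfl⟩ := RGN_exists_mo hm h1
        have := hv x
        rw [coeff_sub, map_sub, coeff_map, RGN_d_C, sub_zero, ← RGN_D_coeff, hDP] at this
        exact this
    · rw [← hDP, RGN_D_coeff]
      have : coeff m (dW G) = 0 := by
        by_contra hne
        exact hm (BH_dW G hne)
      rw [this, map_zero]
  have hsyE : Sy (RGN_ew v) := by
    intro i j
    ext c d
    fin_cases i <;> fin_cases j <;> fin_cases c <;> fin_cases d <;> simp [RGN_ew, RGN_sy]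
  have hhs := hhs M (by rw [hD]; exact hS)
  have hE := klm0 h2 M hM.sy hhs.1 hhs.2 (RGN_ew v) hsyE (by
    intro s t
    have := congrArg (eval (pt s t)) hP0
    rw [map_zero, hP] at this
    rw [← this, ← eval_pm, ← eval_pm]
    have e1 : ((pm M).map (eval (pt s t))).adjugate = (pm M).adjugate.map (eval (pt s t)) := by
      have := (RingHom.map_adjugate (eval (pt s t)) (pm M)).symm
      exact this
    rw [e1, ← Matrix.map_mul, Matrix.trace, Matrix.trace, map_sum]
    rfl) (by
    intro j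
    fin_cases j <;> rfl)
  funext x
  obtain ⟨j, m⟩ := x
  have hj : RGN_sy (fun m => v (j, m)) = 0 := by
    have h1 := congrFun (congrFun hE 1) j
    refine Eq.trans ?_ h1
    fin_cases j <;> rfl
  have e := fun c d => congrFun (congrFun hj c) d
  fin_cases m
  · simpa [RGN_sy] using e 0 0
  · simpa [RGN_sy] using e 0 1
  · simpa [RGN_sy] using e 0 2
  · simpa [RGN_sy] using e 1 1
  · simpa [RGN_sy] using e 1 2
  · simpa [RGN_sy] using e 2 2

theorem rgn {k : Type*} [Field k] [IsAlgClosed k] (h2 : (2 : k) ≠ 0) (a : Fin 3 → k) (D : P4 k)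
    (hS : Smo D) : {M : Web k | Rig a M ∧ dW M = D}.Finite ∧
      {M : Web k | Rig a M ∧ dW M = D}.ncard ≤ 37 ^ 12 := by
  classical
  set S : Set (Web k) := {M : Web k | Rig a M ∧ dW M = D} with hSdef
  have key : ∀ T : Finset (Web k), (T : Set (Web k)) ⊆ S → T.card ≤ 37 ^ 12 := by
    intro T hT
    have hinj : Set.InjOn (RGN_co (R := k)) T := by
      intro M hM M' hM' h
      rw [← RGN_wb_co (hT hM).1, ← RGN_wb_co (hT hM').1, h]
    rw [← Finset.card_image_of_injOn hinj]
    have : Infinite k := IsAlgClosed.instInfinite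
    set G : Web (MvPolynomial (Fin 2 × Fin 6) k) := RGN_wb (fun i => C (a i)) X with hG
    have hb := bez (k := k) (σ := Fin 2 × Fin 6) (ι := Fin 3 × Fin 4) (by simp) 3
      (fun x => coeff (RGN_mo x) (dW G - map C D)) (by
        intro x
        have h1 : RGN_cd 3 (dW G) := by
          refine RGN_cd_dW fun i j c d => ?_
          fin_cases i <;> fin_cases j <;> fin_cases c <;> fin_cases d <;>
            simp [hG, RGN_wb, RGN_sy, totalDegree_X, totalDegree_C]
        have h3 : RGN_cd 3 (map C D : P4 (MvPolynomial (Fin 2 × Fin 6) k)) := by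
          intro m
          rw [coeff_map, totalDegree_C]
          exact Nat.zero_le _
        exact RGN_cd_sub h1 h3 _) (T.image RGN_co) (by
        intro p hp x
        obtain ⟨M, hM, rfl⟩ := Finset.mem_image.mp hp
        have hM' := hT hM
        have hGp : mapW (eval (RGN_co M)) G = M := by
          conv_rhs => rw [← RGN_wb_co hM'.1]
          funext i j
          ext c d
          fin_cases i <;> fin_cases j <;> fin_cases c <;> fin_cases d <;>
            simp [mapW, hG, RGN_wb, RGN_sy]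
        rw [← coeff_map, map_sub, map_dW, hGp, hM'.2, MvPolynomial.map_map]
        have : (eval (RGN_co M)).comp (C : k →+* MvPolynomial (Fin 2 × Fin 6) k) =
            RingHom.id k := by
          ext c; simp
        rw [this, MvPolynomial.map_id, sub_self, coeff_zero]) (by
        intro p hp v hv
        obtain ⟨M, hM, rfl⟩ := Finset.mem_image.mp hp
        have hM' := hT hM
        exact RGN_jac h2 a D hS M hM'.1 hM'.2 v hv)
    refine hb.trans (le_of_eq ?_)
    simp
  have hfin : S.Finite := by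
    by_contra hinf
    obtain ⟨T, hT, hc⟩ := Set.Infinite.exists_subset_card_eq hinf (37 ^ 12 + 1)
    have := key T hT
    omega
  refine ⟨hfin, ?_⟩
  rw [Set.ncard_eq_toFinset_card S hfin]
  exact key _ (by simp)

end Pool.Agent.T1
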