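import Pool.Agent.T1.RLT
import Pool.Agent.T1.AWB
import Pool.Agent.T1.Defs2
import Pool.Agent.ESH.CVU
import Pool.Agent.ESH.VDV
import Pool.Agent.ST.Gauss

/-!
# T1 / RLV: the reduction lemma for valuation rings of an algebraic closure of a number field

Let `L ⊂ C` be the subfield generated over `K` by the (finitely many) entries of `M`, coefficients of `D` and `c`: `IntermediateField.adjoin K S`, `S` finite; a number field (`FiniteDimensional`).  `V` lies over a finite place `w` of `L`
(`ESH.cvu_under` with `L` instead of `K`); `R := (w.valuation L).valuationSubring`, a discrete valuation ring with fraction field `L` (`ESH.vdv_dvr`), `R = V ∩ L` (`ESH.vdv_over`), ring homomorphisms `R → V → κ` (`κ` = residue field of `V`, algebraically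
closed: `Pool.Agent.ST.isAlgClosed_residueField V`), `x ∈ R` is a unit iff its image in `V` is (`x⁻¹ ∈ V ∩ L`).  `D` comes from `D₀ ∈ P4 R` (coefficients in `L ∩ V`), `M` from `M₀` over `L`, `c` from `c₀`.  `rlt` over `R`; map everything to `V` and `C`.
-/

namespace Pool.Agent.T1

open MvPolynomial Matrix NumberField IsDedekindDomain

private theorem RLV_mapW {R S T : Type*} (f : R → S) (g : S → T) (M : Web R) :
    mapW g (mapW f M) = mapW (g ∘ f) M := by
  funext i j
  simp only [mapW, Matrix.map_map]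

private theorem RLV_smul {R S : Type*} [CommRing R] [CommRing S] (f : R →+* S) (c : R) (M : Web R) :
    mapW f (c • M) = f c • mapW f M := by
  funext i j
  ext a b
  simp [mapW]

private theorem RLV_core {L C : Type*} [Field L] [NumberField L] [Field C] [Algebra L C]
    [Algebra.IsAlgebraic L C] [IsAlgClosed C] (V : ValuationSubring C) (hV : V ≠ ⊤)
    (h2 : V.valuation (2 : C) = 1) (D : P4 V) (hD : BH D 3 3)
    (hS : Smo (MvPolynomial.map (IsLocalRing.residue V) D)) (M : Web L) (hs : Sy M) (c : L)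
    (hc : c ≠ 0) (hL : ∀ d, ∃ x : L, algebraMap L C x = ((coeff d D : V) : C))
    (hM : dW (mapW (algebraMap L C) M) =
      MvPolynomial.C (algebraMap L C c) * MvPolynomial.map (algebraMap V C) D) :
    ∃ (h : Matrix (Fin 3) (Fin 3) C) (c' : C) (Λ : Web V) (u : V), h.det ≠ 0 ∧ c' ≠ 0 ∧ IsUnit u ∧ Sy Λ ∧
      mapW (algebraMap V C) Λ = c' • gw h (mapW (algebraMap L C) M) ∧
      dW Λ = MvPolynomial.C u * D := by
  obtain ⟨v, hv⟩ := ESH.cvu_under (K := L) V hV
  obtain ⟨ψ, hψ⟩ : ∃ ψ : (v.valuation L).valuationSubring →+* V,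
      ∀ o, (ψ o : C) = algebraMap L C (o : L) :=
    ⟨((algebraMap L C).comp (v.valuation L).valuationSubring.subtype).codRestrict V.toSubring
      (fun o => (hv (o : L)).2 ((Valuation.mem_valuationSubring_iff _ _).1 o.2)), fun o => rfl⟩
  have hloc : IsLocalHom ψ := by
    constructor
    intro o ho
    obtain ⟨y, hy⟩ := isUnit_iff_exists_inv.1 ho
    have h1 : algebraMap L C (o : L) * (y : C) = 1 := by
      rw [← hψ]
      exact congrArg Subtype.val hy
    have ho0 : (o : L) ≠ 0 := by
      intro h0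
      rw [h0, map_zero, zero_mul] at h1
      exact zero_ne_one h1
    have h2 : (y : C) = algebraMap L C ((o : L)⁻¹) := by
      rw [map_inv₀]
      exact eq_inv_of_mul_eq_one_right h1
    have h3 : ((o : L)⁻¹) ∈ (v.valuation L).valuationSubring := by
      rw [Valuation.mem_valuationSubring_iff]
      apply (hv _).1
      rw [← h2]
      exact y.2
    exact IsUnit.of_mul_eq_one (⟨(o : L)⁻¹, h3⟩ : (v.valuation L).valuationSubring)
      (Subtype.ext (mul_inv_cancel₀ ho0))
  have hinj : Function.Injective ψ := by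
    intro a b hab
    apply Subtype.ext
    apply (algebraMap L C).injective
    rw [← hψ, ← hψ, hab]
  have hdvr : IsDiscreteValuationRing (v.valuation L).valuationSubring := ESH.vdv_dvr v
  have hκ : IsAlgClosed (IsLocalRing.ResidueField V) := ST.isAlgClosed_residueField V
  have hr : ∀ d, ∃ r : (v.valuation L).valuationSubring, ψ r = coeff d D := by
    intro d
    obtain ⟨x, hx⟩ := hL d
    have h1 : algebraMap L C x ∈ V := by
      rw [hx]
      exact (coeff d D).2
    refine ⟨⟨x, (Valuation.mem_valuationSubring_iff _ _).2 ((hv x).1 h1)⟩, ?_⟩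
    apply Subtype.ext
    rw [hψ]
    exact hx
  choose r hr using hr
  obtain ⟨D₀, hD₀⟩ : ∃ D₀ : P4 (v.valuation L).valuationSubring, map ψ D₀ = D := by
    refine ⟨∑ d ∈ D.support, monomial d (r d), ?_⟩
    rw [map_sum]
    conv_rhs => rw [D.as_sum]
    refine Finset.sum_congr rfl fun d _ => ?_
    rw [map_monomial, hr]
  have hψc : (algebraMap V C).comp ψ =
      (algebraMap L C).comp (algebraMap (v.valuation L).valuationSubring L) := by
    ext o
    exact hψ o
  have hBH : BH D₀ 3 3 := by
    intro d hd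
    apply hD
    rw [← hD₀, coeff_map]
    intro h0
    apply hd
    apply hinj
    rw [h0, map_zero]
  have hM₀ : dW M = MvPolynomial.C c *
      MvPolynomial.map (algebraMap (v.valuation L).valuationSubring L) D₀ := by
    apply MvPolynomial.map_injective (algebraMap L C) (algebraMap L C).injective
    rw [map_dW, hM, map_mul, map_C, MvPolynomial.map_map, ← hψc, ← hD₀, MvPolynomial.map_map]
  obtain ⟨h, c', Λ, u, hh, hc', hu, hΛ, hm, hd⟩ := rlt ((IsLocalRing.residue V).comp ψ) (by
      intro x
      rw [RingHom.comp_apply, IsLocalRing.residue_eq_zero_iff, IsLocalRing.mem_maximalIdeal,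
        mem_nonunits_iff, isUnit_map_iff]) (by
      rw [← isUnit_map_iff ψ, ValuationSubring.valuation_eq_one_iff, map_ofNat]
      exact h2) D₀ hBH (by
      rw [← MvPolynomial.map_map, hD₀]
      exact hS) M hs c hc hM₀
  refine ⟨h.map (algebraMap L C), algebraMap L C c', mapW ψ Λ, ψ u, ?_, ?_, hu.map ψ, hΛ.mapW ψ, ?_, ?_⟩
  · have : (h.map (algebraMap L C)).det = algebraMap L C h.det := by
      rw [RingHom.map_det]
      rfl
    rw [this]
    exact (map_ne_zero _).2 hh
  · exact (map_ne_zero _).2 hc'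
  · have h1 : mapW (algebraMap V C) (mapW ψ Λ) =
        mapW (algebraMap L C) (mapW (algebraMap (v.valuation L).valuationSubring L) Λ) := by
      rw [RLV_mapW, RLV_mapW, ← RingHom.coe_comp, ← RingHom.coe_comp, hψc]
    rw [h1, hm, RLV_smul, mapW_gw]
  · rw [← map_dW, hd, map_mul, map_C, hD₀]

theorem rlv {K C : Type*} [Field K] [NumberField K] [Field C] [Algebra K C] [Algebra.IsAlgebraic K C]
    [IsAlgClosed C] (V : ValuationSubring C) (hV : V ≠ ⊤) (h2 : V.valuation (2 : C) = 1) (D : P4 V)
    (hD : BH D 3 3) (hS : Smo (MvPolynomial.map (IsLocalRing.residue V) D)) (M : Web C) (hs : Sy M) (c : C)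
    (hc : c ≠ 0) (hM : dW M = MvPolynomial.C c * MvPolynomial.map (algebraMap V C) D) :
    ∃ (h : Matrix (Fin 3) (Fin 3) C) (c' : C) (Λ : Web V) (u : V), h.det ≠ 0 ∧ c' ≠ 0 ∧ IsUnit u ∧ Sy Λ ∧
      mapW (algebraMap V C) Λ = c' • gw h M ∧ dW Λ = MvPolynomial.C u * D := by
  obtain ⟨S, hSfin, hS1, hS2, hS3⟩ : ∃ S : Set C, S.Finite ∧ (∀ i j a b, M i j a b ∈ S) ∧ c ∈ S ∧
      ∀ d ∈ D.support, ((coeff d D : V) : C) ∈ S := by
    refine ⟨(Set.range fun x : (Fin 2 × Fin 2) × (Fin 3 × Fin 3) => M x.1.1 x.1.2 x.2.1 x.2.2) ∪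
      ({c} ∪ (fun d => ((coeff d D : V) : C)) '' (↑D.support : Set (Fin 2 ⊕ Fin 2 →₀ ℕ))), ?_, ?_, ?_, ?_⟩
    · exact (Set.finite_range _).union ((Set.finite_singleton _).union
        ((Finset.finite_toSet _).image _))
    · intro i j a b
      exact Or.inl ⟨((i, j), (a, b)), rfl⟩
    · exact Or.inr (Or.inl rfl)
    · intro d hd
      exact Or.inr (Or.inr ⟨d, hd, rfl⟩)
  have hfd : FiniteDimensional K (IntermediateField.adjoin K S) := by
    have := hSfin.to_subtype
    exact IntermediateField.finiteDimensional_adjoin fun x _ => Algebra.IsIntegral.isIntegral x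
  have hnf : NumberField (IntermediateField.adjoin K S) :=
    NumberField.of_module_finite K (IntermediateField.adjoin K S)
  have halg : Algebra.IsAlgebraic (IntermediateField.adjoin K S) C :=
    Algebra.IsAlgebraic.tower_top (K := K) (IntermediateField.adjoin K S)
  have hsub : S ⊆ IntermediateField.adjoin K S := IntermediateField.subset_adjoin K S
  obtain ⟨M₀, hM₀⟩ : ∃ M₀ : Web (IntermediateField.adjoin K S),
      mapW (algebraMap (IntermediateField.adjoin K S) C) M₀ = M :=
    ⟨fun i j => Matrix.of fun a b => ⟨M i j a b, hsub (hS1 i j a b)⟩, by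
      funext i j
      ext a b
      rfl⟩
  obtain ⟨c₀, hc₀⟩ : ∃ c₀ : IntermediateField.adjoin K S,
      algebraMap (IntermediateField.adjoin K S) C c₀ = c := ⟨⟨c, hsub hS2⟩, rfl⟩
  have hL : ∀ d, ∃ x : IntermediateField.adjoin K S,
      algebraMap (IntermediateField.adjoin K S) C x = ((coeff d D : V) : C) := by
    intro d
    by_cases hd : d ∈ D.support
    · exact ⟨⟨_, hsub (hS3 d hd)⟩, rfl⟩
    · refine ⟨0, ?_⟩
      rw [notMem_support_iff.1 hd, map_zero]
      rfl
  have hs₀ : Sy M₀ := by
    intro i j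
    ext a b
    have h1 := congrFun (congrFun (hs i j) a) b
    rw [← hM₀] at h1
    exact h1
  obtain ⟨h, c', Λ, u, h1, h3, h4, h5, h6, h7⟩ := RLV_core V hV h2 D hD hS M₀ hs₀ c₀
    (by rintro rfl; exact hc (by rw [← hc₀, map_zero])) hL (by rw [hM₀, hc₀]; exact hM)
  rw [hM₀] at h6
  exact ⟨h, c', Λ, u, h1, h3, h4, h5, h6, h7⟩

end Pool.Agent.T1
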