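import Pool.Agent.T1.CPW

/-!
# T1 / TCW: the quartic of a tetrad is in normal position

With `w i j = wd (v i) (v j)` one has (`ring` after unfolding `bf`, `nf`, `lam`, `wd`; put these as lemmas first):
`bf lam lam = 2`, `bf lam (nf u v) = 0`, `bf (nf a b) (nf c d) = (wd a c * wd b d + wd a d * wd b c) / 2`.  So (`D = md x v 0 1 = - (A • lam + x 0 • nf (v 1) (v 1) + x 1 • nf (v 0) (v 0))`, `A = x 0 x 1 - w²/4`, `w = w 0 1`):
`bf D D = 2 A² + 2 x 0 x 1 * w²` `= 2 (x 0 x 1 + w²/4)²`; `bf lam D = - 2 A`; `bf (nf (v 0) (v 1)) (nf (v 0) (v 1)) = - w²/2`; `bf (nf (v 0) (v 1)) D = 0`.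
-/

namespace Pool.Agent.T1

open MvPolynomial Matrix

theorem bf_lam_lam {k : Type*} [Field k] : bf (lam : Matrix (Fin 2) (Fin 2) k) lam = 2 := by
  simp [bf, lam]
  norm_num

theorem bf_lam_nf {k : Type*} [Field k] (u v : Fin 2 → k) : bf lam (nf u v) = 0 := by
  simp [bf, lam, nf]

theorem bf_nf_nf {k : Type*} [Field k] [CharZero k] (a b c d : Fin 2 → k) :
    bf (nf a b) (nf c d) = (wd a c * wd b d + wd a d * wd b c) / 2 := by
  simp [bf, wd, nf]
  field_simp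
  ring

private theorem TCW_nd {k : Type*} [Field k] [CharZero k] (x : Fin 4 → k) (v : Fin 4 → Fin 2 → k)
    (i j : Fin 4) : bf (nf (v i) (v j)) (md x v i j) = 0 := by
  simp [bf, wd, nf, md, lam]
  field_simp
  ring

private theorem TCW_dd {k : Type*} [Field k] [CharZero k] (x : Fin 4 → k) (v : Fin 4 → Fin 2 → k)
    (i j : Fin 4) : bf (md x v i j) (md x v i j) = 2 * (x i * x j + wd (v i) (v j) ^ 2 / 4) ^ 2 := by
  simp [bf, wd, nf, md, lam]
  field_simp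
  ring

private theorem TCW_ld {k : Type*} [Field k] [CharZero k] (x : Fin 4 → k) (v : Fin 4 → Fin 2 → k)
    (i j : Fin 4) : bf lam (md x v i j) + 2 * bf (nf (v i) (v j)) (nf (v i) (v j)) =
      -(2 * (x i * x j + wd (v i) (v j) ^ 2 / 4)) := by
  simp [bf, wd, nf, md, lam]
  field_simp
  ring

theorem tcw {k : Type*} [Field k] [CharZero k] (x : Fin 4 → k) (v : Fin 4 → Fin 2 → k)
    (m : Matrix (Fin 2) (Fin 2) k) :
    CW (tet x v m) (x 0 * x 1 + wd (v 0) (v 1) ^ 2 / 4) (x 2 * x 3 + wd (v 2) (v 3) ^ 2 / 4) where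
  c22 := bf_lam_lam
  c02 := bf_lam_nf _ _
  c12 := bf_lam_nf _ _
  a1 := TCW_nd x v 0 1
  a0 := TCW_nd x v 2 3
  b1 := TCW_dd x v 0 1
  b0 := TCW_dd x v 2 3
  d1 := TCW_ld x v 0 1
  d0 := TCW_ld x v 2 3

end Pool.Agent.T1
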