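import Pool.Agent.T1.ENA

/-!
# T1 / TSD: the three webs of a tetrad have the same determinant

`tet x v m` has the generic matrix with entries `pb` of `tetE x v m` (`pm_apply`).  Write `L = pb lam`, `n i j = pb (nf (v i) (v j))`, `S i = v i 0 * s₁ - v i 1 * s₀` (polynomials `C (v i 0) * X (inl 1) - C (v i 1) * X (inl 0)`), `T i` the same in `t`.
Then `L = s₀t₁ - s₁t₀`, `n i j = (S i T j + S j T i) / 2`, `w i j • L = S i T j - S j T i` (`w i j = wd (v i) (v j)`), `ℓ i := x i L + n i i`.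
`n i j² - w i j² L² / 4 = n i i * n j j`.  `pb (md x v i j) L - n i j² = - ℓ i ℓ j`.  So `L * dW (tet x v m) = (E₀₀L - E₀₂²)(E₁₁L - E₁₂²) - (E₀₁L - E₀₂E₁₂)² = ℓ 0 ℓ 1 ℓ 2 ℓ 3 - (n 0 1 n 2 3 - pb m L)²`
(`E₀₀ = md 2 3`, `E₀₂ = n 2 3`, `E₁₁ = md 0 1`, `E₁₂ = n 0 1`, `E₂₂ = L`; for a symmetric `3 × 3` matrix with last entry `L`: `L det E = (E₀₀L - E₀₂²)(E₁₁L - E₁₂²) - (E₀₁L - E₀₂E₁₂)²`).
`n 0 1 n 2 3 - n 0 2 n 1 3 = - (S 0 T 3 - S 3 T 0)(S 1 T 2 - S 2 T 1) / 4 = - w 0 3 w 1 2 L² / 4`.  So both sides times `L` agree; `L ≠ 0`, the polynomial ring is a domain.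
-/

namespace Pool.Agent.T1

open MvPolynomial Matrix

private noncomputable def TSD_S {k : Type*} [Field k] (u : Fin 2 → k) : P4 k :=
  C (u 0) * X (Sum.inl 1) - C (u 1) * X (Sum.inl 0)

private noncomputable def TSD_T {k : Type*} [Field k] (u : Fin 2 → k) : P4 k :=
  C (u 0) * X (Sum.inr 1) - C (u 1) * X (Sum.inr 0)

private lemma TSD_L {k : Type*} [Field k] : (pb lam : P4 k) =
    X (Sum.inl 0) * X (Sum.inr 1) - X (Sum.inl 1) * X (Sum.inr 0) := by
  simp only [pb, lam, Fin.sum_univ_two, Matrix.of_apply, Matrix.cons_val', Matrix.cons_val_zero,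
    Matrix.cons_val_one, Matrix.cons_val_fin_one, C_0, C_1, C_neg]
  ring

private lemma TSD_w {k : Type*} [Field k] (u w : Fin 2 → k) :
    C (wd u w) * pb lam = TSD_S u * TSD_T w - TSD_S w * TSD_T u := by
  rw [TSD_L]
  simp only [wd, TSD_S, TSD_T, C_sub, C_mul]
  ring

private lemma TSD_nf {k : Type*} [Field k] [CharZero k] (u w : Fin 2 → k) :
    (2 : P4 k) * pb (nf u w) = TSD_S u * TSD_T w + TSD_S w * TSD_T u := by
  have h2 : (2 : P4 k) = C 2 := (map_ofNat C 2).symm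
  have hc : (2 : P4 k) * C (-(w 1 * u 0 + w 0 * u 1) / 2) =
      -(C (w 1) * C (u 0) + C (w 0) * C (u 1)) := by
    rw [h2, ← C_mul, ← C_mul, ← C_mul, ← C_add, ← C_neg]
    congr 1
    field_simp
  have hc' : (2 : P4 k) * C (-(u 1 * w 0 + u 0 * w 1) / 2) =
      -(C (w 1) * C (u 0) + C (w 0) * C (u 1)) := by
    rw [← hc]
    congr 3
    ring
  simp only [pb, nf, Fin.sum_univ_two, Matrix.of_apply, Matrix.cons_val', Matrix.cons_val_zero,
    Matrix.cons_val_one, Matrix.cons_val_fin_one, TSD_S, TSD_T, C_mul]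
  linear_combination (X (Sum.inl 0) * X (Sum.inr 1) + X (Sum.inl 1) * X (Sum.inr 0)) * hc'

private lemma TSD_nn {k : Type*} [Field k] [CharZero k] (u : Fin 2 → k) :
    pb (nf u u) = TSD_S u * TSD_T u := by
  have h := TSD_nf u u
  have h2 : (2 : P4 k) ≠ 0 := two_ne_zero
  apply mul_left_cancel₀ h2
  rw [h]
  ring

private lemma TSD_neg {k : Type*} [Field k] (y : Matrix (Fin 2) (Fin 2) k) :
    pb (-y) = -(pb y) := by
  have h : -y = (-1 : k) • y := by rw [neg_smul, one_smul]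
  rw [h, pb_smul, C_neg, C_1, neg_one_mul]

private lemma TSD_md {k : Type*} [Field k] [CharZero k] (x : Fin 4 → k) (v : Fin 4 → Fin 2 → k)
    (i j : Fin 4) : (4 : P4 k) * pb (md x v i j) =
      -((4 * C (x i) * C (x j) - C (wd (v i) (v j)) ^ 2) * pb lam +
        4 * C (x i) * (TSD_S (v j) * TSD_T (v j)) + 4 * C (x j) * (TSD_S (v i) * TSD_T (v i))) := by
  have h4 : (4 : P4 k) = C 4 := (map_ofNat C 4).symm
  have hc : (4 : P4 k) * C (x i * x j - wd (v i) (v j) ^ 2 / 4) =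
      4 * C (x i) * C (x j) - C (wd (v i) (v j)) ^ 2 := by
    rw [h4, ← C_mul, ← C_mul, ← C_mul, ← C_pow, ← C_sub]
    congr 1
    field_simp
  unfold md
  rw [TSD_neg, pb_add, pb_add, pb_smul, pb_smul, pb_smul, TSD_nn, TSD_nn]
  linear_combination (-(pb lam : P4 k)) * hc

private lemma TSD_det {k : Type*} [Field k] [CharZero k] (x : Fin 4 → k) (v : Fin 4 → Fin 2 → k)
    (m : Matrix (Fin 2) (Fin 2) k) : (16 : P4 k) * pb lam * dW (tet x v m) =
      16 * ((C (x 0) * pb lam + TSD_S (v 0) * TSD_T (v 0)) *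
        (C (x 1) * pb lam + TSD_S (v 1) * TSD_T (v 1)) *
        (C (x 2) * pb lam + TSD_S (v 2) * TSD_T (v 2)) *
        (C (x 3) * pb lam + TSD_S (v 3) * TSD_T (v 3))) -
      (4 * (pb m * pb lam) - (TSD_S (v 0) * TSD_T (v 1) + TSD_S (v 1) * TSD_T (v 0)) *
        (TSD_S (v 2) * TSD_T (v 3) + TSD_S (v 3) * TSD_T (v 2))) ^ 2 := by
  have hd : dW (tet x v m) = pb (md x v 2 3) * pb (md x v 0 1) * pb lam +
      2 * pb m * pb (nf (v 2) (v 3)) * pb (nf (v 0) (v 1)) -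
      pb (md x v 2 3) * pb (nf (v 0) (v 1)) ^ 2 - pb (md x v 0 1) * pb (nf (v 2) (v 3)) ^ 2 -
      pb m ^ 2 * pb lam := by
    have e00 : pm (tet x v m) 0 0 = pb (md x v 2 3) := rfl
    have e01 : pm (tet x v m) 0 1 = pb m := rfl
    have e02 : pm (tet x v m) 0 2 = pb (nf (v 2) (v 3)) := rfl
    have e10 : pm (tet x v m) 1 0 = pb m := rfl
    have e11 : pm (tet x v m) 1 1 = pb (md x v 0 1) := rfl
    have e12 : pm (tet x v m) 1 2 = pb (nf (v 0) (v 1)) := rfl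
    have e20 : pm (tet x v m) 2 0 = pb (nf (v 2) (v 3)) := rfl
    have e21 : pm (tet x v m) 2 1 = pb (nf (v 0) (v 1)) := rfl
    have e22 : pm (tet x v m) 2 2 = pb lam := rfl
    unfold dW
    rw [Matrix.det_fin_three, e00, e01, e02, e10, e11, e12, e20, e21, e22]
    ring
  have ha := TSD_md x v 2 3
  have hb := TSD_md x v 0 1
  have hn01 := TSD_nf (v 0) (v 1)
  have hn23 := TSD_nf (v 2) (v 3)
  have hw01 := TSD_w (v 0) (v 1)
  have hw23 := TSD_w (v 2) (v 3)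
  -- the two diagonal minors
  have hA : (4 : P4 k) * (pb (md x v 2 3) * pb lam - pb (nf (v 2) (v 3)) ^ 2) =
      -4 * ((C (x 2) * pb lam + TSD_S (v 2) * TSD_T (v 2)) *
        (C (x 3) * pb lam + TSD_S (v 3) * TSD_T (v 3))) := by
    linear_combination (pb lam : P4 k) * ha -
      (2 * pb (nf (v 2) (v 3)) + (TSD_S (v 2) * TSD_T (v 3) + TSD_S (v 3) * TSD_T (v 2))) * hn23 +
      (C (wd (v 2) (v 3)) * pb lam + (TSD_S (v 2) * TSD_T (v 3) - TSD_S (v 3) * TSD_T (v 2))) * hw23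
  have hB : (4 : P4 k) * (pb (md x v 0 1) * pb lam - pb (nf (v 0) (v 1)) ^ 2) =
      -4 * ((C (x 0) * pb lam + TSD_S (v 0) * TSD_T (v 0)) *
        (C (x 1) * pb lam + TSD_S (v 1) * TSD_T (v 1))) := by
    linear_combination (pb lam : P4 k) * hb -
      (2 * pb (nf (v 0) (v 1)) + (TSD_S (v 0) * TSD_T (v 1) + TSD_S (v 1) * TSD_T (v 0))) * hn01 +
      (C (wd (v 0) (v 1)) * pb lam + (TSD_S (v 0) * TSD_T (v 1) - TSD_S (v 1) * TSD_T (v 0))) * hw01
  have hC : (4 : P4 k) * (pb m * pb lam - pb (nf (v 2) (v 3)) * pb (nf (v 0) (v 1))) =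
      4 * (pb m * pb lam) - (TSD_S (v 0) * TSD_T (v 1) + TSD_S (v 1) * TSD_T (v 0)) *
        (TSD_S (v 2) * TSD_T (v 3) + TSD_S (v 3) * TSD_T (v 2)) := by
    rw [← hn01, ← hn23]
    ring
  have hsum : (16 : P4 k) * pb lam * dW (tet x v m) =
      (4 * (pb (md x v 2 3) * pb lam - pb (nf (v 2) (v 3)) ^ 2)) *
        (4 * (pb (md x v 0 1) * pb lam - pb (nf (v 0) (v 1)) ^ 2)) -
      (4 * (pb m * pb lam - pb (nf (v 2) (v 3)) * pb (nf (v 0) (v 1)))) ^ 2 := by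
    rw [hd]
    ring
  rw [hsum, hA, hB, hC]
  ring

private lemma TSD_L_ne {k : Type*} [Field k] : (pb lam : P4 k) ≠ 0 := by
  intro h
  have h1 : (lam : Matrix (Fin 2) (Fin 2) k) = 0 := by
    apply pb_inj
    rw [h]
    simp [pb]
  have h2 := congrFun (congrFun h1 0) 1
  simp [lam] at h2

theorem sy_tet {k : Type*} [Field k] (x : Fin 4 → k) (v : Fin 4 → Fin 2 → k)
    (m : Matrix (Fin 2) (Fin 2) k) : Sy (tet x v m) := by
  intro i j
  ext1 a b
  change tetE x v m b a i j = tetE x v m a b i j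
  fin_cases a <;> fin_cases b <;> rfl

theorem tsd {k : Type*} [Field k] [CharZero k] (x : Fin 4 → k) (v : Fin 4 → Fin 2 → k)
    (m : Matrix (Fin 2) (Fin 2) k) :
    dW (tet (x ∘ Equiv.swap 1 2) (v ∘ Equiv.swap 1 2)
      (m + (wd (v 0) (v 3) * wd (v 1) (v 2) / 4) • lam)) = dW (tet x v m) := by
  have h16 : (16 : P4 k) * pb lam ≠ 0 := mul_ne_zero (by norm_num) TSD_L_ne
  apply mul_left_cancel₀ h16
  rw [TSD_det, TSD_det]
  have s0 : (Equiv.swap 1 2 : Equiv.Perm (Fin 4)) 0 = 0 := by decide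
  have s1 : (Equiv.swap 1 2 : Equiv.Perm (Fin 4)) 1 = 2 := by decide
  have s2 : (Equiv.swap 1 2 : Equiv.Perm (Fin 4)) 2 = 1 := by decide
  have s3 : (Equiv.swap 1 2 : Equiv.Perm (Fin 4)) 3 = 3 := by decide
  simp only [Function.comp_apply, s0, s1, s2, s3]
  have h4 : (4 : P4 k) = C 4 := (map_ofNat C 4).symm
  have hc : (4 : P4 k) * C (wd (v 0) (v 3) * wd (v 1) (v 2) / 4) =
      C (wd (v 0) (v 3)) * C (wd (v 1) (v 2)) := by
    rw [h4, ← C_mul, ← C_mul]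
    congr 1
    field_simp
  have hw03 := TSD_w (v 0) (v 3)
  have hw12 := TSD_w (v 1) (v 2)
  have hm : (4 : P4 k) * (pb (m + (wd (v 0) (v 3) * wd (v 1) (v 2) / 4) • lam) * pb lam) =
      4 * (pb m * pb lam) + (TSD_S (v 0) * TSD_T (v 3) - TSD_S (v 3) * TSD_T (v 0)) *
        (TSD_S (v 1) * TSD_T (v 2) - TSD_S (v 2) * TSD_T (v 1)) := by
    rw [← hw03, ← hw12, pb_add, pb_smul]
    linear_combination (pb lam : P4 k) ^ 2 * hc
  rw [hm]
  ring

/-- exchanging the first two indices does not change the web -/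
theorem tet_swap {k : Type*} [Field k] [CharZero k] (x : Fin 4 → k) (v : Fin 4 → Fin 2 → k)
    (m : Matrix (Fin 2) (Fin 2) k) : tet (x ∘ Equiv.swap 0 1) (v ∘ Equiv.swap 0 1) m = tet x v m := by
  have s0 : (Equiv.swap 0 1 : Equiv.Perm (Fin 4)) 0 = 1 := by decide
  have s1 : (Equiv.swap 0 1 : Equiv.Perm (Fin 4)) 1 = 0 := by decide
  have s2 : (Equiv.swap 0 1 : Equiv.Perm (Fin 4)) 2 = 2 := by decide
  have s3 : (Equiv.swap 0 1 : Equiv.Perm (Fin 4)) 3 = 3 := by decide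
  have hn : nf (v 1) (v 0) = nf (v 0) (v 1) := by
    ext1 i j
    fin_cases i <;> fin_cases j <;> simp [nf] <;> ring
  have hw : wd (v 1) (v 0) ^ 2 = wd (v 0) (v 1) ^ 2 := by
    simp only [wd]
    ring
  have hmd : md (x ∘ Equiv.swap 0 1) (v ∘ Equiv.swap 0 1) 0 1 = md x v 0 1 := by
    unfold md
    simp only [Function.comp_apply, s0, s1]
    rw [hw, mul_comm (x 1) (x 0)]
    congr 1
    rw [add_assoc, add_assoc, add_comm (x 1 • _)]
  have hmd' : md (x ∘ Equiv.swap 0 1) (v ∘ Equiv.swap 0 1) 2 3 = md x v 2 3 := by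
    unfold md
    simp only [Function.comp_apply, s2, s3]
  unfold tet
  congr 1
  unfold tetE
  rw [hmd, hmd']
  simp only [Function.comp_apply, s0, s1, s2, s3, hn]

end Pool.Agent.T1
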