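import Pool.Agent.T1.HLF
import Pool.Agent.T1.TSD

/-!
# T1 / TEX: every web in normal position is a tetrad

`E₂₂ = en M 2 2` has determinant 1 (`bf_self`, `c22`).  `q := E₂₂⁻¹ * lam` (or `adjugate E₂₂ * lam`), `det q = 1`, `M' = sw 1 q M`: `en M' a b = en M a b * q` (`en_sw`), `en M' 2 2 = lam`, and `bf` of the entries does not change (`bf_mul`): `CW M' f f'`.
`bf lam y = y 0 1 - y 1 0`, so `en M' 0 2`, `en M' 1 2` are symmetric.  `hlf` for `n = en M' 1 2`, `D = en M' 1 1`, `f` and for `n = en M' 0 2`, `D = en M' 0 0`, `f'`.  `x = ![x₀, x₁, x₂, x₃]`, `v` similarly, `m = en M' 0 1`; `ext_en`.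
-/

namespace Pool.Agent.T1

open MvPolynomial Matrix

private lemma TEX_key {k : Type*} [Field k] [CharZero k] (M : Web k)
    (q : Matrix (Fin 2) (Fin 2) k) (hq : q.det = 1) (a b c d : Fin 3) :
    bf (en (sw 1 q M) a b) (en (sw 1 q M) c d) = bf (en M a b) (en M c d) := by
  rw [en_sw, en_sw, bf_mul, Matrix.det_one, hq]
  ring

theorem cw_sw {k : Type*} [Field k] [CharZero k] (M : Web k) (f f' : k) (h : CW M f f')
    (q : Matrix (Fin 2) (Fin 2) k) (hq : q.det = 1) : CW (sw 1 q M) f f' := by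
  constructor
  · rw [TEX_key M q hq]; exact h.c22
  · rw [TEX_key M q hq]; exact h.c02
  · rw [TEX_key M q hq]; exact h.c12
  · rw [TEX_key M q hq]; exact h.a1
  · rw [TEX_key M q hq]; exact h.a0
  · rw [TEX_key M q hq]; exact h.b1
  · rw [TEX_key M q hq]; exact h.b0
  · rw [TEX_key M q hq, TEX_key M q hq]; exact h.d1
  · rw [TEX_key M q hq, TEX_key M q hq]; exact h.d0

theorem gA_sw {k : Type*} [Field k] [CharZero k] (M : Web k) (f f' : k)
    (q : Matrix (Fin 2) (Fin 2) k) (hq : q.det = 1) : gA (sw 1 q M) f f' = gA M f f' := by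
  unfold gA
  simp only [TEX_key M q hq]

theorem tex {k : Type*} [Field k] [IsAlgClosed k] [CharZero k] (M : Web k) (hs : Sy M) (f f' : k)
    (h : CW M f f') : ∃ (q : Matrix (Fin 2) (Fin 2) k) (x : Fin 4 → k) (v : Fin 4 → Fin 2 → k)
      (m : Matrix (Fin 2) (Fin 2) k), q.det = 1 ∧ sw 1 q M = tet x v m := by
  have hdet : (en M 2 2).det = 1 := by
    have h1 := h.c22
    rw [bf_self] at h1
    have h2 : (2 : k) ≠ 0 := two_ne_zero
    exact mul_left_cancel₀ h2 (by rw [h1, mul_one])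
  have hlam : (lam : Matrix (Fin 2) (Fin 2) k).det = 1 := by
    simp [lam, Matrix.det_fin_two]
  set q : Matrix (Fin 2) (Fin 2) k := (en M 2 2).adjugate * lam with hq
  have hqd : q.det = 1 := by
    rw [hq, Matrix.det_mul, Matrix.det_adjugate, hdet, one_pow, hlam, one_mul]
  have h22 : en (sw 1 q M) 2 2 = lam := by
    rw [en_sw, Matrix.transpose_one, Matrix.one_mul, hq, ← Matrix.mul_assoc, Matrix.mul_adjugate,
      hdet, one_smul, Matrix.one_mul]
  have h' := cw_sw M f f' h q hqd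
  have hs' : Sy (sw 1 q M) := hs.sw 1 q
  have hsym : ∀ y : Matrix (Fin 2) (Fin 2) k, bf lam y = 0 → y 0 1 = y 1 0 := by
    intro y hy
    simp only [bf, lam, Matrix.of_apply, Matrix.cons_val', Matrix.cons_val_zero,
      Matrix.cons_val_one, Matrix.cons_val_fin_one] at hy
    linear_combination hy
  have c12 := h'.c12
  have c02 := h'.c02
  have d1 := h'.d1
  have d0 := h'.d0
  rw [h22] at c12 c02 d1 d0
  obtain ⟨x0, x1, v0, v1, e1, e2⟩ := hlf (en (sw 1 q M) 1 2) (en (sw 1 q M) 1 1) f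
    (hsym _ c12) h'.a1 h'.b1 d1
  obtain ⟨x2, x3, v2, v3, e3, e4⟩ := hlf (en (sw 1 q M) 0 2) (en (sw 1 q M) 0 0) f'
    (hsym _ c02) h'.a0 h'.b0 d0
  refine ⟨q, ![x0, x1, x2, x3], ![v0, v1, v2, v3], en (sw 1 q M) 0 1, hqd, ?_⟩
  apply ext_en
  intro a b
  have hE : en (tet ![x0, x1, x2, x3] ![v0, v1, v2, v3] (en (sw 1 q M) 0 1)) a b =
      tetE ![x0, x1, x2, x3] ![v0, v1, v2, v3] (en (sw 1 q M) 0 1) a b :=
    webOf_en _ a b
  rw [hE]
  have hs21 := en_symm hs' 2 1
  have hs20 := en_symm hs' 2 0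
  have hs10 := en_symm hs' 1 0
  fin_cases a <;> fin_cases b
  · exact e4
  · rfl
  · exact e3
  · exact hs10
  · exact e2
  · exact e1
  · exact hs20.trans e3
  · exact hs21.trans e1
  · exact h22

end Pool.Agent.T1
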