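import Pool.Agent.T1.MST

/-!
# T1 / TNW: truncated solutions

`S = Polynomial k`, `ε = Polynomial.X`.  Induction on `n`.  `n = 0`: `M = mapW C M₀`, `Q = - map C G`.  Step: `dW M = map C (dW M₀) + C ε * map C G + C (ε^(n+1)) * Q`.  Let `Q₀` be the value of `Q` at `ε = 0`: a form of bidegree `(3, 3)` over `k`
(all other terms are such forms, `P4 S` is a domain; or take the component of bidegree `(3, 3)` of `Q` from the beginning).  `sur`: `E` with `trace (adj(pm M₀) * pm E) = - Q₀`.  `M' := M + ε^(n+1) • mapW C E`:
`dW M' = dW M + C (ε^(n+1)) * trace (adj(pm M) * pm E) + C (ε^(2n+2)) * (..)`, `M ≡ M₀` mod `ε` (keep this in the induction), so `≡ map C (dW M₀) + C ε G + C (ε^(n+1)) (Q - Q₀)` mod `ε^(n+2)`.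
-/

namespace Pool.Agent.T1

open MvPolynomial Matrix

private lemma TNW_det {S : Type*} [CommRing S] (A B : Matrix (Fin 3) (Fin 3) S) (t : S) :
    (A + t • B).det = A.det + t * (A.adjugate * B).trace + t ^ 2 * (B.adjugate * A).trace +
      t ^ 3 * B.det := by
  simp only [Matrix.det_fin_three, Matrix.adjugate_fin_three, Matrix.trace_fin_three,
    Matrix.mul_apply, Fin.sum_univ_three, Matrix.add_apply, Matrix.smul_apply, smul_eq_mul,
    Matrix.of_apply, Matrix.cons_val', Matrix.cons_val_zero, Matrix.cons_val_one,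
    Matrix.cons_val]
  ring

private lemma TNW_ker {k : Type*} [Field k] (f : P4 (Polynomial k))
    (h : MvPolynomial.map (Polynomial.evalRingHom 0) f = 0) : C Polynomial.X ∣ f := by
  rw [C_dvd_iff_dvd_coeff]
  intro i
  have h1 := congrArg (coeff i) h
  rw [coeff_map, coeff_zero] at h1
  rw [Polynomial.X_dvd_iff, Polynomial.coeff_zero_eq_eval_zero]
  exact h1

private lemma TNW_BH {k : Type*} [Field k] {c : Polynomial k} (hc : c ≠ 0)
    {f g : P4 (Polynomial k)} {m n : ℕ} (hf : BH f m n) (h : f = C c * g) : BH g m n := by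
  intro d hd
  apply hf
  rw [h, coeff_C_mul]
  exact mul_ne_zero hc hd

private lemma TNW_BHmap {R S : Type*} [CommRing R] [CommRing S] (φ : R →+* S) {f : P4 R}
    {m n : ℕ} (hf : BH f m n) : BH (MvPolynomial.map φ f) m n := by
  intro d hd
  apply hf
  intro h0
  rw [coeff_map, h0, map_zero] at hd
  exact hd rfl

private lemma TNW_BHsub {R : Type*} [CommRing R] {f g : P4 R}
    {m n : ℕ} (hf : BH f m n) (hg : BH g m n) : BH (f - g) m n := by
  intro d hd
  by_cases h1 : coeff d f = 0
  · apply hg
    intro h2
    rw [coeff_sub, h1, h2, sub_zero] at hd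
    exact hd rfl
  · exact hf h1

private lemma TNW_BHC {R : Type*} [CommRing R] {f : P4 R}
    {m n : ℕ} (hf : BH f m n) (c : R) : BH (C c * f) m n := by
  intro d hd
  apply hf
  intro h0
  rw [coeff_C_mul, h0, mul_zero] at hd
  exact hd rfl

private lemma TNW_map_C {k : Type*} [Field k] (f : P4 k) :
    MvPolynomial.map (Polynomial.evalRingHom 0) (MvPolynomial.map Polynomial.C f) = f := by
  rw [MvPolynomial.map_map]
  have h : (Polynomial.evalRingHom (0 : k)).comp Polynomial.C = RingHom.id k := by
    ext x
    simp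
  rw [h, MvPolynomial.map_id]

private lemma TNW_mapW_C {k : Type*} [Field k] (M : Web k) :
    mapW (Polynomial.evalRingHom 0) (mapW Polynomial.C M) = M := by
  funext i j
  ext1 a b
  simp [mapW]

theorem tnw {k : Type*} [Field k] (M₀ : Web k) (hs : Sy M₀)
    (hsur : ∀ G : P4 k, BH G 3 3 → ∃ E : Web k, Sy E ∧ ((pm M₀).adjugate * pm E).trace = G)
    (G : P4 k) (hG : BH G 3 3) (n : ℕ) :
    ∃ (M : Web (Polynomial k)) (Q : P4 (Polynomial k)), Sy M ∧
      dW M = MvPolynomial.map Polynomial.C (dW M₀) + C Polynomial.X * MvPolynomial.map Polynomial.C G +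
        C (Polynomial.X ^ (n + 1)) * Q := by
  have main : ∀ n : ℕ, ∃ (M : Web (Polynomial k)) (Q : P4 (Polynomial k)), Sy M ∧
      mapW (Polynomial.evalRingHom 0) M = M₀ ∧
      dW M = MvPolynomial.map Polynomial.C (dW M₀) + C Polynomial.X * MvPolynomial.map Polynomial.C G +
        C (Polynomial.X ^ (n + 1)) * Q := by
    intro n
    induction n with
    | zero =>
      refine ⟨mapW Polynomial.C M₀, - MvPolynomial.map Polynomial.C G, hs.mapW _,
        TNW_mapW_C M₀, ?_⟩
      rw [map_dW, zero_add, pow_one]
      ring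
    | succ n ih =>
      obtain ⟨M, Q, hM, hM0, hd⟩ := ih
      have hX : (Polynomial.X : Polynomial k) ^ (n + 1) ≠ 0 := pow_ne_zero _ Polynomial.X_ne_zero
      have hbQ : BH Q 3 3 := by
        have h1 : BH (dW M - MvPolynomial.map Polynomial.C (dW M₀) -
            C Polynomial.X * MvPolynomial.map Polynomial.C G) 3 3 :=
          TNW_BHsub (TNW_BHsub (BH_dW M) (TNW_BHmap Polynomial.C (BH_dW M₀)))
            (TNW_BHC (TNW_BHmap Polynomial.C hG) _)
        refine TNW_BH hX h1 ?_
        rw [hd]
        ring
      have hbQ0 : BH (- MvPolynomial.map (Polynomial.evalRingHom 0) Q) 3 3 := by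
        have h1 := TNW_BHC (TNW_BHmap (Polynomial.evalRingHom (0 : k)) hbQ) (-1)
        have h2 : C (-1) * MvPolynomial.map (Polynomial.evalRingHom (0 : k)) Q =
            - MvPolynomial.map (Polynomial.evalRingHom 0) Q := by
          rw [C_neg, C_1, neg_one_mul]
        rwa [h2] at h1
      obtain ⟨E, hE, htr⟩ := hsur _ hbQ0
      set E' : Web (Polynomial k) := mapW Polynomial.C E with hE'
      set M' : Web (Polynomial k) := M + (Polynomial.X ^ (n + 1) : Polynomial k) • E' with hM'
      have hsE' : Sy E' := hE.mapW _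
      have hpm : pm M' = pm M + (C (Polynomial.X ^ (n + 1)) : P4 (Polynomial k)) • pm E' := by
        rw [← pm_smul]
        ext1 a b
        rw [Matrix.add_apply, pm_apply, pm_apply, pm_apply, ← pb_add]
        congr 1
      have hsM' : Sy M' := by
        intro i j
        have h1 := hM i j
        have h2 := (hsE'.smul (Polynomial.X ^ (n + 1) : Polynomial k)) i j
        rw [hM', Pi.add_apply, Pi.add_apply, Matrix.transpose_add, h1, h2]
      have hM0' : mapW (Polynomial.evalRingHom 0) M' = M₀ := by
        rw [← hM0]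
        funext i j
        ext1 a b
        simp [mapW, hM']
      have hdet : dW M' = dW M + C (Polynomial.X ^ (n + 1)) * ((pm M).adjugate * pm E').trace +
          C (Polynomial.X ^ (n + 1)) ^ 2 * ((pm E').adjugate * pm M).trace +
          C (Polynomial.X ^ (n + 1)) ^ 3 * dW E' := by
        unfold dW
        rw [hpm, TNW_det]
      have hker : MvPolynomial.map (Polynomial.evalRingHom 0)
          (Q + ((pm M).adjugate * pm E').trace) = 0 := by
        have h1 : MvPolynomial.map (Polynomial.evalRingHom (0 : k))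
            ((pm M).adjugate * pm E').trace = ((pm M₀).adjugate * pm E).trace := by
          have h2 : (pm E').map (MvPolynomial.map (Polynomial.evalRingHom (0 : k))) = pm E := by
            rw [map_pm, hE', TNW_mapW_C]
          have h3 : (pm M).map (MvPolynomial.map (Polynomial.evalRingHom (0 : k))) = pm M₀ := by
            rw [map_pm, hM0]
          rw [← h2, ← h3]
          have h4 := RingHom.map_adjugate
            (MvPolynomial.map (Polynomial.evalRingHom (0 : k)) : P4 (Polynomial k) →+* P4 k) (pm M)
          have h5 : ((pm M).map (MvPolynomial.map (Polynomial.evalRingHom (0 : k)))).adjugate =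
              (pm M).adjugate.map (MvPolynomial.map (Polynomial.evalRingHom (0 : k))) := h4.symm
          rw [h5, ← Matrix.map_mul]
          simp only [Matrix.trace, Matrix.diag_apply, Matrix.map_apply, map_sum]
        rw [map_add, h1, htr, add_neg_cancel]
      obtain ⟨W, hW⟩ := TNW_ker _ hker
      refine ⟨M', W + C (Polynomial.X ^ n) * ((pm E').adjugate * pm M).trace +
        C (Polynomial.X ^ (2 * n + 1)) * dW E', hsM', hM0', ?_⟩
      have hQ : Q = C Polynomial.X * W - ((pm M).adjugate * pm E').trace := by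
        rw [← hW]; ring
      rw [hdet, hd, hQ]
      simp only [C_pow]
      ring
  obtain ⟨M, Q, h1, -, h3⟩ := main n
  exact ⟨M, Q, h1, h3⟩

end Pool.Agent.T1
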