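import Pool.Agent.T1.TCW
import Pool.Agent.T1.PMX

/-!
# T1 / TPP: the polynomials `pp` of the webs of a tetrad

Let `m = μ lam + [[a, b], [b, c]]`, i.e. `μ = (m 0 1 - m 1 0)/2`, `b = (m 0 1 + m 1 0)/2`, `a = m 0 0`, `c = m 1 1`.  With `w i j = wd (v i) (v j)` and `s i j = (a p q + ..)/2 = bf m (nf (v i) (v j)) / 2` (`bf m (nf u v) = a u₀ v₀ + b (u₀ v₁ + u₁ v₀) + c u₁ v₁`),
`ν = a c - b²` (`bf m m = 2 μ² + 2 ν`), the entries of `pA f₀₁ f₂₃ (gA (tet x v m) ..) (u - 2 μ)` are, with `θ = 4 μ - u`,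
`(0,0): 2 x₂ x₃ θ + 4 (x₂ s₃₃ + x₃ s₂₂) - u w₂₃²/2`, `(1,1): 2 x₀ x₁ θ + 4 (x₀ s₁₁ + x₁ s₀₀) - u w₀₁²/2`,
`(0,1): (x₀x₁w₂₃² + x₂x₃w₀₁² - x₀x₂w₁₃² - x₀x₃w₁₂² - x₁x₂w₀₃² - x₁x₃w₀₂² - 4ν - uθ)/2`, `(2,2): -2θ - 2(w₀₂w₁₃ + w₀₃w₁₂)`,
`(0,2): x₂ w₀₃ w₁₃ + x₃ w₀₂ w₁₂ - 4 s₂₃`, `(1,2): x₀ w₁₂ w₁₃ + x₁ w₀₂ w₀₃ - 4 s₀₁` (from `gA`, `bf_nf_nf`, `bf_lam_nf`).  So `pp .. t = PMf ..` with `u = t + 2 μ` (definition in `PMX`), and for the second web `μ' = μ + w₀₃w₁₂/4`, the same `u`,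
`θ' = θ + w₀₃ w₁₂`, the indices `1`, `2` exchanged (`w₂₁ = - w₁₂`): `pmx`.
-/

namespace Pool.Agent.T1

open MvPolynomial Matrix

private theorem TPP_en {k : Type*} [Field k] (x : Fin 4 → k) (v : Fin 4 → Fin 2 → k)
    (m : Matrix (Fin 2) (Fin 2) k) (a b : Fin 3) : en (tet x v m) a b = tetE x v m a b := by
  ext i j
  rfl

private theorem TPP_bfnf {k : Type*} [Field k] (m : Matrix (Fin 2) (Fin 2) k) (u w : Fin 2 → k) :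
    bf m (nf u w) = m 0 0 * (u 0 * w 0) + (m 0 1 + m 1 0) / 2 * (u 0 * w 1 + u 1 * w 0) +
      m 1 1 * (u 1 * w 1) := by
  simp only [bf, nf, Matrix.of_apply, Matrix.cons_val', Matrix.cons_val_zero, Matrix.cons_val_one,
    Matrix.cons_val_fin_one]
  ring

private theorem TPP_ent {k : Type*} [Field k] [CharZero k] (x : Fin 4 → k) (v : Fin 4 → Fin 2 → k)
    (m : Matrix (Fin 2) (Fin 2) k) (t : k) :
    pA (x 0 * x 1 + wd (v 0) (v 1) ^ 2 / 4) (x 2 * x 3 + wd (v 2) (v 3) ^ 2 / 4)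
      (gA (tet x v m) (x 0 * x 1 + wd (v 0) (v 1) ^ 2 / 4) (x 2 * x 3 + wd (v 2) (v 3) ^ 2 / 4)) t =
    !![2 * x 2 * x 3 * (m 0 1 - m 1 0 - t) + 4 * (x 2 * (bf m (nf (v 3) (v 3)) / 2) +
          x 3 * (bf m (nf (v 2) (v 2)) / 2)) - (t + (m 0 1 - m 1 0)) * wd (v 2) (v 3) ^ 2 / 2,
        (x 0 * x 1 * wd (v 2) (v 3) ^ 2 + x 2 * x 3 * wd (v 0) (v 1) ^ 2 -
          x 0 * x 2 * wd (v 1) (v 3) ^ 2 - x 0 * x 3 * wd (v 1) (v 2) ^ 2 -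
          x 1 * x 2 * wd (v 0) (v 3) ^ 2 - x 1 * x 3 * wd (v 0) (v 2) ^ 2 -
          4 * (m 0 0 * m 1 1 - ((m 0 1 + m 1 0) / 2) ^ 2) -
          (t + (m 0 1 - m 1 0)) * (m 0 1 - m 1 0 - t)) / 2,
        x 2 * (wd (v 0) (v 3) * wd (v 1) (v 3)) + x 3 * (wd (v 0) (v 2) * wd (v 1) (v 2)) -
          4 * (bf m (nf (v 2) (v 3)) / 2);
      (x 0 * x 1 * wd (v 2) (v 3) ^ 2 + x 2 * x 3 * wd (v 0) (v 1) ^ 2 -
          x 0 * x 2 * wd (v 1) (v 3) ^ 2 - x 0 * x 3 * wd (v 1) (v 2) ^ 2 -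
          x 1 * x 2 * wd (v 0) (v 3) ^ 2 - x 1 * x 3 * wd (v 0) (v 2) ^ 2 -
          4 * (m 0 0 * m 1 1 - ((m 0 1 + m 1 0) / 2) ^ 2) -
          (t + (m 0 1 - m 1 0)) * (m 0 1 - m 1 0 - t)) / 2,
        2 * x 0 * x 1 * (m 0 1 - m 1 0 - t) + 4 * (x 0 * (bf m (nf (v 1) (v 1)) / 2) +
          x 1 * (bf m (nf (v 0) (v 0)) / 2)) - (t + (m 0 1 - m 1 0)) * wd (v 0) (v 1) ^ 2 / 2,
        x 0 * (wd (v 1) (v 2) * wd (v 1) (v 3)) + x 1 * (wd (v 0) (v 2) * wd (v 0) (v 3)) -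
          4 * (bf m (nf (v 0) (v 1)) / 2);
      x 2 * (wd (v 0) (v 3) * wd (v 1) (v 3)) + x 3 * (wd (v 0) (v 2) * wd (v 1) (v 2)) -
          4 * (bf m (nf (v 2) (v 3)) / 2),
        x 0 * (wd (v 1) (v 2) * wd (v 1) (v 3)) + x 1 * (wd (v 0) (v 2) * wd (v 0) (v 3)) -
          4 * (bf m (nf (v 0) (v 1)) / 2),
        -(2 * (m 0 1 - m 1 0 - t)) - 2 * (wd (v 0) (v 2) * wd (v 1) (v 3) +
          wd (v 0) (v 3) * wd (v 1) (v 2))] := by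
  simp only [TPP_bfnf]
  ext i j
  fin_cases i <;> fin_cases j <;>
  · simp only [pA, gA, TPP_en, tetE, md, nf, lam, wd, bf, Fin.zero_eta, Fin.mk_one, Fin.reduceFinMk,
      Matrix.add_apply, Matrix.smul_apply, Matrix.neg_apply, Matrix.of_apply, Matrix.cons_val',
      Matrix.cons_val_zero, Matrix.cons_val_one, Matrix.cons_val_fin_one, Matrix.cons_val,
      Matrix.diagonal_apply, smul_eq_mul, Fin.isValue]
    simp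
    ring

/-- the matrix of `pA` for a tetrad -/
theorem tpp_det {k : Type*} [Field k] [CharZero k] (x : Fin 4 → k) (v : Fin 4 → Fin 2 → k)
    (m : Matrix (Fin 2) (Fin 2) k) (t : k) :
    pp (x 0 * x 1 + wd (v 0) (v 1) ^ 2 / 4) (x 2 * x 3 + wd (v 2) (v 3) ^ 2 / 4)
      (gA (tet x v m) (x 0 * x 1 + wd (v 0) (v 1) ^ 2 / 4) (x 2 * x 3 + wd (v 2) (v 3) ^ 2 / 4)) t =
    PMf (x 0) (x 1) (x 2) (x 3) (wd (v 0) (v 1)) (wd (v 0) (v 2)) (wd (v 0) (v 3)) (wd (v 1) (v 2))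
      (wd (v 1) (v 3)) (wd (v 2) (v 3)) (bf m (nf (v 0) (v 0)) / 2) (bf m (nf (v 1) (v 1)) / 2)
      (bf m (nf (v 2) (v 2)) / 2) (bf m (nf (v 3) (v 3)) / 2) (bf m (nf (v 0) (v 1)) / 2)
      (bf m (nf (v 2) (v 3)) / 2) (m 0 0 * m 1 1 - ((m 0 1 + m 1 0) / 2) ^ 2)
      (m 0 1 - m 1 0 - t) (t + (m 0 1 - m 1 0)) := by
  unfold pp
  rw [TPP_ent, Matrix.det_fin_three]
  simp only [PMf, Matrix.of_apply, Matrix.cons_val', Matrix.cons_val_zero, Matrix.cons_val_one,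
    Matrix.cons_val_fin_one, Matrix.cons_val]
  ring

theorem tpp {k : Type*} [Field k] [CharZero k] (x : Fin 4 → k) (v : Fin 4 → Fin 2 → k)
    (m : Matrix (Fin 2) (Fin 2) k) (t : k) :
    pp (x 0 * x 1 + wd (v 0) (v 1) ^ 2 / 4) (x 2 * x 3 + wd (v 2) (v 3) ^ 2 / 4)
      (gA (tet x v m) (x 0 * x 1 + wd (v 0) (v 1) ^ 2 / 4) (x 2 * x 3 + wd (v 2) (v 3) ^ 2 / 4)) t =
    pp (x 0 * x 2 + wd (v 0) (v 2) ^ 2 / 4) (x 1 * x 3 + wd (v 1) (v 3) ^ 2 / 4)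
      (gA (tet (x ∘ Equiv.swap 1 2) (v ∘ Equiv.swap 1 2)
        (m + (wd (v 0) (v 3) * wd (v 1) (v 2) / 4) • lam)) (x 0 * x 2 + wd (v 0) (v 2) ^ 2 / 4)
        (x 1 * x 3 + wd (v 1) (v 3) ^ 2 / 4)) (t - wd (v 0) (v 3) * wd (v 1) (v 2) / 2) := by
  have h0 : Equiv.swap (1 : Fin 4) 2 0 = 0 := by decide
  have h1 : Equiv.swap (1 : Fin 4) 2 1 = 2 := by decide
  have h2 : Equiv.swap (1 : Fin 4) 2 2 = 1 := by decide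
  have h3 : Equiv.swap (1 : Fin 4) 2 3 = 3 := by decide
  have key := tpp_det (x ∘ Equiv.swap 1 2) (v ∘ Equiv.swap 1 2)
    (m + (wd (v 0) (v 3) * wd (v 1) (v 2) / 4) • lam)
    (t - wd (v 0) (v 3) * wd (v 1) (v 2) / 2)
  simp only [Function.comp_apply, h0, h1, h2, h3] at key
  rw [tpp_det, key]
  have hm00 : (m + (wd (v 0) (v 3) * wd (v 1) (v 2) / 4) • lam :
      Matrix (Fin 2) (Fin 2) k) 0 0 = m 0 0 := by
    simp [lam]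
  have hm11 : (m + (wd (v 0) (v 3) * wd (v 1) (v 2) / 4) • lam :
      Matrix (Fin 2) (Fin 2) k) 1 1 = m 1 1 := by
    simp [lam]
  have hm01 : (m + (wd (v 0) (v 3) * wd (v 1) (v 2) / 4) • lam :
      Matrix (Fin 2) (Fin 2) k) 0 1 =
      m 0 1 + wd (v 0) (v 3) * wd (v 1) (v 2) / 4 := by
    simp [lam]
  have hm10 : (m + (wd (v 0) (v 3) * wd (v 1) (v 2) / 4) • lam :
      Matrix (Fin 2) (Fin 2) k) 1 0 =
      m 1 0 - wd (v 0) (v 3) * wd (v 1) (v 2) / 4 := by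
    simp [lam, sub_eq_add_neg]
  simp only [TPP_bfnf, hm00, hm11, hm01, hm10]
  have e1 : m 0 1 + wd (v 0) (v 3) * wd (v 1) (v 2) / 4 +
      (m 1 0 - wd (v 0) (v 3) * wd (v 1) (v 2) / 4) = m 0 1 + m 1 0 := by ring
  have e2 : m 0 1 + wd (v 0) (v 3) * wd (v 1) (v 2) / 4 -
      (m 1 0 - wd (v 0) (v 3) * wd (v 1) (v 2) / 4) -
      (t - wd (v 0) (v 3) * wd (v 1) (v 2) / 2) =
      (m 0 1 - m 1 0 - t) + wd (v 0) (v 3) * wd (v 1) (v 2) := by ring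
  have e3 : t - wd (v 0) (v 3) * wd (v 1) (v 2) / 2 +
      (m 0 1 + wd (v 0) (v 3) * wd (v 1) (v 2) / 4 -
      (m 1 0 - wd (v 0) (v 3) * wd (v 1) (v 2) / 4)) = t + (m 0 1 - m 1 0) := by ring
  rw [e1, e2, e3]
  have H := pmx (x 0) (x 1) (x 2) (x 3) (v 0 0) (v 0 1) (v 1 0) (v 1 1) (v 2 0) (v 2 1) (v 3 0)
    (v 3 1) (m 0 0) ((m 0 1 + m 1 0) / 2) (m 1 1) (m 0 1 - m 1 0 - t) (t + (m 0 1 - m 1 0))
  have hw : ∀ i j : Fin 4, wd (v i) (v j) = v i 0 * v j 1 - v i 1 * v j 0 := fun i j => rfl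
  simp only [hw]
  convert H using 2

end Pool.Agent.T1
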