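import Pool.Agent.T1.TEX
import Pool.Agent.T1.TPP
import Pool.Agent.T1.AWD

/-!
# T1 / TWF: the two other webs of a tetrad

`cpw'`: `CW M f f'`, `A = gA M f f'`.  `tex`: `q`, `x`, `v`, `m`.  `f = x 0 * x 1 + wd²/4`, `f' = x 2 * x 3 + wd²/4`: compare `d1`, `d0` of `cw_sw` and `tcw`.  `N₁ := tet (x ∘ swap 1 2) (v ∘ swap 1 2) (m + ..)`, `α₁ = wd (v 0) (v 3) * wd (v 1) (v 2) / 2`, `M₁ := sw 1 q⁻¹ N₁`:
`dW M₁ = sD 1 q⁻¹ (dW N₁) = sD 1 q⁻¹ (sD 1 q (dW M)) = dW M` (`tsd`, `dW_sw`, `sD_sD`, `sD_one`), `qt M₁ = qt N₁` (`qt_sw`, `det q⁻¹ = 1`), `CP` by `tcw`, `cpw`; `tpp` (`gA_sw`: `gA M = gA (tet x v m)`).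
`M₂`: the same for the data `x ∘ swap 0 1`, `v ∘ swap 0 1`, `m` (the same tetrad web by `tet_swap`), `α₂ = wd (v 1) (v 3) * wd (v 0) (v 2) / 2`.
`bf (en M 0 2) (en M 1 2) = bf (nf (v 2) (v 3)) (nf (v 0) (v 1)) = α₁ + α₂` (`en_sw`, `bf_mul`, `bf_nf_nf`).
-/

namespace Pool.Agent.T1

open MvPolynomial Matrix

private lemma TWF_key {k : Type*} [Field k] [CharZero k] (M : Web k)
    (q : Matrix (Fin 2) (Fin 2) k) (hq : q.det = 1) (a b c d : Fin 3) :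
    bf (en (sw 1 q M) a b) (en (sw 1 q M) c d) = bf (en M a b) (en M c d) := by
  rw [en_sw, en_sw, bf_mul, Matrix.det_one, hq]
  ring

private lemma TWF_one {k : Type*} [Field k] [IsAlgClosed k] [CharZero k] (M : Web k)
    (q : Matrix (Fin 2) (Fin 2) k) (hq : q.det = 1) (x : Fin 4 → k) (v : Fin 4 → Fin 2 → k)
    (m : Matrix (Fin 2) (Fin 2) k) (hM : sw 1 q M = tet x v m) :
    ∃ (M₁ : Web k) (f₁ f₁' : k) (A₁ : Matrix (Fin 3) (Fin 3) k), Sy M₁ ∧ dW M₁ = dW M ∧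
      CP (qt M₁) f₁ f₁' A₁ ∧
      ∀ t, pp (x 0 * x 1 + wd (v 0) (v 1) ^ 2 / 4) (x 2 * x 3 + wd (v 2) (v 3) ^ 2 / 4)
        (gA (tet x v m) (x 0 * x 1 + wd (v 0) (v 1) ^ 2 / 4)
          (x 2 * x 3 + wd (v 2) (v 3) ^ 2 / 4)) t = 0 →
        pp f₁ f₁' A₁ (t - wd (v 0) (v 3) * wd (v 1) (v 2) / 2) = 0 := by
  have hq' : q⁻¹.det = 1 := by
    rw [Matrix.det_nonsing_inv, hq, Ring.inverse_one]
  have hqq : q * q⁻¹ = 1 := Matrix.mul_nonsing_inv q (by rw [hq]; exact isUnit_one)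
  have hs0 : (Equiv.swap (1 : Fin 4) 2) 0 = 0 := by decide
  have hs1 : (Equiv.swap (1 : Fin 4) 2) 1 = 2 := by decide
  have hs2 : (Equiv.swap (1 : Fin 4) 2) 2 = 1 := by decide
  have hs3 : (Equiv.swap (1 : Fin 4) 2) 3 = 3 := by decide
  set N : Web k := tet (x ∘ Equiv.swap 1 2) (v ∘ Equiv.swap 1 2)
    (m + (wd (v 0) (v 3) * wd (v 1) (v 2) / 4) • lam) with hN
  have hc : CW N (x 0 * x 2 + wd (v 0) (v 2) ^ 2 / 4) (x 1 * x 3 + wd (v 1) (v 3) ^ 2 / 4) := by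
    have h := tcw (x ∘ Equiv.swap 1 2) (v ∘ Equiv.swap 1 2)
      (m + (wd (v 0) (v 3) * wd (v 1) (v 2) / 4) • lam)
    simp only [Function.comp_apply, hs0, hs1, hs2, hs3] at h
    exact h
  have hN2 : Sy N := sy_tet _ _ _
  refine ⟨sw 1 q⁻¹ N, x 0 * x 2 + wd (v 0) (v 2) ^ 2 / 4, x 1 * x 3 + wd (v 1) (v 3) ^ 2 / 4,
    gA N (x 0 * x 2 + wd (v 0) (v 2) ^ 2 / 4) (x 1 * x 3 + wd (v 1) (v 3) ^ 2 / 4),
    hN2.sw 1 q⁻¹, ?_, ?_, ?_⟩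
  · rw [dW_sw, hN, tsd, ← hM, dW_sw, sD_sD, hqq, Matrix.one_mul, sD_one]
  · have h := cpw N hN2 _ _ hc
    rw [qt_sw, Matrix.det_one, hq', mul_one, map_one, one_mul]
    exact h
  · intro t ht
    rw [tpp] at ht
    exact ht

theorem twf {k : Type*} [Field k] [IsAlgClosed k] [CharZero k] (M : Web k) (hs : Sy M) (f f' : k)
    (A : Matrix (Fin 3) (Fin 3) k) (h : CP (qt M) f f' A) :
    A 2 2 = -(2 * bf (en M 0 1) (en M 2 2) + 4 * bf (en M 0 2) (en M 1 2)) ∧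
    ∃ (M₁ M₂ : Web k) (f₁ f₁' f₂ f₂' : k) (A₁ A₂ : Matrix (Fin 3) (Fin 3) k) (α₁ α₂ : k),
      Sy M₁ ∧ Sy M₂ ∧ dW M₁ = dW M ∧ dW M₂ = dW M ∧ CP (qt M₁) f₁ f₁' A₁ ∧ CP (qt M₂) f₂ f₂' A₂ ∧
      (∀ t, pp f f' A t = 0 → pp f₁ f₁' A₁ (t - α₁) = 0) ∧
      (∀ t, pp f f' A t = 0 → pp f₂ f₂' A₂ (t - α₂) = 0) ∧
      bf (en M 0 2) (en M 1 2) = α₁ + α₂ := by
  obtain ⟨hc, hA⟩ := cpw' M hs f f' A h
  obtain ⟨q, x, v, m, hq, hM⟩ := tex M hs f f' hc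
  refine ⟨by rw [hA]; rfl, ?_⟩
  have h1 := cw_sw M f f' hc q hq
  rw [hM] at h1
  have h2 := tcw x v m
  have e1 : f = x 0 * x 1 + wd (v 0) (v 1) ^ 2 / 4 := by
    have := h1.d1.symm.trans h2.d1
    have h20 : (2 : k) ≠ 0 := two_ne_zero
    exact mul_left_cancel₀ h20 (neg_injective this)
  have e2 : f' = x 2 * x 3 + wd (v 2) (v 3) ^ 2 / 4 := by
    have := h1.d0.symm.trans h2.d0
    have h20 : (2 : k) ≠ 0 := two_ne_zero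
    exact mul_left_cancel₀ h20 (neg_injective this)
  have hA' : A = gA (tet x v m) f f' := by
    rw [hA, ← hM, gA_sw M f f' q hq]
  obtain ⟨M₁, f₁, f₁', A₁, s1, w1, c1, p1⟩ := TWF_one M q hq x v m hM
  have hs0 : (Equiv.swap (0 : Fin 4) 1) 0 = 1 := by decide
  have hs1 : (Equiv.swap (0 : Fin 4) 1) 1 = 0 := by decide
  have hs2 : (Equiv.swap (0 : Fin 4) 1) 2 = 2 := by decide
  have hs3 : (Equiv.swap (0 : Fin 4) 1) 3 = 3 := by decide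
  obtain ⟨M₂, f₂, f₂', A₂, s2, w2, c2, p2⟩ := TWF_one M q hq (x ∘ Equiv.swap 0 1)
    (v ∘ Equiv.swap 0 1) m (by rw [tet_swap]; exact hM)
  simp only [Function.comp_apply, hs0, hs1, hs2, hs3, tet_swap] at p2
  have e3 : x 1 * x 0 + wd (v 1) (v 0) ^ 2 / 4 = x 0 * x 1 + wd (v 0) (v 1) ^ 2 / 4 := by
    simp only [wd]
    ring
  rw [e3, ← e1, ← e2] at p2
  rw [← e1, ← e2] at p1
  rw [← hA'] at p1 p2
  refine ⟨M₁, M₂, f₁, f₁', f₂, f₂', A₁, A₂, wd (v 0) (v 3) * wd (v 1) (v 2) / 2,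
    wd (v 1) (v 3) * wd (v 0) (v 2) / 2, s1, s2, w1, w2, c1, c2, p1, p2, ?_⟩
  rw [← TWF_key M q hq, hM]
  have h02 : en (tet x v m) 0 2 = nf (v 2) (v 3) := webOf_en (tetE x v m) 0 2
  have h12 : en (tet x v m) 1 2 = nf (v 0) (v 1) := webOf_en (tetE x v m) 1 2
  rw [h02, h12, bf_nf_nf]
  simp only [wd]
  ring

end Pool.Agent.T1
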