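import Pool.Agent.T1.DFB

/-!
# T1 / UNG: Galois conjugates of webs

`W` as in `cnw` for `D = dF (ls φ₀ F)`.  `τ φ₀ := φ₀.map τ`: `ls (τ φ₀) Q = C (τ c₀) * qd` (`map_ls`, `map_qd`, `τ` fixes the coefficients of `map (algebraMap K C) Q`).  `O := (τ φ₀') * φ₀`: `C (τ c₀) * ls O qd = ls O (ls (τ φ₀) Q) = ls φ₀ Q = C c₀ * qd`
(`τ φ₀ * τ φ₀' = 1`), so `Sim O (c₀ / τ c₀)` (`dfb_sim`).  `M' := mapW τ M`: `dW M' = map τ (dW M) = C (τ a₀) * dF (ls (τ φ₀) F)` (`map_dW`, `dfb_map`, `map_ls`).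
`dfb_ow`: `dW (ow O M') = C (τ a₀) * dF (ls O (ls (τ φ₀) F)) = C (τ a₀) * dF (ls φ₀ F)`.  `hW` for `ow O M'` (`Sy.ow`, `Sy.mapW`): `ow O M' = c' • gw h M₁`, `M₁ ∈ W`; `qt (ow O M') = C (c₀ / τ c₀) * qt M'` (`qt_ow`), `qt M' = map τ (qt M)` (`qt_map`), `qt (c' • gw h M₁) = C (c' ^ 2) * sb h (qt M₁)`
(`qt_smul`, `qt_gw`).
-/

namespace Pool.Agent.T1

open MvPolynomial Matrix NumberField IsDedekindDomain
open Pool.Agent.PQ (P3 NS SF sb)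

theorem ung {K C : Type*} [Field K] [Field C] [CharZero C] [Algebra K C] [IsAlgClosed C]
    (Q F : MvPolynomial (Fin 4) K) (hF : F.IsHomogeneous 3)
    (φ₀ : Matrix (Fin 4) (Fin 2 × Fin 2) C) (φ₀' : Matrix (Fin 2 × Fin 2) (Fin 4) C) (hφ : φ₀ * φ₀' = 1)
    (c₀ : C) (hc : c₀ ≠ 0) (hQφ : ls φ₀ (map (algebraMap K C) Q) = MvPolynomial.C c₀ * qd C)
    (W : Finset (Web C))
    (hW : ∀ (M : Web C) (c : C), Sy M → c ≠ 0 →
      dW M = MvPolynomial.C c * dF (ls φ₀ (map (algebraMap K C) F)) →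
        ∃ M' ∈ W, ∃ (h : Matrix (Fin 3) (Fin 3) C) (c' : C), h.det ≠ 0 ∧ c' ≠ 0 ∧ M = c' • gw h M')
    (M : Web C) (hM : Sy M) (a₀ : C) (ha : a₀ ≠ 0)
    (hD : dW M = MvPolynomial.C a₀ * dF (ls φ₀ (map (algebraMap K C) F))) (τ : C ≃ₐ[K] C) :
    ∃ M' ∈ W, ∃ (m : Matrix (Fin 3) (Fin 3) C) (κ : C), m.det ≠ 0 ∧ κ ≠ 0 ∧
      map (τ : C →+* C) (qt M) = MvPolynomial.C κ * sb m (qt M') := by
  obtain ⟨f, hf⟩ : ∃ f : C →+* C, f = (τ : C →+* C) := ⟨_, rfl⟩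
  rw [← hf]
  have hcomp : f.comp (algebraMap K C) = algebraMap K C := by
    rw [hf]
    exact RingHom.ext fun x => τ.commutes x
  have hfix : ∀ G : MvPolynomial (Fin 4) K, map f (map (algebraMap K C) G) = map (algebraMap K C) G := by
    intro G
    rw [MvPolynomial.map_map, hcomp]
  have hf0 : ∀ z : C, z ≠ 0 → f z ≠ 0 := fun z hz => (map_ne_zero f).2 hz
  have h1 : ls (φ₀.map f) (map (algebraMap K C) Q) = MvPolynomial.C (f c₀) * qd C := by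
    have h := congrArg (map f) hQφ
    rwa [map_ls, hfix, map_mul, map_C, map_qd] at h
  have h2 : φ₀.map f * φ₀'.map f = 1 := by
    rw [← Matrix.map_mul, hφ, Matrix.map_one f (map_zero f) (map_one f)]
  obtain ⟨O, hO⟩ : ∃ O : Matrix (Fin 2 × Fin 2) (Fin 2 × Fin 2) C, O = φ₀'.map f * φ₀ := ⟨_, rfl⟩
  have h3 : ∀ G : MvPolynomial (Fin 4) C, ls O (ls (φ₀.map f) G) = ls φ₀ G := by
    intro G
    rw [ls_ls, hO, ← Matrix.mul_assoc, h2, Matrix.one_mul]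
  have hfc : f c₀ ≠ 0 := hf0 _ hc
  have h4 : ls O (qd C) = MvPolynomial.C (c₀ / f c₀) * qd C := by
    have h := h3 (map (algebraMap K C) Q)
    rw [h1, hQφ, map_mul, ls_C] at h
    have h5 : (MvPolynomial.C (f c₀) : MvPolynomial (Fin 2 × Fin 2) C) *
        MvPolynomial.C (c₀ / f c₀) = MvPolynomial.C c₀ := by
      rw [← MvPolynomial.C_mul, mul_div_cancel₀ _ hfc]
    rw [← h5, mul_assoc] at h
    exact mul_left_cancel₀ (by rwa [Ne, MvPolynomial.C_eq_zero]) h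
  have hSim := dfb_sim h4
  have h6 : dW (mapW f M) = MvPolynomial.C (f a₀) * dF (ls (φ₀.map f) (map (algebraMap K C) F)) := by
    rw [← map_dW, hD, map_mul, map_C, dfb_map, map_ls, hfix]
  have h7 := dfb_ow O _ hSim (mapW f M) (f a₀) (ls (φ₀.map f) (map (algebraMap K C) F))
    (ls_hom _ (hF.map _)) h6
  rw [h3] at h7
  obtain ⟨M₁, hM₁, h, c', hdet, hc', he⟩ := hW (ow O (mapW f M)) (f a₀) ((hM.mapW f).ow O) (hf0 _ ha) h7
  have hne : c₀ / f c₀ ≠ 0 := div_ne_zero hc hfc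
  have h8 := qt_ow two_ne_zero O (c₀ / f c₀) hne hSim (mapW f M)
  rw [he, qt_smul, qt_gw, qt_map] at h8
  refine ⟨M₁, hM₁, h, (c₀ / f c₀)⁻¹ * c' ^ 2, hdet, mul_ne_zero (inv_ne_zero hne) (pow_ne_zero 2 hc'), ?_⟩
  rw [MvPolynomial.C_mul, mul_assoc, h8, ← mul_assoc, ← MvPolynomial.C_mul, inv_mul_cancel₀ hne,
    MvPolynomial.C_1, one_mul]

end Pool.Agent.T1
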