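import Pool.Agent.T1.UNL
import Pool.Agent.T1.UNG
import Pool.Agent.T1.CNW
import Pool.Agent.T1.NIN
import Pool.Agent.T1.NDG
import Pool.Agent.T1.DefsB
import Pool.Agent.ESH.HTL
import Pool.Agent.G4.NSF

/-!
# T1 / UNF: the Riemann parameters of all webs are bounded

`D := dF (ls φ₀ F)`.  `cnw`: `W`, `W.card ≤ 37 ^ 12`; by symmetry of webs and `Smo` we may remove from `W` all webs which are not symmetric or whose quartic is not smooth: let `W' := (W.filter fun M' => (qt M').IsHomogeneous 4 ∧ SF (qt M')).image qt`.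
For `M` with `dW M = C a₀ * D`: `dW M` is smooth, `smq`: `NS (qt M)`; for `τ`: `ung`: `map τ (qt M) = C κ * sb m (qt M')`, so `qt M'` is smooth (`map τ (qt M)` is smooth; `PQ.ns_sb`, `G4.nsf`), so in `W'`.  `ndg`: `(minpoly K (b i r)).natDegree ≤ 37 ^ 12 * 42 ^ 5`.
`Bd`: `ESH.htl T 3 (37 ^ 12 * 42 ^ 5) (b i r)`; if `i = 0` or `r = 0`: `b i r = 1`, polynomial `X - 1`; for `i ≠ 0`, `r ≠ 0`: `b i r ≠ 0, 1` (`ND`), and for `GoodV T 3 V`: `unl`: `Γ, m, κ`; `h₁ := m⁻¹ * h`, `sb h₁ (map Γ) = C (κ c₁) * RB b` (`PQ.sb_sb`, `PQ.sb_C`), `nin`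
(compare `PQ/HTB.lean`, `G4/UNX.lean`).  Bounds: `szK K T + 3 + 37 ^ 12 * 42 ^ 5 ≤ tw 2 (szK K T)` as in `G4/FIN.lean` (`fin_add`, `fin_s`; `37 ^ 12 * 42 ^ 5 ≤ 2 ^ 100`), so `tw 90 (..) ≤ tw 92 s` (`tw_comp`, `tw_mono`), `tw 5 (..) ≤ tw 92 s`.
`UNH`, `GB`: definitions in `DefsB`, `Defs2`.
-/

namespace Pool.Agent.T1

open MvPolynomial Matrix NumberField IsDedekindDomain
open Pool.Agent.PQ (P3 NS SF sb ND RB)

private theorem UNF_add (s m : ℕ) (h1 : s ≤ m) (h2 : 65536 ≤ m) :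
    s + 3 + 37 ^ 12 * 42 ^ 5 ≤ 2 ^ m := by
  have h3 : m < 2 ^ (m / 2) * 2 := by
    have h4 : m / 2 < 2 ^ (m / 2) := Nat.lt_two_pow_self
    omega
  have h5 : 3 + 37 ^ 12 * 42 ^ 5 ≤ 2 ^ 100 := by norm_num
  have h6 : 2 ^ 100 ≤ 2 ^ (m - 1) := Nat.pow_le_pow_right (by norm_num) (by omega)
  have h7 : 2 ^ (m / 2) * 2 ≤ 2 ^ (m - 1) := by
    rw [← pow_succ]
    exact Nat.pow_le_pow_right (by norm_num) (by omega)
  have h8 : 2 ^ m = 2 ^ (m - 1) + 2 ^ (m - 1) := by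
    rw [← two_mul, ← pow_succ']
    congr 1
    omega
  omega

private theorem UNF_s {s : ℕ} (hs : 16 ≤ s) : s + 3 + 37 ^ 12 * 42 ^ 5 ≤ ESH.tw 2 s := by
  have h1 := ESH.le_tw 1 s
  have h2 : 65536 ≤ ESH.tw 1 s := by
    have h3 : ESH.tw 1 16 ≤ ESH.tw 1 s := ESH.tw_mono le_rfl hs
    refine le_trans ?_ h3
    rw [show (1 : ℕ) = 0 + 1 from rfl, ESH.tw_succ, ESH.tw_zero]
    norm_num
  rw [show ESH.tw 2 s = 2 ^ ESH.tw 1 s from ESH.tw_succ 1 s]
  generalize ESH.tw 1 s = m at h1 h2 ⊢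
  exact UNF_add s m h1 h2

private theorem UNF_tw (a b s D : ℕ) (h : D ≤ ESH.tw b s) : ESH.tw a D ≤ ESH.tw (a + b) s := by
  rw [← ESH.tw_comp]
  exact ESH.tw_mono le_rfl h

private theorem UNF_one {C : Type*} [Field C] {c s : ℕ} (hs : 16 ≤ s) : Bd c s (1 : C) := by
  have h1 : 1 ≤ ESH.tw c s := by
    have := ESH.le_tw c s
    omega
  refine ⟨Polynomial.X - Polynomial.C 1, Polynomial.X_sub_C_ne_zero 1, ?_, fun j => ?_, by simp⟩
  · rw [Polynomial.natDegree_X_sub_C]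
    exact h1
  · have h2 : |(Polynomial.X - Polynomial.C 1 : Polynomial ℤ).coeff j| ≤ 1 := by
      rw [Polynomial.coeff_sub, Polynomial.coeff_X, Polynomial.coeff_C]
      split_ifs with h3 h4 <;> first | (exfalso; omega) | norm_num
    exact h2.trans (by exact_mod_cast h1)

private theorem UNF_ns {K C : Type*} [Field K] [Field C] [Algebra K C] (τ : C ≃ₐ[K] C) {G : P3 C}
    (h : NS G) : NS (map (τ : C →+* C) G) := by
  have key : ∀ (p : Fin 3 → C) (G : P3 C), eval p (map (τ : C →+* C) G) =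
      τ (eval (fun i => τ.symm (p i)) G) := by
    intro p G
    induction G using MvPolynomial.induction_on with
    | C a => simp
    | add f g hf hg => simp only [map_add, hf, hg]
    | mul_X f i hf => rw [map_mul, map_mul, map_mul, map_mul, hf, map_X, eval_X, eval_X,
        AlgEquiv.apply_symm_apply]
  intro p hp h0
  have hp' : (fun i => τ.symm (p i)) ≠ 0 := by
    intro h1
    apply hp
    funext i
    have h2 := congrFun h1 i
    simpa using h2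
  rw [key] at h0
  obtain ⟨i, hi⟩ := h _ hp' ((map_eq_zero τ).1 h0)
  refine ⟨i, ?_⟩
  rw [pderiv_map, key]
  exact (map_ne_zero τ).2 hi

private theorem UNF_nsC {k : Type*} [Field k] {c : k} (_hc : c ≠ 0) {G : P3 k}
    (h : NS (MvPolynomial.C c * G)) : NS G := by
  intro p hp h0
  obtain ⟨i, hi⟩ := h p hp (by rw [map_mul, h0, mul_zero])
  refine ⟨i, fun h1 => hi ?_⟩
  rw [pderiv_C_mul, map_mul, h1, mul_zero]

private theorem UNF_sb_one {k : Type*} [Field k] (G : P3 k) : sb 1 G = G := by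
  have h := PQ.sb_inv (1 : Matrix (Fin 3) (Fin 3) k) (by simp) G
  rw [PQ.sb_sb] at h
  simpa using h

/-- all Riemann parameters of the quartics of the webs of `D` are bounded -/
theorem unf {K C : Type*} [Field K] [NumberField K] [Field C] [Algebra K C] [Algebra.IsAlgebraic K C]
    [IsAlgClosed C] (T : Finset (HeightOneSpectrum (𝓞 K))) (Q F : MvPolynomial (Fin 4) K)
    (hQ : Q.IsHomogeneous 2) (hF : F.IsHomogeneous 3) (hd : (hs Q).det ≠ 0) (hT : GoodCO T Q F)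
    (φ₀ : Matrix (Fin 4) (Fin 2 × Fin 2) C) (φ₀' : Matrix (Fin 2 × Fin 2) (Fin 4) C) (hφ : φ₀ * φ₀' = 1)
    (c₀ : C) (hc : c₀ ≠ 0) (hQφ : ls φ₀ (map (algebraMap K C) Q) = MvPolynomial.C c₀ * qd C)
    (hS : Smo (dF (ls φ₀ (map (algebraMap K C) F)))) :
    UNH 92 (ESH.szK K T) (dF (ls φ₀ (map (algebraMap K C) F))) := by
  classical
  have hchar : CharZero C := charZero_of_injective_algebraMap (algebraMap K C).injective
  have hBH : BH (dF (ls φ₀ (map (algebraMap K C) F))) 3 3 := BH_dF (ls_hom φ₀ (hF.map _))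
  obtain ⟨W, hWc, hW⟩ := cnw _ hBH hS
  rintro M hM ⟨a₀, ha, hD⟩ h c0 b hh hc0 hb hE i r
  have hs16 : 16 ≤ ESH.szK K T := by
    unfold ESH.szK
    omega
  -- the trivial parameters
  by_cases hi : i = 0
  · rw [hi, hb.zero]
    exact UNF_one hs16
  by_cases hr : r = 0
  · rw [hr, hb.col]
    exact UNF_one hs16
  have hSM : Smo (dW M) := by
    rw [hD]
    exact smo_C ha hS
  have hNS : NS (qt M) := smq two_ne_zero M hM hSM
  obtain ⟨W', hW'⟩ : ∃ W' : Finset (P3 C), W' = (W.filter fun M' => NS (qt M')).image qt := ⟨_, rfl⟩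
  have hW'c : W'.card ≤ 37 ^ 12 := by
    rw [hW']
    exact Finset.card_image_le.trans ((Finset.card_filter_le _ _).trans hWc)
  have hW's : ∀ G ∈ W', G.IsHomogeneous 4 ∧ SF G := by
    intro G hG
    rw [hW', Finset.mem_image] at hG
    obtain ⟨M', hM', rfl⟩ := hG
    exact ⟨qt_hom M', G4.nsf _ (Finset.mem_filter.1 hM').2⟩
  have hdeg : (minpoly K (b i r)).natDegree ≤ 37 ^ 12 * 42 ^ 5 := by
    refine (ndg (K := K) W' hW's (qt M) h hh c0 hc0 b hb hE ?_ i r).trans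
      (Nat.mul_le_mul_right _ hW'c)
    intro τ
    obtain ⟨M', hM', m, κ, hm, hκ, hG⟩ := ung Q F hF φ₀ φ₀' hφ c₀ hc hQφ W hW M hM a₀ ha hD τ
    refine ⟨qt M', ?_, m, κ, hm, hκ, hG⟩
    rw [hW', Finset.mem_image]
    refine ⟨M', Finset.mem_filter.2 ⟨hM', ?_⟩, rfl⟩
    have h1 : NS (map (τ : C →+* C) (qt M)) := UNF_ns τ hNS
    rw [hG] at h1
    have h2 : NS (sb m (qt M')) := UNF_nsC hκ h1
    have hm' : (m⁻¹).det ≠ 0 := by
      rw [Matrix.det_nonsing_inv, Ring.inverse_eq_inv']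
      exact inv_ne_zero hm
    have h3 := PQ.ns_sb hm' h2
    rwa [PQ.sb_sb, Matrix.mul_nonsing_inv _ (isUnit_iff_ne_zero.2 hm), UNF_sb_one] at h3
  have hloc : ∀ V : ValuationSubring C, ESH.GoodV T 3 V →
      (∀ i r, V.valuation (b i r) = 1) ∧ (∀ i r, i ≠ 0 → r ≠ 0 → V.valuation (1 - b i r) = 1) ∧
      ∀ σ : C ≃ₐ[K] C, ESH.Inert V σ → ∀ i r, σ (b i r) = b i r := by
    intro V hV
    obtain ⟨Γ, m, κ, hm, hκ, hΓ, hΓs, hΓe, hFx⟩ :=
      unl T Q F hQ hF hd hT φ₀ φ₀' hφ c₀ hc hQφ M hM a₀ ha hD V hV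
    have h2 : V.valuation (2 : C) = 1 := by
      have := hV.res_char 2 Nat.prime_two (by norm_num)
      simpa using this
    have e0 : m * (m⁻¹ * h) = h := by
      rw [← mul_assoc, Matrix.mul_nonsing_inv _ (isUnit_iff_ne_zero.2 hm), one_mul]
    have hd1 : (m⁻¹ * h).det ≠ 0 := by
      intro h0
      apply hh
      rw [← e0, Matrix.det_mul, h0, mul_zero]
    have hE1 : sb (m⁻¹ * h) (map (algebraMap V C) Γ) = MvPolynomial.C (κ * c0) * RB b := by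
      rw [hΓe, map_mul, PQ.sb_C, PQ.sb_sb, e0, hE, map_mul]
      ring
    obtain ⟨u1, u2, u3⟩ := nin (K := K) V h2 Γ hΓ hΓs (m⁻¹ * h) hd1 (κ * c0) (mul_ne_zero hκ hc0)
      b hb hE1
    exact ⟨u1, u2, fun σ hσ => u3 σ hσ (hFx σ hσ)⟩
  obtain ⟨P, hP0, hP1, hP2, hP3⟩ := ESH.htl T 3 (37 ^ 12 * 42 ^ 5) (b i r) (hb.ne i r)
    (hb.one i r hi hr) hdeg
    (fun V hV => ⟨(hloc V hV).1 i r, (hloc V hV).2.1 i r hi hr⟩)
    (fun V hV σ hσ => (hloc V hV).2.2 σ hσ i r)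
  have hs' := UNF_s hs16
  refine ⟨P, hP0, ?_, fun j => ?_, hP2⟩
  · exact hP1.trans ((UNF_tw 5 2 _ _ hs').trans (ESH.tw_mono (by norm_num) le_rfl))
  · exact (hP3 j).trans (Int.ofNat_le.2 (UNF_tw 90 2 _ _ hs'))

end Pool.Agent.T1
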