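import Pool.Agent.T1.LMQ
import Pool.Agent.T1.IFX

/-!
# T1 / UNL: local models of the plane quartics

`lmq`: `φ, φ', c, u, l, G`.  `O := φ₀' * φ`.  `ls O qd = C (c / c₀) * qd`: `C c₀ * ls O qd = ls O (ls φ₀ Q) = ls (φ₀ * φ₀' * φ) Q = ls φ Q = C c * qd`.  `dfb_sim`: `Sim O (c / c₀)`.
`dfb_ow`: `dW (ow O M) = C a₀ * dF (ls O (ls φ₀ F)) = C a₀ * dF (ls φ F)`, and `dF (map G) = C u * dF (ls φ F)` (`dfb_qd`, `dfb_C`), so `dW (ow O M) = C (a₀ / u) * map (algebraMap V C) (dF G)` (`dfb_map`).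
`ifx` for the web `ow O M` (`Sy.ow`) and `D := dF G` (`BH_dF`; `Smo (map residue (dF G))` from `dfb_smo`, `dfb_map`; `hfix`: coefficients of `map (algebraMap V C) (dF G)`, which is fixed by `Fx K V G`, `dfb_map`): `h, c', Γ`.
`map (algebraMap V C) Γ = C c' * sb h (qt (ow O M)) = C c' * sb h (C (c / c₀) * qt M)` (`qt_ow`).
-/

namespace Pool.Agent.T1

open MvPolynomial Matrix NumberField IsDedekindDomain
open Pool.Agent.PQ (P3 NS sb)

theorem unl {K C : Type*} [Field K] [NumberField K] [Field C] [Algebra K C] [Algebra.IsAlgebraic K C]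
    [IsAlgClosed C] (T : Finset (HeightOneSpectrum (𝓞 K))) (Q F : MvPolynomial (Fin 4) K)
    (hQ : Q.IsHomogeneous 2) (hF : F.IsHomogeneous 3) (hd : (hs Q).det ≠ 0) (hT : GoodCO T Q F)
    (φ₀ : Matrix (Fin 4) (Fin 2 × Fin 2) C) (φ₀' : Matrix (Fin 2 × Fin 2) (Fin 4) C) (hφ : φ₀ * φ₀' = 1)
    (c₀ : C) (hc : c₀ ≠ 0) (hQφ : ls φ₀ (map (algebraMap K C) Q) = MvPolynomial.C c₀ * qd C)
    (M : Web C) (hM : Sy M) (a₀ : C) (ha : a₀ ≠ 0)
    (hD : dW M = MvPolynomial.C a₀ * dF (ls φ₀ (map (algebraMap K C) F)))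
    (V : ValuationSubring C) (hV : ESH.GoodV T 3 V) :
    ∃ (Γ : P3 V) (m : Matrix (Fin 3) (Fin 3) C) (κ : C), m.det ≠ 0 ∧ κ ≠ 0 ∧ Γ.IsHomogeneous 4 ∧
      NS (map (IsLocalRing.residue V) Γ) ∧
      map (algebraMap V C) Γ = MvPolynomial.C κ * sb m (qt M) ∧ Fx K V Γ := by
  have hC0 : CharZero C := charZero_of_injective_algebraMap (algebraMap K C).injective
  obtain ⟨φ, φ', c, u, l, G, -, -, hcc, hu, hG, hQ', hG', hCN, hFx⟩ := lmq T Q F hQ hF hd hT V hV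
  obtain ⟨O, hO⟩ : ∃ O : Matrix (Fin 2 × Fin 2) (Fin 2 × Fin 2) C, O = φ₀' * φ := ⟨_, rfl⟩
  have h3 : ∀ G : MvPolynomial (Fin 4) C, ls O (ls φ₀ G) = ls φ G := by
    intro G
    rw [ls_ls, hO, ← Matrix.mul_assoc, hφ, Matrix.one_mul]
  have h4 : ls O (qd C) = MvPolynomial.C (c / c₀) * qd C := by
    have h := h3 (map (algebraMap K C) Q)
    rw [hQφ, hQ', map_mul, ls_C] at h
    have h5 : (MvPolynomial.C c₀ : MvPolynomial (Fin 2 × Fin 2) C) *
        MvPolynomial.C (c / c₀) = MvPolynomial.C c := by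
      rw [← MvPolynomial.C_mul, mul_div_cancel₀ _ hc]
    rw [← h5, mul_assoc] at h
    exact mul_left_cancel₀ (by rwa [Ne, MvPolynomial.C_eq_zero]) h
  have hSim := dfb_sim h4
  have h7 := dfb_ow O _ hSim M a₀ (ls φ₀ (map (algebraMap K C) F)) (ls_hom _ (hF.map _)) hD
  rw [h3] at h7
  have h8 : map (algebraMap V C) (dF G) = MvPolynomial.C u * dF (ls φ (map (algebraMap K C) F)) := by
    rw [dfb_map, hG', map_add, map_mul, map_mul, dfb_C, dfb_qd, mul_zero, add_zero]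
  have h9 : dW (ow O M) = MvPolynomial.C (a₀ / u) * map (algebraMap V C) (dF G) := by
    rw [h7, h8, ← mul_assoc, ← MvPolynomial.C_mul, div_mul_cancel₀ _ hu]
  have hS : Smo (map (IsLocalRing.residue V) (dF G)) := by
    rw [dfb_map]
    exact dfb_smo _ hCN
  have hfix : ∀ σ : C ≃ₐ[K] C, ESH.Inert V σ → ∀ m, σ (((dF G).coeff m : V) : C) = ((dF G).coeff m : V) := by
    intro σ hσ m
    have h10 := congrArg (fun p => coeff m (dF p)) (hFx σ hσ)
    simp only [← dfb_map, coeff_map] at h10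
    exact h10
  obtain ⟨h, c', Γ, hdet, hc', hΓ, hNS, hΓe, hΓf⟩ := ifx T V hV (dF G) (BH_dF hG) hS hfix (ow O M)
    (hM.ow O) (a₀ / u) (div_ne_zero ha hu) h9
  have hne : c / c₀ ≠ 0 := div_ne_zero hcc hc
  rw [qt_ow two_ne_zero O (c / c₀) hne hSim M] at hΓe
  refine ⟨Γ, h, c' * (c / c₀), hdet, mul_ne_zero hc' hne, hΓ, hNS, ?_, ?_⟩
  · have h11 : sb h (MvPolynomial.C (c / c₀) * qt M) = MvPolynomial.C (c / c₀) * sb h (qt M) := by
      rw [map_mul]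
      congr 1
      exact (sb h).commutes _
    rw [hΓe, h11, MvPolynomial.C_mul, mul_assoc]
  · intro σ hσ
    ext m
    rw [coeff_map, coeff_map]
    exact hΓf σ hσ m

end Pool.Agent.T1
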